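import Mathlib

/-!
Navier-Stokes trajectories in planar domains (MP_79abb3_an), and the reduced one-dimensional system
for horizontally affine flows `u = (x g(t,y) + h(t,y), -∫₀^y g(t,·))`.
-/

set_option autoImplicit false

open MeasureTheory Set Function
open scoped ContDiff

namespace Pool.Agent.Lib.MP_79abb3_an

/-- `∂_t`; points are `z = (t, x, y)`. -/
noncomputable def dt (φ : ℝ × ℝ × ℝ → ℝ) (z : ℝ × ℝ × ℝ) : ℝ := fderiv ℝ φ z (1, 0, 0)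

/-- `∂_x` -/
noncomputable def dx (φ : ℝ × ℝ × ℝ → ℝ) (z : ℝ × ℝ × ℝ) : ℝ := fderiv ℝ φ z (0, 1, 0)

/-- `∂_y` -/
noncomputable def dy (φ : ℝ × ℝ × ℝ → ℝ) (z : ℝ × ℝ × ℝ) : ℝ := fderiv ℝ φ z (0, 0, 1)

/-- The Laplacian in the space variables `(x, y)`. -/
noncomputable def lap (φ : ℝ × ℝ × ℝ → ℝ) (z : ℝ × ℝ × ℝ) : ℝ := dx (dx φ) z + dy (dy φ) z

/-- Test functions `φ ∈ C_c^∞((0,T) × Ω)`. -/
structure IsTest (T : ℝ) (Ω : Set (ℝ × ℝ)) (φ : ℝ × ℝ × ℝ → ℝ) : Prop where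
  smooth : ContDiff ℝ ∞ φ
  cpt : HasCompactSupport φ
  supp : tsupport φ ⊆ Ioo 0 T ×ˢ Ω

/-- `u = (u₁, u₂)` is a trajectory on `[0,T]` of the Navier-Stokes system with viscosity one in the
planar domain `Ω`, with pressure `p` and with no-slip condition on `∂Ω ∖ Γ`:
`u` is continuous on `[0,T] × closure Ω`, Lipschitz in space uniformly in time, vanishes on the wall
`∂Ω ∖ Γ`, and `∂_t u + (u·∇)u - Δu + ∇p = 0`, `div u = 0` hold in the sense of distributions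
in `(0,T) × Ω`, for a bounded measurable pressure `p`. -/
structure IsTrajectory (Ω Γ : Set (ℝ × ℝ)) (T : ℝ) (u₁ u₂ p : ℝ × ℝ × ℝ → ℝ) : Prop where
  cont₁ : ContinuousOn u₁ (Icc 0 T ×ˢ closure Ω)
  cont₂ : ContinuousOn u₂ (Icc 0 T ×ˢ closure Ω)
  lip : ∃ K, ∀ t ∈ Icc 0 T, LipschitzOnWith K (fun q : ℝ × ℝ => u₁ (t, q)) (closure Ω) ∧
    LipschitzOnWith K (fun q : ℝ × ℝ => u₂ (t, q)) (closure Ω)
  wall : ∀ t ∈ Icc 0 T, ∀ q ∈ frontier Ω \ Γ, u₁ (t, q) = 0 ∧ u₂ (t, q) = 0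
  meas : Measurable p
  bdd : ∃ C, ∀ z, |p z| ≤ C
  div : ∀ φ, IsTest T Ω φ → ∫ z, (u₁ z * dx φ z + u₂ z * dy φ z) = 0
  ns₁ : ∀ φ, IsTest T Ω φ →
    ∫ z, (u₁ z * dt φ z + u₁ z * (u₁ z * dx φ z + u₂ z * dy φ z) + u₁ z * lap φ z + p z * dx φ z) = 0
  ns₂ : ∀ φ, IsTest T Ω φ →
    ∫ z, (u₂ z * dt φ z + u₂ z * (u₁ z * dx φ z + u₂ z * dy φ z) + u₂ z * lap φ z + p z * dy φ z) = 0

/-- The reduced system on `[0,T] × [0,L]`, with time derivatives off a countable set `J`: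
`G = ∫₀^y g`, `v = g_y`, `k = h_y`, `g_t + g² - G g_y = g_yy + P`, `h_t + g h - G h_y = h_yy`
(once integrated in `y`), with `g = h = 0` at `y = 0`. -/
structure Tr (T L : ℝ) (J : Set ℝ) (g v h k : ℝ → ℝ → ℝ) (P : ℝ → ℝ) : Prop where
  count : J.Countable
  cg : ContinuousOn (uncurry g) (Icc 0 T ×ˢ Icc 0 L)
  ch : ContinuousOn (uncurry h) (Icc 0 T ×ˢ Icc 0 L)
  cv : ContinuousOn (uncurry v) ((Icc 0 T \ J) ×ˢ Icc 0 L)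
  ck : ContinuousOn (uncurry k) ((Icc 0 T \ J) ×ˢ Icc 0 L)
  cP : ContinuousOn P (Icc 0 T \ J)
  bd : ∃ C, ∀ t ∈ Icc 0 T \ J, |P t| ≤ C ∧ ∀ y ∈ Icc 0 L, |v t y| ≤ C ∧ |k t y| ≤ C
  dg : ∀ t ∈ Icc 0 T \ J, ∀ y ∈ Icc 0 L, HasDerivWithinAt (g t) (v t y) (Icc 0 L) y
  dh : ∀ t ∈ Icc 0 T \ J, ∀ y ∈ Icc 0 L, HasDerivWithinAt (h t) (k t y) (Icc 0 L) y
  zg : ∀ t ∈ Icc 0 T, g t 0 = 0
  zh : ∀ t ∈ Icc 0 T, h t 0 = 0
  tg : ∀ t ∈ Ioo 0 T \ J, ∀ y ∈ Icc 0 L, HasDerivAt (fun s => ∫ z in (0:ℝ)..y, g s z)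
    (v t y - v t 0 + (∫ z in (0:ℝ)..y, ((∫ x in (0:ℝ)..z, g t x) * v t z - g t z ^ 2)) + P t * y) t
  th : ∀ t ∈ Ioo 0 T \ J, ∀ y ∈ Icc 0 L, HasDerivAt (fun s => ∫ z in (0:ℝ)..y, h s z)
    (k t y - k t 0 + ∫ z in (0:ℝ)..y, ((∫ x in (0:ℝ)..z, g t x) * k t z - g t z * h t z)) t

end Pool.Agent.Lib.MP_79abb3_an
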