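import Pool.Agent.Lib.MP_79abb3_an.Heat

/-!
Duhamel integrals.
-/

set_option autoImplicit false
set_option linter.unusedSectionVars false
set_option linter.unusedVariables false

open MeasureTheory Set Filter Topology Real ProbabilityTheory Function

namespace Pool.Agent.Lib.MP_79abb3_an

/-- Continuous with weight. -/
structure Wt (A μ : ℝ) (f : ℝ → ℝ) : Prop where
  cont : Continuous f
  bd : ∀ y, |f y| ≤ A * exp (-μ * |y|)

section wt
variable {A μ : ℝ} {f : ℝ → ℝ}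

theorem Wt.nonneg (h : Wt A μ f) : 0 ≤ A := by
  have h1 := h.bd 0
  have h2 := abs_nonneg (f 0)
  simp at h1
  linarith

theorem Wt.bd' (h : Wt A μ f) (hμ : 0 ≤ μ) (y : ℝ) : |f y| ≤ A := by
  refine (h.bd y).trans ?_
  have h1 : exp (-μ * |y|) ≤ 1 := by
    rw [exp_le_one_iff]
    have := mul_nonneg hμ (abs_nonneg y)
    linarith
  calc A * exp (-μ * |y|) ≤ A * 1 := by have := h.nonneg; gcongr
    _ = A := mul_one _

theorem Wt.gr (h : Wt A μ f) (hμ : 0 ≤ μ) : Gr A f := by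
  refine ⟨h.cont, fun y => (h.bd' hμ y).trans ?_⟩
  have h1 : (1:ℝ) ≤ exp |y| := one_le_exp (abs_nonneg y)
  calc A = A * 1 := (mul_one _).symm
    _ ≤ A * exp |y| := by have := h.nonneg; gcongr

theorem weight_shift (hμ : 0 ≤ μ) (hμ1 : μ ≤ 1) {a : ℝ} (ha : |a| ≤ 3) (y x : ℝ) :
    exp (-μ * |y + a * x|) ≤ exp (-μ * |y|) * exp (3 * |x|) := by
  rw [← exp_add]
  gcongr
  have h1 : |y| ≤ |y + a * x| + 3 * |x| := by
    calc |y| = |(y + a * x) + -(a * x)| := by congr 1; ring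
      _ ≤ |y + a * x| + |-(a * x)| := abs_add_le _ _
      _ = |y + a * x| + |a| * |x| := by rw [abs_neg, abs_mul]
      _ ≤ |y + a * x| + 3 * |x| := by gcongr
  have h2 : 0 ≤ 3 * |x| := by positivity
  nlinarith

theorem Wt.shift5 (h : Wt A μ f) (hμ : 0 ≤ μ) (hμ1 : μ ≤ 1) {a : ℝ} (ha : |a| ≤ 3) (y x : ℝ) :
    |f (y + a * x)| ≤ A * exp (-μ * |y|) * exp (5 * |x|) := by
  refine (h.bd _).trans ?_
  rw [mul_assoc]
  have := h.nonneg
  gcongr
  refine (weight_shift hμ hμ1 ha y x).trans ?_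
  gcongr
  norm_num

theorem Wt.shift5' (h : Wt A μ f) (hμ : 0 ≤ μ) (hμ1 : μ ≤ 1) {a : ℝ} (ha : |a| ≤ 3) (y x : ℝ) :
    |x * f (y + a * x)| ≤ A * exp (-μ * |y|) * exp (5 * |x|) := by
  rw [abs_mul]
  have h1 := h.bd (y + a * x)
  have h3 := weight_shift hμ hμ1 ha y x
  have h2 := abs_le_exp_abs x
  have := h.nonneg
  calc |x| * |f (y + a * x)| ≤ exp |x| * (A * (exp (-μ * |y|) * exp (3 * |x|))) := by
        gcongr; exact h1.trans (by gcongr)
    _ = A * exp (-μ * |y|) * (exp |x| * exp (3 * |x|)) := by ring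
    _ = A * exp (-μ * |y|) * exp (|x| + 3 * |x|) := by rw [← exp_add]
    _ ≤ A * exp (-μ * |y|) * exp (5 * |x|) := by gcongr; linarith [abs_nonneg x]

theorem Wt.abs_H (h : Wt A μ f) (hμ : 0 ≤ μ) (hμ1 : μ ≤ 1) {t : ℝ} (ht : t ≤ 1) (y : ℝ) :
    |H t f y| ≤ A * exp (-μ * |y|) * cE := abs_integral_le (h.shift5 hμ hμ1 (sq_le ht) y)

theorem Wt.abs_Gd (h : Wt A μ f) (hμ : 0 ≤ μ) (hμ1 : μ ≤ 1) {t : ℝ} (ht : t ≤ 1) (y : ℝ) :
    |Gd √(2 * t) f y| ≤ A * exp (-μ * |y|) * cE :=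
  abs_integral_le (h.shift5' hμ hμ1 (sq_le ht) y)

theorem Wt.abs_Dh (h : Wt A μ f) (hμ : 0 ≤ μ) (hμ1 : μ ≤ 1) {t : ℝ} (ht : t ≤ 1) (y : ℝ) :
    |Dh t f y| ≤ (√t)⁻¹ * (A * exp (-μ * |y|) * cE) := by
  rw [Dh, abs_mul, abs_of_nonneg (by positivity : 0 ≤ (√(2 * t))⁻¹)]
  have h1 := h.abs_Gd hμ hμ1 ht y
  have h2 := isq2_le (t := t)
  have h3 : 0 ≤ (√t)⁻¹ := by positivity
  gcongr

end wt

/-- Admissible sources. -/
structure Src (t0 A μ : ℝ) (n : ℝ → ℝ → ℝ) : Prop where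
  cont : ContinuousOn (uncurry n) (Ioc 0 t0 ×ˢ univ)
  bd : ∀ s ∈ Ioc 0 t0, ∀ y, |n s y| ≤ A * (√s)⁻¹ * exp (-μ * |y|)

/-- Duhamel integral. -/
noncomputable def Duh (n : ℝ → ℝ → ℝ) (t y : ℝ) : ℝ := ∫ s in (0:ℝ)..t, H (t - s) (n s) y

/-- Differentiated Duhamel integral. -/
noncomputable def DuhD (n : ℝ → ℝ → ℝ) (t y : ℝ) : ℝ := ∫ s in (0:ℝ)..t, Dh (t - s) (n s) y

theorem beta_le {s t : ℝ} (hs : 0 < s) (hst : s < t) :
    (√(t - s))⁻¹ * (√s)⁻¹ ≤ (√(t / 2))⁻¹ * ((√s)⁻¹ + (√(t - s))⁻¹) := by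
  have h1 : 0 < √s := sqrt_pos.2 hs
  have h2 : 0 < √(t - s) := sqrt_pos.2 (by linarith)
  have h3 : 0 < √(t / 2) := sqrt_pos.2 (by linarith)
  rcases le_total s (t / 2) with h | h
  · have h4 : (√(t - s))⁻¹ ≤ (√(t / 2))⁻¹ := by gcongr; linarith
    have h5 : 0 ≤ (√(t / 2))⁻¹ * (√(t - s))⁻¹ := by positivity
    have h6 : 0 ≤ (√s)⁻¹ := by positivity
    nlinarith
  · have h4 : (√s)⁻¹ ≤ (√(t / 2))⁻¹ := by gcongr
    have h5 : 0 ≤ (√(t / 2))⁻¹ * (√s)⁻¹ := by positivity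
    have h6 : 0 ≤ (√(t - s))⁻¹ := by positivity
    nlinarith

theorem intervalIntegrable_isq' (t a b : ℝ) :
    IntervalIntegrable (fun s : ℝ => (√(t - s))⁻¹) volume a b := by
  have := (intervalIntegrable_isq (t - a) (t - b)).comp_sub_left t
  simpa using this

theorem integral_isq' {t : ℝ} (ht : 0 ≤ t) : ∫ s in (0:ℝ)..t, (√(t - s))⁻¹ = 2 * √t := by
  have := intervalIntegral.integral_comp_sub_left (fun r : ℝ => (√r)⁻¹) (a := 0) (b := t) t
  rw [this, sub_self, sub_zero, integral_isq ht]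

theorem intervalIntegrable_beta {t : ℝ} (ht : 0 < t) :
    IntervalIntegrable (fun s : ℝ => (√(t - s))⁻¹ * (√s)⁻¹) volume 0 t := by
  rw [intervalIntegrable_iff_integrableOn_Ioo_of_le ht.le]
  have h1 : IntegrableOn (fun s : ℝ => (√(t / 2))⁻¹ * ((√s)⁻¹ + (√(t - s))⁻¹)) (Ioo 0 t) := by
    have := ((intervalIntegrable_isq 0 t).add (intervalIntegrable_isq' t 0 t)).const_mul
      ((√(t / 2))⁻¹)
    rwa [intervalIntegrable_iff_integrableOn_Ioo_of_le ht.le] at this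
  refine h1.mono' (by fun_prop) ?_
  rw [ae_restrict_iff' measurableSet_Ioo]
  refine ae_of_all _ fun s hs => ?_
  rw [Real.norm_eq_abs, abs_of_nonneg (by positivity)]
  exact beta_le hs.1 hs.2

theorem integral_beta_le {t : ℝ} (ht : 0 < t) :
    ∫ s in (0:ℝ)..t, (√(t - s))⁻¹ * (√s)⁻¹ ≤ 6 := by
  have h1 : IntervalIntegrable (fun s : ℝ => (√(t / 2))⁻¹ * ((√s)⁻¹ + (√(t - s))⁻¹)) volume 0 t :=
    ((intervalIntegrable_isq 0 t).add (intervalIntegrable_isq' t 0 t)).const_mul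
      ((√(t / 2))⁻¹)
  have h2 : ∫ s in (0:ℝ)..t, (√(t - s))⁻¹ * (√s)⁻¹ ≤
      ∫ s in (0:ℝ)..t, (√(t / 2))⁻¹ * ((√s)⁻¹ + (√(t - s))⁻¹) := by
    refine intervalIntegral.integral_mono_on_of_le_Ioo ht.le (intervalIntegrable_beta ht) h1 ?_
    intro s hs
    exact beta_le hs.1 hs.2
  refine h2.trans ?_
  rw [intervalIntegral.integral_const_mul, intervalIntegral.integral_add
    (intervalIntegrable_isq 0 t) (intervalIntegrable_isq' t 0 t), integral_isq ht.le,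
    integral_isq' ht.le]
  have h3 : 0 < √(t / 2) := sqrt_pos.2 (by linarith)
  rw [inv_mul_le_iff₀ h3]
  have h4 : 2 * √t + 2 * √t = √(16 * t) := by
    rw [sqrt_mul (by norm_num), show (16:ℝ) = 4 ^ 2 by norm_num, sqrt_sq (by norm_num)]; ring
  have h5 : √(t / 2) * 6 = √(18 * t) := by
    rw [show 18 * t = (t / 2) * 6 ^ 2 by ring, sqrt_mul (by linarith), sqrt_sq (by norm_num)]
  rw [h4, h5]
  gcongr
  norm_num

section src
variable {t0 A μ : ℝ} {n : ℝ → ℝ → ℝ}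

theorem Src.wt (h : Src t0 A μ n) {s : ℝ} (hs : s ∈ Ioc 0 t0) : Wt (A * (√s)⁻¹) μ (n s) :=
  ⟨by
    have := h.cont.comp_continuous (f := fun y : ℝ => (s, y)) (by fun_prop)
      fun y => ⟨hs, mem_univ _⟩
    exact this, h.bd s hs⟩

theorem Src.nonneg (h : Src t0 A μ n) (ht0 : 0 < t0) : 0 ≤ A := by
  have h1 := (h.wt ⟨ht0, le_rfl⟩).nonneg
  have h2 : 0 < (√t0)⁻¹ := by positivity
  exact nonneg_of_mul_nonneg_left h1 h2

theorem Src.mono (h : Src t0 A μ n) {t1 : ℝ} (ht : t1 ≤ t0) : Src t1 A μ n :=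
  ⟨h.cont.mono (by gcongr), fun s hs => h.bd s ⟨hs.1, hs.2.trans ht⟩⟩

theorem Src.contH (h : Src t0 A μ n) (hμ : 0 ≤ μ) (hμ1 : μ ≤ 1) :
    ContinuousOn (fun p : ℝ × ℝ × ℝ => √p.1 * H p.2.1 (n p.1) p.2.2)
      (Ioc 0 t0 ×ˢ Icc 0 1 ×ˢ univ) := by
  have e : (fun p : ℝ × ℝ × ℝ => √p.1 * H p.2.1 (n p.1) p.2.2) =
      fun p => ∫ x, √p.1 * n p.1 (p.2.2 + √(2 * p.2.1) * x) ∂γ := by
    ext p
    rw [integral_const_mul]
    rfl
  rw [e]
  refine continuousOn_gauss (C := A) ?_ ?_ ?_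
  · intro x
    refine ContinuousOn.mul (by fun_prop) ?_
    exact h.cont.comp (f := fun p : ℝ × ℝ × ℝ => (p.1, p.2.2 + √(2 * p.2.1) * x)) (by fun_prop)
      fun p hp => ⟨hp.1, mem_univ _⟩
  · intro p hp
    have := (h.wt hp.1).cont
    fun_prop
  · intro p hp x
    have h1 := (h.wt hp.1).shift5 hμ hμ1 (sq_le hp.2.1.2) p.2.2 x
    have h0 : 0 < √p.1 := sqrt_pos.2 hp.1.1
    have hA : 0 ≤ A := h.nonneg (hp.1.1.trans_le hp.1.2)
    rw [abs_mul, abs_of_pos h0]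
    have hw : exp (-μ * |p.2.2|) ≤ 1 := by
      rw [exp_le_one_iff]
      have := mul_nonneg hμ (abs_nonneg p.2.2)
      linarith
    calc √p.1 * |n p.1 (p.2.2 + √(2 * p.2.1) * x)|
        ≤ √p.1 * (A * (√p.1)⁻¹ * exp (-μ * |p.2.2|) * exp (5 * |x|)) := by gcongr
      _ = A * exp (-μ * |p.2.2|) * exp (5 * |x|) := by field_simp
      _ ≤ A * 1 * exp (5 * |x|) := by gcongr
      _ = A * exp (5 * |x|) := by ring

theorem Src.contGd (h : Src t0 A μ n) (hμ : 0 ≤ μ) (hμ1 : μ ≤ 1) :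
    ContinuousOn (fun p : ℝ × ℝ × ℝ => √p.1 * Gd √(2 * p.2.1) (n p.1) p.2.2)
      (Ioc 0 t0 ×ˢ Icc 0 1 ×ˢ univ) := by
  have e : (fun p : ℝ × ℝ × ℝ => √p.1 * Gd √(2 * p.2.1) (n p.1) p.2.2) =
      fun p => ∫ x, √p.1 * (x * n p.1 (p.2.2 + √(2 * p.2.1) * x)) ∂γ := by
    ext p
    rw [integral_const_mul]
    rfl
  rw [e]
  refine continuousOn_gauss (C := A) ?_ ?_ ?_
  · intro x
    refine ContinuousOn.mul (by fun_prop) (ContinuousOn.mul (by fun_prop) ?_)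
    exact h.cont.comp (f := fun p : ℝ × ℝ × ℝ => (p.1, p.2.2 + √(2 * p.2.1) * x)) (by fun_prop)
      fun p hp => ⟨hp.1, mem_univ _⟩
  · intro p hp
    have := (h.wt hp.1).cont
    fun_prop
  · intro p hp x
    have h1 := (h.wt hp.1).shift5' hμ hμ1 (sq_le hp.2.1.2) p.2.2 x
    have h0 : 0 < √p.1 := sqrt_pos.2 hp.1.1
    have hA : 0 ≤ A := h.nonneg (hp.1.1.trans_le hp.1.2)
    rw [abs_mul, abs_of_pos h0]
    have hw : exp (-μ * |p.2.2|) ≤ 1 := by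
      rw [exp_le_one_iff]
      have := mul_nonneg hμ (abs_nonneg p.2.2)
      linarith
    calc √p.1 * |x * n p.1 (p.2.2 + √(2 * p.2.1) * x)|
        ≤ √p.1 * (A * (√p.1)⁻¹ * exp (-μ * |p.2.2|) * exp (5 * |x|)) := by gcongr
      _ = A * exp (-μ * |p.2.2|) * exp (5 * |x|) := by field_simp
      _ ≤ A * 1 * exp (5 * |x|) := by gcongr
      _ = A * exp (5 * |x|) := by ring

/-- Continuity of `H (t-s) (n s) y` in `s`. -/
theorem Src.contH_time (h : Src t0 A μ n) (hμ : 0 ≤ μ) (hμ1 : μ ≤ 1) (ht0 : t0 ≤ 1) {t : ℝ}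
    (ht : t ≤ t0) (y : ℝ) : ContinuousOn (fun s => H (t - s) (n s) y) (Ioc 0 t) := by
  have h1 : ContinuousOn (fun s => √s * H (t - s) (n s) y) (Ioc 0 t) :=
    (h.contH hμ hμ1).comp (f := fun s : ℝ => (s, t - s, y)) (by fun_prop)
      fun s hs => ⟨⟨hs.1, hs.2.trans ht⟩, ⟨by show 0 ≤ t - s; linarith [hs.2], by
        show t - s ≤ 1; linarith [hs.1]⟩, mem_univ _⟩
  have h2 : ContinuousOn (fun s : ℝ => (√s)⁻¹) (Ioc 0 t) :=
    ContinuousOn.inv₀ (by fun_prop) fun s hs => (sqrt_pos.2 hs.1).ne'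
  refine (h2.mul h1).congr fun s hs => ?_
  have : √s ≠ 0 := (sqrt_pos.2 hs.1).ne'
  show H (t - s) (n s) y = (√s)⁻¹ * (√s * H (t - s) (n s) y)
  field_simp

theorem Src.contDh (h : Src t0 A μ n) (hμ : 0 ≤ μ) (hμ1 : μ ≤ 1) :
    ContinuousOn (fun p : ℝ × ℝ × ℝ => Dh p.2.1 (n p.1) p.2.2)
      (Ioc 0 t0 ×ˢ Ioc 0 1 ×ˢ univ) := by
  have h1 := (h.contGd hμ hμ1).mono (t := Ioc 0 t0 ×ˢ Ioc 0 1 ×ˢ univ) (by
    gcongr; exact Ioc_subset_Icc_self)
  have h2 : ContinuousOn (fun p : ℝ × ℝ × ℝ => (√p.1)⁻¹ * (√(2 * p.2.1))⁻¹)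
      (Ioc 0 t0 ×ˢ Ioc 0 1 ×ˢ univ) :=
    (ContinuousOn.inv₀ (by fun_prop) fun p hp => (sqrt_pos.2 hp.1.1).ne').mul
      (ContinuousOn.inv₀ (by fun_prop) fun p hp => sq_ne hp.2.1.1)
  refine (h2.mul h1).congr fun p hp => ?_
  have : √p.1 ≠ 0 := (sqrt_pos.2 hp.1.1).ne'
  show Dh p.2.1 (n p.1) p.2.2 = (√p.1)⁻¹ * (√(2 * p.2.1))⁻¹ * (√p.1 * Gd √(2 * p.2.1) (n p.1) p.2.2)
  unfold Dh
  field_simp

theorem Src.contDh_time (h : Src t0 A μ n) (hμ : 0 ≤ μ) (hμ1 : μ ≤ 1) (ht0 : t0 ≤ 1) {t : ℝ}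
    (ht : t ≤ t0) (y : ℝ) : ContinuousOn (fun s => Dh (t - s) (n s) y) (Ioo 0 t) :=
  (h.contDh hμ hμ1).comp (f := fun s : ℝ => (s, t - s, y)) (by fun_prop)
      fun s hs => ⟨⟨hs.1, hs.2.le.trans ht⟩, ⟨by show 0 < t - s; linarith [hs.2], by
        show t - s ≤ 1; linarith [hs.1]⟩, mem_univ _⟩

theorem Src.absH (h : Src t0 A μ n) (hμ : 0 ≤ μ) (hμ1 : μ ≤ 1) {s r : ℝ} (hs : s ∈ Ioc 0 t0)
    (hr : r ≤ 1) (y : ℝ) : |H r (n s) y| ≤ A * exp (-μ * |y|) * cE * (√s)⁻¹ := by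
  refine ((h.wt hs).abs_H hμ hμ1 hr y).trans (le_of_eq ?_)
  ring

theorem Src.absDh (h : Src t0 A μ n) (hμ : 0 ≤ μ) (hμ1 : μ ≤ 1) {s r : ℝ} (hs : s ∈ Ioc 0 t0)
    (hr : r ≤ 1) (y : ℝ) :
    |Dh r (n s) y| ≤ A * exp (-μ * |y|) * cE * ((√r)⁻¹ * (√s)⁻¹) := by
  refine ((h.wt hs).abs_Dh hμ hμ1 hr y).trans (le_of_eq ?_)
  ring

theorem Src.intH (h : Src t0 A μ n) (hμ : 0 ≤ μ) (hμ1 : μ ≤ 1) (ht0 : t0 ≤ 1) {t : ℝ}
    (ht : t ∈ Ioc 0 t0) (y : ℝ) :
    IntervalIntegrable (fun s => H (t - s) (n s) y) volume 0 t := by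
  rw [intervalIntegrable_iff_integrableOn_Ioc_of_le ht.1.le]
  have h1 : IntegrableOn (fun s : ℝ => A * exp (-μ * |y|) * cE * (√s)⁻¹) (Ioc 0 t) := by
    have := (intervalIntegrable_isq 0 t).const_mul (A * exp (-μ * |y|) * cE)
    rwa [intervalIntegrable_iff_integrableOn_Ioc_of_le ht.1.le] at this
  refine h1.mono' ((h.contH_time hμ hμ1 ht0 ht.2 y).aestronglyMeasurable measurableSet_Ioc) ?_
  rw [ae_restrict_iff' measurableSet_Ioc]
  exact ae_of_all _ fun s hs => h.absH hμ hμ1 ⟨hs.1, hs.2.trans ht.2⟩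
    (by linarith [hs.1, ht.2]) y

theorem Src.intDh (h : Src t0 A μ n) (hμ : 0 ≤ μ) (hμ1 : μ ≤ 1) (ht0 : t0 ≤ 1) {t : ℝ}
    (ht : t ∈ Ioc 0 t0) (y : ℝ) :
    IntervalIntegrable (fun s => Dh (t - s) (n s) y) volume 0 t := by
  rw [intervalIntegrable_iff_integrableOn_Ioo_of_le ht.1.le]
  have h1 : IntegrableOn (fun s : ℝ => A * exp (-μ * |y|) * cE * ((√(t - s))⁻¹ * (√s)⁻¹))
      (Ioo 0 t) := by
    have := (intervalIntegrable_beta ht.1).const_mul (A * exp (-μ * |y|) * cE)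
    rwa [intervalIntegrable_iff_integrableOn_Ioo_of_le ht.1.le] at this
  refine h1.mono' ((h.contDh_time hμ hμ1 ht0 ht.2 y).aestronglyMeasurable measurableSet_Ioo) ?_
  rw [ae_restrict_iff' measurableSet_Ioo]
  exact ae_of_all _ fun s hs => h.absDh hμ hμ1 ⟨hs.1, hs.2.le.trans ht.2⟩
    (by linarith [hs.1, ht.2]) y

theorem Src.abs_Duh (h : Src t0 A μ n) (hμ : 0 ≤ μ) (hμ1 : μ ≤ 1) (ht0 : t0 ≤ 1) {t : ℝ}
    (ht : t ∈ Ioc 0 t0) (y : ℝ) : |Duh n t y| ≤ 2 * √t * (A * cE) * exp (-μ * |y|) := by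
  have h1 := intervalIntegral.norm_integral_le_of_norm_le (f := fun s => H (t - s) (n s) y)
    (g := fun s => A * exp (-μ * |y|) * cE * (√s)⁻¹) (μ := volume) ht.1.le
    (ae_of_all _ fun s hs => h.absH hμ hμ1 ⟨hs.1, hs.2.trans ht.2⟩
      (by linarith [hs.1, ht.2]) y) ((intervalIntegrable_isq 0 t).const_mul _)
  rw [intervalIntegral.integral_const_mul, integral_isq ht.1.le] at h1
  refine h1.trans (le_of_eq ?_)
  ring

theorem Src.abs_DuhD (h : Src t0 A μ n) (hμ : 0 ≤ μ) (hμ1 : μ ≤ 1) (ht0 : t0 ≤ 1) {t : ℝ}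
    (ht : t ∈ Ioc 0 t0) (y : ℝ) : |DuhD n t y| ≤ 6 * (A * cE) * exp (-μ * |y|) := by
  have h1 := intervalIntegral.norm_integral_le_of_norm_le (f := fun s => Dh (t - s) (n s) y)
    (g := fun s => A * exp (-μ * |y|) * cE * ((√(t - s))⁻¹ * (√s)⁻¹)) (μ := volume) ht.1.le
    (ae_of_all _ fun s hs => h.absDh hμ hμ1 ⟨hs.1, hs.2.trans ht.2⟩
      (by linarith [hs.1, ht.2]) y) ((intervalIntegrable_beta ht.1).const_mul _)
  rw [intervalIntegral.integral_const_mul] at h1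
  refine h1.trans ?_
  have hA := h.nonneg (ht.1.trans_le ht.2)
  have := cE_pos
  calc A * exp (-μ * |y|) * cE * ∫ s in (0:ℝ)..t, (√(t - s))⁻¹ * (√s)⁻¹
      ≤ A * exp (-μ * |y|) * cE * 6 := by gcongr; exact integral_beta_le ht.1
    _ = _ := by ring

/-- Bounds for bounded sources. -/
theorem Src.abs_Duh' (h : Src t0 A μ n) (hμ : 0 ≤ μ) (hμ1 : μ ≤ 1) (ht0 : t0 ≤ 1) {B : ℝ}
    (hB : ∀ s ∈ Ioc 0 t0, ∀ y, |n s y| ≤ B * exp (-μ * |y|)) {t : ℝ}
    (ht : t ∈ Ioc 0 t0) (y : ℝ) : |Duh n t y| ≤ t * (B * cE) * exp (-μ * |y|) := by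
  have h1 := intervalIntegral.norm_integral_le_of_norm_le (f := fun s => H (t - s) (n s) y)
    (g := fun s => B * exp (-μ * |y|) * cE) (μ := volume) ht.1.le
    (ae_of_all _ fun s hs => ?_) (by simp)
  · rw [intervalIntegral.integral_const] at h1
    refine h1.trans (le_of_eq ?_)
    rw [smul_eq_mul]; ring
  · have hs' : s ∈ Ioc 0 t0 := ⟨hs.1, hs.2.trans ht.2⟩
    exact Wt.abs_H ⟨(h.wt hs').cont, hB s hs'⟩ hμ hμ1 (by linarith [hs.1, ht.2]) y

theorem Src.abs_DuhD' (h : Src t0 A μ n) (hμ : 0 ≤ μ) (hμ1 : μ ≤ 1) (ht0 : t0 ≤ 1) {B : ℝ}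
    (hB : ∀ s ∈ Ioc 0 t0, ∀ y, |n s y| ≤ B * exp (-μ * |y|)) {t : ℝ}
    (ht : t ∈ Ioc 0 t0) (y : ℝ) : |DuhD n t y| ≤ 2 * √t * (B * cE) * exp (-μ * |y|) := by
  have h1 := intervalIntegral.norm_integral_le_of_norm_le (f := fun s => Dh (t - s) (n s) y)
    (g := fun s => B * exp (-μ * |y|) * cE * (√(t - s))⁻¹) (μ := volume) ht.1.le
    (ae_of_all _ fun s hs => ?_) ((intervalIntegrable_isq' t 0 t).const_mul _)
  · rw [intervalIntegral.integral_const_mul, integral_isq' ht.1.le] at h1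
    refine h1.trans (le_of_eq ?_)
    ring
  · have hs' : s ∈ Ioc 0 t0 := ⟨hs.1, hs.2.trans ht.2⟩
    have := Wt.abs_Dh ⟨(h.wt hs').cont, hB s hs'⟩ hμ hμ1 (t := t - s) (by linarith [hs.1, ht.2]) y
    refine this.trans (le_of_eq ?_)
    ring

/-- Space derivative of Duhamel integrals. -/
theorem Src.hasDerivAt_Duh (h : Src t0 A μ n) (hμ : 0 ≤ μ) (hμ1 : μ ≤ 1) (ht0 : t0 ≤ 1) {t : ℝ}
    (ht : t ∈ Ioc 0 t0) (y : ℝ) : HasDerivAt (Duh n t) (DuhD n t y) y := by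
  refine (intervalIntegral.hasDerivAt_integral_of_dominated_loc_of_deriv_le
    (F := fun y s => H (t - s) (n s) y) (F' := fun y s => Dh (t - s) (n s) y)
    (bound := fun s => A * cE * ((√(t - s))⁻¹ * (√s)⁻¹)) (s := univ) univ_mem ?_
    (h.intH hμ hμ1 ht0 ht y) ?_ ?_ ((intervalIntegrable_beta ht.1).const_mul _) ?_).2
  · refine Eventually.of_forall fun z => ?_
    rw [uIoc_of_le ht.1.le]
    exact (h.contH_time hμ hμ1 ht0 ht.2 z).aestronglyMeasurable measurableSet_Ioc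
  · rw [uIoc_of_le ht.1.le, ← restrict_Ioo_eq_restrict_Ioc]
    exact (h.contDh_time hμ hμ1 ht0 ht.2 y).aestronglyMeasurable measurableSet_Ioo
  · refine ae_of_all _ fun s hs z _ => ?_
    rw [uIoc_of_le ht.1.le] at hs
    have h1 := h.absDh hμ hμ1 (r := t - s) ⟨hs.1, hs.2.trans ht.2⟩ (by linarith [hs.1, ht.2]) z
    have hA := h.nonneg (ht.1.trans_le ht.2)
    have hw : exp (-μ * |z|) ≤ 1 := by
      rw [exp_le_one_iff]
      have := mul_nonneg hμ (abs_nonneg z)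
      linarith
    have := cE_pos
    rw [Real.norm_eq_abs]
    calc _ ≤ _ := h1
      _ ≤ A * 1 * cE * ((√(t - s))⁻¹ * (√s)⁻¹) := by gcongr
      _ = _ := by ring
  · have : ∀ᵐ s : ℝ, s ≠ t := by
      rw [ae_iff]; simp
    filter_upwards [this] with s hst hs z _
    rw [uIoc_of_le ht.1.le] at hs
    have hs' : s < t := lt_of_le_of_ne hs.2 hst
    exact ((h.wt ⟨hs.1, hs.2.trans ht.2⟩).gr hμ).hasDerivAt_H (by linarith [hs.1, ht.2])
      (by linarith) z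

theorem Duh_scale (n : ℝ → ℝ → ℝ) {t : ℝ} (ht : 0 < t) (y : ℝ) :
    Duh n t y = ∫ σ in Ioo (0:ℝ) 1, √t * (√σ)⁻¹ * (√(t * σ) * H (t - t * σ) (n (t * σ)) y) := by
  have h1 := intervalIntegral.integral_comp_mul_left (fun s => H (t - s) (n s) y) (a := 0) (b := 1)
    ht.ne'
  rw [mul_zero, mul_one] at h1
  have h2 : Duh n t y = t * ∫ σ in (0:ℝ)..1, H (t - t * σ) (n (t * σ)) y := by
    rw [h1, smul_eq_mul, mul_inv_cancel_left₀ ht.ne']; rfl
  rw [h2, intervalIntegral.integral_of_le zero_le_one, integral_Ioc_eq_integral_Ioo,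
    ← integral_const_mul]
  refine setIntegral_congr_fun measurableSet_Ioo fun σ hσ => ?_
  have h3 : 0 < √σ := sqrt_pos.2 hσ.1
  have h4 : √(t * σ) = √t * √σ := sqrt_mul ht.le _
  have h5 : √t * √t = t := mul_self_sqrt ht.le
  rw [h4]
  field_simp
  rw [sq, h5, mul_comm]

theorem DuhD_scale (n : ℝ → ℝ → ℝ) {t : ℝ} (ht : 0 < t) (y : ℝ) :
    DuhD n t y = ∫ σ in Ioo (0:ℝ) 1, (√2)⁻¹ * ((√(1 - σ))⁻¹ * (√σ)⁻¹) *
      (√(t * σ) * Gd √(2 * (t - t * σ)) (n (t * σ)) y) := by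
  have h1 := intervalIntegral.integral_comp_mul_left (fun s => Dh (t - s) (n s) y) (a := 0) (b := 1)
    ht.ne'
  rw [mul_zero, mul_one] at h1
  have h2 : DuhD n t y = t * ∫ σ in (0:ℝ)..1, Dh (t - t * σ) (n (t * σ)) y := by
    rw [h1, smul_eq_mul, mul_inv_cancel_left₀ ht.ne']; rfl
  rw [h2, intervalIntegral.integral_of_le zero_le_one, integral_Ioc_eq_integral_Ioo,
    ← integral_const_mul]
  refine setIntegral_congr_fun measurableSet_Ioo fun σ hσ => ?_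
  have h3 : 0 < √σ := sqrt_pos.2 hσ.1
  have h3' : 0 < √(1 - σ) := sqrt_pos.2 (by linarith [hσ.2])
  have h4 : √(t * σ) = √t * √σ := sqrt_mul ht.le _
  have h5 : √t * √t = t := mul_self_sqrt ht.le
  have h6 : √(2 * (t - t * σ)) = √2 * (√t * √(1 - σ)) := by
    rw [show t - t * σ = t * (1 - σ) by ring, sqrt_mul (by norm_num), sqrt_mul ht.le]
  have h7 : 0 < √t := sqrt_pos.2 ht
  simp only [Dh]
  rw [h4]
  generalize hg : Gd √(2 * (t - t * σ)) (n (t * σ)) y = g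
  rw [h6]
  field_simp
  rw [sq, h5]

theorem Src.continuousOn_Duh (h : Src t0 A μ n) (hμ : 0 ≤ μ) (hμ1 : μ ≤ 1) (ht0 : t0 ≤ 1) :
    ContinuousOn (uncurry (Duh n)) (Ioc 0 t0 ×ˢ univ) := by
  have key : ContinuousOn (fun p : ℝ × ℝ => ∫ σ in Ioo (0:ℝ) 1,
      √p.1 * (√σ)⁻¹ * (√(p.1 * σ) * H (p.1 - p.1 * σ) (n (p.1 * σ)) p.2)) (Ioc 0 t0 ×ˢ univ) := by
    have hmem : ∀ σ ∈ Ioo (0:ℝ) 1, ∀ p ∈ Ioc 0 t0 ×ˢ (univ : Set ℝ),
        (p.1 * σ, p.1 - p.1 * σ, p.2) ∈ Ioc 0 t0 ×ˢ Icc (0:ℝ) 1 ×ˢ (univ : Set ℝ) := by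
      intro σ hσ p hp
      have h1 := hp.1.1
      have h2 := hp.1.2
      have h3 := hσ.1
      have h4 := hσ.2
      refine ⟨⟨by show 0 < p.1 * σ; positivity, ?_⟩, ⟨?_, ?_⟩, mem_univ _⟩
      · show p.1 * σ ≤ t0
        nlinarith
      · show 0 ≤ p.1 - p.1 * σ
        nlinarith
      · show p.1 - p.1 * σ ≤ 1
        nlinarith
    refine continuousOn_of_dominated (bound := fun σ => (√σ)⁻¹ * (A * cE)) ?_ ?_ ?_ ?_
    · intro p hp
      refine ContinuousOn.aestronglyMeasurable ?_ measurableSet_Ioo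
      refine ContinuousOn.mul (ContinuousOn.mul (by fun_prop)
        (ContinuousOn.inv₀ (by fun_prop) fun σ hσ => (sqrt_pos.2 hσ.1).ne')) ?_
      exact (h.contH hμ hμ1).comp (f := fun σ : ℝ => (p.1 * σ, p.1 - p.1 * σ, p.2))
        (by fun_prop) fun σ hσ => hmem σ hσ p hp
    · intro p hp
      rw [ae_restrict_iff' measurableSet_Ioo]
      refine ae_of_all _ fun σ hσ => ?_
      have hm := hmem σ hσ p hp
      have h1 := h.absH hμ hμ1 hm.1 hm.2.1.2 p.2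
      have h2 : 0 < √(p.1 * σ) := sqrt_pos.2 hm.1.1
      have hA := h.nonneg (hm.1.1.trans_le hm.1.2)
      have hw : exp (-μ * |p.2|) ≤ 1 := by
        rw [exp_le_one_iff]
        have := mul_nonneg hμ (abs_nonneg p.2)
        linarith
      have h3 : √p.1 ≤ 1 := by
        rw [sqrt_le_one]; exact hp.1.2.trans ht0
      have := cE_pos
      rw [Real.norm_eq_abs, abs_mul, abs_of_nonneg (by positivity : 0 ≤ √p.1 * (√σ)⁻¹), abs_mul,
        abs_of_pos h2]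
      calc √p.1 * (√σ)⁻¹ * (√(p.1 * σ) * |H (p.1 - p.1 * σ) (n (p.1 * σ)) p.2|)
          ≤ 1 * (√σ)⁻¹ * (√(p.1 * σ) * (A * exp (-μ * |p.2|) * cE * (√(p.1 * σ))⁻¹)) := by
            gcongr
        _ = (√σ)⁻¹ * (A * exp (-μ * |p.2|) * cE) := by field_simp
        _ ≤ (√σ)⁻¹ * (A * 1 * cE) := by gcongr
        _ = _ := by ring
    · have := (intervalIntegrable_isq 0 1).mul_const (A * cE)
      rwa [intervalIntegrable_iff_integrableOn_Ioo_of_le zero_le_one] at this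
    · rw [ae_restrict_iff' measurableSet_Ioo]
      refine ae_of_all _ fun σ hσ => ?_
      refine ContinuousOn.mul (by fun_prop) ?_
      exact (h.contH hμ hμ1).comp (f := fun p : ℝ × ℝ => (p.1 * σ, p.1 - p.1 * σ, p.2))
        (by fun_prop) fun p hp => hmem σ hσ p hp
  refine key.congr fun p hp => ?_
  exact Duh_scale n hp.1.1 p.2

theorem Src.continuousOn_DuhD (h : Src t0 A μ n) (hμ : 0 ≤ μ) (hμ1 : μ ≤ 1) (ht0 : t0 ≤ 1) :
    ContinuousOn (uncurry (DuhD n)) (Ioc 0 t0 ×ˢ univ) := by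
  have key : ContinuousOn (fun p : ℝ × ℝ => ∫ σ in Ioo (0:ℝ) 1,
      (√2)⁻¹ * ((√(1 - σ))⁻¹ * (√σ)⁻¹) *
      (√(p.1 * σ) * Gd √(2 * (p.1 - p.1 * σ)) (n (p.1 * σ)) p.2)) (Ioc 0 t0 ×ˢ univ) := by
    have hmem : ∀ σ ∈ Ioo (0:ℝ) 1, ∀ p ∈ Ioc 0 t0 ×ˢ (univ : Set ℝ),
        (p.1 * σ, p.1 - p.1 * σ, p.2) ∈ Ioc 0 t0 ×ˢ Icc (0:ℝ) 1 ×ˢ (univ : Set ℝ) := by
      intro σ hσ p hp
      have h1 := hp.1.1
      have h2 := hp.1.2
      have h3 := hσ.1
      have h4 := hσ.2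
      refine ⟨⟨by show 0 < p.1 * σ; positivity, ?_⟩, ⟨?_, ?_⟩, mem_univ _⟩
      · show p.1 * σ ≤ t0
        nlinarith
      · show 0 ≤ p.1 - p.1 * σ
        nlinarith
      · show p.1 - p.1 * σ ≤ 1
        nlinarith
    refine continuousOn_of_dominated (bound := fun σ => ((√(1 - σ))⁻¹ * (√σ)⁻¹) * (A * cE))
      ?_ ?_ ?_ ?_
    · intro p hp
      refine ContinuousOn.aestronglyMeasurable ?_ measurableSet_Ioo
      refine ContinuousOn.mul (ContinuousOn.mul (by fun_prop)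
        (ContinuousOn.mul (ContinuousOn.inv₀ (by fun_prop)
          fun σ hσ => (sqrt_pos.2 (by linarith [hσ.2])).ne')
        (ContinuousOn.inv₀ (by fun_prop) fun σ hσ => (sqrt_pos.2 hσ.1).ne'))) ?_
      exact (h.contGd hμ hμ1).comp (f := fun σ : ℝ => (p.1 * σ, p.1 - p.1 * σ, p.2))
        (by fun_prop) fun σ hσ => hmem σ hσ p hp
    · intro p hp
      rw [ae_restrict_iff' measurableSet_Ioo]
      refine ae_of_all _ fun σ hσ => ?_
      have hm := hmem σ hσ p hp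
      have h1 := (h.wt hm.1).abs_Gd hμ hμ1 hm.2.1.2 p.2
      have h2 : 0 < √(p.1 * σ) := sqrt_pos.2 hm.1.1
      have hA := h.nonneg (hm.1.1.trans_le hm.1.2)
      have hw : exp (-μ * |p.2|) ≤ 1 := by
        rw [exp_le_one_iff]
        have := mul_nonneg hμ (abs_nonneg p.2)
        linarith
      have h3 : (√2)⁻¹ ≤ 1 := by
        rw [inv_le_one₀ (by positivity)]
        exact one_le_sqrt.2 (by norm_num)
      have := cE_pos
      rw [Real.norm_eq_abs, abs_mul, abs_of_nonneg (by positivity :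
        0 ≤ (√2)⁻¹ * ((√(1 - σ))⁻¹ * (√σ)⁻¹)), abs_mul, abs_of_pos h2]
      calc (√2)⁻¹ * ((√(1 - σ))⁻¹ * (√σ)⁻¹) *
            (√(p.1 * σ) * |Gd √(2 * (p.1 - p.1 * σ)) (n (p.1 * σ)) p.2|)
          ≤ 1 * ((√(1 - σ))⁻¹ * (√σ)⁻¹) *
            (√(p.1 * σ) * (A * (√(p.1 * σ))⁻¹ * exp (-μ * |p.2|) * cE)) := by
            gcongr
        _ = ((√(1 - σ))⁻¹ * (√σ)⁻¹) * (A * exp (-μ * |p.2|) * cE) *
              (√(p.1 * σ) * (√(p.1 * σ))⁻¹) := by ring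
        _ = ((√(1 - σ))⁻¹ * (√σ)⁻¹) * (A * exp (-μ * |p.2|) * cE) := by
              rw [mul_inv_cancel₀ h2.ne', mul_one]
        _ ≤ ((√(1 - σ))⁻¹ * (√σ)⁻¹) * (A * 1 * cE) := by gcongr
        _ = _ := by ring
    · have := (intervalIntegrable_beta (t := 1) one_pos).mul_const (A * cE)
      rwa [intervalIntegrable_iff_integrableOn_Ioo_of_le zero_le_one] at this
    · rw [ae_restrict_iff' measurableSet_Ioo]
      refine ae_of_all _ fun σ hσ => ?_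
      refine ContinuousOn.mul (by fun_prop) ?_
      exact (h.contGd hμ hμ1).comp (f := fun p : ℝ × ℝ => (p.1 * σ, p.1 - p.1 * σ, p.2))
        (by fun_prop) fun p hp => hmem σ hσ p hp
  refine key.congr fun p hp => ?_
  exact DuhD_scale n hp.1.1 p.2

/-- Fubini on a triangle. -/
theorem triangle {k : ℝ → ℝ → ℝ} {t C : ℝ} (ht : 0 < t)
    (hk : ContinuousOn (uncurry k) {p | 0 < p.1 ∧ p.1 < p.2 ∧ p.2 ≤ t})
    (hb : ∀ s s', 0 < s → s < s' → s' ≤ t → |k s s'| ≤ C * ((√(s' - s))⁻¹ * (√s)⁻¹)) :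
    ∫ s in (0:ℝ)..t, ∫ s' in s..t, k s s' = ∫ s' in (0:ℝ)..t, ∫ s in (0:ℝ)..s', k s s' := by
  have hC : 0 ≤ C := by
    have h1 := hb (t / 2) t (by linarith) (by linarith) le_rfl
    have h2 := (abs_nonneg _).trans h1
    have h3 : 0 < (√(t - t / 2))⁻¹ * (√(t / 2))⁻¹ := by
      have h4 : 0 < √(t - t / 2) := sqrt_pos.2 (by linarith)
      have h5 : 0 < √(t / 2) := sqrt_pos.2 (by linarith)
      positivity
    exact nonneg_of_mul_nonneg_left h2 h3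
  set U : Set (ℝ × ℝ) := {p | 0 < p.1 ∧ p.1 < p.2 ∧ p.2 ≤ t} with hU
  have hUm : MeasurableSet U := by
    refine (measurableSet_lt measurable_const measurable_fst).inter
      ((measurableSet_lt measurable_fst measurable_snd).inter
      (measurableSet_le measurable_snd measurable_const))
  classical
  set K : ℝ × ℝ → ℝ := U.indicator (uncurry k) with hK
  have hKm : Measurable K := by
    rw [hK, ← piecewise_eq_indicator]
    exact hk.measurable_piecewise continuousOn_const hUm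
  set f : ℝ → ℝ := (Ioc 0 t).indicator fun s => (√s)⁻¹ with hf
  have hfi : Integrable f := by
    rw [hf, integrable_indicator_iff measurableSet_Ioc]
    have := intervalIntegrable_isq 0 t
    rwa [intervalIntegrable_iff_integrableOn_Ioc_of_le ht.le] at this
  have hc : Integrable (fun p : ℝ × ℝ => f p.2 * f (p.1 - p.2)) (volume.prod volume) :=
    hfi.convolution_integrand (ContinuousLinearMap.mul ℝ ℝ) hfi
  have hKi : Integrable K (volume.prod volume) := by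
    have h1 : Integrable (fun p : ℝ × ℝ => C * (f p.1 * f (p.2 - p.1))) (volume.prod volume) :=
      hc.swap.const_mul C
    refine h1.mono' hKm.aestronglyMeasurable (ae_of_all _ fun p => ?_)
    have hfn : ∀ x, 0 ≤ f x := fun x => indicator_nonneg (fun _ _ => by positivity) x
    by_cases hp : p ∈ U
    · have h2 : K p = k p.1 p.2 := by rw [hK, indicator_of_mem hp]; rfl
      have h3 : f p.1 = (√p.1)⁻¹ := by
        rw [hf, indicator_of_mem]
        exact ⟨hp.1, hp.2.1.le.trans hp.2.2⟩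
      have h4 : f (p.2 - p.1) = (√(p.2 - p.1))⁻¹ := by
        rw [hf, indicator_of_mem]
        exact ⟨by linarith [hp.2.1], by linarith [hp.1, hp.2.2]⟩
      rw [h2, h3, h4, Real.norm_eq_abs]
      refine (hb _ _ hp.1 hp.2.1 hp.2.2).trans (le_of_eq ?_)
      ring
    · have h2 : K p = 0 := by rw [hK, indicator_of_notMem hp]
      rw [h2, norm_zero]
      have := hfn p.1
      have := hfn (p.2 - p.1)
      positivity
  have hsw := integral_integral_swap (f := fun s s' => K (s, s')) (μ := volume) (ν := volume) hKi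
  have hL : ∫ s in (0:ℝ)..t, ∫ s' in s..t, k s s' = ∫ s, ∫ s', K (s, s') := by
    rw [intervalIntegral.integral_of_le ht.le]
    rw [← setIntegral_eq_integral_of_forall_compl_eq_zero (s := Ioc 0 t)
      (f := fun s => ∫ s', K (s, s'))]
    · refine setIntegral_congr_fun measurableSet_Ioc fun s hs => ?_
      rw [intervalIntegral.integral_of_le hs.2, ← integral_indicator measurableSet_Ioc]
      congr 1
      ext s'
      by_cases h : s' ∈ Ioc s t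
      · rw [indicator_of_mem h, hK, indicator_of_mem (show (s, s') ∈ U from ⟨hs.1, h.1, h.2⟩)]
        rfl
      · rw [indicator_of_notMem h, hK, indicator_of_notMem]
        exact fun h' => h ⟨h'.2.1, h'.2.2⟩
    · intro s hs
      have : ∀ s', K (s, s') = 0 := fun s' => by
        rw [hK, indicator_of_notMem]
        exact fun h' => hs ⟨h'.1, h'.2.1.le.trans h'.2.2⟩
      simp [this]
  have hR : ∫ s' in (0:ℝ)..t, ∫ s in (0:ℝ)..s', k s s' = ∫ s', ∫ s, K (s, s') := by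
    rw [intervalIntegral.integral_of_le ht.le]
    rw [← setIntegral_eq_integral_of_forall_compl_eq_zero (s := Ioc 0 t)
      (f := fun s' => ∫ s, K (s, s'))]
    · refine setIntegral_congr_fun measurableSet_Ioc fun s' hs => ?_
      rw [intervalIntegral.integral_of_le hs.1.le, integral_Ioc_eq_integral_Ioo,
        ← integral_indicator measurableSet_Ioo]
      congr 1
      ext s
      by_cases h : s ∈ Ioo 0 s'
      · rw [indicator_of_mem h, hK, indicator_of_mem (show (s, s') ∈ U from ⟨h.1, h.2, hs.2⟩)]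
        rfl
      · rw [indicator_of_notMem h, hK, indicator_of_notMem]
        exact fun h' => h ⟨h'.1, h'.2.1⟩
    · intro s' hs
      have : ∀ s, K (s, s') = 0 := fun s => by
        rw [hK, indicator_of_notMem]
        exact fun h' => hs ⟨h'.1.trans h'.2.1, h'.2.2⟩
      simp [this]
  rw [hL, hR, hsw]

/-- The time-integrated identity for Duhamel integrals. -/
theorem duh_time {t0 A A' μ : ℝ} {n N : ℝ → ℝ → ℝ} (h : Src t0 A μ n) (h' : Src t0 A' μ N)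
    (hμ : 0 ≤ μ) (hμ1 : μ ≤ 1) (ht0 : t0 ≤ 1)
    (hd : ∀ s ∈ Ioc 0 t0, ∀ y, HasDerivAt (n s) (N s y) y) {t : ℝ} (ht : t ∈ Ioc 0 t0) (y : ℝ) :
    Duh n t y = (∫ s in (0:ℝ)..t, n s y) + ∫ s in (0:ℝ)..t, DuhD N s y := by
  have hA' := h'.nonneg (ht.1.trans_le ht.2)
  have hni : IntervalIntegrable (fun s => n s y) volume 0 t := by
    have h1 : IntegrableOn (fun s : ℝ => A * exp (-μ * |y|) * (√s)⁻¹) (Ioc 0 t) := by
      have := (intervalIntegrable_isq 0 t).const_mul (A * exp (-μ * |y|))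
      rwa [intervalIntegrable_iff_integrableOn_Ioc_of_le ht.1.le] at this
    rw [intervalIntegrable_iff_integrableOn_Ioc_of_le ht.1.le]
    refine h1.mono' (ContinuousOn.aestronglyMeasurable ?_ measurableSet_Ioc) ?_
    · exact h.cont.comp (f := fun s : ℝ => (s, y)) (by fun_prop)
        fun s hs => ⟨⟨hs.1, hs.2.trans ht.2⟩, mem_univ _⟩
    · rw [ae_restrict_iff' measurableSet_Ioc]
      refine ae_of_all _ fun s hs => ?_
      refine (h.bd s ⟨hs.1, hs.2.trans ht.2⟩ y).trans (le_of_eq ?_)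
      ring
  have hH := h.intH hμ hμ1 ht0 ht y
  have e1 : Duh n t y - ∫ s in (0:ℝ)..t, n s y =
      ∫ s in (0:ℝ)..t, ∫ s' in s..t, Dh (s' - s) (N s) y := by
    rw [Duh, ← intervalIntegral.integral_sub hH hni]
    refine intervalIntegral.integral_congr_ae ?_
    refine ae_of_all _ fun s hs => ?_
    rw [uIoc_of_le ht.1.le] at hs
    have hs' : s ∈ Ioc 0 t0 := ⟨hs.1, hs.2.trans ht.2⟩
    have h1 := H_sub ((h.wt hs').gr hμ) ((h'.wt hs').gr hμ) (hd s hs') (t := t - s)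
      (by linarith [hs.1, ht.2]) (by linarith [hs.2]) y
    rw [h1, add_sub_cancel_left]
    have := intervalIntegral.integral_comp_sub_right (fun r => Dh r (N s) y) (a := s) (b := t) s
    rw [this, sub_self]
  have e2 := triangle (k := fun s s' => Dh (s' - s) (N s) y) (t := t)
    (C := A' * exp (-μ * |y|) * cE) ht.1 ?_ ?_
  · rw [e2] at e1
    have e3 : ∫ s in (0:ℝ)..t, DuhD N s y =
      ∫ s' in (0:ℝ)..t, ∫ s in (0:ℝ)..s', Dh (s' - s) (N s) y := rfl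
    rw [e3, ← e1]
    ring
  · exact (h'.contDh hμ hμ1).comp (f := fun p : ℝ × ℝ => (p.1, p.2 - p.1, y)) (by fun_prop)
      fun p hp => ⟨⟨hp.1, by show p.1 ≤ t0; linarith [hp.2.1, hp.2.2, ht.2]⟩,
        ⟨by show 0 < p.2 - p.1; linarith [hp.2.1], by
          show p.2 - p.1 ≤ 1; linarith [hp.1, hp.2.2, ht.2]⟩, mem_univ _⟩
  · intro s s' hs hss hs'
    exact h'.absDh hμ hμ1 ⟨hs, by linarith [ht.2]⟩ (by linarith [ht.2]) y

/-- The differentiated Duhamel integral of a differentiable source. -/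
theorem DuhD_eq {t0 A A' μ : ℝ} {n N : ℝ → ℝ → ℝ} (h : Src t0 A μ n) (h' : Src t0 A' μ N)
    (hμ : 0 ≤ μ) (hμ1 : μ ≤ 1) (ht0 : t0 ≤ 1)
    (hd : ∀ s ∈ Ioc 0 t0, ∀ y, HasDerivAt (n s) (N s y) y) {t : ℝ} (ht : t ∈ Ioc 0 t0) (y : ℝ) :
    DuhD n t y = Duh N t y := by
  refine intervalIntegral.integral_congr_ae ?_
  have : ∀ᵐ s : ℝ, s ≠ t := by
    rw [ae_iff]; simp
  filter_upwards [this] with s hst hs
  rw [uIoc_of_le ht.1.le] at hs
  have hs' : s ∈ Ioc 0 t0 := ⟨hs.1, hs.2.trans ht.2⟩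
  have h1 : s < t := lt_of_le_of_ne hs.2 hst
  exact Dh_eq ((h.wt hs').gr hμ) ((h'.wt hs').gr hμ) (hd s hs') (by linarith [hs.1, ht.2])
    (by linarith) y

theorem gauss_neg (F : ℝ → ℝ) : ∫ x, F (-x) ∂γ = ∫ x, F x ∂γ := by
  rw [integral_gaussianReal_eq_integral_smul one_ne_zero,
    integral_gaussianReal_eq_integral_smul one_ne_zero,
    ← integral_neg_eq_self (fun x => gaussianPDFReal 0 1 x • F x)]
  congr 1; ext x
  simp [gaussianPDFReal]

/-- Odd sources give odd Duhamel integrals. -/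
theorem H_odd {f : ℝ → ℝ} (hf : ∀ y, f (-y) = -f y) (t y : ℝ) : H t f (-y) = -H t f y := by
  unfold H Ga
  have h1 : ∫ x, f (-y + √(2 * t) * x) ∂γ = ∫ x, f (-y + √(2 * t) * -x) ∂γ :=
    (gauss_neg (fun x => f (-y + √(2 * t) * x))).symm
  rw [h1, ← integral_neg]
  congr 1; ext x
  rw [← hf]; congr 1; ring

theorem Duh_odd {n : ℝ → ℝ → ℝ} (hn : ∀ s y, n s (-y) = -n s y) (t y : ℝ) :
    Duh n t (-y) = -Duh n t y := by
  unfold Duh
  rw [← intervalIntegral.integral_neg]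
  congr 1; ext s
  exact H_odd (hn s) _ _

end src

end Pool.Agent.Lib.MP_79abb3_an
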