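import Mathlib

/-!
The flat (null-controlled) solution of the heat equation by a power series in `y` whose
coefficients are the derivatives of a product of a Gevrey cut-off and an analytic function.
-/

set_option autoImplicit false
set_option linter.unusedVariables false
set_option linter.unusedSectionVars false

open MeasureTheory Set Filter Topology Real Function
open scoped ContDiff

namespace Pool.Agent.Lib.MP_79abb3_an

/-! ### The majorant -/

/-- The majorant `((2x²)^k/k! + 2^{-k})/2` of `x^k/√k!`. -/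
noncomputable def fsM (x : ℝ) (k : ℕ) : ℝ :=
  ((2 * x ^ 2) ^ k / (Nat.factorial k : ℝ) + (1 / 2) ^ k) / 2

theorem fsM_hasSum (x : ℝ) : HasSum (fsM x) ((exp (2 * x ^ 2) + 2) / 2) := by
  have h1 : HasSum (fun k : ℕ => (2 * x ^ 2) ^ k / (Nat.factorial k : ℝ)) (exp (2 * x ^ 2)) := by
    have := NormedSpace.expSeries_div_hasSum_exp (𝔸 := ℝ) (2 * x ^ 2)
    rwa [← Real.exp_eq_exp_ℝ] at this
  have h2 : HasSum (fun k : ℕ => ((1 / 2 : ℝ)) ^ k) 2 := hasSum_geometric_two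
  exact (h1.add h2).div_const 2

theorem fsM_summable (x : ℝ) : Summable (fsM x) := (fsM_hasSum x).summable

theorem fsM_nonneg (x : ℝ) (k : ℕ) : 0 ≤ fsM x k := by
  unfold fsM
  positivity

theorem pow_div_sqrt_le (x : ℝ) (k : ℕ) :
    x ^ k / √(Nat.factorial k : ℝ) ≤ fsM x k := by
  have hf : (0:ℝ) < (Nat.factorial k : ℝ) := by exact_mod_cast Nat.factorial_pos k
  have hs : 0 < √(Nat.factorial k : ℝ) := Real.sqrt_pos.2 hf
  have h2 : (0:ℝ) < √2 := by positivity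
  set u := (√2 * x) ^ k / √(Nat.factorial k : ℝ) with hu
  set v := (1 / √2 : ℝ) ^ k with hv
  have huu : u ^ 2 = (2 * x ^ 2) ^ k / (Nat.factorial k : ℝ) := by
    rw [hu, div_pow, ← pow_mul, mul_comm k 2, pow_mul, mul_pow, Real.sq_sqrt (by norm_num),
      Real.sq_sqrt hf.le]
  have hvv : v ^ 2 = (1 / 2 : ℝ) ^ k := by
    rw [hv, ← pow_mul, mul_comm k 2, pow_mul, div_pow, Real.sq_sqrt (by norm_num)]
    norm_num
  have huv : u * v = x ^ k / √(Nat.factorial k : ℝ) := by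
    rw [hu, hv, div_mul_eq_mul_div, ← mul_pow]
    congr 2
    field_simp
  rw [← huv, fsM, ← huu, ← hvv]
  nlinarith [sq_nonneg (u - v)]

theorem rpow_three_half {f : ℝ} (hf : 0 ≤ f) : f ^ (3 / 2 : ℝ) = f * √f := by
  rw [Real.sqrt_eq_rpow]
  rcases eq_or_lt_of_le hf with h | h
  · rw [← h]
    norm_num
  · rw [show (3 / 2 : ℝ) = 1 + 1 / 2 by norm_num, Real.rpow_add h, Real.rpow_one]

theorem term_le {K B R a y N : ℝ} {k i : ℕ} (hK : 0 ≤ K) (hB : 0 ≤ B) (hR : 0 ≤ R)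
    (ha : |a| ≤ K * B ^ k * (Nat.factorial k : ℝ) ^ (3 / 2 : ℝ)) (hy : |y| ≤ R)
    (hN : (Nat.factorial k : ℝ) ^ 2 ≤ N) :
    |a * y ^ (2 * k + i) / N| ≤ K * R ^ i * fsM (B * R ^ 2) k := by
  have hf : (0:ℝ) < (Nat.factorial k : ℝ) := by exact_mod_cast Nat.factorial_pos k
  have hs : 0 < √(Nat.factorial k : ℝ) := Real.sqrt_pos.2 hf
  have hNpos : 0 < N := lt_of_lt_of_le (by positivity) hN
  rw [abs_div, abs_mul, abs_pow, abs_of_pos hNpos]
  have h1 : |a| * |y| ^ (2 * k + i) / N ≤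
      (K * B ^ k * (Nat.factorial k : ℝ) ^ (3 / 2 : ℝ)) * R ^ (2 * k + i) /
        (Nat.factorial k : ℝ) ^ 2 := by
    apply div_le_div₀ (by positivity) _ (by positivity) hN
    apply mul_le_mul ha (pow_le_pow_left₀ (abs_nonneg _) hy _) (by positivity) (by positivity)
  refine h1.trans ?_
  have h2 : (K * B ^ k * (Nat.factorial k : ℝ) ^ (3 / 2 : ℝ)) * R ^ (2 * k + i) /
        (Nat.factorial k : ℝ) ^ 2 = K * R ^ i * ((B * R ^ 2) ^ k / √(Nat.factorial k : ℝ)) := by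
    rw [rpow_three_half hf.le, mul_pow, ← pow_mul, pow_add]
    have h3 : (Nat.factorial k : ℝ) ^ 2 =
        (Nat.factorial k : ℝ) * (√(Nat.factorial k : ℝ) * √(Nat.factorial k : ℝ)) := by
      rw [Real.mul_self_sqrt hf.le, sq]
    rw [h3]
    field_simp
  rw [h2]
  exact mul_le_mul_of_nonneg_left (pow_div_sqrt_le _ _) (by positivity)

theorem fact_sq_le (k : ℕ) : (Nat.factorial k : ℝ) ^ 2 ≤ (Nat.factorial (2 * k) : ℝ) := by
  have h : Nat.factorial k * Nat.factorial k ∣ Nat.factorial (k + k) :=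
    Nat.factorial_mul_factorial_dvd_factorial_add k k
  have h' := Nat.le_of_dvd (Nat.factorial_pos _) h
  rw [sq, two_mul]
  exact_mod_cast h'

theorem fact_sq_le1 (k : ℕ) : (Nat.factorial k : ℝ) ^ 2 ≤ (Nat.factorial (2 * k + 1) : ℝ) :=
  (fact_sq_le k).trans (by exact_mod_cast Nat.factorial_le (by omega))

theorem fact_sq_le2 (k : ℕ) : (Nat.factorial k : ℝ) ^ 2 ≤ (Nat.factorial (2 * k + 2) : ℝ) :=
  (fact_sq_le k).trans (by exact_mod_cast Nat.factorial_le (by omega))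

/-! ### The three series -/

section Series

variable {a : ℕ → ℝ → ℝ} {r K B : ℝ}

/-- `w` -/
noncomputable def fw (a : ℕ → ℝ → ℝ) (t y : ℝ) : ℝ :=
  ∑' k, a k t * y ^ (2 * k + 1) / (Nat.factorial (2 * k + 1) : ℝ)

/-- `∂_y w` -/
noncomputable def fw' (a : ℕ → ℝ → ℝ) (t y : ℝ) : ℝ :=
  ∑' k, a k t * y ^ (2 * k) / (Nat.factorial (2 * k) : ℝ)

/-- `∫_0^y w` -/
noncomputable def fV (a : ℕ → ℝ → ℝ) (t y : ℝ) : ℝ :=
  ∑' k, a k t * y ^ (2 * k + 2) / (Nat.factorial (2 * k + 2) : ℝ)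

variable (hK : 0 ≤ K) (hB : 0 ≤ B)
  (ha : ∀ k, ∀ t ∈ Ioo (-r) r, |a k t| ≤ K * B ^ k * (Nat.factorial k : ℝ) ^ (3 / 2 : ℝ))
  (hd : ∀ k, ∀ t ∈ Ioo (-r) r, HasDerivAt (a k) (a (k + 1) t) t)

include hK hB ha

theorem fw'_term {R t y : ℝ} (hR : 0 ≤ R) (ht : t ∈ Ioo (-r) r) (hy : |y| ≤ R) (k : ℕ) :
    ‖a k t * y ^ (2 * k) / (Nat.factorial (2 * k) : ℝ)‖ ≤ K * fsM (B * R ^ 2) k := by
  have := term_le (i := 0) hK hB hR (ha k t ht) hy (fact_sq_le k)
  rwa [pow_zero, mul_one, add_zero] at this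

theorem fw_term {R t y : ℝ} (hR : 0 ≤ R) (ht : t ∈ Ioo (-r) r) (hy : |y| ≤ R) (k : ℕ) :
    ‖a k t * y ^ (2 * k + 1) / (Nat.factorial (2 * k + 1) : ℝ)‖ ≤
      K * R * fsM (B * R ^ 2) k := by
  have := term_le (i := 1) hK hB hR (ha k t ht) hy (fact_sq_le1 k)
  rwa [pow_one] at this

theorem fV_term {R t y : ℝ} (hR : 0 ≤ R) (ht : t ∈ Ioo (-r) r) (hy : |y| ≤ R) (k : ℕ) :
    ‖a k t * y ^ (2 * k + 2) / (Nat.factorial (2 * k + 2) : ℝ)‖ ≤
      K * R ^ 2 * fsM (B * R ^ 2) k :=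
  term_le (i := 2) hK hB hR (ha k t ht) hy (fact_sq_le2 k)

theorem fw'_summable {t : ℝ} (ht : t ∈ Ioo (-r) r) (y : ℝ) :
    Summable fun k => a k t * y ^ (2 * k) / (Nat.factorial (2 * k) : ℝ) :=
  Summable.of_norm_bounded ((fsM_summable _).mul_left K)
    (fw'_term hK hB ha (abs_nonneg y) ht le_rfl)

theorem fw_summable {t : ℝ} (ht : t ∈ Ioo (-r) r) (y : ℝ) :
    Summable fun k => a k t * y ^ (2 * k + 1) / (Nat.factorial (2 * k + 1) : ℝ) :=
  Summable.of_norm_bounded ((fsM_summable _).mul_left (K * |y|))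
    (fw_term hK hB ha (abs_nonneg y) ht le_rfl)

theorem fV_summable {t : ℝ} (ht : t ∈ Ioo (-r) r) (y : ℝ) :
    Summable fun k => a k t * y ^ (2 * k + 2) / (Nat.factorial (2 * k + 2) : ℝ) :=
  Summable.of_norm_bounded ((fsM_summable _).mul_left (K * |y| ^ 2))
    (fV_term hK hB ha (abs_nonneg y) ht le_rfl)

/-- Bounds for `w` and `w'`. -/
theorem fw_bound {R t y : ℝ} (hR : 0 ≤ R) (ht : t ∈ Ioo (-r) r) (hy : |y| ≤ R) :
    |fw a t y| ≤ K * R * ((exp (2 * (B * R ^ 2) ^ 2) + 2) / 2) := by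
  have := tsum_of_norm_bounded ((fsM_hasSum (B * R ^ 2)).mul_left (K * R))
    (fw_term hK hB ha hR ht hy)
  simpa [fw] using this

theorem fw'_bound {R t y : ℝ} (hR : 0 ≤ R) (ht : t ∈ Ioo (-r) r) (hy : |y| ≤ R) :
    |fw' a t y| ≤ K * ((exp (2 * (B * R ^ 2) ^ 2) + 2) / 2) := by
  have := tsum_of_norm_bounded ((fsM_hasSum (B * R ^ 2)).mul_left K)
    (fw'_term hK hB ha hR ht hy)
  simpa [fw'] using this

/-- Derivatives in `y`. -/
theorem fw_hasDerivAt {t : ℝ} (ht : t ∈ Ioo (-r) r) (y : ℝ) :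
    HasDerivAt (fw a t) (fw' a t y) y := by
  set R := |y| + 1 with hR
  have hR0 : 0 ≤ R := by positivity
  refine hasDerivAt_tsum_of_isPreconnected (F := ℝ) (t := Ioo (-R) R)
    (g := fun k z => a k t * z ^ (2 * k + 1) / (Nat.factorial (2 * k + 1) : ℝ))
    (g' := fun k z => a k t * z ^ (2 * k) / (Nat.factorial (2 * k) : ℝ))
    (u := fun k => K * fsM (B * R ^ 2) k) (y₀ := y)
    ((fsM_summable _).mul_left K) isOpen_Ioo isPreconnected_Ioo ?_ ?_ ?_ ?_ ?_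
  · intro k z hz
    have h := ((hasDerivAt_pow (2 * k + 1) z).const_mul (a k t)).div_const
      (Nat.factorial (2 * k + 1) : ℝ)
    refine h.congr_deriv ?_
    rw [Nat.factorial_succ]
    have hf : (Nat.factorial (2 * k) : ℝ) ≠ 0 := by positivity
    have hk : ((2 * k + 1 : ℕ) : ℝ) ≠ 0 := by positivity
    push_cast at hk ⊢
    field_simp
  · intro k z hz
    exact fw'_term hK hB ha hR0 ht (abs_le.2 ⟨hz.1.le, hz.2.le⟩) k
  · exact ⟨by linarith [neg_abs_le y], by linarith [le_abs_self y]⟩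
  · exact fw_summable hK hB ha ht y
  · exact ⟨by linarith [neg_abs_le y], by linarith [le_abs_self y]⟩

theorem fV_hasDerivAt {t : ℝ} (ht : t ∈ Ioo (-r) r) (y : ℝ) :
    HasDerivAt (fV a t) (fw a t y) y := by
  set R := |y| + 1 with hR
  have hR0 : 0 ≤ R := by positivity
  refine hasDerivAt_tsum_of_isPreconnected (F := ℝ) (t := Ioo (-R) R)
    (g := fun k z => a k t * z ^ (2 * k + 2) / (Nat.factorial (2 * k + 2) : ℝ))
    (g' := fun k z => a k t * z ^ (2 * k + 1) / (Nat.factorial (2 * k + 1) : ℝ))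
    (u := fun k => K * R * fsM (B * R ^ 2) k) (y₀ := y)
    ((fsM_summable _).mul_left (K * R)) isOpen_Ioo isPreconnected_Ioo ?_ ?_ ?_ ?_ ?_
  · intro k z hz
    have h := ((hasDerivAt_pow (2 * k + 2) z).const_mul (a k t)).div_const
      (Nat.factorial (2 * k + 2) : ℝ)
    refine h.congr_deriv ?_
    rw [Nat.factorial_succ (2 * k + 1)]
    have hf : (Nat.factorial (2 * k + 1) : ℝ) ≠ 0 := by positivity
    have hk : ((2 * k + 1 + 1 : ℕ) : ℝ) ≠ 0 := by positivity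
    rw [show 2 * k + 2 - 1 = 2 * k + 1 by omega]
    push_cast at hk ⊢
    field_simp
    ring
  · intro k z hz
    exact fw_term hK hB ha hR0 ht (abs_le.2 ⟨hz.1.le, hz.2.le⟩) k
  · exact ⟨by linarith [neg_abs_le y], by linarith [le_abs_self y]⟩
  · exact fV_summable hK hB ha ht y
  · exact ⟨by linarith [neg_abs_le y], by linarith [le_abs_self y]⟩

include hd in
/-- Joint continuity. -/
theorem fw_continuousOn : ContinuousOn (uncurry (fw a)) (Ioo (-r) r ×ˢ univ) := by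
  rintro ⟨t, y⟩ ⟨ht, -⟩
  set R := |y| + 1 with hR
  have hR0 : 0 ≤ R := by positivity
  have h : ContinuousOn (fun p : ℝ × ℝ => ∑' k, a k p.1 * p.2 ^ (2 * k + 1) /
      (Nat.factorial (2 * k + 1) : ℝ)) (Ioo (-r) r ×ˢ Ioo (-R) R) := by
    refine continuousOn_tsum (u := fun k => K * R * fsM (B * R ^ 2) k) ?_
      ((fsM_summable _).mul_left (K * R)) ?_
    · rintro k ⟨s, z⟩ ⟨hs, hz⟩
      have h1 : ContinuousAt (fun p : ℝ × ℝ => a k p.1) (s, z) :=
        ContinuousAt.comp (x := (s, z)) (hd k s hs).continuousAt continuousAt_fst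
      exact ((h1.mul (continuousAt_snd.pow _)).div_const _).continuousWithinAt
    · rintro k ⟨s, z⟩ ⟨hs, hz⟩
      exact fw_term hK hB ha hR0 hs (abs_le.2 ⟨hz.1.le, hz.2.le⟩) k
  have hmem : Ioo (-r) r ×ˢ Ioo (-R) R ∈ 𝓝 ((t, y) : ℝ × ℝ) :=
    (isOpen_Ioo.prod isOpen_Ioo).mem_nhds
      ⟨ht, by constructor <;> simp only <;> [linarith [neg_abs_le y]; linarith [le_abs_self y]]⟩
  exact (h.continuousAt hmem).continuousWithinAt

include hd in
theorem fw'_continuousOn : ContinuousOn (uncurry (fw' a)) (Ioo (-r) r ×ˢ univ) := by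
  rintro ⟨t, y⟩ ⟨ht, -⟩
  set R := |y| + 1 with hR
  have hR0 : 0 ≤ R := by positivity
  have h : ContinuousOn (fun p : ℝ × ℝ => ∑' k, a k p.1 * p.2 ^ (2 * k) /
      (Nat.factorial (2 * k) : ℝ)) (Ioo (-r) r ×ˢ Ioo (-R) R) := by
    refine continuousOn_tsum (u := fun k => K * fsM (B * R ^ 2) k) ?_
      ((fsM_summable _).mul_left K) ?_
    · rintro k ⟨s, z⟩ ⟨hs, hz⟩
      have h1 : ContinuousAt (fun p : ℝ × ℝ => a k p.1) (s, z) :=
        ContinuousAt.comp (x := (s, z)) (hd k s hs).continuousAt continuousAt_fst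
      exact ((h1.mul (continuousAt_snd.pow _)).div_const _).continuousWithinAt
    · rintro k ⟨s, z⟩ ⟨hs, hz⟩
      exact fw'_term hK hB ha hR0 hs (abs_le.2 ⟨hz.1.le, hz.2.le⟩) k
  have hmem : Ioo (-r) r ×ˢ Ioo (-R) R ∈ 𝓝 ((t, y) : ℝ × ℝ) :=
    (isOpen_Ioo.prod isOpen_Ioo).mem_nhds
      ⟨ht, by constructor <;> simp only <;> [linarith [neg_abs_le y]; linarith [le_abs_self y]]⟩
  exact (h.continuousAt hmem).continuousWithinAt

omit hK hB ha in
theorem fw'_zero (t : ℝ) : fw' a t 0 = a 0 t := by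
  unfold fw'
  rw [tsum_eq_single 0]
  · simp
  · intro k hk
    have : 2 * k ≠ 0 := by omega
    simp [this]

include hd in
/-- Derivative in `t` of the primitive. -/
theorem fV_hasDerivAt_t {t : ℝ} (ht : t ∈ Ioo (-r) r) (y : ℝ) :
    HasDerivAt (fun s => fV a s y) (fw' a t y - fw' a t 0) t := by
  have hsum := fw'_summable hK hB ha ht y
  have h1 : fw' a t y - fw' a t 0 =
      ∑' k, a (k + 1) t * y ^ (2 * k + 2) / (Nat.factorial (2 * k + 2) : ℝ) := by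
    rw [fw'_zero, fw', hsum.tsum_eq_zero_add]
    simp only [mul_zero, pow_zero, mul_one, Nat.factorial_zero, Nat.cast_one, div_one]
    rw [add_sub_cancel_left]
    rfl
  rw [h1]
  refine hasDerivAt_tsum_of_isPreconnected (F := ℝ) (t := Ioo (-r) r)
    (g := fun k s => a k s * y ^ (2 * k + 2) / (Nat.factorial (2 * k + 2) : ℝ))
    (g' := fun k s => a (k + 1) s * y ^ (2 * k + 2) / (Nat.factorial (2 * k + 2) : ℝ))
    (u := fun k => K * fsM (B * |y| ^ 2) (k + 1)) (y₀ := t)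
    (((summable_nat_add_iff 1).2 (fsM_summable _)).mul_left K) isOpen_Ioo isPreconnected_Ioo
    ?_ ?_ ht ?_ ht
  · intro k s hs
    exact ((hd k s hs).mul_const _).div_const _
  · intro k s hs
    exact fw'_term hK hB ha (abs_nonneg y) hs le_rfl (k + 1)
  · exact fV_summable hK hB ha ht y

include hd in
theorem fV_integral {t : ℝ} (ht : t ∈ Ioo (-r) r) (y : ℝ) :
    ∫ z in (0:ℝ)..y, fw a t z = fV a t y := by
  have hc : Continuous (fw a t) := by
    rw [continuous_iff_continuousAt]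
    exact fun z => (fw_hasDerivAt hK hB ha ht z).continuousAt
  rw [intervalIntegral.integral_eq_sub_of_hasDerivAt
    (fun z _ => fV_hasDerivAt hK hB ha ht z) (hc.intervalIntegrable _ _)]
  have : fV a t 0 = 0 := by
    unfold fV
    simp
  rw [this, sub_zero]

include hd in
theorem flat_identity {t : ℝ} (ht0 : 0 ≤ t) (ht : t < r) (y : ℝ) :
    (∫ z in (0:ℝ)..y, fw a t z) - (∫ z in (0:ℝ)..y, fw a 0 z) =
        ∫ s in (0:ℝ)..t, (fw' a s y - fw' a s 0) := by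
  have hr : 0 < r := lt_of_le_of_lt ht0 ht
  have htm : t ∈ Ioo (-r) r := ⟨by linarith, ht⟩
  have h0m : (0:ℝ) ∈ Ioo (-r) r := ⟨by linarith, hr⟩
  have hsub : uIcc 0 t ⊆ Ioo (-r) r := by
    rw [uIcc_of_le ht0]
    intro s hs
    exact ⟨by linarith [hs.1], by linarith [hs.2]⟩
  rw [fV_integral hK hB ha hd htm y, fV_integral hK hB ha hd h0m y]
  symm
  refine intervalIntegral.integral_eq_sub_of_hasDerivAt (f := fun s => fV a s y)
    (fun s hs => fV_hasDerivAt_t hK hB ha hd (hsub hs) y) ?_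
  apply ContinuousOn.intervalIntegrable
  have hc : ∀ z : ℝ, ContinuousOn (fun s => fw' a s z) (uIcc 0 t) := by
    intro z
    have := (fw'_continuousOn hK hB ha hd).comp (f := fun s : ℝ => (s, z))
      (s := uIcc 0 t) (by fun_prop) (fun s hs => ⟨hsub hs, mem_univ _⟩)
    exact this
  exact (hc y).sub (hc 0)

end Series

/-! ### The coefficients -/

section Coeff

/-- The derivatives of the analytic factor. -/
noncomputable def fsE (c : ℕ → ℝ) (i : ℕ) (t : ℝ) : ℝ :=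
  ∑' k, c (k + i) * t ^ k / (Nat.factorial k : ℝ)

variable {c : ℕ → ℝ} {A q : ℝ}

theorem fsE_term (hA : 0 ≤ A) (hq : 0 < q)
    (hc : ∀ k, |c k| ≤ A * q ^ k * (Nat.factorial k : ℝ)) (i : ℕ) {t : ℝ}
    (ht : |t| ≤ 1 / (4 * q)) (k : ℕ) :
    ‖c (k + i) * t ^ k / (Nat.factorial k : ℝ)‖ ≤
      A * (2 * q) ^ i * (Nat.factorial i : ℝ) * (1 / 2) ^ k := by
  have hf : (0:ℝ) < (Nat.factorial k : ℝ) := by exact_mod_cast Nat.factorial_pos k
  rw [Real.norm_eq_abs, abs_div, abs_mul, abs_pow, abs_of_pos hf, div_le_iff₀ hf]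
  have h1 : |c (k + i)| * |t| ^ k ≤
      (A * q ^ (k + i) * (Nat.factorial (k + i) : ℝ)) * (1 / (4 * q)) ^ k :=
    mul_le_mul (hc _) (pow_le_pow_left₀ (abs_nonneg _) ht _) (by positivity) (by positivity)
  refine h1.trans ?_
  have h2 : (Nat.factorial (k + i) : ℝ) ≤
      2 ^ (k + i) * ((Nat.factorial k : ℝ) * (Nat.factorial i : ℝ)) := by
    have h3 := Nat.add_choose_mul_factorial_mul_factorial k i
    have h4 : (k + i).choose i ≤ 2 ^ (k + i) := Nat.choose_le_two_pow _ _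
    have h5 : (Nat.factorial (k + i)) ≤
      2 ^ (k + i) * ((Nat.factorial k) * (Nat.factorial i)) := by
      rw [← h3, mul_assoc]
      exact Nat.mul_le_mul_right _ h4
    exact_mod_cast h5
  calc (A * q ^ (k + i) * (Nat.factorial (k + i) : ℝ)) * (1 / (4 * q)) ^ k
      ≤ (A * q ^ (k + i) * (2 ^ (k + i) * ((Nat.factorial k : ℝ) * (Nat.factorial i : ℝ)))) *
        (1 / (4 * q)) ^ k := by gcongr
    _ = A * (2 * q) ^ i * (Nat.factorial i : ℝ) * (1 / 2) ^ k * (Nat.factorial k : ℝ) := by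
        have h6 : (1 / (4 * q)) ^ k = (1 / 2) ^ k * (1 / 2) ^ k * (1 / q) ^ k := by
          rw [← mul_pow, ← mul_pow]
          congr 1
          field_simp
          norm_num
        have h7 : q ^ k * (1 / q) ^ k = 1 := by
          rw [← mul_pow, mul_one_div_cancel hq.ne', one_pow]
        have h8 : (2:ℝ) ^ k * (1 / 2) ^ k = 1 := by
          rw [← mul_pow]
          norm_num
        rw [h6, pow_add, pow_add, mul_pow]
        calc _ = A * (2 ^ i * q ^ i) * (Nat.factorial i : ℝ) * (1 / 2) ^ k *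
              (Nat.factorial k : ℝ) * (q ^ k * (1 / q) ^ k) * ((2:ℝ) ^ k * (1 / 2) ^ k) := by ring
          _ = _ := by rw [h7, h8]; ring

theorem fsE_summable (hA : 0 ≤ A) (hq : 0 < q)
    (hc : ∀ k, |c k| ≤ A * q ^ k * (Nat.factorial k : ℝ)) (i : ℕ) {t : ℝ}
    (ht : |t| ≤ 1 / (4 * q)) :
    Summable fun k => c (k + i) * t ^ k / (Nat.factorial k : ℝ) :=
  Summable.of_norm_bounded (summable_geometric_two.mul_left _) (fsE_term hA hq hc i ht)

theorem fsE_bound (hA : 0 ≤ A) (hq : 0 < q)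
    (hc : ∀ k, |c k| ≤ A * q ^ k * (Nat.factorial k : ℝ)) (i : ℕ) {t : ℝ}
    (ht : |t| ≤ 1 / (4 * q)) :
    |fsE c i t| ≤ A * (2 * q) ^ i * (Nat.factorial i : ℝ) * 2 :=
  tsum_of_norm_bounded (hasSum_geometric_two.mul_left _) (fsE_term hA hq hc i ht)

theorem fsE_hasDerivAt (hA : 0 ≤ A) (hq : 0 < q)
    (hc : ∀ k, |c k| ≤ A * q ^ k * (Nat.factorial k : ℝ)) (i : ℕ) {t : ℝ}
    (ht : t ∈ Ioo (-(1 / (4 * q))) (1 / (4 * q))) :
    HasDerivAt (fsE c i) (fsE c (i + 1) t) t := by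
  have hmem : ∀ s ∈ Ioo (-(1 / (4 * q))) (1 / (4 * q)), |s| ≤ 1 / (4 * q) := fun s hs =>
    abs_le.2 ⟨hs.1.le, hs.2.le⟩
  have key : ∀ s : ℝ, ∀ k : ℕ, c (k + 1 + i) * ((k + 1 : ℕ) * s ^ (k + 1 - 1)) /
      (Nat.factorial (k + 1) : ℝ) = c (k + (i + 1)) * s ^ k / (Nat.factorial k : ℝ) := by
    intro s k
    rw [Nat.factorial_succ, show k + 1 + i = k + (i + 1) by ring, Nat.add_sub_cancel]
    have hf : (Nat.factorial k : ℝ) ≠ 0 := by positivity
    have hk : ((k + 1 : ℕ) : ℝ) ≠ 0 := by positivity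
    push_cast at hk ⊢
    field_simp
  have hbd : ∀ k : ℕ, ∀ s ∈ Ioo (-(1 / (4 * q))) (1 / (4 * q)),
      ‖c (k + i) * (k * s ^ (k - 1)) / (Nat.factorial k : ℝ)‖ ≤
      A * (2 * q) ^ (i + 1) * (Nat.factorial (i + 1) : ℝ) * 2 * (1 / 2) ^ k := by
    intro k s hs
    rcases k with _ | k
    · simp only [Nat.cast_zero, zero_mul, mul_zero, zero_div, norm_zero]
      positivity
    · rw [key s k]
      refine (fsE_term hA hq hc (i + 1) (hmem s hs) k).trans_eq ?_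
      rw [pow_succ (1 / 2 : ℝ) k]
      ring
  have hsum : Summable fun k : ℕ => c (k + i) * (k * t ^ (k - 1)) / (Nat.factorial k : ℝ) :=
    Summable.of_norm_bounded (summable_geometric_two.mul_left _) (fun k => hbd k t ht)
  have h1 : fsE c (i + 1) t =
      ∑' k : ℕ, c (k + i) * (k * t ^ (k - 1)) / (Nat.factorial k : ℝ) := by
    rw [hsum.tsum_eq_zero_add]
    simp only [Nat.cast_zero, zero_mul, mul_zero, zero_div, zero_add]
    exact tsum_congr fun k => (key t k).symm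
  rw [h1]
  refine hasDerivAt_tsum_of_isPreconnected (F := ℝ) (t := Ioo (-(1 / (4 * q))) (1 / (4 * q)))
    (g := fun k s => c (k + i) * s ^ k / (Nat.factorial k : ℝ))
    (g' := fun k s => c (k + i) * (k * s ^ (k - 1)) / (Nat.factorial k : ℝ))
    (u := fun k => A * (2 * q) ^ (i + 1) * (Nat.factorial (i + 1) : ℝ) * 2 * (1 / 2) ^ k)
    (y₀ := t) (summable_geometric_two.mul_left _) isOpen_Ioo isPreconnected_Ioo ?_ hbd ht ?_ ht
  · intro k s _
    exact ((hasDerivAt_pow k s).const_mul _).div_const _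
  · exact fsE_summable hA hq hc i (hmem t ht)

/-- The derivatives of the rescaled cut-off. -/
noncomputable def fsB (β : ℝ → ℝ) (ε : ℝ) (j : ℕ) (t : ℝ) : ℝ :=
  iteratedDeriv j β (t / ε) * (1 / ε) ^ j

theorem fsB_hasDerivAt {β : ℝ → ℝ} (hβ : ContDiff ℝ ∞ β) (ε : ℝ) (j : ℕ) (t : ℝ) :
    HasDerivAt (fsB β ε j) (fsB β ε (j + 1) t) t := by
  have h1 : HasDerivAt (iteratedDeriv j β) (iteratedDeriv (j + 1) β (t / ε)) (t / ε) := by
    rw [iteratedDeriv_succ]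
    refine DifferentiableAt.hasDerivAt ?_
    exact (hβ.differentiable_iteratedDeriv j (by exact_mod_cast WithTop.coe_lt_top _)).differentiableAt
  have h2 : HasDerivAt (fun s : ℝ => s / ε) (1 / ε) t := (hasDerivAt_id t).div_const ε
  have h3 := (h1.comp t h2).mul_const ((1 / ε) ^ j)
  refine h3.congr_deriv ?_
  rw [fsB, pow_succ]
  ring

theorem iteratedDeriv_zero_of {β : ℝ → ℝ} (hβ : ContDiff ℝ ∞ β) (h0 : ∀ t ≤ 0, β t = 1) {j : ℕ}
    (hj : j ≠ 0) : iteratedDeriv j β 0 = 0 := by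
  have hcont : Continuous (iteratedDeriv j β) := hβ.continuous_iteratedDeriv j (by exact_mod_cast le_top)
  have h1 : ∀ s < (0:ℝ), iteratedDeriv j β s = 0 := by
    intro s hs
    have h2 : β =ᶠ[𝓝 s] fun _ => (1:ℝ) := by
      filter_upwards [Iio_mem_nhds hs] with x hx
      exact h0 x (le_of_lt hx)
    rw [h2.iteratedDeriv_eq j, iteratedDeriv_const, if_neg hj]
  have h3 : (0:ℝ) ∈ closure (Iio 0) := by
    rw [closure_Iio]
    exact mem_Iic.2 le_rfl
  have h4 : closure (Iio (0:ℝ)) ⊆ {x | iteratedDeriv j β x = 0} :=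
    closure_minimal (fun s hs => h1 s hs) (isClosed_eq hcont continuous_const)
  exact h4 h3

theorem iteratedDeriv_one_of {β : ℝ → ℝ} (hβ : ContDiff ℝ ∞ β) (h1 : ∀ t, 1 ≤ t → β t = 0)
    (j : ℕ) : iteratedDeriv j β 1 = 0 := by
  have hcont : Continuous (iteratedDeriv j β) := hβ.continuous_iteratedDeriv j (by exact_mod_cast le_top)
  have h1 : ∀ s > (1:ℝ), iteratedDeriv j β s = 0 := by
    intro s hs
    have h2 : β =ᶠ[𝓝 s] fun _ => (0:ℝ) := by
      filter_upwards [Ioi_mem_nhds hs] with x hx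
      exact h1 x (le_of_lt hx)
    rw [h2.iteratedDeriv_eq j, iteratedDeriv_const]
    simp
  have h3 : (1:ℝ) ∈ closure (Ioi 1) := by
    rw [closure_Ioi]
    exact mem_Ici.2 le_rfl
  have h4 : closure (Ioi (1:ℝ)) ⊆ {x | iteratedDeriv j β x = 0} :=
    closure_minimal (fun s hs => h1 s hs) (isClosed_eq hcont continuous_const)
  exact h4 h3

/-- The coefficients of the flat solution. -/
noncomputable def fsa (β : ℝ → ℝ) (ε : ℝ) (c : ℕ → ℝ) (k : ℕ) (t : ℝ) : ℝ :=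
  ∑ ij ∈ Finset.HasAntidiagonal.antidiagonal k, (k.choose ij.1 : ℝ) * (fsB β ε ij.1 t * fsE c ij.2 t)

theorem fsa_hasDerivAt {β : ℝ → ℝ} (hβ : ContDiff ℝ ∞ β) (ε : ℝ) (hA : 0 ≤ A) (hq : 0 < q)
    (hc : ∀ k, |c k| ≤ A * q ^ k * (Nat.factorial k : ℝ)) (k : ℕ) {t : ℝ}
    (ht : t ∈ Ioo (-(1 / (4 * q))) (1 / (4 * q))) :
    HasDerivAt (fsa β ε c k) (fsa β ε c (k + 1) t) t := by
  have h1 : HasDerivAt (fun s => ∑ ij ∈ Finset.HasAntidiagonal.antidiagonal k,
      (k.choose ij.1 : ℝ) * (fsB β ε ij.1 s * fsE c ij.2 s))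
      (∑ ij ∈ Finset.HasAntidiagonal.antidiagonal k, (k.choose ij.1 : ℝ) *
        (fsB β ε (ij.1 + 1) t * fsE c ij.2 t + fsB β ε ij.1 t * fsE c (ij.2 + 1) t)) t := by
    refine HasDerivAt.fun_sum fun ij _ => ?_
    exact ((fsB_hasDerivAt hβ ε ij.1 t).mul (fsE_hasDerivAt hA hq hc ij.2 ht)).const_mul _
  refine h1.congr_deriv ?_
  unfold fsa
  rw [Finset.sum_antidiagonal_choose_succ_mul (fun i j => fsB β ε i t * fsE c j t) k,
    ← Finset.sum_add_distrib]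
  refine Finset.sum_congr rfl fun ij hij => ?_
  have h2 : k.choose ij.2 = k.choose ij.1 := by
    have := Finset.HasAntidiagonal.mem_antidiagonal.1 hij
    exact Nat.choose_symm_of_eq_add (by omega)
  rw [h2]
  ring

theorem fsa_bound {C : ℝ} (hC : 1 ≤ C) {β : ℝ → ℝ}
    (hb : ∀ j t, |iteratedDeriv j β t| ≤ C ^ (j + 1) * (Nat.factorial j : ℝ) ^ (3 / 2 : ℝ))
    {ε : ℝ} (hε : 0 < ε) (hA : 0 ≤ A) (hq : 0 < q)
    (hc : ∀ k, |c k| ≤ A * q ^ k * (Nat.factorial k : ℝ)) (k : ℕ) {t : ℝ}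
    (ht : |t| ≤ 1 / (4 * q)) :
    |fsa β ε c k t| ≤ (2 * A * C) * (C / ε + 2 * q) ^ k * (Nat.factorial k : ℝ) ^ (3 / 2 : ℝ) := by
  have hC0 : 0 ≤ C := by linarith
  have hfk : (0:ℝ) ≤ (Nat.factorial k : ℝ) := by positivity
  rw [(Commute.all (C / ε) (2 * q)).add_pow', rpow_three_half hfk, Finset.mul_sum,
    Finset.sum_mul]
  refine (Finset.abs_sum_le_sum_abs _ _).trans (Finset.sum_le_sum fun ij hij => ?_)
  have hij' := Finset.HasAntidiagonal.mem_antidiagonal.1 hij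
  have hB : |fsB β ε ij.1 t| ≤ C ^ (ij.1 + 1) *
      ((Nat.factorial ij.1 : ℝ) * √(Nat.factorial ij.1 : ℝ)) * (1 / ε) ^ ij.1 := by
    rw [fsB, abs_mul, abs_of_nonneg (by positivity : (0:ℝ) ≤ (1 / ε) ^ ij.1),
      ← rpow_three_half (by positivity)]
    exact mul_le_mul_of_nonneg_right (hb _ _) (by positivity)
  have hE := fsE_bound hA hq hc ij.2 ht
  have hsq : √(Nat.factorial ij.1 : ℝ) ≤ √(Nat.factorial k : ℝ) :=
    Real.sqrt_le_sqrt (by exact_mod_cast Nat.factorial_le (by omega))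
  have hfac : (k.choose ij.1 : ℝ) * ((Nat.factorial ij.1 : ℝ) * (Nat.factorial ij.2 : ℝ)) =
      (Nat.factorial k : ℝ) := by
    have := Nat.add_choose_mul_factorial_mul_factorial ij.1 ij.2
    rw [hij', ← Nat.choose_symm_of_eq_add (by omega : k = ij.1 + ij.2)] at this
    rw [← this]
    push_cast
    ring
  have h1 : (1:ℝ) ≤ (k.choose ij.1 : ℝ) := by
    exact_mod_cast Nat.choose_pos (by omega)
  rw [abs_mul, abs_mul, abs_of_nonneg (by positivity : (0:ℝ) ≤ (k.choose ij.1 : ℝ)), nsmul_eq_mul]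
  calc (k.choose ij.1 : ℝ) * (|fsB β ε ij.1 t| * |fsE c ij.2 t|)
      ≤ (k.choose ij.1 : ℝ) * ((C ^ (ij.1 + 1) *
        ((Nat.factorial ij.1 : ℝ) * √(Nat.factorial ij.1 : ℝ)) * (1 / ε) ^ ij.1) *
        (A * (2 * q) ^ ij.2 * (Nat.factorial ij.2 : ℝ) * 2)) := by
        gcongr
    _ = (2 * A * C) * ((C / ε) ^ ij.1 * (2 * q) ^ ij.2) *
        (((k.choose ij.1 : ℝ) * ((Nat.factorial ij.1 : ℝ) * (Nat.factorial ij.2 : ℝ))) *
          √(Nat.factorial ij.1 : ℝ)) := by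
        rw [pow_succ, div_pow, div_pow, one_pow]
        ring
    _ = (2 * A * C) * ((C / ε) ^ ij.1 * (2 * q) ^ ij.2) *
        ((Nat.factorial k : ℝ) * √(Nat.factorial ij.1 : ℝ)) := by rw [hfac]
    _ ≤ (2 * A * C) * ((k.choose ij.1 : ℝ) * ((C / ε) ^ ij.1 * (2 * q) ^ ij.2)) *
        ((Nat.factorial k : ℝ) * √(Nat.factorial k : ℝ)) := by
        have h5 : (C / ε) ^ ij.1 * (2 * q) ^ ij.2 ≤
            (k.choose ij.1 : ℝ) * ((C / ε) ^ ij.1 * (2 * q) ^ ij.2) :=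
          le_mul_of_one_le_left (by positivity) h1
        exact mul_le_mul (mul_le_mul_of_nonneg_left h5 (by positivity))
          (mul_le_mul_of_nonneg_left hsq hfk) (by positivity) (by positivity)

theorem fsa_zero {β : ℝ → ℝ} (hβ : ContDiff ℝ ∞ β) (h0 : ∀ t ≤ 0, β t = 1) (ε : ℝ)
    (c : ℕ → ℝ) (k : ℕ) : fsa β ε c k 0 = c k := by
  unfold fsa
  have hE : ∀ i, fsE c i 0 = c i := by
    intro i
    unfold fsE
    rw [tsum_eq_single 0]
    · simp
    · intro j hj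
      simp [hj]
  rw [Finset.sum_eq_single (0, k)]
  · simp [fsB, hE, h0 0 le_rfl]
  · rintro ⟨i, j⟩ hij hne
    have hi : i ≠ 0 := by
      rintro rfl
      apply hne
      have := Finset.HasAntidiagonal.mem_antidiagonal.1 hij
      simp only [zero_add] at this
      rw [this]
    simp [fsB, iteratedDeriv_zero_of hβ h0 hi]
  · intro h
    exact absurd (Finset.HasAntidiagonal.mem_antidiagonal.2 (by simp)) h

theorem fsa_end {β : ℝ → ℝ} (hβ : ContDiff ℝ ∞ β) (h1 : ∀ t, 1 ≤ t → β t = 0) {ε : ℝ}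
    (hε : 0 < ε) (c : ℕ → ℝ) (k : ℕ) : fsa β ε c k ε = 0 := by
  unfold fsa
  refine Finset.sum_eq_zero fun ij _ => ?_
  rw [fsB, div_self hε.ne', iteratedDeriv_one_of hβ h1]
  simp

end Coeff

theorem flat_series {C S : ℝ} (hC : 1 ≤ C) (hS : 1 ≤ S) {β : ℝ → ℝ} (hβ : ContDiff ℝ ∞ β)
    (h0 : ∀ t ≤ 0, β t = 1) (h1 : ∀ t, 1 ≤ t → β t = 0)
    (hb : ∀ j t, |iteratedDeriv j β t| ≤ C ^ (j + 1) * (Nat.factorial j : ℝ) ^ (3 / 2 : ℝ)) :
    ∃ D E : ℝ, 1 ≤ D ∧ 1 ≤ E ∧ ∀ l ∈ Ioc (0:ℝ) 1, ∀ (A : ℝ) (c : ℕ → ℝ), 0 ≤ A →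
      (∀ k, |c k| ≤ A * (C / l) ^ k * Nat.factorial k) → ∃ w w' : ℝ → ℝ → ℝ,
      ContinuousOn (uncurry w) (Icc 0 (l / D) ×ˢ univ) ∧
      ContinuousOn (uncurry w') (Icc 0 (l / D) ×ˢ univ) ∧
      (∀ t ∈ Icc 0 (l / D), ∀ y, HasDerivAt (w t) (w' t y) y) ∧
      (∀ t y, w t (-y) = -w t y) ∧
      (∀ y, w 0 y = ∑' k, c k * y ^ (2 * k + 1) / Nat.factorial (2 * k + 1)) ∧
      (∀ y, w (l / D) y = 0) ∧
      (∀ t ∈ Icc 0 (l / D), ∀ y, |y| ≤ S → |w t y| ≤ A * exp (E / l ^ 2) ∧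
        |w' t y| ≤ A * exp (E / l ^ 2)) ∧
      ∀ t ∈ Icc 0 (l / D), ∀ y, (∫ z in (0:ℝ)..y, w t z) - (∫ z in (0:ℝ)..y, w 0 z) =
        ∫ s in (0:ℝ)..t, (w' s y - w' s 0) := by
  have hC0 : 0 < C := by linarith
  have hS0 : 0 < S := by linarith
  set b : ℝ := 8 * C ^ 2 + 2 * C with hbdef
  have hb0 : 0 ≤ b := by positivity
  refine ⟨8 * C, 3 * C * S + 2 * b ^ 2 * S ^ 4, by linarith, ?_, ?_⟩
  · have : 1 ≤ C * S := one_le_mul_of_one_le_of_one_le hC hS
    have h2 : 0 ≤ 2 * b ^ 2 * S ^ 4 := by positivity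
    nlinarith
  rintro l ⟨hl0, hl1⟩ A c hA hc
  set q : ℝ := C / l with hq
  have hq0 : 0 < q := by positivity
  set ε : ℝ := l / (8 * C) with hε
  have hε0 : 0 < ε := by positivity
  set r : ℝ := 1 / (4 * q) with hr
  have hr' : r = l / (4 * C) := by
    rw [hr, hq]
    field_simp
  have hεr : ε < r := by
    rw [hε, hr', div_lt_div_iff₀ (by positivity) (by positivity)]
    nlinarith
  have hr0 : 0 < r := by positivity
  have hB : C / ε + 2 * q = b / l := by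
    rw [hε, hq, hbdef]
    field_simp
  set a := fsa β ε c with ha_def
  have hd : ∀ k, ∀ t ∈ Ioo (-r) r, HasDerivAt (a k) (a (k + 1) t) t := fun k t ht =>
    fsa_hasDerivAt hβ ε hA hq0 hc k ht
  have hK : 0 ≤ 2 * A * C := by positivity
  have hB0 : 0 ≤ b / l := by positivity
  have ha : ∀ k, ∀ t ∈ Ioo (-r) r,
      |a k t| ≤ (2 * A * C) * (b / l) ^ k * (Nat.factorial k : ℝ) ^ (3 / 2 : ℝ) := by
    intro k t ht
    have := fsa_bound hC hb hε0 hA hq0 hc k (abs_le.2 ⟨ht.1.le, ht.2.le⟩)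
    rwa [hB] at this
  have hsub : Icc 0 ε ⊆ Ioo (-r) r := fun t ht => ⟨by linarith [ht.1], by linarith [ht.2]⟩
  refine ⟨fw a, fw' a, ?_, ?_, ?_, ?_, ?_, ?_, ?_, ?_⟩
  · exact (fw_continuousOn hK hB0 ha hd).mono (prod_mono hsub (subset_univ _))
  · exact (fw'_continuousOn hK hB0 ha hd).mono (prod_mono hsub (subset_univ _))
  · intro t ht y
    exact fw_hasDerivAt hK hB0 ha (hsub ht) y
  · intro t y
    unfold fw
    rw [← tsum_neg]
    refine tsum_congr fun k => ?_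
    rw [Odd.neg_pow (by exact ⟨k, rfl⟩)]
    ring
  · intro y
    unfold fw
    refine tsum_congr fun k => ?_
    rw [ha_def, fsa_zero hβ h0]
  · intro y
    unfold fw
    have : ∀ k, a k ε * y ^ (2 * k + 1) / (Nat.factorial (2 * k + 1) : ℝ) = 0 := by
      intro k
      rw [ha_def, fsa_end hβ h1 hε0]
      simp
    rw [tsum_congr this, tsum_zero]
  · intro t ht y hy
    have e1 : (b / l * S ^ 2) ^ 2 = b ^ 2 * S ^ 4 / l ^ 2 := by
      field_simp
    have e2 : (1:ℝ) ≤ exp (2 * (b / l * S ^ 2) ^ 2) := one_le_exp (by positivity)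
    have e3 : 3 * C * S ≤ exp (3 * C * S / l ^ 2) := by
      have h3 : 3 * C * S ≤ 3 * C * S / l ^ 2 := by
        rw [le_div_iff₀ (by positivity)]
        have : l ^ 2 ≤ 1 := pow_le_one₀ hl0.le hl1
        have h4 : 0 ≤ 3 * C * S := by positivity
        nlinarith
      linarith [add_one_le_exp (3 * C * S / l ^ 2)]
    have e4 : exp ((3 * C * S + 2 * b ^ 2 * S ^ 4) / l ^ 2) =
        exp (3 * C * S / l ^ 2) * exp (2 * (b / l * S ^ 2) ^ 2) := by
      rw [← Real.exp_add, e1]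
      congr 1
      ring
    have main : 2 * A * C * S * ((exp (2 * (b / l * S ^ 2) ^ 2) + 2) / 2) ≤
        A * exp ((3 * C * S + 2 * b ^ 2 * S ^ 4) / l ^ 2) := by
      rw [e4]
      calc 2 * A * C * S * ((exp (2 * (b / l * S ^ 2) ^ 2) + 2) / 2)
          ≤ 2 * A * C * S * ((3 * exp (2 * (b / l * S ^ 2) ^ 2)) / 2) := by
            gcongr
            linarith
        _ = A * ((3 * C * S) * exp (2 * (b / l * S ^ 2) ^ 2)) := by ring
        _ ≤ _ := by gcongr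
    constructor
    · exact (fw_bound hK hB0 ha hS0.le (hsub ht) hy).trans main
    · refine (fw'_bound hK hB0 ha hS0.le (hsub ht) hy).trans (le_trans ?_ main)
      have : 0 ≤ (exp (2 * (b / l * S ^ 2) ^ 2) + 2) / 2 := by positivity
      have h5 : 2 * A * C ≤ 2 * A * C * S := le_mul_of_one_le_right hK hS
      exact mul_le_mul_of_nonneg_right h5 this
  · intro t ht y
    exact flat_identity hK hB0 ha hd ht.1 (lt_of_le_of_lt ht.2 hεr) y

end Pool.Agent.Lib.MP_79abb3_an
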