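import Pool.Agent.Lib.MP_79abb3_an.Ode

/-!
Flushing: the front, the moments, and the logarithmic decay.
-/

set_option autoImplicit false
set_option linter.unusedSectionVars false
set_option linter.unusedVariables false

open MeasureTheory Set Filter Topology Real Function

namespace Pool.Agent.Lib.MP_79abb3_an

/-- Chain rule for a function of two variables with continuous partial derivatives. -/
theorem chain2 {F Ft Fy : ℝ → ℝ → ℝ} {S : ℝ → ℝ} {t S' : ℝ} {U : Set (ℝ × ℝ)}
    (hU : U ∈ 𝓝 (t, S t)) (h1 : ∀ p ∈ U, HasDerivAt (fun s => F s p.2) (Ft p.1 p.2) p.1)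
    (h2 : ∀ p ∈ U, HasDerivAt (F p.1) (Fy p.1 p.2) p.2)
    (c1 : ContinuousAt (uncurry Ft) (t, S t)) (c2 : ContinuousAt (uncurry Fy) (t, S t))
    (hS : HasDerivAt S S' t) :
    HasDerivAt (fun s => F s (S s)) (Ft t (S t) + Fy t (S t) * S') t := by
  let L : ℝ →L[ℝ] (ℝ →L[ℝ] ℝ) := ContinuousLinearMap.smulRightL ℝ ℝ ℝ (1 : ℝ →L[ℝ] ℝ)
  have hL : ∀ c x : ℝ, L c x = x * c := by
    intro c x
    simp [L]
  have hf := hasStrictFDerivAt_uncurry_coprod (u := (t, S t)) (f := F)
    (f₁ := fun x y => L (Ft x y)) (f₂ := fun x y => L (Fy x y))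
    (by
      filter_upwards [hU] with p hp
      have := (h1 p hp).hasFDerivAt
      refine this.congr_fderiv ?_
      ext
      show _ = L (Ft p.1 p.2) 1
      rw [hL]
      simp)
    (by
      filter_upwards [hU] with p hp
      have := (h2 p hp).hasFDerivAt
      refine this.congr_fderiv ?_
      ext
      show _ = L (Fy p.1 p.2) 1
      rw [hL]
      simp)
    (L.continuous.continuousAt.comp c1) (L.continuous.continuousAt.comp c2)
  have h3 := hf.hasFDerivAt.comp_hasDerivAt t ((hasDerivAt_id t).prodMk hS)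
  refine h3.congr_deriv ?_
  rw [ContinuousLinearMap.coprod_apply]
  show L (Ft t (S t)) 1 + L (Fy t (S t)) S' = _
  rw [hL, hL]
  ring

section
variable {a b : ℝ} {g v w : ℝ → ℝ → ℝ}

theorem contAt_of_contOn {J : Set ℝ} {F : ℝ → ℝ → ℝ} (h : ContinuousOn (uncurry F) (J ×ˢ univ))
    {t y : ℝ} (hJ : J ∈ 𝓝 t) : ContinuousAt (uncurry F) (t, y) := by
  refine (h (t, y) ⟨mem_of_mem_nhds hJ, mem_univ _⟩).continuousAt ?_
  rw [nhds_prod_eq]
  exact prod_mem_prod hJ univ_mem

theorem slice' {J : Set ℝ} {F : ℝ → ℝ → ℝ} (h : ContinuousOn (uncurry F) (J ×ˢ univ)) {t : ℝ}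
    (ht : t ∈ J) : Continuous (F t) :=
  h.comp_continuous (f := fun y : ℝ => (t, y)) (by fun_prop) fun y => ⟨ht, mem_univ _⟩

theorem abs_primG (h : Sol (Icc a b) (Ioc a b) g v w) {C : ℝ}
    (hC : ∀ t ∈ Icc a b, ∀ y, |g t y| ≤ C * om y) {t : ℝ} (ht : t ∈ Icc a b) (x : ℝ) :
    |∫ z in (0:ℝ)..x, g t z| ≤ C := by
  have hC0 : 0 ≤ C := by
    have := (hC t ht 0)
    rw [om_zero, mul_one] at this
    exact (abs_nonneg _).trans this
  rcases le_total 0 x with hx | hx
  · exact prim_om_le (h.cg1 ht) hC0 (hC t ht) hx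
  · have h1 : ∫ z in (0:ℝ)..x, g t z = ∫ z in (0:ℝ)..(-x), g t z := by
      have h2 := intervalIntegral.integral_comp_neg (a := 0) (b := x) (fun z => g t z)
      rw [neg_zero] at h2
      have h3 : ∫ z in (0:ℝ)..x, g t (-z) = -∫ z in (0:ℝ)..x, g t z := by
        rw [← intervalIntegral.integral_neg]
        exact intervalIntegral.integral_congr fun z _ => h.odd t ht z
      have h4 := intervalIntegral.integral_symm (μ := volume) (f := g t) (-x) 0
      linarith
    rw [h1]
    exact prim_om_le (h.cg1 ht) hC0 (hC t ht) (by linarith)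

/-- The front curve. -/
theorem exists_curve (h : Sol (Icc a b) (Ioc a b) g v w) (ha : 0 < a) (hab : a < b)
    (hnn : ∀ t ∈ Icc a b, ∀ y, 0 ≤ y → 0 ≤ g t y) (hle : ∀ t ∈ Icc a b, ∀ y, 0 ≤ y → t * g t y ≤ 1)
    {S0 : ℝ} (hS0 : 0 < S0) :
    ∃ S : ℝ → ℝ, S a = S0 ∧ ContinuousOn S (Icc a b) ∧ (∀ t ∈ Icc a b, 0 < S t) ∧
      ∀ t ∈ Ioo a b, HasDerivAt S (-∫ z in (0:ℝ)..S t, g t z) t := by
  obtain ⟨C, hC⟩ := h.bd
  have hCg : ∀ t ∈ Icc a b, ∀ y, |g t y| ≤ C * om y := fun t ht y => (hC t ht y).1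
  have haI : a ∈ Icc a b := ⟨le_rfl, hab.le⟩
  have hC0 : 0 ≤ C := (abs_nonneg _).trans (abs_primG h hCg haI 0)
  set f : ℝ → ℝ → ℝ := fun t x => -∫ z in (0:ℝ)..x, g t z with hf
  have hPL : IsPicardLindelof f (tmin := a) (tmax := b) ⟨a, haI⟩ S0
      (⟨C * (b - a), by have := sub_nonneg.2 hab.le; positivity⟩) 0 ⟨C, hC0⟩ ⟨C, hC0⟩ := by
    refine ⟨?_, ?_, ?_, ?_⟩
    · intro t ht
      refine LipschitzOnWith.of_dist_le_mul fun x _ y _ => ?_
      rw [dist_eq_norm, dist_eq_norm]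
      have e1 : f t x - f t y = ∫ z in x..y, g t z := by
        have := intervalIntegral.integral_interval_sub_left
          ((h.cg1 ht).intervalIntegrable 0 y) ((h.cg1 ht).intervalIntegrable 0 x) (μ := volume)
        rw [hf]
        simp only
        rw [← this]; ring
      rw [e1]
      have e2 := intervalIntegral.norm_integral_le_of_norm_le_const (a := x) (b := y)
        (f := g t) (C := C) (fun z _ => (hCg t ht z).trans (by
          have := om_le z
          calc C * om z ≤ C * 1 := by gcongr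
            _ = C := mul_one C))
      rw [norm_sub_rev, Real.norm_eq_abs (y - x)]
      exact e2
    · intro x _
      have := (contOn_prim' h.cg).comp (f := fun s : ℝ => (s, x)) (s := Icc a b) (by fun_prop)
        fun s hs => ⟨hs, mem_univ _⟩
      exact this.neg
    · intro t ht x _
      rw [hf, norm_neg]
      exact abs_primG h hCg ht x
    · have e1 : max (b - a) (a - a) = b - a := by
        rw [sub_self]; exact max_eq_left (sub_nonneg.2 hab.le)
      show C * max (b - a) (a - a) ≤ C * (b - a) - 0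
      rw [e1, sub_zero]
  obtain ⟨S, hSa, hSd⟩ := hPL.exists_eq_forall_mem_Icc_hasDerivWithinAt₀
  have hSa' : S a = S0 := hSa
  have hSc : ContinuousOn S (Icc a b) := fun t ht => (hSd t ht).continuousWithinAt
  have hSd' : ∀ t ∈ Ioo a b, HasDerivAt S (f t (S t)) t := fun t ht =>
    (hSd t ⟨ht.1.le, ht.2.le⟩).hasDerivAt (Icc_mem_nhds ht.1 ht.2)
  refine ⟨S, hSa', hSc, ?_, hSd'⟩
  intro t ht
  by_contra hcon
  push Not at hcon
  obtain ⟨t1, ht1, ht1', hlt⟩ := first_hit (φ := fun s => -S s) (c := 0) ht.1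
    (hSc.mono (Icc_subset_Icc_right ht.2)).neg (by simp only [hSa']; linarith) (by linarith)
  have ht1b : t1 ≤ b := ht1.2.trans ht.2
  have h3 := dec_of (f := fun s => -(s * S s)) (f' := fun s => -(1 * S s + s * f s (S s)))
    ht1.1.le ((continuousOn_id.mul (hSc.mono (Icc_subset_Icc_right ht1b))).neg)
    (fun s hs => ((hasDerivAt_id s).mul (hSd' s ⟨hs.1, hs.2.trans_le ht1b⟩)).neg)
    (fun s hs => by
      have hs' : s ∈ Icc a b := ⟨hs.1.le, hs.2.le.trans ht1b⟩
      have hSs : 0 < S s := by have := hlt s ⟨hs.1.le, hs.2⟩; linarith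
      have e1 : s * (∫ z in (0:ℝ)..S s, g s z) ≤ S s := by
        rw [← intervalIntegral.integral_const_mul]
        have := intervalIntegral.integral_mono_on (f := fun z => s * g s z) (g := fun _ => (1:ℝ))
          hSs.le (((h.cg1 hs').const_mul s).intervalIntegrable _ _)
          (continuous_const.intervalIntegrable _ _) (fun z hz => hle s hs' z hz.1) (μ := volume)
        simpa using this
      rw [hf]
      simp only
      linarith)
  simp only [hSa'] at h3
  have h4 : S t1 = 0 := by linarith [ht1']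
  rw [h4] at h3
  have : 0 < a * S0 := by positivity
  linarith

/-- Time derivative of weighted integrals. -/
theorem deriv_int (h : Sol (Icc a b) (Ioc a b) g v w) {k : ℝ → ℝ} (hk : Continuous k) {t : ℝ}
    (ht : t ∈ Ioo a b) {y : ℝ} (hy : 0 ≤ y) :
    HasDerivAt (fun s => ∫ z in (0:ℝ)..y, k z * g s z)
      (∫ z in (0:ℝ)..y, k z * (w t z + qG g v t z)) t := by
  set t1 := (a + t) / 2 with ht1
  set t2 := (t + b) / 2 with ht2
  have hn : Icc t1 t2 ∈ 𝓝 t := Icc_mem_nhds (by rw [ht1]; linarith [ht.1]) (by rw [ht2]; linarith [ht.2])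
  have hsub : Icc t1 t2 ⊆ Ioo a b := fun s hs =>
    ⟨by have := hs.1; rw [ht1] at this; linarith [ht.1], by have := hs.2; rw [ht2] at this; linarith [ht.2]⟩
  have hc := h.cont_rhs Ioc_subset_Icc_self
  have hc2 : ContinuousOn (fun p : ℝ × ℝ => k p.2 * (w p.1 p.2 + qG g v p.1 p.2))
      (Icc t1 t2 ×ˢ Icc 0 y) := by
    refine (hk.comp continuous_snd).continuousOn.mul (hc.mono ?_)
    intro p hp
    exact ⟨⟨(hsub hp.1).1, (hsub hp.1).2.le⟩, mem_univ _⟩
  obtain ⟨K, hK⟩ := (isCompact_Icc.prod isCompact_Icc).exists_bound_of_continuousOn hc2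
  refine (intervalIntegral.hasDerivAt_integral_of_dominated_loc_of_deriv_le (s := Icc t1 t2)
    (F := fun s z => k z * g s z) (F' := fun s z => k z * (w s z + qG g v s z)) (bound := fun _ => K)
    hn ?_ ?_ ?_ ?_ ?_ ?_).2
  · filter_upwards [hn] with s hs
    have := h.cg1 ⟨(hsub hs).1.le, (hsub hs).2.le⟩
    exact (hk.mul this).aestronglyMeasurable
  · exact (hk.mul (h.cg1 ⟨ht.1.le, ht.2.le⟩)).intervalIntegrable _ _
  · have h1 : Continuous (fun z => w t z + qG g v t z) := slice' hc ⟨ht.1, ht.2.le⟩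
    exact (hk.mul h1).aestronglyMeasurable
  · refine Eventually.of_forall fun z hz s hs => ?_
    rw [uIoc_of_le hy] at hz
    exact hK (s, z) ⟨hs, hz.1.le, hz.2⟩
  · exact intervalIntegrable_const
  · refine Eventually.of_forall fun z hz s hs => ?_
    rw [uIoc_of_le hy] at hz
    exact (h.dt (hsub hs) hz.1.le).const_mul (k z)

/-- Static packing inequalities. -/
theorem pack_static {f : ℝ → ℝ} {t : ℝ} (hf : Continuous f) (hnn : ∀ y, 0 ≤ y → 0 ≤ f y)
    (ht : 0 ≤ t) (hle : ∀ y, 0 ≤ y → t * f y ≤ 1) {x : ℝ} (hx : 0 ≤ x) :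
    t * (∫ z in (0:ℝ)..x, f z) ≤ x ∧
    t * (∫ z in (0:ℝ)..x, f z) ^ 2 ≤ 2 * ∫ z in (0:ℝ)..x, z * f z ∧
    (x - t * ∫ z in (0:ℝ)..x, f z) ^ 2 ≤
      x ^ 2 - 2 * t * (x * (∫ z in (0:ℝ)..x, f z) - ∫ z in (0:ℝ)..x, z * f z) ∧
    t * (∫ z in (0:ℝ)..x, (x - z) * f z ^ 2) ≤
      x * (∫ z in (0:ℝ)..x, f z) - ∫ z in (0:ℝ)..x, z * f z := by
  have dG : ∀ y, HasDerivAt (fun y => ∫ z in (0:ℝ)..y, f z) (f y) y := fun y =>
    (hf.integral_hasStrictDerivAt 0 y).hasDerivAt
  have dM : ∀ y, HasDerivAt (fun y => ∫ z in (0:ℝ)..y, z * f z) (y * f y) y := fun y =>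
    ((continuous_id.mul hf).integral_hasStrictDerivAt 0 y).hasDerivAt
  have e1 : ∀ y, 0 ≤ y → t * (∫ z in (0:ℝ)..y, f z) ≤ y := by
    intro y hy
    have h3 := dec_of (f := fun y => t * (∫ z in (0:ℝ)..y, f z) - y) (f' := fun y => t * f y - 1) hy
      (fun y _ => (((dG y).const_mul t).sub (hasDerivAt_id y)).continuousAt.continuousWithinAt)
      (fun y _ => ((dG y).const_mul t).sub (hasDerivAt_id y))
      (fun y hy => by linarith [hle y hy.1.le])
    simp only [intervalIntegral.integral_same, mul_zero, sub_zero] at h3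
    linarith
  refine ⟨e1 x hx, ?_, ?_, ?_⟩
  · have h3 := dec_of (f := fun y => t * (∫ z in (0:ℝ)..y, f z) ^ 2 - 2 * ∫ z in (0:ℝ)..y, z * f z)
      (f' := fun y => t * (2 * (∫ z in (0:ℝ)..y, f z) * f y) - 2 * (y * f y)) hx
      (fun y _ => ((((dG y).pow 2).const_mul t).sub
        ((dM y).const_mul 2)).continuousAt.continuousWithinAt)
      (fun y _ => by
        have := (((dG y).pow 2).const_mul t).sub ((dM y).const_mul 2)
        refine this.congr_deriv ?_
        norm_num)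
      (fun y hy => by
        have h1 := e1 y hy.1.le
        have h2 := hnn y hy.1.le
        nlinarith)
    simp only [intervalIntegral.integral_same, mul_zero, sub_zero] at h3
    linarith
  · have h3 := dec_of (f := fun y => (y - t * ∫ z in (0:ℝ)..y, f z) ^ 2 -
        (y ^ 2 - 2 * t * (y * (∫ z in (0:ℝ)..y, f z) - ∫ z in (0:ℝ)..y, z * f z)))
      (f' := fun y => 2 * (y - t * ∫ z in (0:ℝ)..y, f z) * (1 - t * f y) -
        (2 * y - 2 * t * ((∫ z in (0:ℝ)..y, f z)))) hx
      (fun y _ => (((((hasDerivAt_id y).sub ((dG y).const_mul t)).pow 2).sub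
        (((hasDerivAt_id y).pow 2).sub ((((hasDerivAt_id y).mul (dG y)).sub
        (dM y)).const_mul (2 * t))))).continuousAt.continuousWithinAt)
      (fun y _ => by
        have := ((((hasDerivAt_id y).sub ((dG y).const_mul t)).pow 2).sub
          (((hasDerivAt_id y).pow 2).sub ((((hasDerivAt_id y).mul (dG y)).sub
          (dM y)).const_mul (2 * t))))
        refine this.congr_deriv ?_
        simp only [id, Pi.sub_apply, Nat.cast_ofNat]
        ring)
      (fun y hy => by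
        have h1 := e1 y hy.1.le
        have h2 := hnn y hy.1.le
        have h4 : 0 ≤ (y - t * ∫ z in (0:ℝ)..y, f z) * (t * f y) := by
          have : 0 ≤ y - t * ∫ z in (0:ℝ)..y, f z := by linarith
          positivity
        nlinarith)
    simp only [intervalIntegral.integral_same, mul_zero, sub_zero] at h3
    norm_num at h3
    linarith
  · have h1 : x * (∫ z in (0:ℝ)..x, f z) - (∫ z in (0:ℝ)..x, z * f z) =
        ∫ z in (0:ℝ)..x, (x - z) * f z := by
      rw [← intervalIntegral.integral_const_mul, ← intervalIntegral.integral_sub]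
      · refine intervalIntegral.integral_congr fun z _ => ?_
        ring
      · exact (by fun_prop : Continuous fun z => x * f z).intervalIntegrable _ _
      · exact (by fun_prop : Continuous fun z => z * f z).intervalIntegrable _ _
    rw [h1, ← intervalIntegral.integral_const_mul]
    refine intervalIntegral.integral_mono_on hx ?_ ?_ fun z hz => ?_
    · exact (by fun_prop : Continuous fun z => t * ((x - z) * f z ^ 2)).intervalIntegrable _ _
    · exact (by fun_prop : Continuous fun z => ((x - z) * f z)).intervalIntegrable _ _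
    · have h2 := hnn z hz.1
      have h3 := hle z hz.1
      have h4 : 0 ≤ (x - z) * f z := mul_nonneg (by linarith [hz.2]) h2
      nlinarith

/-- The explicit form of the time derivative of the potential. -/
theorem pot_rhs (h : Sol (Icc a b) (Ioc a b) g v w) {t : ℝ} (ht : t ∈ Ioc a b) (x : ℝ) :
    x * (∫ z in (0:ℝ)..x, 1 * (w t z + qG g v t z)) - (∫ z in (0:ℝ)..x, z * (w t z + qG g v t z)) =
      g t x + 1/2 * (∫ z in (0:ℝ)..x, g t z) ^ 2 - x * v t 0 -
        2 * ∫ z in (0:ℝ)..x, (x - z) * g t z ^ 2 := by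
  have htI : t ∈ Icc a b := ⟨ht.1.le, ht.2⟩
  have hg := h.cg1 htI
  have hv : Continuous (v t) := slice' h.cv htI
  have hw : Continuous (w t) := slice' h.cw ht
  have dG : ∀ y, HasDerivAt (fun y => ∫ z in (0:ℝ)..y, g t z) (g t y) y := fun y =>
    (hg.integral_hasStrictDerivAt 0 y).hasDerivAt
  have hG : Continuous fun y => ∫ z in (0:ℝ)..y, g t z :=
    continuous_iff_continuousAt.2 fun y => (dG y).continuousAt
  have hR : Continuous fun z => w t z + qG g v t z := by unfold qG; fun_prop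
  have e1 : x * (∫ z in (0:ℝ)..x, 1 * (w t z + qG g v t z)) -
      (∫ z in (0:ℝ)..x, z * (w t z + qG g v t z)) =
      (∫ z in (0:ℝ)..x, (x - z) * (w t z + (∫ z' in (0:ℝ)..z, g t z') * v t z + g t z ^ 2)) -
        2 * ∫ z in (0:ℝ)..x, (x - z) * g t z ^ 2 := by
    rw [← intervalIntegral.integral_const_mul, ← intervalIntegral.integral_const_mul,
      ← intervalIntegral.integral_sub, ← intervalIntegral.integral_sub]
    · refine intervalIntegral.integral_congr fun z _ => ?_
      simp only [qG]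
      ring
    · exact (by fun_prop : Continuous fun z => (x - z) * (w t z + (∫ z' in (0:ℝ)..z, g t z') * v t z +
        g t z ^ 2)).intervalIntegrable _ _
    · exact (by fun_prop : Continuous fun z => 2 * ((x - z) * g t z ^ 2)).intervalIntegrable _ _
    · exact (by fun_prop : Continuous fun z => x * (1 * (w t z + qG g v t z))).intervalIntegrable _ _
    · exact (by fun_prop : Continuous fun z => z * (w t z + qG g v t z)).intervalIntegrable _ _
  rw [e1]
  have e2 : ∫ z in (0:ℝ)..x, (x - z) * (w t z + (∫ z' in (0:ℝ)..z, g t z') * v t z + g t z ^ 2) =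
      ((x - x) * v t x + g t x + (x - x) * ((∫ z in (0:ℝ)..x, g t z) * g t x) +
        1/2 * (∫ z in (0:ℝ)..x, g t z) ^ 2) -
      ((x - 0) * v t 0 + g t 0 + (x - 0) * ((∫ z in (0:ℝ)..0, g t z) * g t 0) +
        1/2 * (∫ z in (0:ℝ)..0, g t z) ^ 2) := by
    refine intervalIntegral.integral_eq_sub_of_hasDerivAt (f := fun y => (x - y) * v t y + g t y +
      (x - y) * ((∫ z in (0:ℝ)..y, g t z) * g t y) + 1/2 * (∫ z in (0:ℝ)..y, g t z) ^ 2) ?_ ?_
    · intro y _
      have d1 := ((hasDerivAt_const y x).sub (hasDerivAt_id y))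
      have := (((d1.mul (h.dv t ht y)).add (h.dg t htI y)).add
        (d1.mul ((dG y).mul (h.dg t htI y)))).add (((dG y).pow 2).const_mul (1/2))
      refine this.congr_deriv ?_
      simp only [id, Pi.sub_apply, Nat.cast_ofNat, Pi.mul_apply]
      ring
    · exact (by fun_prop : Continuous fun z => (x - z) * (w t z + (∫ z' in (0:ℝ)..z, g t z') * v t z +
        g t z ^ 2)).intervalIntegrable _ _
  rw [e2, intervalIntegral.integral_same, h.z htI]
  ring

/-- The potential. -/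
noncomputable def pot (g : ℝ → ℝ → ℝ) (t y : ℝ) : ℝ :=
  y ^ 2 - 2 * t * (y * (∫ z in (0:ℝ)..y, 1 * g t z) - ∫ z in (0:ℝ)..y, z * g t z)

theorem pot_cont (h : Sol (Icc a b) (Ioc a b) g v w) :
    ContinuousOn (uncurry (pot g)) (Icc a b ×ˢ univ) := by
  have h1 : ContinuousOn (uncurry fun s y => ∫ z in (0:ℝ)..y, 1 * g s z) (Icc a b ×ˢ univ) :=
    contOn_prim' (n := fun s z => 1 * g s z) (continuousOn_const.mul h.cg)
  have h2 : ContinuousOn (uncurry fun s y => ∫ z in (0:ℝ)..y, z * g s z) (Icc a b ×ˢ univ) :=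
    contOn_prim' (n := fun s z => z * g s z) (continuous_snd.continuousOn.mul h.cg)
  have h3 : ContinuousOn (fun p : ℝ × ℝ => p.2 ^ 2) (Icc a b ×ˢ univ) := by fun_prop
  have h4 : ContinuousOn (fun p : ℝ × ℝ => 2 * p.1) (Icc a b ×ˢ univ) := by fun_prop
  exact h3.sub (h4.mul ((continuous_snd.continuousOn.mul h1).sub h2))

/-- Derivative of the potential along a curve. -/
theorem pot_deriv (h : Sol (Icc a b) (Ioc a b) g v w) {S : ℝ → ℝ} {t : ℝ} (ht : t ∈ Ioo a b)
    (hS : 0 < S t) (hS' : HasDerivAt S (-∫ z in (0:ℝ)..S t, g t z) t) :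
    HasDerivAt (fun s => pot g s (S s))
      (-2 * (S t * (∫ z in (0:ℝ)..S t, g t z) - ∫ z in (0:ℝ)..S t, z * g t z) -
        2 * t * (g t (S t) + 1/2 * (∫ z in (0:ℝ)..S t, g t z) ^ 2 - S t * v t 0 -
          2 * ∫ z in (0:ℝ)..S t, (S t - z) * g t z ^ 2) +
        (2 * S t - 2 * t * (∫ z in (0:ℝ)..S t, g t z)) * (-∫ z in (0:ℝ)..S t, g t z)) t := by
  have hJ : Ioo a b ∈ 𝓝 t := Ioo_mem_nhds ht.1 ht.2
  have hU : Ioo a b ×ˢ Ioi (0:ℝ) ∈ 𝓝 (t, S t) := prod_mem_nhds hJ (Ioi_mem_nhds hS)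
  have hc := h.cont_rhs Ioc_subset_Icc_self
  have hc' : ContinuousOn (uncurry fun s y => w s y + qG g v s y) (Ioo a b ×ˢ univ) :=
    hc.mono (by gcongr; exact Ioo_subset_Ioc_self)
  have hg' : ContinuousOn (uncurry g) (Ioo a b ×ˢ univ) :=
    h.cg.mono (by gcongr; exact Ioo_subset_Icc_self)
  have k1 : ContinuousOn (uncurry fun s y => ∫ z in (0:ℝ)..y, 1 * g s z) (Ioo a b ×ˢ univ) :=
    contOn_prim' (n := fun s z => 1 * g s z) (continuousOn_const.mul hg')
  have k2 : ContinuousOn (uncurry fun s y => ∫ z in (0:ℝ)..y, z * g s z) (Ioo a b ×ˢ univ) :=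
    contOn_prim' (n := fun s z => z * g s z) (continuous_snd.continuousOn.mul hg')
  have k3 : ContinuousOn (uncurry fun s y => ∫ z in (0:ℝ)..y, 1 * (w s z + qG g v s z))
      (Ioo a b ×ˢ univ) :=
    contOn_prim' (n := fun s z => 1 * (w s z + qG g v s z)) (continuousOn_const.mul hc')
  have k4 : ContinuousOn (uncurry fun s y => ∫ z in (0:ℝ)..y, z * (w s z + qG g v s z))
      (Ioo a b ×ˢ univ) :=
    contOn_prim' (n := fun s z => z * (w s z + qG g v s z)) (continuous_snd.continuousOn.mul hc')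
  have k5 : ContinuousOn (fun p : ℝ × ℝ => 2 * p.1) (Ioo a b ×ˢ univ) := by fun_prop
  have k6 : ContinuousOn (fun p : ℝ × ℝ => 2 * p.2) (Ioo a b ×ˢ univ) := by fun_prop
  have kk1 : ContinuousOn (uncurry fun s y => -2 * (y * (∫ z in (0:ℝ)..y, 1 * g s z) -
      ∫ z in (0:ℝ)..y, z * g s z) - 2 * s * (y * (∫ z in (0:ℝ)..y, 1 * (w s z + qG g v s z)) -
      ∫ z in (0:ℝ)..y, z * (w s z + qG g v s z))) (Ioo a b ×ˢ univ) :=
    (continuousOn_const.mul ((continuous_snd.continuousOn.mul k1).sub k2)).sub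
      (k5.mul ((continuous_snd.continuousOn.mul k3).sub k4))
  have kk2 : ContinuousOn (uncurry fun s y => 2 * y - 2 * s * (∫ z in (0:ℝ)..y, 1 * g s z))
      (Ioo a b ×ˢ univ) := k6.sub (k5.mul k1)
  have key := chain2 (F := pot g) (S := S) (t := t) hU
    (Ft := fun s y => -2 * (y * (∫ z in (0:ℝ)..y, 1 * g s z) - ∫ z in (0:ℝ)..y, z * g s z) -
      2 * s * (y * (∫ z in (0:ℝ)..y, 1 * (w s z + qG g v s z)) -
        ∫ z in (0:ℝ)..y, z * (w s z + qG g v s z)))
    (Fy := fun s y => 2 * y - 2 * s * (∫ z in (0:ℝ)..y, 1 * g s z))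
    (fun p hp => by
      have hy : (0:ℝ) ≤ p.2 := le_of_lt hp.2
      have d1 := deriv_int h (k := fun _ => 1) continuous_const hp.1 hy
      have d2 := deriv_int h (k := fun z => z) continuous_id hp.1 hy
      have := (hasDerivAt_const p.1 (p.2 ^ 2)).sub (((hasDerivAt_id p.1).const_mul 2).mul
        ((d1.const_mul p.2).sub d2))
      refine this.congr_deriv ?_
      simp only [id, Pi.sub_apply, Pi.mul_apply]
      ring)
    (fun p hp => by
      have htI : p.1 ∈ Icc a b := ⟨hp.1.1.le, hp.1.2.le⟩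
      have hg := h.cg1 htI
      have d1 : HasDerivAt (fun y => ∫ z in (0:ℝ)..y, 1 * g p.1 z) (1 * g p.1 p.2) p.2 :=
        ((hg.const_mul 1).integral_hasStrictDerivAt 0 p.2).hasDerivAt
      have d2 : HasDerivAt (fun y => ∫ z in (0:ℝ)..y, z * g p.1 z) (p.2 * g p.1 p.2) p.2 :=
        ((continuous_id.mul hg).integral_hasStrictDerivAt 0 p.2).hasDerivAt
      have := ((hasDerivAt_id p.2).pow 2).sub ((((hasDerivAt_id p.2).mul d1).sub d2).const_mul
        (2 * p.1))
      refine this.congr_deriv ?_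
      simp only [id, Nat.cast_ofNat]
      ring)
    (contAt_of_contOn kk1 hJ) (contAt_of_contOn kk2 hJ) hS'
  refine key.congr_deriv ?_
  have e1 := pot_rhs h ⟨ht.1, ht.2.le⟩ (S t)
  rw [e1]
  simp only [one_mul]

/-- The potential inequality. -/
theorem pot_deriv_le (h : Sol (Icc a b) (Ioc a b) g v w) (ha : 0 < a) {t x : ℝ} (ht : t ∈ Ioo a b)
    (hx : 0 < x) (hnn : ∀ y, 0 ≤ y → 0 ≤ g t y) (hle : ∀ y, 0 ≤ y → t * g t y ≤ 1)
    (hv : |v t 0| ≤ 2 / t * (√(t - a))⁻¹) :
    (-2 * (x * (∫ z in (0:ℝ)..x, g t z) - ∫ z in (0:ℝ)..x, z * g t z) -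
        2 * t * (g t x + 1/2 * (∫ z in (0:ℝ)..x, g t z) ^ 2 - x * v t 0 -
          2 * ∫ z in (0:ℝ)..x, (x - z) * g t z ^ 2) +
        (2 * x - 2 * t * (∫ z in (0:ℝ)..x, g t z)) * (-∫ z in (0:ℝ)..x, g t z)) ≤
      4 * x * (√(t - a))⁻¹ := by
  have ht0 : 0 < t := ha.trans ht.1
  obtain ⟨p1, p2, p3, p4⟩ := pack_static (h.cg1 ⟨ht.1.le, ht.2.le⟩) hnn ht0.le hle hx.le
  have h1 := hnn x hx.le
  have h2 : 2 * t * (x * v t 0) ≤ 4 * x * (√(t - a))⁻¹ := by
    have h3 : v t 0 ≤ 2 / t * (√(t - a))⁻¹ := (le_abs_self _).trans hv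
    calc 2 * t * (x * v t 0) ≤ 2 * t * (x * (2 / t * (√(t - a))⁻¹)) := by gcongr
      _ = _ := by field_simp; ring
  have h3 : 0 ≤ t * g t x := by positivity
  set G := ∫ z in (0:ℝ)..x, g t z
  set M := ∫ z in (0:ℝ)..x, z * g t z
  set Q := ∫ z in (0:ℝ)..x, (x - z) * g t z ^ 2
  have e : (-2 * (x * G - M) - 2 * t * (g t x + 1/2 * G ^ 2 - x * v t 0 - 2 * Q) +
      (2 * x - 2 * t * G) * (-G)) = 2 * t * (x * v t 0) - 2 * (t * g t x) +
        4 * (t * Q - (x * G - M)) + (t * G ^ 2 - 2 * M) := by ring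
  rw [e]
  linarith

end

end Pool.Agent.Lib.MP_79abb3_an
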