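import Pool.Agent.Lib.MP_79abb3_an.TwoPt

/-!
Global existence for the half line problem.
-/

set_option autoImplicit false
set_option linter.unusedSectionVars false
set_option linter.unusedVariables false

open MeasureTheory Set Filter Topology Real Function

namespace Pool.Agent.Lib.MP_79abb3_an

theorem Dat.mono {R R' : ℝ} {g v : ℝ → ℝ} (h : Dat R g v) (hR : R ≤ R') : Dat R' g v :=
  ⟨h.c, h.d, h.odd, fun y => (h.bg y).trans (by have := om_pos y; gcongr),
    fun y => (h.bv y).trans (by have := om_pos y; gcongr)⟩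

/-- Derivative of an odd function is even. -/
theorem even_of_odd {f f' : ℝ → ℝ} (hf : ∀ y, HasDerivAt f (f' y) y) (ho : ∀ y, f (-y) = -f y) :
    ∀ y, f' (-y) = f' y := by
  intro y
  have h1 : HasDerivAt (fun z => -f (-z)) (f' (-y)) y := by
    have := ((hf (-y)).comp y (hasDerivAt_neg y)).neg
    refine this.congr_deriv ?_
    ring
  have h2 : (fun z => -f (-z)) = f := by
    ext z; rw [ho]; ring
  rw [h2] at h1
  exact h1.unique (hf y)

section
variable {a b : ℝ} {g v w : ℝ → ℝ → ℝ}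

/-- Admissible initial data for stage two. -/
structure Adm (a M σ : ℝ) (g v : ℝ → ℝ) : Prop where
  dat : Dat M g v
  nn : ∀ y, 0 ≤ y → 0 ≤ g y
  le : ∀ y, 0 ≤ y → a * g y ≤ 1
  lip : ∀ x y, 0 ≤ x → 0 ≤ y → a * √σ * (g x - g y) ≤ |x - y|

theorem om_of_nonneg {y : ℝ} (hy : 0 ≤ y) : om y = exp (-y) := by rw [om, abs_of_nonneg hy]

theorem Sol.nn' (h : Sol (Icc a b) (Ioc a b) g v w) (hab : a < b) {M σ : ℝ}
    (hA : Adm a M σ (g a) (v a)) : ∀ t ∈ Icc a b, ∀ y, 0 ≤ y → 0 ≤ g t y :=
  h.nonneg hab hA.nn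

theorem Sol.le' (h : Sol (Icc a b) (Ioc a b) g v w) (ha : 0 < a) (hab : a < b) {M σ : ℝ}
    (hA : Adm a M σ (g a) (v a)) : ∀ t ∈ Icc a b, ∀ y, 0 ≤ y → t * g t y ≤ 1 :=
  h.le_inv ha hab hA.le

theorem Sol.gr' (h : Sol (Icc a b) (Ioc a b) g v w) (ha : 0 < a) (hab : a < b) {M σ : ℝ}
    (hσ : 0 < σ) (hσa : σ ≤ a) (hA : Adm a M σ (g a) (v a)) :
    ∀ t ∈ Ico a b, ∀ y, 0 ≤ y → |v t y| ≤ 2 / t * (√(t - a + σ))⁻¹ :=
  h.grad ha hab (h.nn' hab hA) (h.le' ha hab hA) hσ hσa hA.lip

/-- The data at the end of a solution interval. -/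
theorem Sol.dat_end (h : Sol (Icc a b) (Ioc a b) g v w) (ha : 0 < a) (hab : a < b) {M σ : ℝ}
    (hM : 0 < M) (hA : Adm a M σ (g a) (v a)) :
    Dat (4 * M * exp ((2 * (1 / a) + 2) * (b - a))) (g b) (v b) := by
  have haI : a ∈ Icc a b := ⟨le_rfl, hab.le⟩
  have hbI : b ∈ Icc a b := ⟨hab.le, le_rfl⟩
  have hai : 0 < 1 / a := by positivity
  have hnn := h.nn' hab hA
  have hle := h.le' ha hab hA
  have hw := h.weight hab hnn hM (fun y hy => by
    have := (le_abs_self _).trans (hA.dat.bg y)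
    rwa [om_of_nonneg hy] at this)
  have hgw := h.gradW ha hab hnn hle hM hw (fun y hy => by
    have := hA.dat.bv y
    rwa [om_of_nonneg hy] at this)
  have hvc : Continuous (v b) := by
    have := h.cv.comp_continuous (f := fun y : ℝ => (b, y)) (by fun_prop) fun y => ⟨hbI, mem_univ _⟩
    exact this
  have hgb : ∀ y, 0 ≤ y → |g b y| ≤ 4 * M * exp ((2 * (1 / a) + 2) * (b - a)) * exp (-y) := by
    intro y hy
    rw [abs_of_nonneg (hnn b hbI y hy)]
    refine (hw b hbI y hy).trans ?_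
    have h1 : exp (2 * (b - a) - y) = exp (2 * (b - a)) * exp (-y) := by
      rw [← exp_add]; congr 1
    rw [h1]
    have h2 : exp (2 * (b - a)) ≤ exp ((2 * (1 / a) + 2) * (b - a)) := by
      apply exp_le_exp.2
      nlinarith
    calc M * (exp (2 * (b - a)) * exp (-y)) ≤
        (4 * M) * (exp ((2 * (1 / a) + 2) * (b - a)) * exp (-y)) := by
          gcongr
          linarith
      _ = _ := by ring
  have hvb : ∀ y, 0 ≤ y → |v b y| ≤ 4 * M * exp ((2 * (1 / a) + 2) * (b - a)) * exp (-y) := by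
    intro y hy
    have hc : ContinuousOn (fun t => v t y) (Icc a b) :=
      h.cv.comp (f := fun s : ℝ => (s, y)) (by fun_prop) fun s hs => ⟨hs, mem_univ _⟩
    have h1 := closed_of_half (φ := fun t => |v t y| -
      4 * M * exp ((2 * (1 / a) + 2) * (t - a)) * exp (-y)) hab
      (hc.abs.sub (by fun_prop)) (fun t ht => by
        have := hgw t ht y hy
        linarith) b hbI
    linarith
  have heven := even_of_odd (h.dg b hbI) (h.odd b hbI)
  refine ⟨hvc, h.dg b hbI, h.odd b hbI, fun y => ?_, fun y => ?_⟩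
  · rcases le_total 0 y with hy | hy
    · rw [om_of_nonneg hy]; exact hgb y hy
    · have h1 := hgb (-y) (by linarith)
      rw [h.odd b hbI, abs_neg] at h1
      rw [om, abs_of_nonpos hy]; exact h1
  · rcases le_total 0 y with hy | hy
    · rw [om_of_nonneg hy]; exact hvb y hy
    · have h1 := hvb (-y) (by linarith)
      rw [heven] at h1
      rw [om, abs_of_nonpos hy]; exact h1

end

theorem Icc_pre (a b t : ℝ) : (fun t => t - a) ⁻¹' Icc 0 b = Icc a (a + b) := by
  ext x; simp only [mem_preimage, mem_Icc]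
  constructor
  · rintro ⟨h1, h2⟩; exact ⟨by linarith, by linarith⟩
  · rintro ⟨h1, h2⟩; exact ⟨by linarith, by linarith⟩

theorem Ioc_pre (a b t : ℝ) : (fun t => t - a) ⁻¹' Ioc 0 b = Ioc a (a + b) := by
  ext x; simp only [mem_preimage, mem_Ioc]
  constructor
  · rintro ⟨h1, h2⟩; exact ⟨by linarith, by linarith⟩
  · rintro ⟨h1, h2⟩; exact ⟨by linarith, by linarith⟩

/-- Global existence. -/
theorem global {a T M σ : ℝ} (ha : 0 < a) (haT : a < T) (hM : 0 < M) {g1 v1 : ℝ → ℝ}
    (hA : Adm a M σ g1 v1) :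
    ∃ g v w : ℝ → ℝ → ℝ, Sol (Icc a T) (Ioc a T) g v w ∧ g a = g1 ∧ v a = v1 := by
  set R := 4 * M * exp ((2 * (1 / a) + 2) * (T - a)) with hR
  have hai : 0 < 1 / a := by positivity
  have hR0 : 0 < R := by positivity
  have hMR : M ≤ R := by
    have h1 : 1 ≤ exp ((2 * (1 / a) + 2) * (T - a)) := by
      apply one_le_exp
      have : 0 ≤ T - a := by linarith
      positivity
    rw [hR]
    nlinarith
  have hcE := cE_pos
  -- uniform step
  obtain ⟨n, hn⟩ := exists_nat_gt (max ((T - a) * (96 * cE ^ 2 * R) ^ 2) (T - a))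
  have hn0 : 0 < (n:ℝ) := lt_of_le_of_lt (le_trans (by linarith) (le_max_right _ _)) hn
  set ε := (T - a) / n with hε
  have hε0 : 0 < ε := div_pos (by linarith) hn0
  have hε1 : ε ≤ 1 := by
    rw [hε, div_le_one hn0]
    exact (le_max_right _ _).trans hn.le
  have hεs : 96 * cE ^ 2 * √ε * R ≤ 1 := by
    have h1 : ε * (96 * cE ^ 2 * R) ^ 2 ≤ 1 := by
      rw [hε, div_mul_eq_mul_div, div_le_one hn0]
      exact (le_max_left _ _).trans hn.le
    have h2 : 0 ≤ 96 * cE ^ 2 * R := by positivity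
    have h3 : (96 * cE ^ 2 * √ε * R) ^ 2 ≤ 1 := by
      have : (96 * cE ^ 2 * √ε * R) ^ 2 = (√ε) ^ 2 * (96 * cE ^ 2 * R) ^ 2 := by ring
      rw [this, sq_sqrt hε0.le]
      exact h1
    have h4 : 0 ≤ 96 * cE ^ 2 * √ε * R := by positivity
    nlinarith
  have hmain : ∀ k : ℕ, k < n → ∃ g v w : ℝ → ℝ → ℝ,
      Sol (Icc a (a + (k + 1) * ε)) (Ioc a (a + (k + 1) * ε)) g v w ∧ g a = g1 ∧ v a = v1 := by
    intro k
    induction k with
    | zero =>
      intro _
      obtain ⟨g, v, w, hs, hg, hv, -⟩ := step_base ⟨hε0, hε1⟩ (hA.dat.mono hMR) hR0 hεs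
      have h1 := hs.shift a
      rw [Icc_pre _ _ 0, Ioc_pre _ _ 0] at h1
      refine ⟨fun t => g (t - a), fun t => v (t - a), fun t => w (t - a), ?_, ?_, ?_⟩
      · simpa using h1
      · show g (a - a) = g1
        rw [sub_self, hg]
      · show v (a - a) = v1
        rw [sub_self, hv]
    | succ k ih =>
      intro hk
      obtain ⟨g, v, w, hs, hg, hv⟩ := ih (by omega)
      set b := a + ((k:ℝ) + 1) * ε with hb
      have hab : a < b := by rw [hb]; have : 0 < ((k:ℝ) + 1) * ε := by positivity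
                             linarith
      have hbT : b ≤ T := by
        have h1 : ((k:ℝ) + 1) * ε ≤ n * ε := by
          gcongr
          exact_mod_cast (by omega : k + 1 ≤ n)
        have h2 : (n:ℝ) * ε = T - a := by rw [hε]; field_simp
        rw [hb]; linarith
      have hbI : b ∈ Icc a b := ⟨hab.le, le_rfl⟩
      have hbJ : b ∈ Ioc a b := ⟨hab, le_rfl⟩
      have hA' : Adm a M σ (g a) (v a) := by rw [hg, hv]; exact hA
      have hdat := (hs.dat_end ha hab hM hA').mono (R' := R) (by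
        rw [hR]
        gcongr)
      obtain ⟨g', v', w', hs', hg', hv', hreg⟩ := step_base ⟨hε0, hε1⟩ hdat hR0 hεs
      have hwc : Continuous (w b) := by
        have := hs.cw.comp_continuous (f := fun y : ℝ => (b, y)) (by fun_prop)
          fun y => ⟨hbJ, mem_univ _⟩
        exact this
      obtain ⟨C, hC⟩ := hs.bw b hbJ
      obtain ⟨w'', hs'', hw''⟩ := hreg (w b) hwc (hs.dv b hbJ) ⟨C, hC b hbJ le_rfl⟩
      have h1 := hs''.shift b
      rw [Icc_pre _ _ 0] at h1
      have hbe : b < b + ε := by linarith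
      have h2 := hs.glue hab hbe h1 (by
        show g b = g' (b - b)
        rw [sub_self, hg']) (by
        show v b = v' (b - b)
        rw [sub_self, hv']) (by
        show w b = w'' (b - b)
        rw [sub_self, hw''])
      have e : b + ε = a + (((k + 1 : ℕ) : ℝ) + 1) * ε := by
        rw [hb]; push_cast; ring
      rw [e] at h2
      refine ⟨_, _, _, h2, ?_, ?_⟩
      · show (if a ≤ b then g a else _) = g1
        rw [if_pos hab.le, hg]
      · show (if a ≤ b then v a else _) = v1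
        rw [if_pos hab.le, hv]
  have hn1 : 0 < n := by exact_mod_cast hn0
  obtain ⟨g, v, w, hs, hg, hv⟩ := hmain (n - 1) (by omega)
  have e : a + (((n - 1 : ℕ) : ℝ) + 1) * ε = T := by
    rw [Nat.cast_sub (by omega)]
    have h2 : (n:ℝ) * ε = T - a := by rw [hε]; field_simp
    push_cast
    linarith
  rw [e] at hs
  exact ⟨g, v, w, hs, hg, hv⟩

end Pool.Agent.Lib.MP_79abb3_an
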