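import Pool.Agent.Lib.MP_79abb3_an.Max

/-!
Calculus of moments of a profile on the half line.
-/

set_option autoImplicit false
set_option linter.unusedSectionVars false
set_option linter.unusedVariables false

open MeasureTheory Set Filter Topology Real Function

namespace Pool.Agent.Lib.MP_79abb3_an

theorem wt_le {ξ : ℝ} (h : 0 ≤ ξ) : (1 + ξ) ^ 2 * exp (-ξ) ≤ 16 * exp (-(1/2) * ξ) := by
  have h1 : 1 + ξ ≤ 4 * exp (ξ / 4) := by
    have := add_one_le_exp (ξ / 4)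
    linarith
  have h2 : (1 + ξ) ^ 2 ≤ 16 * exp (ξ / 2) := by
    calc (1 + ξ) ^ 2 ≤ (4 * exp (ξ / 4)) ^ 2 := by gcongr
      _ = 16 * exp (ξ / 2) := by
        rw [mul_pow, ← exp_nat_mul]; norm_num; ring
  calc (1 + ξ) ^ 2 * exp (-ξ) ≤ 16 * exp (ξ / 2) * exp (-ξ) := by gcongr
    _ = 16 * exp (-(1/2) * ξ) := by rw [mul_assoc, ← exp_add]; congr 2; ring

theorem int_bound : IntegrableOn (fun ξ : ℝ => 16 * exp (-(1/2) * ξ)) (Ioi 0) :=
  (exp_neg_integrableOn_Ioi 0 (by norm_num)).const_mul 16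

theorem int_of_wt {f : ℝ → ℝ} (hf : Continuous f) {K : ℝ} (hK : 0 ≤ K)
    (h : ∀ ξ, 0 < ξ → |f ξ| ≤ K * ((1 + ξ) ^ 2 * exp (-ξ))) : IntegrableOn f (Ioi 0) := by
  refine (int_bound.const_mul K).mono' hf.aestronglyMeasurable.restrict ?_
  rw [ae_restrict_iff' measurableSet_Ioi]
  refine ae_of_all _ fun ξ hξ => ?_
  have hξ' : 0 < ξ := hξ
  exact (h ξ hξ').trans (by have := wt_le hξ'.le; gcongr)

theorem tend_of_wt {f : ℝ → ℝ} {K : ℝ} (hK : 0 ≤ K)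
    (h : ∀ ξ, 0 < ξ → |f ξ| ≤ K * ((1 + ξ) ^ 2 * exp (-ξ))) : Tendsto f atTop (𝓝 0) := by
  rw [tendsto_zero_iff_abs_tendsto_zero]
  have h1 : Tendsto (fun ξ : ℝ => K * (16 * exp (-(1/2) * ξ))) atTop (𝓝 (K * (16 * 0))) := by
    refine ((Tendsto.const_mul 16 ?_).const_mul K)
    have : Tendsto (fun ξ : ℝ => exp (-(ξ * (1/2)))) atTop (𝓝 0) :=
      tendsto_exp_neg_atTop_nhds_zero.comp (tendsto_id.atTop_mul_const (by norm_num))
    refine this.congr fun ξ => ?_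
    congr 1; ring
  rw [mul_zero, mul_zero] at h1
  refine squeeze_zero' (Eventually.of_forall fun q => abs_nonneg _) ?_ h1
  filter_upwards [Ioi_mem_atTop 0] with ξ hξ
  have hξ' : 0 < ξ := hξ
  exact (h ξ hξ').trans (by have := wt_le hξ'.le; gcongr)

/-- Profiles. -/
structure Prof (C : ℝ) (u u1 u2 : ℝ → ℝ) : Prop where
  c2 : Continuous u2
  d1 : ∀ ξ, HasDerivAt u (u1 ξ) ξ
  d2 : ∀ ξ, HasDerivAt u1 (u2 ξ) ξ
  b0 : ∀ ξ, 0 ≤ ξ → |u ξ| ≤ C * exp (-ξ)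
  b1 : ∀ ξ, 0 ≤ ξ → |u1 ξ| ≤ C * exp (-ξ)
  b2 : ∀ ξ, 0 ≤ ξ → |u2 ξ| ≤ C * exp (-ξ)
  nn : ∀ ξ, 0 ≤ ξ → 0 ≤ u ξ

/-- Moments. -/
noncomputable def mom (k : ℕ) (u : ℝ → ℝ) : ℝ := ∫ ξ in Ioi (0:ℝ), ξ ^ k * u ξ

section prof
variable {C : ℝ} {u u1 u2 : ℝ → ℝ}

theorem Prof.C0 (h : Prof C u u1 u2) : 0 ≤ C := by
  have := (abs_nonneg _).trans (h.b0 0 le_rfl)
  simpa using this

theorem Prof.cu (h : Prof C u u1 u2) : Continuous u :=
  continuous_iff_continuousAt.2 fun y => (h.d1 y).continuousAt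

theorem Prof.cu1 (h : Prof C u u1 u2) : Continuous u1 :=
  continuous_iff_continuousAt.2 fun y => (h.d2 y).continuousAt

theorem one_le_wt {ξ : ℝ} (h : 0 ≤ ξ) : 1 ≤ (1 + ξ) ^ 2 := by nlinarith
theorem id_le_wt {ξ : ℝ} (h : 0 ≤ ξ) : ξ ≤ (1 + ξ) ^ 2 := by nlinarith
theorem sq_le_wt {ξ : ℝ} (h : 0 ≤ ξ) : ξ ^ 2 ≤ (1 + ξ) ^ 2 := by nlinarith

theorem pow_le_wt {ξ : ℝ} (h : 0 ≤ ξ) {k : ℕ} (hk : k ≤ 2) : ξ ^ k ≤ (1 + ξ) ^ 2 := by
  interval_cases k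
  · simpa using one_le_wt h
  · simpa using id_le_wt h
  · exact sq_le_wt h

/-- moments of functions with exponential decay are integrable -/
theorem mom_int {f : ℝ → ℝ} (hf : Continuous f) {K : ℝ} (h : ∀ ξ, 0 ≤ ξ → |f ξ| ≤ K * exp (-ξ))
    {k : ℕ} (hk : k ≤ 2) : IntegrableOn (fun ξ => ξ ^ k * f ξ) (Ioi 0) := by
  have hK : 0 ≤ K := by
    have := (abs_nonneg _).trans (h 0 le_rfl)
    simpa using this
  refine int_of_wt (by fun_prop) hK fun ξ hξ => ?_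
  rw [abs_mul, abs_pow, abs_of_pos hξ]
  calc ξ ^ k * |f ξ| ≤ (1 + ξ) ^ 2 * (K * exp (-ξ)) := by
        gcongr
        · exact pow_le_wt hξ.le hk
        · exact h ξ hξ.le
    _ = _ := by ring

/-- Primitive. -/
noncomputable def pr (u : ℝ → ℝ) (ξ : ℝ) : ℝ := ∫ z in (0:ℝ)..ξ, u z

theorem Prof.dpr (h : Prof C u u1 u2) (ξ : ℝ) : HasDerivAt (pr u) (u ξ) ξ :=
  (h.cu.integral_hasStrictDerivAt 0 ξ).hasDerivAt

theorem Prof.pr_nonneg (h : Prof C u u1 u2) {ξ : ℝ} (hξ : 0 ≤ ξ) : 0 ≤ pr u ξ :=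
  prim_nonneg h.nn hξ

theorem int_exp_le {ξ : ℝ} (hξ : 0 ≤ ξ) : ∫ z in (0:ℝ)..ξ, exp (-z) ≤ 1 := by
  have h2 : ∫ z in (0:ℝ)..ξ, exp (-z) = 1 - exp (-ξ) := by
    rw [intervalIntegral.integral_eq_sub_of_hasDerivAt (f := fun z => -exp (-z))]
    · simp; ring
    · intro z _
      have := ((hasDerivAt_id z).neg.exp).neg
      refine this.congr_deriv ?_
      simp
    · exact (by fun_prop : Continuous fun z : ℝ => exp (-z)).intervalIntegrable _ _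
  rw [h2]
  linarith [exp_pos (-ξ)]

theorem Prof.pr_le (h : Prof C u u1 u2) {ξ : ℝ} (hξ : 0 ≤ ξ) : pr u ξ ≤ C := by
  have h1 : pr u ξ ≤ ∫ z in (0:ℝ)..ξ, C * exp (-z) := by
    refine intervalIntegral.integral_mono_on hξ (h.cu.intervalIntegrable _ _)
      ((by fun_prop : Continuous fun z : ℝ => C * exp (-z)).intervalIntegrable _ _) fun z hz => ?_
    exact (le_abs_self _).trans (h.b0 z hz.1)
  rw [intervalIntegral.integral_const_mul] at h1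
  refine h1.trans ?_
  calc C * _ ≤ C * 1 := by have := h.C0; gcongr; exact int_exp_le hξ
    _ = C := mul_one C

theorem Prof.int0 (h : Prof C u u1 u2) : IntegrableOn u (Ioi 0) := by
  have := mom_int h.cu h.b0 (k := 0) (by norm_num)
  simpa using this

theorem mom_zero (u : ℝ → ℝ) : mom 0 u = ∫ ξ in Ioi (0:ℝ), u ξ := by simp [mom]

theorem Prof.tend_pr (h : Prof C u u1 u2) : Tendsto (pr u) atTop (𝓝 (mom 0 u)) := by
  rw [mom_zero]
  exact intervalIntegral_tendsto_integral_Ioi 0 h.int0 tendsto_id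

theorem Prof.mom_nonneg (h : Prof C u u1 u2) (k : ℕ) : 0 ≤ mom k u := by
  refine setIntegral_nonneg measurableSet_Ioi fun ξ hξ => ?_
  have hξ' : 0 < ξ := hξ
  have := h.nn ξ hξ'.le
  positivity

theorem Prof.cpr (h : Prof C u u1 u2) : Continuous (pr u) :=
  continuous_iff_continuousAt.2 fun y => (h.dpr y).continuousAt

/-- First moment inequality. -/
theorem Prof.mom1 (h : Prof C u u1 u2) :
    ∫ ξ in Ioi (0:ℝ), ξ * (u2 ξ + pr u ξ * u1 ξ - u ξ ^ 2) ≤ u 0 - 1/2 * (mom 0 u) ^ 2 := by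
  have hC := h.C0
  have c0 := h.cu
  have c1 := h.cu1
  have c2 := h.c2
  have cp := h.cpr
  -- antiderivative
  set A : ℝ → ℝ := fun ξ => ξ * u1 ξ - u ξ + ξ * (pr u ξ * u ξ) - 1/2 * (pr u ξ) ^ 2 with hA
  set A' : ℝ → ℝ := fun ξ => ξ * u2 ξ + ξ * (pr u ξ * u1 ξ) + ξ * u ξ ^ 2 with hA'
  have hd : ∀ ξ, HasDerivAt A (A' ξ) ξ := by
    intro ξ
    have e1 := (hasDerivAt_id ξ).mul (h.d2 ξ)
    have e2 := (hasDerivAt_id ξ).mul ((h.dpr ξ).mul (h.d1 ξ))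
    have e3 := ((h.dpr ξ).pow 2).const_mul (1/2 : ℝ)
    have := ((e1.sub (h.d1 ξ)).add e2).sub e3
    refine this.congr_deriv ?_
    rw [hA']
    simp only [id, Pi.mul_apply]
    push_cast
    ring
  have b : ∀ ξ, 0 ≤ ξ → exp (-ξ) ≤ 1 := fun ξ hξ => by rw [exp_le_one_iff]; linarith
  have bu2 : ∀ ξ, 0 ≤ ξ → u ξ ^ 2 ≤ C * (C * exp (-ξ)) := fun ξ hξ => by
    have h1 := h.b0 ξ hξ
    have h2 := b ξ hξ
    rw [← sq_abs, sq]
    calc |u ξ| * |u ξ| ≤ (C * 1) * (C * exp (-ξ)) := by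
          gcongr
          exact h1.trans (by gcongr)
      _ = _ := by ring
  have i1 : IntegrableOn (fun ξ => ξ * u2 ξ) (Ioi 0) := by
    have := mom_int h.c2 h.b2 (k := 1) (by norm_num)
    simpa using this
  have i2 : IntegrableOn (fun ξ => ξ * (pr u ξ * u1 ξ)) (Ioi 0) := by
    have := mom_int (f := fun ξ => pr u ξ * u1 ξ) (by fun_prop) (K := C * C) (fun ξ hξ => by
      rw [abs_mul, abs_of_nonneg (h.pr_nonneg hξ)]
      calc pr u ξ * |u1 ξ| ≤ C * (C * exp (-ξ)) := by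
            have := h.pr_le hξ
            have := h.b1 ξ hξ
            gcongr
        _ = _ := by ring) (k := 1) (by norm_num)
    simpa using this
  have i3 : IntegrableOn (fun ξ => ξ * u ξ ^ 2) (Ioi 0) := by
    have := mom_int (f := fun ξ => u ξ ^ 2) (by fun_prop) (K := C * C) (fun ξ hξ => by
      rw [abs_of_nonneg (sq_nonneg _)]
      have := bu2 ξ hξ
      linarith) (k := 1) (by norm_num)
    simpa using this
  have hA'i : IntegrableOn A' (Ioi 0) := (i1.add i2).add i3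
  have htend : Tendsto A atTop (𝓝 (-(1/2) * (mom 0 u) ^ 2)) := by
    have t1 : Tendsto (fun ξ => ξ * u1 ξ - u ξ + ξ * (pr u ξ * u ξ)) atTop (𝓝 0) := by
      refine tend_of_wt (K := 2 * C + C * C) (by positivity) fun ξ hξ => ?_
      have e1 := h.b1 ξ hξ.le
      have e0 := h.b0 ξ hξ.le
      have e2 := h.pr_le hξ.le
      have e3 := h.pr_nonneg hξ.le
      have w1 := one_le_wt hξ.le
      have w2 := id_le_wt hξ.le
      calc |ξ * u1 ξ - u ξ + ξ * (pr u ξ * u ξ)| ≤ |ξ * u1 ξ| + |u ξ| + |ξ * (pr u ξ * u ξ)| := by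
            refine (abs_add_le _ _).trans ?_
            gcongr
            exact abs_sub _ _
        _ = ξ * |u1 ξ| + 1 * |u ξ| + ξ * (pr u ξ * |u ξ|) := by
            rw [abs_mul, abs_mul, abs_mul, abs_of_pos hξ, abs_of_nonneg e3, one_mul]
        _ ≤ (1 + ξ) ^ 2 * (C * exp (-ξ)) + (1 + ξ) ^ 2 * (C * exp (-ξ)) +
            (1 + ξ) ^ 2 * (C * (C * exp (-ξ))) := by gcongr
        _ = _ := by ring
    have t2 : Tendsto (fun ξ => 1/2 * (pr u ξ) ^ 2) atTop (𝓝 (1/2 * (mom 0 u) ^ 2)) :=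
      (h.tend_pr.pow 2).const_mul _
    have := t1.sub t2
    rw [show (0:ℝ) - 1/2 * (mom 0 u) ^ 2 = -(1/2) * (mom 0 u) ^ 2 by ring] at this
    exact this
  have hint := integral_Ioi_of_hasDerivAt_of_tendsto' (fun ξ _ => hd ξ) hA'i htend
  have hA0 : A 0 = -u 0 := by simp [hA, pr]
  have hle : ∫ ξ in Ioi (0:ℝ), ξ * (u2 ξ + pr u ξ * u1 ξ - u ξ ^ 2) ≤ ∫ ξ in Ioi (0:ℝ), A' ξ := by
    refine setIntegral_mono_on ?_ hA'i measurableSet_Ioi fun ξ hξ => ?_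
    · refine ((i1.add i2).sub i3).congr_fun (fun ξ _ => ?_) measurableSet_Ioi
      simp only [Pi.add_apply, Pi.sub_apply]
      ring
    · have hξ' : 0 < ξ := hξ
      simp only [hA']
      have : 0 ≤ ξ * u ξ ^ 2 := by positivity
      linarith
  rw [hint, hA0] at hle
  linarith

/-- Second moment inequality. -/
theorem Prof.mom2 (h : Prof C u u1 u2) :
    ∫ ξ in Ioi (0:ℝ), ξ ^ 2 * (u2 ξ + pr u ξ * u1 ξ - u ξ ^ 2) ≤ 2 * mom 0 u := by
  have hC := h.C0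
  have c0 := h.cu
  have c1 := h.cu1
  have c2 := h.c2
  have cp := h.cpr
  set A : ℝ → ℝ := fun ξ => ξ ^ 2 * u1 ξ - 2 * (ξ * u ξ) + ξ ^ 2 * (pr u ξ * u ξ) with hA
  set A' : ℝ → ℝ := fun ξ => ξ ^ 2 * u2 ξ + ξ ^ 2 * (pr u ξ * u1 ξ) + ξ ^ 2 * u ξ ^ 2 - 2 * u ξ +
    2 * (ξ * (pr u ξ * u ξ)) with hA'
  have hd : ∀ ξ, HasDerivAt A (A' ξ) ξ := by
    intro ξ
    have e1 := ((hasDerivAt_id ξ).pow 2).mul (h.d2 ξ)
    have e2 := ((hasDerivAt_id ξ).pow 2).mul ((h.dpr ξ).mul (h.d1 ξ))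
    have e3 := ((hasDerivAt_id ξ).mul (h.d1 ξ)).const_mul (2 : ℝ)
    have := (e1.sub e3).add e2
    refine this.congr_deriv ?_
    rw [hA']
    simp only [id, Pi.mul_apply, Pi.pow_apply]
    push_cast
    ring
  have b : ∀ ξ, 0 ≤ ξ → exp (-ξ) ≤ 1 := fun ξ hξ => by rw [exp_le_one_iff]; linarith
  have bu2 : ∀ ξ, 0 ≤ ξ → u ξ ^ 2 ≤ C * (C * exp (-ξ)) := fun ξ hξ => by
    have h1 := h.b0 ξ hξ
    have h2 := b ξ hξ
    rw [← sq_abs, sq]
    calc |u ξ| * |u ξ| ≤ (C * 1) * (C * exp (-ξ)) := by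
          gcongr
          exact h1.trans (by gcongr)
      _ = _ := by ring
  have bpu : ∀ {f : ℝ → ℝ}, (∀ ξ, 0 ≤ ξ → |f ξ| ≤ C * exp (-ξ)) → ∀ ξ, 0 ≤ ξ →
      |pr u ξ * f ξ| ≤ (C * C) * exp (-ξ) := by
    intro f hf ξ hξ
    rw [abs_mul, abs_of_nonneg (h.pr_nonneg hξ)]
    calc pr u ξ * |f ξ| ≤ C * (C * exp (-ξ)) := by
          have := h.pr_le hξ
          have := hf ξ hξ
          gcongr
      _ = _ := by ring
  have i1 : IntegrableOn (fun ξ => ξ ^ 2 * u2 ξ) (Ioi 0) := mom_int h.c2 h.b2 (k := 2) le_rfl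
  have i2 : IntegrableOn (fun ξ => ξ ^ 2 * (pr u ξ * u1 ξ)) (Ioi 0) :=
    mom_int (f := fun ξ => pr u ξ * u1 ξ) (by fun_prop) (bpu h.b1) (k := 2) le_rfl
  have i3 : IntegrableOn (fun ξ => ξ ^ 2 * u ξ ^ 2) (Ioi 0) :=
    mom_int (f := fun ξ => u ξ ^ 2) (by fun_prop) (K := C * C) (fun ξ hξ => by
      rw [abs_of_nonneg (sq_nonneg _)]
      have := bu2 ξ hξ
      linarith) (k := 2) le_rfl
  have i4 : IntegrableOn (fun ξ => 2 * u ξ) (Ioi 0) := h.int0.const_mul 2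
  have i5 : IntegrableOn (fun ξ => 2 * (ξ * (pr u ξ * u ξ))) (Ioi 0) := by
    have := mom_int (f := fun ξ => pr u ξ * u ξ) (by fun_prop) (bpu h.b0) (k := 1) (by norm_num)
    simp only [pow_one] at this
    exact this.const_mul 2
  have hA'i : IntegrableOn A' (Ioi 0) := (((i1.add i2).add i3).sub i4).add i5
  have htend : Tendsto A atTop (𝓝 0) := by
    refine tend_of_wt (K := 3 * C + C * C) (by positivity) fun ξ hξ => ?_
    have e1 := h.b1 ξ hξ.le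
    have e0 := h.b0 ξ hξ.le
    have e2 := bpu h.b0 ξ hξ.le
    have w0 := sq_le_wt hξ.le
    have w2 := id_le_wt hξ.le
    calc |ξ ^ 2 * u1 ξ - 2 * (ξ * u ξ) + ξ ^ 2 * (pr u ξ * u ξ)|
        ≤ |ξ ^ 2 * u1 ξ| + |2 * (ξ * u ξ)| + |ξ ^ 2 * (pr u ξ * u ξ)| := by
          refine (abs_add_le _ _).trans ?_
          gcongr
          exact abs_sub _ _
      _ = ξ ^ 2 * |u1 ξ| + 2 * (ξ * |u ξ|) + ξ ^ 2 * |pr u ξ * u ξ| := by
          rw [abs_mul (ξ ^ 2) (u1 ξ), abs_mul 2 (ξ * u ξ), abs_mul ξ (u ξ),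
            abs_mul (ξ ^ 2) (pr u ξ * u ξ), abs_of_pos hξ, abs_of_nonneg (sq_nonneg ξ),
            abs_of_pos (by norm_num : (0:ℝ) < 2)]
      _ ≤ (1 + ξ) ^ 2 * (C * exp (-ξ)) + 2 * ((1 + ξ) ^ 2 * (C * exp (-ξ))) +
          (1 + ξ) ^ 2 * ((C * C) * exp (-ξ)) := by gcongr
      _ = _ := by ring
  have hint := integral_Ioi_of_hasDerivAt_of_tendsto' (fun ξ _ => hd ξ) hA'i htend
  have hA0 : A 0 = 0 := by simp [hA]
  have hle : ∫ ξ in Ioi (0:ℝ), ξ ^ 2 * (u2 ξ + pr u ξ * u1 ξ - u ξ ^ 2) ≤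
      ∫ ξ in Ioi (0:ℝ), (A' ξ + 2 * u ξ) := by
    refine setIntegral_mono_on ?_ (hA'i.add i4) measurableSet_Ioi fun ξ hξ => ?_
    · refine ((i1.add i2).sub i3).congr_fun (fun ξ _ => ?_) measurableSet_Ioi
      simp only [Pi.add_apply, Pi.sub_apply]
      ring
    · have hξ' : 0 < ξ := hξ
      simp only [hA']
      have : 0 ≤ ξ ^ 2 * u ξ ^ 2 := by positivity
      have : 0 ≤ ξ * (pr u ξ * u ξ) :=
        mul_nonneg hξ'.le (mul_nonneg (h.pr_nonneg hξ'.le) (h.nn ξ hξ'.le))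
      linarith
  rw [integral_add hA'i i4, hint, hA0, integral_const_mul] at hle
  rw [mom_zero]
  linarith

/-- Packing. -/
theorem Prof.pack (h : Prof C u u1 u2) {t : ℝ} (ht : 0 < t) (hle : ∀ ξ, 0 ≤ ξ → t * u ξ ≤ 1) :
    t * (mom 0 u) ^ 2 ≤ 2 * mom 1 u := by
  have hC := h.C0
  have c0 := h.cu
  have cp := h.cpr
  have hpr : ∀ ξ, 0 ≤ ξ → t * pr u ξ ≤ ξ := by
    intro ξ hξ
    have h1 : t * pr u ξ = ∫ z in (0:ℝ)..ξ, t * u z := by
      rw [intervalIntegral.integral_const_mul]; rfl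
    have h2 : ∫ z in (0:ℝ)..ξ, t * u z ≤ ∫ z in (0:ℝ)..ξ, (1:ℝ) :=
      intervalIntegral.integral_mono_on hξ ((by fun_prop : Continuous fun z => t * u z).intervalIntegrable _ _)
        (intervalIntegrable_const) fun z hz => hle z hz.1
    rw [h1]
    refine h2.trans ?_
    simp
  have hd : ∀ ξ, HasDerivAt (fun ξ => t * (pr u ξ) ^ 2) (2 * (t * pr u ξ * u ξ)) ξ := by
    intro ξ
    have := ((h.dpr ξ).pow 2).const_mul t
    refine this.congr_deriv ?_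
    push_cast; ring
  have i1 : IntegrableOn (fun ξ => 2 * (t * pr u ξ * u ξ)) (Ioi 0) := by
    have := mom_int (f := fun ξ => 2 * (t * pr u ξ * u ξ)) (by fun_prop) (K := 2 * (t * C * C))
      (fun ξ hξ => by
        have e1 := h.pr_nonneg hξ
        have e2 := h.pr_le hξ
        have e3 := h.b0 ξ hξ
        rw [abs_mul, abs_mul, abs_mul, abs_of_nonneg e1, abs_of_pos ht,
          abs_of_pos (by norm_num : (0:ℝ) < 2)]
        calc 2 * (t * pr u ξ * |u ξ|) ≤ 2 * (t * C * (C * exp (-ξ))) := by gcongr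
          _ = _ := by ring) (k := 0) (by norm_num)
    simpa using this
  have hint := integral_Ioi_of_hasDerivAt_of_tendsto' (fun ξ _ => hd ξ) i1
    ((h.tend_pr.pow 2).const_mul t)
  have h0 : pr u 0 = 0 := by simp [pr]
  rw [h0] at hint
  have hm : IntegrableOn (fun ξ => 2 * (ξ ^ 1 * u ξ)) (Ioi 0) :=
    (mom_int h.cu h.b0 (k := 1) (by norm_num)).const_mul 2
  have hle : ∫ ξ in Ioi (0:ℝ), 2 * (t * pr u ξ * u ξ) ≤ ∫ ξ in Ioi (0:ℝ), 2 * (ξ ^ 1 * u ξ) := by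
    refine setIntegral_mono_on i1 hm measurableSet_Ioi fun ξ hξ => ?_
    have hξ' : 0 < ξ := hξ
    have e1 := hpr ξ hξ'.le
    have e2 := h.nn ξ hξ'.le
    rw [pow_one]
    gcongr
  rw [hint, integral_const_mul] at hle
  unfold mom at hle ⊢
  simpa using hle

/-- Cauchy-Schwarz. -/
theorem Prof.cs (h : Prof C u u1 u2) : (mom 1 u) ^ 2 ≤ mom 0 u * mom 2 u := by
  have i0 := mom_int h.cu h.b0 (k := 0) (by norm_num)
  have i1 := mom_int h.cu h.b0 (k := 1) (by norm_num)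
  have i2 := mom_int h.cu h.b0 (k := 2) le_rfl
  have hq : ∀ x : ℝ, 0 ≤ mom 0 u * (x * x) + (-2 * mom 1 u) * x + mom 2 u := by
    intro x
    have e : mom 0 u * (x * x) + (-2 * mom 1 u) * x + mom 2 u =
        ∫ ξ in Ioi (0:ℝ), (x * x * (ξ ^ 0 * u ξ) + (-2 * x) * (ξ ^ 1 * u ξ) + ξ ^ 2 * u ξ) := by
      have j0 := i0.const_mul (x * x)
      have j1 := i1.const_mul (-2 * x)
      have k1 : ∫ ξ in Ioi (0:ℝ), (x * x * (ξ ^ 0 * u ξ) + (-2 * x) * (ξ ^ 1 * u ξ) + ξ ^ 2 * u ξ) =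
          (∫ ξ in Ioi (0:ℝ), (x * x * (ξ ^ 0 * u ξ) + (-2 * x) * (ξ ^ 1 * u ξ))) +
            ∫ ξ in Ioi (0:ℝ), ξ ^ 2 * u ξ := integral_add (j0.add j1) i2
      have k2 : (∫ ξ in Ioi (0:ℝ), (x * x * (ξ ^ 0 * u ξ) + (-2 * x) * (ξ ^ 1 * u ξ))) =
          (∫ ξ in Ioi (0:ℝ), (x * x * (ξ ^ 0 * u ξ))) + ∫ ξ in Ioi (0:ℝ), (-2 * x) * (ξ ^ 1 * u ξ) :=
        integral_add j0 j1
      rw [k1, k2, integral_const_mul, integral_const_mul]
      unfold mom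
      ring
    rw [e]
    refine setIntegral_nonneg measurableSet_Ioi fun ξ hξ => ?_
    have hξ' : 0 < ξ := hξ
    have e2 := h.nn ξ hξ'.le
    have : x * x * (ξ ^ 0 * u ξ) + -2 * x * (ξ ^ 1 * u ξ) + ξ ^ 2 * u ξ = (ξ - x) ^ 2 * u ξ := by ring
    rw [this]
    positivity
  have := discrim_le_zero hq
  rw [discrim] at this
  nlinarith

end prof

end Pool.Agent.Lib.MP_79abb3_an
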