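import Pool.Agent.Lib.MP_79abb3_an.Flush
import Pool.Agent.Lib.MP_79abb3_an.Glob
import Pool.Agent.Lib.MP_79abb3_an.Moment

/-!
Flushing, second part: tail moments along the front.
-/

set_option autoImplicit false
set_option linter.unusedSectionVars false
set_option linter.unusedVariables false

open MeasureTheory Set Filter Topology Real Function

namespace Pool.Agent.Lib.MP_79abb3_an

section
variable {a b : ℝ} {g v w : ℝ → ℝ → ℝ}

theorem om_add_le {S ξ : ℝ} (hS : 0 ≤ S) (hξ : 0 ≤ ξ) : om (S + ξ) ≤ exp (-ξ) := by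
  rw [om_of_nonneg (by linarith)]
  exact exp_le_exp.2 (by linarith)

theorem le_om_add {f : ℝ → ℝ} {C S ξ : ℝ} (hC : 0 ≤ C) (h : ∀ y, |f y| ≤ C * om y) (hS : 0 ≤ S)
    (hξ : 0 ≤ ξ) : |f (S + ξ)| ≤ C * exp (-ξ) :=
  (h _).trans (by have := om_add_le hS hξ; gcongr)

/-- Uniform constants. -/
theorem Sol.consts (h : Sol (Icc a b) (Ioc a b) g v w) (hab : a < b) {t1 : ℝ} (ht1 : t1 ∈ Ioc a b) :
    ∃ C, 0 ≤ C ∧ (∀ t ∈ Icc a b, ∀ y, |g t y| ≤ C * om y ∧ |v t y| ≤ C * om y) ∧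
      ∀ t ∈ Icc t1 b, ∀ y, |w t y| ≤ C * om y := by
  obtain ⟨C, hC⟩ := h.bd
  obtain ⟨C', hC'⟩ := h.bw t1 ht1
  refine ⟨max (max C C') 0, le_max_right _ _, fun t ht y => ⟨?_, ?_⟩, fun t ht y => ?_⟩
  · refine (hC t ht y).1.trans ?_
    have := om_pos y
    gcongr
    exact (le_max_left _ _).trans (le_max_left _ _)
  · refine (hC t ht y).2.trans ?_
    have := om_pos y
    gcongr
    exact (le_max_left _ _).trans (le_max_left _ _)
  · refine (hC' t ⟨ht1.1.trans_le ht.1, ht.2⟩ ht.1 y).trans ?_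
    have := om_pos y
    gcongr
    exact (le_max_right _ _).trans (le_max_left _ _)

/-- Tail profiles. -/
theorem Sol.prof (h : Sol (Icc a b) (Ioc a b) g v w) (hab : a < b)
    (hnn : ∀ t ∈ Icc a b, ∀ y, 0 ≤ y → 0 ≤ g t y) {t : ℝ} (ht : t ∈ Ioc a b) {S : ℝ} (hS : 0 ≤ S) :
    ∃ C, Prof C (fun ξ => g t (S + ξ)) (fun ξ => v t (S + ξ)) (fun ξ => w t (S + ξ)) := by
  obtain ⟨C, hC0, hC, hC'⟩ := h.consts hab ht
  have htI : t ∈ Icc a b := ⟨ht.1.le, ht.2⟩
  have hw : Continuous (w t) := slice' h.cw ht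
  refine ⟨C, hw.comp (by fun_prop), fun ξ => ?_, fun ξ => ?_, fun ξ hξ => ?_, fun ξ hξ => ?_,
    fun ξ hξ => ?_, fun ξ hξ => hnn t htI _ (by linarith)⟩
  · have := (h.dg t htI (S + ξ)).comp ξ ((hasDerivAt_id ξ).const_add S)
    exact this.congr_deriv (by rw [mul_one])
  · have := (h.dv t ht (S + ξ)).comp ξ ((hasDerivAt_id ξ).const_add S)
    exact this.congr_deriv (by rw [mul_one])
  · exact le_om_add hC0 (fun y => (hC t htI y).1) hS hξ
  · exact le_om_add hC0 (fun y => (hC t htI y).2) hS hξ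
  · exact le_om_add hC0 (hC' t ⟨le_rfl, ht.2⟩) hS hξ

/-- Continuity of the tail moments. -/
theorem Sol.mom_cont (h : Sol (Icc a b) (Ioc a b) g v w) (hab : a < b) {S : ℝ → ℝ}
    (cS : ContinuousOn S (Icc a b)) (hS : ∀ t ∈ Icc a b, 0 ≤ S t) {k : ℕ} (hk : k ≤ 2) :
    ContinuousOn (fun t => mom k (fun ξ => g t (S t + ξ))) (Icc a b) := by
  obtain ⟨C, hC0, hC, -⟩ := h.consts hab (t1 := b) ⟨hab, le_rfl⟩
  unfold mom
  refine continuousOn_of_dominated (bound := fun ξ => C * (16 * exp (-(1/2) * ξ))) ?_ ?_ ?_ ?_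
  · intro t ht
    have := h.cg1 ht
    exact (by fun_prop : Continuous fun ξ => ξ ^ k * g t (S t + ξ)).aestronglyMeasurable
  · intro t ht
    refine (ae_restrict_iff' measurableSet_Ioi).2 (Eventually.of_forall fun ξ hξ => ?_)
    have hξ' : 0 < ξ := hξ
    rw [Real.norm_eq_abs, abs_mul, abs_pow, abs_of_pos hξ']
    calc ξ ^ k * |g t (S t + ξ)| ≤ (1 + ξ) ^ 2 * (C * exp (-ξ)) := by
          gcongr
          · exact pow_le_wt hξ'.le hk
          · exact le_om_add hC0 (fun y => (hC t ht y).1) (hS t ht) hξ'.le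
      _ = C * ((1 + ξ) ^ 2 * exp (-ξ)) := by ring
      _ ≤ _ := by have := wt_le hξ'.le; gcongr
  · exact int_bound.const_mul C
  · refine Eventually.of_forall fun ξ => ?_
    refine continuousOn_const.mul ?_
    exact h.cg.comp (f := fun t => (t, S t + ξ)) (continuousOn_id.prodMk (cS.add continuousOn_const))
      fun t ht => ⟨ht, mem_univ _⟩

/-- Derivative of the tail moments. -/
theorem Sol.mom_deriv (h : Sol (Icc a b) (Ioc a b) g v w) (hab : a < b) {S : ℝ → ℝ}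
    (hS : ∀ t ∈ Icc a b, 0 ≤ S t)
    (hS' : ∀ t ∈ Ioo a b, HasDerivAt S (-∫ z in (0:ℝ)..S t, g t z) t)
    {k : ℕ} (hk : k ≤ 2) {t : ℝ} (ht : t ∈ Ioo a b) :
    HasDerivAt (fun t => mom k (fun ξ => g t (S t + ξ)))
      (∫ ξ in Ioi (0:ℝ), ξ ^ k * (w t (S t + ξ) + pr (fun ξ => g t (S t + ξ)) ξ * v t (S t + ξ) -
        g t (S t + ξ) ^ 2)) t := by
  set t1 := (a + t) / 2 with ht1
  set t2 := (t + b) / 2 with ht2
  have hat1 : a < t1 := by rw [ht1]; linarith [ht.1]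
  have hn : Icc t1 t2 ∈ 𝓝 t := Icc_mem_nhds (by rw [ht1]; linarith [ht.1]) (by rw [ht2]; linarith [ht.2])
  have hsub : Icc t1 t2 ⊆ Ioo a b := fun s hs =>
    ⟨by linarith [hs.1], by have := hs.2; rw [ht2] at this; linarith [ht.2]⟩
  have ht1b : t1 ∈ Ioc a b := ⟨hat1, by rw [ht1]; linarith [ht.2]⟩
  obtain ⟨C, hC0, hC, hC'⟩ := h.consts hab ht1b
  have hc := h.cont_rhs Ioc_subset_Icc_self
  have hc' : ContinuousOn (uncurry fun s y => w s y + qG g v s y) (Ioo a b ×ˢ univ) :=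
    hc.mono (by gcongr; exact Ioo_subset_Ioc_self)
  have hv' : ContinuousOn (uncurry v) (Ioo a b ×ˢ univ) :=
    h.cv.mono (by gcongr; exact Ioo_subset_Icc_self)
  have hG : ∀ s ∈ Icc a b, ∀ x, |∫ z in (0:ℝ)..x, g s z| ≤ C := fun s hs x =>
    abs_primG h (fun t ht y => (hC t ht y).1) hs x
  have key := hasDerivAt_integral_of_dominated_loc_of_deriv_le (μ := volume.restrict (Ioi (0:ℝ)))
    (s := Icc t1 t2) (F := fun s ξ => ξ ^ k * g s (S s + ξ))
    (F' := fun s ξ => ξ ^ k * ((w s (S s + ξ) + qG g v s (S s + ξ)) +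
      v s (S s + ξ) * (-∫ z in (0:ℝ)..S s, g s z)))
    (bound := fun ξ => (C + 3 * C ^ 2) * (16 * exp (-(1/2) * ξ))) hn ?_ ?_ ?_ ?_ ?_ ?_
  · have e := key.2
    unfold mom
    refine e.congr_deriv ?_
    refine setIntegral_congr_fun measurableSet_Ioi fun ξ hξ => ?_
    have htI : t ∈ Icc a b := ⟨ht.1.le, ht.2.le⟩
    have e1 : (∫ z in (0:ℝ)..(S t + ξ), g t z) = (∫ z in (0:ℝ)..(S t), g t z) +
        pr (fun ξ => g t (S t + ξ)) ξ := by
      have h1 := intervalIntegral.integral_add_adjacent_intervals (μ := volume)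
        ((h.cg1 htI).intervalIntegrable 0 (S t)) ((h.cg1 htI).intervalIntegrable (S t) (S t + ξ))
      rw [← h1]
      congr 1
      have h2 := intervalIntegral.integral_comp_add_left (a := 0) (b := ξ) (fun z => g t z) (S t)
      rw [add_zero] at h2
      exact h2.symm
    simp only [qG]
    rw [e1]
    ring
  · filter_upwards [hn] with s hs
    have := h.cg1 ⟨(hsub hs).1.le, (hsub hs).2.le⟩
    exact (by fun_prop : Continuous fun ξ => ξ ^ k * g s (S s + ξ)).aestronglyMeasurable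
  · have htI : t ∈ Icc a b := ⟨ht.1.le, ht.2.le⟩
    have hgt := h.cg1 htI
    exact mom_int (f := fun ξ => g t (S t + ξ)) (by fun_prop) (K := C)
      (fun ξ hξ => le_om_add hC0 (fun y => (hC t htI y).1) (hS t htI) hξ) hk
  · have h1 : Continuous (fun z => w t z + qG g v t z) := slice' hc ⟨ht.1, ht.2.le⟩
    have h2 : Continuous (v t) := slice' h.cv ⟨ht.1.le, ht.2.le⟩
    have h3 : Continuous (fun ξ => w t (S t + ξ) + qG g v t (S t + ξ)) :=
      h1.comp (continuous_const.add continuous_id)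
    have h4 : Continuous (fun ξ => v t (S t + ξ)) := h2.comp (continuous_const.add continuous_id)
    exact ((continuous_pow k).mul (h3.add (h4.mul continuous_const))).aestronglyMeasurable
  · refine (ae_restrict_iff' measurableSet_Ioi).2 (Eventually.of_forall fun ξ hξ s hs => ?_)
    have hξ' : 0 < ξ := hξ
    have hsI : s ∈ Icc a b := ⟨(hsub hs).1.le, (hsub hs).2.le⟩
    have hS0 := hS s hsI
    have b0 := le_om_add hC0 (fun y => (hC s hsI y).1) hS0 hξ'.le
    have b1 := le_om_add hC0 (fun y => (hC s hsI y).2) hS0 hξ'.le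
    have b2 := le_om_add hC0 (hC' s ⟨hs.1, (hsub hs).2.le⟩) hS0 hξ'.le
    have b3 := hG s hsI (S s)
    have b4 := hG s hsI (S s + ξ)
    have b5 : |g s (S s + ξ)| ≤ C := b0.trans (by
      have : exp (-ξ) ≤ 1 := exp_le_one_iff.2 (by linarith)
      calc C * exp (-ξ) ≤ C * 1 := by gcongr
        _ = C := mul_one C)
    have hbnd : |(w s (S s + ξ) + qG g v s (S s + ξ)) +
        v s (S s + ξ) * (-∫ z in (0:ℝ)..S s, g s z)| ≤ (C + 3 * C ^ 2) * exp (-ξ) := by
      have c1 : |(∫ z in (0:ℝ)..(S s + ξ), g s z) * v s (S s + ξ)| ≤ C * (C * exp (-ξ)) := by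
        rw [abs_mul]; gcongr
      have c2 : |g s (S s + ξ) ^ 2| ≤ C * (C * exp (-ξ)) := by
        rw [sq, abs_mul]; gcongr
      have c3 : |v s (S s + ξ) * (-∫ z in (0:ℝ)..S s, g s z)| ≤ (C * exp (-ξ)) * C := by
        rw [abs_mul, abs_neg]; gcongr
      have c4 := abs_add_le (w s (S s + ξ) + qG g v s (S s + ξ))
        (v s (S s + ξ) * (-∫ z in (0:ℝ)..S s, g s z))
      have c5 := abs_add_le (w s (S s + ξ)) (qG g v s (S s + ξ))
      have c6 : |qG g v s (S s + ξ)| ≤ C * (C * exp (-ξ)) + C * (C * exp (-ξ)) :=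
        (abs_sub _ _).trans (add_le_add c1 c2)
      linarith
    show ‖ξ ^ k * _‖ ≤ _
    rw [Real.norm_eq_abs, abs_mul, abs_pow, abs_of_pos hξ']
    have hK : 0 ≤ C + 3 * C ^ 2 := by positivity
    calc ξ ^ k * _ ≤ (1 + ξ) ^ 2 * ((C + 3 * C ^ 2) * exp (-ξ)) := by
          gcongr
          exact pow_le_wt hξ'.le hk
      _ = (C + 3 * C ^ 2) * ((1 + ξ) ^ 2 * exp (-ξ)) := by ring
      _ ≤ _ := by have := wt_le hξ'.le; gcongr
  · exact int_bound.const_mul _
  · refine (ae_restrict_iff' measurableSet_Ioi).2 (Eventually.of_forall fun ξ hξ s hs => ?_)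
    have hξ' : 0 < ξ := hξ
    have hs' := hsub hs
    have hsI : s ∈ Icc a b := ⟨hs'.1.le, hs'.2.le⟩
    have hSs := hS s hsI
    have hJ : Ioo a b ∈ 𝓝 s := Ioo_mem_nhds hs'.1 hs'.2
    refine HasDerivAt.const_mul _ ?_
    refine chain2 (F := g) (S := fun s => S s + ξ) (U := Ioo a b ×ˢ Ioi (0:ℝ))
      (Ft := fun s y => w s y + qG g v s y) (Fy := v) (prod_mem_nhds hJ
      (Ioi_mem_nhds (by linarith : (0:ℝ) < S s + ξ))) (fun p hp => h.dt hp.1 (le_of_lt hp.2))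
      (fun p hp => h.dg p.1 ⟨hp.1.1.le, hp.1.2.le⟩ p.2) (contAt_of_contOn hc' hJ)
      (contAt_of_contOn hv' hJ) ((hS' s hs').add_const ξ)

end

end Pool.Agent.Lib.MP_79abb3_an
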