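import Pool.Agent.Lib.MP_79abb3_an.Flush2

/-!
Flushing, third part: the conclusion.
-/

set_option autoImplicit false
set_option linter.unusedSectionVars false
set_option linter.unusedVariables false

open MeasureTheory Set Filter Topology Real Function

namespace Pool.Agent.Lib.MP_79abb3_an

theorem Ioi_shift (F : ℝ → ℝ) (x : ℝ) : ∫ y in Ioi x, F y = ∫ ξ in Ioi (0:ℝ), F (x + ξ) := by
  have h := (measurePreserving_add_left volume x).setIntegral_preimage_emb
    (measurableEmbedding_addLeft x) F (Ioi x)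
  rw [← h]
  congr 2
  ext ξ
  simp

theorem mom_split {f : ℝ → ℝ} (hf : Continuous f) {K : ℝ} (h : ∀ ξ, 0 ≤ ξ → |f ξ| ≤ K * exp (-ξ))
    {k : ℕ} (hk : k ≤ 2) {x : ℝ} (hx : 0 ≤ x) :
    mom k f = (∫ z in (0:ℝ)..x, z ^ k * f z) + ∫ ξ in Ioi (0:ℝ), (x + ξ) ^ k * f (x + ξ) := by
  have i0 := mom_int hf h hk
  unfold mom
  rw [← Ioi_shift (fun z => z ^ k * f z) x,
    intervalIntegral.integral_interval_add_Ioi i0 (i0.mono_set (Ioi_subset_Ioi hx))]

theorem mom_le {f : ℝ → ℝ} (hf : Continuous f) {K : ℝ} (h : ∀ ξ, 0 ≤ ξ → |f ξ| ≤ K * exp (-ξ))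
    (hnn : ∀ y, 0 ≤ y → 0 ≤ f y) {t : ℝ} (ht : 0 < t) (hle : ∀ y, 0 ≤ y → t * f y ≤ 1)
    {x : ℝ} (hx : 0 ≤ x) (h' : ∀ ξ, 0 ≤ ξ → |f (x + ξ)| ≤ K * exp (-ξ)) :
    mom 1 f ≤ x ^ 2 / (2 * t) + x * mom 0 (fun ξ => f (x + ξ)) + mom 1 (fun ξ => f (x + ξ)) ∧
    mom 2 f ≤ x ^ 3 / (3 * t) + 2 * x ^ 2 * mom 0 (fun ξ => f (x + ξ)) +
      2 * mom 2 (fun ξ => f (x + ξ)) := by
  have hc : Continuous fun ξ => f (x + ξ) := by fun_prop
  have j0 := mom_int hc h' (k := 0) (by norm_num)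
  have j1 := mom_int hc h' (k := 1) (by norm_num)
  have j2 := mom_int hc h' (k := 2) le_rfl
  have hle' : ∀ y, 0 ≤ y → f y ≤ 1 / t := fun y hy => by
    rw [le_div_iff₀ ht, mul_comm]; exact hle y hy
  constructor
  · rw [mom_split hf h (by norm_num : 1 ≤ 2) hx]
    have e1 : ∫ z in (0:ℝ)..x, z ^ 1 * f z ≤ x ^ 2 / (2 * t) := by
      have h1 : ∫ z in (0:ℝ)..x, z ^ 1 * f z ≤ ∫ z in (0:ℝ)..x, z ^ 1 * (1 / t) := by
        refine intervalIntegral.integral_mono_on hx ?_ ?_ fun z hz => ?_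
        · exact (by fun_prop : Continuous fun z => z ^ 1 * f z).intervalIntegrable _ _
        · exact (by fun_prop : Continuous fun z : ℝ => z ^ 1 * (1 / t)).intervalIntegrable _ _
        · have := hle' z hz.1
          have := hz.1
          gcongr
      rw [intervalIntegral.integral_mul_const, integral_pow] at h1
      refine h1.trans (le_of_eq ?_)
      field_simp
      norm_num
      ring
    have e2 : ∫ ξ in Ioi (0:ℝ), (x + ξ) ^ 1 * f (x + ξ) =
        x * mom 0 (fun ξ => f (x + ξ)) + mom 1 (fun ξ => f (x + ξ)) := by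
      unfold mom
      rw [← integral_const_mul, ← integral_add (j0.const_mul x) j1]
      refine integral_congr_ae (Eventually.of_forall fun ξ => ?_)
      simp only
      ring
    rw [e2]
    linarith
  · rw [mom_split hf h (le_refl 2) hx]
    have e1 : ∫ z in (0:ℝ)..x, z ^ 2 * f z ≤ x ^ 3 / (3 * t) := by
      have h1 : ∫ z in (0:ℝ)..x, z ^ 2 * f z ≤ ∫ z in (0:ℝ)..x, z ^ 2 * (1 / t) := by
        refine intervalIntegral.integral_mono_on hx ?_ ?_ fun z hz => ?_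
        · exact (by fun_prop : Continuous fun z => z ^ 2 * f z).intervalIntegrable _ _
        · exact (by fun_prop : Continuous fun z : ℝ => z ^ 2 * (1 / t)).intervalIntegrable _ _
        · have := hle' z hz.1
          gcongr
      rw [intervalIntegral.integral_mul_const, integral_pow] at h1
      refine h1.trans (le_of_eq ?_)
      field_simp
      norm_num
      ring
    have e2 : ∫ ξ in Ioi (0:ℝ), (x + ξ) ^ 2 * f (x + ξ) ≤
        2 * x ^ 2 * mom 0 (fun ξ => f (x + ξ)) + 2 * mom 2 (fun ξ => f (x + ξ)) := by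
      unfold mom
      rw [← integral_const_mul, ← integral_const_mul,
        ← integral_add (j0.const_mul (2 * x ^ 2)) (j2.const_mul 2)]
      refine setIntegral_mono_on ?_ ((j0.const_mul (2 * x ^ 2)).add (j2.const_mul 2))
        measurableSet_Ioi fun ξ hξ => ?_
      · have : IntegrableOn (fun ξ => x ^ 2 * (ξ ^ 0 * f (x + ξ)) + 2 * x * (ξ ^ 1 * f (x + ξ)) +
            ξ ^ 2 * f (x + ξ)) (Ioi 0) := ((j0.const_mul (x ^ 2)).add (j1.const_mul (2 * x))).add j2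
        refine this.congr_fun (fun ξ _ => ?_) measurableSet_Ioi
        simp only
        ring
      · have hξ' : 0 < ξ := hξ
        have := hnn (x + ξ) (by linarith)
        nlinarith [mul_nonneg (sq_nonneg (x - ξ)) this]
    linarith

section
variable {a b : ℝ} {g v w : ℝ → ℝ → ℝ}

set_option maxHeartbeats 4000000 in
/-- Flushing. -/
theorem Sol.flush (h : Sol (Icc a b) (Ioc a b) g v w) (ha : 0 < a) (hab : a < b)
    (hnn : ∀ t ∈ Icc a b, ∀ y, 0 ≤ y → 0 ≤ g t y) (hle : ∀ t ∈ Icc a b, ∀ y, 0 ≤ y → t * g t y ≤ 1)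
    (hv : ∀ t ∈ Ioo a b, |v t 0| ≤ 2 / t * (√(t - a))⁻¹)
    {S0 : ℝ} (hS0 : 0 < S0) (hsupp : ∀ y, S0 ≤ y → g a y = 0) {θ T1 ε : ℝ} (haθ : a < θ)
    (hθT : θ < T1) (hT1b : T1 ≤ b) (hε : 0 < ε)
    (c1 : a * S0 / θ + √(pot g a S0 + 4 * π * S0 * √a) + 8 * √θ ≤ 10 * √θ)
    (c2 : 100 < (1/2) * (ε ^ 2 / 1100) ^ 2 * log (T1 / θ)) : mom 1 (g T1) < ε := by
  have hθ : 0 < θ := ha.trans haθ
  have hθb : θ < b := hθT.trans_le hT1b
  have haI : a ∈ Icc a b := ⟨le_rfl, hab.le⟩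
  obtain ⟨C, hC0, hC, -⟩ := h.consts hab (t1 := b) ⟨hab, le_rfl⟩
  obtain ⟨S, hSa, cS, hSpos, hSd⟩ := exists_curve h ha hab hnn hle hS0
  have hS0' : ∀ t ∈ Icc a b, 0 ≤ S t := fun t ht => (hSpos t ht).le
  -- tail
  have zk : ∀ k : ℕ, mom k (fun ξ => g a (S a + ξ)) = 0 := by
    intro k
    unfold mom
    rw [setIntegral_congr_fun (g := fun _ => (0:ℝ)) measurableSet_Ioi (fun ξ hξ => ?_)]
    · simp
    · have hξ' : 0 < ξ := hξ
      simp only
      rw [hsupp _ (by rw [hSa]; linarith), mul_zero]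
  have tail := tail_ode (a := a) (T := b) (J1 := fun t => mom 1 (fun ξ => g t (S t + ξ)))
    (J2 := fun t => mom 2 (fun ξ => g t (S t + ξ))) (ρ := fun t => mom 0 (fun ξ => g t (S t + ξ)))
    ha (h.mom_cont hab cS hS0' (by norm_num)) (h.mom_cont hab cS hS0' le_rfl) (zk 1) (zk 2)
    (fun t ht => h.mom_deriv hab hS0' hSd (by norm_num) ht)
    (fun t ht => h.mom_deriv hab hS0' hSd le_rfl ht)
    (fun t ht => by
      have htI : t ∈ Icc a b := ⟨ht.1.le, ht.2.le⟩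
      obtain ⟨K, hK⟩ := h.prof hab hnn ⟨ht.1, ht.2.le⟩ (hS0' t htI)
      have e1 := hK.mom1
      have e2 := hle t htI (S t + 0) (by rw [add_zero]; exact hS0' t htI)
      have ht0 : 0 < t := ha.trans ht.1
      have e3 : g t (S t + 0) ≤ 1 / t := by rw [le_div_iff₀ ht0, mul_comm]; exact e2
      simp only [pow_one]
      linarith)
    (fun t ht => by
      have htI : t ∈ Icc a b := ⟨ht.1.le, ht.2.le⟩
      obtain ⟨K, hK⟩ := h.prof hab hnn ⟨ht.1, ht.2.le⟩ (hS0' t htI)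
      exact hK.mom2)
    (fun t ht => by
      have htI : t ∈ Icc a b := ⟨ht.1.le, ht.2.le⟩
      obtain ⟨K, hK⟩ := h.prof hab hnn ⟨ht.1, ht.2.le⟩ (hS0' t htI)
      exact hK.pack (ha.trans ht.1) (fun ξ hξ => hle t htI _ (by linarith [hS0' t htI])))
    (fun t ht => by
      have htI : t ∈ Icc a b := ⟨ht.1.le, ht.2.le⟩
      obtain ⟨K, hK⟩ := h.prof hab hnn ⟨ht.1, ht.2.le⟩ (hS0' t htI)
      exact hK.cs)
    (fun t ht => by
      have htI : t ∈ Icc a b := ⟨ht.1.le, ht.2.le⟩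
      obtain ⟨K, hK⟩ := h.prof hab hnn ⟨ht.1, ht.2.le⟩ (hS0' t htI)
      exact hK.mom_nonneg 0)
    (fun t ht => by
      have htI : t ∈ Icc a b := ⟨ht.1.le, ht.2.le⟩
      obtain ⟨K, hK⟩ := h.prof hab hnn ⟨ht.1, ht.2.le⟩ (hS0' t htI)
      exact hK.mom_nonneg 2) θ ⟨haθ.le, hθb⟩
  -- front
  have hVc : ContinuousOn (fun t => pot g t (S t)) (Icc a θ) :=
    ((pot_cont h).comp (f := fun t => (t, S t)) (continuousOn_id.prodMk cS)
      fun t ht => ⟨ht, mem_univ _⟩).mono (Icc_subset_Icc_right hθb.le)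
  have pk : ∀ t ∈ Icc a b, (S t - t * ∫ z in (0:ℝ)..S t, g t z) ^ 2 ≤ pot g t (S t) := by
    intro t ht
    have := (pack_static (h.cg1 ht) (hnn t ht) (ha.le.trans ht.1) (hle t ht) (hS0' t ht)).2.2.1
    unfold pot
    simp only [one_mul]
    exact this
  have front := front_ode (V := fun t => pot g t (S t)) ha haθ hS0.le
    (cS.mono (Icc_subset_Icc_right hθb.le)) hVc hSa
    (e := fun t => S t - t * ∫ z in (0:ℝ)..S t, g t z)
    (fun t ht => by
      have := (hasDerivAt_id t).mul (hSd t ⟨ht.1, ht.2.trans hθb⟩)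
      refine this.congr_deriv ?_
      simp only [id]
      ring)
    (fun t ht => pot_deriv h ⟨ht.1, ht.2.trans hθb⟩ (hSpos t ⟨ht.1.le, (ht.2.trans hθb).le⟩)
      (hSd t ⟨ht.1, ht.2.trans hθb⟩))
    (fun t ht => pk t ⟨ht.1.le, (ht.2.trans hθb).le⟩)
    (fun t ht => by
      have htI : t ∈ Icc a b := ⟨ht.1.le, (ht.2.trans hθb).le⟩
      exact pot_deriv_le h ha ⟨ht.1, ht.2.trans hθb⟩ (hSpos t htI) (hnn t htI) (hle t htI)
        (hv t ⟨ht.1, ht.2.trans hθb⟩))
    (by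
      have := pk a haI
      exact (sq_nonneg _).trans this)
  simp only [hSa] at front
  have hSθ : S θ ≤ 10 * √θ := front.trans c1
  -- total moments at θ
  have hθI : θ ∈ Icc a b := ⟨haθ.le, hθb.le⟩
  obtain ⟨K, hK⟩ := h.prof hab hnn ⟨haθ, hθb.le⟩ (hS0' θ hθI)
  have hpk := hK.pack hθ (fun ξ hξ => hle θ hθI _ (by linarith [hS0' θ hθI]))
  have hρ0 := hK.mom_nonneg 0
  have hml := mom_le (h.cg1 hθI) (K := C) (fun ξ hξ => by
    have := (hC θ hθI ξ).1
    rwa [om_of_nonneg hξ] at this) (hnn θ hθI) hθ (hle θ hθI) (hS0' θ hθI)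
    (fun ξ hξ => le_om_add hC0 (fun y => (hC θ hθI y).1) (hS0' θ hθI) hξ)
  set ρ := mom 0 (fun ξ => g θ (S θ + ξ)) with hρ
  set J1 := mom 1 (fun ξ => g θ (S θ + ξ)) with hJ1
  set J2 := mom 2 (fun ξ => g θ (S θ + ξ)) with hJ2
  have hT1 : J1 ≤ 5 := tail.1
  have hT2 : J2 ≤ 14 * √θ := tail.2
  have hsθ : 0 < √θ := sqrt_pos.2 hθ
  have hsq : √θ ^ 2 = θ := sq_sqrt hθ.le
  have hρs : ρ * √θ ≤ 16/5 := by
    have e1 : (ρ * √θ) ^ 2 ≤ 10 := by
      rw [mul_pow, hsq]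
      linarith
    have : 0 ≤ ρ * √θ := by positivity
    nlinarith
  have hSθ0 : 0 < S θ := hSpos θ hθI
  have i1 : mom 1 (g θ) ≤ 100 := by
    have e1 : S θ ^ 2 / (2 * θ) ≤ 50 := by
      rw [div_le_iff₀ (by positivity)]
      calc S θ ^ 2 ≤ (10 * √θ) ^ 2 := by gcongr
        _ = 100 * θ := by rw [mul_pow, hsq]; norm_num
        _ = _ := by ring
    have e2 : S θ * ρ ≤ 32 := by
      calc S θ * ρ ≤ (10 * √θ) * ρ := by gcongr
        _ = 10 * (ρ * √θ) := by ring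
        _ ≤ 10 * (16/5) := by gcongr
        _ = 32 := by norm_num
    linarith [hml.1]
  have i2 : mom 2 (g θ) ≤ 1000 * √θ := by
    have e1 : S θ ^ 3 / (3 * θ) ≤ 1000/3 * √θ := by
      rw [div_le_iff₀ (by positivity)]
      calc S θ ^ 3 ≤ (10 * √θ) ^ 3 := by gcongr
        _ = 1000 * (√θ ^ 2 * √θ) := by ring
        _ = _ := by rw [hsq]; ring
    have e2 : 2 * S θ ^ 2 * ρ ≤ 634 * √θ := by
      have e3 : ρ * √θ ≤ 317/100 := by
        have e1 : (ρ * √θ) ^ 2 ≤ 10 := by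
          rw [mul_pow, hsq]
          linarith
        have : 0 ≤ ρ * √θ := by positivity
        nlinarith
      calc 2 * S θ ^ 2 * ρ ≤ 2 * (10 * √θ) ^ 2 * ρ := by gcongr
        _ = 200 * (ρ * √θ) * √θ := by ring
        _ ≤ 200 * (317/100) * √θ := by gcongr
        _ = _ := by ring
    linarith [hml.2]
  -- logarithmic decay
  have cz : ContinuousOn (fun _ : ℝ => (0:ℝ)) (Icc a b) := continuousOn_const
  have dz : ∀ t ∈ Ioo a b, HasDerivAt (fun _ : ℝ => (0:ℝ)) (-∫ z in (0:ℝ)..0, g t z) t := by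
    intro t _
    rw [intervalIntegral.integral_same, neg_zero]
    exact hasDerivAt_const t 0
  have mc : ∀ k : ℕ, k ≤ 2 → ContinuousOn (fun t => mom k (g t)) (Icc a b) := by
    intro k hk
    have := h.mom_cont hab cz (fun _ _ => le_rfl) hk
    simpa only [zero_add] using this
  have md : ∀ k : ℕ, k ≤ 2 → ∀ t ∈ Ioo a b, HasDerivAt (fun t => mom k (g t))
      (∫ ξ in Ioi (0:ℝ), ξ ^ k * (w t ξ + pr (g t) ξ * v t ξ - g t ξ ^ 2)) t := by
    intro k hk t ht
    have := h.mom_deriv hab (fun _ _ => le_rfl) dz hk ht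
    simpa only [zero_add] using this
  have mp : ∀ t ∈ Ioc a b, ∃ K, Prof K (g t) (v t) (w t) := by
    intro t ht
    obtain ⟨K, hK⟩ := h.prof hab hnn ht (le_refl (0:ℝ))
    refine ⟨K, ?_⟩
    simpa only [zero_add] using hK
  have sub : ∀ t ∈ Ioo θ T1, t ∈ Ioo a b := fun t ht => ⟨haθ.trans ht.1, ht.2.trans_le hT1b⟩
  refine log_ode (M1 := fun t => mom 1 (g t)) (M2 := fun t => mom 2 (g t))
    (M0 := fun t => mom 0 (g t)) hθ hθT hε
    ((mc 1 (by norm_num)).mono (Icc_subset_Icc haθ.le hT1b))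
    ((mc 2 le_rfl).mono (Icc_subset_Icc haθ.le hT1b))
    (fun t ht => md 1 (by norm_num) t (sub t ht)) (fun t ht => md 2 le_rfl t (sub t ht))
    (fun t ht => ?_) (fun t ht => ?_) (fun t ht => ?_) (fun t ht => ?_) (fun t ht => ?_) i1 i2 c2
  all_goals
    obtain ⟨K, hK⟩ := mp t ⟨(sub t ht).1, (sub t ht).2.le⟩
    have htI : t ∈ Icc a b := ⟨(sub t ht).1.le, (sub t ht).2.le⟩
  · have e1 := hK.mom1
    have e2 := h.z htI
    simp only [pow_one]
    linarith
  · exact hK.mom2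
  · exact hK.pack (hθ.trans ht.1) (hle t htI)
  · exact hK.cs
  · exact hK.mom_nonneg 0

/-- Sup bound from the first moment and a Lipschitz bound. -/
theorem sup_of_mom {f f' : ℝ → ℝ} (hf : ∀ y, HasDerivAt f (f' y) y) {K : ℝ}
    (h : ∀ ξ, 0 ≤ ξ → |f ξ| ≤ K * exp (-ξ)) (hnn : ∀ y, 0 ≤ y → 0 ≤ f y) {Λ : ℝ} (hΛ : 0 < Λ)
    (hL : ∀ y, 0 ≤ y → |f' y| ≤ Λ) {y : ℝ} (hy : 0 ≤ y) : f y ^ 3 ≤ 16 * Λ ^ 2 * mom 1 f := by
  have hc : Continuous f := continuous_iff_continuousAt.2 fun y => (hf y).continuousAt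
  have i1 := mom_int hc h (k := 1) (by norm_num)
  set m := f y with hm
  have hm0 : 0 ≤ m := hnn y hy
  set r := m / (2 * Λ) with hr
  have hr0 : 0 ≤ r := by positivity
  have hlow : ∀ z, y ≤ z → z ≤ y + r → m / 2 ≤ f z := by
    intro z h1 h2
    have h3 := Convex.norm_image_sub_le_of_norm_hasDerivWithin_le (f := f) (f' := f') (C := Λ)
      (s := Ici (0:ℝ)) (x := y) (y := z) (fun x _ => (hf x).hasDerivWithinAt)
      (fun x hx => hL x hx) (convex_Ici 0) hy (hy.trans h1)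
    rw [Real.norm_eq_abs, Real.norm_eq_abs, abs_of_nonneg (by linarith : 0 ≤ z - y)] at h3
    have h4 : Λ * (z - y) ≤ Λ * r := by gcongr; linarith
    have h5 : Λ * r = m / 2 := by rw [hr]; field_simp
    have h6 := neg_abs_le (f z - f y)
    linarith
  have h1 : ∫ z in y..(y + r), (z - y) * (m / 2) ≤ ∫ z in y..(y + r), z ^ 1 * f z := by
    refine intervalIntegral.integral_mono_on (by linarith) ?_ ?_ fun z hz => ?_
    · exact (by fun_prop : Continuous fun z : ℝ => (z - y) * (m / 2)).intervalIntegrable _ _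
    · exact (by fun_prop : Continuous fun z : ℝ => z ^ 1 * f z).intervalIntegrable _ _
    · have e1 := hlow z hz.1 hz.2
      have e2 : 0 ≤ z - y := by linarith [hz.1]
      have e3 : z - y ≤ z ^ 1 := by rw [pow_one]; linarith
      exact mul_le_mul e3 e1 (by positivity) (e2.trans e3)
  have h2 : ∫ z in y..(y + r), (z - y) * (m / 2) = r ^ 2 / 2 * (m / 2) := by
    rw [intervalIntegral.integral_mul_const]
    have := intervalIntegral.integral_comp_sub_right (a := y) (b := y + r) (fun z : ℝ => z) y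
    rw [this, sub_self, add_sub_cancel_left, integral_id]
    ring
  have h3 : ∫ z in y..(y + r), z ^ 1 * f z ≤ mom 1 f := by
    rw [intervalIntegral.integral_of_le (by linarith)]
    unfold mom
    refine setIntegral_mono_set i1 ?_ ?_
    · refine (ae_restrict_iff' measurableSet_Ioi).2 (Eventually.of_forall fun z hz => ?_)
      have hz' : 0 < z := hz
      have := hnn z hz'.le
      show 0 ≤ z ^ 1 * f z
      positivity
    · refine LE.le.eventuallyLE fun z hz => ?_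
      exact hy.trans_lt hz.1
  have h4 : r ^ 2 / 2 * (m / 2) = m ^ 3 / (16 * Λ ^ 2) := by
    rw [hr]; field_simp; norm_num
  have h5 : m ^ 3 / (16 * Λ ^ 2) ≤ mom 1 f := by rw [← h4, ← h2]; exact h1.trans h3
  rw [div_le_iff₀ (by positivity)] at h5
  linarith

end

end Pool.Agent.Lib.MP_79abb3_an
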