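import Pool.Agent.Lib.MP_79abb3_an.Piece

/-!
Infinite concatenation of pieces.
-/

set_option autoImplicit false
set_option linter.unusedVariables false

open MeasureTheory Set Filter Topology Real Function

namespace Pool.Agent.Lib.MP_79abb3_an

theorem TrL.iglue {L C b : ℝ} (hL : 0 ≤ L) (hC : 0 ≤ C) {s : ℕ → ℝ} (hs : StrictMono s)
    (hlim : Tendsto s atTop (𝓝 b)) {J : ℕ → Set ℝ} {f v : ℕ → ℝ → ℝ → ℝ} {η : ℕ → ℝ}
    (h : ∀ k, TrL (s k) (s (k + 1)) L C (J k) (f k) (f k) (v k) (fun _ => 0))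
    (hg : ∀ k, ∀ y ∈ Icc 0 L, f k (s (k + 1)) y = f (k + 1) (s (k + 1)) y)
    (hη : Tendsto η atTop (𝓝 0))
    (hb : ∀ k, ∀ t ∈ Icc (s k) (s (k + 1)), ∀ y ∈ Icc 0 L, |f k t y| ≤ η k) :
    ∃ (J' : Set ℝ) (g v' : ℝ → ℝ → ℝ), TrL (s 0) b L C J' g g v' (fun _ => 0) ∧
      (∀ y ∈ Icc 0 L, g (s 0) y = f 0 (s 0) y) ∧ ∀ y ∈ Icc 0 L, g b y = 0 := by
  classical
  have hsb : ∀ k, s k < b := fun k =>
    lt_of_lt_of_le (hs (Nat.lt_succ_self k)) (hs.monotone.ge_of_tendsto hlim (k + 1))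
  have hex : ∀ t, t < b → ∃ k, t < s (k + 1) := by
    intro t ht
    obtain ⟨k, hk⟩ := ((tendsto_order.1 hlim).1 t ht).exists
    exact ⟨k, hk.trans (hs (Nat.lt_succ_self k))⟩
  let N : ℝ → ℕ := fun t => if ht : t < b then Nat.find (hex t ht) else 0
  have hN : ∀ k t, s k ≤ t → t < s (k + 1) → N t = k := by
    intro k t h1 h2
    have ht : t < b := h2.trans (hsb _)
    show (if ht : t < b then Nat.find (hex t ht) else 0) = k
    rw [dif_pos ht, Nat.find_eq_iff]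
    refine ⟨h2, fun j hj => ?_⟩
    rw [not_lt]
    exact (hs.monotone (Nat.succ_le_of_lt hj)).trans h1
  -- every time in `[s 0, b)` lies in a piece
  have hpiece : ∀ t, s 0 ≤ t → t < b → s (N t) ≤ t ∧ t < s (N t + 1) := by
    intro t h0 ht
    have e : N t = Nat.find (hex t ht) := dif_pos ht
    have h2 : t < s (N t + 1) := by rw [e]; exact Nat.find_spec (hex t ht)
    refine ⟨?_, h2⟩
    rcases Nat.eq_zero_or_pos (N t) with h3 | h3
    · rw [h3]; exact h0
    · obtain ⟨m, hm⟩ : ∃ m, N t = m + 1 := ⟨N t - 1, by omega⟩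
      have h4 : m < Nat.find (hex t ht) := by rw [← e]; omega
      have h5 := Nat.find_min (hex t ht) h4
      rw [hm]
      exact not_lt.1 h5
  set J' : Set ℝ := (⋃ k, J k) ∪ range s ∪ {b} with hJ'
  have hJc : J'.Countable :=
    ((countable_iUnion fun k => (h k).count).union (countable_range s)).union
      (countable_singleton b)
  have hJk : ∀ k, J k ⊆ J' := fun k x hx => Or.inl (Or.inl (mem_iUnion.2 ⟨k, hx⟩))
  have hsJ : ∀ k, s k ∈ J' := fun k => Or.inl (Or.inr ⟨k, rfl⟩)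
  have hbJ : b ∈ J' := Or.inr rfl
  let g : ℝ → ℝ → ℝ := fun t => if t < b then f (N t) t else fun _ => 0
  let w : ℝ → ℝ → ℝ := fun t => if t < b then v (N t) t else fun _ => 0
  have hgk : ∀ k t, s k ≤ t → t < s (k + 1) → g t = f k t := by
    intro k t h1 h2
    have ht : t < b := h2.trans (hsb _)
    show (if t < b then f (N t) t else fun _ => 0) = f k t
    rw [if_pos ht, hN k t h1 h2]
  have hwk : ∀ k t, s k ≤ t → t < s (k + 1) → w t = v k t := by
    intro k t h1 h2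
    have ht : t < b := h2.trans (hsb _)
    show (if t < b then v (N t) t else fun _ => 0) = v k t
    rw [if_pos ht, hN k t h1 h2]
  have hgs : ∀ k, ∀ t ∈ Icc (s k) (s (k + 1)), ∀ y ∈ Icc 0 L, f k t y = g t y := by
    intro k t ht y hy
    rcases eq_or_lt_of_le ht.2 with h1 | h1
    · rw [h1, hg k y hy, hgk (k + 1) (s (k + 1)) le_rfl (hs (Nat.lt_succ_self _))]
    · rw [hgk k t ht.1 h1]
  have hne : ∀ {k : ℕ} {t : ℝ}, t ∉ J' → t ≠ s k := fun ht h => ht (h ▸ hsJ _)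
  have H1 : ∀ k, TrL (s k) (s (k + 1)) L C J' g g w (fun _ => 0) := by
    intro k
    refine ((h k).mono le_rfl (hJk k) hJc).congr ?_ (hgs k) ?_ hL (fun t _ => rfl)
    · intro t ht y hy
      rw [hgk k t ht.1.1.le ht.1.2]
    · intro t ht y hy
      rw [hwk k t ht.1.1 (lt_of_le_of_ne ht.1.2 (hne ht.2))]
  have H2 : ∀ n, TrL (s 0) (s (n + 1)) L C J' g g w (fun _ => 0) := by
    intro n
    induction n with
    | zero => exact H1 0
    | succ n ih =>
      have e := ih.glue (H1 (n + 1)) hL (hs.monotone (Nat.zero_le _))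
        (hs.monotone (Nat.le_succ _)) (fun y _ => rfl)
      simp only [ite_self] at e
      refine e.mono le_rfl ?_ hJc
      rintro x ((hx | hx) | hx)
      · exact hx
      · exact hx
      · rw [mem_singleton_iff.1 hx]; exact hsJ _
  have hgb : g b = fun _ => 0 := if_neg (lt_irrefl b)
  have hI : ∀ {t : ℝ}, t ∈ Icc (s 0) b \ J' → t < b := fun ht =>
    lt_of_le_of_ne ht.1.2 fun h => ht.2 (h ▸ hbJ)
  refine ⟨J', g, w, ⟨hJc, ?_, ?_, continuousOn_const, ?_, ?_, ?_, ?_⟩, ?_, fun y _ => by rw [hgb]⟩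
  · rintro ⟨t, y⟩ ⟨ht, hy⟩
    rcases eq_or_lt_of_le (show t ≤ b from ht.2) with htb | htb
    · -- the final time
      rw [Metric.continuousWithinAt_iff]
      intro ε hε
      obtain ⟨K, hK⟩ := eventually_atTop.1 ((tendsto_order.1 hη).2 ε hε)
      refine ⟨b - s K, sub_pos.2 (hsb K), ?_⟩
      rintro ⟨t', y'⟩ ⟨ht', hy'⟩ hd
      have e0 : uncurry g (t, y) = 0 := by
        show g t y = 0
        rw [show t = b from htb, hgb]
      rw [e0, Real.dist_eq, sub_zero]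
      show |g t' y'| < ε
      have hd1 : |t' - b| < b - s K := by
        have h1 : dist t' t < b - s K := lt_of_le_of_lt (le_max_left _ _) hd
        rwa [show t = b from htb, Real.dist_eq] at h1
      rcases eq_or_lt_of_le (show t' ≤ b from ht'.2) with htb' | htb'
      · rw [show t' = b from htb', hgb, abs_zero]; exact hε
      · have hKt : s K < t' := by
          have := (abs_lt.1 hd1).1
          linarith
        have hp := hpiece t' ht'.1 htb'
        have hKN : K ≤ N t' := by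
          by_contra hcon
          have h3 : N t' + 1 ≤ K := by omega
          have h4 := hs.monotone h3
          linarith [hp.2]
        rw [hgk (N t') t' hp.1 hp.2]
        exact lt_of_le_of_lt (hb (N t') t' ⟨hp.1, hp.2.le⟩ y' hy') (hK _ hKN)
    · obtain ⟨n, hn⟩ := hex t htb
      have hc := (H2 n).cf (t, y) ⟨⟨ht.1, hn.le⟩, hy⟩
      refine hc.mono_of_mem_nhdsWithin ?_
      have h1 : {p : ℝ × ℝ | p.1 < s (n + 1)} ∈ 𝓝 (t, y) :=
        (isOpen_lt continuous_fst continuous_const).mem_nhds hn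
      filter_upwards [self_mem_nhdsWithin, mem_nhdsWithin_of_mem_nhds h1] with p hp hp'
      exact ⟨⟨hp.1.1, le_of_lt hp'⟩, hp.2⟩
  · rintro ⟨t, y⟩ ⟨ht, hy⟩
    obtain ⟨n, hn⟩ := hex t (hI ht)
    have hc := (H2 n).cv (t, y) ⟨⟨⟨ht.1.1, hn.le⟩, ht.2⟩, hy⟩
    refine hc.mono_of_mem_nhdsWithin ?_
    have h1 : {p : ℝ × ℝ | p.1 < s (n + 1)} ∈ 𝓝 (t, y) :=
      (isOpen_lt continuous_fst continuous_const).mem_nhds hn
    filter_upwards [self_mem_nhdsWithin, mem_nhdsWithin_of_mem_nhds h1] with p hp hp'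
    exact ⟨⟨⟨hp.1.1.1, le_of_lt hp'⟩, hp.1.2⟩, hp.2⟩
  · intro t ht
    obtain ⟨n, hn⟩ := hex t (hI ht)
    exact (H2 n).bd t ⟨⟨ht.1.1, hn.le⟩, ht.2⟩
  · intro t ht
    obtain ⟨n, hn⟩ := hex t (hI ht)
    exact (H2 n).df t ⟨⟨ht.1.1, hn.le⟩, ht.2⟩
  · intro t ht
    rcases eq_or_lt_of_le ht.2 with htb | htb
    · rw [htb, hgb]
    · obtain ⟨n, hn⟩ := hex t htb
      exact (H2 n).z t ⟨ht.1, hn.le⟩
  · intro t ht
    obtain ⟨n, hn⟩ := hex t ht.1.2
    exact (H2 n).tf t ⟨⟨ht.1.1, hn⟩, ht.2⟩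
  · intro y hy
    rw [hgk 0 (s 0) le_rfl (hs Nat.zero_lt_one)]

end Pool.Agent.Lib.MP_79abb3_an
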