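import Pool.Agent.Lib.MP_79abb3_an.Step
import Pool.Agent.Lib.MP_79abb3_an.IGlue

/-!
Local null controllability for the profile equation.
-/

set_option autoImplicit false
set_option linter.unusedSectionVars false
set_option linter.unusedVariables false

open MeasureTheory Set Filter Topology Real Function

namespace Pool.Agent.Lib.MP_79abb3_an

theorem K_exp_le {K l0 : ℝ} (hK : 1 ≤ K) (hl0 : 0 < l0) (k : ℕ) :
    K * exp (K / (l0 * (5/6) ^ k) ^ 2) ≤ exp ((K / l0 ^ 2 + K) * (36/25) ^ k) := by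
  have h1 : K / (l0 * (5/6) ^ k) ^ 2 = K / l0 ^ 2 * (36/25) ^ k := by
    rw [mul_pow, ← pow_mul, mul_comm k 2, pow_mul]
    have : ((36:ℝ)/25) ^ k = (((5/6) ^ 2) ^ k)⁻¹ := by
      rw [← inv_pow]; norm_num
    rw [this]
    field_simp
  have h2 : (1:ℝ) ≤ (36/25) ^ k := one_le_pow₀ (by norm_num)
  have h3 : K ≤ exp K := by linarith [add_one_le_exp K]
  calc K * exp (K / (l0 * (5/6) ^ k) ^ 2) ≤ exp K * exp (K / l0 ^ 2 * (36/25) ^ k) := by
        rw [h1]; gcongr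
    _ = exp (K + K / l0 ^ 2 * (36/25) ^ k) := by rw [← exp_add]
    _ ≤ _ := by
        apply exp_le_exp.2
        have : K * 1 ≤ K * (36/25) ^ k := by gcongr
        linarith

/-- Iteration. -/
theorem iterate {L T0 : ℝ} (hL : 0 ≤ L) (hT0 : 0 < T0) : ∃ δ : ℝ, 0 < δ ∧ δ ≤ 1 ∧
    ∀ e e' : ℝ → ℝ, Odd1 δ δ e e' → ∃ (b C : ℝ) (J : Set ℝ) (g v : ℝ → ℝ → ℝ), 0 < b ∧ b ≤ T0 ∧
      0 ≤ C ∧ TrL 0 b L C J g g v (fun _ => 0) ∧ (∀ y ∈ Icc 0 L, g 0 y = e y) ∧
      ∀ y ∈ Icc 0 L, g b y = 0 := by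
  obtain ⟨K, D, hK, hD, hstep⟩ := step3 hL
  set l0 := min (1 / K) (T0 / 12) with hl0d
  have hl0 : 0 < l0 := lt_min (by positivity) (by positivity)
  have hl0K : K * l0 ≤ 1 := by
    have : l0 ≤ 1 / K := min_le_left _ _
    calc K * l0 ≤ K * (1 / K) := by gcongr
      _ = 1 := by field_simp
  have hl01 : l0 ≤ 1 := by nlinarith
  set a := K / l0 ^ 2 + K with ha
  have ha0 : 0 < a := by positivity
  set δ : ℕ → ℝ := fun k => exp (-(2 * a) * (3/2) ^ k) with hδ
  set l : ℕ → ℝ := fun k => l0 * (5/6) ^ k with hl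
  set τ : ℕ → ℝ := fun k => l k + l k / D with hτ
  have hδ0 : ∀ k, 0 < δ k := fun k => exp_pos _
  have hδ1 : ∀ k, δ k ≤ 1 := fun k => by
    rw [hδ, exp_le_one_iff]
    have : 0 < a * (3/2) ^ k := by positivity
    linarith
  have hlk : ∀ k, l k ∈ Ioc (0:ℝ) 1 := fun k => ⟨by positivity, by
    have : ((5:ℝ)/6) ^ k ≤ 1 := pow_le_one₀ (by norm_num) (by norm_num)
    calc l0 * (5/6) ^ k ≤ 1 * 1 := by gcongr
      _ = 1 := one_mul 1⟩
  have hlk0 : ∀ k, l k ≤ l0 := fun k => by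
    have : ((5:ℝ)/6) ^ k ≤ 1 := pow_le_one₀ (by norm_num) (by norm_num)
    calc l0 * (5/6) ^ k ≤ l0 * 1 := by gcongr
      _ = l0 := mul_one _
  have hθ : ∀ k : ℕ, a * (36/25) ^ k ≤ a * (3/2) ^ k := fun k =>
    mul_le_mul_of_nonneg_left (pow_le_pow_left₀ (by norm_num) (by norm_num) k) ha0.le
  have hKδ : ∀ k, K * exp (K / (l k) ^ 2) * δ k ≤ exp (-a * (3/2) ^ k) := by
    intro k
    calc K * exp (K / (l k) ^ 2) * δ k ≤ exp (a * (36/25) ^ k) * δ k := by
          have := K_exp_le hK hl0 k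
          have := hδ0 k
          gcongr
      _ = exp (a * (36/25) ^ k + -(2 * a) * (3/2) ^ k) := by rw [hδ, ← exp_add]
      _ ≤ _ := by
          apply exp_le_exp.2
          have := hθ k
          linarith
  have hstep' : ∀ k (x : (ℝ → ℝ) × (ℝ → ℝ)), Odd1 (δ k) (δ k) x.1 x.2 →
      ∃ (J : Set ℝ) (f v : ℝ → ℝ → ℝ) (x' : (ℝ → ℝ) × (ℝ → ℝ)),
        Odd1 (δ (k + 1)) (δ (k + 1)) x'.1 x'.2 ∧
        TrL 0 (τ k) L (K + 1) J f f v (fun _ => 0) ∧ (∀ y ∈ Icc 0 L, f 0 y = x.1 y) ∧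
        (∀ y ∈ Icc 0 L, f (τ k) y = x'.1 y) ∧
        ∀ t ∈ Icc 0 (τ k), ∀ y ∈ Icc 0 L, |f t y| ≤ exp (-a * (3/2) ^ k) := by
    intro k x hx
    obtain ⟨J, f, v, e1, e1', h1, h2, h3, h4, h5⟩ := hstep (l k) (hlk k) (δ k) (δ k) x.1 x.2 le_rfl hx
      (by
        calc K * l k * δ k ≤ K * l0 * 1 := by
              have := hlk0 k
              have := hδ1 k
              have := (hlk k).1
              gcongr
          _ ≤ 1 := by rw [mul_one]; exact hl0K)
      ((hKδ k).trans (by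
        rw [exp_le_one_iff]
        have : 0 < a * (3/2) ^ k := by positivity
        linarith))
    refine ⟨J, f, v, (e1, e1'), ?_, h1.mono ?_ le_rfl h1.count, h2, h3, fun t ht y hy =>
      (h5 t ht y hy).trans (hKδ k)⟩
    · have : K * exp (K / (l k) ^ 2) * δ k * δ k ≤ δ (k + 1) := by
        calc K * exp (K / (l k) ^ 2) * δ k * δ k ≤ exp (-a * (3/2) ^ k) * δ k := by
              have := hKδ k
              have := hδ0 k
              gcongr
          _ = exp (-a * (3/2) ^ k + -(2 * a) * (3/2) ^ k) := by rw [hδ, ← exp_add]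
          _ = δ (k + 1) := by
              rw [hδ]
              simp only
              congr 1
              rw [pow_succ]
              ring
      exact h4.mono this this
    · have : K * δ k ≤ K * 1 := by have := hδ1 k; gcongr
      linarith
  choose J f v x' hx' hT hf0 hfτ hfb using hstep'
  refine ⟨δ 0, hδ0 0, hδ1 0, fun e e' he => ?_⟩
  let X : ∀ k, {x : (ℝ → ℝ) × (ℝ → ℝ) // Odd1 (δ k) (δ k) x.1 x.2} := fun k =>
    Nat.rec (motive := fun k => {x : (ℝ → ℝ) × (ℝ → ℝ) // Odd1 (δ k) (δ k) x.1 x.2})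
      ⟨(e, e'), he⟩ (fun k x => ⟨x' k x.1 x.2, hx' k x.1 x.2⟩) k
  have hX0 : (X 0).1 = (e, e') := rfl
  have hXs : ∀ k, (X (k + 1)).1 = x' k (X k).1 (X k).2 := fun k => rfl
  set b := l0 * (1 + 1 / D) * 6 with hb
  have hD0 : 0 < D := by linarith
  have hb0 : 0 < b := by positivity
  have hbT : b ≤ T0 := by
    have h1 : 1 / D ≤ 1 := by rw [div_le_one hD0]; exact hD
    have h2 : l0 ≤ T0 / 12 := min_le_right _ _
    calc b ≤ (T0 / 12) * (1 + 1) * 6 := by rw [hb]; gcongr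
      _ = T0 := by ring
  set s : ℕ → ℝ := fun k => b * (1 - (5/6) ^ k) with hs
  have hs0 : s 0 = 0 := by simp [hs]
  have hss : ∀ k, s (k + 1) = s k + τ k := by
    intro k
    simp only [hs, hτ, hl, hb, pow_succ]
    field_simp
    ring
  have hτ0 : ∀ k, 0 < τ k := fun k => by
    have := (hlk k).1
    have : 0 < l k / D := by positivity
    simp only [hτ]
    linarith
  have hmono : StrictMono s := strictMono_nat_of_lt_succ fun k => by
    rw [hss]; linarith [hτ0 k]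
  have hlim : Tendsto s atTop (𝓝 b) := by
    have h1 := tendsto_pow_atTop_nhds_zero_of_lt_one (r := (5:ℝ)/6) (by norm_num) (by norm_num)
    have h2 := (tendsto_const_nhds (x := (1:ℝ))).sub h1
    have h3 := h2.const_mul b
    simpa using h3
  have hη : Tendsto (fun k : ℕ => exp (-a * (3/2) ^ k)) atTop (𝓝 0) := by
    have h1 := tendsto_pow_atTop_atTop_of_one_lt (r := (3:ℝ)/2) (by norm_num)
    have h2 : Tendsto (fun k : ℕ => a * (3/2:ℝ) ^ k) atTop atTop := h1.const_mul_atTop ha0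
    have h3 := tendsto_exp_neg_atTop_nhds_zero.comp h2
    refine h3.congr fun k => ?_
    simp only [comp_apply]
    congr 1
    ring
  have hTk : ∀ k, TrL (s k) (s (k + 1)) L (K + 1)
      ((fun t => t - s k) ⁻¹' J k (X k).1 (X k).2)
      (fun t => f k (X k).1 (X k).2 (t - s k)) (fun t => f k (X k).1 (X k).2 (t - s k))
      (fun t => v k (X k).1 (X k).2 (t - s k)) (fun _ => 0) := by
    intro k
    have h1 := (hT k (X k).1 (X k).2).shift (s k)
    rw [zero_add, add_comm (τ k), ← hss] at h1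
    exact h1
  obtain ⟨J', g, v', hg, hg0, hgb⟩ := TrL.iglue hL (by linarith : 0 ≤ K + 1) hmono hlim hTk
    (fun k y hy => by
      show f k (X k).1 (X k).2 (s (k + 1) - s k) y =
        f (k + 1) (X (k + 1)).1 (X (k + 1)).2 (s (k + 1) - s (k + 1)) y
      have e1 : s (k + 1) - s k = τ k := by rw [hss]; ring
      rw [e1, sub_self, hfτ k _ _ y hy, hf0 (k + 1) _ _ y hy])
    hη (fun k t ht y hy => hfb k (X k).1 (X k).2 (t - s k)
      ⟨by linarith [ht.1], by have := ht.2; rw [hss] at this; linarith⟩ y hy)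
  rw [hs0] at hg hg0
  refine ⟨b, K + 1, J', g, v', hb0, hbT, by linarith, hg, fun y hy => ?_, hgb⟩
  rw [hg0 y hy]
  show f 0 (X 0).1 (X 0).2 (0 - 0) y = e y
  rw [sub_zero, hf0 0 _ _ y hy]
  rfl

/-- Local null controllability: data small in sup norm, with bounded derivative. -/
theorem local_ctrl {L T0 Λ : ℝ} (hL : 0 ≤ L) (hT0 : 0 < T0) (hΛ : 1 ≤ Λ) : ∃ μ : ℝ, 0 < μ ∧
    ∀ e e' : ℝ → ℝ, Odd1 μ Λ e e' → ∃ (b C : ℝ) (J : Set ℝ) (g v : ℝ → ℝ → ℝ), 0 < b ∧ b ≤ T0 ∧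
      0 ≤ C ∧ TrL 0 b L C J g g v (fun _ => 0) ∧ (∀ y ∈ Icc 0 L, g 0 y = e y) ∧
      ∀ y ∈ Icc 0 L, g b y = 0 := by
  obtain ⟨K, D, hK, hD, hstep⟩ := step3 hL
  obtain ⟨δ, hδ0, hδ1, hit⟩ := iterate hL (by linarith : 0 < T0 / 2)
  set l0 := min (1 / (K * Λ)) (T0 / 4) with hl0d
  have hΛ0 : 0 < Λ := by linarith
  have hl0 : 0 < l0 := lt_min (by positivity) (by positivity)
  have hl0K : K * l0 * Λ ≤ 1 := by
    have : l0 ≤ 1 / (K * Λ) := min_le_left _ _
    calc K * l0 * Λ ≤ K * (1 / (K * Λ)) * Λ := by gcongr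
      _ = 1 := by field_simp
  have hl01 : l0 ≤ 1 := by
    have h1 : l0 ≤ 1 / (K * Λ) := min_le_left _ _
    have h2 : 1 ≤ K * Λ := one_le_mul_of_one_le_of_one_le hK hΛ
    exact h1.trans (by rw [div_le_one (by linarith)]; exact h2)
  set X := exp (K / l0 ^ 2) with hX
  have hX1 : 1 ≤ X := one_le_exp (by positivity)
  have hKX : 1 ≤ K * X := one_le_mul_of_one_le_of_one_le hK hX1
  have hX0 : 0 < X := by linarith
  set μ := δ / (K * X * Λ) with hμ
  have hμ0 : 0 < μ := by positivity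
  have hμK : K * X * μ * Λ = δ := by rw [hμ]; field_simp
  have hμ1 : K * X * μ ≤ 1 := by
    calc K * X * μ = K * X * μ * 1 := by ring
      _ ≤ K * X * μ * Λ := by gcongr
      _ = δ := hμK
      _ ≤ 1 := hδ1
  have hμΛ : μ ≤ Λ := by
    have : μ ≤ K * X * μ := by
      calc μ = 1 * μ := (one_mul _).symm
        _ ≤ K * X * μ := by gcongr
    linarith
  refine ⟨μ, hμ0, fun e e' he => ?_⟩
  obtain ⟨J, f, v, e1, e1', h1, h2, h3, h4, h5⟩ := hstep l0 ⟨hl0, hl01⟩ μ Λ e e' hμΛ he hl0K hμ1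
  rw [← hX, hμK] at h4
  obtain ⟨b, C, J', g, v', hb0, hbT, hC, hg, hg0, hgb⟩ := hit e1 e1' h4
  set t1 := l0 + l0 / D with ht1
  have hD0 : 0 < D := by linarith
  have ht10 : 0 < t1 := by positivity
  have ht1T : t1 ≤ T0 / 2 := by
    have e1 : l0 ≤ T0 / 4 := min_le_right _ _
    have e2 : l0 / D ≤ l0 := div_le_self hl0.le hD
    rw [ht1]; linarith
  set CC := max (K * Λ + 1) C with hCC
  have hg' := (hg.shift t1)
  rw [zero_add] at hg'
  have k1 := h1.mono (le_max_left _ _ : K * Λ + 1 ≤ CC) le_rfl h1.count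
  have k2 := hg'.mono (le_max_right _ _ : C ≤ CC) le_rfl hg'.count
  have k3 := k1.glue k2 hL ht10.le (by linarith) (fun y hy => by
    show f t1 y = g (t1 - t1) y
    rw [sub_self, hg0 y hy, h3 y hy])
  refine ⟨b + t1, CC, _, _, _, by linarith, by linarith, hC.trans (le_max_right _ _),
    k3.congr (fun t _ y _ => rfl) (fun t _ y _ => rfl) (fun t _ y _ => rfl) hL
    (fun t _ => ?_), fun y hy => ?_, fun y hy => ?_⟩
  · split_ifs <;> rfl
  · show (if (0:ℝ) ≤ t1 then f 0 else g (0 - t1)) y = e y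
    rw [if_pos ht10.le, h2 y hy]
  · show (if b + t1 ≤ t1 then f (b + t1) else g (b + t1 - t1)) y = 0
    rw [if_neg (by linarith), add_sub_cancel_right, hgb y hy]

end Pool.Agent.Lib.MP_79abb3_an
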