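import Mathlib

/-!
A cut-off function of Gevrey class 3/2.
-/

set_option autoImplicit false

open Set Function Filter Topology
open scoped ContDiff Nat

namespace Pool.Agent.Lib.MP_79abb3_an

namespace Gevrey

/-- `exp (-1/t - 1/t²)` for `t > 0`, zero for `t ≤ 0` -/
noncomputable def g (t : ℝ) : ℝ := expNegInvGlue t * expNegInvGlue (t ^ 2)

/-- the holomorphic extension -/
noncomputable def G (z : ℂ) : ℂ := Complex.exp (-z⁻¹ - (z⁻¹) ^ 2)

theorem g_contDiff : ContDiff ℝ ∞ g :=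
  expNegInvGlue.contDiff.mul (expNegInvGlue.contDiff.comp (contDiff_id.pow 2))

theorem g_of_nonpos {t : ℝ} (ht : t ≤ 0) : g t = 0 := by
  rw [g, expNegInvGlue.zero_of_nonpos ht, zero_mul]

theorem g_pos {t : ℝ} (ht : 0 < t) : 0 < g t :=
  mul_pos (expNegInvGlue.pos_of_pos ht) (expNegInvGlue.pos_of_pos (by positivity))

theorem g_nonneg (t : ℝ) : 0 ≤ g t :=
  mul_nonneg (expNegInvGlue.nonneg _) (expNegInvGlue.nonneg _)

theorem g_eq {t : ℝ} (ht : 0 < t) : g t = (G t).re := by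
  have h2 : 0 < t ^ 2 := by positivity
  rw [g, expNegInvGlue, expNegInvGlue, if_neg (not_le.2 ht), if_neg (not_le.2 h2), G,
    ← Real.exp_add]
  have : (-(t : ℂ)⁻¹ - ((t : ℂ)⁻¹) ^ 2) = ((-t⁻¹ + -(t ^ 2)⁻¹ : ℝ) : ℂ) := by
    push_cast
    rw [inv_pow]
    ring
  rw [this, Complex.exp_ofReal_re]

theorem G_diff {z : ℂ} (hz : z ≠ 0) : DifferentiableAt ℂ G z := by
  unfold G
  fun_prop (disch := assumption)

theorem G_analytic {z : ℂ} (hz : z ≠ 0) : AnalyticAt ℂ G z := by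
  have h : DifferentiableOn ℂ G {0}ᶜ := fun w hw => (G_diff hw).differentiableWithinAt
  exact h.analyticAt (isOpen_compl_singleton.mem_nhds hz)

theorem iter_eq (j : ℕ) : ∀ t : ℝ, 0 < t → iteratedDeriv j g t = (iteratedDeriv j G t).re := by
  induction j with
  | zero =>
    intro t ht
    simpa using g_eq ht
  | succ j ih =>
    intro t ht
    rw [iteratedDeriv_succ, iteratedDeriv_succ]
    have h1 : iteratedDeriv j g =ᶠ[𝓝 t] fun x : ℝ => (iteratedDeriv j G x).re := by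
      filter_upwards [lt_mem_nhds ht] with x hx
      exact ih x hx
    rw [h1.deriv_eq]
    have h2 : DifferentiableAt ℂ (iteratedDeriv j G) (t : ℂ) := by
      have h3 : AnalyticAt ℂ G (t : ℂ) := G_analytic (by exact_mod_cast ht.ne')
      rw [iteratedDeriv_eq_iterate]
      exact (h3.iterated_deriv j).differentiableAt
    exact h2.hasDerivAt.real_of_complex.deriv

theorem norm_G_le {t : ℝ} (ht : 0 < t) {z : ℂ} (hz : z ∈ Metric.closedBall (t : ℂ) (t / 4)) :
    z ≠ 0 ∧ ‖G z‖ ≤ Real.exp (-(1 / (5 * t ^ 2))) := by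
  have h1 : ‖z - t‖ ≤ t / 4 := by simpa [dist_eq_norm] using hz
  set x := z.re with hx
  set y := z.im with hy
  have h2 : (x - t) ^ 2 + y ^ 2 ≤ (t / 4) ^ 2 := by
    have h3 : ‖z - t‖ ^ 2 = (x - t) ^ 2 + y ^ 2 := by
      rw [← Complex.normSq_eq_norm_sq, Complex.normSq_apply]
      simp only [Complex.sub_re, Complex.ofReal_re, Complex.sub_im, Complex.ofReal_im, sub_zero]
      ring
    rw [← h3]
    exact pow_le_pow_left₀ (norm_nonneg _) h1 2
  have h4 : 3 / 4 * t ≤ x := by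
    have h : (x - t) ^ 2 ≤ (t / 4) ^ 2 := by nlinarith
    have := abs_le_of_sq_le_sq' h (by positivity)
    linarith [this.1]
  have h5 : x ≤ 5 / 4 * t := by
    have h : (x - t) ^ 2 ≤ (t / 4) ^ 2 := by nlinarith
    have := abs_le_of_sq_le_sq' h (by positivity)
    linarith [this.2]
  have h6 : y ^ 2 ≤ t ^ 2 / 16 := by nlinarith
  have hxpos : 0 < x := by linarith
  have hz0 : z ≠ 0 := by
    rintro h
    rw [h] at hx
    simp only [Complex.zero_re] at hx
    linarith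
  refine ⟨hz0, ?_⟩
  have hn : Complex.normSq z = x ^ 2 + y ^ 2 := by
    rw [Complex.normSq_apply]
    ring
  have hnpos : 0 < x ^ 2 + y ^ 2 := by positivity
  have hre : (z⁻¹).re = x / (x ^ 2 + y ^ 2) := by rw [Complex.inv_re, hn]
  have him : (z⁻¹).im = -y / (x ^ 2 + y ^ 2) := by rw [Complex.inv_im, hn]
  rw [G, Complex.norm_exp]
  apply Real.exp_le_exp.2
  have e1 : (-z⁻¹ - z⁻¹ ^ 2).re = -(x / (x ^ 2 + y ^ 2)) - (x ^ 2 - y ^ 2) / (x ^ 2 + y ^ 2) ^ 2 := by
    rw [Complex.sub_re, Complex.neg_re, pow_two, Complex.mul_re, hre, him]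
    field_simp
  rw [e1]
  have e2 : 0 ≤ x / (x ^ 2 + y ^ 2) := by positivity
  have e3 : 1 / (5 * t ^ 2) ≤ (x ^ 2 - y ^ 2) / (x ^ 2 + y ^ 2) ^ 2 := by
    rw [div_le_div_iff₀ (by positivity) (by positivity)]
    have a1 : 9 / 16 * t ^ 2 ≤ x ^ 2 := by nlinarith
    have a2 : x ^ 2 + y ^ 2 ≤ 25 / 16 * t ^ 2 := by
      have : (x + (t - x)) ^ 2 = t ^ 2 := by ring
      nlinarith
    have a3 : (x ^ 2 + y ^ 2) ^ 2 ≤ (25 / 16 * t ^ 2) ^ 2 := pow_le_pow_left₀ hnpos.le a2 2
    have a4 : 1 / 2 * t ^ 2 ≤ x ^ 2 - y ^ 2 := by nlinarith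
    have a5 : 1 / 2 * t ^ 2 * (5 * t ^ 2) ≤ (x ^ 2 - y ^ 2) * (5 * t ^ 2) := by gcongr
    have a6 : 0 ≤ t ^ 4 := by positivity
    nlinarith
  linarith

theorem iter_bound_pos (j : ℕ) {t : ℝ} (ht : 0 < t) :
    |iteratedDeriv j g t| ≤ 7 ^ j * (j ! : ℝ) ^ (3 / 2 : ℝ) := by
  have h0 : ∀ z ∈ Metric.closedBall (t : ℂ) (t / 4), z ≠ 0 := fun z hz => (norm_G_le ht hz).1
  have h1 : DiffContOnCl ℂ G (Metric.ball (t : ℂ) (t / 4)) := by
    apply DifferentiableOn.diffContOnCl
    intro z hz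
    have := Metric.closure_ball_subset_closedBall hz
    exact (G_diff (h0 z this)).differentiableWithinAt
  have h2 := Complex.norm_iteratedDeriv_le_of_forall_mem_sphere_norm_le j
    (by positivity : 0 < t / 4) h1
    (fun z hz => (norm_G_le ht (Metric.sphere_subset_closedBall hz)).2)
  rw [iter_eq j t ht]
  refine (Complex.abs_re_le_norm _).trans (h2.trans ?_)
  -- (4/t)^j exp(-1/(5t²)) ≤ 7^j √j!
  have h3 : (1 / t ^ 2 * (2 / 5)) ^ j / (j ! : ℝ) ≤ Real.exp (1 / t ^ 2 * (2 / 5)) :=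
    Real.pow_div_factorial_le_exp _ (by positivity) _
  have hj : (0:ℝ) < j ! := by exact_mod_cast j.factorial_pos
  set s := Real.sqrt (j ! : ℝ) with hs
  have hs2 : s ^ 2 = j ! := Real.sq_sqrt hj.le
  have hs0 : 0 < s := Real.sqrt_pos.2 hj
  have h4 : (4 / t) ^ j * Real.exp (-(1 / (5 * t ^ 2))) ≤ 7 ^ j * s := by
    refine le_of_sq_le_sq ?_ (by positivity)
    have e1 : (1 / t ^ 2 * (2 / 5)) ^ j ≤ j ! * Real.exp (1 / t ^ 2 * (2 / 5)) := by
      rw [div_le_iff₀ hj] at h3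
      linarith
    have e2 : ((4 / t) ^ j * Real.exp (-(1 / (5 * t ^ 2)))) ^ 2 =
        40 ^ j * ((1 / t ^ 2 * (2 / 5)) ^ j * Real.exp (-(1 / t ^ 2 * (2 / 5)))) := by
      rw [mul_pow, ← pow_mul, mul_comm j 2, pow_mul, ← Real.exp_nat_mul, ← mul_assoc, ← mul_pow]
      congr 2
      · rw [div_pow]
        ring
      · push_cast
        field_simp
        try ring
    have e3 : Real.exp (1 / t ^ 2 * (2 / 5)) * Real.exp (-(1 / t ^ 2 * (2 / 5))) = 1 := by
      rw [← Real.exp_add, add_neg_cancel, Real.exp_zero]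
    rw [e2]
    calc (40:ℝ) ^ j * ((1 / t ^ 2 * (2 / 5)) ^ j * Real.exp (-(1 / t ^ 2 * (2 / 5))))
        ≤ 40 ^ j * ((j ! * Real.exp (1 / t ^ 2 * (2 / 5))) *
          Real.exp (-(1 / t ^ 2 * (2 / 5)))) := by gcongr
      _ = 40 ^ j * j ! := by rw [mul_assoc (j ! : ℝ), e3, mul_one]
      _ ≤ 49 ^ j * j ! := by gcongr; norm_num
      _ = (7 ^ j * s) ^ 2 := by
        rw [mul_pow, hs2, ← pow_mul, mul_comm j 2, pow_mul]
        norm_num
  have h5 : (j ! : ℝ) ^ (3 / 2 : ℝ) = j ! * s := by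
    rw [hs, Real.sqrt_eq_rpow]
    nth_rewrite 2 [← Real.rpow_one (j ! : ℝ)]
    rw [← Real.rpow_add hj]
    norm_num
  rw [h5]
  calc (j ! : ℝ) * Real.exp (-(1 / (5 * t ^ 2))) / (t / 4) ^ j
      = j ! * ((4 / t) ^ j * Real.exp (-(1 / (5 * t ^ 2)))) := by
        rw [div_pow, div_pow]
        field_simp
    _ ≤ j ! * (7 ^ j * s) := by gcongr
    _ = 7 ^ j * (j ! * s) := by ring

theorem iter_zero (j : ℕ) {t : ℝ} (ht : t ≤ 0) : iteratedDeriv j g t = 0 := by
  have hcont : Continuous (iteratedDeriv j g) :=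
    g_contDiff.continuous_iteratedDeriv j (by exact_mod_cast le_top)
  have h1 : ∀ x : ℝ, x < 0 → iteratedDeriv j g x = 0 := by
    intro x hx
    have : g =ᶠ[𝓝 x] fun _ => 0 := by
      filter_upwards [gt_mem_nhds hx] with y hy
      exact g_of_nonpos hy.le
    rw [this.iteratedDeriv_eq, iteratedDeriv_fun_const_zero]
  rcases ht.lt_or_eq with h | h
  · exact h1 t h
  · subst h
    have hcl : IsClosed {x | iteratedDeriv j g x = 0} := isClosed_eq hcont continuous_const
    have : closure (Iio (0:ℝ)) ⊆ {x | iteratedDeriv j g x = 0} :=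
      hcl.closure_subset_iff.2 fun x hx => h1 x hx
    rw [closure_Iio] at this
    exact this (mem_Iic.2 le_rfl)

theorem iter_bound (j : ℕ) (t : ℝ) :
    |iteratedDeriv j g t| ≤ 7 ^ j * (j ! : ℝ) ^ (3 / 2 : ℝ) := by
  rcases le_or_gt t 0 with h | h
  · rw [iter_zero j h]
    simp only [abs_zero]
    positivity
  · exact iter_bound_pos j h

/-- the bump function -/
noncomputable def b (t : ℝ) : ℝ := g t * g (1 - t)

theorem b_contDiff : ContDiff ℝ ∞ b :=
  g_contDiff.mul (g_contDiff.comp (contDiff_const.sub contDiff_id))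

theorem b_bound (j : ℕ) (t : ℝ) :
    |iteratedDeriv j b t| ≤ (j + 1) * 7 ^ j * (j ! : ℝ) ^ (3 / 2 : ℝ) := by
  have h1 : iteratedDeriv j b t = ∑ i ∈ Finset.range (j + 1),
      j.choose i * iteratedDeriv i g t * iteratedDeriv (j - i) (fun x => g (1 - x)) t := by
    have hb : b = g * (fun x => g (1 - x)) := rfl
    rw [hb]
    refine iteratedDeriv_mul ?_ ?_
    · exact (g_contDiff.of_le (by exact_mod_cast le_top)).contDiffAt
    · exact ((g_contDiff.comp (contDiff_const.sub contDiff_id)).of_le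
        (by exact_mod_cast le_top)).contDiffAt
  have h2 : ∀ i, |iteratedDeriv i (fun x => g (1 - x)) t| ≤
      7 ^ i * (i ! : ℝ) ^ (3 / 2 : ℝ) := by
    intro i
    rw [iteratedDeriv_comp_const_sub]
    simp only [smul_eq_mul, abs_mul, abs_pow, abs_neg, abs_one, one_pow, one_mul]
    exact iter_bound i _
  rw [h1]
  refine (Finset.abs_sum_le_sum_abs _ _).trans ?_
  have h3 : ∀ i ∈ Finset.range (j + 1), |(j.choose i : ℝ) * iteratedDeriv i g t *
      iteratedDeriv (j - i) (fun x => g (1 - x)) t| ≤ 7 ^ j * (j ! : ℝ) ^ (3 / 2 : ℝ) := by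
    intro i hi
    have hij : i ≤ j := Nat.lt_succ_iff.1 (Finset.mem_range.1 hi)
    rw [abs_mul, abs_mul, abs_of_nonneg (by positivity : (0:ℝ) ≤ j.choose i)]
    have hc : (j.choose i : ℝ) * (i ! * (j - i)!) = j ! := by
      rw [← mul_assoc]
      exact_mod_cast Nat.choose_mul_factorial_mul_factorial hij
    calc (j.choose i : ℝ) * |iteratedDeriv i g t| *
        |iteratedDeriv (j - i) (fun x => g (1 - x)) t|
        ≤ j.choose i * (7 ^ i * (i ! : ℝ) ^ (3 / 2 : ℝ)) *
          (7 ^ (j - i) * ((j - i)! : ℝ) ^ (3 / 2 : ℝ)) := by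
          gcongr
          · exact iter_bound i t
          · exact h2 (j - i)
      _ = 7 ^ j * (j.choose i * (i ! * (j - i)! : ℝ) ^ (3 / 2 : ℝ)) := by
          rw [Real.mul_rpow (by positivity) (by positivity)]
          have : (7:ℝ) ^ j = 7 ^ i * 7 ^ (j - i) := by
            rw [← pow_add, Nat.add_sub_cancel' hij]
          rw [this]
          ring
      _ ≤ 7 ^ j * ((j.choose i : ℝ) ^ (3 / 2 : ℝ) * (i ! * (j - i)! : ℝ) ^ (3 / 2 : ℝ)) := by
          gcongr
          have h1c : (1:ℝ) ≤ j.choose i := by exact_mod_cast Nat.choose_pos hij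
          calc (j.choose i : ℝ) = (j.choose i : ℝ) ^ (1:ℝ) := (Real.rpow_one _).symm
            _ ≤ (j.choose i : ℝ) ^ (3 / 2 : ℝ) :=
              Real.rpow_le_rpow_of_exponent_le h1c (by norm_num)
      _ = 7 ^ j * (j ! : ℝ) ^ (3 / 2 : ℝ) := by
          rw [← Real.mul_rpow (by positivity) (by positivity), hc]
  refine (Finset.sum_le_sum h3).trans ?_
  rw [Finset.sum_const, Finset.card_range, nsmul_eq_mul]
  push_cast
  exact le_of_eq (by ring)

end Gevrey

open Gevrey in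
theorem exists_gevrey : ∃ β : ℝ → ℝ, ContDiff ℝ ∞ β ∧ (∀ t ≤ 0, β t = 1) ∧ (∀ t, 1 ≤ t → β t = 0) ∧
    ∃ C : ℝ, 1 ≤ C ∧ ∀ j t, |iteratedDeriv j β t| ≤
      C ^ (j + 1) * (Nat.factorial j : ℝ) ^ (3 / 2 : ℝ) := by
  have hbc : Continuous b := b_contDiff.continuous
  set I : ℝ := ∫ s in (0:ℝ)..1, b s with hI
  have hIpos : 0 < I := by
    apply intervalIntegral.intervalIntegral_pos_of_pos_on (hbc.intervalIntegrable _ _)
    · intro x hx
      exact mul_pos (g_pos hx.1) (g_pos (by linarith [hx.2]))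
    · norm_num
  have hb0 : ∀ t ≤ 0, b t = 0 := fun t ht => by rw [b, g_of_nonpos ht, zero_mul]
  have hb1 : ∀ t, 1 ≤ t → b t = 0 := fun t ht => by
    rw [b, g_of_nonpos (by linarith : 1 - t ≤ 0), mul_zero]
  have hbn : ∀ t, 0 ≤ b t := fun t => mul_nonneg (g_nonneg _) (g_nonneg _)
  set β : ℝ → ℝ := fun t => 1 - (∫ s in (0:ℝ)..t, b s) / I with hβ
  have hderiv : ∀ t, HasDerivAt β (-(b t / I)) t := by
    intro t
    have h1 : HasDerivAt (fun t => ∫ s in (0:ℝ)..t, b s) (b t) t :=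
      intervalIntegral.integral_hasDerivAt_right (hbc.intervalIntegrable _ _)
        (hbc.stronglyMeasurableAtFilter _ _) hbc.continuousAt
    have := (h1.div_const I).const_sub 1
    simpa using this
  have hderiv' : deriv β = fun t => -(b t / I) := funext fun t => (hderiv t).deriv
  have hβ0 : ∀ t ≤ 0, β t = 1 := by
    intro t ht
    have : ∫ s in (0:ℝ)..t, b s = 0 := by
      rw [intervalIntegral.integral_symm]
      have : ∫ s in t..(0:ℝ), b s = ∫ s in t..(0:ℝ), (0:ℝ) := by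
        apply intervalIntegral.integral_congr
        intro s hs
        rw [uIcc_of_le ht] at hs
        exact hb0 s hs.2
      rw [this]
      simp
    simp only [hβ, this]
    simp
  have hβ1 : ∀ t, 1 ≤ t → β t = 0 := by
    intro t ht
    have h2 : ∫ s in (1:ℝ)..t, b s = 0 := by
      have : ∫ s in (1:ℝ)..t, b s = ∫ s in (1:ℝ)..t, (0:ℝ) := by
        apply intervalIntegral.integral_congr
        intro s hs
        rw [uIcc_of_le ht] at hs
        exact hb1 s hs.1
      rw [this]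
      simp
    have h3 : ∫ s in (0:ℝ)..t, b s = I := by
      rw [← intervalIntegral.integral_add_adjacent_intervals
        (hbc.intervalIntegrable 0 1) (hbc.intervalIntegrable 1 t), h2, add_zero]
    simp only [hβ, h3, div_self hIpos.ne', sub_self]
  have hsm : ContDiff ℝ ∞ β := by
    rw [show (∞ : ℕ∞ω) = ∞ + 1 from rfl, contDiff_succ_iff_deriv]
    refine ⟨fun t => (hderiv t).differentiableAt, fun h => absurd h (by decide), ?_⟩
    rw [hderiv']
    exact (b_contDiff.div_const I).neg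
  have hβle : ∀ t, |β t| ≤ 1 := by
    intro t
    have anti : Antitone β := antitone_of_deriv_nonpos (fun t => (hderiv t).differentiableAt)
      (fun t => by rw [hderiv']; simp only [Left.neg_nonpos_iff]; exact div_nonneg (hbn t) hIpos.le)
    have h1 : β t ≤ 1 := by
      rcases le_total t 0 with h | h
      · rw [hβ0 t h]
      · rw [← hβ0 0 le_rfl]; exact anti h
    have h0 : 0 ≤ β t := by
      rcases le_total t 1 with h | h
      · rw [← hβ1 1 le_rfl]; exact anti h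
      · rw [hβ1 t h]
    rw [abs_of_nonneg h0]
    exact h1
  refine ⟨β, hsm, hβ0, hβ1, max 14 I⁻¹, le_max_of_le_left (by norm_num), ?_⟩
  set C := max 14 I⁻¹ with hC
  have hC14 : 14 ≤ C := le_max_left _ _
  have hCI : I⁻¹ ≤ C := le_max_right _ _
  intro j t
  cases j with
  | zero =>
    simp only [iteratedDeriv_zero, Nat.factorial_zero, Nat.cast_one, Real.one_rpow, zero_add,
      pow_one, mul_one]
    linarith [hβle t]
  | succ j =>
    rw [iteratedDeriv_succ', hderiv']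
    have h1 : (fun t => -(b t / I)) = fun t => (-I⁻¹) * b t := by
      funext t
      rw [div_eq_mul_inv]
      ring
    rw [h1, iteratedDeriv_const_mul_field, abs_mul, abs_neg, abs_of_pos (inv_pos.2 hIpos)]
    have h2 := b_bound j t
    have h3 : ((j + 1 : ℕ) : ℝ) ≤ 2 ^ j := by
      exact_mod_cast Nat.lt_two_pow_self (n := j)
    push_cast at h3
    have h4 : (j ! : ℝ) ≤ ((j + 1)! : ℝ) := by exact_mod_cast Nat.factorial_le (Nat.le_succ j)
    calc I⁻¹ * |iteratedDeriv j b t| ≤ C * ((j + 1) * 7 ^ j * (j ! : ℝ) ^ (3 / 2 : ℝ)) := by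
          gcongr
      _ ≤ C * (2 ^ j * 7 ^ j * ((j + 1)! : ℝ) ^ (3 / 2 : ℝ)) := by gcongr
      _ = C * (14 ^ j * ((j + 1)! : ℝ) ^ (3 / 2 : ℝ)) := by
          rw [← mul_pow]
          norm_num
      _ ≤ C * (C ^ j * ((j + 1)! : ℝ) ^ (3 / 2 : ℝ)) := by gcongr
      _ = C ^ (j + 1) * ((j + 1)! : ℝ) ^ (3 / 2 : ℝ) := by ring
      _ ≤ C ^ (j + 1 + 1) * ((j + 1)! : ℝ) ^ (3 / 2 : ℝ) := by
          gcongr
          · linarith
          · omega

end Pool.Agent.Lib.MP_79abb3_an
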