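import Mathlib

/-!
The heat semigroup on the line, written with a standard Gaussian variable.
-/

set_option autoImplicit false
set_option linter.unusedSectionVars false
set_option linter.unusedVariables false

open MeasureTheory Set Filter Topology Real ProbabilityTheory Function

namespace Pool.Agent.Lib.MP_79abb3_an

/-- The standard Gaussian measure. -/
noncomputable abbrev γ : Measure ℝ := gaussianReal 0 1

theorem integrable_exp_abs (c : ℝ) : Integrable (fun x => exp (c * |x|)) γ := by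
  have h1 : Integrable (fun x => exp (c * x)) γ := integrable_exp_mul_gaussianReal c
  have h2 : Integrable (fun x => exp (-c * x)) γ := integrable_exp_mul_gaussianReal (-c)
  refine (h1.add h2).mono' (by fun_prop) (ae_of_all _ fun x => ?_)
  rw [Real.norm_eq_abs, abs_of_pos (exp_pos _)]
  show exp (c * |x|) ≤ exp (c * x) + exp (-c * x)
  rcases le_total 0 x with h | h
  · rw [abs_of_nonneg h]
    linarith [exp_pos (-c * x)]
  · rw [abs_of_nonpos h, show c * -x = -c * x by ring]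
    linarith [exp_pos (c * x)]

/-- The basic constant. -/
noncomputable def cE : ℝ := ∫ x, exp (5 * |x|) ∂γ

theorem one_le_cE : 1 ≤ cE := by
  have h : ∫ _x : ℝ, (1:ℝ) ∂γ ≤ cE := by
    refine integral_mono (integrable_const _) (integrable_exp_abs 5) fun x => ?_
    have : (0:ℝ) ≤ 5 * |x| := by positivity
    exact one_le_exp this
  simpa using h

theorem cE_pos : 0 < cE := lt_of_lt_of_le one_pos one_le_cE

theorem integrable_of_le {f : ℝ → ℝ} (hf : AEStronglyMeasurable f γ) {C : ℝ}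
    (h : ∀ x, |f x| ≤ C * exp (5 * |x|)) : Integrable f γ :=
  ((integrable_exp_abs 5).const_mul C).mono' hf (ae_of_all _ fun x => by simpa using h x)

theorem abs_integral_le {f : ℝ → ℝ} {C : ℝ}
    (h : ∀ x, |f x| ≤ C * exp (5 * |x|)) : |∫ x, f x ∂γ| ≤ C * cE := by
  have := norm_integral_le_of_norm_le (f := f) ((integrable_exp_abs 5).const_mul C)
    (ae_of_all _ fun x => by simpa using h x)
  rw [integral_const_mul] at this
  simpa [cE] using this

theorem abs_le_exp_abs (x : ℝ) : |x| ≤ exp |x| := by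
  have := add_one_le_exp |x|
  linarith

theorem abs_add_one_le (x : ℝ) : |x| + 1 ≤ exp |x| := add_one_le_exp |x|

/-- Cameron-Martin. -/
theorem cm (F : ℝ → ℝ) (b : ℝ) :
    ∫ x, F (x + b) ∂γ = ∫ x, F x * exp (b * x - b ^ 2 / 2) ∂γ := by
  rw [integral_gaussianReal_eq_integral_smul one_ne_zero,
    integral_gaussianReal_eq_integral_smul one_ne_zero]
  have h := integral_add_right_eq_self (μ := (volume : Measure ℝ))
    (fun x => gaussianPDFReal 0 1 (x - b) • F x) b
  simp only [add_sub_cancel_right] at h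
  rw [h]
  congr 1
  ext x
  simp only [gaussianPDFReal, smul_eq_mul, sub_zero, NNReal.coe_one, mul_one]
  have : rexp (-(x - b) ^ 2 / 2) = rexp (-x ^ 2 / 2) * exp (b * x - b ^ 2 / 2) := by
    rw [← exp_add]; congr 1; ring
  rw [this]; ring

/-- Gaussian average at scale `a`. -/
noncomputable def Ga (a : ℝ) (f : ℝ → ℝ) (y : ℝ) : ℝ := ∫ x, f (y + a * x) ∂γ

/-- First Gaussian moment at scale `a`. -/
noncomputable def Gd (a : ℝ) (f : ℝ → ℝ) (y : ℝ) : ℝ := ∫ x, x * f (y + a * x) ∂γ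

/-- Continuous with at most exponential growth. -/
structure Gr (C : ℝ) (f : ℝ → ℝ) : Prop where
  cont : Continuous f
  bd : ∀ y, |f y| ≤ C * exp |y|

theorem Gr.nonneg {C : ℝ} {f : ℝ → ℝ} (h : Gr C f) : 0 ≤ C := by
  have h1 := h.bd 0
  have h2 := abs_nonneg (f 0)
  simp at h1
  linarith

theorem abs_shift_le {a : ℝ} (ha : |a| ≤ 3) (y x : ℝ) : |y + a * x| ≤ |y| + 3 * |x| := by
  calc |y + a * x| ≤ |y| + |a * x| := abs_add_le _ _
    _ = |y| + |a| * |x| := by rw [abs_mul]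
    _ ≤ |y| + 3 * |x| := by gcongr

theorem Gr.shift {C : ℝ} {f : ℝ → ℝ} (h : Gr C f) {a : ℝ} (ha : |a| ≤ 3) (y x : ℝ) :
    |f (y + a * x)| ≤ C * exp |y| * exp (3 * |x|) := by
  refine (h.bd _).trans ?_
  rw [mul_assoc, ← exp_add]
  have := h.nonneg
  gcongr
  exact abs_shift_le ha y x

theorem Gr.shift5 {C : ℝ} {f : ℝ → ℝ} (h : Gr C f) {a : ℝ} (ha : |a| ≤ 3) (y x : ℝ) :
    |f (y + a * x)| ≤ C * exp |y| * exp (5 * |x|) := by
  refine (h.shift ha y x).trans ?_
  have := h.nonneg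
  gcongr
  norm_num

theorem Gr.shift5' {C : ℝ} {f : ℝ → ℝ} (h : Gr C f) {a : ℝ} (ha : |a| ≤ 3) (y x : ℝ) :
    |x * f (y + a * x)| ≤ C * exp |y| * exp (5 * |x|) := by
  rw [abs_mul]
  have h1 := h.shift ha y x
  have h2 := abs_le_exp_abs x
  have := h.nonneg
  calc |x| * |f (y + a * x)| ≤ exp |x| * (C * exp |y| * exp (3 * |x|)) := by gcongr
    _ = C * exp |y| * (exp |x| * exp (3 * |x|)) := by ring
    _ = C * exp |y| * exp (|x| + 3 * |x|) := by rw [← exp_add]
    _ ≤ C * exp |y| * exp (5 * |x|) := by gcongr; linarith [abs_nonneg x]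

theorem Gr.integrable {C : ℝ} {f : ℝ → ℝ} (h : Gr C f) {a : ℝ} (ha : |a| ≤ 3) (y : ℝ) :
    Integrable (fun x => f (y + a * x)) γ :=
  integrable_of_le (by have := h.cont; fun_prop) (h.shift5 ha y)

theorem Gr.integrable' {C : ℝ} {f : ℝ → ℝ} (h : Gr C f) {a : ℝ} (ha : |a| ≤ 3) (y : ℝ) :
    Integrable (fun x => x * f (y + a * x)) γ :=
  integrable_of_le (by have := h.cont; fun_prop) (h.shift5' ha y)

theorem Gr.abs_Ga {C : ℝ} {f : ℝ → ℝ} (h : Gr C f) {a : ℝ} (ha : |a| ≤ 3) (y : ℝ) :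
    |Ga a f y| ≤ C * exp |y| * cE := abs_integral_le (h.shift5 ha y)

theorem Gr.abs_Gd {C : ℝ} {f : ℝ → ℝ} (h : Gr C f) {a : ℝ} (ha : |a| ≤ 3) (y : ℝ) :
    |Gd a f y| ≤ C * exp |y| * cE := abs_integral_le (h.shift5' ha y)

/-- Space derivative of the Gaussian average. -/
theorem Gr.hasDerivAt_Ga {C : ℝ} {f : ℝ → ℝ} (h : Gr C f) {a : ℝ} (ha : |a| ≤ 3) (ha0 : a ≠ 0)
    (y : ℝ) : HasDerivAt (Ga a f) (a⁻¹ * Gd a f y) y := by
  have key : HasDerivAt (fun b => ∫ x, f (y + a * x) * exp (b * x - b ^ 2 / 2) ∂γ)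
      (∫ x, f (y + a * x) * ((x - 0) * exp (0 * x - 0 ^ 2 / 2)) ∂γ) 0 := by
    have hC := h.nonneg
    have hc := h.cont
    refine (hasDerivAt_integral_of_dominated_loc_of_deriv_le
      (μ := γ) (F := fun b x => f (y + a * x) * exp (b * x - b ^ 2 / 2))
      (F' := fun b x => f (y + a * x) * ((x - b) * exp (b * x - b ^ 2 / 2)))
      (bound := fun x => C * exp |y| * exp (5 * |x|))
      (s := Metric.ball 0 1) (Metric.ball_mem_nhds _ one_pos) ?_ ?_ ?_ ?_ ?_ ?_).2
    · exact Eventually.of_forall fun b => by fun_prop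
    · simpa using h.integrable ha y
    · fun_prop
    · refine ae_of_all _ fun x b hb => ?_
      rw [Metric.mem_ball, dist_zero_right, Real.norm_eq_abs] at hb
      rw [Real.norm_eq_abs, abs_mul, abs_mul, abs_of_pos (exp_pos _)]
      have h1 := h.shift ha y x
      have h2 : |x - b| ≤ exp |x| := by
        calc |x - b| ≤ |x| + |b| := abs_sub _ _
          _ ≤ |x| + 1 := by gcongr
          _ ≤ exp |x| := abs_add_one_le x
      have h3 : exp (b * x - b ^ 2 / 2) ≤ exp |x| := by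
        gcongr
        have : b * x ≤ |x| := by
          calc b * x ≤ |b * x| := le_abs_self _
            _ = |b| * |x| := abs_mul _ _
            _ ≤ 1 * |x| := by gcongr
            _ = |x| := one_mul _
        nlinarith [sq_nonneg b]
      calc |f (y + a * x)| * (|x - b| * exp (b * x - b ^ 2 / 2))
          ≤ (C * exp |y| * exp (3 * |x|)) * (exp |x| * exp |x|) := by gcongr
        _ = C * exp |y| * exp (5 * |x|) := by
            rw [mul_assoc, ← exp_add, ← exp_add]; ring_nf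
    · exact (integrable_exp_abs 5).const_mul _
    · refine ae_of_all _ fun x b hb => ?_
      have : HasDerivAt (fun b : ℝ => exp (b * x - b ^ 2 / 2))
          ((x - b) * exp (b * x - b ^ 2 / 2)) b := by
        have h1 : HasDerivAt (fun b : ℝ => b * x - b ^ 2 / 2) (x - b) b := by
          have := ((hasDerivAt_id b).mul_const x).sub ((hasDerivAt_pow 2 b).div_const 2)
          refine this.congr_deriv ?_
          simp
        have := h1.exp
        rwa [mul_comm] at this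
      exact this.const_mul _
  have e1 : (∫ x, f (y + a * x) * ((x - 0) * exp (0 * x - 0 ^ 2 / 2)) ∂γ) = Gd a f y := by
    unfold Gd
    congr 1; ext x; simp; ring
  rw [e1] at key
  have e2 : Ga a f = fun z => (fun b => ∫ x, f (y + a * x) * exp (b * x - b ^ 2 / 2) ∂γ)
      ((z - y) / a) := by
    ext z
    show Ga a f z = ∫ x, f (y + a * x) * exp ((z - y) / a * x - ((z - y) / a) ^ 2 / 2) ∂γ
    rw [← cm (fun x => f (y + a * x)) ((z - y) / a)]
    unfold Ga
    congr 1; ext x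
    congr 1
    field_simp
    ring
  rw [e2]
  have h3 : HasDerivAt (fun z => (z - y) / a) (a⁻¹) y := by
    have := ((hasDerivAt_id y).sub_const y).div_const a
    simpa [one_div] using this
  have h4 : HasDerivAt (fun b => ∫ x, f (y + a * x) * exp (b * x - b ^ 2 / 2) ∂γ) (Gd a f y)
      ((y - y) / a) := by simpa using key
  have := h4.comp y h3
  rwa [mul_comm] at this

/-- Space derivative, for differentiable functions. -/
theorem hasDerivAt_Ga' {C C' : ℝ} {F f : ℝ → ℝ} (hF : Gr C F) (h : Gr C' f)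
    (hd : ∀ y, HasDerivAt F (f y) y) {a : ℝ} (ha : |a| ≤ 3)
    (y : ℝ) : HasDerivAt (Ga a F) (Ga a f y) y := by
  have hC := h.nonneg
  have hc := h.cont
  have hcF := hF.cont
  refine (hasDerivAt_integral_of_dominated_loc_of_deriv_le
      (μ := γ) (F := fun z x => F (z + a * x))
      (F' := fun z x => f (z + a * x))
      (bound := fun x => C' * exp (|y| + 1) * exp (5 * |x|))
      (s := Metric.ball y 1) (Metric.ball_mem_nhds _ one_pos) ?_ ?_ ?_ ?_ ?_ ?_).2
  · exact Eventually.of_forall fun b => by fun_prop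
  · exact hF.integrable ha y
  · fun_prop
  · refine ae_of_all _ fun x z hz => ?_
    rw [Metric.mem_ball, Real.dist_eq] at hz
    rw [Real.norm_eq_abs]
    refine (h.shift5 ha z x).trans ?_
    have : |z| ≤ |y| + 1 := by
      have := abs_sub_abs_le_abs_sub z y
      linarith
    gcongr
  · exact (integrable_exp_abs 5).const_mul _
  · refine ae_of_all _ fun x z hz => ?_
    have := (hd (z + a * x)).comp z ((hasDerivAt_id z).add_const (a * x))
    rw [mul_one] at this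
    exact this

theorem Gd_eq {C C' : ℝ} {F f : ℝ → ℝ} (hF : Gr C F) (h : Gr C' f)
    (hd : ∀ y, HasDerivAt F (f y) y) {a : ℝ} (ha : |a| ≤ 3) (ha0 : a ≠ 0)
    (y : ℝ) : a⁻¹ * Gd a F y = Ga a f y :=
  (hF.hasDerivAt_Ga ha ha0 y).unique (hasDerivAt_Ga' hF h hd ha y)

/-- Derivative in the scale. -/
theorem hasDerivAt_scale {C C' : ℝ} {F f : ℝ → ℝ} (hF : Gr C F) (h : Gr C' f)
    (hd : ∀ y, HasDerivAt F (f y) y) {a : ℝ} (ha : |a| < 3)
    (y : ℝ) : HasDerivAt (fun a => Ga a F y) (Gd a f y) a := by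
  have hC := h.nonneg
  have hc := h.cont
  have hcF := hF.cont
  have hn : {b : ℝ | |b| < 3} ∈ 𝓝 a := by
    have : IsOpen {b : ℝ | |b| < 3} := isOpen_lt continuous_abs continuous_const
    exact this.mem_nhds ha
  refine (hasDerivAt_integral_of_dominated_loc_of_deriv_le
      (μ := γ) (F := fun b x => F (y + b * x))
      (F' := fun b x => x * f (y + b * x))
      (bound := fun x => C' * exp |y| * exp (5 * |x|))
      (s := {b : ℝ | |b| < 3}) hn ?_ ?_ ?_ ?_ ?_ ?_).2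
  · exact Eventually.of_forall fun b => by fun_prop
  · exact hF.integrable ha.le y
  · fun_prop
  · refine ae_of_all _ fun x b hb => ?_
    rw [Real.norm_eq_abs]
    exact h.shift5' (le_of_lt hb) y x
  · exact (integrable_exp_abs 5).const_mul _
  · refine ae_of_all _ fun x b hb => ?_
    have h1 : HasDerivAt (fun b : ℝ => y + b * x) x b := by
      simpa using ((hasDerivAt_id b).mul_const x).const_add y
    have := (hd (y + b * x)).comp b h1
    rwa [mul_comm] at this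

/-- Continuity of Gaussian integrals with parameters. -/
theorem continuousOn_gauss {X : Type*} [TopologicalSpace X] [FirstCountableTopology X]
    {s : Set X} {F : X → ℝ → ℝ} {C : ℝ} (hF : ∀ x, ContinuousOn (fun p => F p x) s)
    (hm : ∀ p ∈ s, Continuous (F p)) (hb : ∀ p ∈ s, ∀ x, |F p x| ≤ C * exp (5 * |x|)) :
    ContinuousOn (fun p => ∫ x, F p x ∂γ) s :=
  continuousOn_of_dominated (bound := fun x => C * exp (5 * |x|))
    (fun p hp => (hm p hp).aestronglyMeasurable)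
    (fun p hp => ae_of_all _ fun x => by simpa using hb p hp x)
    ((integrable_exp_abs 5).const_mul _) (ae_of_all _ hF)

theorem Gr.continuousOn_Ga {C : ℝ} {f : ℝ → ℝ} (h : Gr C f) (R : ℝ) :
    ContinuousOn (fun p : ℝ × ℝ => Ga p.1 f p.2) {p | |p.1| ≤ 3 ∧ |p.2| ≤ R} := by
  have hc := h.cont
  have hC := h.nonneg
  refine continuousOn_gauss (C := C * exp R) (fun x => by fun_prop) (fun p _ => by fun_prop)
    fun p hp x => ?_
  refine (h.shift5 hp.1 p.2 x).trans ?_
  have := hp.2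
  gcongr

theorem Gr.continuousOn_Gd {C : ℝ} {f : ℝ → ℝ} (h : Gr C f) (R : ℝ) :
    ContinuousOn (fun p : ℝ × ℝ => Gd p.1 f p.2) {p | |p.1| ≤ 3 ∧ |p.2| ≤ R} := by
  have hc := h.cont
  have hC := h.nonneg
  refine continuousOn_gauss (C := C * exp R) (fun x => by fun_prop) (fun p _ => by fun_prop)
    fun p hp x => ?_
  refine (h.shift5' hp.1 p.2 x).trans ?_
  have := hp.2
  gcongr

theorem continuousOn_of_strips {F : ℝ × ℝ → ℝ} {s : Set ℝ}
    (h : ∀ R, ContinuousOn F {p | p.1 ∈ s ∧ |p.2| ≤ R}) :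
    ContinuousOn F (s ×ˢ (univ : Set ℝ)) := by
  intro p hp
  have h1 := h (|p.2| + 1) p ⟨hp.1, by linarith⟩
  refine h1.mono_of_mem_nhdsWithin ?_
  have h2 : {q : ℝ × ℝ | |q.2| < |p.2| + 1} ∈ 𝓝 p :=
    (isOpen_lt (continuous_abs.comp continuous_snd) continuous_const).mem_nhds (by
      show |p.2| < |p.2| + 1; linarith)
  filter_upwards [self_mem_nhdsWithin, mem_nhdsWithin_of_mem_nhds h2] with q hq1 hq2
  exact ⟨hq1.1, le_of_lt hq2⟩

/-- Inverse square root. -/
theorem isq_eq (r : ℝ) : (√r)⁻¹ = r ^ (-(1/2) : ℝ) := by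
  rcases le_or_gt 0 r with hr | hr
  · rw [sqrt_eq_rpow, rpow_neg hr]
  · rw [sqrt_eq_zero_of_nonpos hr.le, rpow_def_of_neg hr]
    have : cos (-(1/2) * π) = 0 := by
      rw [show -(1/2) * π = -(π/2) by ring, cos_neg, cos_pi_div_two]
    rw [this]; simp

theorem intervalIntegrable_isq (a b : ℝ) :
    IntervalIntegrable (fun r : ℝ => (√r)⁻¹) volume a b := by
  simp_rw [isq_eq]
  exact intervalIntegral.intervalIntegrable_rpow' (by norm_num)

theorem integral_isq {t : ℝ} (ht : 0 ≤ t) : ∫ r in (0:ℝ)..t, (√r)⁻¹ = 2 * √t := by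
  simp_rw [isq_eq]
  rw [integral_rpow (Or.inl (by norm_num)), sqrt_eq_rpow]
  norm_num
  ring

/-- The heat semigroup. -/
noncomputable def H (t : ℝ) (f : ℝ → ℝ) (y : ℝ) : ℝ := Ga √(2 * t) f y

/-- Its space derivative. -/
noncomputable def Dh (t : ℝ) (f : ℝ → ℝ) (y : ℝ) : ℝ := (√(2 * t))⁻¹ * Gd √(2 * t) f y

theorem H_zero (f : ℝ → ℝ) (y : ℝ) : H 0 f y = f y := by simp [H, Ga]

theorem sq_le {t : ℝ} (ht : t ≤ 1) : |√(2 * t)| ≤ 3 := by
  rw [abs_of_nonneg (sqrt_nonneg _)]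
  refine sqrt_le_iff.2 ⟨by norm_num, by linarith⟩

theorem sq_lt {t : ℝ} (ht : t ≤ 1) : |√(2 * t)| < 3 := by
  rw [abs_of_nonneg (sqrt_nonneg _)]
  rw [sqrt_lt' (by norm_num)]
  linarith

theorem sq_ne {t : ℝ} (ht : 0 < t) : √(2 * t) ≠ 0 := (sqrt_pos.2 (by linarith)).ne'

theorem Gr.abs_H {C : ℝ} {f : ℝ → ℝ} (h : Gr C f) {t : ℝ} (ht : t ≤ 1) (y : ℝ) :
    |H t f y| ≤ C * exp |y| * cE := h.abs_Ga (sq_le ht) y

theorem isq2_le {t : ℝ} : (√(2 * t))⁻¹ ≤ (√t)⁻¹ := by
  rcases le_or_gt t 0 with h | h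
  · rw [sqrt_eq_zero_of_nonpos h, sqrt_eq_zero_of_nonpos (by linarith)]
  · have : 0 < √t := sqrt_pos.2 h
    gcongr
    linarith

theorem Gr.abs_Dh {C : ℝ} {f : ℝ → ℝ} (h : Gr C f) {t : ℝ} (ht : t ≤ 1) (y : ℝ) :
    |Dh t f y| ≤ (√t)⁻¹ * (C * exp |y| * cE) := by
  rw [Dh, abs_mul, abs_of_nonneg (by positivity : 0 ≤ (√(2 * t))⁻¹)]
  have h1 := h.abs_Gd (sq_le ht) y
  have h2 := isq2_le (t := t)
  have h3 : 0 ≤ (√t)⁻¹ := by positivity
  gcongr

theorem Gr.hasDerivAt_H {C : ℝ} {f : ℝ → ℝ} (h : Gr C f) {t : ℝ} (ht : t ≤ 1) (h0 : 0 < t)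
    (y : ℝ) : HasDerivAt (H t f) (Dh t f y) y :=
  h.hasDerivAt_Ga (sq_le ht) (sq_ne h0) y

theorem hasDerivAt_H' {C C' : ℝ} {F f : ℝ → ℝ} (hF : Gr C F) (h : Gr C' f)
    (hd : ∀ y, HasDerivAt F (f y) y) {t : ℝ} (ht : t ≤ 1)
    (y : ℝ) : HasDerivAt (H t F) (H t f y) y :=
  hasDerivAt_Ga' hF h hd (sq_le ht) y

theorem Dh_eq {C C' : ℝ} {F f : ℝ → ℝ} (hF : Gr C F) (h : Gr C' f)
    (hd : ∀ y, HasDerivAt F (f y) y) {t : ℝ} (ht : t ≤ 1) (h0 : 0 < t)
    (y : ℝ) : Dh t F y = H t f y :=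
  Gd_eq hF h hd (sq_le ht) (sq_ne h0) y

theorem hasDerivAt_time {C C' : ℝ} {F f : ℝ → ℝ} (hF : Gr C F) (h : Gr C' f)
    (hd : ∀ y, HasDerivAt F (f y) y) {t : ℝ} (ht : t ≤ 1) (h0 : 0 < t)
    (y : ℝ) : HasDerivAt (fun t => H t F y) (Dh t f y) t := by
  have h1 := hasDerivAt_scale hF h hd (sq_lt ht) y
  have h2 : HasDerivAt (fun t => √(2 * t)) ((√(2 * t))⁻¹) t := by
    have h3 : HasDerivAt (fun t : ℝ => 2 * t) 2 t := by
      simpa using (hasDerivAt_id t).const_mul (2:ℝ)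
    have := h3.sqrt (by positivity)
    refine this.congr_deriv ?_
    have := sq_ne h0
    field_simp
  have := h1.comp t h2
  rw [mul_comm] at this
  exact this

theorem Gr.continuousOn_H {C : ℝ} {f : ℝ → ℝ} (h : Gr C f) :
    ContinuousOn (fun p : ℝ × ℝ => H p.1 f p.2) (Iic 1 ×ˢ univ) := by
  refine continuousOn_of_strips fun R => ?_
  refine (h.continuousOn_Ga R).comp (f := fun p : ℝ × ℝ => (√(2 * p.1), p.2))
    (by fun_prop) fun p hp => ⟨sq_le hp.1, hp.2⟩

theorem Gr.continuousOn_Gd' {C : ℝ} {f : ℝ → ℝ} (h : Gr C f) :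
    ContinuousOn (fun p : ℝ × ℝ => Gd √(2 * p.1) f p.2) (Iic 1 ×ˢ univ) := by
  refine continuousOn_of_strips fun R => ?_
  refine (h.continuousOn_Gd R).comp (f := fun p : ℝ × ℝ => (√(2 * p.1), p.2))
    (by fun_prop) fun p hp => ⟨sq_le hp.1, hp.2⟩

theorem Gr.continuousOn_Dh {C : ℝ} {f : ℝ → ℝ} (h : Gr C f) :
    ContinuousOn (fun p : ℝ × ℝ => Dh p.1 f p.2) (Ioc 0 1 ×ˢ univ) := by
  unfold Dh
  refine ContinuousOn.mul ?_ (h.continuousOn_Gd'.mono (by gcongr; exact fun x hx => hx.2))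
  refine ContinuousOn.inv₀ (by fun_prop) fun p hp => sq_ne hp.1.1

theorem Gr.continuousOn_Dh_time {C : ℝ} {f : ℝ → ℝ} (h : Gr C f) (y : ℝ) :
    ContinuousOn (fun t : ℝ => Dh t f y) (Ioc 0 1) :=
  h.continuousOn_Dh.comp (f := fun t => (t, y)) (by fun_prop) fun t ht => ⟨ht, mem_univ _⟩

theorem Gr.intervalIntegrable_Dh {C : ℝ} {f : ℝ → ℝ} (h : Gr C f) {a t : ℝ} (ha : 0 ≤ a)
    (hat : a ≤ t) (ht : t ≤ 1) (y : ℝ) :
    IntervalIntegrable (fun r => Dh r f y) volume a t := by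
  rw [intervalIntegrable_iff_integrableOn_Ioc_of_le hat]
  have h1 : IntegrableOn (fun r : ℝ => (√r)⁻¹ * (C * exp |y| * cE)) (Ioc a t) := by
    have := (intervalIntegrable_isq a t).mul_const (C * exp |y| * cE)
    rwa [intervalIntegrable_iff_integrableOn_Ioc_of_le hat] at this
  refine h1.mono' ?_ ?_
  · refine ContinuousOn.aestronglyMeasurable ?_ measurableSet_Ioc
    exact (h.continuousOn_Dh_time y).mono fun r hr => ⟨by linarith [hr.1], by linarith [hr.2]⟩
  · rw [ae_restrict_iff' measurableSet_Ioc]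
    refine ae_of_all _ fun r hr => ?_
    exact h.abs_Dh (by linarith [hr.2]) y

/-- The heat identity, integrated in time. -/
theorem H_sub {C C' : ℝ} {F f : ℝ → ℝ} (hF : Gr C F) (h : Gr C' f)
    (hd : ∀ y, HasDerivAt F (f y) y) {t : ℝ} (ht : t ≤ 1) (h0 : 0 ≤ t)
    (y : ℝ) : H t F y = F y + ∫ r in (0:ℝ)..t, Dh r f y := by
  rw [intervalIntegral.integral_eq_sub_of_hasDerivAt_of_le h0
    (f := fun t => H t F y) ?_ (fun r hr => hasDerivAt_time hF h hd (by linarith [hr.2]) hr.1 y)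
    (h.intervalIntegrable_Dh le_rfl h0 ht y), H_zero]
  · ring
  · exact hF.continuousOn_H.comp (f := fun t => (t, y)) (by fun_prop)
      fun r hr => ⟨by show r ≤ 1; linarith [hr.2], mem_univ _⟩

end Pool.Agent.Lib.MP_79abb3_an
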