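import Mathlib
import Pool.Agent.Lib.MP_79abb3_an.Heat

/-!
Taylor coefficients of the heat flow of a bounded odd function.
-/

set_option autoImplicit false

open MeasureTheory Set Filter Topology Real ProbabilityTheory Function

namespace Pool.Agent.Lib.MP_79abb3_an

theorem hasSum_exp' (x : ℝ) : HasSum (fun n : ℕ => x ^ n / (Nat.factorial n : ℝ)) (exp x) := by
  rw [Real.exp_eq_exp_ℝ]
  exact NormedSpace.expSeries_div_hasSum_exp x

theorem integrable_abs_exp_sq : Integrable (fun x : ℝ => |x| * exp (x ^ 2 / 4)) γ := by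
  have h1 : Integrable (fun x : ℝ => |x * exp (-(1/4 : ℝ) * x ^ 2)|) volume :=
    (integrable_mul_exp_neg_mul_sq (b := 1/4) (by norm_num)).abs
  show Integrable _ (gaussianReal 0 1)
  rw [gaussianReal_of_var_ne_zero 0 one_ne_zero,
    integrable_withDensity_iff_integrable_smul' (measurable_gaussianPDF 0 1)
      (ae_of_all _ fun _ => gaussianPDF_lt_top)]
  refine (h1.const_mul ((√(2 * π * 1))⁻¹)).congr (ae_of_all _ fun x => ?_)
  simp only [toReal_gaussianPDF, gaussianPDFReal, smul_eq_mul, sub_zero, NNReal.coe_one, mul_one]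
  rw [abs_mul, abs_of_pos (exp_pos _)]
  have : rexp (-(1/4 : ℝ) * x ^ 2) = rexp (-x ^ 2 / 2) * exp (x ^ 2 / 4) := by
    rw [← exp_add]; congr 1; ring
  rw [this]; ring

/-- The basic Gaussian moment constant. -/
noncomputable def cM : ℝ := ∫ x, |x| * exp (x ^ 2 / 4) ∂γ

theorem cM_nonneg : 0 ≤ cM := integral_nonneg fun x => by positivity

theorem integral_gamma_neg (f : ℝ → ℝ) : ∫ x, f (-x) ∂γ = ∫ x, f x ∂γ := by
  rw [integral_gaussianReal_eq_integral_smul one_ne_zero,
    integral_gaussianReal_eq_integral_smul one_ne_zero,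
    ← integral_neg_eq_self (fun x : ℝ => gaussianPDFReal 0 1 x • f x)]
  congr 1
  ext x
  simp [gaussianPDFReal]

theorem pow_div_le_exp_abs (z : ℝ) (n : ℕ) : |z ^ n / (Nat.factorial n : ℝ)| ≤ exp |z| := by
  rw [abs_div, abs_pow, Nat.abs_cast]
  exact Real.pow_div_factorial_le_exp _ (abs_nonneg _) n

/-- The power series of the Laplace transform. -/
theorem hasSum_laplace {F : ℝ → ℝ} {m : ℝ} (hF : Continuous F) (hm : ∀ x, |F x| ≤ m) (b : ℝ) :
    HasSum (fun n : ℕ => (∫ x, F x * x ^ n ∂γ) * b ^ n / (Nat.factorial n : ℝ))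
      (∫ x, F x * exp (b * x) ∂γ) := by
  have hm0 : 0 ≤ m := (abs_nonneg _).trans (hm 0)
  have hint : ∀ n : ℕ, Integrable (fun x => F x * ((b * x) ^ n / (Nat.factorial n : ℝ))) γ := by
    intro n
    refine ((integrable_exp_abs |b|).const_mul m).mono' (by fun_prop) (ae_of_all _ fun x => ?_)
    rw [norm_mul, Real.norm_eq_abs, Real.norm_eq_abs]
    have h := pow_div_le_exp_abs (b * x) n
    rw [abs_mul b x] at h
    exact mul_le_mul (hm x) h (abs_nonneg _) hm0
  have hsum : Summable fun n : ℕ => ∫ x, ‖F x * ((b * x) ^ n / (Nat.factorial n : ℝ))‖ ∂γ := by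
    refine summable_of_sum_range_le (c := ∫ x, m * exp (|b| * |x|) ∂γ)
      (fun n => integral_nonneg fun x => norm_nonneg _) fun N => ?_
    rw [← integral_finsetSum _ fun n _ => (hint n).norm]
    refine integral_mono (integrable_finsetSum _ fun n _ => (hint n).norm)
      ((integrable_exp_abs |b|).const_mul m) fun x => ?_
    show ∑ i ∈ Finset.range N, ‖F x * ((b * x) ^ i / (Nat.factorial i : ℝ))‖ ≤ m * exp (|b| * |x|)
    have h1 : ∀ i ∈ Finset.range N, ‖F x * ((b * x) ^ i / (Nat.factorial i : ℝ))‖ ≤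
        m * ((|b| * |x|) ^ i / (Nat.factorial i : ℝ)) := by
      intro i _
      rw [norm_mul, Real.norm_eq_abs, Real.norm_eq_abs, abs_div, abs_pow, abs_mul b x,
        Nat.abs_cast]
      exact mul_le_mul_of_nonneg_right (hm x) (by positivity)
    refine (Finset.sum_le_sum h1).trans ?_
    rw [← Finset.mul_sum]
    exact mul_le_mul_of_nonneg_left (Real.sum_le_exp_of_nonneg (by positivity) N) hm0
  have h := hasSum_integral_of_summable_integral_norm hint hsum
  have e1 : (fun n : ℕ => ∫ x, F x * ((b * x) ^ n / (Nat.factorial n : ℝ)) ∂γ) =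
      fun n : ℕ => (∫ x, F x * x ^ n ∂γ) * b ^ n / (Nat.factorial n : ℝ) := by
    funext n
    have : ∀ x : ℝ, F x * ((b * x) ^ n / (Nat.factorial n : ℝ)) =
        (F x * x ^ n) * (b ^ n / (Nat.factorial n : ℝ)) := fun x => by
      rw [mul_pow]; ring
    simp only [this]
    rw [integral_mul_const]
    ring
  have e2 : (fun x => ∑' n : ℕ, F x * ((b * x) ^ n / (Nat.factorial n : ℝ))) =
      fun x => F x * exp (b * x) := by
    funext x
    exact ((hasSum_exp' (b * x)).mul_left (F x)).tsum_eq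
  rw [e1] at h
  rw [e2] at h
  exact h

/-- Odd functions: only the odd powers occur. -/
theorem hasSum_laplace_odd {F : ℝ → ℝ} {m : ℝ} (hF : Continuous F) (hm : ∀ x, |F x| ≤ m)
    (hodd : ∀ x, F (-x) = -F x) (b : ℝ) :
    HasSum (fun r : ℕ => (∫ x, F x * x ^ (2 * r + 1) ∂γ) * b ^ (2 * r + 1) /
      (Nat.factorial (2 * r + 1) : ℝ)) (∫ x, F x * exp (b * x) ∂γ) := by
  have h := hasSum_laplace hF hm b
  have hinj : Injective (fun r : ℕ => 2 * r + 1) := fun a c hac => by
    simpa using hac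
  rw [← hinj.hasSum_iff (f := fun n : ℕ => (∫ x, F x * x ^ n ∂γ) * b ^ n /
    (Nat.factorial n : ℝ))] at h
  · exact h
  · intro n hn
    have he : Even n := by
      by_contra hcon
      rw [Nat.not_even_iff_odd] at hcon
      obtain ⟨r, hr⟩ := hcon
      exact hn ⟨r, hr.symm⟩
    have h1 := integral_gamma_neg (fun x => F x * x ^ n)
    have h2 : ∀ x : ℝ, F (-x) * (-x) ^ n = -(F x * x ^ n) := fun x => by
      rw [hodd, he.neg_pow]; ring
    simp only [h2] at h1
    rw [integral_neg] at h1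
    have h3 : ∫ x, F x * x ^ n ∂γ = 0 := by linarith
    simp only [h3]
    simp

/-- Gaussian moments. -/
theorem abs_moment_le {F : ℝ → ℝ} {m : ℝ} (hm : ∀ x, |F x| ≤ m) (r : ℕ) :
    |∫ x, F x * x ^ (2 * r + 1) ∂γ| ≤ m * 4 ^ r * Nat.factorial r * cM := by
  have hm0 : 0 ≤ m := (abs_nonneg _).trans (hm 0)
  have h1 := norm_integral_le_of_norm_le (μ := γ) (f := fun x : ℝ => F x * x ^ (2 * r + 1))
    (g := fun x => m * 4 ^ r * Nat.factorial r * (|x| * exp (x ^ 2 / 4)))
    (integrable_abs_exp_sq.const_mul _) (ae_of_all _ fun x => ?_)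
  · rw [integral_const_mul] at h1
    simpa [cM] using h1
  · have h2 : (x ^ 2 / 4) ^ r / (Nat.factorial r : ℝ) ≤ exp (x ^ 2 / 4) :=
      Real.pow_div_factorial_le_exp _ (by positivity) r
    have hfac : (0:ℝ) < Nat.factorial r := by exact_mod_cast Nat.factorial_pos r
    rw [div_le_iff₀ hfac, div_pow, ← pow_mul, div_le_iff₀ (by positivity)] at h2
    rw [norm_mul, norm_pow, Real.norm_eq_abs, Real.norm_eq_abs, pow_succ, pow_mul, sq_abs,
      ← pow_mul]
    calc |F x| * (x ^ (2 * r) * |x|) ≤ m * ((exp (x ^ 2 / 4) * Nat.factorial r * 4 ^ r) * |x|) := by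
          apply mul_le_mul (hm x) _ (mul_nonneg (by rw [pow_mul]; positivity) (abs_nonneg _)) hm0
          exact mul_le_mul_of_nonneg_right h2 (abs_nonneg _)
      _ = _ := by ring

theorem fac_sq_le (r : ℕ) : (Nat.factorial r : ℝ) * Nat.factorial r ≤ Nat.factorial (2 * r + 1) := by
  have h1 : Nat.factorial r * Nat.factorial r ≤ Nat.factorial (r + r) :=
    Nat.le_of_dvd (Nat.factorial_pos _) (Nat.factorial_mul_factorial_dvd_factorial_add r r)
  have h2 : Nat.factorial (r + r) ≤ Nat.factorial (2 * r + 1) := Nat.factorial_le (by omega)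
  exact_mod_cast h1.trans h2

theorem fac_odd_le (k : ℕ) : (Nat.factorial (2 * k + 1) : ℝ) ≤
    12 ^ k * ((Nat.factorial k : ℝ) * Nat.factorial k) := by
  induction k with
  | zero => simp
  | succ k ih =>
    have e : Nat.factorial (2 * (k + 1) + 1) = (2 * k + 3) * ((2 * k + 2) * Nat.factorial (2 * k + 1)) := by
      rw [show 2 * (k + 1) + 1 = (2 * k + 2) + 1 by ring, Nat.factorial_succ,
        show 2 * k + 2 = (2 * k + 1) + 1 by ring, Nat.factorial_succ]
    rw [e, Nat.factorial_succ k]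
    generalize Nat.factorial (2 * k + 1) = A at ih ⊢
    generalize Nat.factorial k = B at ih ⊢
    push_cast
    have h0 : (0:ℝ) ≤ (k:ℝ) := Nat.cast_nonneg k
    have h1 : (2 * (k:ℝ) + 3) * (2 * k + 2) ≤ 12 * ((k + 1) * (k + 1)) := by nlinarith
    calc (2 * (k:ℝ) + 3) * ((2 * k + 2) * A) =
        ((2 * (k:ℝ) + 3) * (2 * k + 2)) * A := by ring
      _ ≤ (12 * ((k + 1) * (k + 1))) * (12 ^ k * ((B : ℝ) * B)) := by
          gcongr
      _ = _ := by ring

theorem sum_binom_le (k : ℕ) : ∑ i ∈ Finset.range (k + 1),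
    (1 / 2 : ℝ) ^ i / (Nat.factorial i : ℝ) * (4 ^ (k - i) / (Nat.factorial (k - i) : ℝ)) =
    (9 / 2) ^ k / (Nat.factorial k : ℝ) := by
  have h := add_pow (1 / 2 : ℝ) 4 k
  rw [show (1 / 2 : ℝ) + 4 = 9 / 2 by norm_num] at h
  rw [h, Finset.sum_div]
  refine Finset.sum_congr rfl fun i hi => ?_
  have hik : i ≤ k := by
    have := Finset.mem_range.mp hi
    omega
  have hc := Nat.choose_mul_factorial_mul_factorial hik
  have hc' : (k.choose i : ℝ) * Nat.factorial i * Nat.factorial (k - i) = Nat.factorial k := by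
    exact_mod_cast hc
  have p1 : (Nat.factorial i : ℝ) ≠ 0 := by exact_mod_cast (Nat.factorial_pos i).ne'
  have p2 : (Nat.factorial (k - i) : ℝ) ≠ 0 := by exact_mod_cast (Nat.factorial_pos _).ne'
  have p3 : (Nat.factorial k : ℝ) ≠ 0 := by exact_mod_cast (Nat.factorial_pos k).ne'
  rw [div_mul_div_comm, div_eq_div_iff (mul_ne_zero p1 p2) p3, ← hc']
  ring

theorem heat_coeff : ∃ C : ℝ, 1 ≤ C ∧ ∀ l ∈ Ioc (0:ℝ) 1, ∀ (m : ℝ) (e : ℝ → ℝ), Continuous e →
    (∀ y, e (-y) = -e y) → (∀ y, |e y| ≤ m) → ∃ c : ℕ → ℝ,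
    (∀ k, |c k| ≤ m * C * (√l)⁻¹ * (C / l) ^ k * Nat.factorial k) ∧
    ∀ y : ℝ, HasSum (fun k => c k * y ^ (2 * k + 1) / Nat.factorial (2 * k + 1)) (H l e y) := by
  refine ⟨max 27 cM, le_max_of_le_left (by norm_num), ?_⟩
  rintro l ⟨hl0, hl1⟩ m e he hodd hm
  have hm0 : 0 ≤ m := (abs_nonneg _).trans (hm 0)
  set s : ℝ := √(2 * l) with hs
  have hs0 : 0 < s := Real.sqrt_pos.mpr (by positivity)
  have hs2 : s ^ 2 = 2 * l := Real.sq_sqrt (by positivity)
  set F : ℝ → ℝ := fun x => e (s * x) with hF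
  have hFc : Continuous F := by fun_prop
  have hFm : ∀ x, |F x| ≤ m := fun x => hm _
  have hFo : ∀ x, F (-x) = -F x := fun x => by
    simp only [hF, mul_neg, hodd]
  set μ : ℕ → ℝ := fun r => ∫ x, F x * x ^ (2 * r + 1) ∂γ with hμ
  refine ⟨fun k => (Nat.factorial (2 * k + 1) : ℝ) * (s ^ (2 * k + 1))⁻¹ *
    ∑ i ∈ Finset.range (k + 1), (-(1 / 2 : ℝ)) ^ i / (Nat.factorial i : ℝ) *
      (μ (k - i) / (Nat.factorial (2 * (k - i) + 1) : ℝ)), ?_, ?_⟩
  · intro k
    have hfk : (0:ℝ) < Nat.factorial k := by exact_mod_cast Nat.factorial_pos k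
    have h1 : |∑ i ∈ Finset.range (k + 1), (-(1 / 2 : ℝ)) ^ i / (Nat.factorial i : ℝ) *
      (μ (k - i) / (Nat.factorial (2 * (k - i) + 1) : ℝ))| ≤
        m * cM * ((9 / 2) ^ k / (Nat.factorial k : ℝ)) := by
      rw [← sum_binom_le, Finset.mul_sum]
      refine (Finset.abs_sum_le_sum_abs _ _).trans (Finset.sum_le_sum fun i _ => ?_)
      generalize k - i = r
      have hr : (0:ℝ) < Nat.factorial r := by exact_mod_cast Nat.factorial_pos r
      have hr2 : (0:ℝ) < Nat.factorial (2 * r + 1) := by exact_mod_cast Nat.factorial_pos _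
      rw [abs_mul, abs_div, abs_pow, abs_neg, abs_of_pos (by norm_num : (0:ℝ) < 1 / 2),
        Nat.abs_cast, abs_div, Nat.abs_cast]
      have h2 : |μ r| / (Nat.factorial (2 * r + 1) : ℝ) ≤ m * cM * (4 ^ r / Nat.factorial r) := by
        have h3 := abs_moment_le hFm r
        have h4 := fac_sq_le r
        rw [div_le_iff₀ hr2]
        refine h3.trans ?_
        have h5 : (Nat.factorial r : ℝ) ≤ (Nat.factorial (2 * r + 1) : ℝ) / Nat.factorial r := by
          rw [le_div_iff₀ hr]; exact h4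
        calc m * 4 ^ r * Nat.factorial r * cM = m * cM * 4 ^ r * Nat.factorial r := by ring
          _ ≤ m * cM * 4 ^ r * ((Nat.factorial (2 * r + 1) : ℝ) / Nat.factorial r) := by
              have := cM_nonneg
              gcongr
          _ = _ := by ring
      calc (1 / 2 : ℝ) ^ i / (Nat.factorial i : ℝ) * (|μ r| / (Nat.factorial (2 * r + 1) : ℝ)) ≤
          (1 / 2 : ℝ) ^ i / (Nat.factorial i : ℝ) * (m * cM * (4 ^ r / Nat.factorial r)) := by
            gcongr
        _ = _ := by ring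
    have h2 : (s ^ (2 * k + 1))⁻¹ ≤ ((2 * l) ^ k)⁻¹ * (√l)⁻¹ := by
      rw [pow_succ, pow_mul, hs2, mul_inv]
      have h3 : √l ≤ s := Real.sqrt_le_sqrt (by linarith)
      have h4 : 0 < √l := Real.sqrt_pos.mpr hl0
      gcongr
    have hsl : 0 < √l := Real.sqrt_pos.mpr hl0
    show |(Nat.factorial (2 * k + 1) : ℝ) * (s ^ (2 * k + 1))⁻¹ * _| ≤ _
    rw [abs_mul, abs_of_nonneg (by positivity :
      0 ≤ (Nat.factorial (2 * k + 1) : ℝ) * (s ^ (2 * k + 1))⁻¹)]
    have hcM := cM_nonneg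
    calc (Nat.factorial (2 * k + 1) : ℝ) * (s ^ (2 * k + 1))⁻¹ * |∑ i ∈ Finset.range (k + 1),
          (-(1 / 2 : ℝ)) ^ i / (Nat.factorial i : ℝ) *
          (μ (k - i) / (Nat.factorial (2 * (k - i) + 1) : ℝ))| ≤
        (12 ^ k * ((Nat.factorial k : ℝ) * Nat.factorial k)) * (((2 * l) ^ k)⁻¹ * (√l)⁻¹) *
          (m * cM * ((9 / 2) ^ k / (Nat.factorial k : ℝ))) := by
          gcongr
          exact fac_odd_le k
      _ = m * cM * (√l)⁻¹ * (27 / l) ^ k * Nat.factorial k := by
          have e1 : (27 / l : ℝ) ^ k = 12 ^ k * ((2 * l) ^ k)⁻¹ * (9 / 2) ^ k := by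
            rw [← inv_pow, ← mul_pow, ← mul_pow]
            congr 1
            field_simp
            norm_num
          rw [e1]
          field_simp
      _ ≤ m * max 27 cM * (√l)⁻¹ * (max 27 cM / l) ^ k * Nat.factorial k := by
          gcongr
          · exact le_max_right _ _
          · exact le_max_left _ _
  · intro y
    set b : ℝ := y / s with hb
    have hby : s * b = y := by rw [hb]; field_simp
    have hH : H l e y = exp (-(b ^ 2 / 2)) * ∫ x, F x * exp (b * x) ∂γ := by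
      have h1 : H l e y = ∫ x, F (x + b) ∂γ := by
        show ∫ x, e (y + √(2 * l) * x) ∂γ = _
        congr 1
        ext x
        simp only [hF]
        rw [mul_add, hby, add_comm]
      rw [h1, cm, ← integral_const_mul]
      congr 1
      ext x
      rw [show b * x - b ^ 2 / 2 = -(b ^ 2 / 2) + b * x by ring, exp_add]
      ring
    have hf := hasSum_exp' (-(b ^ 2 / 2))
    have hg := hasSum_laplace_odd hFc hFm hFo b
    have hfn := hf.summable.norm
    have hgn := hg.summable.norm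
    have h := hasSum_sum_range_mul_of_summable_norm hfn hgn
    rw [hf.tsum_eq, hg.tsum_eq, ← hH] at h
    have key : ∀ k : ℕ, ∑ i ∈ Finset.range (k + 1), (-(b ^ 2 / 2)) ^ i / (Nat.factorial i : ℝ) *
        ((∫ x, F x * x ^ (2 * (k - i) + 1) ∂γ) * b ^ (2 * (k - i) + 1) /
          (Nat.factorial (2 * (k - i) + 1) : ℝ)) =
        (Nat.factorial (2 * k + 1) : ℝ) * (s ^ (2 * k + 1))⁻¹ *
          (∑ i ∈ Finset.range (k + 1), (-(1 / 2 : ℝ)) ^ i / (Nat.factorial i : ℝ) *
          (μ (k - i) / (Nat.factorial (2 * (k - i) + 1) : ℝ))) * y ^ (2 * k + 1) /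
          (Nat.factorial (2 * k + 1) : ℝ) := by
      intro k
      have hfk : (Nat.factorial (2 * k + 1) : ℝ) ≠ 0 := by
        exact_mod_cast (Nat.factorial_pos _).ne'
      have e1 : (Nat.factorial (2 * k + 1) : ℝ) * (s ^ (2 * k + 1))⁻¹ *
          (∑ i ∈ Finset.range (k + 1), (-(1 / 2 : ℝ)) ^ i / (Nat.factorial i : ℝ) *
          (μ (k - i) / (Nat.factorial (2 * (k - i) + 1) : ℝ))) * y ^ (2 * k + 1) /
          (Nat.factorial (2 * k + 1) : ℝ) = b ^ (2 * k + 1) *
          (∑ i ∈ Finset.range (k + 1), (-(1 / 2 : ℝ)) ^ i / (Nat.factorial i : ℝ) *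
          (μ (k - i) / (Nat.factorial (2 * (k - i) + 1) : ℝ))) := by
        rw [hb, div_pow]
        field_simp
      rw [e1, Finset.mul_sum]
      refine Finset.sum_congr rfl fun i hi => ?_
      have hik : i ≤ k := by
        have := Finset.mem_range.mp hi
        omega
      have e2 : b ^ (2 * k + 1) = (b ^ 2) ^ i * b ^ (2 * (k - i) + 1) := by
        rw [← pow_mul, ← pow_add]
        congr 1
        omega
      have e3 : (-(b ^ 2 / 2)) ^ i = (b ^ 2) ^ i * (-(1 / 2 : ℝ)) ^ i := by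
        rw [← mul_pow]
        congr 1
        ring
      rw [e2, e3]
      show _ = _ * _ * (_ * ((∫ x, F x * x ^ (2 * (k - i) + 1) ∂γ) / _))
      ring
    have h' : HasSum (fun k : ℕ => (Nat.factorial (2 * k + 1) : ℝ) * (s ^ (2 * k + 1))⁻¹ *
          (∑ i ∈ Finset.range (k + 1), (-(1 / 2 : ℝ)) ^ i / (Nat.factorial i : ℝ) *
          (μ (k - i) / (Nat.factorial (2 * (k - i) + 1) : ℝ))) * y ^ (2 * k + 1) /
          (Nat.factorial (2 * k + 1) : ℝ)) (H l e y) := by
      have := funext key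
      rw [← this]
      exact h
    exact h'

end Pool.Agent.Lib.MP_79abb3_an
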