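import Pool.Agent.Lib.MP_79abb3_an.Piece
import Pool.Agent.Lib.MP_79abb3_an.Gevrey
import Pool.Agent.Lib.MP_79abb3_an.HeatCoeff
import Pool.Agent.Lib.MP_79abb3_an.FlatSeries

/-!
One step of the local null controllability argument.
-/

set_option autoImplicit false
set_option linter.unusedSectionVars false
set_option linter.unusedVariables false

open MeasureTheory Set Filter Topology Real Function

namespace Pool.Agent.Lib.MP_79abb3_an

section odd1
variable {m m' m1 m1' : ℝ} {e e' r r' : ℝ → ℝ}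

theorem Odd1.ce (h : Odd1 m m' e e') : Continuous e :=
  continuous_iff_continuousAt.2 fun y => (h.d y).continuousAt

theorem Odd1.wt (h : Odd1 m m' e e') : Wt m 0 e :=
  ⟨h.ce, fun y => by simpa using h.b0 y⟩

theorem Odd1.wt' (h : Odd1 m m' e e') : Wt m' 0 e' :=
  ⟨h.c, fun y => by simpa using h.b1 y⟩

theorem Odd1.m0 (h : Odd1 m m' e e') : 0 ≤ m := (abs_nonneg _).trans (h.b0 0)
theorem Odd1.m0' (h : Odd1 m m' e e') : 0 ≤ m' := (abs_nonneg _).trans (h.b1 0)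

theorem Odd1.mono (h : Odd1 m m' e e') (h1 : m ≤ m1) (h2 : m' ≤ m1') : Odd1 m1 m1' e e' :=
  ⟨h.c, h.d, h.odd, fun y => (h.b0 y).trans h1, fun y => (h.b1 y).trans h2⟩

theorem Odd1.add (h : Odd1 m m' e e') (h' : Odd1 m1 m1' r r') :
    Odd1 (m + m1) (m' + m1') (fun y => e y + r y) (fun y => e' y + r' y) :=
  ⟨h.c.add h'.c, fun y => (h.d y).add (h'.d y), fun y => by rw [h.odd, h'.odd]; ring,
    fun y => (abs_add_le _ _).trans (add_le_add (h.b0 y) (h'.b0 y)),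
    fun y => (abs_add_le _ _).trans (add_le_add (h.b1 y) (h'.b1 y))⟩

theorem Wt.H_le {A : ℝ} {f : ℝ → ℝ} (h : Wt A 0 f) {t : ℝ} (ht : t ≤ 1) (y : ℝ) :
    |H t f y| ≤ A * cE := by
  simpa using h.abs_H le_rfl zero_le_one ht y

theorem Odd1.heat (h : Odd1 m m' e e') {t : ℝ} (ht : t ∈ Icc (0:ℝ) 1) :
    Odd1 (m * cE) (m' * cE) (H t e) (H t e') := by
  have g0 := h.wt.gr le_rfl
  have g1 := h.wt'.gr le_rfl
  refine ⟨?_, fun y => hasDerivAt_H' g0 g1 h.d ht.2 y, fun y => H_odd h.odd t y,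
    fun y => h.wt.H_le ht.2 y, fun y => h.wt'.H_le ht.2 y⟩
  exact g1.continuousOn_H.comp_continuous (f := fun y : ℝ => (t, y)) (by fun_prop)
    fun y => ⟨ht.2, mem_univ _⟩

/-- The primitive of a bounded function. -/
theorem Odd1.prim (h : Odd1 m m' e e') :
    Gr m (fun y => ∫ z in (0:ℝ)..y, e z) ∧ ∀ y, HasDerivAt (fun y => ∫ z in (0:ℝ)..y, e z) (e y) y := by
  have hd : ∀ y, HasDerivAt (fun y => ∫ z in (0:ℝ)..y, e z) (e y) y := fun y =>
    (h.ce.integral_hasStrictDerivAt 0 y).hasDerivAt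
  refine ⟨⟨continuous_iff_continuousAt.2 fun y => (hd y).continuousAt, fun y => ?_⟩, hd⟩
  have h1 := intervalIntegral.norm_integral_le_of_norm_le_const (a := 0) (b := y) (f := e)
    (C := m) (fun z _ => h.b0 z)
  rw [sub_zero, Real.norm_eq_abs] at h1
  refine h1.trans ?_
  have := abs_le_exp_abs y
  have := h.m0
  gcongr

/-- The free background. -/
theorem Odd1.back (h : Odd1 m m' e e') {t0 : ℝ} (ht0 : t0 ≤ 1) (S : ℝ) :
    Back t0 S 0 (m' * cE) (fun t => H t e) (fun t => H t e') := by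
  have g0 := h.wt.gr le_rfl
  have g1 := h.wt'.gr le_rfl
  have m1 : ∀ {t}, t ∈ Icc 0 t0 → t ∈ Icc (0:ℝ) 1 := fun ht => ⟨ht.1, ht.2.trans ht0⟩
  refine ⟨?_, ?_, fun t ht y => (h.heat (m1 ⟨ht.1.le, ht.2⟩)).d y, fun t ht => ?_,
    fun t ht y _ => (h.heat (m1 ⟨ht.1.le, ht.2⟩)).b1 y, fun t ht y hy => ?_⟩
  · exact g0.continuousOn_H.mono fun p hp => ⟨(m1 hp.1).2, mem_univ _⟩
  · exact g1.continuousOn_H.mono fun p hp => ⟨(m1 ⟨hp.1.1.le, hp.1.2⟩).2, mem_univ _⟩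
  · have := H_odd h.odd t 0
    rw [neg_zero] at this
    show H t e 0 = 0
    linarith
  · obtain ⟨gp, dp⟩ := h.prim
    have ht1 := (m1 ht).2
    have k1 := H_sub gp g0 dp ht1 ht.1 y
    have k2 := H_sub gp g0 dp ht1 ht.1 0
    have k3 : ∫ z in (0:ℝ)..y, H t e z = H t (fun y => ∫ z in (0:ℝ)..y, e z) y -
        H t (fun y => ∫ z in (0:ℝ)..y, e z) 0 := by
      refine intervalIntegral.integral_eq_sub_of_hasDerivAt
        (fun z _ => hasDerivAt_H' gp g0 dp ht1 z) ?_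
      exact (h.heat (m1 ht)).ce.intervalIntegrable _ _
    have k4 : ∀ x, ∫ s in (0:ℝ)..t, Dh s e x = ∫ s in (0:ℝ)..t, H s e' x := by
      intro x
      refine intervalIntegral.integral_congr_ae (ae_of_all _ fun s hs => ?_)
      rw [uIoc_of_le ht.1] at hs
      exact Dh_eq g0 g1 h.d (hs.2.trans ht1) hs.1 x
    have hi : ∀ x, IntervalIntegrable (fun s => H s e' x) volume 0 t := by
      intro x
      refine ContinuousOn.intervalIntegrable ?_
      rw [uIcc_of_le ht.1]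
      exact g1.continuousOn_H.comp (f := fun s : ℝ => (s, x)) (by fun_prop)
        fun s hs => ⟨hs.2.trans ht1, mem_univ _⟩
    have k5 : ∫ s in (0:ℝ)..t, (H s e' y - H s e' 0 + 0 * y) =
        (∫ s in (0:ℝ)..t, H s e' y) - ∫ s in (0:ℝ)..t, H s e' 0 := by
      rw [← intervalIntegral.integral_sub (hi y) (hi 0)]
      refine intervalIntegral.integral_congr fun s _ => ?_
      ring
    simp only [intervalIntegral.integral_same] at k2
    have k6 : ∫ z in (0:ℝ)..y, H 0 e z = ∫ z in (0:ℝ)..y, e z :=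
      intervalIntegral.integral_congr fun z _ => H_zero e z
    show (∫ z in (0:ℝ)..y, H t e z) - (∫ z in (0:ℝ)..y, H 0 e z) = _
    rw [k5, k3, k6, k1, k2, k4, k4]
    ring

end odd1

theorem Back.add {t0 S c c' A A' : ℝ} {F F' G G' : ℝ → ℝ → ℝ} (h : Back t0 S c A F F')
    (h' : Back t0 S c' A' G G') (b1 : ∀ y, ∃ K, ∀ t ∈ Ioc 0 t0, |F' t y| ≤ K)
    (b2 : ∀ y, ∃ K, ∀ t ∈ Ioc 0 t0, |G' t y| ≤ K) :
    Back t0 S (c + c') (A + A') (fun t y => F t y + G t y) (fun t y => F' t y + G' t y) := by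
  refine ⟨h.c0.add h'.c0, h.c1.add h'.c1, fun t ht y => (h.d t ht y).add (h'.d t ht y),
    fun t ht => ?_, fun t ht y hy => (abs_add_le _ _).trans (add_le_add (h.bd t ht y hy)
    (h'.bd t ht y hy)), fun t ht y hy => ?_⟩
  · show F t 0 + G t 0 = 0
    rw [h.z t ht, h'.z t ht, add_zero]
  · have hcs : ∀ {K : ℝ → ℝ → ℝ}, ContinuousOn (uncurry K) (Icc 0 t0 ×ˢ univ) →
        ∀ s ∈ Icc 0 t0, Continuous (K s) := fun hK s hs =>
      hK.comp_continuous (f := fun y : ℝ => (s, y)) (by fun_prop) fun y => ⟨hs, mem_univ _⟩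
    have h0 : (0:ℝ) ∈ Icc 0 t0 := ⟨le_rfl, ht.1.trans ht.2⟩
    rw [intervalIntegral.integral_add ((hcs h.c0 t ht).intervalIntegrable _ _)
        ((hcs h'.c0 t ht).intervalIntegrable _ _),
      intervalIntegral.integral_add ((hcs h.c0 0 h0).intervalIntegrable _ _)
        ((hcs h'.c0 0 h0).intervalIntegrable _ _)]
    have e1 := h.ti t ht y hy
    have e2 := h'.ti t ht y hy
    have hi : ∀ {K K' : ℝ → ℝ → ℝ} {c A : ℝ}, Back t0 S c A K K' → ∀ x,
        ContinuousOn (fun s => K' s x) (Ioc 0 t0) := fun hK x =>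
      hK.c1.comp (f := fun s : ℝ => (s, x)) (by fun_prop) fun s hs => ⟨hs, mem_univ _⟩
    have hii : ∀ {K K' : ℝ → ℝ → ℝ} {c A : ℝ}, Back t0 S c A K K' →
        (∀ y, ∃ B, ∀ t ∈ Ioc 0 t0, |K' t y| ≤ B) →
        IntervalIntegrable (fun s => K' s y - K' s 0 + c * y) volume 0 t := by
      intro K K' c A hK hb
      obtain ⟨B1, hB1⟩ := hb y
      obtain ⟨B2, hB2⟩ := hb 0
      rw [intervalIntegrable_iff_integrableOn_Ioc_of_le ht.1]
      refine Integrable.mono' (g := fun _ => B1 + B2 + |c * y|) (integrable_const _) ?_ ?_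
      · refine ContinuousOn.aestronglyMeasurable ?_ measurableSet_Ioc
        exact (((hi hK y).sub (hi hK 0)).add continuousOn_const).mono
          fun s hs => ⟨hs.1, hs.2.trans ht.2⟩
      · rw [ae_restrict_iff' measurableSet_Ioc]
        refine ae_of_all _ fun s hs => ?_
        have hs' : s ∈ Ioc 0 t0 := ⟨hs.1, hs.2.trans ht.2⟩
        have a1 := hB1 s hs'
        have a2 := hB2 s hs'
        have a3 := abs_add_le (K' s y - K' s 0) (c * y)
        have a4 := abs_sub (K' s y) (K' s 0)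
        rw [Real.norm_eq_abs]
        linarith
    have e3 : ∫ s in (0:ℝ)..t, (F' s y + G' s y - (F' s 0 + G' s 0) + (c + c') * y) =
        (∫ s in (0:ℝ)..t, (F' s y - F' s 0 + c * y)) +
          ∫ s in (0:ℝ)..t, (G' s y - G' s 0 + c' * y) := by
      rw [← intervalIntegral.integral_add (hii h b1) (hii h' b2)]
      refine intervalIntegral.integral_congr fun s _ => ?_
      ring
    rw [e3]
    linarith

/-- The nonlinear piece. -/
theorem nl_piece {t0 S L c A0 A1 : ℝ} {χ : ℝ → ℝ} (hχ : Cut L S χ) (ht0 : t0 ∈ Ioc 0 1)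
    (hS : 1 ≤ S) (hL : 0 ≤ L) (hLS : L ≤ S) (hA0 : 0 ≤ A0) (hA : A0 ≤ A1) {F F' : ℝ → ℝ → ℝ}
    (hB : Back t0 S c A1 F F') (hF : ∀ t ∈ Icc 0 t0, ∀ y ∈ Icc 0 S, |F t y| ≤ A0)
    (c1 : 112 * cE * t0 * S * A1 ≤ 1) (c2 : 26 * cE * √t0 * S * A0 ≤ 1) :
    ∃ f v r r' : ℝ → ℝ → ℝ,
      TrL 0 t0 L (|c| + A1 + 2 * √t0 * (13 * S * A0 * A1 * cE)) {0} f f v (fun _ => c) ∧
      (∀ y, f 0 y = F 0 y) ∧ (∀ t ∈ Icc 0 t0, ∀ y, f t y = F t y + r t y) ∧
      (∀ t ∈ Ioc 0 t0, Odd1 (t * (13 * S * A0 * A1 * cE)) (2 * √t * (13 * S * A0 * A1 * cE))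
        (r t) (r' t)) ∧
      ∀ t ∈ Icc 0 t0, ∀ y ∈ Icc 0 L, |f t y| ≤ A0 + t0 * (13 * S * A0 * A1 * cE) := by
  have hcE := cE_pos
  have hbg : Bg t0 S A0 A1 F F' :=
    ⟨hB.c0.mono (by gcongr; exact Ioc_subset_Icc_self), hB.c1,
      fun s hs y hy hyS => hF s ⟨hs.1.le, hs.2⟩ y ⟨hy, hyS⟩, fun s hs y hy hyS => hB.bd s hs y ⟨hy, hyS⟩,
      fun s hs => hB.z s ⟨hs.1.le, hs.2⟩⟩
  obtain ⟨n, hn, hno, hne⟩ := solveB hχ ht0 hS hA0 hA hbg c1 c2
  have hA1 : 0 ≤ A1 := hA0.trans hA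
  have hBL : Back t0 L c A1 F F' :=
    ⟨hB.c0, hB.c1, hB.d, hB.z, fun t ht y hy => hB.bd t ht y ⟨hy.1, hy.2.trans hLS⟩, hB.ti⟩
  have hp := piece (g := fun t y => F t y + Duh n t y) hχ ht0 (by linarith) hL hA1 hBL hn
    (fun s hs y hy => by rw [hne s hs y hy]; ring) hno
  have hod : ∀ t ∈ Ioc 0 t0, Odd1 (t * (13 * S * A0 * A1 * cE))
      (2 * √t * (13 * S * A0 * A1 * cE)) (Duh n t) (DuhD n t) := fun t ht =>
    ⟨(hn.contDuhD ht0.2).comp_continuous (f := fun y : ℝ => (t, y)) (by fun_prop)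
      fun y => ⟨ht, mem_univ _⟩, hn.hasDerivAt ht0.2 ht, Duh_odd hno t, hn.abs_Duh ht0.2 ht,
      hn.abs_DuhD ht0.2 ht⟩
  refine ⟨_, _, Duh n, DuhD n, hp, fun y => ?_, fun t _ y => rfl, hod, fun t ht y hy => ?_⟩
  · simp only [Duh_zero_time, add_zero]
  · have h1 := hF t ht y ⟨hy.1, hy.2.trans hLS⟩
    have h2 : |Duh n t y| ≤ t0 * (13 * S * A0 * A1 * cE) := by
      rcases eq_or_lt_of_le ht.1 with h | h
      · rw [← h, Duh_zero_time, abs_zero]
        have := ht0.1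
        positivity
      · refine ((hod t ⟨h, ht.2⟩).b0 y).trans ?_
        have := ht.2
        gcongr
    exact (abs_add_le _ _).trans (add_le_add h1 h2)

/-- The cut-off function. -/
theorem exists_cut {L : ℝ} (hL : 0 ≤ L) : ∃ χ, Cut L (L + 1) χ := by
  refine ⟨fun y => max 0 (min 1 (L + 1 - y)), by fun_prop, fun y => le_max_left _ _,
    fun y => max_le zero_le_one (min_le_left _ _), fun y hy => ?_, fun y hy hyL => ?_⟩
  · exact max_eq_left ((min_le_right _ _).trans (by linarith))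
  · show max 0 (min 1 (L + 1 - y)) = 1
    rw [min_eq_left (by linarith)]
    exact max_eq_right zero_le_one

/-- The flat background. -/
theorem flat_back {S : ℝ} (hS : 1 ≤ S) : ∃ D K : ℝ, 1 ≤ D ∧ 1 ≤ K ∧ ∀ l ∈ Ioc (0:ℝ) 1,
    ∀ (m m' : ℝ) (e e' : ℝ → ℝ), Odd1 m m' e e' → ∃ w w' : ℝ → ℝ → ℝ,
      Back (l / D) S 0 (m * (K * exp (K / l ^ 2))) w w' ∧
      (∀ y, ∃ B, ∀ t ∈ Ioc 0 (l / D), |w' t y| ≤ B) ∧ (∀ y, w 0 y = H l e y) ∧
      (∀ y, w (l / D) y = 0) ∧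
      ∀ t ∈ Icc 0 (l / D), ∀ y ∈ Icc 0 S, |w t y| ≤ m * (K * exp (K / l ^ 2)) := by
  obtain ⟨β, hβ, h0, h1, C, hC, hb⟩ := exists_gevrey
  obtain ⟨C', hC', hcoef⟩ := heat_coeff
  set C2 := max C C' with hC2
  have hC21 : 1 ≤ C2 := hC.trans (le_max_left _ _)
  obtain ⟨D, E, hD, hE, hfl⟩ := flat_series (C := C2) (S := S) hC21 hS hβ h0 h1 (fun j t => by
    refine (hb j t).trans ?_
    have : C ≤ C2 := le_max_left _ _
    gcongr)
  refine ⟨D, C' * (E + 1), hD, by nlinarith, ?_⟩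
  intro l hl m m' e e' he
  have hl0 := hl.1
  have hm := he.m0
  obtain ⟨c, hc, hsum⟩ := hcoef l hl m e he.ce he.odd he.b0
  obtain ⟨w, w', cw, cw', dw, ow, w0, w1, wb, wt⟩ := hfl l hl (m * C' * (√l)⁻¹) c (by positivity)
    (fun k => by
      refine (hc k).trans ?_
      have : C' ≤ C2 := le_max_right _ _
      gcongr)
  have hlD : 0 < l / D := by positivity
  have hbound : m * C' * (√l)⁻¹ * exp (E / l ^ 2) ≤
      m * (C' * (E + 1) * exp (C' * (E + 1) / l ^ 2)) := by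
    have hsl : 0 < √l := sqrt_pos.2 hl0
    have hl2 : 0 < l ^ 2 := by positivity
    have a1 : (√l)⁻¹ ≤ exp (1 / l ^ 2) := by
      have b1 : √l * √l = l := mul_self_sqrt hl0.le
      have b2 : √l ≤ 1 := by rw [sqrt_le_one]; exact hl.2
      have b3 : l ^ 2 ≤ √l := by
        have : l ^ 2 = √l * √l * √l * √l := by rw [mul_assoc, mul_assoc, b1, ← mul_assoc, b1]; ring
        rw [this]
        have b4 : √l * √l ≤ 1 := by nlinarith
        have b5 : √l * √l * √l ≤ 1 := by nlinarith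
        nlinarith
      have b6 : (√l)⁻¹ ≤ 1 / l ^ 2 := by
        rw [one_div]
        exact inv_anti₀ hl2 b3
      linarith [add_one_le_exp (1 / l ^ 2)]
    have a2 : exp (1 / l ^ 2) * exp (E / l ^ 2) ≤ exp (C' * (E + 1) / l ^ 2) := by
      rw [← exp_add, ← add_div]
      apply exp_le_exp.2
      gcongr
      nlinarith
    calc m * C' * (√l)⁻¹ * exp (E / l ^ 2) ≤ m * C' * exp (1 / l ^ 2) * exp (E / l ^ 2) := by gcongr
      _ = m * C' * (exp (1 / l ^ 2) * exp (E / l ^ 2)) := by ring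
      _ ≤ m * C' * exp (C' * (E + 1) / l ^ 2) := by gcongr
      _ ≤ m * (C' * (E + 1)) * exp (C' * (E + 1) / l ^ 2) := by
          gcongr
          nlinarith
      _ = _ := by ring
  have habs : ∀ {t}, t ∈ Icc 0 (l / D) → ∀ {y}, y ∈ Icc 0 S →
      |w t y| ≤ m * (C' * (E + 1) * exp (C' * (E + 1) / l ^ 2)) ∧
      |w' t y| ≤ m * (C' * (E + 1) * exp (C' * (E + 1) / l ^ 2)) := by
    intro t ht y hy
    have h2 := wb t ht y (by rw [abs_of_nonneg hy.1]; exact hy.2)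
    exact ⟨h2.1.trans hbound, h2.2.trans hbound⟩
  refine ⟨w, w', ⟨cw, cw'.mono (by gcongr; exact Ioc_subset_Icc_self),
    fun t ht y => dw t ⟨ht.1.le, ht.2⟩ y, fun t _ => ?_, fun t ht y hy => (habs ⟨ht.1.le, ht.2⟩ hy).2,
    fun t ht y hy => ?_⟩, fun y => ?_, fun y => ?_, w1, fun t ht y hy => (habs ht hy).1⟩
  · have := ow t 0
    rw [neg_zero] at this
    linarith
  · rw [wt t ht y]
    refine intervalIntegral.integral_congr fun s _ => ?_
    ring
  · have hcy : ContinuousOn (fun t => w' t y) (Icc 0 (l / D)) :=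
      cw'.comp (f := fun s : ℝ => (s, y)) (by fun_prop) fun s hs => ⟨hs, mem_univ _⟩
    obtain ⟨B, hB⟩ := isCompact_Icc.exists_bound_of_continuousOn hcy
    exact ⟨B, fun t ht => hB t ⟨ht.1.le, ht.2⟩⟩
  · rw [w0 y]
    exact (hsum y).tsum_eq

end Pool.Agent.Lib.MP_79abb3_an
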