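import Pool.Agent.Lib.MP_79abb3_an.Piece

/-!
The pulse: an explicit solution of `q_t = q_yy + c sign y`.
-/

set_option autoImplicit false
set_option linter.unusedSectionVars false
set_option linter.unusedVariables false

open MeasureTheory Set Filter Topology Real Function

namespace Pool.Agent.Lib.MP_79abb3_an

/-- The odd antiderivative of the absolute value. -/
noncomputable def Psi (y : ℝ) : ℝ := y * |y| / 2

/-- The absolute value. -/
noncomputable def Ab (y : ℝ) : ℝ := |y|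

/-- The antiderivative of `Psi`. -/
noncomputable def QQ (y : ℝ) : ℝ := |y| ^ 3 / 6

theorem hasDerivAt_Psi (y : ℝ) : HasDerivAt Psi (Ab y) y := by
  rcases lt_trichotomy y 0 with h | h | h
  · have h1 : HasDerivAt (fun y : ℝ => -(y ^ 2) / 2) (Ab y) y := by
      have := ((hasDerivAt_pow 2 y).neg).div_const 2
      refine this.congr_deriv ?_
      rw [Ab, abs_of_neg h]; push_cast; ring
    refine h1.congr_of_eventuallyEq ?_
    filter_upwards [Iio_mem_nhds h] with z hz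
    rw [Psi, abs_of_neg hz]; ring
  · subst h
    rw [Ab, abs_zero, hasDerivAt_iff_isLittleO_nhds_zero]
    have h1 : Tendsto (fun h : ℝ => |h| / 2) (𝓝 0) (𝓝 0) := by
      have : Continuous (fun h : ℝ => |h| / 2) := by fun_prop
      simpa using this.tendsto 0
    have h2 := (Asymptotics.isBigO_refl (fun h : ℝ => h) (𝓝 0)).mul_isLittleO
      ((Asymptotics.isLittleO_one_iff ℝ).2 h1)
    simpa [Psi, mul_div_assoc] using h2
  · have h1 : HasDerivAt (fun y : ℝ => (y ^ 2) / 2) (Ab y) y := by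
      have := (hasDerivAt_pow 2 y).div_const 2
      refine this.congr_deriv ?_
      rw [Ab, abs_of_pos h]; push_cast; ring
    refine h1.congr_of_eventuallyEq ?_
    filter_upwards [Ioi_mem_nhds h] with z hz
    rw [Psi, abs_of_pos hz]; ring

theorem hasDerivAt_QQ (y : ℝ) : HasDerivAt QQ (Psi y) y := by
  rcases lt_trichotomy y 0 with h | h | h
  · have h1 : HasDerivAt (fun y : ℝ => -(y ^ 3) / 6) (Psi y) y := by
      have := ((hasDerivAt_pow 3 y).neg).div_const 6
      refine this.congr_deriv ?_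
      rw [Psi, abs_of_neg h]; push_cast; ring
    refine h1.congr_of_eventuallyEq ?_
    filter_upwards [Iio_mem_nhds h] with z hz
    rw [QQ, abs_of_neg hz]; ring
  · subst h
    rw [Psi, zero_mul, zero_div, hasDerivAt_iff_isLittleO_nhds_zero]
    have h1 : Tendsto (fun h : ℝ => h * |h| / 6) (𝓝 0) (𝓝 0) := by
      have : Continuous (fun h : ℝ => h * |h| / 6) := by fun_prop
      simpa using this.tendsto 0
    have h2 := (Asymptotics.isBigO_refl (fun h : ℝ => h) (𝓝 0)).mul_isLittleO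
      ((Asymptotics.isLittleO_one_iff ℝ).2 h1)
    have h3 : (fun h => QQ (0 + h) - QQ 0 - h • (0:ℝ)) = fun h : ℝ => h * (h * |h| / 6) := by
      ext z
      simp only [QQ, zero_add, abs_zero, smul_eq_mul, mul_zero, sub_zero]
      rw [pow_succ, sq_abs]; ring
    rw [h3]
    simpa using h2
  · have h1 : HasDerivAt (fun y : ℝ => (y ^ 3) / 6) (Psi y) y := by
      have := (hasDerivAt_pow 3 y).div_const 6
      refine this.congr_deriv ?_
      rw [Psi, abs_of_pos h]; push_cast; ring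
    refine h1.congr_of_eventuallyEq ?_
    filter_upwards [Ioi_mem_nhds h] with z hz
    rw [QQ, abs_of_pos hz]

theorem pow_le_fac_exp (y : ℝ) (n : ℕ) : |y| ^ n ≤ n.factorial * exp |y| := by
  have := Real.pow_div_factorial_le_exp |y| (abs_nonneg y) n
  rwa [div_le_iff₀ (by positivity), mul_comm] at this

theorem gr_Ab : Gr 1 Ab := by
  refine ⟨by unfold Ab; fun_prop, fun y => ?_⟩
  rw [Ab, abs_abs, one_mul]
  exact abs_le_exp_abs y

theorem gr_Psi : Gr 1 Psi := by
  refine ⟨by unfold Psi; fun_prop, fun y => ?_⟩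
  have h := pow_le_fac_exp y 2
  rw [Psi, abs_div, abs_mul, abs_abs, one_mul, abs_of_pos (by norm_num : (0:ℝ) < 2)]
  have : ((Nat.factorial 2 : ℕ) : ℝ) = 2 := by norm_num [Nat.factorial]
  rw [this] at h
  nlinarith

theorem gr_QQ : Gr 1 QQ := by
  refine ⟨by unfold QQ; fun_prop, fun y => ?_⟩
  have h := pow_le_fac_exp y 3
  rw [QQ, abs_div, abs_pow, abs_abs, one_mul, abs_of_pos (by norm_num : (0:ℝ) < 6)]
  have : ((Nat.factorial 3 : ℕ) : ℝ) = 6 := by norm_num [Nat.factorial]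
  rw [this] at h
  linarith

/-! ### Gaussian moments -/

theorem int_pow (n : ℕ) : Integrable (fun x : ℝ => x ^ n) γ := by
  refine integrable_of_le (by fun_prop) (C := n.factorial) fun x => ?_
  rw [abs_pow]
  refine (pow_le_fac_exp x n).trans ?_
  gcongr
  linarith [abs_nonneg x]

theorem int_abs : Integrable (fun x : ℝ => |x|) γ := by
  simpa using (int_pow 1).abs

theorem gauss_two : ∫ x, x ^ 2 ∂γ = 1 := by
  have h1 : Gr 1 (fun x : ℝ => x) := ⟨by fun_prop, fun y => by rw [one_mul]; exact abs_le_exp_abs y⟩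
  have h2 : Gr 1 (fun _ : ℝ => (1:ℝ)) := ⟨by fun_prop, fun y => by
    rw [one_mul, abs_one]; exact one_le_exp (abs_nonneg y)⟩
  have h3 := Gd_eq h1 h2 (fun y => hasDerivAt_id y) (a := 1) (by norm_num) one_ne_zero 0
  simp only [inv_one, one_mul, Gd, Ga, zero_add, integral_const, probReal_univ, smul_eq_mul,
    mul_one] at h3
  rw [← h3]
  congr 1; ext x; ring

theorem gauss_four : ∫ x, x ^ 4 ∂γ = 3 := by
  have h1 : Gr 6 (fun x : ℝ => x ^ 3) := ⟨by fun_prop, fun y => by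
    rw [abs_pow]
    have := pow_le_fac_exp y 3
    simpa [Nat.factorial] using this⟩
  have h2 : Gr 6 (fun x : ℝ => 3 * x ^ 2) := ⟨by fun_prop, fun y => by
    rw [abs_mul, abs_pow, sq_abs, abs_of_pos (by norm_num : (0:ℝ) < 3)]
    have := pow_le_fac_exp y 2
    simp [Nat.factorial] at this
    linarith⟩
  have h3 := Gd_eq h1 h2 (fun y => by simpa using hasDerivAt_pow 3 y) (a := 1) (by norm_num)
    one_ne_zero 0
  simp only [inv_one, one_mul, Gd, Ga, zero_add, integral_const_mul, gauss_two, mul_one] at h3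
  rw [← h3]
  congr 1; ext x; ring

theorem gauss_abs_le : ∫ x, |x| ∂γ ≤ 1 := by
  calc ∫ x, |x| ∂γ ≤ ∫ x, (1 + x ^ 2) / 2 ∂γ := by
        refine integral_mono int_abs (((integrable_const _).add (int_pow 2)).div_const 2)
          fun x => ?_
        show |x| ≤ (1 + x ^ 2) / 2
        nlinarith [sq_nonneg (|x| - 1), sq_abs x]
    _ = 1 := by
        rw [integral_div, integral_add (integrable_const _) (int_pow 2), gauss_two]
        simp

/-! ### The symmetrised kernel -/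

/-- The symmetrised kernel. -/
noncomputable def Sk (y s : ℝ) : ℝ := (Psi (y + s) + Psi (y - s)) / 2 - Psi y

theorem Sk_neg (y s : ℝ) : Sk y (-s) = Sk y s := by
  unfold Sk
  rw [sub_neg_eq_add, ← sub_eq_add_neg]
  ring

theorem Sk_abs (y s : ℝ) : Sk y s = Sk y |s| := by
  rcases abs_cases s with ⟨h, _⟩ | ⟨h, _⟩
  · rw [h]
  · rw [h, Sk_neg]

theorem Sk_of_le {y s : ℝ} (h0 : 0 ≤ s) (h : s ≤ y) : Sk y s = s ^ 2 / 2 := by
  unfold Sk Psi
  rw [abs_of_nonneg (by linarith : 0 ≤ y + s), abs_of_nonneg (by linarith : 0 ≤ y - s),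
    abs_of_nonneg (by linarith : 0 ≤ y)]
  ring

theorem Sk_of_ge {y s : ℝ} (h0 : 0 ≤ y) (h : y ≤ s) : Sk y s = y * s - y ^ 2 / 2 := by
  unfold Sk Psi
  rw [abs_of_nonneg (by linarith : 0 ≤ y + s), abs_of_nonpos (by linarith : y - s ≤ 0),
    abs_of_nonneg h0]
  ring

theorem Sk_nonneg {y : ℝ} (hy : 0 ≤ y) (s : ℝ) : 0 ≤ Sk y s := by
  rw [Sk_abs]
  rcases le_total |s| y with h | h
  · rw [Sk_of_le (abs_nonneg s) h]; positivity
  · rw [Sk_of_ge hy h]; nlinarith

theorem Sk_le {y : ℝ} (hy : 0 ≤ y) (s : ℝ) : Sk y s ≤ s ^ 2 / 2 := by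
  rw [Sk_abs, ← sq_abs s]
  rcases le_total |s| y with h | h
  · rw [Sk_of_le (abs_nonneg s) h]
  · rw [Sk_of_ge hy h]; nlinarith [sq_nonneg (y - |s|)]

theorem Sk_ge {y : ℝ} (hy : 0 < y) (s : ℝ) : s ^ 2 / 2 - Sk y s ≤ s ^ 4 / (32 * y ^ 2) := by
  have e : s ^ 4 = |s| ^ 4 := by rw [← abs_pow, abs_of_nonneg (by positivity)]
  rw [Sk_abs, ← sq_abs s, e]
  rcases le_total |s| y with h | h
  · rw [Sk_of_le (abs_nonneg s) h]
    simp only [sub_self]; positivity
  · rw [Sk_of_ge hy.le h, le_div_iff₀ (by positivity)]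
    have h1 : 0 ≤ |s| ^ 2 - 4 * y * (|s| - y) := by nlinarith [sq_nonneg (|s| - 2 * y)]
    have h2 : 0 ≤ 4 * y * (|s| - y) := by
      have : 0 ≤ |s| - y := by linarith
      positivity
    nlinarith [mul_nonneg h1 (by positivity : 0 ≤ |s| ^ 2), mul_nonneg h1 h2]

theorem umin_ge {u : ℝ} (hu : 0 ≤ u) : u ^ 2 - 4 / 27 * u ^ 4 ≤ u * min u 1 := by
  rcases le_total u 1 with h | h
  · rw [min_eq_left h]
    nlinarith [pow_nonneg hu 4]
  · rw [min_eq_right h]
    have h1 : 0 ≤ 4 / 27 * u ^ 3 - u + 1 := by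
      nlinarith [mul_nonneg (by linarith : 0 ≤ u + 3) (sq_nonneg (2 * u - 3))]
    nlinarith [mul_nonneg hu h1]

theorem Sk_low {y r : ℝ} (hy : 0 ≤ y) (hr : 0 < r) (s : ℝ) :
    min (y / r) 1 / 2 * (s ^ 2 - 4 / 27 * (s ^ 4 / r ^ 2)) ≤ Sk y s := by
  have e : s ^ 4 = |s| ^ 4 := by rw [← abs_pow, abs_of_nonneg (by positivity)]
  rw [Sk_abs, ← sq_abs s, e]
  set S := |s| with hS
  have hS0 : 0 ≤ S := abs_nonneg s
  have hm0 : 0 ≤ min (y / r) 1 := le_min (by positivity) zero_le_one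
  -- first step
  have h1 : S ^ 2 - 4 / 27 * (S ^ 4 / r ^ 2) ≤ S * min S r := by
    have h2 := umin_ge (u := S / r) (by positivity)
    have h3 : S * min S r = r ^ 2 * (S / r * min (S / r) 1) := by
      have : min S r = r * min (S / r) 1 := by
        rw [mul_min_of_nonneg _ _ hr.le, mul_one, mul_div_cancel₀ _ hr.ne']
      rw [this]
      field_simp
    rw [h3]
    calc S ^ 2 - 4 / 27 * (S ^ 4 / r ^ 2) = r ^ 2 * ((S / r) ^ 2 - 4 / 27 * (S / r) ^ 4) := by
          field_simp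
      _ ≤ _ := by gcongr
  have h4 : min (y / r) 1 * min S r ≤ min y S := by
    refine le_min ?_ ?_
    · calc min (y / r) 1 * min S r ≤ (y / r) * r :=
            mul_le_mul (min_le_left _ _) (min_le_right _ _) (le_min hS0 hr.le) (by positivity)
        _ = y := by field_simp
    · calc min (y / r) 1 * min S r ≤ 1 * S :=
            mul_le_mul (min_le_right _ _) (min_le_left _ _) (le_min hS0 hr.le) zero_le_one
        _ = S := one_mul _
  have h5 : S * min y S / 2 ≤ Sk y S := by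
    rcases le_total S y with h | h
    · rw [Sk_of_le hS0 h, min_eq_right h]; nlinarith
    · rw [Sk_of_ge hy h, min_eq_left h]; nlinarith
  calc min (y / r) 1 / 2 * (S ^ 2 - 4 / 27 * (S ^ 4 / r ^ 2))
      ≤ min (y / r) 1 / 2 * (S * min S r) := by gcongr
    _ = S * (min (y / r) 1 * min S r) / 2 := by ring
    _ ≤ S * min y S / 2 := by gcongr
    _ ≤ _ := h5

theorem int_Sk {a : ℝ} (ha : |a| ≤ 3) (y : ℝ) : Integrable (fun x => Sk y (a * x)) γ := by
  unfold Sk
  have h1 := gr_Psi.integrable ha y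
  have h2 := gr_Psi.integrable (a := -a) (by rwa [abs_neg]) y
  have h3 := ((h1.add h2).div_const 2).sub (integrable_const (μ := γ) (Psi y))
  refine h3.congr (ae_of_all _ fun x => ?_)
  simp only [Pi.sub_apply, Pi.add_apply, neg_mul, ← sub_eq_add_neg]

theorem H_Psi_sub {t : ℝ} (ht : t ≤ 1) (y : ℝ) :
    H t Psi y - Psi y = ∫ x, Sk y (√(2 * t) * x) ∂γ := by
  set a := √(2 * t) with ha
  have ha3 : |a| ≤ 3 := sq_le ht
  have h1 := gr_Psi.integrable ha3 y
  have h2 := gr_Psi.integrable (a := -a) (by rwa [abs_neg]) y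
  have e1 : (fun x => Sk y (a * x)) = fun x => (Psi (y + a * x) + Psi (y + -a * x)) / 2 - Psi y := by
    ext x
    simp only [Sk, neg_mul, ← sub_eq_add_neg]
  have e2 : ∫ x, Psi (y + -a * x) ∂γ = ∫ x, Psi (y + a * x) ∂γ := by
    rw [← gauss_neg (fun x => Psi (y + a * x))]
    congr 1; ext x; congr 1; ring
  have e3 : ∫ x, ((Psi (y + a * x) + Psi (y + -a * x)) / 2 - Psi y) ∂γ =
      ∫ x, (Psi (y + a * x) + Psi (y + -a * x)) / 2 ∂γ - ∫ _x, Psi y ∂γ :=
    integral_sub ((h1.add h2).div_const 2) (integrable_const _)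
  have e4 : ∫ x, (Psi (y + a * x) + Psi (y + -a * x)) / 2 ∂γ =
      (∫ x, (Psi (y + a * x) + Psi (y + -a * x)) ∂γ) / 2 := integral_div _ _
  have e5 : ∫ x, (Psi (y + a * x) + Psi (y + -a * x)) ∂γ =
      ∫ x, Psi (y + a * x) ∂γ + ∫ x, Psi (y + -a * x) ∂γ := integral_add h1 h2
  rw [e1, e3, e4, e5, e2]
  simp only [H, Ga, integral_const, probReal_univ, smul_eq_mul, one_mul, ← ha]
  ring

theorem int_sq_scale (a : ℝ) : ∫ x, (a * x) ^ 2 / 2 ∂γ = a ^ 2 / 2 := by
  simp_rw [mul_pow]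
  rw [integral_div, integral_const_mul, gauss_two, mul_one]

theorem pulse : ∃ κ : ℝ, 0 < κ ∧ ∀ t0 ∈ Ioc (0:ℝ) 1, ∀ K L : ℝ, 0 ≤ K → ∃ q q' : ℝ → ℝ → ℝ,
    Back t0 L (K / t0) (2 * K / √t0) q q' ∧ (∀ y, q 0 y = 0) ∧ (∀ t y, q t (-y) = -q t y) ∧
    (∀ t ∈ Ioc 0 t0, ∀ y, |q' t y| ≤ 2 * K / √t0) ∧
    (∀ t ∈ Icc 0 t0, ∀ y, 0 ≤ y → 0 ≤ q t y ∧ q t y ≤ K) ∧
    (∀ y, 0 ≤ y → κ * K * min (y / √t0) 1 ≤ q t0 y) ∧
    ∀ y, 0 < y → K - q t0 y ≤ K * t0 / y ^ 2 := by
  refine ⟨1 / 9, by norm_num, fun t0 ht0 K L hK => ?_⟩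
  have ht0' : 0 < t0 := ht0.1
  set c := K / t0 with hc
  have hc0 : 0 ≤ c := by positivity
  have hct : c * t0 = K := by rw [hc]; field_simp
  have hs0 : 0 < √t0 := sqrt_pos.2 ht0'
  have hss : √t0 ^ 2 = t0 := sq_sqrt ht0'.le
  -- oddness
  have hodd : ∀ t y, c * (H t Psi (-y) - Psi (-y)) = -(c * (H t Psi y - Psi y)) := by
    intro t y
    have hP : ∀ y, Psi (-y) = -Psi y := fun y => by unfold Psi; rw [abs_neg]; ring
    rw [H_odd hP, hP]; ring
  -- bound of the derivative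
  have hbd : ∀ t ∈ Ioc 0 t0, ∀ y, |c * (H t Ab y - Ab y)| ≤ 2 * K / √t0 := by
    intro t ht y
    have ht1 : t ≤ 1 := ht.2.trans ht0.2
    have h1 : H t Ab y - Ab y = ∫ x, (Ab (y + √(2 * t) * x) - Ab y) ∂γ := by
      rw [integral_sub (gr_Ab.integrable (sq_le ht1) y) (integrable_const _)]
      simp [H, Ga]
    have h2 : |H t Ab y - Ab y| ≤ √(2 * t) := by
      rw [h1]
      have h2' : ∀ x : ℝ, ‖Ab (y + √(2 * t) * x) - Ab y‖ ≤ √(2 * t) * |x| := by
        intro x
        rw [Real.norm_eq_abs]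
        refine (abs_abs_sub_abs_le _ _).trans ?_
        rw [add_sub_cancel_left, abs_mul, abs_of_nonneg (sqrt_nonneg _)]
      calc |∫ x, (Ab (y + √(2 * t) * x) - Ab y) ∂γ| ≤ ∫ x, √(2 * t) * |x| ∂γ :=
            norm_integral_le_of_norm_le (int_abs.const_mul _) (ae_of_all _ h2')
        _ = √(2 * t) * ∫ x, |x| ∂γ := by rw [integral_const_mul]
        _ ≤ √(2 * t) * 1 := by
            have := gauss_abs_le
            gcongr
        _ = √(2 * t) := mul_one _
    rw [abs_mul, abs_of_nonneg hc0]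
    have h3 : √(2 * t) ≤ 2 * √t0 := by
      rw [sqrt_le_iff]
      refine ⟨by positivity, ?_⟩
      rw [mul_pow, hss]; nlinarith [ht.2]
    calc c * |H t Ab y - Ab y| ≤ c * (2 * √t0) := by
          have := h2.trans h3
          gcongr
      _ = 2 * K / √t0 := by
          rw [hc, eq_div_iff hs0.ne']
          have : K / t0 * (2 * √t0) * √t0 = 2 * (K / t0) * √t0 ^ 2 := by ring
          rw [this, hss]; field_simp
  -- bounds
  have hpos : ∀ t ∈ Icc 0 t0, ∀ y, 0 ≤ y → 0 ≤ c * (H t Psi y - Psi y) ∧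
      c * (H t Psi y - Psi y) ≤ K := by
    intro t ht y hy
    have ht1 : t ≤ 1 := ht.2.trans ht0.2
    rw [H_Psi_sub ht1]
    constructor
    · exact mul_nonneg hc0 (integral_nonneg fun x => Sk_nonneg hy _)
    · have h1 : ∫ x, Sk y (√(2 * t) * x) ∂γ ≤ t := by
        calc ∫ x, Sk y (√(2 * t) * x) ∂γ ≤ ∫ x, (√(2 * t) * x) ^ 2 / 2 ∂γ := by
              refine integral_mono (int_Sk (sq_le ht1) y) ?_ fun x => Sk_le hy _
              simp_rw [mul_pow]
              exact ((int_pow 2).const_mul _).div_const 2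
          _ = t := by
              rw [int_sq_scale, sq_sqrt (by linarith [ht.1])]; ring
      calc c * ∫ x, Sk y (√(2 * t) * x) ∂γ ≤ c * t0 := by
            have := h1.trans ht.2
            gcongr
        _ = K := hct
  refine ⟨fun t y => c * (H t Psi y - Psi y), fun t y => c * (H t Ab y - Ab y),
    ⟨?_, ?_, ?_, ?_, ?_, ?_⟩, ?_, hodd, hbd, hpos, ?_, ?_⟩
  · -- c0
    have h1 := gr_Psi.continuousOn_H.mono (s := Iic 1 ×ˢ (univ : Set ℝ))
      (t := Icc 0 t0 ×ˢ (univ : Set ℝ)) (by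
        intro p hp; exact ⟨hp.1.2.trans ht0.2, hp.2⟩)
    have h2 : Continuous fun p : ℝ × ℝ => Psi p.2 := gr_Psi.cont.comp continuous_snd
    exact continuousOn_const.mul (h1.sub h2.continuousOn)
  · have h1 := gr_Ab.continuousOn_H.mono (s := Iic 1 ×ˢ (univ : Set ℝ))
      (t := Ioc 0 t0 ×ˢ (univ : Set ℝ)) (by
        intro p hp; exact ⟨hp.1.2.trans ht0.2, hp.2⟩)
    have h2 : Continuous fun p : ℝ × ℝ => Ab p.2 := gr_Ab.cont.comp continuous_snd
    exact continuousOn_const.mul (h1.sub h2.continuousOn)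
  · intro t ht y
    exact ((hasDerivAt_H' gr_Psi gr_Ab hasDerivAt_Psi (ht.2.trans ht0.2) y).sub
      (hasDerivAt_Psi y)).const_mul c
  · intro t ht
    have := hodd t 0
    rw [neg_zero] at this
    show c * (H t Psi 0 - Psi 0) = 0
    linarith
  · intro t ht y _
    exact hbd t ht y
  · -- the integrated equation
    intro t ht y hy
    have ht1 : t ≤ 1 := ht.2.trans ht0.2
    have h0 : ∫ z in (0:ℝ)..y, c * (H 0 Psi z - Psi z) = 0 := by
      simp [H_zero]
    have hcont : Continuous fun z => c * (H t Psi z - Psi z) := by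
      have h1 : ∀ z, HasDerivAt (fun z => c * (H t Psi z - Psi z)) (c * (H t Ab z - Ab z)) z :=
        fun z => ((hasDerivAt_H' gr_Psi gr_Ab hasDerivAt_Psi ht1 z).sub
          (hasDerivAt_Psi z)).const_mul c
      exact continuous_iff_continuousAt.2 fun z => (h1 z).continuousAt
    have h1 : ∫ z in (0:ℝ)..y, c * (H t Psi z - Psi z) =
        c * (H t QQ y - QQ y) - c * (H t QQ 0 - QQ 0) := by
      exact intervalIntegral.integral_eq_sub_of_hasDerivAt (f := fun z => c * (H t QQ z - QQ z))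
        (fun z _ => ((hasDerivAt_H' gr_QQ gr_Psi hasDerivAt_QQ ht1 z).sub
          (hasDerivAt_QQ z)).const_mul c)
        (hcont.intervalIntegrable _ _)
    have h2 : ∀ y, H t QQ y - QQ y = ∫ r in (0:ℝ)..t, Dh r Psi y := by
      intro y
      rw [H_sub gr_QQ gr_Psi hasDerivAt_QQ ht1 ht.1 y]; ring
    show (∫ z in (0:ℝ)..y, c * (H t Psi z - Psi z)) - (∫ z in (0:ℝ)..y, c * (H 0 Psi z - Psi z)) =
      ∫ s in (0:ℝ)..t, (c * (H s Ab y - Ab y) - c * (H s Ab 0 - Ab 0) + c * y)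
    rw [h0, h1, h2, h2, sub_zero, ← mul_sub, ← intervalIntegral.integral_sub
      (gr_Psi.intervalIntegrable_Dh le_rfl ht.1 ht1 y)
      (gr_Psi.intervalIntegrable_Dh le_rfl ht.1 ht1 0), ← intervalIntegral.integral_const_mul]
    refine intervalIntegral.integral_congr_ae (ae_of_all _ fun r hr => ?_)
    rw [uIoc_of_le ht.1] at hr
    rw [Dh_eq gr_Psi gr_Ab hasDerivAt_Psi (hr.2.trans ht1) hr.1,
      Dh_eq gr_Psi gr_Ab hasDerivAt_Psi (hr.2.trans ht1) hr.1]
    have e1 : Ab y = y := abs_of_nonneg hy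
    have e2 : Ab 0 = 0 := abs_zero
    rw [e1, e2]; ring
  · intro y
    simp [H_zero]
  · -- lower bound
    intro y hy
    show 1 / 9 * K * min (y / √t0) 1 ≤ c * (H t0 Psi y - Psi y)
    rw [H_Psi_sub ht0.2]
    have h1 : min (y / √t0) 1 * (t0 / 9) ≤ ∫ x, Sk y (√(2 * t0) * x) ∂γ := by
      have h2 : ∫ x, min (y / √t0) 1 / 2 * ((√(2 * t0) * x) ^ 2 -
          4 / 27 * ((√(2 * t0) * x) ^ 4 / √t0 ^ 2)) ∂γ = min (y / √t0) 1 * (t0 / 9) := by
        have e1 : √(2 * t0) ^ 2 = 2 * t0 := sq_sqrt (by positivity)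
        have e2 : √(2 * t0) ^ 4 = 4 * t0 ^ 2 := by
          calc √(2 * t0) ^ 4 = (√(2 * t0) ^ 2) ^ 2 := by ring
            _ = _ := by rw [e1]; ring
        have e3 : ∀ x : ℝ, min (y / √t0) 1 / 2 * ((√(2 * t0) * x) ^ 2 -
          4 / 27 * ((√(2 * t0) * x) ^ 4 / √t0 ^ 2)) = min (y / √t0) 1 / 2 * (2 * t0 * x ^ 2 -
          16 / 27 * t0 * x ^ 4) := by
          intro x
          rw [mul_pow, mul_pow, e1, e2, hss]
          field_simp
          ring
        simp_rw [e3]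
        rw [integral_const_mul, integral_sub ((int_pow 2).const_mul _) ((int_pow 4).const_mul _),
          integral_const_mul, integral_const_mul, gauss_two, gauss_four]
        ring
      rw [← h2]
      refine integral_mono ?_ (int_Sk (sq_le ht0.2) y) fun x => Sk_low hy hs0 _
      have e : (fun x : ℝ => min (y / √t0) 1 / 2 * ((√(2 * t0) * x) ^ 2 -
          4 / 27 * ((√(2 * t0) * x) ^ 4 / √t0 ^ 2))) = fun x => min (y / √t0) 1 / 2 *
          (√(2 * t0) ^ 2 * x ^ 2 - (4 / 27 * √(2 * t0) ^ 4 / √t0 ^ 2) * x ^ 4) := by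
        ext x; rw [mul_pow, mul_pow]; ring
      rw [e]
      exact (((int_pow 2).const_mul _).sub ((int_pow 4).const_mul _)).const_mul _
    calc 1 / 9 * K * min (y / √t0) 1 = c * (min (y / √t0) 1 * (t0 / 9)) := by rw [← hct]; ring
      _ ≤ _ := by gcongr
  · -- tail
    intro y hy
    show K - c * (H t0 Psi y - Psi y) ≤ K * t0 / y ^ 2
    rw [H_Psi_sub ht0.2]
    have e1 : √(2 * t0) ^ 2 = 2 * t0 := sq_sqrt (by positivity)
    have e2 : √(2 * t0) ^ 4 = 4 * t0 ^ 2 := by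
      calc √(2 * t0) ^ 4 = (√(2 * t0) ^ 2) ^ 2 := by ring
        _ = _ := by rw [e1]; ring
    have hi : Integrable (fun x : ℝ => (√(2 * t0) * x) ^ 2 / 2) γ := by
      simp_rw [mul_pow]
      exact ((int_pow 2).const_mul _).div_const 2
    have h1 : t0 - ∫ x, Sk y (√(2 * t0) * x) ∂γ ≤ t0 ^ 2 / y ^ 2 := by
      have h2 : t0 = ∫ x, (√(2 * t0) * x) ^ 2 / 2 ∂γ := by
        rw [int_sq_scale, e1]; ring
      have h3 : ∫ x, (√(2 * t0) * x) ^ 4 / (32 * y ^ 2) ∂γ = 3 / 8 * t0 ^ 2 / y ^ 2 := by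
        simp_rw [mul_pow, e2]
        rw [integral_div, integral_const_mul, gauss_four]
        field_simp
        ring
      calc t0 - ∫ x, Sk y (√(2 * t0) * x) ∂γ
          = ∫ x, ((√(2 * t0) * x) ^ 2 / 2 - Sk y (√(2 * t0) * x)) ∂γ := by
            rw [integral_sub hi (int_Sk (sq_le ht0.2) y), ← h2]
        _ ≤ ∫ x, (√(2 * t0) * x) ^ 4 / (32 * y ^ 2) ∂γ := by
            refine integral_mono (hi.sub (int_Sk (sq_le ht0.2) y)) ?_ fun x => Sk_ge hy _
            simp_rw [mul_pow]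
            exact ((int_pow 4).const_mul _).div_const _
        _ = 3 / 8 * t0 ^ 2 / y ^ 2 := h3
        _ ≤ t0 ^ 2 / y ^ 2 := by
            gcongr
            nlinarith [sq_nonneg t0]
    calc K - c * ∫ x, Sk y (√(2 * t0) * x) ∂γ = c * (t0 - ∫ x, Sk y (√(2 * t0) * x) ∂γ) := by
          rw [mul_sub, hct]
      _ ≤ c * (t0 ^ 2 / y ^ 2) := by gcongr
      _ = K * t0 / y ^ 2 := by rw [← hct]; ring

end Pool.Agent.Lib.MP_79abb3_an
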