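import Pool.Agent.Lib.MP_79abb3_an.Flush
import Pool.Agent.Lib.MP_79abb3_an.Glob
import Pool.Agent.Lib.MP_79abb3_an.Local
import Pool.Agent.Lib.MP_79abb3_an.Pulse

/-!
Stage one: the pulse.
-/

set_option autoImplicit false
set_option linter.unusedSectionVars false
set_option linter.unusedVariables false

open MeasureTheory Set Filter Topology Real Function

namespace Pool.Agent.Lib.MP_79abb3_an

theorem Back.monoA {t0 S c A A' : ℝ} {F F' : ℝ → ℝ → ℝ} (h : Back t0 S c A F F') (hA : A ≤ A') :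
    Back t0 S c A' F F' :=
  ⟨h.c0, h.c1, h.d, h.z, fun t ht y hy => (h.bd t ht y hy).trans hA, h.ti⟩

/-- A smooth even cut-off. -/
theorem exists_zeta {L w : ℝ} (hL : 0 ≤ L) (hw : 0 < w) : ∃ ζ ζ' : ℝ → ℝ, Continuous ζ' ∧
    (∀ y, HasDerivAt ζ (ζ' y) y) ∧ (∀ y, 0 ≤ ζ y) ∧ (∀ y, ζ y ≤ 1) ∧ (∀ y, |y| ≤ L → ζ y = 1) ∧
    (∀ y, L + w ≤ |y| → ζ y = 0) ∧ (∀ y, L + w ≤ |y| → ζ' y = 0) ∧ ∀ y, ζ (-y) = ζ y := by
  set d := (L + w) ^ 2 - L ^ 2 with hd
  have hd0 : 0 < d := by rw [hd]; nlinarith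
  set ζ : ℝ → ℝ := fun y => smoothTransition (((L + w) ^ 2 - y ^ 2) / d) with hζ
  have hs : ContDiff ℝ 1 ζ :=
    (smoothTransition.contDiff (n := 1)).comp (by fun_prop : ContDiff ℝ 1 fun y : ℝ => ((L + w) ^ 2 - y ^ 2) / d)
  have hone : ∀ y, |y| ≤ L → ζ y = 1 := fun y hy => by
    apply smoothTransition.one_of_one_le
    rw [le_div_iff₀ hd0, hd]
    have : y ^ 2 ≤ L ^ 2 := by rw [← sq_abs y]; gcongr
    linarith
  have hzero : ∀ y, L + w ≤ |y| → ζ y = 0 := fun y hy => by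
    apply smoothTransition.zero_of_nonpos
    apply div_nonpos_of_nonpos_of_nonneg _ hd0.le
    have : (L + w) ^ 2 ≤ y ^ 2 := by
      rw [← sq_abs y]
      have : 0 ≤ L + w := by linarith
      gcongr
    linarith
  have hder : ∀ y, HasDerivAt ζ (deriv ζ y) y := fun y =>
    (hs.differentiable (by norm_num) y).hasDerivAt
  refine ⟨ζ, deriv ζ, hs.continuous_deriv (by norm_num), hder, fun y => smoothTransition.nonneg _,
    fun y => smoothTransition.le_one _, hone, hzero, fun y hy => ?_, fun y => by simp [hζ]⟩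
  have hmin : IsLocalMin ζ y := Eventually.of_forall fun z => by
    rw [hzero y hy]; exact smoothTransition.nonneg _
  exact hmin.deriv_eq_zero


/-- Cutting off. -/
theorem cut_adm {L w τ : ℝ} (hL : 0 ≤ L) (hw : 0 < w) (hτ0 : 0 < τ) {fe fe' : ℝ → ℝ}
    (cfe' : Continuous fe') (dfe : ∀ y, HasDerivAt fe (fe' y) y) (ofe : ∀ y, fe (-y) = -fe y)
    (fe_nn : ∀ y, 0 ≤ y → 0 ≤ fe y) (fe_up : ∀ y, 0 ≤ y → τ * fe y ≤ 1) :
    ∃ (M1 σ : ℝ) (g1 v1 : ℝ → ℝ), 0 < M1 ∧ Adm τ M1 σ g1 v1 ∧ 0 < σ ∧ σ ≤ τ ∧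
      (∀ y, L + w ≤ y → g1 y = 0) ∧ ∀ y, 0 ≤ y → y ≤ L → g1 y = fe y := by
  obtain ⟨ζ, ζ', cζ', dζ, ζnn, ζle, ζone, ζz, ζz', ζe⟩ := exists_zeta hL hw
  have hcζ : Continuous ζ := continuous_iff_continuousAt.2 fun y => (dζ y).continuousAt
  have hcfe : Continuous fe := continuous_iff_continuousAt.2 fun y => (dfe y).continuousAt
  obtain ⟨g1, hg1⟩ : ∃ g : ℝ → ℝ, g = fun y => ζ y * fe y := ⟨_, rfl⟩
  obtain ⟨v1, hv1⟩ : ∃ g : ℝ → ℝ, g = fun y => ζ' y * fe y + ζ y * fe' y := ⟨_, rfl⟩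
  have cg1 : Continuous g1 := by rw [hg1]; exact hcζ.mul hcfe
  have cv1 : Continuous v1 := by rw [hv1]; exact (cζ'.mul hcfe).add (hcζ.mul cfe')
  have dg1 : ∀ y, HasDerivAt g1 (v1 y) y := fun y => by
    rw [hg1, hv1]; exact (dζ y).mul (dfe y)
  have og1 : ∀ y, g1 (-y) = -g1 y := fun y => by
    simp only [hg1]; rw [ζe, ofe]; ring
  have g1nn : ∀ y, 0 ≤ y → 0 ≤ g1 y := fun y hy => by
    rw [hg1]; exact mul_nonneg (ζnn y) (fe_nn y hy)
  have g1le : ∀ y, 0 ≤ y → τ * g1 y ≤ 1 := fun y hy => by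
    have h1 : g1 y ≤ fe y := by
      simp only [hg1]
      exact mul_le_of_le_one_left (fe_nn y hy) (ζle y)
    exact (mul_le_mul_of_nonneg_left h1 hτ0.le).trans (fe_up y hy)
  obtain ⟨S0, hS0⟩ : ∃ S0, S0 = L + w := ⟨_, rfl⟩
  rw [← hS0] at ζz ζz' ⊢
  have hS00 : 0 < S0 := by rw [hS0]; positivity
  have g1z : ∀ y, S0 ≤ |y| → g1 y = 0 := fun y hy => by simp only [hg1]; rw [ζz y hy, zero_mul]
  have v1z : ∀ y, S0 ≤ |y| → v1 y = 0 := fun y hy => by
    simp only [hv1]; rw [ζz y hy, ζz' y hy, zero_mul, zero_mul, add_zero]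
  obtain ⟨c0, hc0⟩ := (isCompact_Icc (a := -S0) (b := S0)).exists_bound_of_continuousOn cg1.continuousOn
  obtain ⟨c1, hc1⟩ := (isCompact_Icc (a := -S0) (b := S0)).exists_bound_of_continuousOn cv1.continuousOn
  obtain ⟨c, hc⟩ : ∃ c, c = max (max c0 c1) 1 := ⟨_, rfl⟩
  have hc1' : 1 ≤ c := by rw [hc]; exact le_max_right _ _
  have hcp : 0 < c := by linarith only [hc1']
  have bnd : ∀ y, |g1 y| ≤ c ∧ |v1 y| ≤ c := by
    intro y
    by_cases hy : S0 ≤ |y|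
    · rw [g1z y hy, v1z y hy, abs_zero]
      exact ⟨hcp.le, hcp.le⟩
    · push Not at hy
      have hyI : y ∈ Icc (-S0) S0 := ⟨by linarith only [neg_abs_le y, hy],
        by linarith only [le_abs_self y, hy]⟩
      rw [hc]
      exact ⟨(hc0 y hyI).trans ((le_max_left _ _).trans (le_max_left _ _)),
        (hc1 y hyI).trans ((le_max_right _ _).trans (le_max_left _ _))⟩
  have bndom : ∀ y, |g1 y| ≤ c * exp S0 * om y ∧ |v1 y| ≤ c * exp S0 * om y := by
    intro y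
    by_cases hy : S0 ≤ |y|
    · rw [g1z y hy, v1z y hy, abs_zero]
      have := om_pos y
      exact ⟨by positivity, by positivity⟩
    · push Not at hy
      have h1 : 1 ≤ exp S0 * om y := by
        rw [om, ← exp_add]
        apply one_le_exp
        linarith only [hy]
      have h2 : c ≤ c * exp S0 * om y := by
        calc c = c * 1 := (mul_one c).symm
          _ ≤ c * (exp S0 * om y) := by gcongr
          _ = _ := by ring
      exact ⟨(bnd y).1.trans h2, (bnd y).2.trans h2⟩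
  obtain ⟨σ, hσ⟩ : ∃ σ, σ = min τ ((1 / (τ * c)) ^ 2) := ⟨_, rfl⟩
  have hσ0 : 0 < σ := by rw [hσ]; exact lt_min hτ0 (by positivity)
  have hlip : ∀ a b, 0 ≤ a → 0 ≤ b → τ * √σ * (g1 a - g1 b) ≤ |a - b| := by
    intro a b _ _
    have h3 := Convex.norm_image_sub_le_of_norm_hasDerivWithin_le (f := g1) (f' := v1) (C := c)
      (s := univ) (x := b) (y := a) (fun x _ => (dg1 x).hasDerivWithinAt)
      (fun x _ => (bnd x).2) convex_univ (mem_univ _) (mem_univ _)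
    rw [Real.norm_eq_abs, Real.norm_eq_abs] at h3
    have h4 : √σ ≤ 1 / (τ * c) := by
      have : √σ ≤ √((1 / (τ * c)) ^ 2) := sqrt_le_sqrt (by rw [hσ]; exact min_le_right _ _)
      rwa [sqrt_sq (by positivity)] at this
    have h5 : g1 a - g1 b ≤ c * |a - b| := (le_abs_self _).trans h3
    calc τ * √σ * (g1 a - g1 b) ≤ τ * √σ * (c * |a - b|) := by
          have := sqrt_nonneg σ
          gcongr
      _ ≤ τ * (1 / (τ * c)) * (c * |a - b|) := by gcongr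
      _ = |a - b| := by field_simp
  refine ⟨c * exp S0, σ, g1, v1, by positivity,
    ⟨⟨cv1, dg1, og1, fun y => (bndom y).1, fun y => (bndom y).2⟩, g1nn, g1le, hlip⟩, hσ0,
    by rw [hσ]; exact min_le_left _ _, fun y hy => g1z y (hy.trans (le_abs_self y)), fun y hy hyL => ?_⟩
  simp only [hg1]
  rw [ζone y (by rw [abs_of_nonneg hy]; exact hyL), one_mul]

/-- `K - q ≤ 2 K x² / (x² + y²)` -/
theorem pulse_deficit {K x y q : ℝ} (hK : 0 < K) (hx : 0 < x) (hy : 0 < y) (hq : 0 ≤ q)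
    (h : K - q ≤ K * x ^ 2 / y ^ 2) : K - q ≤ K * (2 * (1 / (1 + (y / x) ^ 2))) := by
  have hA : 1 / (1 + (y / x) ^ 2) = x ^ 2 / (x ^ 2 + y ^ 2) := by
    field_simp
  rw [hA]
  have hxy : 0 < x ^ 2 + y ^ 2 := by positivity
  rcases le_total x y with hxy' | hxy'
  · have h2 : x ^ 2 / y ^ 2 ≤ 2 * (x ^ 2 / (x ^ 2 + y ^ 2)) := by
      rw [← mul_div_assoc, div_le_div_iff₀ (by positivity) hxy]
      have : x ^ 2 ≤ y ^ 2 := by gcongr
      nlinarith only [this, sq_nonneg x, mul_nonneg (sq_nonneg x) (sub_nonneg.2 this)]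
    calc K - q ≤ K * x ^ 2 / y ^ 2 := h
      _ = K * (x ^ 2 / y ^ 2) := by ring
      _ ≤ _ := by gcongr
  · have h2 : 1 ≤ 2 * (x ^ 2 / (x ^ 2 + y ^ 2)) := by
      rw [← mul_div_assoc, le_div_iff₀ hxy]
      have : y ^ 2 ≤ x ^ 2 := by gcongr
      linarith only [this]
    calc K - q ≤ K * 1 := by linarith only [hq]
      _ ≤ _ := by gcongr

/-- The potential of the pulse is small. -/
theorem pot_small {L w K N x : ℝ} (hL : 0 ≤ L) (hw : 0 < w) (hK : 0 < K) (hN : 0 < N) (hx : 0 < x)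
    {g1 q : ℝ → ℝ} (cg1 : Continuous g1) (g1nn : ∀ y, 0 ≤ y → 0 ≤ g1 y)
    (g1le : ∀ y, 0 ≤ y → 1 / (K + N) * g1 y ≤ 1)
    (g1low : ∀ y, 0 ≤ y → y ≤ L → q y - N ≤ g1 y) (hq : ∀ y, 0 ≤ y → 0 ≤ q y)
    (hq' : ∀ y, 0 < y → K - q y ≤ K * x ^ 2 / y ^ 2) :
    pot (fun _ => g1) (1 / (K + N)) (L + w) ≤
      8 * (L + w) * x + 4 * (L + w) * N / K * L + w ^ 2 := by
  obtain ⟨S0, hS0⟩ : ∃ S0, S0 = L + w := ⟨_, rfl⟩
  obtain ⟨τ, hτ⟩ : ∃ τ, τ = 1 / (K + N) := ⟨_, rfl⟩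
  rw [← hS0, ← hτ]
  rw [← hτ] at g1le
  have hS00 : 0 < S0 := by rw [hS0]; positivity
  have hKN0 : 0 < K + N := by positivity
  have hτ0 : 0 < τ := by rw [hτ]; positivity
  have hτK : τ ≤ 1 / K := by
    rw [hτ]; exact one_div_le_one_div_of_le hK (by linarith only [hN])
  obtain ⟨R, hR⟩ : ∃ R : ℝ → ℝ, R = fun y => 2 * S0 * y - y ^ 2 -
    2 * τ * (S0 * (∫ z in (0:ℝ)..y, 1 * g1 z) - ∫ z in (0:ℝ)..y, z * g1 z) := ⟨_, rfl⟩
  have dI1 : ∀ y, HasDerivAt (fun y => ∫ z in (0:ℝ)..y, 1 * g1 z) (1 * g1 y) y := fun y =>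
    ((cg1.const_mul 1).integral_hasStrictDerivAt 0 y).hasDerivAt
  have dI2 : ∀ y, HasDerivAt (fun y => ∫ z in (0:ℝ)..y, z * g1 z) (y * g1 y) y := fun y =>
    ((continuous_id.mul cg1).integral_hasStrictDerivAt 0 y).hasDerivAt
  have dR : ∀ y, HasDerivAt R (2 * (S0 - y) * (1 - τ * g1 y)) y := fun y => by
    rw [hR]
    have := (((hasDerivAt_id y).const_mul (2 * S0)).sub ((hasDerivAt_id y).pow 2)).sub
      ((((dI1 y).const_mul S0).sub (dI2 y)).const_mul (2 * τ))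
    refine this.congr_deriv ?_
    simp only [id, Nat.cast_ofNat]
    ring
  have hRS : pot (fun _ => g1) τ S0 = R S0 := by
    simp only [pot, hR]; ring
  have hR0 : R 0 = 0 := by simp [hR]
  have hcR : Continuous R := continuous_iff_continuousAt.2 fun y => (dR y).continuousAt
  have hLS : L ≤ S0 := by linarith only [hS0, hw]
  have s1 := dec_of (f := fun y => R y - (2 * S0 * y - y ^ 2))
    (f' := fun y => 2 * (S0 - y) * (1 - τ * g1 y) - (2 * S0 - 2 * y)) hLS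
    (by fun_prop) (fun y _ => by
      have := (dR y).sub (((hasDerivAt_id y).const_mul (2 * S0)).sub ((hasDerivAt_id y).pow 2))
      refine this.congr_deriv ?_
      simp only [id, Nat.cast_ofNat]
      ring) (fun y hy => by
      have h1 := g1nn y (hL.trans hy.1.le)
      have h2 : 0 ≤ (S0 - y) * (τ * g1 y) :=
        mul_nonneg (by linarith only [hy.2]) (by positivity)
      linarith only [h2])
  have s2 := dec_of (f := fun y => R y - 4 * S0 * (x * arctan (y / x)) - 4 * S0 * N / K * y)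
    (f' := fun y => 2 * (S0 - y) * (1 - τ * g1 y) - 4 * S0 * (x * (1 / (1 + (y / x) ^ 2) * (1 / x))) -
      4 * S0 * N / K) hL (by fun_prop) (fun y _ => by
      have h1 : HasDerivAt (fun y => arctan (y / x)) (1 / (1 + (y / x) ^ 2) * (1 / x)) y :=
        ((hasDerivAt_id y).div_const x).arctan
      have := ((dR y).sub ((h1.const_mul x).const_mul (4 * S0))).sub
        ((hasDerivAt_id y).const_mul (4 * S0 * N / K))
      refine this.congr_deriv ?_
      ring) (fun y hy => by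
      have hy0 : 0 < y := hy.1
      have hyL : y < L := hy.2
      have e2 := g1low y hy0.le hyL.le
      have e3 := pulse_deficit hK hx hy0 (hq y hy0.le) (hq' y hy0)
      obtain ⟨Z, hZ⟩ : ∃ Z, Z = 1 / (1 + (y / x) ^ 2) := ⟨_, rfl⟩
      rw [← hZ] at e3 ⊢
      have hZ0 : 0 < Z := by rw [hZ]; positivity
      have e4 : 1 - τ * g1 y ≤ 2 * Z + 2 * N / K := by
        have h1 : 1 = τ * (K + N) := by rw [hτ]; field_simp
        have h2 : 1 - τ * g1 y = τ * (K + N - g1 y) := by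
          calc 1 - τ * g1 y = τ * (K + N) - τ * g1 y := by rw [← h1]
            _ = _ := by ring
        have h3 : K + N - g1 y ≤ K * (2 * Z) + 2 * N := by linarith only [e2, e3]
        have h4 : 0 ≤ K * (2 * Z) + 2 * N := by positivity
        calc 1 - τ * g1 y = τ * (K + N - g1 y) := h2
          _ ≤ τ * (K * (2 * Z) + 2 * N) := mul_le_mul_of_nonneg_left h3 hτ0.le
          _ ≤ 1 / K * (K * (2 * Z) + 2 * N) := mul_le_mul_of_nonneg_right hτK h4
          _ = 2 * Z + 2 * N / K := by field_simp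
      have e5 : 0 ≤ 1 - τ * g1 y := by linarith only [g1le y hy0.le]
      have e6 : 2 * (S0 - y) * (1 - τ * g1 y) ≤ 2 * S0 * (2 * Z + 2 * N / K) := by
        have h1 : 2 * (S0 - y) ≤ 2 * S0 := by linarith only [hy0]
        exact mul_le_mul h1 e4 e5 (by positivity)
      have e7 : x * (Z * (1 / x)) = Z := by field_simp
      rw [e7]
      have e8 : 2 * S0 * (2 * Z + 2 * N / K) = 4 * S0 * Z + 4 * S0 * N / K := by ring
      linarith only [e6, e8])
  simp only [hR0, zero_div, arctan_zero, mul_zero, sub_zero] at s2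
  have a1 : arctan (L / x) ≤ 2 := by
    have := (arctan_lt_pi_div_two (L / x)).le
    linarith only [pi_le_four, this]
  have a2 : 4 * S0 * (x * arctan (L / x)) ≤ 4 * S0 * (x * 2) := by gcongr
  have a4 : (2 * S0 * S0 - S0 ^ 2) - (2 * S0 * L - L ^ 2) = w ^ 2 := by rw [hS0]; ring
  rw [hRS]
  linarith only [s1, s2, a2, a4]

/-- The core of stage one. -/
theorem stage1_core {L M K x : ℝ} (hL : 0 ≤ L) (hM : 1 ≤ M) {e e' : ℝ → ℝ} (he : Odd1 M M e e')
    (hx0 : 0 < x) (hx1 : x ≤ 1) (hKN : M * cE + 1 ≤ K) {κ : ℝ} (hκ : 0 < κ)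
    (hκK : M * cE + 1 ≤ κ * K) {q q' : ℝ → ℝ → ℝ}
    (hq : Back (x ^ 2) (L + 1) (K / x ^ 2) (2 * K / x) q q')
    (hqo : ∀ t y, q t (-y) = -q t y)
    (hq' : ∀ t ∈ Ioc 0 (x ^ 2), ∀ y, |q' t y| ≤ 2 * K / x)
    (hqK : ∀ t ∈ Icc 0 (x ^ 2), ∀ y, 0 ≤ y → 0 ≤ q t y ∧ q t y ≤ K)
    (hqlow : ∀ y, 0 ≤ y → κ * K * min (y / x) 1 ≤ q (x ^ 2) y)
    (y1 : 336 * cE * (L + 1) * K * x ≤ 1) (y2 : 78 * (L + 1) * cE * K ^ 2 * x ≤ 1)
    (y3 : (M * cE + 156 * (L + 1) * cE * K ^ 2) * x ≤ κ * K) (y4 : M * cE * x ≤ 1) :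
    ∃ (C : ℝ) (J : Set ℝ) (f v : ℝ → ℝ → ℝ) (fe fe' : ℝ → ℝ), 0 ≤ C ∧
      TrL 0 (x ^ 2) L C J f f v (fun _ => 0 + K / x ^ 2) ∧ (∀ y, f 0 y = e y + q 0 y) ∧
      (∀ y, f (x ^ 2) y = fe y) ∧ Continuous fe' ∧ (∀ y, HasDerivAt fe (fe' y) y) ∧
      (∀ y, fe (-y) = -fe y) ∧ (∀ y, 0 ≤ y → 0 ≤ fe y) ∧
      (∀ y, 0 ≤ y → fe y ≤ K + (M * cE + 1)) ∧
      ∀ y, 0 ≤ y → q (x ^ 2) y - (M * cE + 1) ≤ fe y := by
  obtain ⟨χ, hχ⟩ := exists_cut hL
  have hE := one_le_cE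
  obtain ⟨t0, ht0d⟩ : ∃ t0, t0 = x ^ 2 := ⟨_, rfl⟩
  have hsq : √t0 = x := by rw [ht0d, sqrt_sq hx0.le]
  have ht00 : 0 < t0 := by rw [ht0d]; positivity
  have ht01 : t0 ≤ 1 := by rw [ht0d]; nlinarith only [hx0, hx1]
  have y1' : 336 * cE * t0 * (L + 1) * K ≤ x := by
    calc 336 * cE * t0 * (L + 1) * K = (336 * cE * (L + 1) * K * x) * x := by rw [ht0d]; ring
      _ ≤ 1 * x := by gcongr
      _ = x := one_mul x
  have y2' : 78 * (L + 1) * cE * K ^ 2 * t0 ≤ x := by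
    calc 78 * (L + 1) * cE * K ^ 2 * t0 = (78 * (L + 1) * cE * K ^ 2 * x) * x := by rw [ht0d]; ring
      _ ≤ 1 * x := by gcongr
      _ = x := one_mul x
  rw [← ht0d] at hq hq' hqK hqlow ⊢
  have ht0 : t0 ∈ Ioc (0:ℝ) 1 := ⟨ht00, ht01⟩
  obtain ⟨S, hSd⟩ : ∃ S, S = L + 1 := ⟨_, rfl⟩
  rw [← hSd] at hχ hq y1 y2 y3 y1' y2'
  have hS : 1 ≤ S := by linarith only [hSd, hL]
  obtain ⟨E, hEd⟩ : ∃ E, E = cE := ⟨_, rfl⟩
  have hE1 : 1 ≤ E := by rw [hEd]; exact hE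
  have hE0 : 0 < E := by linarith only [hE1]
  have hM0 : 0 < M := by linarith only [hM]
  have hK0 : 0 < K := by
    have : 0 < M * cE := mul_pos hM0 cE_pos
    linarith only [this, hKN]
  have hS0 : 0 < S := by linarith only [hS]
  have hbe := he.back ht01 S
  have hback := hbe.add hq (fun y => ⟨M * cE, fun t ht => (he.heat ⟨ht.1.le, ht.2.trans ht01⟩).b1 y⟩)
    (fun y => ⟨2 * K / x, fun t ht => hq' t ht y⟩)
  obtain ⟨A0, hA0⟩ : ∃ A0, A0 = 2 * K := ⟨_, rfl⟩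
  obtain ⟨A1, hA1⟩ : ∃ A1, A1 = 3 * K / x := ⟨_, rfl⟩
  have hK1 : 1 ≤ K := by
    have : 0 < M * cE := mul_pos hM0 cE_pos
    linarith only [this, hKN]
  have hA1' : M * cE + 2 * K / x ≤ A1 := by
    rw [hA1]
    have : M * cE ≤ K / x := by
      rw [le_div_iff₀ hx0]
      linarith only [y4, hK1]
    have e1 : 3 * K / x = K / x + 2 * K / x := by ring
    linarith only [this, e1]
  have hA01 : A0 ≤ A1 := by
    rw [hA0, hA1, le_div_iff₀ hx0]
    have : 2 * K * x ≤ 2 * K * 1 := by gcongr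
    linarith only [this, hK0]
  have hA00 : 0 ≤ A0 := by linarith only [hA0, hK0]
  have hbackA := hback.monoA (A' := A1) hA1'
  have hFA : ∀ t ∈ Icc 0 t0, ∀ y ∈ Icc 0 S, |H t e y + q t y| ≤ A0 := by
    intro t ht y hy
    have h1 := (he.heat ⟨ht.1, ht.2.trans ht01⟩).b0 y
    have h2 := hqK t ht y hy.1
    have h3 : |q t y| ≤ K := by rw [abs_of_nonneg h2.1]; exact h2.2
    have h4 := abs_add_le (H t e y) (q t y)
    linarith only [h1, h3, h4, hA0, hKN]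
  have hLS : L ≤ S := by linarith only [hSd]
  rw [← hEd] at y1 y2 y3 y4 y1' y2' hKN hκK
  obtain ⟨f, v, r, r', hT, hf0, hfr, hr, -⟩ := nl_piece hχ ht0 hS hL hLS
    hA00 hA01 hbackA hFA
    (by
      have : 112 * cE * t0 * S * A1 = (336 * E * t0 * S * K) / x := by
        rw [hA1, ← hEd]; ring
      rw [this, div_le_one hx0]; exact y1')
    (by
      rw [hsq, hA0, ← hEd]
      have : 26 * E * x * S * (2 * K) = 52 * (E * S * K * x) := by ring
      have h2 : 0 < E * S * K * x := by positivity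
      linarith only [this, h2, y1])
  have ht0' : t0 ∈ Ioc 0 t0 := ⟨ht00, le_rfl⟩
  have hr0 := hr t0 ht0'
  rw [← hEd] at hr0 hT
  have hB1 : t0 * (13 * S * A0 * A1 * E) ≤ 1 := by
    have : t0 * (13 * S * A0 * A1 * E) = (78 * S * E * K ^ 2 * t0) / x := by
      rw [hA1, hA0]; ring
    rw [this, div_le_one hx0]; exact y2'
  have hB2 : 2 * √t0 * (13 * S * A0 * A1 * E) = 156 * S * E * K ^ 2 := by
    rw [hsq, hA1, hA0]; field_simp; norm_num
  rw [hB2] at hr0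
  have hr1 := hr0.mono hB1 le_rfl
  have hh := he.heat ⟨ht00.le, ht01⟩
  rw [← hEd] at hh
  obtain ⟨fe, hfe⟩ : ∃ u : ℝ → ℝ, u = fun y => H t0 e y + q t0 y + r t0 y := ⟨_, rfl⟩
  obtain ⟨fe', hfe'⟩ : ∃ u : ℝ → ℝ, u = fun y => H t0 e' y + q' t0 y + r' t0 y := ⟨_, rfl⟩
  have ht0I : t0 ∈ Icc 0 t0 := ⟨ht00.le, le_rfl⟩
  have dfe : ∀ y, HasDerivAt fe (fe' y) y := fun y => by
    rw [hfe, hfe']; exact (hback.d t0 ht0' y).add (hr1.d y)
  have cfe' : Continuous fe' := by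
    rw [hfe']
    have : Continuous (fun y => H t0 e' y + q' t0 y) :=
      hback.c1.comp_continuous (f := fun y : ℝ => (t0, y)) (by fun_prop) fun y => ⟨ht0', mem_univ _⟩
    exact this.add hr1.c
  have ofe : ∀ y, fe (-y) = -fe y := fun y => by
    simp only [hfe]
    rw [hh.odd, hqo, hr1.odd]; ring
  have hbr : ∀ y, |H t0 e y| + |r t0 y| ≤ M * E + 1 := fun y => by
    have h1 := hh.b0 y
    have h2 := hr1.b0 y
    linarith only [h1, h2]
  have lip0 : ∀ {u u' : ℝ → ℝ} {m c : ℝ}, Odd1 m c u u' → ∀ y, 0 ≤ y → |u y| ≤ c * y := by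
    intro u u' m c hu y hy
    have h3 := Convex.norm_image_sub_le_of_norm_hasDerivWithin_le (f := u) (f' := u') (C := c)
      (s := univ) (x := 0) (y := y) (fun x _ => (hu.d x).hasDerivWithinAt)
      (fun x _ => hu.b1 x) convex_univ (mem_univ _) (mem_univ _)
    have h4 : u 0 = 0 := by have := hu.odd 0; rw [neg_zero] at this; linarith only [this]
    rw [h4, sub_zero, sub_zero, Real.norm_eq_abs, Real.norm_eq_abs, abs_of_nonneg hy] at h3
    exact h3
  rw [← hEd]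
  have fe_low' : ∀ y, 0 ≤ y → q t0 y - (M * E + 1) ≤ fe y := fun y hy => by
    have h1 := hbr y
    have h3 := neg_abs_le (H t0 e y)
    have h4 := neg_abs_le (r t0 y)
    simp only [hfe]
    linarith only [h1, h3, h4]
  refine ⟨_, {0}, f, v, fe, fe', ?_, hT, fun y => ?_, fun y => ?_, cfe', dfe, ofe, fun y hy => ?_,
    fun y hy => ?_, fe_low'⟩
  · have : 0 ≤ A1 := hA00.trans hA01
    have := abs_nonneg (0 + K / t0)
    positivity
  · rw [hf0]
    show H 0 e y + q 0 y = e y + q 0 y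
    rw [H_zero]
  · rw [hfr t0 ht0I y, hfe]
  · have hl := hqlow y hy
    rcases le_total x y with hxy | hxy
    · have h1 : 1 ≤ y / x := by rw [le_div_iff₀ hx0]; linarith only [hxy]
      rw [min_eq_right h1, mul_one] at hl
      have := fe_low' y hy
      linarith only [this, hl, hκK]
    · have h1 : y / x ≤ 1 := by rw [div_le_one hx0]; exact hxy
      rw [min_eq_left h1] at hl
      have h2 := lip0 hh y hy
      have h3 := lip0 hr1 y hy
      have h4 := neg_abs_le (H t0 e y)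
      have h5 := neg_abs_le (r t0 y)
      have h6 : (M * E + 156 * S * E * K ^ 2) * y ≤ κ * K * (y / x) := by
        rw [mul_div_assoc', le_div_iff₀ hx0]
        calc (M * E + 156 * S * E * K ^ 2) * y * x = (M * E + 156 * S * E * K ^ 2) * x * y := by ring
          _ ≤ κ * K * y := mul_le_mul_of_nonneg_right y3 hy
      simp only [hfe]
      linarith only [h2, h3, h4, h5, h6, hl]
  · have h1 := hbr y
    have h2 := (hqK t0 ht0I y hy).2
    have h3 := le_abs_self (H t0 e y)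
    have h4 := le_abs_self (r t0 y)
    simp only [hfe]
    linarith only [h1, h2, h3, h4]

/-- Stage one. -/
theorem stage1 {L M : ℝ} (hL : 0 ≤ L) (hM : 1 ≤ M) {e e' : ℝ → ℝ} (he : Odd1 M M e e') {η : ℝ}
    (hη : 0 < η) (hη1 : η ≤ 1) :
    ∃ (t0 τ S0 C σ M1 : ℝ) (J : Set ℝ) (f v : ℝ → ℝ → ℝ) (P : ℝ → ℝ) (g1 v1 : ℝ → ℝ),
      0 < t0 ∧ t0 ≤ η ∧ 0 < τ ∧ τ ≤ η ∧ 0 < S0 ∧ S0 ≤ L + 1 ∧ 0 ≤ C ∧ TrL 0 t0 L C J f f v P ∧
      (∀ y ∈ Icc 0 L, f 0 y = e y) ∧ (∀ y ∈ Icc 0 L, f t0 y = g1 y) ∧ 0 < M1 ∧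
      Adm τ M1 σ g1 v1 ∧ 0 < σ ∧ σ ≤ τ ∧ (∀ y, S0 ≤ y → g1 y = 0) ∧
      pot (fun _ => g1) τ S0 ≤ η := by
  obtain ⟨κ, hκ, hpulse⟩ := pulse
  have hE := one_le_cE
  have hEp := cE_pos
  have hM0 : 0 < M := by linarith only [hM]
  obtain ⟨S, hSd⟩ : ∃ S, S = L + 1 := ⟨_, rfl⟩
  have hS : 1 ≤ S := by linarith only [hSd, hL]
  have hS0 : 0 < S := by linarith only [hS]
  obtain ⟨N, hN⟩ : ∃ N, N = M * cE + 1 := ⟨_, rfl⟩
  have hN1 : 1 ≤ N := by
    have : 0 < M * cE := by positivity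
    linarith only [this, hN]
  have hN0 : 0 < N := by linarith only [hN1]
  obtain ⟨K, hK⟩ : ∃ K, K = N / κ + N + 1 / η + 16 * S ^ 2 * N / η := ⟨_, rfl⟩
  have k1 : 0 < N / κ := by positivity
  have k2 : 0 < 1 / η := by positivity
  have k3 : 0 < 16 * S ^ 2 * N / η := by positivity
  have hKN : N ≤ K := by linarith only [hK, k1, k2, k3]
  have hK0 : 0 < K := by linarith only [hKN, hN0]
  have hκK : N ≤ κ * K := by
    have : N / κ ≤ K := by linarith only [hK, hN0, k2, k3]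
    rw [div_le_iff₀ hκ] at this
    linarith only [this]
  have hKη : 1 / K ≤ η := by
    have : 1 / η ≤ K := by linarith only [hK, hN0, k1, k3]
    rw [div_le_iff₀ hη] at this
    rw [div_le_iff₀ hK0]
    linarith only [this]
  have hKS : 4 * S ^ 2 * N / K ≤ η / 4 := by
    have : 16 * S ^ 2 * N / η ≤ K := by linarith only [hK, hN0, k1, k2]
    rw [div_le_iff₀ hη] at this
    rw [div_le_iff₀ hK0]
    linarith only [this]
  obtain ⟨X, hX⟩ : ∃ X, X = 336 * cE * S * K + 78 * S * cE * K ^ 2 +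
    (M * cE + 156 * S * cE * K ^ 2) / (κ * K) + M * cE + 64 * S / η + 1 / η + 1 := ⟨_, rfl⟩
  have x1 : 0 < 336 * cE * S * K := by positivity
  have x2 : 0 < 78 * S * cE * K ^ 2 := by positivity
  have x3 : 0 < (M * cE + 156 * S * cE * K ^ 2) / (κ * K) := by positivity
  have x4 : 0 < M * cE := by positivity
  have x5 : 0 < 64 * S / η := by positivity
  have hX0 : 0 < X := by linarith only [hX, x1, x2, x3, x4, x5, k2]
  obtain ⟨x, hx⟩ : ∃ x, x = 1 / X := ⟨_, rfl⟩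
  have hx0 : 0 < x := by rw [hx]; positivity
  have hxX : ∀ {c : ℝ}, c ≤ X → x * c ≤ 1 := fun {c} hc => by
    calc x * c ≤ x * X := by gcongr
      _ = 1 := by rw [hx]; field_simp
  have hx1 : x ≤ 1 := by
    have := hxX (c := 1) (by linarith only [hX, x1, x2, x3, x4, x5, k2])
    rwa [mul_one] at this
  have hxη : x ≤ η := by
    have := hxX (c := 1 / η) (by linarith only [hX, x1, x2, x3, x4, x5])
    rwa [mul_one_div, div_le_one hη] at this
  have y1 : 336 * cE * (L + 1) * K * x ≤ 1 := by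
    have := hxX (c := 336 * cE * S * K) (by linarith only [hX, x2, x3, x4, x5, k2])
    rw [← hSd]; linarith only [this]
  have y2 : 78 * (L + 1) * cE * K ^ 2 * x ≤ 1 := by
    have := hxX (c := 78 * S * cE * K ^ 2) (by linarith only [hX, x1, x3, x4, x5, k2])
    rw [← hSd]; linarith only [this]
  have y3 : (M * cE + 156 * (L + 1) * cE * K ^ 2) * x ≤ κ * K := by
    have := hxX (c := (M * cE + 156 * S * cE * K ^ 2) / (κ * K))
      (by linarith only [hX, x1, x2, x4, x5, k2])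
    rw [mul_div_assoc', div_le_one (by positivity)] at this
    rw [← hSd]; linarith only [this]
  have y4 : M * cE * x ≤ 1 := by
    have := hxX (c := M * cE) (by linarith only [hX, x1, x2, x3, x5, k2])
    linarith only [this]
  have y5 : 64 * S * x ≤ η := by
    have := hxX (c := 64 * S / η) (by linarith only [hX, x1, x2, x3, x4, k2])
    rw [mul_div_assoc', div_le_one hη] at this
    linarith only [this]
  have ht0 : x ^ 2 ∈ Ioc (0:ℝ) 1 := ⟨by positivity, by nlinarith only [hx0, hx1]⟩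
  have hsq : √(x ^ 2) = x := sqrt_sq hx0.le
  obtain ⟨q, q', hq, hq0, hqo, hq', hqK, hqlow, hqup⟩ := hpulse (x ^ 2) ht0 K (L + 1) hK0.le
  rw [hsq] at hq hq' hqlow
  rw [hN] at hKN hκK
  obtain ⟨C, J, f, v, fe, fe', hC, hT, hf0, hf1, cfe', dfe, ofe, fnn, fup, flow⟩ :=
    stage1_core hL hM he hx0 hx1 hKN hκ hκK hq hqo hq' hqK hqlow y1 y2 y3 y4
  rw [← hN] at fup flow
  have hτ0 : 0 < 1 / (K + N) := by positivity
  have hw : 0 < η / 2 := by positivity
  have hfup' : ∀ y, 0 ≤ y → 1 / (K + N) * fe y ≤ 1 := fun y hy => by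
    have h1 := fup y hy
    rw [one_div_mul_eq_div, div_le_one (by positivity)]
    exact h1
  obtain ⟨M1, σ, g1, v1, hM1, hA, hσ, hστ, gz, ge⟩ := cut_adm hL hw hτ0 cfe' dfe ofe fnn hfup'
  have hpot := pot_small hL hw hK0 hN0 hx0 hA.dat.cg hA.nn hA.le
    (fun y hy hyL => by rw [ge y hy hyL]; exact flow y hy)
    (fun y hy => (hqK (x ^ 2) ⟨ht0.1.le, le_rfl⟩ y hy).1) hqup
  have hS0S : L + η / 2 ≤ S := by linarith only [hSd, hη1]
  refine ⟨x ^ 2, 1 / (K + N), L + η / 2, C, σ, M1, J, f, v, _, g1, v1, ht0.1, ?_, hτ0, ?_,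
    by positivity, by rw [← hSd]; exact hS0S, hC, hT, fun y _ => ?_, fun y hy => ?_, hM1, hA, hσ,
    hστ, gz, hpot.trans ?_⟩
  · nlinarith only [hx0, hx1, hxη]
  · refine le_trans ?_ hKη
    exact one_div_le_one_div_of_le hK0 (by linarith only [hN0])
  · rw [hf0, hq0, add_zero]
  · rw [hf1, ge y hy.1 hy.2]
  · have a2 : 8 * (L + η / 2) * x ≤ 8 * S * x := by gcongr
    have a3 : 4 * (L + η / 2) * N / K * L ≤ η / 4 := by
      refine le_trans ?_ hKS
      rw [div_mul_eq_mul_div]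
      have hLS' : L ≤ S := by linarith only [hSd]
      have : 4 * (L + η / 2) * N * L ≤ 4 * S ^ 2 * N := by
        calc 4 * (L + η / 2) * N * L ≤ 4 * S * N * S := by gcongr
          _ = 4 * S ^ 2 * N := by ring
      gcongr
    have a5 : (η / 2) ^ 2 ≤ η / 4 := by nlinarith only [hη, hη1]
    linarith only [a2, a3, a5, y5, hη]

end Pool.Agent.Lib.MP_79abb3_an
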