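import Pool.Agent.Lib.MP_79abb3_an.Flush3
import Pool.Agent.Lib.MP_79abb3_an.Iter
import Pool.Agent.Lib.MP_79abb3_an.Stage1

/-!
Global null controllability of the profile equation, and of the pair.
-/

set_option autoImplicit false
set_option linter.unusedSectionVars false
set_option linter.unusedVariables false

open MeasureTheory Set Filter Topology Real Function

namespace Pool.Agent.Lib.MP_79abb3_an

/-- A solution of the half line problem is a piece. -/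
theorem Sol.trl {a b T1 L : ℝ} {g v w : ℝ → ℝ → ℝ} (h : Sol (Icc a b) (Ioc a b) g v w) (hab : a < b)
    (hT1 : T1 ≤ b) (hL : 0 ≤ L) : ∃ C, 0 ≤ C ∧ TrL a T1 L C ∅ g g v (fun _ => 0) := by
  obtain ⟨C, hC⟩ := h.bd
  have hC0 : 0 ≤ C := by
    have := (hC a ⟨le_rfl, hab.le⟩ 0).1
    rw [om_zero, mul_one] at this
    exact (abs_nonneg _).trans this
  have hsub : Icc a T1 ⊆ Icc a b := Icc_subset_Icc_right hT1
  refine ⟨C, hC0, countable_empty, h.cg.mono (prod_mono hsub (subset_univ _)),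
    h.cv.mono (prod_mono (sdiff_subset.trans hsub) (subset_univ _)), continuousOn_const, ?_,
    fun t ht y _ => (h.dg t (hsub ht.1) y).hasDerivWithinAt, fun t ht => h.z (hsub ht),
    fun t ht y hy => ?_⟩
  · intro t ht
    rw [abs_zero]
    refine ⟨hC0, fun y _ => ?_⟩
    calc |v t y| ≤ C * om y := (hC t (hsub ht.1) y).2
      _ ≤ C * 1 := by have := om_le y; gcongr
      _ = C := mul_one C
  · have ht' : t ∈ Ioo a b := ⟨ht.1.1, ht.1.2.trans_le hT1⟩
    have htJ : t ∈ Ioc a b := ⟨ht'.1, ht'.2.le⟩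
    have htI : t ∈ Icc a b := ⟨ht'.1.le, ht'.2.le⟩
    have h1 := deriv_int h (k := fun _ => 1) continuous_const ht' hy.1
    have e1 : (fun s => ∫ z in (0:ℝ)..y, 1 * g s z) = fun s => ∫ z in (0:ℝ)..y, g s z := by
      ext s
      exact intervalIntegral.integral_congr fun z _ => one_mul _
    rw [e1] at h1
    refine h1.congr_deriv ?_
    have cw : Continuous (w t) := slice' h.cw htJ
    have cv : Continuous (v t) := slice' h.cv htI
    have cg := h.cg1 htI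
    have cG : Continuous fun z => ∫ x in (0:ℝ)..z, g t x :=
      continuous_iff_continuousAt.2 fun y =>
        ((cg.integral_hasStrictDerivAt 0 y).hasDerivAt).continuousAt
    have e2 : ∫ z in (0:ℝ)..y, w t z = v t y - v t 0 :=
      intervalIntegral.integral_eq_sub_of_hasDerivAt (fun z _ => h.dv t htJ z)
        (cw.intervalIntegrable _ _)
    have e3 : ∫ z in (0:ℝ)..y, 1 * (w t z + qG g v t z) = (∫ z in (0:ℝ)..y, w t z) +
        ∫ z in (0:ℝ)..y, ((∫ x in (0:ℝ)..z, g t x) * v t z - g t z * g t z) := by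
      rw [← intervalIntegral.integral_add (cw.intervalIntegrable _ _)]
      · refine intervalIntegral.integral_congr fun z _ => ?_
        simp only [qG]
        ring
      · exact (by fun_prop : Continuous fun z => ((∫ x in (0:ℝ)..z, g t x) * v t z -
          g t z * g t z)).intervalIntegrable _ _
    rw [e3, e2]
    ring

/-- The flushing stage. -/
theorem stage2 {L T1 μ Λ : ℝ} (hL : 0 ≤ L) (hT1 : 0 < T1) (hT1' : T1 ≤ 1) (hμ : 0 < μ)
    (hΛ : 2 / T1 * (√(T1 / 2))⁻¹ ≤ Λ) :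
    ∃ η : ℝ, 0 < η ∧ η ≤ 1 ∧ η ≤ T1 / 2 ∧ ∀ (τ S0 M1 σ : ℝ) (g1 v1 : ℝ → ℝ), 0 < τ → τ ≤ η →
      0 < S0 → S0 ≤ L + 1 → 0 < M1 → Adm τ M1 σ g1 v1 → 0 < σ → σ ≤ τ → (∀ y, S0 ≤ y → g1 y = 0) →
      pot (fun _ => g1) τ S0 ≤ η → ∃ (C : ℝ) (g v : ℝ → ℝ → ℝ), 0 ≤ C ∧
        TrL τ T1 L C ∅ g g v (fun _ => 0) ∧ g τ = g1 ∧ Odd1 μ Λ (g T1) (v T1) := by
  have hΛ0 : 0 < Λ := lt_of_lt_of_le (by positivity) hΛ
  obtain ⟨ε, hε⟩ : ∃ ε, ε = μ ^ 3 / (16 * Λ ^ 2) := ⟨_, rfl⟩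
  have hε0 : 0 < ε := by rw [hε]; positivity
  obtain ⟨c, hc⟩ : ∃ c, c = (ε ^ 2 / 1100) ^ 2 := ⟨_, rfl⟩
  have hc0 : 0 < c := by rw [hc]; positivity
  obtain ⟨θ, hθ⟩ : ∃ θ, θ = T1 * exp (-(201 / c)) := ⟨_, rfl⟩
  have hθ0 : 0 < θ := by rw [hθ]; positivity
  have hθT : θ < T1 := by
    have h1 : exp (-(201 / c)) < 1 := by
      rw [exp_lt_one_iff]
      have : 0 < 201 / c := by positivity
      linarith only [this]
    calc θ = T1 * exp (-(201 / c)) := hθ
      _ < T1 * 1 := by gcongr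
      _ = T1 := mul_one _
  have hlog : 100 < (1/2) * (ε ^ 2 / 1100) ^ 2 * log (T1 / θ) := by
    have h1 : T1 / θ = exp (201 / c) := by
      rw [hθ, exp_neg]; field_simp
    rw [h1, log_exp, ← hc]
    have : (1/2) * c * (201 / c) = 201 / 2 := by field_simp
    rw [this]; norm_num
  obtain ⟨S, hS⟩ : ∃ S, S = L + 1 := ⟨_, rfl⟩
  have hS1 : 1 ≤ S := by linarith only [hS, hL]
  obtain ⟨s, hs⟩ : ∃ s, s = θ / (34 * S) := ⟨_, rfl⟩
  have hs0 : 0 < s := by rw [hs]; positivity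
  have hsS : s * (34 * S) = θ := by rw [hs]; field_simp
  have hθ1 : θ ≤ 1 := by linarith only [hθT, hT1']
  have hs34 : 34 * s ≤ θ := by
    have : s * (34 * 1) ≤ s * (34 * S) := by gcongr
    linarith only [this, hsS]
  have hs1 : s ≤ 1 := by linarith only [hs34, hθ1, hs0]
  have hssq : s ^ 2 ≤ s := by nlinarith only [hs0, hs1]
  refine ⟨s ^ 2, by positivity, by linarith only [hssq, hs1], by linarith only [hssq, hs34, hθT, hs0], ?_⟩
  intro τ S0 M1 σ g1 v1 hτ hτη hS0 hS0S hM1 hA hσ hστ hsupp hpot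
  have hτθ : τ < θ := by linarith only [hτη, hssq, hs34, hs0]
  have hτT : τ ≤ T1 / 2 := by linarith only [hτη, hssq, hs34, hs0, hθT]
  have hτb : τ < 2 * T1 := by linarith only [hτT, hT1]
  obtain ⟨g, v, w, hsol, hg, hv⟩ := global hτ hτb hM1 hA
  have hA' : Adm τ M1 σ (g τ) (v τ) := by rw [hg, hv]; exact hA
  have hnn := hsol.nn' hτb hA'
  have hle := hsol.le' hτ hτb hA'
  have hgr := hsol.gr' hτ hτb hσ hστ hA'
  obtain ⟨C, hC, htr⟩ := hsol.trl hτb (by linarith only [hT1] : T1 ≤ 2 * T1) hL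
  have hT1I : T1 ∈ Icc τ (2 * T1) := ⟨by linarith only [hτT, hT1], by linarith only [hT1]⟩
  have hsθ : 0 < √θ := sqrt_pos.2 hθ0
  have hflush : mom 1 (g T1) < ε := by
    refine hsol.flush hτ hτb hnn hle ?_ hS0 (fun y hy => by rw [hg]; exact hsupp y hy) hτθ hθT
      (by linarith only [hT1]) hε0 ?_ hlog
    · intro t ht
      refine (hgr t ⟨ht.1.le, ht.2⟩ 0 le_rfl).trans ?_
      have h1 : 0 < t := hτ.trans ht.1
      have h2 : 0 < √(t - τ) := sqrt_pos.2 (by linarith only [ht.1])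
      have h3 : √(t - τ) ≤ √(t - τ + σ) := sqrt_le_sqrt (by linarith only [hσ])
      gcongr
    · have e1 : pot g τ S0 = pot (fun _ => g1) τ S0 := by simp only [pot, hg]
      have hsτ : √τ ≤ s := by
        rw [← sqrt_sq hs0.le]; exact sqrt_le_sqrt hτη
      have hS0S' : S0 ≤ S := by rw [hS]; exact hS0S
      have h1 : pot g τ S0 + 4 * π * S0 * √τ ≤ θ := by
        have h2 : 4 * π * S0 * √τ ≤ 4 * 4 * S * s := by
          have := pi_le_four
          gcongr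
        have h3 : s ≤ S * s := by nlinarith only [hs0, hS1]
        rw [e1]
        linarith only [h2, h3, hpot, hssq, hsS, hs0]
      have h4 : √(pot g τ S0 + 4 * π * S0 * √τ) ≤ √θ := sqrt_le_sqrt h1
      have h5 : τ * S0 / θ ≤ √θ := by
        rw [div_le_iff₀ hθ0]
        have h6 : τ * S0 ≤ s ^ 2 * S := by gcongr
        have h7 : s ^ 2 * S ≤ s * θ := by
          calc s ^ 2 * S = s * (s * S) := by ring
            _ ≤ s * θ := by
                have : s * S ≤ θ := by nlinarith only [hsS, hs0, hS1]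
                gcongr
        have h8 : s ≤ √θ := by
          have h9 : θ ≤ √θ := by
            have h10 : √θ ≤ 1 := by rw [sqrt_le_one]; exact hθ1
            have h11 := mul_self_sqrt hθ0.le
            nlinarith only [h10, h11, hsθ]
          linarith only [h9, hs34, hs0]
        calc τ * S0 ≤ s * θ := h6.trans h7
          _ ≤ √θ * θ := by gcongr
      linarith only [h4, h5]
  obtain ⟨C', hC'⟩ := hsol.bd
  have hvΛ : ∀ y, 0 ≤ y → |v T1 y| ≤ Λ := by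
    intro y hy
    refine (hgr T1 ⟨hT1I.1, by linarith only [hT1]⟩ y hy).trans (le_trans ?_ hΛ)
    have h2 : 0 < √(T1 / 2) := sqrt_pos.2 (by positivity)
    have h3 : √(T1 / 2) ≤ √(T1 - τ + σ) := sqrt_le_sqrt (by linarith only [hσ, hτT])
    gcongr
  have hgμ : ∀ y, 0 ≤ y → |g T1 y| ≤ μ := by
    intro y hy
    have h1 := sup_of_mom (hsol.dg T1 hT1I) (K := C') (fun ξ hξ => by
      have := (hC' T1 hT1I ξ).1
      rwa [om_of_nonneg hξ] at this) (hnn T1 hT1I) hΛ0 hvΛ hy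
    have h2 : 16 * Λ ^ 2 * mom 1 (g T1) ≤ μ ^ 3 := by
      calc 16 * Λ ^ 2 * mom 1 (g T1) ≤ 16 * Λ ^ 2 * ε := by gcongr
        _ = μ ^ 3 := by rw [hε]; field_simp
    have h3 := hnn T1 hT1I y hy
    rw [abs_of_nonneg h3]
    exact le_of_pow_le_pow_left₀ (by norm_num) hμ.le (h1.trans h2)
  have hev := even_of_odd (hsol.dg T1 hT1I) (hsol.odd T1 hT1I)
  refine ⟨C, g, v, hC, htr, hg, slice' hsol.cv hT1I, hsol.dg T1 hT1I, hsol.odd T1 hT1I, fun y => ?_,
    fun y => ?_⟩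
  · rcases le_total 0 y with hy | hy
    · exact hgμ y hy
    · have := hgμ (-y) (by linarith only [hy])
      rwa [hsol.odd T1 hT1I, abs_neg] at this
  · rcases le_total 0 y with hy | hy
    · exact hvΛ y hy
    · have := hvΛ (-y) (by linarith only [hy])
      rwa [hev] at this

/-- Global null controllability of the profile equation in small time. -/
theorem g_ctrl {L T M : ℝ} (hL : 0 ≤ L) (hT : 0 < T) {e e' : ℝ → ℝ} (he : Odd1 M M e e') :
    ∃ (b C : ℝ) (J : Set ℝ) (g v : ℝ → ℝ → ℝ) (P : ℝ → ℝ), 0 < b ∧ b ≤ T ∧ 0 ≤ C ∧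
      TrL 0 b L C J g g v P ∧ (∀ y ∈ Icc 0 L, g 0 y = e y) ∧ ∀ y ∈ Icc 0 L, g b y = 0 := by
  obtain ⟨T', hT'⟩ : ∃ T', T' = min T 1 := ⟨_, rfl⟩
  have hT'0 : 0 < T' := by rw [hT']; exact lt_min hT one_pos
  have hT'T : T' ≤ T := by rw [hT']; exact min_le_left _ _
  have hT'1 : T' ≤ 1 := by rw [hT']; exact min_le_right _ _
  obtain ⟨T1, hT1⟩ : ∃ T1, T1 = T' / 8 := ⟨_, rfl⟩
  have hT10 : 0 < T1 := by rw [hT1]; positivity
  obtain ⟨Λ, hΛ⟩ : ∃ Λ, Λ = max 1 (2 / T1 * (√(T1 / 2))⁻¹) := ⟨_, rfl⟩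
  have hΛ1 : 1 ≤ Λ := by rw [hΛ]; exact le_max_left _ _
  have hΛ2 : 2 / T1 * (√(T1 / 2))⁻¹ ≤ Λ := by rw [hΛ]; exact le_max_right _ _
  obtain ⟨μ, hμ, hloc⟩ := local_ctrl hL (by positivity : 0 < T' / 4) hΛ1
  obtain ⟨η, hη, hη1, hηT, hst2⟩ := stage2 hL hT10 (by linarith only [hT1, hT'1, hT'0]) hμ hΛ2
  have he' : Odd1 (max M 1) (max M 1) e e' := he.mono (le_max_left _ _) (le_max_left _ _)
  obtain ⟨t0, τ, S0, C1, σ, M1, J1, f, v, P, g1, v1, ht0, ht0η, hτ, hτη, hS0, hS0L, hC1, hT1p, hf0,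
    hf1, hM1, hA, hσ, hστ, gz, hpot⟩ := stage1 hL (le_max_right _ _) he' hη hη1
  obtain ⟨C2, G, V, hC2, hT2p, hGτ, hodd⟩ := hst2 τ S0 M1 σ g1 v1 hτ hτη hS0 hS0L hM1 hA hσ hστ gz hpot
  obtain ⟨b3, C3, J3, G3, V3, hb3, hb3T, hC3, hT3p, hG30, hG3b⟩ := hloc _ _ hodd
  obtain ⟨C, hC⟩ : ∃ C, C = max C1 (max C2 C3) := ⟨_, rfl⟩
  have c1 : C1 ≤ C := by rw [hC]; exact le_max_left _ _
  have c2 : C2 ≤ C := by rw [hC]; exact (le_max_left _ _).trans (le_max_right _ _)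
  have c3 : C3 ≤ C := by rw [hC]; exact (le_max_right _ _).trans (le_max_right _ _)
  -- first two pieces
  have q2 := hT2p.shift (t0 - τ)
  have e2 : τ + (t0 - τ) = t0 := by ring
  rw [e2] at q2
  obtain ⟨t1, ht1⟩ : ∃ t1, t1 = T1 + (t0 - τ) := ⟨_, rfl⟩
  rw [← ht1] at q2
  have hτT1 : τ ≤ T1 / 2 := hτη.trans hηT
  have ht01 : t0 ≤ t1 := by linarith only [ht1, hτT1, hT10]
  have q12 := (hT1p.mono c1 le_rfl hT1p.count).glue (q2.mono c2 le_rfl q2.count) hL ht0.le ht01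
    (fun y hy => by
      show f t0 y = G (t0 - (t0 - τ)) y
      have : t0 - (t0 - τ) = τ := by ring
      rw [this, hGτ, hf1 y hy])
  have q3 := hT3p.shift t1
  rw [zero_add] at q3
  have q123 := q12.glue (q3.mono c3 le_rfl q3.count) hL (by linarith only [ht01, ht0])
    (by linarith only [hb3]) (fun y hy => by
      show (if t1 ≤ t0 then f t1 else G (t1 - (t0 - τ))) y = G3 (t1 - t1) y
      rw [if_neg (by linarith only [ht1, hτT1, hT10]), sub_self, hG30 y hy]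
      have : t1 - (t0 - τ) = T1 := by rw [ht1]; ring
      rw [this])
  refine ⟨b3 + t1, C, _, _, _, _, by linarith only [hb3, ht01, ht0], ?_, hC1.trans c1, q123,
    fun y hy => ?_, fun y hy => ?_⟩
  · linarith only [hb3T, ht1, ht0η, hηT, hT1, hT'T, hT'0, hτ]
  · have h1 : (0:ℝ) ≤ t1 := by linarith only [ht01, ht0]
    show (if (0:ℝ) ≤ t1 then (if (0:ℝ) ≤ t0 then f 0 else G (0 - (t0 - τ))) else G3 (0 - t1)) y = e y
    rw [if_pos h1, if_pos ht0.le, hf0 y hy]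
  · show (if b3 + t1 ≤ t1 then (if b3 + t1 ≤ t0 then f (b3 + t1) else G (b3 + t1 - (t0 - τ)))
      else G3 (b3 + t1 - t1)) y = 0
    rw [if_neg (by linarith only [hb3]), add_sub_cancel_right, hG3b y hy]

end Pool.Agent.Lib.MP_79abb3_an
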