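import Pool.Agent.Lib.MP_79abb3_an.Piece

/-!
The linear passive equation on a whole time interval.
-/

set_option autoImplicit false
set_option linter.unusedSectionVars false
set_option linter.unusedVariables false

open MeasureTheory Set Filter Topology Real Function

namespace Pool.Agent.Lib.MP_79abb3_an

private theorem Odd1.nn1 {m m' : ℝ} {e e' : ℝ → ℝ} (h : Odd1 m m' e e') : 0 ≤ m' :=
  (abs_nonneg _).trans (h.b1 0)

private theorem Odd1.cont {m m' : ℝ} {e e' : ℝ → ℝ} (h : Odd1 m m' e e') : Continuous e :=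
  continuous_iff_continuousAt.2 fun y => (h.d y).continuousAt

private theorem Odd1.wt {m m' : ℝ} {e e' : ℝ → ℝ} (h : Odd1 m m' e e') : Wt m 0 e :=
  ⟨h.cont, fun y => by simpa using h.b0 y⟩

private theorem Odd1.wt' {m m' : ℝ} {e e' : ℝ → ℝ} (h : Odd1 m m' e e') : Wt m' 0 e' :=
  ⟨h.c, fun y => by simpa using h.b1 y⟩

/-- The heat flow of a datum is a background. -/
private theorem Odd1.back {m m' : ℝ} {e e' : ℝ → ℝ} (h : Odd1 m m' e e') {t0 : ℝ} (ht0 : t0 ∈ Ioc 0 1)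
    (L : ℝ) : Back t0 L 0 (m' * cE) (fun t y => H t e y) (fun t y => H t e' y) := by
  have g0 := h.wt.gr le_rfl
  have g1 := h.wt'.gr le_rfl
  have hsub : Icc 0 t0 ×ˢ (univ : Set ℝ) ⊆ Iic 1 ×ˢ univ :=
    prod_mono (fun x hx => hx.2.trans ht0.2) subset_rfl
  have hsub' : Ioc 0 t0 ×ˢ (univ : Set ℝ) ⊆ Iic 1 ×ˢ univ :=
    prod_mono (fun x hx => hx.2.trans ht0.2) subset_rfl
  refine ⟨g0.continuousOn_H.mono hsub, g1.continuousOn_H.mono hsub', ?_, ?_, ?_, ?_⟩
  · intro t ht y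
    exact hasDerivAt_H' g0 g1 h.d (ht.2.trans ht0.2) y
  · intro t ht
    have := H_odd h.odd t 0
    rw [neg_zero] at this
    show H t e 0 = 0
    linarith
  · intro t ht y hy
    have := h.wt'.abs_H le_rfl zero_le_one (ht.2.trans ht0.2) y
    simpa using this
  · intro t ht y hy
    have ht1 : t ≤ 1 := ht.2.trans ht0.2
    -- primitive
    set Q : ℝ → ℝ := fun y => ∫ z in (0:ℝ)..y, e z with hQ
    have hQd : ∀ y, HasDerivAt Q (e y) y := fun y =>
      intervalIntegral.integral_hasDerivAt_right (h.cont.intervalIntegrable _ _)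
        h.cont.stronglyMeasurable.stronglyMeasurableAtFilter h.cont.continuousAt
    have hQg : Gr m Q := by
      refine ⟨continuous_iff_continuousAt.2 fun y => (hQd y).continuousAt, fun y => ?_⟩
      have h1 := intervalIntegral.norm_integral_le_of_norm_le_const (a := 0) (b := y)
        (f := e) (C := m) (fun z _ => h.b0 z)
      rw [sub_zero, Real.norm_eq_abs] at h1
      have h2 := abs_le_exp_abs y
      have hm : 0 ≤ m := (abs_nonneg _).trans (h.b0 0)
      exact h1.trans (by gcongr)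
    have hprim : (∫ z in (0:ℝ)..y, H t e z) = H t Q y - H t Q 0 := by
      refine intervalIntegral.integral_eq_sub_of_hasDerivAt
        (fun z _ => hasDerivAt_H' hQg g0 hQd ht1 z) ?_
      have hc : Continuous (fun z => H t e z) :=
        g0.continuousOn_H.comp_continuous (f := fun z : ℝ => (t, z)) (by fun_prop)
          fun z => ⟨ht1, mem_univ _⟩
      exact hc.intervalIntegrable _ _
    have hq : ∀ y, H t Q y = Q y + ∫ r in (0:ℝ)..t, H r e' y := by
      intro y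
      rw [H_sub hQg g0 hQd ht1 ht.1 y]
      congr 1
      refine intervalIntegral.integral_congr_ae ?_
      refine ae_of_all _ fun r hr => ?_
      rw [uIoc_of_le ht.1] at hr
      exact Dh_eq g0 g1 h.d (hr.2.trans ht1) hr.1 y
    have hint : ∀ y, IntervalIntegrable (fun r => H r e' y) volume 0 t := by
      intro y
      have hc : ContinuousOn (fun r => H r e' y) (uIcc 0 t) := by
        rw [uIcc_of_le ht.1]
        exact g1.continuousOn_H.comp (f := fun r : ℝ => (r, y)) (by fun_prop)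
          fun r hr => ⟨hr.2.trans ht1, mem_univ _⟩
      exact hc.intervalIntegrable
    have h0 : (∫ z in (0:ℝ)..y, H 0 e z) = Q y := by
      simp only [H_zero, hQ]
    have hQ0 : Q 0 = 0 := by simp [hQ]
    simp only [zero_mul, add_zero]
    rw [intervalIntegral.integral_sub (hint y) (hint 0), hprim, h0, hq y, hq 0, hQ0]
    ring

/-- the cut-off -/
theorem exists_cutH (L : ℝ) : ∃ χ, Cut L (L + 1) χ := by
  refine ⟨fun y => max 0 (min 1 (L + 1 - y)), by fun_prop, fun y => le_max_left _ _,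
    fun y => max_le zero_le_one (min_le_left _ _), fun y hy => ?_, fun y hy hyL => ?_⟩
  · have : L + 1 - y ≤ 0 := by linarith
    exact max_eq_left ((min_le_right _ _).trans this)
  · have : 1 ≤ L + 1 - y := by linarith
    show max 0 (min 1 (L + 1 - y)) = 1
    rw [min_eq_left this]; exact max_eq_right zero_le_one

/-- One step. -/
theorem hstep {δ L g0 : ℝ} (hδ : δ ∈ Ioc 0 1) (hL : 0 ≤ L) {g : ℝ → ℝ → ℝ}
    (cg : ContinuousOn (uncurry g) (Icc 0 δ ×ˢ Icc 0 (L + 1)))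
    (zg : ∀ t ∈ Icc 0 δ, g t 0 = 0)
    (hg : ∀ t ∈ Icc 0 δ, ∀ y ∈ Icc 0 (L + 1), |g t y| ≤ g0)
    (c1 : 8 * cE * (L + 1) * g0 * √δ ≤ 1)
    {m m' : ℝ} {e e' : ℝ → ℝ} (h : Odd1 m m' e e') :
    ∃ (C : ℝ) (f v : ℝ → ℝ → ℝ) (m1 m1' : ℝ) (e1 e1' : ℝ → ℝ), 0 ≤ C ∧
      TrL 0 δ L C {0} g f v (fun _ => 0) ∧ (∀ y, f 0 y = e y) ∧ Odd1 m1 m1' e1 e1' ∧
      ∀ y, f δ y = e1 y := by
  obtain ⟨χ, hχ⟩ := exists_cutH L
  have hcE := cE_pos
  have hδδ : δ ∈ Ioc 0 δ := ⟨hδ.1, le_rfl⟩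
  have hS : (1 : ℝ) ≤ L + 1 := by linarith
  have hback := h.back hδ L
  have hback' := h.back hδ (L + 1)
  have hm : 0 ≤ m := (abs_nonneg _).trans (h.b0 0)
  have hbg : Bg δ (L + 1) (m * cE) (m' * cE) (fun t y => H t e y) (fun t y => H t e' y) := by
    refine ⟨hback.c0.mono (prod_mono Ioc_subset_Icc_self subset_rfl), hback.c1, ?_, ?_, ?_⟩
    · intro s hs y _ _
      have := h.wt.abs_H le_rfl zero_le_one (hs.2.trans hδ.2) y
      simpa using this
    · intro s hs y h1 h2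
      exact hback'.bd s hs y ⟨h1, h2⟩
    · intro s hs
      exact hback.z s ⟨hs.1.le, hs.2⟩
  let cl : ℝ → ℝ := fun y => max 0 (min y (L + 1))
  have hclc : Continuous cl := by fun_prop
  have hclm : ∀ y, cl y ∈ Icc 0 (L + 1) := fun y =>
    ⟨le_max_left _ _, max_le (by linarith) (min_le_right _ _)⟩
  have hcl : ∀ y, 0 ≤ y → y ≤ L + 1 → cl y = y := fun y h1 h2 => by
    show max 0 (min y (L + 1)) = y
    rw [min_eq_left h2, max_eq_right h1]
  have hcg : ContinuousOn (uncurry fun t y => g t (cl y)) (Ioc 0 δ ×ˢ univ) :=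
    cg.comp (f := fun p : ℝ × ℝ => (p.1, cl p.2)) (by fun_prop)
      fun p hp => ⟨⟨hp.1.1.le, hp.1.2⟩, hclm _⟩
  obtain ⟨n, B, hn, hno, hne⟩ := solveH (σ := fun _ _ => 0) (B0 := 0) hχ hδ hS hbg
    (g := fun t y => g t (cl y)) hcg
    (fun s hs y h1 h2 => hg s ⟨hs.1.le, hs.2⟩ _ (hclm y))
    (fun s hs => by
      rw [hcl 0 le_rfl (by linarith)]; exact zg s ⟨hs.1.le, hs.2⟩)
    continuousOn_const (fun s hs y _ _ => by simp) (fun s hs => rfl) c1
  have hB := hn.nonneg hδ.1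
  have hA : 0 ≤ m' * cE := mul_nonneg h.nn1 hcE.le
  have hpiece := piece (A := m' * cE) (c := 0) hχ hδ (by linarith) hL hA hback hn
    (g := fun t y => g t (cl y))
    (fun s hs y hy => by
      have := hne s hs y hy
      rw [add_zero] at this
      exact this) hno
  refine ⟨|(0:ℝ)| + m' * cE + 2 * √δ * (B * cE), fun t y => H t e y + Duh n t y,
    fun t y => H t e' y + DuhD n t y, m * cE + δ * (B * cE), m' * cE + 2 * √δ * (B * cE),
    fun y => H δ e y + Duh n δ y, fun y => H δ e' y + DuhD n δ y, ?_, ?_, ?_, ?_, fun y => rfl⟩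
  · have : 0 ≤ 2 * √δ * (B * cE) := by positivity
    have := abs_nonneg (0:ℝ)
    linarith
  · refine hpiece.congr (fun t ht y hy => ?_) (fun t ht y hy => rfl) (fun t ht y hy => rfl) hL
      (fun t ht => rfl)
    show g t (cl y) = g t y
    rw [hcl y hy.1 (by linarith [hy.2])]
  · intro y
    show H 0 e y + Duh n 0 y = e y
    rw [H_zero, Duh_zero_time, add_zero]
  · refine ⟨?_, ?_, ?_, ?_, ?_⟩
    · refine Continuous.add ?_ ?_
      · exact (h.wt'.gr le_rfl).continuousOn_H.comp_continuous (f := fun z : ℝ => (δ, z))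
          (by fun_prop) fun z => ⟨hδ.2, mem_univ _⟩
      · exact (hn.contDuhD hδ.2).comp_continuous (f := fun z : ℝ => (δ, z))
          (by fun_prop) fun z => ⟨hδδ, mem_univ _⟩
    · intro y
      exact (hback.d δ hδδ y).add (hn.hasDerivAt hδ.2 hδδ y)
    · intro y
      show H δ e (-y) + Duh n δ (-y) = -(H δ e y + Duh n δ y)
      rw [H_odd h.odd, Duh_odd hno]; ring
    · intro y
      have h1 := h.wt.abs_H le_rfl zero_le_one hδ.2 y
      have h2 := hn.abs_Duh hδ.2 hδδ y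
      have h3 : |H δ e y| ≤ m * cE := by simpa using h1
      exact (abs_add_le _ _).trans (add_le_add h3 h2)
    · intro y
      have h1 := h.wt'.abs_H le_rfl zero_le_one hδ.2 y
      have h2 := hn.abs_DuhD hδ.2 hδδ y
      have h3 : |H δ e' y| ≤ m' * cE := by simpa using h1
      exact (abs_add_le _ _).trans (add_le_add h3 h2)

theorem hsteps {T L g0 δ : ℝ} (hδ : δ ∈ Ioc 0 1) (hL : 0 ≤ L) {g : ℝ → ℝ → ℝ}
    (cg : ContinuousOn (uncurry g) (Icc 0 T ×ˢ Icc 0 (L + 1))) (zg : ∀ t ∈ Icc 0 T, g t 0 = 0)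
    (hg : ∀ t ∈ Icc 0 T, ∀ y ∈ Icc 0 (L + 1), |g t y| ≤ g0)
    (c1 : 8 * cE * (L + 1) * g0 * √δ ≤ 1)
    {m m' : ℝ} {h0 h0' : ℝ → ℝ} (hh : Odd1 m m' h0 h0') (j : ℕ) (hj : j * δ ≤ T) :
    ∃ (C : ℝ) (J : Set ℝ) (h k : ℝ → ℝ → ℝ) (m1 m1' : ℝ) (e e' : ℝ → ℝ), 0 ≤ C ∧
      TrL 0 (j * δ) L C J g h k (fun _ => 0) ∧ (∀ y ∈ Icc 0 L, h 0 y = h0 y) ∧ Odd1 m1 m1' e e' ∧
      ∀ y ∈ Icc 0 L, h (j * δ) y = e y := by
  induction j with
  | zero =>
    refine ⟨m', ∅, fun _ => h0, fun _ => h0', m, m', h0, h0', hh.nn1, ?_, fun y _ => rfl, hh,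
      fun y _ => rfl⟩
    refine ⟨countable_empty, ?_, ?_, continuousOn_const, ?_, ?_, ?_, ?_⟩
    · exact (hh.cont.comp continuous_snd).continuousOn
    · exact (hh.c.comp continuous_snd).continuousOn
    · intro t _
      exact ⟨by simpa using hh.nn1, fun y _ => hh.b1 y⟩
    · intro t _ y _
      exact (hh.d y).hasDerivWithinAt
    · intro t _
      have := hh.odd 0
      rw [neg_zero] at this
      linarith
    · intro t ht
      exfalso
      have h1 := ht.1.1
      have h2 := ht.1.2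
      simp at h2
      linarith
  | succ j ih =>
    push_cast at hj
    have hδ0 := hδ.1
    have hjT : (j : ℝ) * δ ≤ T := by linarith
    obtain ⟨C, J, h, k, m1, m1', e, e', hC, htr, hinit, hodd, hend⟩ := ih hjT
    set d : ℝ := j * δ with hd
    have hd0 : 0 ≤ d := by positivity
    have hmem : ∀ t ∈ Icc 0 δ, t + d ∈ Icc 0 T := fun t ht =>
      ⟨by linarith [ht.1], by linarith [ht.2]⟩
    obtain ⟨C', f, v, m2, m2', e1, e1', hC', htr', hinit', hodd', hend'⟩ :=
      hstep (g := fun t => g (t + d)) hδ hL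
        (cg.comp (f := fun p : ℝ × ℝ => (p.1 + d, p.2)) (by fun_prop)
          fun p hp => ⟨hmem _ hp.1, hp.2⟩)
        (fun t ht => zg _ (hmem t ht)) (fun t ht y hy => hg _ (hmem t ht) y hy) c1 hodd
    have hs := htr'.shift d
    have e0 : (0 : ℝ) + d = d := zero_add d
    have ej : ((j + 1 : ℕ) : ℝ) * δ = δ + d := by push_cast; ring
    rw [e0] at hs
    have hs2 := hs.congr (g' := g) (f' := fun t => f (t - d)) (v' := fun t => v (t - d))
      (P' := fun _ => 0) (fun t ht y hy => by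
        show g (t - d + d) y = g t y
        rw [sub_add_cancel]) (fun _ _ _ _ => rfl) (fun _ _ _ _ => rfl) hL (fun _ _ => rfl)
    have t1 := htr.mono (le_max_left C C') subset_rfl htr.count
    have t2 := hs2.mono (le_max_right C C') subset_rfl hs2.count
    have t3 := t1.glue t2 hL hd0 (by linarith) (fun y hy => by
      show h d y = f (d - d) y
      rw [sub_self, hinit' y, hend y hy])
    refine ⟨max C C', J ∪ (fun t => t - d) ⁻¹' {0} ∪ {d}, fun t => if t ≤ d then h t else f (t - d),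
      fun t => if t ≤ d then k t else v (t - d), m2, m2', e1, e1', hC.trans (le_max_left _ _), ?_,
      ?_, hodd', ?_⟩
    · rw [ej]
      exact t3.congr (fun t ht y hy => by
        show (if t ≤ d then g t else g t) y = g t y
        rw [ite_self]) (fun _ _ _ _ => rfl) (fun _ _ _ _ => rfl) hL (fun t ht => by
        show (if t ≤ d then (0:ℝ) else 0) = 0
        rw [ite_self])
    · intro y hy
      show (if (0:ℝ) ≤ d then h 0 else f (0 - d)) y = h0 y
      rw [if_pos hd0]; exact hinit y hy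
    · intro y hy
      show (if ((j + 1 : ℕ) : ℝ) * δ ≤ d then h (((j + 1 : ℕ) : ℝ) * δ)
        else f (((j + 1 : ℕ) : ℝ) * δ - d)) y = e1 y
      rw [ej, if_neg (by linarith), add_sub_cancel_right]
      exact hend' y

theorem hsolve {T L : ℝ} (hT : 0 < T) (hL : 0 ≤ L) {g : ℝ → ℝ → ℝ}
    (cg : ContinuousOn (uncurry g) (Icc 0 T ×ˢ Icc 0 (L + 1))) (zg : ∀ t ∈ Icc 0 T, g t 0 = 0)
    {m m' : ℝ} {h0 h0' : ℝ → ℝ} (hh : Odd1 m m' h0 h0') :
    ∃ (C : ℝ) (J : Set ℝ) (h k : ℝ → ℝ → ℝ) (m1 m1' : ℝ) (e e' : ℝ → ℝ), 0 ≤ C ∧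
      TrL 0 T L C J g h k (fun _ => 0) ∧ (∀ y ∈ Icc 0 L, h 0 y = h0 y) ∧ Odd1 m1 m1' e e' ∧
      ∀ y ∈ Icc 0 L, h T y = e y := by
  obtain ⟨g0, hg0⟩ := (isCompact_Icc.prod isCompact_Icc).exists_bound_of_continuousOn cg
  have hg : ∀ t ∈ Icc 0 T, ∀ y ∈ Icc 0 (L + 1), |g t y| ≤ g0 := fun t ht y hy =>
    hg0 (t, y) ⟨ht, hy⟩
  have hcE := cE_pos
  have hg00 : 0 ≤ g0 := (abs_nonneg _).trans (hg 0 ⟨le_rfl, hT.le⟩ 0 ⟨le_rfl, by linarith⟩)
  set a : ℝ := 8 * cE * (L + 1) * g0 + 1 with ha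
  have ha1 : 1 ≤ a := by
    have : 0 ≤ 8 * cE * (L + 1) * g0 := by positivity
    linarith
  have ha0 : 0 < a := by linarith
  obtain ⟨N, hN⟩ := exists_nat_ge (T * a ^ 2)
  have hN0 : (0 : ℝ) < N := lt_of_lt_of_le (by positivity) hN
  set δ : ℝ := T / N with hδd
  have hδ0 : 0 < δ := by positivity
  have hδa : δ ≤ (a ^ 2)⁻¹ := by
    rw [hδd, div_le_iff₀ hN0, inv_mul_eq_div, le_div_iff₀ (by positivity)]
    exact hN
  have hδ1 : δ ≤ 1 := hδa.trans (inv_le_one_of_one_le₀ (one_le_pow₀ ha1))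
  have hsq : √δ ≤ a⁻¹ := by
    rw [sqrt_le_iff]
    refine ⟨by positivity, ?_⟩
    rw [inv_pow]; exact hδa
  have c1 : 8 * cE * (L + 1) * g0 * √δ ≤ 1 := by
    calc 8 * cE * (L + 1) * g0 * √δ ≤ a * a⁻¹ := by
          have : 8 * cE * (L + 1) * g0 ≤ a := by linarith
          gcongr
      _ = 1 := mul_inv_cancel₀ ha0.ne'
  have hNT : (N : ℝ) * δ = T := by rw [hδd]; field_simp
  have := hsteps ⟨hδ0, hδ1⟩ hL cg zg hg c1 hh N hNT.le
  rwa [hNT] at this

end Pool.Agent.Lib.MP_79abb3_an
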