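import Pool.Agent.Lib.MP_79abb3_an.Sol

/-!
Maximum principles.
-/

set_option autoImplicit false
set_option linter.unusedSectionVars false
set_option linter.unusedVariables false

open MeasureTheory Set Filter Topology Real Function

namespace Pool.Agent.Lib.MP_79abb3_an

/-- The left derivative at a maximum is nonnegative. -/
theorem left_deriv_nonneg {φ : ℝ → ℝ} {a t d : ℝ} (hat : a < t) (hd : HasDerivAt φ d t)
    (hm : ∀ s ∈ Icc a t, φ s ≤ φ t) : 0 ≤ d := by
  have h1 := hd.tendsto_slope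
  have h2 : Tendsto (slope φ t) (𝓝[<] t) (𝓝 d) :=
    h1.mono_left (nhdsWithin_mono t fun s hs => ne_of_lt hs)
  refine ge_of_tendsto h2 ?_
  have h3 : Ioo a t ∈ 𝓝[<] t := Ioo_mem_nhdsLT hat
  filter_upwards [h3] with s hs
  rw [slope_def_field]
  have := hm s ⟨hs.1.le, hs.2.le⟩
  exact div_nonneg_of_nonpos (by linarith) (by linarith [hs.2])

/-- The maximum principle. -/
theorem maxp {P : Type*} [TopologicalSpace P] {a b : ℝ} {D K : Set P} (hK : IsCompact K)
    (hKD : K ⊆ D) {f : ℝ → P → ℝ} (hf : ContinuousOn (uncurry f) (Icc a b ×ˢ K))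
    (h0 : ∀ p ∈ D, f a p ≤ 0) (hout : ∀ t ∈ Icc a b, ∀ p ∈ D, p ∉ K → f t p ≤ 0)
    (hder : ∀ t ∈ Ioo a b, ∀ p ∈ D, 0 < f t p → (∀ q ∈ D, f t q ≤ f t p) →
      ∃ d < 0, HasDerivAt (fun s => f s p) d t) :
    ∀ t ∈ Ico a b, ∀ p ∈ D, f t p ≤ 0 := by
  intro t1 ht1 p1 hp1
  by_contra hcon
  push Not at hcon
  have hp1K : p1 ∈ K := by
    by_contra h
    exact absurd (hout t1 ⟨ht1.1, ht1.2.le⟩ p1 hp1 h) (not_le.2 hcon)
  have hcomp : IsCompact (Icc a t1 ×ˢ K) := isCompact_Icc.prod hK
  obtain ⟨⟨ts, ps⟩, hts, hmax⟩ := hcomp.exists_isMaxOn ⟨(t1, p1), ⟨⟨ht1.1, le_rfl⟩, hp1K⟩⟩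
    (hf.mono (by gcongr; exact ht1.2.le))
  have hpos : 0 < f ts ps := lt_of_lt_of_le hcon (hmax (show (t1, p1) ∈ Icc a t1 ×ˢ K from
    ⟨⟨ht1.1, le_rfl⟩, hp1K⟩))
  have hta : a < ts := by
    rcases eq_or_lt_of_le hts.1.1 with h | h
    · have h' : a = ts := h
      have := h0 ps (hKD hts.2)
      rw [h'] at this
      exact absurd this (not_le.2 hpos)
    · exact h
  obtain ⟨d, hd, hder'⟩ := hder ts ⟨hta, hts.1.2.trans_lt ht1.2⟩ ps (hKD hts.2) hpos (by
    intro q hq
    by_cases hqK : q ∈ K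
    · exact hmax (show (ts, q) ∈ Icc a t1 ×ˢ K from ⟨hts.1, hqK⟩)
    · exact (hout ts ⟨hts.1.1, hts.1.2.trans ht1.2.le⟩ q hq hqK).trans hpos.le)
  have := left_deriv_nonneg hta hder' (fun s hs => hmax (show (s, ps) ∈ Icc a t1 ×ˢ K from
    ⟨⟨hs.1, hs.2.trans hts.1.2⟩, hts.2⟩))
  linarith

/-- Second derivative test. -/
theorem second_max {f f' : ℝ → ℝ} {f'' p : ℝ} (hm : ∀ᶠ q in 𝓝 p, f q ≤ f p)
    (hf : ∀ᶠ q in 𝓝 p, HasDerivAt f (f' q) q) (hf' : HasDerivAt f' f'' p) :
    f' p = 0 ∧ f'' ≤ 0 := by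
  have h0 : f' p = 0 := IsLocalMax.hasDerivAt_eq_zero hm hf.self_of_nhds
  refine ⟨h0, ?_⟩
  by_contra hcon
  push Not at hcon
  have h1 : Tendsto (slope f' p) (𝓝[>] p) (𝓝 f'') :=
    hf'.tendsto_slope.mono_left (nhdsWithin_mono p fun s hs => ne_of_gt hs)
  have h2 : ∀ᶠ q in 𝓝[>] p, 0 < slope f' p q := h1.eventually (lt_mem_nhds hcon)
  have h3 : ∀ᶠ q in 𝓝[>] p, 0 < f' q := by
    filter_upwards [h2, self_mem_nhdsWithin] with q hq hq'
    rw [slope_def_field, h0, sub_zero] at hq
    have h4 : 0 < q - p := by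
      have : p < q := hq'
      linarith
    by_contra h5
    push Not at h5
    exact absurd hq (not_lt.2 (div_nonpos_of_nonpos_of_nonneg h5 h4.le))
  obtain ⟨u, hu, hsub⟩ := mem_nhdsGT_iff_exists_Ioo_subset.1 h3
  obtain ⟨l, r, hlr, hsub2⟩ := mem_nhds_iff_exists_Ioo_subset.1 (hf.and hm)
  set q := p + min (u - p) (r - p) / 2 with hq
  have hu' : p < u := hu
  have hmin : 0 < min (u - p) (r - p) := lt_min (by linarith) (by linarith [hlr.2])
  have hqp : p < q := by rw [hq]; linarith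
  have hqu : q < u := by
    have := min_le_left (u - p) (r - p)
    rw [hq]; linarith
  have hqr : q < r := by
    have := min_le_right (u - p) (r - p)
    rw [hq]; linarith
  have hin : ∀ x ∈ Icc p q, HasDerivAt f (f' x) x := fun x hx =>
    (hsub2 ⟨by linarith [hx.1, hlr.1], by linarith [hx.2]⟩).1
  obtain ⟨c, hc, hc'⟩ := exists_hasDerivAt_eq_slope f f' hqp
    (fun x hx => (hin x hx).continuousAt.continuousWithinAt) (fun x hx => hin x ⟨hx.1.le, hx.2.le⟩)
  have h5 : 0 < f' c := hsub ⟨hc.1, hc.2.trans hqu⟩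
  have h6 : f q ≤ f p := (hsub2 ⟨by linarith [hlr.1], hqr⟩).2
  rw [hc'] at h5
  have h7 : 0 < q - p := by linarith
  have h8 : (f q - f p) / (q - p) ≤ 0 := div_nonpos_of_nonpos_of_nonneg (by linarith) h7.le
  linarith

section apriori
variable {a b : ℝ} {g v w : ℝ → ℝ → ℝ}

theorem Sol.dt (h : Sol (Icc a b) (Ioc a b) g v w) {t : ℝ} (ht : t ∈ Ioo a b) {y : ℝ}
    (hy : 0 ≤ y) : HasDerivAt (fun s => g s y) (w t y + qG g v t y) t := by
  set t1 := (a + t) / 2 with ht1
  have h1 : a < t1 := by rw [ht1]; linarith [ht.1]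
  have h2 : t1 < t := by rw [ht1]; linarith [ht.1]
  have hc := h.cont_rhs_time Ioc_subset_Icc_self y
  have hc' : ContinuousOn (fun s => w s y + qG g v s y) (Ioo a b) := hc.mono Ioo_subset_Ioc_self
  have hd := intervalIntegral.integral_hasDerivAt_right (a := t1) (b := t)
    (f := fun s => w s y + qG g v s y)
    ((hc.mono (fun s hs => ⟨h1.trans_le hs.1, hs.2.trans ht.2.le⟩)).intervalIntegrable_of_Icc h2.le)
    (hc'.stronglyMeasurableAtFilter isOpen_Ioo t ht) (hc'.continuousAt (Ioo_mem_nhds ht.1 ht.2))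
  have hd2 := hd.const_add (g t1 y)
  refine hd2.congr_of_eventuallyEq ?_
  filter_upwards [Ioo_mem_nhds h2 ht.2] with s hs
  have := h.ti t1 ⟨h1, (h2.trans ht.2).le⟩ s ⟨h1.trans hs.1, hs.2.le⟩ hs.1.le y hy
  linarith

theorem Sol.z (h : Sol (Icc a b) (Ioc a b) g v w) {t : ℝ} (ht : t ∈ Icc a b) : g t 0 = 0 := by
  have := h.odd t ht 0
  rw [neg_zero] at this
  linarith

theorem om_small {C ε : ℝ} (hC : 0 ≤ C) (hε : 0 < ε) : ∃ R, 0 ≤ R ∧ ∀ y, R ≤ y → C * om y ≤ ε := by
  have h1 : Tendsto (fun y : ℝ => C * exp (-y)) atTop (𝓝 (C * 0)) :=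
    (tendsto_exp_neg_atTop_nhds_zero).const_mul C
  rw [mul_zero] at h1
  obtain ⟨R, hR⟩ := (h1.eventually (Iio_mem_nhds hε)).exists_forall_of_atTop
  refine ⟨max R 0, le_max_right _ _, fun y hy => ?_⟩
  have h2 : 0 ≤ y := (le_max_right _ _).trans hy
  rw [om, abs_of_nonneg h2]
  exact (hR y ((le_max_left _ _).trans hy)).le

theorem Sol.cg2 (h : Sol (Icc a b) (Ioc a b) g v w) {K : Set ℝ} :
    ContinuousOn (uncurry g) (Icc a b ×ˢ K) := h.cg.mono (by gcongr; exact subset_univ _)

/-- Extension to the closed interval. -/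
theorem closed_of_half {a b : ℝ} {φ : ℝ → ℝ} (hab : a < b) (hφ : ContinuousOn φ (Icc a b))
    (h : ∀ t ∈ Ico a b, φ t ≤ 0) : ∀ t ∈ Icc a b, φ t ≤ 0 := by
  intro t ht
  rcases eq_or_lt_of_le ht.2 with h1 | h1
  · rw [h1]
    have h2 : Tendsto φ (𝓝[<] b) (𝓝 (φ b)) :=
      (hφ b ⟨hab.le, le_rfl⟩).mono_left (nhdsWithin_le_iff.2 (by
        filter_upwards [Ioo_mem_nhdsLT hab] with s hs using ⟨hs.1.le, hs.2.le⟩))
    refine le_of_tendsto h2 ?_
    filter_upwards [Ioo_mem_nhdsLT hab] with s hs using h s ⟨hs.1.le, hs.2⟩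
  · exact h t ⟨ht.1, h1⟩

/-- Nonnegativity. -/
theorem Sol.nonneg (h : Sol (Icc a b) (Ioc a b) g v w) (hab : a < b) (h0 : ∀ y, 0 ≤ y → 0 ≤ g a y) :
    ∀ t ∈ Icc a b, ∀ y, 0 ≤ y → 0 ≤ g t y := by
  obtain ⟨C, hC⟩ := h.bd
  have hC0 : 0 ≤ C := by
    have := (hC a ⟨le_rfl, hab.le⟩ 0).1
    rw [om_zero, mul_one] at this
    exact (abs_nonneg _).trans this
  have key : ∀ ε > 0, ∀ t ∈ Ico a b, ∀ y ∈ Ici (0:ℝ), -g t y * exp (-(C + 1) * t) - ε ≤ 0 := by
    intro ε hε
    set M := exp (-(C + 1) * a) with hM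
    obtain ⟨R, hR0, hR⟩ := om_small (C := C * M) (ε := ε) (by positivity) hε
    refine maxp (D := Ici (0:ℝ)) (K := Icc 0 R) isCompact_Icc (fun y hy => hy.1) ?_ ?_ ?_ ?_
    · have := h.cg2 (K := Icc 0 R)
      have h2 : ContinuousOn (fun p : ℝ × ℝ => exp (-(C + 1) * p.1)) (Icc a b ×ˢ Icc 0 R) := by
        fun_prop
      exact ((this.neg).mul h2).sub continuousOn_const
    · intro y hy
      have := h0 y hy
      have h2 := exp_pos (-(C + 1) * a)
      nlinarith
    · intro t ht y hy hyK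
      have hy' : R ≤ y := by
        by_contra h3
        push Not at h3
        exact hyK ⟨hy, h3.le⟩
      have h1 := hR y hy'
      have h2 := (hC t ht y).1
      have h3 : exp (-(C + 1) * t) ≤ M := by
        rw [hM]
        exact exp_le_exp.2 (by nlinarith [ht.1])
      have h4 : -g t y * exp (-(C + 1) * t) ≤ C * om y * M := by
        have h5 : -g t y ≤ C * om y := (neg_le_abs _).trans h2
        have h6 := om_pos y
        calc -g t y * exp (-(C + 1) * t) ≤ (C * om y) * exp (-(C + 1) * t) := by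
              gcongr
          _ ≤ _ := by gcongr
      nlinarith
    · intro t ht y hy hpos hmax
      have ht' : t ∈ Icc a b := ⟨ht.1.le, ht.2.le⟩
      have htJ : t ∈ Ioc a b := ⟨ht.1, ht.2.le⟩
      have he := exp_pos (-(C + 1) * t)
      have hneg : g t y < 0 := by
        by_contra h3
        push Not at h3
        nlinarith
      have hy0 : 0 < y := by
        rcases eq_or_lt_of_le (show (0:ℝ) ≤ y from hy) with h3 | h3
        · rw [← h3, h.z ht'] at hneg; exact absurd hneg (lt_irrefl _)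
        · exact h3
      have hmin : ∀ᶠ q in 𝓝 y, -g t q ≤ -g t y := by
        filter_upwards [Ioi_mem_nhds hy0] with q hq
        have := hmax q (mem_Ici.2 (mem_Ioi.1 hq).le)
        nlinarith
      have h2 := second_max (f := fun q => -g t q) (f' := fun q => -v t q) (f'' := -w t y) hmin
        (Eventually.of_forall fun q => (h.dg t ht' q).neg) (h.dv t htJ y).neg
      have hv0 : v t y = 0 := by linarith [h2.1]
      have hw0 : 0 ≤ w t y := by linarith [h2.2]
      have hgC : -g t y ≤ C := (neg_le_abs _).trans ((hC t ht' y).1.trans (by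
        have := om_le y
        nlinarith))
      refine ⟨_, ?_, (((h.dt ht hy).neg).mul (((hasDerivAt_id t).const_mul (-(C + 1))).exp)).sub_const ε⟩
      simp only [id, mul_one, Pi.neg_apply]
      have e1 : qG g v t y = -(g t y) ^ 2 := by unfold qG; rw [hv0]; ring
      rw [e1]
      have : -(w t y + -g t y ^ 2) * exp (-(C + 1) * t) + -g t y * (exp (-(C + 1) * t) * -(C + 1)) =
          (-w t y + g t y * (g t y + (C + 1))) * exp (-(C + 1) * t) := by ring
      rw [this]
      have h5 : g t y * (g t y + (C + 1)) < 0 := by nlinarith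
      nlinarith
  intro t ht y hy
  have hcont : ContinuousOn (fun s => -g s y) (Icc a b) :=
    (h.cg.comp (f := fun s : ℝ => (s, y)) (by fun_prop) fun s hs => ⟨hs, mem_univ _⟩).neg
  have := closed_of_half (φ := fun s => -g s y) hab hcont (fun t ht => by
    by_contra h3
    push Not at h3
    have he := exp_pos (-(C + 1) * t)
    have h4 : 0 < -g t y * exp (-(C + 1) * t) := by positivity
    have := key (-g t y * exp (-(C + 1) * t) / 2) (by linarith) t ht y hy
    linarith) t ht
  linarith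

/-- The upper bound `g ≤ 1/t`. -/
theorem Sol.le_inv (h : Sol (Icc a b) (Ioc a b) g v w) (ha : 0 < a) (hab : a < b)
    (h0 : ∀ y, 0 ≤ y → a * g a y ≤ 1) : ∀ t ∈ Icc a b, ∀ y, 0 ≤ y → t * g t y ≤ 1 := by
  obtain ⟨C, hC⟩ := h.bd
  have hC0 : 0 ≤ C := by
    have := (hC a ⟨le_rfl, hab.le⟩ 0).1
    rw [om_zero, mul_one] at this
    exact (abs_nonneg _).trans this
  have hb : 0 < b := ha.trans hab
  have key : ∀ t ∈ Ico a b, ∀ y ∈ Ici (0:ℝ), t * g t y - 1 ≤ 0 := by
    obtain ⟨R, hR0, hR⟩ := om_small (C := b * C) (ε := 1) (by positivity) one_pos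
    refine maxp (D := Ici (0:ℝ)) (K := Icc 0 R) isCompact_Icc (fun y hy => hy.1) ?_ ?_ ?_ ?_
    · have := h.cg2 (K := Icc 0 R)
      exact (continuousOn_fst.mul this).sub continuousOn_const
    · intro y hy
      have := h0 y hy
      linarith
    · intro t ht y hy hyK
      have hy' : R ≤ y := by
        by_contra h3
        push Not at h3
        exact hyK ⟨hy, h3.le⟩
      have h1 := hR y hy'
      have h2 := (hC t ht y).1
      have ht0 : 0 < t := ha.trans_le ht.1
      have h6 := om_pos y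
      have : t * g t y ≤ b * (C * om y) := by
        calc t * g t y ≤ t * (C * om y) := by gcongr; exact (le_abs_self _).trans h2
          _ ≤ _ := by gcongr; exact ht.2
      linarith
    · intro t ht y hy hpos hmax
      have ht' : t ∈ Icc a b := ⟨ht.1.le, ht.2.le⟩
      have htJ : t ∈ Ioc a b := ⟨ht.1, ht.2.le⟩
      have ht0 : 0 < t := ha.trans ht.1
      have hg1 : 1 < t * g t y := by linarith
      have hg0 : 0 < g t y := by
        by_contra h3
        push Not at h3
        nlinarith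
      have hy0 : 0 < y := by
        rcases eq_or_lt_of_le (show (0:ℝ) ≤ y from hy) with h3 | h3
        · rw [← h3, h.z ht'] at hg0; exact absurd hg0 (lt_irrefl _)
        · exact h3
      have hmax' : ∀ᶠ q in 𝓝 y, g t q ≤ g t y := by
        filter_upwards [Ioi_mem_nhds hy0] with q hq
        have := hmax q (mem_Ici.2 (mem_Ioi.1 hq).le)
        have h3 : t * g t q ≤ t * g t y := by linarith
        exact le_of_mul_le_mul_left h3 ht0
      have h2 := second_max hmax' (Eventually.of_forall fun q => h.dg t ht' q) (h.dv t htJ y)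
      refine ⟨_, ?_, ((hasDerivAt_id t).mul (h.dt ht hy)).sub_const 1⟩
      have e1 : qG g v t y = -(g t y) ^ 2 := by unfold qG; rw [h2.1]; ring
      rw [e1]
      simp only [id, one_mul]
      have : g t y + t * (w t y + -g t y ^ 2) = g t y * (1 - t * g t y) + t * w t y := by ring
      rw [this]
      have h5 : g t y * (1 - t * g t y) < 0 := by nlinarith
      have h6 : t * w t y ≤ 0 := by nlinarith [h2.2]
      linarith
  intro t ht y hy
  have hcont : ContinuousOn (fun s => s * g s y - 1) (Icc a b) :=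
    (continuousOn_id.mul (h.cg.comp (f := fun s : ℝ => (s, y)) (by fun_prop)
      fun s hs => ⟨hs, mem_univ _⟩)).sub continuousOn_const
  have := closed_of_half (φ := fun s => s * g s y - 1) hab hcont (fun t ht => key t ht y hy) t ht
  linarith

theorem Sol.cg1 (h : Sol (Icc a b) (Ioc a b) g v w) {t : ℝ} (ht : t ∈ Icc a b) :
    Continuous (g t) := continuous_iff_continuousAt.2 fun y => (h.dg t ht y).continuousAt

/-- The primitive is nonnegative. -/
theorem prim_nonneg {f : ℝ → ℝ} {y : ℝ} (h : ∀ z, 0 ≤ z → 0 ≤ f z) (hy : 0 ≤ y) :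
    0 ≤ ∫ z in (0:ℝ)..y, f z :=
  intervalIntegral.integral_nonneg hy fun z hz => h z hz.1

/-- Weighted bound. -/
theorem Sol.weight (h : Sol (Icc a b) (Ioc a b) g v w) (hab : a < b)
    (hnn : ∀ t ∈ Icc a b, ∀ y, 0 ≤ y → 0 ≤ g t y) {C : ℝ} (hC : 0 < C)
    (h0 : ∀ y, 0 ≤ y → g a y ≤ C * exp (-y)) :
    ∀ t ∈ Icc a b, ∀ y, 0 ≤ y → g t y ≤ C * exp (2 * (t - a) - y) := by
  obtain ⟨C', hC'⟩ := h.bd
  have hC0 : 0 ≤ C' := by
    have := (hC' a ⟨le_rfl, hab.le⟩ 0).1
    rw [om_zero, mul_one] at this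
    exact (abs_nonneg _).trans this
  have key : ∀ ε > 0, ∀ t ∈ Ico a b, ∀ y ∈ Ici (0:ℝ),
      g t y - C * exp (2 * (t - a) - y) - ε ≤ 0 := by
    intro ε hε
    obtain ⟨R, hR0, hR⟩ := om_small (C := C') (ε := ε) hC0 hε
    refine maxp (D := Ici (0:ℝ)) (K := Icc 0 R) isCompact_Icc (fun y hy => hy.1) ?_ ?_ ?_ ?_
    · have := h.cg2 (K := Icc 0 R)
      have h2 : ContinuousOn (fun p : ℝ × ℝ => C * exp (2 * (p.1 - a) - p.2))
        (Icc a b ×ˢ Icc 0 R) := by fun_prop
      exact (this.sub h2).sub continuousOn_const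
    · intro y hy
      have := h0 y hy
      rw [sub_self, mul_zero, zero_sub]
      linarith
    · intro t ht y hy hyK
      have hy' : R ≤ y := by
        by_contra h3
        push Not at h3
        exact hyK ⟨hy, h3.le⟩
      have h1 := hR y hy'
      have h2 := (le_abs_self _).trans (hC' t ht y).1
      have h3 : 0 < C * exp (2 * (t - a) - y) := by positivity
      linarith
    · intro t ht y hy hpos hmax
      have ht' : t ∈ Icc a b := ⟨ht.1.le, ht.2.le⟩
      have htJ : t ∈ Ioc a b := ⟨ht.1, ht.2.le⟩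
      set φ := C * exp (2 * (t - a) - y) with hφ
      have hφ0 : 0 < φ := by positivity
      have hg0 : 0 < g t y := by linarith
      have hy0 : 0 < y := by
        rcases eq_or_lt_of_le (show (0:ℝ) ≤ y from hy) with h3 | h3
        · rw [← h3, h.z ht'] at hg0; exact absurd hg0 (lt_irrefl _)
        · exact h3
      have hd : ∀ q, HasDerivAt (fun q => C * exp (2 * (t - a) - q)) (-(C * exp (2 * (t - a) - q))) q := by
        intro q
        have := (((hasDerivAt_id q).const_sub (2 * (t - a))).exp).const_mul C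
        refine this.congr_deriv ?_
        simp
      have hmax' : ∀ᶠ q in 𝓝 y, g t q - C * exp (2 * (t - a) - q) ≤
          g t y - C * exp (2 * (t - a) - y) := by
        filter_upwards [Ioi_mem_nhds hy0] with q hq
        have := hmax q (mem_Ici.2 (mem_Ioi.1 hq).le)
        linarith
      have h2 := second_max (f := fun q => g t q - C * exp (2 * (t - a) - q))
        (f' := fun q => v t q - -(C * exp (2 * (t - a) - q)))
        (f'' := w t y - - -(C * exp (2 * (t - a) - y))) hmax'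
        (Eventually.of_forall fun q => (h.dg t ht' q).sub (hd q)) ((h.dv t htJ y).sub (hd y).neg)
      have hv : v t y = -φ := by linarith [h2.1]
      have hw : w t y ≤ φ := by
        have := h2.2
        rw [neg_neg] at this
        linarith
      have hG : 0 ≤ ∫ z in (0:ℝ)..y, g t z := prim_nonneg (hnn t ht') hy0.le
      have hdt : HasDerivAt (fun s => C * exp (2 * (s - a) - y)) (2 * φ) t := by
        have := (((((hasDerivAt_id t).sub_const a).const_mul 2).sub_const y).exp).const_mul C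
        refine this.congr_deriv ?_
        simp [hφ]; ring
      refine ⟨_, ?_, ((h.dt ht hy).sub hdt).sub_const ε⟩
      have e1 : qG g v t y = -(∫ z in (0:ℝ)..y, g t z) * φ - (g t y) ^ 2 := by
        unfold qG; rw [hv]; ring
      rw [e1]
      nlinarith [sq_nonneg (g t y), mul_nonneg hG hφ0.le]
  intro t ht y hy
  have hcont : ContinuousOn (fun s => g s y - C * exp (2 * (s - a) - y)) (Icc a b) :=
    (h.cg.comp (f := fun s : ℝ => (s, y)) (by fun_prop)
      fun s hs => ⟨hs, mem_univ _⟩).sub (by fun_prop)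
  have := closed_of_half (φ := fun s => g s y - C * exp (2 * (s - a) - y)) hab hcont
    (fun t ht => by
      by_contra h3
      push Not at h3
      have := key ((g t y - C * exp (2 * (t - a) - y)) / 2) (by linarith) t ht y hy
      linarith) t ht
  linarith

end apriori

end Pool.Agent.Lib.MP_79abb3_an
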