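import Pool.Agent.Lib.MP_79abb3_an.Max

/-!
Differential inequalities.
-/

set_option autoImplicit false
set_option linter.unusedSectionVars false
set_option linter.unusedVariables false

open MeasureTheory Set Filter Topology Real Function

namespace Pool.Agent.Lib.MP_79abb3_an

theorem dec_of {f f' : ℝ → ℝ} {a b : ℝ} (hab : a ≤ b) (hc : ContinuousOn f (Icc a b))
    (hd : ∀ t ∈ Ioo a b, HasDerivAt f (f' t) t) (hn : ∀ t ∈ Ioo a b, f' t ≤ 0) : f b ≤ f a := by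
  rcases eq_or_lt_of_le hab with h | h
  · rw [h]
  · obtain ⟨c, hc', hc''⟩ := exists_hasDerivAt_eq_slope f f' h hc hd
    have h1 := hn c hc'
    rw [hc''] at h1
    have h2 : 0 < b - a := by linarith
    by_contra h3
    push Not at h3
    have : 0 < (f b - f a) / (b - a) := div_pos (by linarith) h2
    linarith

theorem first_hit {φ : ℝ → ℝ} {a b c : ℝ} (hab : a ≤ b) (hφ : ContinuousOn φ (Icc a b))
    (ha : φ a < c) (hb : c ≤ φ b) :
    ∃ t1 ∈ Ioc a b, φ t1 = c ∧ ∀ s ∈ Ico a t1, φ s < c := by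
  have hclosed : IsClosed (Icc a b ∩ φ ⁻¹' (Ici c)) := hφ.preimage_isClosed_of_isClosed isClosed_Icc
    isClosed_Ici
  have hne : (Icc a b ∩ φ ⁻¹' (Ici c)).Nonempty := ⟨b, ⟨hab, le_rfl⟩, hb⟩
  have hbdd : BddBelow (Icc a b ∩ φ ⁻¹' (Ici c)) := ⟨a, fun x hx => hx.1.1⟩
  set t1 := sInf (Icc a b ∩ φ ⁻¹' (Ici c)) with ht1
  have hmem : t1 ∈ Icc a b ∩ φ ⁻¹' (Ici c) := hclosed.csInf_mem hne hbdd
  have hlt : ∀ s ∈ Ico a t1, φ s < c := by
    intro s hs
    by_contra h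
    push Not at h
    have : t1 ≤ s := csInf_le hbdd ⟨⟨hs.1, hs.2.le.trans hmem.1.2⟩, h⟩
    linarith [hs.2]
  have hc1 : c ≤ φ t1 := hmem.2
  have hat : a < t1 := by
    rcases eq_or_lt_of_le hmem.1.1 with h | h
    · rw [← h] at hc1; linarith
    · exact h
  refine ⟨t1, ⟨hat, hmem.1.2⟩, le_antisymm ?_ hc1, hlt⟩
  have h2 : Tendsto φ (𝓝[<] t1) (𝓝 (φ t1)) :=
    (hφ t1 hmem.1).mono_left (nhdsWithin_le_iff.2 (by
      filter_upwards [Ioo_mem_nhdsLT hat] with s hs using ⟨hs.1.le, hs.2.le.trans hmem.1.2⟩))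
  refine le_of_tendsto h2 ?_
  filter_upwards [Ioo_mem_nhdsLT hat] with s hs using (hlt s ⟨hs.1.le, hs.2⟩).le

theorem sqrt_hasDerivAt {t : ℝ} (ht : 0 < t) : HasDerivAt (fun s => √s) (1 / 2 * (√t)⁻¹) t := by
  have := (hasDerivAt_sqrt ht.ne')
  refine this.congr_deriv ?_
  field_simp

/-- Tail moments. -/
theorem tail_ode {a T : ℝ} {J1 J2 ρ J1' J2' : ℝ → ℝ} (ha : 0 < a)
    (c1 : ContinuousOn J1 (Icc a T)) (c2 : ContinuousOn J2 (Icc a T)) (z1 : J1 a = 0)
    (z2 : J2 a = 0) (d1 : ∀ t ∈ Ioo a T, HasDerivAt J1 (J1' t) t)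
    (d2 : ∀ t ∈ Ioo a T, HasDerivAt J2 (J2' t) t)
    (h1 : ∀ t ∈ Ioo a T, J1' t ≤ 1 / t - 1/2 * (ρ t) ^ 2) (h2 : ∀ t ∈ Ioo a T, J2' t ≤ 2 * ρ t)
    (pk : ∀ t ∈ Ioo a T, t * (ρ t) ^ 2 ≤ 2 * J1 t) (cs : ∀ t ∈ Ioo a T, (J1 t) ^ 2 ≤ ρ t * J2 t)
    (n0 : ∀ t ∈ Ioo a T, 0 ≤ ρ t) (n2 : ∀ t ∈ Ioo a T, 0 ≤ J2 t) :
    ∀ t ∈ Ico a T, J1 t ≤ 5 ∧ J2 t ≤ 14 * √t := by
  have key : ∀ t1 ∈ Ioo a T, (∀ s ∈ Ioo a t1, J1 s ≤ 5) → J2 t1 ≤ 14 * √t1 := by
    intro t1 ht1 hs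
    have h3 := dec_of (f := fun s => J2 s - 14 * √s) (f' := fun s => J2' s - 14 * (1/2 * (√s)⁻¹))
      ht1.1.le ((c2.mono (Icc_subset_Icc_right ht1.2.le)).sub (by fun_prop))
      (fun s hs' => (d2 s ⟨hs'.1, hs'.2.trans ht1.2⟩).sub
        ((sqrt_hasDerivAt (ha.trans hs'.1)).const_mul 14)) (fun s hs' => by
        have hsT : s ∈ Ioo a T := ⟨hs'.1, hs'.2.trans ht1.2⟩
        have e1 := h2 s hsT
        have e2 := pk s hsT
        have e3 := hs s hs'
        have hs0 : 0 < s := ha.trans hs'.1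
        have hsq : 0 < √s := sqrt_pos.2 hs0
        have e4 : (ρ s * √s) ^ 2 ≤ 10 := by
          rw [mul_pow, sq_sqrt hs0.le]
          linarith
        have e5 : ρ s * √s ≤ 7/2 := by
          have := n0 s hsT
          have : 0 ≤ ρ s * √s := by positivity
          nlinarith
        have e6 : ρ s ≤ 7/2 * (√s)⁻¹ := by
          rw [← div_eq_mul_inv, le_div_iff₀ hsq]; exact e5
        linarith)
    have h4 : 0 ≤ √a := sqrt_nonneg a
    rw [z2] at h3
    linarith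
  have main : ∀ t ∈ Ico a T, J1 t ≤ 5 := by
    intro t ht
    by_contra hcon
    push Not at hcon
    obtain ⟨t1, ht1, ht1', hlt⟩ := first_hit (φ := J1) (c := 5) ht.1
      (c1.mono (Icc_subset_Icc_right ht.2.le)) (by rw [z1]; norm_num) hcon.le
    have ht1T : t1 ∈ Ioo a T := ⟨ht1.1, ht1.2.trans_lt ht.2⟩
    have hJ2 := key t1 ht1T (fun s hs => (hlt s ⟨hs.1.le, hs.2⟩).le)
    have e1 := cs t1 ht1T
    rw [ht1'] at e1
    have ht0 : 0 < t1 := ha.trans ht1.1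
    have hsq : 0 < √t1 := sqrt_pos.2 ht0
    have hρ := n0 t1 ht1T
    have e2 : 25 ≤ ρ t1 * (14 * √t1) := by
      calc (25:ℝ) = 5 ^ 2 := by norm_num
        _ ≤ ρ t1 * J2 t1 := e1
        _ ≤ _ := by gcongr
    have e3 : 3 ≤ (ρ t1) ^ 2 * t1 := by
      have h5 : (ρ t1) ^ 2 * t1 = (ρ t1 * √t1) ^ 2 := by rw [mul_pow, sq_sqrt ht0.le]
      rw [h5]
      have h6 : 25/14 ≤ ρ t1 * √t1 := by linarith
      nlinarith
    have e4 : 3 / t1 ≤ (ρ t1) ^ 2 := by rw [div_le_iff₀ ht0]; exact e3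
    have e5 := left_deriv_nonneg ht1.1 (d1 t1 ht1T) (fun s hs => by
      rcases eq_or_lt_of_le hs.2 with h | h
      · rw [h]
      · rw [ht1']; exact (hlt s ⟨hs.1, h⟩).le)
    have e6 := h1 t1 ht1T
    have e7 : 0 < 1 / t1 := by positivity
    have e8 : 3 / t1 = 3 * (1 / t1) := by ring
    rw [e8] at e4
    linarith
  intro t ht
  refine ⟨main t ht, ?_⟩
  rcases eq_or_lt_of_le ht.1 with h | h
  · rw [← h, z2]; positivity
  · exact key t ⟨h, ht.2⟩ (fun s hs => main s ⟨hs.1.le, hs.2.trans ht.2⟩)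

/-- Logarithmic decay. -/
theorem log_ode {θ T ε : ℝ} {M1 M2 M0 M1' M2' : ℝ → ℝ} (hθ : 0 < θ) (hθT : θ < T) (hε : 0 < ε)
    (c1 : ContinuousOn M1 (Icc θ T)) (c2 : ContinuousOn M2 (Icc θ T))
    (d1 : ∀ t ∈ Ioo θ T, HasDerivAt M1 (M1' t) t)
    (d2 : ∀ t ∈ Ioo θ T, HasDerivAt M2 (M2' t) t)
    (h1 : ∀ t ∈ Ioo θ T, M1' t ≤ - (1/2) * (M0 t) ^ 2) (h2 : ∀ t ∈ Ioo θ T, M2' t ≤ 2 * M0 t)
    (pk : ∀ t ∈ Ioo θ T, t * (M0 t) ^ 2 ≤ 2 * M1 t) (cs : ∀ t ∈ Ioo θ T, (M1 t) ^ 2 ≤ M0 t * M2 t)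
    (n0 : ∀ t ∈ Ioo θ T, 0 ≤ M0 t)
    (i1 : M1 θ ≤ 100) (i2 : M2 θ ≤ 1000 * √θ)
    (hlog : 100 < (1/2) * (ε ^ 2 / 1100) ^ 2 * log (T / θ)) : M1 T < ε := by
  by_contra hcon
  push Not at hcon
  have hdec : ∀ s t : ℝ, θ ≤ s → s ≤ t → t ≤ T → M1 t ≤ M1 s := by
    intro s t h3 h4 h5
    refine dec_of h4 (c1.mono (Icc_subset_Icc h3 h5))
      (fun x hx => d1 x ⟨h3.trans_lt hx.1, hx.2.trans_le h5⟩) (fun x hx => ?_)
    have := h1 x ⟨h3.trans_lt hx.1, hx.2.trans_le h5⟩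
    nlinarith [sq_nonneg (M0 x)]
  have hM2 : ∀ t ∈ Ioo θ T, M2 t ≤ 1100 * √t := by
    intro t ht
    have h3 := dec_of (f := fun s => M2 s - 60 * √s) (f' := fun s => M2' s - 60 * (1/2 * (√s)⁻¹))
      ht.1.le ((c2.mono (Icc_subset_Icc_right ht.2.le)).sub (by fun_prop))
      (fun s hs' => (d2 s ⟨hs'.1, hs'.2.trans ht.2⟩).sub
        ((sqrt_hasDerivAt (hθ.trans hs'.1)).const_mul 60)) (fun s hs' => by
        have hsT : s ∈ Ioo θ T := ⟨hs'.1, hs'.2.trans ht.2⟩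
        have e1 := h2 s hsT
        have e2 := pk s hsT
        have e3 := hdec θ s le_rfl hs'.1.le hsT.2.le
        have hs0 : 0 < s := hθ.trans hs'.1
        have hsq : 0 < √s := sqrt_pos.2 hs0
        have e4 : (M0 s * √s) ^ 2 ≤ 200 := by
          rw [mul_pow, sq_sqrt hs0.le]
          linarith
        have e5 : M0 s * √s ≤ 15 := by
          have := n0 s hsT
          have : 0 ≤ M0 s * √s := by positivity
          nlinarith
        have e6 : M0 s ≤ 15 * (√s)⁻¹ := by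
          rw [← div_eq_mul_inv, le_div_iff₀ hsq]; exact e5
        linarith)
    have h4 : 0 ≤ √θ := sqrt_nonneg θ
    have h5 : √θ ≤ √t := sqrt_le_sqrt ht.1.le
    linarith
  set c := (1/2) * (ε ^ 2 / 1100) ^ 2 with hc
  have hc0 : 0 < c := by positivity
  have h3 := dec_of (f := fun s => M1 s + c * log s) (f' := fun s => M1' s + c * s⁻¹)
      hθT.le (c1.add (ContinuousOn.mul continuousOn_const
        (ContinuousOn.log continuousOn_id fun s hs => (hθ.trans_le hs.1).ne')))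
      (fun s hs' => (d1 s hs').add ((hasDerivAt_log (hθ.trans hs'.1).ne').const_mul c))
      (fun s hs' => by
        have e1 := h1 s hs'
        have e2 := cs s hs'
        have e3 := hM2 s hs'
        have e4 := hdec s T hs'.1.le hs'.2.le le_rfl
        have hs0 : 0 < s := hθ.trans hs'.1
        have hsq : 0 < √s := sqrt_pos.2 hs0
        have e5 : ε ^ 2 ≤ M0 s * (1100 * √s) := by
          calc ε ^ 2 ≤ (M1 s) ^ 2 := by gcongr; linarith
            _ ≤ M0 s * M2 s := e2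
            _ ≤ _ := by have := n0 s hs'; gcongr
        have e6 : ε ^ 2 / 1100 ≤ M0 s * √s := by
          rw [div_le_iff₀ (by norm_num)]; linarith
        have e7 : (ε ^ 2 / 1100) ^ 2 ≤ (M0 s) ^ 2 * s := by
          calc (ε ^ 2 / 1100) ^ 2 ≤ (M0 s * √s) ^ 2 := by gcongr
            _ = _ := by rw [mul_pow, sq_sqrt hs0.le]
        have e8 : (ε ^ 2 / 1100) ^ 2 * s⁻¹ ≤ (M0 s) ^ 2 := by
          rw [← div_eq_mul_inv, div_le_iff₀ hs0]; exact e7
        rw [hc]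
        nlinarith)
  have hlog' : log (T / θ) = log T - log θ := log_div (hθ.trans hθT).ne' hθ.ne'
  rw [hlog'] at hlog
  nlinarith

/-- Flushing of the front. -/
theorem front_ode {a θ S0 : ℝ} {S V e V' : ℝ → ℝ} (ha : 0 < a) (haθ : a < θ) (hS0 : 0 ≤ S0)
    (cS : ContinuousOn S (Icc a θ)) (cV : ContinuousOn V (Icc a θ)) (hSa : S a = S0)
    (dE : ∀ t ∈ Ioo a θ, HasDerivAt (fun t => t * S t) (e t) t)
    (dV : ∀ t ∈ Ioo a θ, HasDerivAt V (V' t) t)
    (he : ∀ t ∈ Ioo a θ, (e t) ^ 2 ≤ V t)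
    (hV' : ∀ t ∈ Ioo a θ, V' t ≤ 4 * S t * (√(t - a))⁻¹) (hV0 : 0 ≤ V a) :
    S θ ≤ a * S0 / θ + √(V a + 4 * π * S0 * √a) + 8 * √θ := by
  have hθ : 0 < θ := ha.trans haθ
  have hsa : 0 < √a := sqrt_pos.2 ha
  obtain ⟨tm, htm, hmax⟩ := isCompact_Icc.exists_isMaxOn ⟨a, ⟨le_rfl, haθ.le⟩⟩ cV
  set x := √(V tm) with hx
  have hVtm : 0 ≤ V tm := hV0.trans (hmax ⟨le_rfl, haθ.le⟩)
  have hx0 : 0 ≤ x := sqrt_nonneg _
  have hE : ∀ t ∈ Icc a θ, t * S t ≤ a * S0 + x * (t - a) := by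
    intro t ht
    have h3 := dec_of (f := fun s => s * S s - x * s) (f' := fun s => e s - x)
      ht.1 ((continuousOn_id.mul (cS.mono (Icc_subset_Icc_right ht.2))).sub (by fun_prop))
      (fun s hs => by
        have := (dE s ⟨hs.1, hs.2.trans_le ht.2⟩).sub ((hasDerivAt_id s).const_mul x)
        exact this.congr_deriv (by rw [mul_one])) (fun s hs => by
        have hs' : s ∈ Ioo a θ := ⟨hs.1, hs.2.trans_le ht.2⟩
        have e1 := he s hs'
        have e2 : V s ≤ V tm := hmax ⟨hs'.1.le, hs'.2.le⟩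
        have e3 : e s ≤ x := by
          rw [hx]
          exact le_sqrt_of_sq_le (e1.trans e2)
        linarith)
    simp only [hSa] at h3
    linarith
  have hSb : ∀ t ∈ Icc a θ, S t ≤ a * S0 / t + x := by
    intro t ht
    have ht0 : 0 < t := ha.trans_le ht.1
    have h1 := hE t ht
    rw [← sub_le_iff_le_add, le_div_iff₀ ht0]
    nlinarith
  have hsqc : ContinuousOn (fun s => √((s - a) / a)) (Icc a tm) := by fun_prop
  have key : V tm ≤ V a + 4 * π * S0 * √a + 8 * x * √θ := by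
    have h3 := dec_of (f := fun s => V s - 8 * S0 * √a * arctan (√((s - a) / a)) -
      8 * x * √(s - a)) (f' := fun s => V' s - 4 * (a * S0 / s) * (√(s - a))⁻¹ -
        4 * x * (√(s - a))⁻¹)
      htm.1 ((((cV.mono (Icc_subset_Icc_right htm.2))).sub (by fun_prop)).sub (by fun_prop))
      (fun s hs => by
        have hs' : s ∈ Ioo a θ := ⟨hs.1, hs.2.trans_le htm.2⟩
        have hsa' : 0 < s - a := by linarith [hs.1]
        have hs0 : 0 < s := ha.trans hs.1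
        have k1 : HasDerivAt (fun s => √(s - a)) (1/2 * (√(s - a))⁻¹) s := by
          have := (sqrt_hasDerivAt hsa').comp s ((hasDerivAt_id s).sub_const a)
          exact this.congr_deriv (by rw [mul_one])
        have hq : 0 < √(s - a) := sqrt_pos.2 hsa'
        have k2 : HasDerivAt (fun s => arctan (√((s - a) / a)))
            (√a / (2 * s) * (√(s - a))⁻¹) s := by
          have e0 : (fun s => arctan (√((s - a) / a))) = fun s => arctan (√(s - a) / √a) := by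
            ext s; rw [sqrt_div' _ ha.le]
          rw [e0]
          have := (k1.div_const (√a)).arctan
          refine this.congr_deriv ?_
          have e1 : 1 + (√(s - a) / √a) ^ 2 = s / a := by
            rw [div_pow, sq_sqrt hsa'.le, sq_sqrt ha.le]
            field_simp
            ring
          rw [e1]
          have e2 : √a * √a = a := mul_self_sqrt ha.le
          field_simp
          nlinarith
        have := ((dV s hs').sub (k2.const_mul (8 * S0 * √a))).sub (k1.const_mul (8 * x))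
        refine this.congr_deriv ?_
        have e2 : √a * √a = a := mul_self_sqrt ha.le
        have e3 : 8 * S0 * √a * (√a / (2 * s) * (√(s - a))⁻¹) = 4 * (a * S0 / s) * (√(s - a))⁻¹ := by
          field_simp
          rw [sq, e2]; ring
        rw [e3]; ring)
      (fun s hs => by
        have hs' : s ∈ Ioo a θ := ⟨hs.1, hs.2.trans_le htm.2⟩
        have e1 := hV' s hs'
        have e2 := hSb s ⟨hs'.1.le, hs'.2.le⟩
        have hq : 0 < (√(s - a))⁻¹ := by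
          have : 0 < √(s - a) := sqrt_pos.2 (by linarith [hs.1])
          positivity
        have e3 : 4 * S s * (√(s - a))⁻¹ ≤ 4 * (a * S0 / s + x) * (√(s - a))⁻¹ := by gcongr
        linarith)
    have e1 : arctan (√((tm - a) / a)) ≤ π / 2 := (arctan_lt_pi_div_two _).le
    have e2 : √(tm - a) ≤ √θ := sqrt_le_sqrt (by linarith [htm.2])
    have e3 : 8 * S0 * √a * arctan (√((tm - a) / a)) ≤ 8 * S0 * √a * (π / 2) := by gcongr
    have e4 : 8 * x * √(tm - a) ≤ 8 * x * √θ := by gcongr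
    simp only [sub_self, zero_div, sqrt_zero, arctan_zero, mul_zero, sub_zero] at h3
    linarith
  have hβ : 0 ≤ V a + 4 * π * S0 * √a := by positivity
  set β := V a + 4 * π * S0 * √a with hβd
  have hsθ : 0 < √θ := sqrt_pos.2 hθ
  have hxb : x ≤ √β + 8 * √θ := by
    have h4 : x ^ 2 ≤ β + 8 * x * √θ := by rw [hx, sq_sqrt hVtm]; exact key
    by_contra h5
    push Not at h5
    have h6 : √β ^ 2 = β := sq_sqrt hβ
    have h7 : 0 ≤ √β := sqrt_nonneg _
    nlinarith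
  have := hSb θ ⟨haθ.le, le_rfl⟩
  linarith

end Pool.Agent.Lib.MP_79abb3_an
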