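import Mathlib
import Pool.Agent.Lib.MP_79abb3_an.Defs

/-!
The weak form of the Navier-Stokes system for horizontally affine flows, from the reduced
one-dimensional system (helper97).
-/

set_option autoImplicit false

open MeasureTheory Set Function Filter Topology
open scoped ContDiff

namespace Pool.Agent.Lib.MP_79abb3_an.W

section Test

variable {T L : ℝ} {J : Set ℝ} {Ω : Set (ℝ × ℝ)} {φ : ℝ × ℝ × ℝ → ℝ}

theorem _root_.Pool.Agent.Lib.MP_79abb3_an.IsTest.deriv (hφ : IsTest T Ω φ) (e : ℝ × ℝ × ℝ) :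
    IsTest T Ω (fun z => fderiv ℝ φ z e) where
  smooth := (hφ.smooth.fderiv_right (m := ∞) (by simp)).clm_apply contDiff_const
  cpt := hφ.cpt.fderiv_apply ℝ e
  supp := (tsupport_fderiv_apply_subset ℝ e).trans hφ.supp

theorem dy_dt (hφ : IsTest T Ω φ) (z : ℝ × ℝ × ℝ) : dy (dt φ) z = dt (dy φ) z := by
  have h1 : ContDiffAt ℝ ∞ φ z := hφ.smooth.contDiffAt
  have h2 : IsSymmSndFDerivAt ℝ φ z := h1.isSymmSndFDerivAt (by
    rw [minSmoothness_of_isRCLikeNormedField]; 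
    exact WithTop.coe_le_coe.mpr (le_top : (2 : ℕ∞) ≤ ⊤))
  have h3 : DifferentiableAt ℝ (fderiv ℝ φ) z :=
    ((hφ.smooth.fderiv_right (m := ∞) (by simp)).differentiable (by simp)).differentiableAt
  have h4 : ∀ a b : ℝ × ℝ × ℝ, fderiv ℝ (fun z => fderiv ℝ φ z a) z b =
      fderiv ℝ (fderiv ℝ φ) z b a := by
    intro a b
    rw [fderiv_clm_apply h3 (differentiableAt_const _)]
    simp
  show fderiv ℝ (fun z => fderiv ℝ φ z (1, 0, 0)) z (0, 0, 1) =
    fderiv ℝ (fun z => fderiv ℝ φ z (0, 0, 1)) z (1, 0, 0)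
  rw [h4, h4]
  exact h2 _ _

theorem integral_line_zero {f f' : ℝ → ℝ} {S : Set ℝ} (hS : S.Countable) (hf : Continuous f)
    (hc : ∃ N : ℝ, ∀ s, N ≤ |s| → f s = 0) (hd : ∀ s ∉ S, HasDerivAt f (f' s) s) :
    ∫ s, f' s = 0 := by
  by_cases hi : Integrable f'
  · obtain ⟨N, hN⟩ := hc
    have h1 : Tendsto (fun i : ℝ => ∫ s in (-i)..i, f' s) atTop (𝓝 (∫ s, f' s)) :=
      intervalIntegral_tendsto_integral hi tendsto_neg_atTop_atBot tendsto_id
    have h2 : Tendsto (fun i : ℝ => ∫ s in (-i)..i, f' s) atTop (𝓝 0) := by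
      refine tendsto_const_nhds.congr' ?_
      filter_upwards [eventually_ge_atTop N, eventually_ge_atTop 0] with i hi1 hi2
      rw [MeasureTheory.integral_eq_of_hasDerivAt_off_countable_of_le f f' (by linarith) hS
        hf.continuousOn (fun s hs => hd s hs.2) hi.intervalIntegrable]
      rw [hN i (by rwa [abs_of_nonneg hi2]), hN (-i) (by rwa [abs_neg, abs_of_nonneg hi2]), sub_zero]
    exact tendsto_nhds_unique h1 h2
  · exact integral_undef hi

/-- integration by parts on a line -/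
theorem line_zero (hφ : IsTest T Ω φ) {ℓ : ℝ → ℝ × ℝ × ℝ} {e : ℝ × ℝ × ℝ}
    (hℓ : ∀ s, HasDerivAt ℓ e s) (hp : ∀ s, |s| ≤ ‖ℓ s‖) {S : Set ℝ} (hS : S.Countable)
    {A B : ℝ × ℝ × ℝ → ℝ} (hA : ∀ s, ℓ s ∈ tsupport φ → ContinuousAt (fun s => A (ℓ s)) s)
    (hd : ∀ s ∉ S, ℓ s ∈ tsupport φ → HasDerivAt (fun s => A (ℓ s)) (B (ℓ s)) s) :
    ∫ s, (A (ℓ s) * fderiv ℝ φ (ℓ s) e + B (ℓ s) * φ (ℓ s)) = 0 := by
  have hℓc : Continuous ℓ := continuous_iff_continuousAt.mpr fun s => (hℓ s).continuousAt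
  have hev : ∀ s, ℓ s ∉ tsupport φ → ∀ᶠ s' in 𝓝 s, φ (ℓ s') = 0 := by
    intro s hs
    have h1 : (tsupport φ)ᶜ ∈ 𝓝 (ℓ s) := (isClosed_tsupport φ).isOpen_compl.mem_nhds hs
    filter_upwards [hℓc.continuousAt.preimage_mem_nhds h1] with s' hs'
    exact image_eq_zero_of_notMem_tsupport hs'
  refine integral_line_zero (f := fun s => A (ℓ s) * φ (ℓ s)) hS ?_ ?_ ?_
  · rw [continuous_iff_continuousAt]
    intro s
    by_cases hs : ℓ s ∈ tsupport φ
    · exact (hA s hs).mul (hφ.smooth.continuous.comp hℓc).continuousAt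
    · have h1 : (fun s => A (ℓ s) * φ (ℓ s)) =ᶠ[𝓝 s] fun _ => (0 : ℝ) := by
        filter_upwards [hev s hs] with s' hs'
        rw [hs', mul_zero]
      exact continuousAt_const.congr h1.symm
  · obtain ⟨N, hN⟩ := hφ.cpt.isCompact.isBounded.subset_closedBall (0 : ℝ × ℝ × ℝ)
    refine ⟨N + 1, fun s hs => ?_⟩
    have h1 : ℓ s ∉ tsupport φ := by
      intro h2
      have h3 := hN h2
      rw [mem_closedBall_zero_iff] at h3
      linarith [hp s]
    rw [image_eq_zero_of_notMem_tsupport h1, mul_zero]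
  · intro s hs
    by_cases hs' : ℓ s ∈ tsupport φ
    · have h1 : HasDerivAt (fun s => φ (ℓ s)) (fderiv ℝ φ (ℓ s) e) s := by
        have h2 : HasFDerivAt φ (fderiv ℝ φ (ℓ s)) (ℓ s) :=
          (hφ.smooth.differentiable (by simp)).differentiableAt.hasFDerivAt
        exact h2.comp_hasDerivAt s (hℓ s)
      have h3 := (hd s hs hs').mul h1
      have h4 : A (ℓ s) * fderiv ℝ φ (ℓ s) e + B (ℓ s) * φ (ℓ s) =
          B (ℓ s) * φ (ℓ s) + A (ℓ s) * fderiv ℝ φ (ℓ s) e := by ring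
      rw [h4]
      exact h3
    · have h1 : (fun s => A (ℓ s) * φ (ℓ s)) =ᶠ[𝓝 s] fun _ => (0 : ℝ) := by
        filter_upwards [hev s hs'] with s' hs''
        rw [hs'', mul_zero]
      have h2 : fderiv ℝ φ (ℓ s) = 0 := by
        by_contra h3
        exact hs' (support_fderiv_subset ℝ h3)
      rw [h2, image_eq_zero_of_notMem_tsupport hs']
      rw [zero_apply, mul_zero, mul_zero, add_zero]
      exact (hasDerivAt_const s (0:ℝ)).congr_of_eventuallyEq h1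

theorem hasDerivAt_t (x y t : ℝ) : HasDerivAt (fun s : ℝ => ((s, x, y) : ℝ × ℝ × ℝ)) (1, 0, 0) t :=
  (hasDerivAt_id t).prodMk (hasDerivAt_const t ((x, y) : ℝ × ℝ))

theorem hasDerivAt_x (t y x : ℝ) : HasDerivAt (fun s : ℝ => ((t, s, y) : ℝ × ℝ × ℝ)) (0, 1, 0) x :=
  (hasDerivAt_const x t).prodMk ((hasDerivAt_id x).prodMk (hasDerivAt_const x y))

theorem hasDerivAt_y (t x y : ℝ) : HasDerivAt (fun s : ℝ => ((t, x, s) : ℝ × ℝ × ℝ)) (0, 0, 1) y :=
  (hasDerivAt_const y t).prodMk ((hasDerivAt_const y x).prodMk (hasDerivAt_id y))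

theorem abs_le_norm₁ (t x y : ℝ) : |t| ≤ ‖((t, x, y) : ℝ × ℝ × ℝ)‖ := norm_fst_le (t, x, y)

theorem abs_le_norm₂ (t x y : ℝ) : |x| ≤ ‖((t, x, y) : ℝ × ℝ × ℝ)‖ :=
  (norm_fst_le (x, y)).trans (norm_snd_le (t, x, y))

theorem abs_le_norm₃ (t x y : ℝ) : |y| ≤ ‖((t, x, y) : ℝ × ℝ × ℝ)‖ :=
  (norm_snd_le (x, y)).trans (norm_snd_le (t, x, y))

theorem mem_of_tsupport (hφ : IsTest T Ω φ) (hs : ∀ q ∈ Ω, 0 < q.2 ∧ q.2 < L) {t x y : ℝ}
    (h : (t, x, y) ∈ tsupport φ) : t ∈ Ioo 0 T ∧ y ∈ Ioo 0 L := by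
  have h1 := hφ.supp h
  exact ⟨h1.1, hs _ h1.2⟩

theorem weak_t (hφ : IsTest T Ω φ) (hJ : J.Countable) (hs : ∀ q ∈ Ω, 0 < q.2 ∧ q.2 < L)
    {A B : ℝ × ℝ × ℝ → ℝ}
    (hA : ∀ x, ∀ y ∈ Ioo 0 L, ContinuousOn (fun t => A (t, x, y)) (Icc 0 T))
    (hd : ∀ x, ∀ y ∈ Ioo 0 L, ∀ t ∈ Ioo 0 T \ J,
      HasDerivAt (fun t => A (t, x, y)) (B (t, x, y)) t) :
    ∫ z, (A z * dt φ z + B z * φ z) = 0 := by
  by_cases hi : Integrable fun z => (A z * dt φ z + B z * φ z)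
  · rw [Measure.volume_eq_prod, integral_prod_symm _ (by rwa [← Measure.volume_eq_prod])]
    have h1 : ∀ q : ℝ × ℝ, ∫ t : ℝ, (A (t, q) * dt φ (t, q) + B (t, q) * φ (t, q)) = 0 := by
      rintro ⟨x, y⟩
      refine line_zero hφ (ℓ := fun t => (t, x, y)) (hasDerivAt_t x y) (fun t => abs_le_norm₁ t x y)
        hJ (A := A) (B := B) ?_ ?_
      · intro t ht
        obtain ⟨h2, h3⟩ := mem_of_tsupport hφ hs ht
        exact (hA x y h3).continuousAt (Icc_mem_nhds h2.1 h2.2)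
      · intro t htJ ht
        obtain ⟨h2, h3⟩ := mem_of_tsupport hφ hs ht
        exact hd x y h3 t ⟨h2, htJ⟩
    simp only [h1, integral_zero]
  · exact integral_undef hi

theorem weak_x (hφ : IsTest T Ω φ) (hJ : J.Countable) (hs : ∀ q ∈ Ω, 0 < q.2 ∧ q.2 < L)
    {A B : ℝ × ℝ × ℝ → ℝ}
    (hd : ∀ t ∈ Ioo 0 T \ J, ∀ y ∈ Ioo 0 L, ∀ x,
      HasDerivAt (fun x => A (t, x, y)) (B (t, x, y)) x) :
    ∫ z, (A z * dx φ z + B z * φ z) = 0 := by
  by_cases hi : Integrable fun z => (A z * dx φ z + B z * φ z)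
  · rw [Measure.volume_eq_prod, integral_prod _ (by rwa [← Measure.volume_eq_prod])]
    refine integral_eq_zero_of_ae ?_
    filter_upwards [hJ.ae_notMem volume] with t ht
    rw [Pi.zero_apply]
    by_cases hi2 : Integrable fun q : ℝ × ℝ => (A (t, q) * dx φ (t, q) + B (t, q) * φ (t, q))
    · rw [Measure.volume_eq_prod, integral_prod_symm _ (by rwa [← Measure.volume_eq_prod])]
      have h1 : ∀ y : ℝ, ∫ x : ℝ, (A (t, x, y) * dx φ (t, x, y) + B (t, x, y) * φ (t, x, y)) = 0 := by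
        intro y
        have h4 : ∀ x, (t, x, y) ∈ tsupport φ →
            HasDerivAt (fun x => A (t, x, y)) (B (t, x, y)) x := by
          intro x hx
          obtain ⟨h2, h3⟩ := mem_of_tsupport hφ hs hx
          exact hd t ⟨h2, ht⟩ y h3 x
        exact line_zero hφ (ℓ := fun x => (t, x, y)) (hasDerivAt_x t y)
          (fun x => abs_le_norm₂ t x y) countable_empty (A := A) (B := B)
          (fun x hx => (h4 x hx).continuousAt) (fun x _ hx => h4 x hx)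
      simp only [h1, integral_zero]
    · exact integral_undef hi2
  · exact integral_undef hi

theorem weak_y (hφ : IsTest T Ω φ) (hJ : J.Countable) (hs : ∀ q ∈ Ω, 0 < q.2 ∧ q.2 < L)
    {A B : ℝ × ℝ × ℝ → ℝ}
    (hd : ∀ t ∈ Ioo 0 T \ J, ∀ x, ∀ y ∈ Ioo 0 L,
      HasDerivAt (fun y => A (t, x, y)) (B (t, x, y)) y) :
    ∫ z, (A z * dy φ z + B z * φ z) = 0 := by
  by_cases hi : Integrable fun z => (A z * dy φ z + B z * φ z)
  · rw [Measure.volume_eq_prod, integral_prod _ (by rwa [← Measure.volume_eq_prod])]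
    refine integral_eq_zero_of_ae ?_
    filter_upwards [hJ.ae_notMem volume] with t ht
    rw [Pi.zero_apply]
    by_cases hi2 : Integrable fun q : ℝ × ℝ => (A (t, q) * dy φ (t, q) + B (t, q) * φ (t, q))
    · rw [Measure.volume_eq_prod, integral_prod _ (by rwa [← Measure.volume_eq_prod])]
      have h1 : ∀ x : ℝ, ∫ y : ℝ, (A (t, x, y) * dy φ (t, x, y) + B (t, x, y) * φ (t, x, y)) = 0 := by
        intro x
        have h4 : ∀ y, (t, x, y) ∈ tsupport φ →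
            HasDerivAt (fun y => A (t, x, y)) (B (t, x, y)) y := by
          intro y hy
          obtain ⟨h2, h3⟩ := mem_of_tsupport hφ hs hy
          exact hd t ⟨h2, ht⟩ x y h3
        exact line_zero hφ (ℓ := fun y => (t, x, y)) (hasDerivAt_y t x)
          (fun y => abs_le_norm₃ t x y) countable_empty (A := A) (B := B)
          (fun y hy => (h4 y hy).continuousAt) (fun y _ hy => h4 y hy)
      simp only [h1, integral_zero]
    · exact integral_undef hi2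
  · exact integral_undef hi

end Test

section Good

/-- the domain in space-time -/
def Dom (T L : ℝ) (J : Set ℝ) : Set (ℝ × ℝ × ℝ) := {z | z.1 ∈ Icc 0 T \ J ∧ z.2.2 ∈ Icc 0 L}

theorem measurableSet_Dom {T L : ℝ} {J : Set ℝ} (hJ : J.Countable) : MeasurableSet (Dom T L J) := by
  refine MeasurableSet.inter ?_ ?_
  · exact measurable_fst (measurableSet_Icc.diff hJ.measurableSet)
  · exact (measurable_snd.comp measurable_snd) measurableSet_Icc

/-- continuous and locally bounded coefficients -/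
structure Good (T L : ℝ) (J : Set ℝ) (A : ℝ × ℝ × ℝ → ℝ) : Prop where
  cont : ContinuousOn A (Dom T L J)
  bdd : ∀ N : ℝ, ∃ C, ∀ z ∈ Dom T L J, |z.2.1| ≤ N → |A z| ≤ C

variable {T L : ℝ} {J : Set ℝ} {A B : ℝ × ℝ × ℝ → ℝ}

theorem Good.add (hA : Good T L J A) (hB : Good T L J B) : Good T L J (fun z => A z + B z) where
  cont := hA.cont.add hB.cont
  bdd N := by
    obtain ⟨C, hC⟩ := hA.bdd N
    obtain ⟨C', hC'⟩ := hB.bdd N
    exact ⟨C + C', fun z hz hN => (abs_add_le _ _).trans (add_le_add (hC z hz hN) (hC' z hz hN))⟩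

theorem Good.mul (hA : Good T L J A) (hB : Good T L J B) : Good T L J (fun z => A z * B z) where
  cont := hA.cont.mul hB.cont
  bdd N := by
    obtain ⟨C, hC⟩ := hA.bdd N
    obtain ⟨C', hC'⟩ := hB.bdd N
    refine ⟨C * C', fun z hz hN => ?_⟩
    rw [abs_mul]
    exact mul_le_mul (hC z hz hN) (hC' z hz hN) (abs_nonneg _) ((abs_nonneg _).trans (hC z hz hN))

theorem good_const (c : ℝ) : Good T L J (fun _ => c) where
  cont := continuousOn_const
  bdd _ := ⟨|c|, fun _ _ _ => le_rfl⟩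

theorem Good.smul (hA : Good T L J A) (c : ℝ) : Good T L J (fun z => c * A z) :=
  (good_const c).mul hA

theorem Good.neg (hA : Good T L J A) : Good T L J (fun z => - A z) := by
  have h := hA.smul (-1)
  simpa using h

theorem Good.sub (hA : Good T L J A) (hB : Good T L J B) : Good T L J (fun z => A z - B z) := by
  have h := hA.add hB.neg
  simpa [sub_eq_add_neg] using h

theorem good_x : Good T L J (fun z => z.2.1) where
  cont := by fun_prop
  bdd N := ⟨N, fun _ _ h => h⟩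

theorem good_y : Good T L J (fun z => z.2.2) where
  cont := by fun_prop
  bdd _ := ⟨L, fun z hz _ => by
    rw [abs_of_nonneg hz.2.1]
    exact hz.2.2⟩

/-- a function of `t` and `y` only -/
theorem good_of {f : ℝ → ℝ → ℝ} (hf : ContinuousOn (uncurry f) ((Icc 0 T \ J) ×ˢ Icc 0 L))
    (hb : ∃ C, ∀ t ∈ Icc 0 T \ J, ∀ y ∈ Icc 0 L, |f t y| ≤ C) :
    Good T L J (fun z => f z.1 z.2.2) where
  cont := hf.comp (f := fun z : ℝ × ℝ × ℝ => (z.1, z.2.2)) (by fun_prop) fun z hz => hz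
  bdd _ := by
    obtain ⟨C, hC⟩ := hb
    exact ⟨C, fun z hz _ => hC _ hz.1 _ hz.2⟩

theorem good_of' {f : ℝ → ℝ → ℝ} (hf : ContinuousOn (uncurry f) (Icc 0 T ×ˢ Icc 0 L)) :
    Good T L J (fun z => f z.1 z.2.2) := by
  refine good_of (hf.mono (prod_mono diff_subset subset_rfl)) ?_
  obtain ⟨C, hC⟩ := (isCompact_Icc.prod isCompact_Icc).exists_bound_of_continuousOn hf
  exact ⟨C, fun t ht y hy => hC (t, y) ⟨ht.1, hy⟩⟩

variable {Ω : Set (ℝ × ℝ)} {φ : ℝ × ℝ × ℝ → ℝ}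

theorem ae_fst_notMem (hJ : J.Countable) : ∀ᵐ z : ℝ × ℝ × ℝ, z.1 ∉ J := by
  rw [Measure.volume_eq_prod]
  exact Measure.quasiMeasurePreserving_fst.ae (hJ.ae_notMem volume)

theorem Good.integrable (hA : Good T L J A) (hJ : J.Countable) (hφ : IsTest T Ω φ)
    (hs : ∀ q ∈ Ω, 0 < q.2 ∧ q.2 < L) : Integrable (fun z => A z * φ z) := by
  have hD := measurableSet_Dom (T := T) (L := L) hJ
  have h1 : IntegrableOn (fun z => A z * φ z) (Dom T L J) := by
    obtain ⟨N, hN⟩ := hφ.cpt.isCompact.isBounded.subset_closedBall (0 : ℝ × ℝ × ℝ)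
    obtain ⟨C, hC⟩ := hA.bdd N
    have hφi : Integrable φ := hφ.smooth.continuous.integrable_of_hasCompactSupport hφ.cpt
    refine Integrable.mono' (g := fun z => C * |φ z|) (hφi.abs.const_mul C).integrableOn ?_ ?_
    · exact (hA.cont.aestronglyMeasurable hD).mul hφ.smooth.continuous.aestronglyMeasurable
    · rw [ae_restrict_iff' hD]
      refine ae_of_all _ fun z hz => ?_
      rw [Real.norm_eq_abs, abs_mul]
      by_cases hz0 : φ z = 0
      · rw [hz0, abs_zero, mul_zero, mul_zero]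
      · refine mul_le_mul_of_nonneg_right (hC z hz ?_) (abs_nonneg _)
        have h2 := hN (subset_tsupport φ hz0)
        rw [mem_closedBall_zero_iff] at h2
        obtain ⟨t, x, y⟩ := z
        exact (abs_le_norm₂ t x y).trans h2
  rw [← integrable_indicator_iff hD] at h1
  refine h1.congr ?_
  filter_upwards [ae_fst_notMem hJ] with z hz
  by_cases hzD : z ∈ Dom T L J
  · rw [indicator_of_mem hzD]
  · rw [indicator_of_notMem hzD]
    have h2 : z ∉ tsupport φ := by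
      intro h3
      obtain ⟨t, x, y⟩ := z
      obtain ⟨h4, h5⟩ := mem_of_tsupport hφ hs h3
      exact hzD ⟨⟨⟨h4.1.le, h4.2.le⟩, hz⟩, ⟨h5.1.le, h5.2.le⟩⟩
    rw [image_eq_zero_of_notMem_tsupport h2, mul_zero]

/-- integrable functions of integral zero -/
def Nul (f : ℝ × ℝ × ℝ → ℝ) : Prop := Integrable f ∧ ∫ z, f z = 0

theorem Nul.add {f g : ℝ × ℝ × ℝ → ℝ} (hf : Nul f) (hg : Nul g) : Nul (fun z => f z + g z) :=
  ⟨hf.1.add hg.1, by rw [integral_add hf.1 hg.1, hf.2, hg.2, add_zero]⟩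

theorem Nul.sub {f g : ℝ × ℝ × ℝ → ℝ} (hf : Nul f) (hg : Nul g) : Nul (fun z => f z - g z) :=
  ⟨hf.1.sub hg.1, by rw [integral_sub hf.1 hg.1, hf.2, hg.2, sub_zero]⟩

theorem Nul.smul {f : ℝ × ℝ × ℝ → ℝ} (hf : Nul f) (c : ℝ) : Nul (fun z => c * f z) :=
  ⟨hf.1.const_mul c, by rw [integral_const_mul, hf.2, mul_zero]⟩

end Good

section Int

variable {T L : ℝ} {f : ℝ → ℝ → ℝ}

theorem cont_int (hT : 0 < T) (hL : 0 < L) (hf : ContinuousOn (uncurry f) (Icc 0 T ×ˢ Icc 0 L)) :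
    ContinuousOn (uncurry fun t y => ∫ z in (0:ℝ)..y, f t z) (Icc 0 T ×ˢ Icc 0 L) := by
  let F : ℝ → ℝ → ℝ := fun t z => f (projIcc 0 T hT.le t) (projIcc 0 L hL.le z)
  have hF : Continuous (uncurry fun (q : ℝ × ℝ) (z : ℝ) => F q.1 z) := by
    have h1 : Continuous fun q : (ℝ × ℝ) × ℝ =>
        (((projIcc 0 T hT.le q.1.1 : ℝ), (projIcc 0 L hL.le q.2 : ℝ)) : ℝ × ℝ) := by fun_prop
    exact hf.comp_continuous h1 fun q => ⟨(projIcc 0 T hT.le q.1.1).2, (projIcc 0 L hL.le q.2).2⟩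
  have h2 := intervalIntegral.continuous_parametric_intervalIntegral_of_continuous
    (μ := volume) (a₀ := 0) hF (s := fun q : ℝ × ℝ => q.2) continuous_snd
  refine h2.continuousOn.congr ?_
  rintro ⟨t, y⟩ ⟨ht, hy⟩
  refine intervalIntegral.integral_congr fun z hz => ?_
  rw [uIcc_of_le hy.1] at hz
  have h3 : projIcc 0 T hT.le t = ⟨t, ht⟩ := projIcc_of_mem _ ht
  have h4 : projIcc 0 L hL.le z = ⟨z, hz.1, hz.2.trans hy.2⟩ :=
    projIcc_of_mem _ ⟨hz.1, hz.2.trans hy.2⟩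
  simp only [F]
  rw [h3, h4]

theorem cont_slice (hf : ContinuousOn (uncurry f) (Icc 0 T ×ˢ Icc 0 L)) {t : ℝ} (ht : t ∈ Icc 0 T) :
    ContinuousOn (f t) (Icc 0 L) :=
  hf.comp (f := fun y : ℝ => (t, y)) (by fun_prop) fun _ hy => ⟨ht, hy⟩

theorem cont_slice' (hf : ContinuousOn (uncurry f) (Icc 0 T ×ˢ Icc 0 L)) {y : ℝ} (hy : y ∈ Icc 0 L) :
    ContinuousOn (fun t => f t y) (Icc 0 T) :=
  hf.comp (f := fun t : ℝ => (t, y)) (by fun_prop) fun _ ht => ⟨ht, hy⟩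

theorem deriv_int {f : ℝ → ℝ} (hf : ContinuousOn f (Icc 0 L)) {y : ℝ} (hy : y ∈ Ioo 0 L) :
    HasDerivAt (fun y => ∫ z in (0:ℝ)..y, f z) (f y) y := by
  have h1 : IntervalIntegrable f volume 0 y :=
    (hf.mono (by rw [uIcc_of_le hy.1.le]; exact Icc_subset_Icc_right hy.2.le)).intervalIntegrable
  refine intervalIntegral.integral_hasDerivAt_right h1 ?_ (hf.continuousAt (Icc_mem_nhds hy.1 hy.2))
  exact (hf.mono Ioo_subset_Icc_self).stronglyMeasurableAtFilter isOpen_Ioo y hy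

theorem parts {g f w : ℝ → ℝ} (hg : ContinuousOn g (Icc 0 L)) (hf : ContinuousOn f (Icc 0 L))
    (hw : ContinuousOn w (Icc 0 L)) (hd : ∀ y ∈ Icc 0 L, HasDerivWithinAt f (w y) (Icc 0 L) y)
    {y : ℝ} (hy : y ∈ Icc 0 L) :
    ∫ z in (0:ℝ)..y, ((∫ x in (0:ℝ)..z, g x) * w z - g z * f z) =
      (∫ x in (0:ℝ)..y, g x) * f y - 2 * ∫ z in (0:ℝ)..y, g z * f z := by
  have hsub : uIcc 0 y ⊆ Icc 0 L := by rw [uIcc_of_le hy.1]; exact Icc_subset_Icc_right hy.2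
  have hG : ContinuousOn (fun z => ∫ x in (0:ℝ)..z, g x) (Icc 0 L) := by
    have h1 := intervalIntegral.continuousOn_primitive_interval (a := 0) (b := L) (μ := volume)
      (f := g) (by
        rw [uIcc_of_le (hy.1.trans hy.2)]
        exact hg.integrableOn_Icc)
    rwa [uIcc_of_le (hy.1.trans hy.2)] at h1
  have hgi : IntervalIntegrable g volume 0 y := (hg.mono hsub).intervalIntegrable
  have hwi : IntervalIntegrable w volume 0 y := (hw.mono hsub).intervalIntegrable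
  have h2 := intervalIntegral.integral_mul_deriv_eq_deriv_mul_of_hasDeriv_right
    (u := fun z => ∫ x in (0:ℝ)..z, g x) (v := f) (u' := g) (v' := w) (a := 0) (b := y)
    (hG.mono hsub) (hf.mono hsub) ?_ ?_ hgi hwi
  · have h3 : IntervalIntegrable (fun z => (∫ x in (0:ℝ)..z, g x) * w z) volume 0 y :=
      ((hG.mono hsub).mul (hw.mono hsub)).intervalIntegrable
    have h4 : IntervalIntegrable (fun z => g z * f z) volume 0 y :=
      ((hg.mono hsub).mul (hf.mono hsub)).intervalIntegrable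
    rw [intervalIntegral.integral_sub h3 h4, h2, intervalIntegral.integral_same]
    ring
  · intro x hx
    rw [min_eq_left hy.1, max_eq_right hy.1] at hx
    exact (deriv_int hg ⟨hx.1, hx.2.trans_le hy.2⟩).hasDerivWithinAt
  · intro x hx
    rw [min_eq_left hy.1, max_eq_right hy.1] at hx
    exact ((hd x ⟨hx.1.le, (hx.2.trans_le hy.2).le⟩).hasDerivAt
      (Icc_mem_nhds hx.1 (hx.2.trans_le hy.2))).hasDerivWithinAt

end Int

section Nul

variable {T L : ℝ} {J : Set ℝ} {Ω : Set (ℝ × ℝ)} {φ : ℝ × ℝ × ℝ → ℝ} {A B : ℝ × ℝ × ℝ → ℝ}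

theorem nul_t (hφ : IsTest T Ω φ) (hJ : J.Countable) (hs : ∀ q ∈ Ω, 0 < q.2 ∧ q.2 < L)
    (gA : Good T L J A) (gB : Good T L J B)
    (hA : ∀ x, ∀ y ∈ Ioo 0 L, ContinuousOn (fun t => A (t, x, y)) (Icc 0 T))
    (hd : ∀ x, ∀ y ∈ Ioo 0 L, ∀ t ∈ Ioo 0 T \ J,
      HasDerivAt (fun t => A (t, x, y)) (B (t, x, y)) t) :
    Nul fun z => (A z * dt φ z + B z * φ z) :=
  ⟨(gA.integrable hJ (hφ.deriv (1, 0, 0)) hs).add (gB.integrable hJ hφ hs),
    weak_t hφ hJ hs hA hd⟩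

theorem nul_x (hφ : IsTest T Ω φ) (hJ : J.Countable) (hs : ∀ q ∈ Ω, 0 < q.2 ∧ q.2 < L)
    (gA : Good T L J A) (gB : Good T L J B)
    (hd : ∀ t ∈ Ioo 0 T \ J, ∀ y ∈ Ioo 0 L, ∀ x,
      HasDerivAt (fun x => A (t, x, y)) (B (t, x, y)) x) :
    Nul fun z => (A z * dx φ z + B z * φ z) :=
  ⟨(gA.integrable hJ (hφ.deriv (0, 1, 0)) hs).add (gB.integrable hJ hφ hs),
    weak_x hφ hJ hs hd⟩

theorem nul_y (hφ : IsTest T Ω φ) (hJ : J.Countable) (hs : ∀ q ∈ Ω, 0 < q.2 ∧ q.2 < L)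
    (gA : Good T L J A) (gB : Good T L J B)
    (hd : ∀ t ∈ Ioo 0 T \ J, ∀ x, ∀ y ∈ Ioo 0 L,
      HasDerivAt (fun y => A (t, x, y)) (B (t, x, y)) y) :
    Nul fun z => (A z * dy φ z + B z * φ z) :=
  ⟨(gA.integrable hJ (hφ.deriv (0, 0, 1)) hs).add (gB.integrable hJ hφ hs),
    weak_y hφ hJ hs hd⟩

end Nul

section Main

variable {T L : ℝ} {J : Set ℝ} {g v h k : ℝ → ℝ → ℝ} {P : ℝ → ℝ} {Ω : Set (ℝ × ℝ)}
  {φ : ℝ × ℝ × ℝ → ℝ}

/-- the primitive -/
noncomputable def Pr (f : ℝ → ℝ → ℝ) (t y : ℝ) : ℝ := ∫ z in (0:ℝ)..y, f t z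

theorem Pr_cont (hT : 0 < T) (hL : 0 < L) {f : ℝ → ℝ → ℝ}
    (hf : ContinuousOn (uncurry f) (Icc 0 T ×ˢ Icc 0 L)) :
    ContinuousOn (uncurry (Pr f)) (Icc 0 T ×ˢ Icc 0 L) := cont_int hT hL hf

theorem Pr_deriv {f : ℝ → ℝ → ℝ} (hf : ContinuousOn (uncurry f) (Icc 0 T ×ˢ Icc 0 L))
    {t : ℝ} (ht : t ∈ Icc 0 T) {y : ℝ} (hy : y ∈ Ioo 0 L) :
    HasDerivAt (fun y => Pr f t y) (f t y) y := deriv_int (cont_slice hf ht) hy

/-- the velocity -/
noncomputable def U1 (g h : ℝ → ℝ → ℝ) (z : ℝ × ℝ × ℝ) : ℝ := z.2.1 * g z.1 z.2.2 + h z.1 z.2.2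

/-- the pressure -/
noncomputable def P0 (g v : ℝ → ℝ → ℝ) (P : ℝ → ℝ) (z : ℝ × ℝ × ℝ) : ℝ :=
  P z.1 / 2 * (z.2.2 ^ 2 - z.2.1 ^ 2) - v z.1 0 * z.2.2 -
    2 * Pr (Pr fun t y => g t y ^ 2) z.1 z.2.2

/-- time derivative of the primitive of `f` -/
noncomputable def RR (g f w : ℝ → ℝ → ℝ) (P : ℝ → ℝ) (z : ℝ × ℝ × ℝ) : ℝ :=
  w z.1 z.2.2 - w z.1 0 + (Pr g z.1 z.2.2 * f z.1 z.2.2 -
    2 * Pr (fun t y => g t y * f t y) z.1 z.2.2) + P z.1 * z.2.2

theorem tg' (hT : 0 < T) (H : Tr T L J g v h k P) {t : ℝ} (ht : t ∈ Ioo 0 T \ J) {y : ℝ}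
    (hy : y ∈ Ioo 0 L) (x : ℝ) : HasDerivAt (fun s => Pr g s y) (RR g g v P (t, x, y)) t := by
  have ht' : t ∈ Icc 0 T := Ioo_subset_Icc_self ht.1
  have h1 := H.tg t ht y (Ioo_subset_Icc_self hy)
  have h2 := parts (w := v t) (cont_slice H.cg ht') (cont_slice H.cg ht')
    (H.cv.comp (f := fun y : ℝ => (t, y)) (by fun_prop) fun _ hy => ⟨⟨ht', ht.2⟩, hy⟩)
    (H.dg t ⟨ht', ht.2⟩) (Ioo_subset_Icc_self hy)
  have h3 : (∫ z in (0:ℝ)..y, ((∫ x in (0:ℝ)..z, g t x) * v t z - g t z ^ 2)) =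
      Pr g t y * g t y - 2 * Pr (fun t y => g t y * g t y) t y := by
    show _ = (∫ x in (0:ℝ)..y, g t x) * g t y - 2 * ∫ z in (0:ℝ)..y, g t z * g t z
    rw [← h2]
    refine intervalIntegral.integral_congr fun z _ => ?_
    show (∫ x in (0:ℝ)..z, g t x) * v t z - g t z ^ 2 =
      (∫ x in (0:ℝ)..z, g t x) * v t z - g t z * g t z
    ring
  rw [h3] at h1
  exact h1

theorem th' (hT : 0 < T) (H : Tr T L J g v h k P) {t : ℝ} (ht : t ∈ Ioo 0 T \ J) {y : ℝ}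
    (hy : y ∈ Ioo 0 L) (x : ℝ) :
    HasDerivAt (fun s => Pr h s y) (RR g h k (fun _ => 0) (t, x, y)) t := by
  have ht' : t ∈ Icc 0 T := Ioo_subset_Icc_self ht.1
  have h1 := H.th t ht y (Ioo_subset_Icc_self hy)
  have h2 := parts (w := k t) (cont_slice H.cg ht') (cont_slice H.ch ht')
    (H.ck.comp (f := fun y : ℝ => (t, y)) (by fun_prop) fun _ hy => ⟨⟨ht', ht.2⟩, hy⟩)
    (H.dh t ⟨ht', ht.2⟩) (Ioo_subset_Icc_self hy)
  rw [h2] at h1
  have h3 : RR g h k (fun _ => 0) (t, x, y) = k t y - k t 0 +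
      ((∫ x in (0:ℝ)..y, g t x) * h t y - 2 * ∫ z in (0:ℝ)..y, g t z * h t z) := by
    unfold RR Pr
    ring
  rw [h3]
  exact h1

structure Goods (T L : ℝ) (J : Set ℝ) (g v h k : ℝ → ℝ → ℝ) (P : ℝ → ℝ) : Prop where
  sg : Good T L J fun z => g z.1 z.2.2
  sh : Good T L J fun z => h z.1 z.2.2
  sv : Good T L J fun z => v z.1 z.2.2
  sk : Good T L J fun z => k z.1 z.2.2
  sv0 : Good T L J fun z => v z.1 0
  sk0 : Good T L J fun z => k z.1 0
  sP : Good T L J fun z => P z.1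
  sG : Good T L J fun z => Pr g z.1 z.2.2
  sK : Good T L J fun z => Pr h z.1 z.2.2
  sS : Good T L J fun z => Pr (fun t y => g t y * g t y) z.1 z.2.2
  sQ : Good T L J fun z => Pr (fun t y => g t y * h t y) z.1 z.2.2
  sSS : Good T L J fun z => Pr (Pr fun t y => g t y ^ 2) z.1 z.2.2
  sU : Good T L J (U1 g h)
  sp : Good T L J (P0 g v P)

theorem goods (hT : 0 < T) (hL : 0 < L) (H : Tr T L J g v h k P) : Goods T L J g v h k P := by
  obtain ⟨C, hC⟩ := H.bd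
  have h0 : (0 : ℝ) ∈ Icc 0 L := ⟨le_rfl, hL.le⟩
  have hg := good_of' (J := J) H.cg
  have hh := good_of' (J := J) H.ch
  have hv := good_of H.cv ⟨C, fun t ht y hy => ((hC t ht).2 y hy).1⟩
  have hk := good_of H.ck ⟨C, fun t ht y hy => ((hC t ht).2 y hy).2⟩
  have hv0 : Good T L J fun z => v z.1 0 := by
    refine good_of (f := fun t _ => v t 0) ?_ ⟨C, fun t ht y hy => ((hC t ht).2 0 h0).1⟩
    exact H.cv.comp (f := fun q : ℝ × ℝ => (q.1, (0:ℝ))) (by fun_prop) fun q hq => ⟨hq.1, h0⟩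
  have hk0 : Good T L J fun z => k z.1 0 := by
    refine good_of (f := fun t _ => k t 0) ?_ ⟨C, fun t ht y hy => ((hC t ht).2 0 h0).2⟩
    exact H.ck.comp (f := fun q : ℝ × ℝ => (q.1, (0:ℝ))) (by fun_prop) fun q hq => ⟨hq.1, h0⟩
  have hP : Good T L J fun z => P z.1 := by
    refine good_of (f := fun t _ => P t) ?_ ⟨C, fun t ht y hy => (hC t ht).1⟩
    exact H.cP.comp (f := fun q : ℝ × ℝ => q.1) (by fun_prop) fun q hq => hq.1
  have hgg : ContinuousOn (uncurry fun t y => g t y * g t y) (Icc 0 T ×ˢ Icc 0 L) :=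
    H.cg.mul H.cg
  have hg2 : ContinuousOn (uncurry fun t y => g t y ^ 2) (Icc 0 T ×ˢ Icc 0 L) :=
    H.cg.pow 2
  have hgh : ContinuousOn (uncurry fun t y => g t y * h t y) (Icc 0 T ×ˢ Icc 0 L) :=
    H.cg.mul H.ch
  have hSS := good_of' (J := J) (Pr_cont hT hL (Pr_cont hT hL hg2))
  refine ⟨hg, hh, hv, hk, hv0, hk0, hP, good_of' (Pr_cont hT hL H.cg),
    good_of' (Pr_cont hT hL H.ch), good_of' (Pr_cont hT hL hgg), good_of' (Pr_cont hT hL hgh),
    hSS, (good_x.mul hg).add hh, ?_⟩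
  have h1 := (((hP.mul (good_const (1/2))).mul ((good_y.mul good_y).sub (good_x.mul good_x))).sub
    (hv0.mul good_y)).sub (hSS.smul 2)
  have h2 : (fun z : ℝ × ℝ × ℝ => P z.1 * (1/2) * (z.2.2 * z.2.2 - z.2.1 * z.2.1) -
      v z.1 0 * z.2.2 - 2 * Pr (Pr fun t y => g t y ^ 2) z.1 z.2.2) = P0 g v P := by
    funext z
    unfold P0
    ring
  rw [h2] at h1
  exact h1

theorem ns₁_aux (hT : 0 < T) (hL : 0 < L) (H : Tr T L J g v h k P)
    (hs : ∀ q ∈ Ω, 0 < q.2 ∧ q.2 < L) (hφ : IsTest T Ω φ) :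
    ∫ z, (U1 g h z * dt φ z + U1 g h z * (U1 g h z * dx φ z + (-Pr g z.1 z.2.2) * dy φ z) +
      U1 g h z * lap φ z + P0 g v P z * dx φ z) = 0 := by
  have hJ := H.count
  have Gs := goods hT hL H
  have hsub : ∀ {t : ℝ}, t ∈ Ioo 0 T \ J → t ∈ Icc 0 T \ J := fun ht =>
    ⟨Ioo_subset_Icc_self ht.1, ht.2⟩
  have hgg : ContinuousOn (uncurry fun t y => g t y * g t y) (Icc 0 T ×ˢ Icc 0 L) :=
    H.cg.mul H.cg
  have hgh : ContinuousOn (uncurry fun t y => g t y * h t y) (Icc 0 T ×ˢ Icc 0 L) :=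
    H.cg.mul H.ch
  have gRg : Good T L J (RR g g v P) := by
    unfold RR
    exact ((Gs.sv.sub Gs.sv0).add ((Gs.sG.mul Gs.sg).sub (Gs.sS.smul 2))).add (Gs.sP.mul good_y)
  have gRh : Good T L J (RR g h k (fun _ => 0)) := by
    unfold RR
    exact ((Gs.sk.sub Gs.sk0).add ((Gs.sG.mul Gs.sh).sub (Gs.sQ.smul 2))).add ((good_const 0).mul good_y)
  have gU : Good T L J (fun z => z.2.1 * Pr g z.1 z.2.2 + Pr h z.1 z.2.2) :=
    (good_x.mul Gs.sG).add Gs.sK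
  have dgy : ∀ t ∈ Ioo 0 T \ J, ∀ y ∈ Ioo 0 L, HasDerivAt (g t) (v t y) y := fun t ht y hy =>
    (H.dg t (hsub ht) y (Ioo_subset_Icc_self hy)).hasDerivAt (Icc_mem_nhds hy.1 hy.2)
  have dhy : ∀ t ∈ Ioo 0 T \ J, ∀ y ∈ Ioo 0 L, HasDerivAt (h t) (k t y) y := fun t ht y hy =>
    (H.dh t (hsub ht) y (Ioo_subset_Icc_self hy)).hasDerivAt (Icc_mem_nhds hy.1 hy.2)
  have W1 := nul_y (hφ.deriv (1, 0, 0)) hJ hs gU Gs.sU (by
    intro t ht x y hy
    exact ((Pr_deriv H.cg (hsub ht).1 hy).const_mul x).add (Pr_deriv H.ch (hsub ht).1 hy))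
  have W2 := nul_t (hφ.deriv (0, 0, 1)) hJ hs gU ((good_x.mul gRg).add gRh) (by
    intro x y hy
    have hy' := Ioo_subset_Icc_self hy
    exact ((cont_slice' (Pr_cont hT hL H.cg) hy').const_mul x).add
      (cont_slice' (Pr_cont hT hL H.ch) hy')) (by
    intro x y hy t ht
    exact ((tg' hT H ht hy x).const_mul x).add (th' hT H ht hy x))
  have W3 := nul_y (hφ.deriv (0, 0, 1)) hJ hs Gs.sU ((good_x.mul Gs.sv).add Gs.sk) (by
    intro t ht x y hy
    exact ((dgy t ht y hy).const_mul x).add (dhy t ht y hy))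
  have W4 := nul_y hφ hJ hs ((good_x.mul Gs.sv0).add Gs.sk0) (good_const 0) (by
    intro t ht x y hy
    exact hasDerivAt_const y (x * v t 0 + k t 0))
  have W5 := nul_y hφ hJ hs ((good_x.mul Gs.sS).add Gs.sQ)
    ((good_x.mul (Gs.sg.mul Gs.sg)).add (Gs.sg.mul Gs.sh)) (by
    intro t ht x y hy
    exact ((Pr_deriv hgg (hsub ht).1 hy).const_mul x).add (Pr_deriv hgh (hsub ht).1 hy))
  have W6 := nul_x hφ hJ hs (Gs.sU.mul Gs.sU) ((Gs.sU.mul Gs.sg).smul 2) (by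
    intro t ht y hy x
    have h1 : HasDerivAt (fun x => U1 g h (t, x, y)) (g t y) x := by
      have := ((hasDerivAt_id x).mul_const (g t y)).add_const (h t y)
      simpa [U1] using this
    have h2 := h1.mul h1
    have h3 : 2 * (U1 g h (t, x, y) * g t y) =
        g t y * U1 g h (t, x, y) + U1 g h (t, x, y) * g t y := by ring
    show HasDerivAt (fun x => U1 g h (t, x, y) * U1 g h (t, x, y))
      (2 * (U1 g h (t, x, y) * g t y)) x
    rw [h3]
    exact h2)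
  have W7 := nul_y hφ hJ hs ((good_x.mul Gs.sP).mul good_y) (good_x.mul Gs.sP) (by
    intro t ht x y hy
    have := (hasDerivAt_id y).const_mul (x * P t)
    simpa using this)
  have W8 := nul_x hφ hJ hs Gs.sp (good_x.mul Gs.sP).neg (by
    intro t ht y hy x
    have h1 := ((((hasDerivAt_id x).pow 2).const_sub (y ^ 2)).const_mul (P t / 2)).sub_const
      (v t 0 * y)
    have h2 := h1.sub_const (2 * Pr (Pr fun t y => g t y ^ 2) t y)
    have h3 : -(x * P t) = P t / 2 * -((2 : ℕ) * id x ^ (2 - 1) * 1) := by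
      simp only [id]; push_cast; ring
    show HasDerivAt (fun x => P0 g v P (t, x, y)) (-(x * P t)) x
    rw [h3]
    exact h2)
  have W9 := nul_x (hφ.deriv (0, 1, 0)) hJ hs Gs.sU Gs.sg (by
    intro t ht y hy x
    have := ((hasDerivAt_id x).mul_const (g t y)).add_const (h t y)
    simpa [U1] using this)
  have W10 := nul_x hφ hJ hs Gs.sg (good_const 0) (by
    intro t ht y hy x
    exact hasDerivAt_const x (g t y))
  have hsum := ((((((((W1.sub W2).add W3).sub W4).sub (W5.smul 2)).add W6).add W7).add W8).add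
    W9).sub W10
  rw [← hsum.2]
  refine integral_congr_ae (ae_of_all _ fun z => ?_)
  have e1 : dy (fun z => fderiv ℝ φ z (1, 0, 0)) z = dt (fun z => fderiv ℝ φ z (0, 0, 1)) z :=
    dy_dt hφ z
  simp only
  rw [e1]
  have e2 : dx (fun z => fderiv ℝ φ z (0, 1, 0)) z = dx (dx φ) z := rfl
  have e3 : dy (fun z => fderiv ℝ φ z (0, 0, 1)) z = dy (dy φ) z := rfl
  have e4 : fderiv ℝ φ z (1, 0, 0) = dt φ z := rfl
  have e5 : fderiv ℝ φ z (0, 1, 0) = dx φ z := rfl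
  have e6 : fderiv ℝ φ z (0, 0, 1) = dy φ z := rfl
  rw [e2, e3, e4, e5, e6]
  unfold lap U1 RR
  ring

theorem ns₂_aux (hT : 0 < T) (hL : 0 < L) (H : Tr T L J g v h k P)
    (hs : ∀ q ∈ Ω, 0 < q.2 ∧ q.2 < L) (hφ : IsTest T Ω φ) :
    ∫ z, ((-Pr g z.1 z.2.2) * dt φ z +
      (-Pr g z.1 z.2.2) * (U1 g h z * dx φ z + (-Pr g z.1 z.2.2) * dy φ z) +
      (-Pr g z.1 z.2.2) * lap φ z + P0 g v P z * dy φ z) = 0 := by
  have hJ := H.count
  have Gs := goods hT hL H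
  have hsub : ∀ {t : ℝ}, t ∈ Ioo 0 T \ J → t ∈ Icc 0 T \ J := fun ht =>
    ⟨Ioo_subset_Icc_self ht.1, ht.2⟩
  have hg2 : ContinuousOn (uncurry fun t y => g t y ^ 2) (Icc 0 T ×ˢ Icc 0 L) :=
    H.cg.pow 2
  have gRg : Good T L J (RR g g v P) := by
    unfold RR
    exact ((Gs.sv.sub Gs.sv0).add ((Gs.sG.mul Gs.sg).sub (Gs.sS.smul 2))).add (Gs.sP.mul good_y)
  have dgy : ∀ t ∈ Ioo 0 T \ J, ∀ y ∈ Ioo 0 L, HasDerivAt (g t) (v t y) y := fun t ht y hy =>
    (H.dg t (hsub ht) y (Ioo_subset_Icc_self hy)).hasDerivAt (Icc_mem_nhds hy.1 hy.2)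
  have V1 := nul_t hφ hJ hs Gs.sG gRg (by
    intro x y hy
    exact cont_slice' (Pr_cont hT hL H.cg) (Ioo_subset_Icc_self hy)) (by
    intro x y hy t ht
    exact tg' hT H ht hy x)
  have V2 := nul_x hφ hJ hs (Gs.sG.mul Gs.sU) (Gs.sG.mul Gs.sg) (by
    intro t ht y hy x
    have h1 : HasDerivAt (fun x => U1 g h (t, x, y)) (g t y) x := by
      have := ((hasDerivAt_id x).mul_const (g t y)).add_const (h t y)
      simpa [U1] using this
    exact h1.const_mul (Pr g t y))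
  have V3 := nul_y hφ hJ hs (Gs.sG.mul Gs.sG) ((Gs.sG.mul Gs.sg).smul 2) (by
    intro t ht x y hy
    have h1 := Pr_deriv H.cg (hsub ht).1 hy
    have h2 := h1.mul h1
    have h3 : 2 * (Pr g t y * g t y) = g t y * Pr g t y + Pr g t y * g t y := by ring
    show HasDerivAt (fun y => Pr g t y * Pr g t y) (2 * (Pr g t y * g t y)) y
    rw [h3]
    exact h2)
  have V4 := nul_x (hφ.deriv (0, 1, 0)) hJ hs Gs.sG (good_const 0) (by
    intro t ht y hy x
    exact hasDerivAt_const x (Pr g t y))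
  have V5 := nul_y (hφ.deriv (0, 0, 1)) hJ hs Gs.sG Gs.sg (by
    intro t ht x y hy
    exact Pr_deriv H.cg (hsub ht).1 hy)
  have V6 := nul_y hφ hJ hs Gs.sg Gs.sv (by
    intro t ht x y hy
    exact dgy t ht y hy)
  have V7 := nul_y hφ hJ hs Gs.sp (((Gs.sP.mul good_y).sub Gs.sv0).sub
      ((good_of' (J := J) (Pr_cont hT hL hg2)).smul 2)) (by
    intro t ht x y hy
    have h1 := ((((hasDerivAt_id y).pow 2).sub_const (x ^ 2)).const_mul (P t / 2)).sub
      ((hasDerivAt_id y).const_mul (v t 0))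
    have h2 := h1.sub ((Pr_deriv (Pr_cont hT hL hg2) (hsub ht).1 hy).const_mul 2)
    have h3 : P t * y - v t 0 - 2 * Pr (fun t y => g t y ^ 2) t y =
        P t / 2 * ((2 : ℕ) * id y ^ (2 - 1) * 1) - v t 0 * 1 -
          2 * Pr (fun t y => g t y ^ 2) t y := by
      simp only [id]; push_cast; ring
    show HasDerivAt (fun y => P0 g v P (t, x, y))
      (P t * y - v t 0 - 2 * Pr (fun t y => g t y ^ 2) t y) y
    rw [h3]
    exact h2)
  have hsum := (((((V3.sub V1).sub V2).sub V4).sub V5).add V6).add V7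
  rw [← hsum.2]
  refine integral_congr_ae (ae_of_all _ fun z => ?_)
  have e2 : dx (fun z => fderiv ℝ φ z (0, 1, 0)) z = dx (dx φ) z := rfl
  have e3 : dy (fun z => fderiv ℝ φ z (0, 0, 1)) z = dy (dy φ) z := rfl
  have e5 : fderiv ℝ φ z (0, 1, 0) = dx φ z := rfl
  have e6 : fderiv ℝ φ z (0, 0, 1) = dy φ z := rfl
  have e7 : Pr (fun t y => g t y ^ 2) z.1 z.2.2 = Pr (fun t y => g t y * g t y) z.1 z.2.2 := by
    simp only [pow_two]
  simp only
  rw [e2, e3, e5, e6, e7]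
  unfold lap RR
  ring

theorem div_aux (hT : 0 < T) (hL : 0 < L) (H : Tr T L J g v h k P)
    (hs : ∀ q ∈ Ω, 0 < q.2 ∧ q.2 < L) (hφ : IsTest T Ω φ) :
    ∫ z, (U1 g h z * dx φ z + (-Pr g z.1 z.2.2) * dy φ z) = 0 := by
  have hJ := H.count
  have Gs := goods hT hL H
  have W1 := nul_x hφ hJ hs Gs.sU Gs.sg (by
    intro t ht y hy x
    have := ((hasDerivAt_id x).mul_const (g t y)).add_const (h t y)
    simpa [U1] using this)
  have W2 := nul_y hφ hJ hs Gs.sG Gs.sg (by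
    intro t ht x y hy
    exact Pr_deriv H.cg (Ioo_subset_Icc_self ht.1) hy)
  have hsum := W1.sub W2
  rw [← hsum.2]
  refine integral_congr_ae (ae_of_all _ fun z => ?_)
  simp only
  ring

end Main

section Final

variable {T L : ℝ} {J : Set ℝ} {g v h k : ℝ → ℝ → ℝ} {P : ℝ → ℝ}

theorem lip_slice (hT : 0 < T) {f w : ℝ → ℝ → ℝ} (hJ : J.Countable)
    (hf : ContinuousOn (uncurry f) (Icc 0 T ×ˢ Icc 0 L)) {C : ℝ}
    (hd : ∀ t ∈ Icc 0 T \ J, ∀ y ∈ Icc 0 L, HasDerivWithinAt (f t) (w t y) (Icc 0 L) y)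
    (hC : ∀ t ∈ Icc 0 T \ J, ∀ y ∈ Icc 0 L, |w t y| ≤ C) {t : ℝ} (ht : t ∈ Icc 0 T)
    {y y' : ℝ} (hy : y ∈ Icc 0 L) (hy' : y' ∈ Icc 0 L) : |f t y - f t y'| ≤ C * |y - y'| := by
  have h1 : ∀ s ∈ Ioo 0 T ∩ Jᶜ, |f s y - f s y'| ≤ C * |y - y'| := by
    intro s hs
    have hs' : s ∈ Icc 0 T \ J := ⟨Ioo_subset_Icc_self hs.1, hs.2⟩
    exact Convex.norm_image_sub_le_of_norm_hasDerivWithin_le (hd s hs') (hC s hs')
      (convex_Icc 0 L) hy' hy
  have h2 : Icc 0 T ⊆ closure (Ioo 0 T ∩ Jᶜ) := by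
    rw [← closure_Ioo hT.ne]
    exact closure_minimal ((hJ.dense_compl ℝ).open_subset_closure_inter isOpen_Ioo)
      isClosed_closure
  refine ContinuousWithinAt.closure_le (s := Ioo 0 T ∩ Jᶜ) (f := fun s => |f s y - f s y'|)
    (g := fun _ => C * |y - y'|) (h2 ht) ?_ continuousWithinAt_const h1
  have h3 : ContinuousOn (fun s => |f s y - f s y'|) (Icc 0 T) :=
    ((cont_slice' hf hy).sub (cont_slice' hf hy')).abs
  exact (h3 t ht).mono (inter_subset_left.trans Ioo_subset_Icc_self)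

theorem weakNS {T L : ℝ} {J : Set ℝ} {g v h k : ℝ → ℝ → ℝ} {P : ℝ → ℝ} (hT : 0 < T) (hL : 0 < L)
    (H : Tr T L J g v h k P) {Ω Γ : Set (ℝ × ℝ)} (hΩ : IsOpen Ω) (hb : Bornology.IsBounded Ω)
    (hs : ∀ q ∈ Ω, 0 < q.2 ∧ q.2 < L) (hΓ : ∀ q ∈ frontier Ω \ Γ, q.2 = 0) :
    ∃ p, IsTrajectory Ω Γ T (fun z => z.2.1 * g z.1 z.2.2 + h z.1 z.2.2)
      (fun z => -∫ y in (0:ℝ)..z.2.2, g z.1 y) p := by
  classical
  have hJ := H.count
  have Gs := goods hT hL H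
  have hcl : closure Ω ⊆ {q | q.2 ∈ Icc 0 L} := by
    refine closure_minimal (fun q hq => ⟨(hs q hq).1.le, (hs q hq).2.le⟩) ?_
    exact isClosed_Icc.preimage continuous_snd
  obtain ⟨N, hN⟩ := hb.closure.subset_closedBall (0 : ℝ × ℝ)
  have hNx : ∀ q ∈ closure Ω, |q.1| ≤ N := by
    intro q hq
    have h1 := hN hq
    rw [mem_closedBall_zero_iff] at h1
    exact (norm_fst_le q).trans h1
  obtain ⟨C, hC⟩ := H.bd
  have hK : IsCompact (Icc 0 T ×ˢ Icc 0 L) := isCompact_Icc.prod isCompact_Icc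
  obtain ⟨M, hM⟩ := hK.exists_bound_of_continuousOn H.cg
  have hM' : ∀ t ∈ Icc 0 T, ∀ y ∈ Icc 0 L, |g t y| ≤ M := fun t ht y hy => hM (t, y) ⟨ht, hy⟩
  have h0T : (0 : ℝ) ∈ Icc 0 T := ⟨le_rfl, hT.le⟩
  have h0L : (0 : ℝ) ∈ Icc 0 L := ⟨le_rfl, hL.le⟩
  have hM0 : 0 ≤ M := (abs_nonneg _).trans (hM' 0 h0T 0 h0L)
  have hC0 : 0 ≤ C := by
    obtain ⟨t, ht⟩ : (Icc 0 T \ J).Nonempty := by
      have h2 : Icc 0 T ⊆ closure (Ioo 0 T ∩ Jᶜ) := by
        rw [← closure_Ioo hT.ne]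
        exact closure_minimal ((hJ.dense_compl ℝ).open_subset_closure_inter isOpen_Ioo)
          isClosed_closure
      have h3 : (closure (Ioo 0 T ∩ Jᶜ)).Nonempty := ⟨0, h2 h0T⟩
      obtain ⟨t, ht⟩ := closure_nonempty_iff.mp h3
      exact ⟨t, Ioo_subset_Icc_self ht.1, ht.2⟩
    exact (abs_nonneg _).trans (hC t ht).1
  have lg : ∀ t ∈ Icc 0 T, ∀ y ∈ Icc 0 L, ∀ y' ∈ Icc 0 L, |g t y - g t y'| ≤ C * |y - y'| :=
    fun t ht y hy y' hy' => lip_slice hT hJ H.cg H.dg (fun t ht y hy => ((hC t ht).2 y hy).1)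
      ht hy hy'
  have lh : ∀ t ∈ Icc 0 T, ∀ y ∈ Icc 0 L, ∀ y' ∈ Icc 0 L, |h t y - h t y'| ≤ C * |y - y'| :=
    fun t ht y hy y' hy' => lip_slice hT hJ H.ch H.dh (fun t ht y hy => ((hC t ht).2 y hy).2)
      ht hy hy'
  set D : Set (ℝ × ℝ × ℝ) := Dom T L J ∩ {z | |z.2.1| ≤ N} with hD
  have hDm : MeasurableSet D := (measurableSet_Dom hJ).inter
    (measurableSet_le (by fun_prop) measurable_const)
  have hpP : ∀ φ, IsTest T Ω φ → ∀ᵐ z : ℝ × ℝ × ℝ, D.indicator (P0 g v P) z * φ z =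
      P0 g v P z * φ z := by
    intro φ hφ
    filter_upwards [ae_fst_notMem hJ] with z hz
    by_cases hz' : z ∈ tsupport φ
    · obtain ⟨t, x, y⟩ := z
      obtain ⟨h4, h5⟩ := mem_of_tsupport hφ hs hz'
      rw [indicator_of_mem]
      refine ⟨⟨⟨⟨h4.1.le, h4.2.le⟩, hz⟩, ⟨h5.1.le, h5.2.le⟩⟩, ?_⟩
      exact hNx (x, y) (subset_closure (hφ.supp hz').2)
    · rw [image_eq_zero_of_notMem_tsupport hz', mul_zero, mul_zero]
  refine ⟨D.indicator (P0 g v P), ?_⟩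
  refine
    { cont₁ := ?_, cont₂ := ?_, lip := ?_, wall := ?_, meas := ?_, bdd := ?_, div := ?_,
      ns₁ := ?_, ns₂ := ?_ }
  · have h1 : ContinuousOn (fun z : ℝ × ℝ × ℝ => g z.1 z.2.2) (Icc 0 T ×ˢ closure Ω) :=
      H.cg.comp (f := fun z : ℝ × ℝ × ℝ => (z.1, z.2.2)) (by fun_prop)
        fun z hz => show (z.1, z.2.2) ∈ Icc 0 T ×ˢ Icc 0 L from ⟨hz.1, (hcl hz.2 :)⟩
    have h2 : ContinuousOn (fun z : ℝ × ℝ × ℝ => h z.1 z.2.2) (Icc 0 T ×ˢ closure Ω) :=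
      H.ch.comp (f := fun z : ℝ × ℝ × ℝ => (z.1, z.2.2)) (by fun_prop)
        fun z hz => show (z.1, z.2.2) ∈ Icc 0 T ×ˢ Icc 0 L from ⟨hz.1, (hcl hz.2 :)⟩
    exact (ContinuousOn.mul (by fun_prop) h1).add h2
  · have h1 : ContinuousOn (fun z : ℝ × ℝ × ℝ => Pr g z.1 z.2.2) (Icc 0 T ×ˢ closure Ω) :=
      (Pr_cont hT hL H.cg).comp (f := fun z : ℝ × ℝ × ℝ => (z.1, z.2.2)) (by fun_prop)
        fun z hz => show (z.1, z.2.2) ∈ Icc 0 T ×ˢ Icc 0 L from ⟨hz.1, (hcl hz.2 :)⟩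
    exact h1.neg
  · refine ⟨⟨M + |N| * C + C, by positivity⟩, fun t ht => ⟨?_, ?_⟩⟩
    · refine LipschitzOnWith.of_dist_le_mul fun q hq q' hq' => ?_
      have hy := hcl hq
      have hy' := hcl hq'
      have e1 : |q.1 - q'.1| ≤ dist q q' := by
        rw [Prod.dist_eq, Real.dist_eq, Real.dist_eq]; exact le_max_left _ _
      have e2 : |q.2 - q'.2| ≤ dist q q' := by
        rw [Prod.dist_eq, Real.dist_eq, Real.dist_eq]; exact le_max_right _ _
      have e3 : |q'.1| ≤ |N| := (hNx q' hq').trans (le_abs_self N)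
      rw [Real.dist_eq]
      show |(q.1 * g t q.2 + h t q.2) - (q'.1 * g t q'.2 + h t q'.2)| ≤
        (M + |N| * C + C) * dist q q'
      have e4 : (q.1 * g t q.2 + h t q.2) - (q'.1 * g t q'.2 + h t q'.2) =
        (q.1 - q'.1) * g t q.2 + q'.1 * (g t q.2 - g t q'.2) + (h t q.2 - h t q'.2) := by ring
      rw [e4]
      have a1 : |(q.1 - q'.1) * g t q.2| ≤ M * dist q q' := by
        rw [abs_mul, mul_comm]
        exact mul_le_mul (hM' t ht _ hy) e1 (abs_nonneg _) hM0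
      have a2 : |q'.1 * (g t q.2 - g t q'.2)| ≤ |N| * C * dist q q' := by
        rw [abs_mul, mul_assoc]
        refine mul_le_mul e3 ((lg t ht _ hy _ hy').trans ?_) (abs_nonneg _) (abs_nonneg _)
        exact mul_le_mul_of_nonneg_left e2 hC0
      have a3 : |h t q.2 - h t q'.2| ≤ C * dist q q' :=
        (lh t ht _ hy _ hy').trans (mul_le_mul_of_nonneg_left e2 hC0)
      calc _ ≤ |(q.1 - q'.1) * g t q.2| + |q'.1 * (g t q.2 - g t q'.2)| +
            |h t q.2 - h t q'.2| := (abs_add_le _ _).trans (add_le_add (abs_add_le _ _) le_rfl)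
        _ ≤ M * dist q q' + |N| * C * dist q q' + C * dist q q' :=
            add_le_add (add_le_add a1 a2) a3
        _ = _ := by ring
    · refine LipschitzOnWith.of_dist_le_mul fun q hq q' hq' => ?_
      have hy := hcl hq
      have hy' := hcl hq'
      have e2 : |q.2 - q'.2| ≤ dist q q' := by
        rw [Prod.dist_eq, Real.dist_eq, Real.dist_eq]; exact le_max_right _ _
      rw [Real.dist_eq]
      show |(-∫ y in (0:ℝ)..q.2, g t y) - (-∫ y in (0:ℝ)..q'.2, g t y)| ≤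
        (M + |N| * C + C) * dist q q'
      have hi : ∀ y ∈ Icc 0 L, IntervalIntegrable (g t) volume 0 y := fun y hy =>
        ((cont_slice H.cg ht).mono (by
          rw [uIcc_of_le hy.1]; exact Icc_subset_Icc_right hy.2)).intervalIntegrable
      have e4 : (-∫ y in (0:ℝ)..q.2, g t y) - (-∫ y in (0:ℝ)..q'.2, g t y) =
          ∫ y in q.2..q'.2, g t y := by
        rw [← intervalIntegral.integral_interval_sub_left (hi _ hy') (hi _ hy)]
        ring
      rw [e4]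
      have a1 : ‖∫ y in q.2..q'.2, g t y‖ ≤ M * |q'.2 - q.2| := by
        refine intervalIntegral.norm_integral_le_of_norm_le_const fun y hyy => ?_
        have h5 := uIoc_subset_uIcc hyy
        have h6 : y ∈ Icc 0 L := (uIcc_subset_Icc hy hy') h5
        exact hM' t ht y h6
      rw [Real.norm_eq_abs, abs_sub_comm q'.2] at a1
      refine a1.trans ((mul_le_mul_of_nonneg_left e2 hM0).trans ?_)
      refine mul_le_mul_of_nonneg_right ?_ dist_nonneg
      have : 0 ≤ |N| * C := by positivity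
      linarith
  · intro t ht q hq
    have h1 := hΓ q hq
    refine ⟨?_, ?_⟩
    · show q.1 * g t q.2 + h t q.2 = 0
      rw [h1, H.zg t ht, H.zh t ht, mul_zero, add_zero]
    · show -(∫ y in (0:ℝ)..q.2, g t y) = 0
      rw [h1, intervalIntegral.integral_same, neg_zero]
  · have h1 : Measurable (D.piecewise (P0 g v P) (fun _ => (0:ℝ))) :=
      ContinuousOn.measurable_piecewise (Gs.sp.cont.mono inter_subset_left) continuousOn_const hDm
    have h2 : D.piecewise (P0 g v P) (fun _ => (0:ℝ)) = D.indicator (P0 g v P) :=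
      piecewise_eq_indicator
    rw [h2] at h1
    exact h1
  · obtain ⟨C', hC'⟩ := Gs.sp.bdd N
    refine ⟨|C'|, fun z => ?_⟩
    by_cases hz : z ∈ D
    · rw [indicator_of_mem hz]
      exact (hC' z hz.1 hz.2).trans (le_abs_self _)
    · rw [indicator_of_notMem hz, abs_zero]
      exact abs_nonneg _
  · intro φ hφ
    exact div_aux hT hL H hs hφ
  · intro φ hφ
    refine Eq.trans ?_ (ns₁_aux hT hL H hs hφ)
    refine integral_congr_ae ?_
    filter_upwards [hpP _ (hφ.deriv (0, 1, 0))] with z hz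
    have hz' : D.indicator (P0 g v P) z * dx φ z = P0 g v P z * dx φ z := hz
    rw [hz']
    rfl
  · intro φ hφ
    refine Eq.trans ?_ (ns₂_aux hT hL H hs hφ)
    refine integral_congr_ae ?_
    filter_upwards [hpP _ (hφ.deriv (0, 0, 1))] with z hz
    have hz' : D.indicator (P0 g v P) z * dy φ z = P0 g v P z * dy φ z := hz
    rw [hz']
    rfl

end Final

end Pool.Agent.Lib.MP_79abb3_an.W
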