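import Pool.Agent.Lib.MP_79abb3_an.HSolve
import Pool.Agent.Lib.MP_79abb3_an.GCtrl
import Pool.Agent.Lib.MP_79abb3_an.WeakNS

/-!
Null controllability of the pair `(g,h)`, and of the Navier-Stokes flow.
-/

set_option autoImplicit false
set_option linter.unusedSectionVars false
set_option linter.unusedVariables false

open MeasureTheory Set Filter Topology Real Function
open scoped ContDiff

namespace Pool.Agent.Lib.MP_79abb3_an

/-- A background alone is a piece of the linear equation with coefficient zero. -/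
theorem Back.lin {t0 L A : ℝ} {F F' : ℝ → ℝ → ℝ} (ht0 : t0 ∈ Ioc 0 1) (hL : 0 ≤ L) (hA : 0 ≤ A)
    (hB : Back t0 L 0 A F F') : TrL 0 t0 L A {0} (fun _ _ => 0) F F' (fun _ => 0) := by
  obtain ⟨χ, hχ⟩ := exists_cut hL
  have hn : SrcC t0 0 (L + 1) (fun _ _ => 0) :=
    ⟨continuousOn_const, fun s _ y => by simp, fun s _ y _ => rfl⟩
  have hD : ∀ t y, Duh (fun _ _ => (0:ℝ)) t y = 0 := fun t y => by simp [Duh, H, Ga]
  have hDD : ∀ t y, DuhD (fun _ _ => (0:ℝ)) t y = 0 := fun t y => by simp [DuhD, Dh, Gd]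
  have h := piece (g := fun _ _ => 0) hχ ht0 (by linarith) hL hA hB hn
    (fun s _ y _ => by simp) (fun s y => by simp)
  have h2 : TrL 0 t0 L (|(0:ℝ)| + A + 2 * √t0 * (0 * cE)) {0} (fun _ _ => 0) F F' (fun _ => 0) :=
    h.congr (fun t _ y _ => rfl) (fun t _ y _ => by rw [hD, add_zero])
      (fun t _ y _ => by rw [hDD, add_zero]) hL (fun t _ => rfl)
  refine h2.mono (by simp) le_rfl h2.count

/-- The heat equation on `[0,L]` is null controllable in time `T`. -/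
theorem lin_ctrl {L T : ℝ} (hL : 0 ≤ L) (hT : 0 < T) {m m' : ℝ} {e e' : ℝ → ℝ}
    (he : Odd1 m m' e e') : ∃ (C : ℝ) (J : Set ℝ) (h k : ℝ → ℝ → ℝ), 0 ≤ C ∧
      TrL 0 T L C J (fun _ _ => 0) h k (fun _ => 0) ∧ (∀ y ∈ Icc 0 L, h 0 y = e y) ∧
      ∀ y ∈ Icc 0 L, h T y = 0 := by
  obtain ⟨D, K, hD, hK, hfb⟩ := flat_back (S := L + 1) (by linarith)
  obtain ⟨l, hl⟩ : ∃ l, l = min 1 (T / 4) := ⟨_, rfl⟩
  have hl0 : 0 < l := by rw [hl]; exact lt_min one_pos (by positivity)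
  have hl1 : l ≤ 1 := by rw [hl]; exact min_le_left _ _
  have hlT : l ≤ T / 4 := by rw [hl]; exact min_le_right _ _
  obtain ⟨w, w', hw, -, hw0, hw1, -⟩ := hfb l ⟨hl0, hl1⟩ m m' e e' he
  have hD0 : 0 < D := by linarith
  have hlD : 0 < l / D := by positivity
  have hlD1 : l / D ≤ l := div_le_self hl0.le hD
  have hcE := cE_pos
  have hm := he.m0
  have hm' := he.m0'
  obtain ⟨A2, hA2⟩ : ∃ A, A = m * (K * exp (K / l ^ 2)) := ⟨_, rfl⟩
  rw [← hA2] at hw
  have hA20 : 0 ≤ A2 := by rw [hA2]; positivity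
  have hwL : Back (l / D) L 0 A2 w w' :=
    ⟨hw.c0, hw.c1, hw.d, hw.z, fun t ht y hy => hw.bd t ht y ⟨hy.1, by linarith [hy.2]⟩, hw.ti⟩
  have p1 := (he.back hl1 L).lin ⟨hl0, le_rfl.trans hl1⟩ hL (by positivity : 0 ≤ m' * cE)
  have p2 := (hwL.lin ⟨hlD, by linarith⟩ hL hA20).shift l
  rw [zero_add] at p2
  obtain ⟨C, hC⟩ : ∃ C, C = max (m' * cE) A2 := ⟨_, rfl⟩
  have c1 : m' * cE ≤ C := by rw [hC]; exact le_max_left _ _
  have c2 : A2 ≤ C := by rw [hC]; exact le_max_right _ _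
  have hC0 : 0 ≤ C := hA20.trans c2
  have p12 := (p1.mono c1 le_rfl p1.count).glue (p2.mono c2 le_rfl p2.count) hL hl0.le
    (by linarith) (fun y _ => by
      show H l e y = w (l - l) y
      rw [sub_self, hw0])
  obtain ⟨b, hb⟩ : ∃ b, b = l / D + l := ⟨_, rfl⟩
  rw [← hb] at p12
  have hb0 : 0 < b := by rw [hb]; linarith
  have hbT : b ≤ T := by rw [hb]; linarith
  have hbl : ¬ b ≤ l := by rw [hb]; linarith
  have p123 := p12.glue (TrL.zero b T L hC0) hL hb0.le hbT (fun y _ => by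
    show (if b ≤ l then H b e else w (b - l)) y = 0
    rw [if_neg hbl, hb, add_sub_cancel_right, hw1])
  refine ⟨C, _, _, _, hC0, p123.congr (fun t _ y _ => ?_) (fun t _ y _ => rfl)
    (fun t _ y _ => rfl) hL (fun t _ => ?_), fun y _ => ?_, fun y _ => ?_⟩
  · split_ifs <;> rfl
  · split_ifs <;> rfl
  · show (if (0:ℝ) ≤ b then (if (0:ℝ) ≤ l then H 0 e else w (0 - l)) else fun _ => 0) y = e y
    rw [if_pos hb0.le, if_pos hl0.le, H_zero]
  · by_cases hTb : T ≤ b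
    · have : T = b := le_antisymm hTb hbT
      show (if T ≤ b then (if T ≤ l then H T e else w (T - l)) else fun _ => 0) y = 0
      rw [if_pos hTb, this, if_neg hbl, hb, add_sub_cancel_right, hw1]
    · show (if T ≤ b then (if T ≤ l then H T e else w (T - l)) else fun _ => 0) y = 0
      rw [if_neg hTb]

/-- Null controllability of the pair. -/
theorem pair_ctrl {L T M m m' : ℝ} (hL : 0 < L) (hT : 0 < T) {e e' h0 h0' : ℝ → ℝ}
    (he : Odd1 M M e e') (hh : Odd1 m m' h0 h0') :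
    ∃ (J : Set ℝ) (g v h k : ℝ → ℝ → ℝ) (P : ℝ → ℝ), Tr T L J g v h k P ∧
      (∀ y ∈ Icc 0 L, g 0 y = e y) ∧ (∀ y ∈ Icc 0 L, h 0 y = h0 y) ∧
      (∀ y ∈ Icc 0 L, g T y = 0) ∧ ∀ y ∈ Icc 0 L, h T y = 0 := by
  have hL1 : 0 ≤ L + 1 := by linarith
  obtain ⟨b, C, J, g, v, P, hb, hbT, hC, hg, hg0, hgb⟩ := g_ctrl hL1 (half_pos hT) he
  have hbT' : b < T := by linarith
  have hTb : ¬ T ≤ b := by linarith
  have G := hg.glue (TrL.zero b T (L + 1) hC) hL1 hb.le hbT'.le (fun y hy => hgb y hy)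
  obtain ⟨C2, J2, h, k, m1, m1', e1, e1', hC2, hh1, hh0, he1, hhb⟩ :=
    hsolve hb hL.le hg.cf hg.z hh
  obtain ⟨C3, J3, h3, k3, hC3, hh3, hh30, hh3T⟩ := lin_ctrl hL.le (by linarith : 0 < T - b) he1
  obtain ⟨C4, hC4⟩ : ∃ C, C = max C2 C3 := ⟨_, rfl⟩
  have c1 : C2 ≤ C4 := by rw [hC4]; exact le_max_left _ _
  have c2 : C3 ≤ C4 := by rw [hC4]; exact le_max_right _ _
  have p3 := hh3.shift b
  rw [zero_add, sub_add_cancel] at p3
  have Hh := (hh1.mono c1 le_rfl hh1.count).glue (p3.mono c2 le_rfl p3.count) hL.le hb.le hbT'.le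
    (fun y hy => by
      show h b y = h3 (b - b) y
      rw [sub_self, hh30 y hy, hhb y hy])
  obtain ⟨JJ, hJJ⟩ : ∃ JJ, JJ = (J ∪ ∅ ∪ {b}) ∪ (J2 ∪ ((fun t => t - b) ⁻¹' J3) ∪ {b}) := ⟨_, rfl⟩
  have hJc : JJ.Countable := by rw [hJJ]; exact G.count.union Hh.count
  have G' := (G.subL (by linarith : L ≤ L + 1)).mono (C' := max C C4) (J' := JJ) (le_max_left _ _)
    (by rw [hJJ]; exact subset_union_left) hJc
  have H' := Hh.mono (C' := max C C4) (J' := JJ) (le_max_right _ _)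
    (by rw [hJJ]; exact subset_union_right) hJc
  refine ⟨JJ, _, _, _, _, _, ⟨hJc, G'.cf, H'.cf, G'.cv, H'.cv, G'.cP, ⟨max C C4, fun t ht =>
    ⟨(G'.bd t ht).1, fun y hy => ⟨(G'.bd t ht).2 y hy, (H'.bd t ht).2 y hy⟩⟩⟩, G'.df, H'.df, G'.z,
    H'.z, fun t ht y hy => ?_, fun t ht y hy => ?_⟩, fun y hy => ?_, fun y hy => ?_, fun y hy => ?_,
    fun y hy => ?_⟩
  · refine (G'.tf t ht y hy).congr_deriv ?_
    congr 2
    refine intervalIntegral.integral_congr fun z _ => ?_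
    ring
  · have e := H'.tf t ht y hy
    refine e.congr_deriv ?_
    have : (if t ≤ b then (fun _ => (0:ℝ)) t else (fun _ => (0:ℝ)) (t - b)) = 0 := by
      split_ifs <;> rfl
    rw [this, zero_mul, add_zero]
  · show (if (0:ℝ) ≤ b then g 0 else fun _ => 0) y = e y
    rw [if_pos hb.le]
    exact hg0 y ⟨hy.1, by linarith [hy.2]⟩
  · show (if (0:ℝ) ≤ b then h 0 else h3 (0 - b)) y = h0 y
    rw [if_pos hb.le]
    exact hh0 y hy
  · show (if T ≤ b then g T else fun _ => 0) y = 0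
    rw [if_neg hTb]
  · show (if T ≤ b then h T else h3 (T - b)) y = 0
    rw [if_neg hTb]
    exact hh3T y hy

/-- Odd bounded extension of a `C¹` function vanishing at zero. -/
theorem exists_odd1 {L : ℝ} (hL : 0 < L) {f : ℝ → ℝ} (hf : ContDiff ℝ 1 f) (h0 : f 0 = 0) :
    ∃ (M : ℝ) (e e' : ℝ → ℝ), Odd1 M M e e' ∧ ∀ y ∈ Icc 0 L, e y = f y := by
  have hcd : Continuous (deriv f) := hf.continuous_deriv le_rfl
  obtain ⟨u, hu⟩ : ∃ u : ℝ → ℝ, u = fun y => deriv f |y| * max 0 (min 1 (L + 1 - |y|)) := ⟨_, rfl⟩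
  have cu : Continuous u := by
    rw [hu]
    exact (hcd.comp continuous_abs).mul (by fun_prop)
  have ue : ∀ y, u (-y) = u y := fun y => by simp only [hu, abs_neg]
  have uz : ∀ y, L + 1 ≤ |y| → u y = 0 := fun y hy => by
    simp only [hu]
    rw [max_eq_left ((min_le_right _ _).trans (by linarith)), mul_zero]
  obtain ⟨c, hc⟩ := (isCompact_Icc (a := -(L + 1)) (b := L + 1)).exists_bound_of_continuousOn
    cu.continuousOn
  have hub : ∀ y, |u y| ≤ max c 0 := fun y => by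
    by_cases hy : L + 1 ≤ |y|
    · rw [uz y hy, abs_zero]; exact le_max_right _ _
    · push Not at hy
      exact (hc y ⟨by linarith [neg_abs_le y], by linarith [le_abs_self y]⟩).trans (le_max_left _ _)
  obtain ⟨K, hK⟩ : ∃ K, K = max c 0 := ⟨_, rfl⟩
  have hK0 : 0 ≤ K := by rw [hK]; exact le_max_right _ _
  rw [← hK] at hub
  have de : ∀ y, HasDerivAt (fun y => ∫ z in (0:ℝ)..y, u z) (u y) y := fun y =>
    (cu.integral_hasStrictDerivAt 0 y).hasDerivAt
  have oe : ∀ y, ∫ z in (0:ℝ)..(-y), u z = -∫ z in (0:ℝ)..y, u z := by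
    intro y
    have h2 := intervalIntegral.integral_comp_neg (a := 0) (b := y) u
    rw [neg_zero] at h2
    have h3 : ∫ z in (0:ℝ)..y, u (-z) = ∫ z in (0:ℝ)..y, u z :=
      intervalIntegral.integral_congr fun z _ => ue z
    have h4 := intervalIntegral.integral_symm (μ := volume) (f := u) (-y) 0
    linarith
  have bpos : ∀ y, 0 ≤ y → |∫ z in (0:ℝ)..y, u z| ≤ K * (L + 1) := by
    intro y hy
    rcases le_total y (L + 1) with h | h
    · have h1 := intervalIntegral.norm_integral_le_of_norm_le_const (a := 0) (b := y) (f := u)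
        (C := K) (fun z _ => hub z)
      rw [sub_zero, abs_of_nonneg hy, Real.norm_eq_abs] at h1
      exact h1.trans (by gcongr)
    · have h1 := intervalIntegral.norm_integral_le_of_norm_le_const (a := 0) (b := L + 1) (f := u)
        (C := K) (fun z _ => hub z)
      rw [sub_zero, abs_of_nonneg (by linarith), Real.norm_eq_abs] at h1
      have h2 : ∫ z in (L + 1)..y, u z = 0 := by
        rw [intervalIntegral.integral_congr (g := fun _ => (0:ℝ)) (fun z hz => ?_)]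
        · simp
        · rw [uIcc_of_le h] at hz
          exact uz z (by rw [abs_of_nonneg (by linarith [hz.1])]; exact hz.1)
      rw [← intervalIntegral.integral_add_adjacent_intervals (cu.intervalIntegrable 0 (L + 1))
        (cu.intervalIntegrable (L + 1) y), h2, add_zero]
      exact h1
  have hb : ∀ y, |∫ z in (0:ℝ)..y, u z| ≤ K * (L + 1) := by
    intro y
    rcases le_total 0 y with h | h
    · exact bpos y h
    · have := bpos (-y) (by linarith)
      rwa [oe, abs_neg] at this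
  refine ⟨max (K * (L + 1)) K, fun y => ∫ z in (0:ℝ)..y, u z, u, ⟨cu, de, oe,
    fun y => (hb y).trans (le_max_left _ _), fun y => (hub y).trans (le_max_right _ _)⟩, ?_⟩
  intro y hy
  have h1 : ∫ z in (0:ℝ)..y, u z = ∫ z in (0:ℝ)..y, deriv f z := by
    refine intervalIntegral.integral_congr fun z hz => ?_
    rw [uIcc_of_le hy.1] at hz
    simp only [hu]
    rw [abs_of_nonneg hz.1, min_eq_left (by linarith [hz.2, hy.2]), max_eq_right zero_le_one,
      mul_one]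
  show ∫ z in (0:ℝ)..y, u z = f y
  rw [h1, intervalIntegral.integral_eq_sub_of_hasDerivAt (f := f) (fun z _ =>
    (hf.differentiable (by norm_num) z).hasDerivAt) (hcd.intervalIntegrable _ _), h0, sub_zero]

/-- **Main theorem.** Horizontally affine flows over a flat no-slip wall are exactly null
controllable in every time. -/
theorem main_theorem {Ω Γ : Set (ℝ × ℝ)} (hΩ : IsOpen Ω) (hb : Bornology.IsBounded Ω)
    (hpos : ∀ q ∈ Ω, 0 < q.2) (hΓ : ∀ q ∈ frontier Ω \ Γ, q.2 = 0) {T : ℝ} (hT : 0 < T)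
    {g₀ h₀ : ℝ → ℝ} (hg : ContDiff ℝ 1 g₀) (hh : ContDiff ℝ 1 h₀) (hg0 : g₀ 0 = 0)
    (hh0 : h₀ 0 = 0) :
    ∃ u₁ u₂ p : ℝ × ℝ × ℝ → ℝ, IsTrajectory Ω Γ T u₁ u₂ p ∧
      (∀ q ∈ closure Ω, u₁ (0, q) = q.1 * g₀ q.2 + h₀ q.2 ∧ u₂ (0, q) = -∫ y in (0:ℝ)..q.2, g₀ y) ∧
      ∀ q ∈ closure Ω, u₁ (T, q) = 0 ∧ u₂ (T, q) = 0 := by
  obtain ⟨R, hR⟩ := hb.exists_norm_le
  obtain ⟨L, hL⟩ : ∃ L, L = max R 0 + 1 := ⟨_, rfl⟩
  have hL0 : 0 < L := by
    have : 0 ≤ max R 0 := le_max_right _ _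
    linarith
  have hs : ∀ q ∈ Ω, 0 < q.2 ∧ q.2 < L := fun q hq => ⟨hpos q hq, by
    have h1 := hR q hq
    have h2 : |q.2| ≤ ‖q‖ := norm_snd_le q
    have h3 : R ≤ max R 0 := le_max_left _ _
    linarith [le_abs_self q.2]⟩
  have hcl : ∀ q ∈ closure Ω, q.2 ∈ Icc 0 L := fun q hq => by
    have : closure Ω ⊆ {q : ℝ × ℝ | q.2 ∈ Icc 0 L} := by
      refine closure_minimal (fun q hq => ⟨(hs q hq).1.le, (hs q hq).2.le⟩) ?_
      exact isClosed_Icc.preimage continuous_snd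
    exact this hq
  obtain ⟨M, e, e', he, hee⟩ := exists_odd1 hL0 hg hg0
  obtain ⟨M', f, f', hf, hff⟩ := exists_odd1 hL0 hh hh0
  obtain ⟨J, g, v, h, k, P, hTr, i1, i2, i3, i4⟩ := pair_ctrl hL0 hT he hf
  obtain ⟨p, hp⟩ := W.weakNS hT hL0 hTr hΩ hb hs hΓ
  refine ⟨_, _, p, hp, fun q hq => ⟨?_, ?_⟩, fun q hq => ⟨?_, ?_⟩⟩
  · have hq' := hcl q hq
    show q.1 * g 0 q.2 + h 0 q.2 = _
    rw [i1 _ hq', i2 _ hq', hee _ hq', hff _ hq']
  · have hq' := hcl q hq
    show (-∫ y in (0:ℝ)..q.2, g 0 y) = _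
    congr 1
    refine intervalIntegral.integral_congr fun z hz => ?_
    rw [uIcc_of_le hq'.1] at hz
    have hz' : z ∈ Icc 0 L := ⟨hz.1, hz.2.trans hq'.2⟩
    show g 0 z = g₀ z
    rw [i1 _ hz', hee _ hz']
  · have hq' := hcl q hq
    show q.1 * g T q.2 + h T q.2 = 0
    rw [i3 _ hq', i4 _ hq', mul_zero, add_zero]
  · have hq' := hcl q hq
    show (-∫ y in (0:ℝ)..q.2, g T y) = 0
    rw [intervalIntegral.integral_congr (g := fun _ => (0:ℝ)) (fun z hz => ?_)]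
    · simp
    · rw [uIcc_of_le hq'.1] at hz
      exact i3 z ⟨hz.1, hz.2.trans hq'.2⟩

end Pool.Agent.Lib.MP_79abb3_an
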