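import Pool.Agent.Lib.MP_79abb3_an.Space

/-!
Short time solvers with cut-off: the nonlinear equation and the linear (passive) equation.
-/

set_option autoImplicit false
set_option linter.unusedSectionVars false
set_option linter.unusedVariables false

open MeasureTheory Set Filter Topology Real ProbabilityTheory Function
open scoped BoundedContinuousFunction

namespace Pool.Agent.Lib.MP_79abb3_an

/-- Background fields. -/
structure Bg (t0 S A0 A1 : ℝ) (F F' : ℝ → ℝ → ℝ) : Prop where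
  c0 : ContinuousOn (uncurry F) (Ioc 0 t0 ×ˢ univ)
  c1 : ContinuousOn (uncurry F') (Ioc 0 t0 ×ˢ univ)
  b0 : ∀ s ∈ Ioc 0 t0, ∀ y, 0 ≤ y → y ≤ S → |F s y| ≤ A0
  b1 : ∀ s ∈ Ioc 0 t0, ∀ y, 0 ≤ y → y ≤ S → |F' s y| ≤ A1
  z : ∀ s ∈ Ioc 0 t0, F s 0 = 0

/-- Cut-off functions. -/
structure Cut (L S : ℝ) (χ : ℝ → ℝ) : Prop where
  c : Continuous χ
  nn : ∀ y, 0 ≤ χ y
  le : ∀ y, χ y ≤ 1
  s : ∀ y, S ≤ y → χ y = 0
  one : ∀ y, 0 ≤ y → y ≤ L → χ y = 1

theorem cont_prim_TS {t0 : ℝ} {Φ : TS t0 → ℝ} (h : Continuous Φ) :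
    Continuous fun p : TS t0 => ∫ z in (0:ℝ)..p.2, Φ (p.1, z) := by
  have h1 : Continuous (uncurry fun (p : TS t0) (z : ℝ) => Φ (p.1, z)) :=
    h.comp (f := fun q : TS t0 × ℝ => (q.1.1, q.2)) (by fun_prop)
  exact intervalIntegral.continuous_parametric_intervalIntegral_of_continuous h1
    (s := fun p : TS t0 => p.2) (by fun_prop)

theorem abs_prim_le {f : ℝ → ℝ} {S A y : ℝ} (h : ∀ z, 0 ≤ z → z ≤ S → |f z| ≤ A) (hy : 0 ≤ y)
    (hyS : y ≤ S) : |∫ z in (0:ℝ)..y, f z| ≤ S * A := by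
  have hA : 0 ≤ A := (abs_nonneg _).trans (h 0 le_rfl (hy.trans hyS))
  have := intervalIntegral.norm_integral_le_of_norm_le_const (a := 0) (b := y) (f := f) (C := A)
    (fun z hz => by
      rw [uIoc_of_le hy] at hz
      exact h z hz.1.le (hz.2.trans hyS))
  rw [sub_zero, abs_of_nonneg hy] at this
  refine this.trans ?_
  rw [mul_comm]
  gcongr

theorem fst_le {t0 : ℝ} (X : TS t0 →ᵇ ℝ × ℝ) (p : TS t0) : |(X p).1| ≤ ‖X‖ :=
  (norm_fst_le (X p)).trans (X.norm_coe_le_norm p)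

theorem snd_le {t0 : ℝ} (X : TS t0 →ᵇ ℝ × ℝ) (p : TS t0) : |(X p).2| ≤ ‖X‖ :=
  (norm_snd_le (X p)).trans (X.norm_coe_le_norm p)

theorem fst_sub_le {t0 : ℝ} (X Y : TS t0 →ᵇ ℝ × ℝ) (p : TS t0) : |(X p).1 - (Y p).1| ≤ dist X Y := by
  have := fst_le (X - Y) p
  rw [dist_eq_norm]
  simpa using this

theorem snd_sub_le {t0 : ℝ} (X Y : TS t0 →ᵇ ℝ × ℝ) (p : TS t0) : |(X p).2 - (Y p).2| ≤ dist X Y := by
  have := snd_le (X - Y) p
  rw [dist_eq_norm]
  simpa using this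

/-- The nonlinear solver. -/
theorem solveB {t0 S L A0 A1 : ℝ} {χ : ℝ → ℝ} (hχ : Cut L S χ) (ht0 : t0 ∈ Ioc 0 1) (hS : 1 ≤ S)
    (hA0 : 0 ≤ A0) (hA : A0 ≤ A1) {F F' : ℝ → ℝ → ℝ} (hF : Bg t0 S A0 A1 F F')
    (c1 : 112 * cE * t0 * S * A1 ≤ 1) (c2 : 26 * cE * √t0 * S * A0 ≤ 1) :
    ∃ n : ℝ → ℝ → ℝ, SrcC t0 (13 * S * A0 * A1) S n ∧ (∀ s y, n s (-y) = -n s y) ∧
      ∀ s ∈ Ioc 0 t0, ∀ y, 0 ≤ y → n s y = χ y * ((∫ z in (0:ℝ)..y, (F s z + Duh n s z)) *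
        (F' s y + DuhD n s y) - (F s y + Duh n s y) ^ 2) := by
  have hcE := cE_pos
  have ht0' := ht0.1
  have hκ : 0 < √t0 := sqrt_pos.2 ht0'
  have hsqq : √t0 * √t0 = t0 := mul_self_sqrt ht0'.le
  have hA1 : 0 ≤ A1 := hA0.trans hA
  have hS0 : 0 < S := by linarith
  set κ := √t0 with hκd
  set ρ := 26 * cE * t0 * S * A0 * A1 with hρd
  have hρ : 0 ≤ ρ := by positivity
  have hρ0 : ρ ≤ A0 := by
    have : 26 * cE * t0 * S * A1 ≤ 1 := by
      refine le_trans ?_ c1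
      have : 0 ≤ cE * t0 * S * A1 := by positivity
      linarith
    calc ρ = (26 * cE * t0 * S * A1) * A0 := by rw [hρd]; ring
      _ ≤ 1 * A0 := by gcongr
      _ = A0 := one_mul _
  have hρ1 : κ⁻¹ * ρ ≤ A1 := by
    rw [inv_mul_le_iff₀ hκ]
    calc ρ = κ * ((26 * cE * κ * S * A0) * A1) := by rw [hρd, ← hsqq]; ring
      _ ≤ κ * (1 * A1) := by gcongr
      _ = κ * A1 := by ring
  let f : (TS t0 →ᵇ ℝ × ℝ) → TS t0 → ℝ := fun X p => F p.1 p.2 + (X p).1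
  let f' : (TS t0 →ᵇ ℝ × ℝ) → TS t0 → ℝ := fun X p => F' p.1 p.2 + κ⁻¹ * (X p).2
  let G : (TS t0 →ᵇ ℝ × ℝ) → TS t0 → ℝ := fun X p => ∫ z in (0:ℝ)..p.2, f X (p.1, z)
  let e : (TS t0 →ᵇ ℝ × ℝ) → TS t0 → ℝ := fun X p => f X p - f X (p.1, 0)
  let m : (TS t0 →ᵇ ℝ × ℝ) → TS t0 → ℝ := fun X p => χ p.2 * (G X p * f' X p - (e X p) ^ 2)
  have cf : ∀ X, Continuous (f X) := fun X =>
    (cont_res hF.c0).add (continuous_fst.comp X.continuous)
  have cf' : ∀ X, Continuous (f' X) := fun X =>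
    (cont_res hF.c1).add ((continuous_snd.comp X.continuous).const_mul _)
  have cG : ∀ X, Continuous (G X) := fun X => cont_prim_TS (cf X)
  have ce : ∀ X, Continuous (e X) := fun X =>
    (cf X).sub ((cf X).comp (g := f X) (f := fun p : TS t0 => (p.1, (0:ℝ))) (by fun_prop))
  have hc := hχ.c
  have cm : ∀ X, Continuous (m X) := fun X =>
    (hc.comp continuous_snd).mul (((cG X).mul (cf' X)).sub ((ce X).pow 2))
  have bf : ∀ X, ‖X‖ ≤ ρ → ∀ p : TS t0, 0 ≤ p.2 → p.2 ≤ S → |f X p| ≤ 2 * A0 := by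
    intro X hX p h1 h2
    have e1 := hF.b0 p.1 p.1.2 p.2 h1 h2
    have e2 := (fst_le X p).trans hX
    have := abs_add_le (F p.1 p.2) (X p).1
    show |F p.1 p.2 + (X p).1| ≤ _
    linarith
  have bf' : ∀ X, ‖X‖ ≤ ρ → ∀ p : TS t0, 0 ≤ p.2 → p.2 ≤ S → |f' X p| ≤ 2 * A1 := by
    intro X hX p h1 h2
    have e1 := hF.b1 p.1 p.1.2 p.2 h1 h2
    have e2 := (snd_le X p).trans hX
    have := abs_add_le (F' p.1 p.2) (κ⁻¹ * (X p).2)
    show |F' p.1 p.2 + κ⁻¹ * (X p).2| ≤ _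
    have e3 : |κ⁻¹ * (X p).2| ≤ A1 := by
      rw [abs_mul, abs_of_pos (by positivity : 0 < κ⁻¹)]
      exact (by gcongr : κ⁻¹ * |(X p).2| ≤ κ⁻¹ * ρ).trans hρ1
    linarith
  have be : ∀ X, ‖X‖ ≤ ρ → ∀ p : TS t0, 0 ≤ p.2 → p.2 ≤ S → |e X p| ≤ 3 * A0 := by
    intro X hX p h1 h2
    have e1 := bf X hX p h1 h2
    have e2 : |f X (p.1, 0)| ≤ A0 := by
      show |F p.1 0 + (X (p.1, 0)).1| ≤ _
      rw [hF.z p.1 p.1.2, zero_add]
      exact ((fst_le X _).trans hX).trans hρ0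
    have := abs_sub (f X p) (f X (p.1, 0))
    show |f X p - f X (p.1, 0)| ≤ _
    linarith
  have bG : ∀ X, ‖X‖ ≤ ρ → ∀ p : TS t0, 0 ≤ p.2 → p.2 ≤ S → |G X p| ≤ S * (2 * A0) := by
    intro X hX p h1 h2
    exact abs_prim_le (fun z hz hzS => bf X hX (p.1, z) hz hzS) h1 h2
  have dG : ∀ X Y, ∀ p : TS t0, 0 ≤ p.2 → p.2 ≤ S →
      |G X p - G Y p| ≤ S * dist X Y := by
    intro X Y p h1 h2
    have e1 : G X p - G Y p = ∫ z in (0:ℝ)..p.2, ((X (p.1, z)).1 - (Y (p.1, z)).1) := by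
      show (∫ z in (0:ℝ)..p.2, f X (p.1, z)) - (∫ z in (0:ℝ)..p.2, f Y (p.1, z)) = _
      rw [← intervalIntegral.integral_sub]
      · congr 1; ext z
        show F p.1 z + _ - (F p.1 z + _) = _
        ring
      · exact ((cf X).comp (f := fun z : ℝ => (p.1, z)) (by fun_prop)).intervalIntegrable _ _
      · exact ((cf Y).comp (f := fun z : ℝ => (p.1, z)) (by fun_prop)).intervalIntegrable _ _
    rw [e1]
    exact abs_prim_le (fun z hz hzS => fst_sub_le X Y (p.1, z)) h1 h2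
  have hχ' : ∀ p : TS t0, |χ p.2| ≤ 1 := fun p => by
    rw [abs_of_nonneg (hχ.nn _)]; exact hχ.le _
  have hmb : ∀ X, ‖X‖ ≤ ρ → ∀ p : TS t0, 0 ≤ p.2 → |m X p| ≤ 13 * S * A0 * A1 := by
    intro X hX p h1
    rcases le_or_gt p.2 S with h2 | h2
    · have b1 := bG X hX p h1 h2
      have b2 := bf' X hX p h1 h2
      have b3 := be X hX p h1 h2
      show |χ p.2 * (G X p * f' X p - (e X p) ^ 2)| ≤ _
      rw [abs_mul]
      have b4 : |G X p * f' X p - e X p ^ 2| ≤ 13 * S * A0 * A1 := by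
        calc |G X p * f' X p - e X p ^ 2| ≤ |G X p * f' X p| + |e X p ^ 2| := abs_sub _ _
          _ = |G X p| * |f' X p| + |e X p| ^ 2 := by rw [abs_mul, abs_pow]
          _ ≤ (S * (2 * A0)) * (2 * A1) + (3 * A0) ^ 2 := by gcongr
          _ = 4 * S * A0 * A1 + 9 * (A0 * A0) := by ring
          _ ≤ 4 * S * A0 * A1 + 9 * (S * A0 * A1) := by
              have : A0 * A0 ≤ S * A0 * A1 := by
                calc A0 * A0 = 1 * A0 * A0 := by ring
                  _ ≤ S * A0 * A1 := by gcongr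
              linarith
          _ = 13 * S * A0 * A1 := by ring
      calc |χ p.2| * |G X p * f' X p - e X p ^ 2| ≤ 1 * (13 * S * A0 * A1) := by
            gcongr; exact hχ' p
        _ = _ := one_mul _
    · show |χ p.2 * (G X p * f' X p - (e X p) ^ 2)| ≤ _
      rw [hχ.s _ h2.le, zero_mul, abs_zero]
      positivity
  set Λ := 14 * S * A1 + 2 * S * A0 * κ⁻¹ with hΛd
  have hΛ : 0 ≤ Λ := by positivity
  have hmL : ∀ X Y, ‖X‖ ≤ ρ → ‖Y‖ ≤ ρ → ∀ p : TS t0, 0 ≤ p.2 →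
      |m X p - m Y p| ≤ Λ * dist X Y := by
    intro X Y hX hY p h1
    have hd : 0 ≤ dist X Y := dist_nonneg
    rcases le_or_gt p.2 S with h2 | h2
    · have b1 := bG Y hY p h1 h2
      have b2 := bf' X hX p h1 h2
      have b3 := be X hX p h1 h2
      have b3' := be Y hY p h1 h2
      have b4 := dG X Y p h1 h2
      have b5 : |f' X p - f' Y p| ≤ κ⁻¹ * dist X Y := by
        have e1 : f' X p - f' Y p = κ⁻¹ * ((X p).2 - (Y p).2) := by
          show F' p.1 p.2 + _ - (F' p.1 p.2 + _) = _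
          ring
        rw [e1, abs_mul, abs_of_pos (by positivity : 0 < κ⁻¹)]
        gcongr
        exact snd_sub_le X Y p
      have b6 : |e X p - e Y p| ≤ 2 * dist X Y := by
        have e1 : e X p - e Y p = ((X p).1 - (Y p).1) - ((X (p.1, 0)).1 - (Y (p.1, 0)).1) := by
          show F p.1 p.2 + _ - (F p.1 0 + _) - (F p.1 p.2 + _ - (F p.1 0 + _)) = _
          ring
        rw [e1]
        have := abs_sub ((X p).1 - (Y p).1) ((X (p.1, 0)).1 - (Y (p.1, 0)).1)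
        have := fst_sub_le X Y p
        have := fst_sub_le X Y (p.1, 0)
        linarith
      have b7 : |e X p + e Y p| ≤ 6 * A0 := by
        have := abs_add_le (e X p) (e Y p)
        linarith
      have e0 : m X p - m Y p = χ p.2 * ((G X p - G Y p) * f' X p + G Y p * (f' X p - f' Y p) -
          (e X p - e Y p) * (e X p + e Y p)) := by
        show χ p.2 * (G X p * f' X p - (e X p) ^ 2) - χ p.2 * (G Y p * f' Y p - (e Y p) ^ 2) = _
        ring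
      rw [e0, abs_mul]
      have b8 : |(G X p - G Y p) * f' X p + G Y p * (f' X p - f' Y p) -
          (e X p - e Y p) * (e X p + e Y p)| ≤ Λ * dist X Y := by
        calc _ ≤ |(G X p - G Y p) * f' X p + G Y p * (f' X p - f' Y p)| +
              |(e X p - e Y p) * (e X p + e Y p)| := abs_sub _ _
          _ ≤ |(G X p - G Y p) * f' X p| + |G Y p * (f' X p - f' Y p)| +
              |(e X p - e Y p) * (e X p + e Y p)| := by gcongr; exact abs_add_le _ _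
          _ = |G X p - G Y p| * |f' X p| + |G Y p| * |f' X p - f' Y p| +
              |e X p - e Y p| * |e X p + e Y p| := by rw [abs_mul, abs_mul, abs_mul]
          _ ≤ (S * dist X Y) * (2 * A1) + (S * (2 * A0)) * (κ⁻¹ * dist X Y) +
              (2 * dist X Y) * (6 * A0) := by gcongr
          _ = (2 * S * A1 + 12 * A0 + 2 * S * A0 * κ⁻¹) * dist X Y := by ring
          _ ≤ Λ * dist X Y := by
              gcongr
              rw [hΛd]
              have : A0 ≤ S * A1 := by nlinarith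
              linarith
      calc |χ p.2| * _ ≤ 1 * (Λ * dist X Y) := by gcongr; exact hχ' p
        _ = _ := one_mul _
    · have e0 : m X p - m Y p = 0 := by
        show χ p.2 * (G X p * f' X p - (e X p) ^ 2) - χ p.2 * (G Y p * f' Y p - (e Y p) ^ 2) = _
        rw [hχ.s _ h2.le]; ring
      rw [e0, abs_zero]
      positivity
  obtain ⟨X, hX, hsrc, hX1, hX2⟩ := absB (S := S) (κ := κ) (ρ := ρ) (A := 13 * S * A0 * A1) (Λ := Λ)
    ht0 le_rfl hκ m cm hρ hmb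
    (fun X _ p hp => by
      show χ p.2 * (G X p * f' X p - (e X p) ^ 2) = 0
      rw [hχ.s _ hp, zero_mul]) hS0
    (fun X _ p hp => by
      show χ p.2 * (G X p * f' X p - (e X p) ^ 2) = 0
      have h1 : G X p = 0 := by
        show (∫ z in (0:ℝ)..p.2, f X (p.1, z)) = 0
        rw [hp]; simp
      have h2 : e X p = 0 := by
        show f X p - f X (p.1, 0) = 0
        rw [show p = (p.1, 0) from Prod.ext rfl hp]; simp
      rw [h1, h2]; ring)
    hmL (by rw [hρd]; apply le_of_eq; ring) (by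
      rw [hΛd]
      have e1 : 2 * t0 * cE * (14 * S * A1 + 2 * S * A0 * κ⁻¹) =
          (112 * cE * t0 * S * A1) / 4 + (26 * cE * κ * S * A0) * (4 / 26) := by
        have : t0 * κ⁻¹ = κ := by
          rw [← hsqq]; field_simp
        calc _ = 28 * cE * t0 * S * A1 + 4 * cE * S * A0 * (t0 * κ⁻¹) := by ring
          _ = _ := by rw [this]; ring
      rw [e1]
      linarith) hΛ
  refine ⟨oddE (ex (m X)), hsrc, fun s y => oddE_neg _ _ _, fun s hs y hy => ?_⟩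
  set n := oddE (ex (m X)) with hn
  have hn_odd : ∀ s y, n s (-y) = -n s y := fun s y => oddE_neg _ _ _
  have hex : ∀ y, ex X s y = X (⟨s, hs⟩, y) := fun y => ex_of_mem _ hs y
  have h1 : ∀ y, (X (⟨s, hs⟩, y)).1 = Duh n s y := fun y => by rw [← hex, hX1 s hs y]
  have h2 : ∀ y, κ⁻¹ * (X (⟨s, hs⟩, y)).2 = DuhD n s y := fun y => by
    rw [← hex, hX2 s hs y, inv_mul_cancel_left₀ hκ.ne']
  have h3 : Duh n s 0 = 0 := by
    have := Duh_odd hn_odd s 0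
    rw [neg_zero] at this
    linarith
  have h4 : ex (m X) s 0 = 0 := by
    rw [ex_of_mem _ hs]
    show χ 0 * (G X (⟨s, hs⟩, 0) * f' X (⟨s, hs⟩, 0) - (e X (⟨s, hs⟩, 0)) ^ 2) = 0
    have h1 : G X (⟨s, hs⟩, 0) = 0 := by
      show (∫ z in (0:ℝ)..0, f X (_, z)) = 0
      simp
    have h2 : e X (⟨s, hs⟩, 0) = 0 := by
      show f X (⟨s, hs⟩, 0) - f X (⟨s, hs⟩, 0) = 0
      ring
    rw [h1, h2]; ring
  rw [hn, oddE_of_nonneg hy h4, ex_of_mem _ hs, ← hn]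
  show χ y * ((∫ z in (0:ℝ)..y, f X (⟨s, hs⟩, z)) * f' X (⟨s, hs⟩, y) -
    (f X (⟨s, hs⟩, y) - f X (⟨s, hs⟩, 0)) ^ 2) = _
  have e1 : ∀ z, f X (⟨s, hs⟩, z) = F s z + Duh n s z := fun z => by
    show F s z + (X (⟨s, hs⟩, z)).1 = _
    rw [h1]
  have e2 : f' X (⟨s, hs⟩, y) = F' s y + DuhD n s y := by
    show F' s y + κ⁻¹ * (X (⟨s, hs⟩, y)).2 = _
    rw [h2]
  rw [e2]
  simp only [e1]
  rw [hF.z s hs, h3]
  ring

/-- The linear solver, with a source. -/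
theorem solveH {t0 S L A0 A1 g0 B0 : ℝ} {χ : ℝ → ℝ} (hχ : Cut L S χ) (ht0 : t0 ∈ Ioc 0 1)
    (hS : 1 ≤ S) {F F' : ℝ → ℝ → ℝ} (hF : Bg t0 S A0 A1 F F')
    {g σ : ℝ → ℝ → ℝ} (cg : ContinuousOn (uncurry g) (Ioc 0 t0 ×ˢ univ))
    (hg : ∀ s ∈ Ioc 0 t0, ∀ y, 0 ≤ y → y ≤ S → |g s y| ≤ g0) (hgz : ∀ s ∈ Ioc 0 t0, g s 0 = 0)
    (cσ : ContinuousOn (uncurry σ) (Ioc 0 t0 ×ˢ univ))
    (hσ : ∀ s ∈ Ioc 0 t0, ∀ y, 0 ≤ y → y ≤ S → |σ s y| ≤ B0) (hσz : ∀ s ∈ Ioc 0 t0, σ s 0 = 0)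
    (c1 : 8 * cE * S * g0 * √t0 ≤ 1) :
    ∃ (n : ℝ → ℝ → ℝ) (B : ℝ), SrcC t0 B S n ∧ (∀ s y, n s (-y) = -n s y) ∧
      ∀ s ∈ Ioc 0 t0, ∀ y, 0 ≤ y → n s y = χ y * ((∫ z in (0:ℝ)..y, g s z) *
        (F' s y + DuhD n s y) - g s y * (F s y + Duh n s y) + σ s y) := by
  have hcE := cE_pos
  have ht0' := ht0.1
  have hκ : 0 < √t0 := sqrt_pos.2 ht0'
  have hsqq : √t0 * √t0 = t0 := mul_self_sqrt ht0'.le
  have hκ1 : √t0 ≤ 1 := by rw [sqrt_le_one]; exact ht0.2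
  have hS0 : 0 < S := by linarith
  have hm0 : t0 ∈ Ioc 0 t0 := ⟨ht0', le_rfl⟩
  have hg0 : 0 ≤ g0 := (abs_nonneg _).trans (hg t0 hm0 0 le_rfl hS0.le)
  have hB0 : 0 ≤ B0 := (abs_nonneg _).trans (hσ t0 hm0 0 le_rfl hS0.le)
  have hA0 : 0 ≤ A0 := (abs_nonneg _).trans (hF.b0 t0 hm0 0 le_rfl hS0.le)
  have hA1 : 0 ≤ A1 := (abs_nonneg _).trans (hF.b1 t0 hm0 0 le_rfl hS0.le)
  set κ := √t0 with hκd
  set Λ := S * g0 * κ⁻¹ + g0 with hΛd
  have hΛ : 0 ≤ Λ := by positivity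
  have h2Λ : 2 * t0 * cE * Λ ≤ 1/2 := by
    have e1 : 2 * t0 * cE * Λ = 2 * cE * (S * g0 * κ + g0 * t0) := by
      rw [hΛd]
      have : t0 * κ⁻¹ = κ := by rw [← hsqq]; field_simp
      calc _ = 2 * cE * (S * g0 * (t0 * κ⁻¹) + g0 * t0) := by ring
        _ = _ := by rw [this]
    have e2 : g0 * t0 ≤ S * g0 * κ := by
      calc g0 * t0 = 1 * g0 * (κ * κ) := by rw [hsqq]; ring
        _ ≤ S * g0 * (κ * 1) := by gcongr
        _ = _ := by ring
    have e3 : 0 ≤ cE * (S * g0 * κ) := by positivity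
    rw [e1]
    nlinarith
  set ρ := 4 * t0 * cE * (S * g0 * A1 + g0 * A0 + B0) with hρd
  have hρ : 0 ≤ ρ := by positivity
  let f : (TS t0 →ᵇ ℝ × ℝ) → TS t0 → ℝ := fun X p => F p.1 p.2 + (X p).1
  let f' : (TS t0 →ᵇ ℝ × ℝ) → TS t0 → ℝ := fun X p => F' p.1 p.2 + κ⁻¹ * (X p).2
  let G : TS t0 → ℝ := fun p => ∫ z in (0:ℝ)..p.2, g p.1 z
  let m : (TS t0 →ᵇ ℝ × ℝ) → TS t0 → ℝ := fun X p =>
    χ p.2 * (G p * f' X p - g p.1 p.2 * f X p + σ p.1 p.2)
  have cf : ∀ X, Continuous (f X) := fun X =>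
    (cont_res hF.c0).add (continuous_fst.comp X.continuous)
  have cf' : ∀ X, Continuous (f' X) := fun X =>
    (cont_res hF.c1).add ((continuous_snd.comp X.continuous).const_mul _)
  have cg' := cont_res cg
  have cσ' := cont_res cσ
  have cG : Continuous G := cont_prim_TS (Φ := fun p : TS t0 => g p.1 p.2) cg'
  have hc := hχ.c
  have cm : ∀ X, Continuous (m X) := fun X =>
    (hc.comp continuous_snd).mul (((cG.mul (cf' X)).sub (cg'.mul (cf X))).add cσ')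
  have bG : ∀ p : TS t0, 0 ≤ p.2 → p.2 ≤ S → |G p| ≤ S * g0 := by
    intro p h1 h2
    exact abs_prim_le (fun z hz hzS => hg p.1 p.1.2 z hz hzS) h1 h2
  have hχ' : ∀ p : TS t0, |χ p.2| ≤ 1 := fun p => by
    rw [abs_of_nonneg (hχ.nn _)]; exact hχ.le _
  set A := S * g0 * (A1 + κ⁻¹ * ρ) + g0 * (A0 + ρ) + B0 with hAd
  have hAnn : 0 ≤ A := by positivity
  have hmb : ∀ X, ‖X‖ ≤ ρ → ∀ p : TS t0, 0 ≤ p.2 → |m X p| ≤ A := by
    intro X hX p h1
    rcases le_or_gt p.2 S with h2 | h2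
    · have b1 := bG p h1 h2
      have b2 : |f' X p| ≤ A1 + κ⁻¹ * ρ := by
        have e1 := hF.b1 p.1 p.1.2 p.2 h1 h2
        have e2 := (snd_le X p).trans hX
        show |F' p.1 p.2 + κ⁻¹ * (X p).2| ≤ _
        refine (abs_add_le _ _).trans ?_
        rw [abs_mul, abs_of_pos (by positivity : 0 < κ⁻¹)]
        gcongr
      have b3 : |f X p| ≤ A0 + ρ := by
        have e1 := hF.b0 p.1 p.1.2 p.2 h1 h2
        have e2 := (fst_le X p).trans hX
        show |F p.1 p.2 + (X p).1| ≤ _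
        refine (abs_add_le _ _).trans ?_
        gcongr
      have b4 := hg p.1 p.1.2 p.2 h1 h2
      have b5 := hσ p.1 p.1.2 p.2 h1 h2
      show |χ p.2 * (G p * f' X p - g p.1 p.2 * f X p + σ p.1 p.2)| ≤ _
      rw [abs_mul]
      calc |χ p.2| * |G p * f' X p - g p.1 p.2 * f X p + σ p.1 p.2|
          ≤ 1 * (|G p * f' X p| + |g p.1 p.2 * f X p| + |σ p.1 p.2|) := by
            gcongr
            · exact hχ' p
            · refine (abs_add_le _ _).trans ?_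
              gcongr
              exact abs_sub _ _
        _ = |G p| * |f' X p| + |g p.1 p.2| * |f X p| + |σ p.1 p.2| := by
            rw [one_mul, abs_mul, abs_mul]
        _ ≤ S * g0 * (A1 + κ⁻¹ * ρ) + g0 * (A0 + ρ) + B0 := by gcongr
    · show |χ p.2 * (G p * f' X p - g p.1 p.2 * f X p + σ p.1 p.2)| ≤ _
      rw [hχ.s _ h2.le, zero_mul, abs_zero]
      exact hAnn
  have hmL : ∀ X Y, ‖X‖ ≤ ρ → ‖Y‖ ≤ ρ → ∀ p : TS t0, 0 ≤ p.2 →
      |m X p - m Y p| ≤ Λ * dist X Y := by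
    intro X Y hX hY p h1
    have hd : 0 ≤ dist X Y := dist_nonneg
    rcases le_or_gt p.2 S with h2 | h2
    · have b1 := bG p h1 h2
      have b4 := hg p.1 p.1.2 p.2 h1 h2
      have b5 : |f' X p - f' Y p| ≤ κ⁻¹ * dist X Y := by
        have e1 : f' X p - f' Y p = κ⁻¹ * ((X p).2 - (Y p).2) := by
          show F' p.1 p.2 + _ - (F' p.1 p.2 + _) = _
          ring
        rw [e1, abs_mul, abs_of_pos (by positivity : 0 < κ⁻¹)]
        gcongr
        exact snd_sub_le X Y p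
      have b6 : |f X p - f Y p| ≤ dist X Y := by
        have e1 : f X p - f Y p = ((X p).1 - (Y p).1) := by
          show F p.1 p.2 + _ - (F p.1 p.2 + _) = _
          ring
        rw [e1]
        exact fst_sub_le X Y p
      have e0 : m X p - m Y p = χ p.2 * (G p * (f' X p - f' Y p) - g p.1 p.2 * (f X p - f Y p)) := by
        show χ p.2 * (G p * f' X p - g p.1 p.2 * f X p + σ p.1 p.2) -
          χ p.2 * (G p * f' Y p - g p.1 p.2 * f Y p + σ p.1 p.2) = _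
        ring
      rw [e0, abs_mul]
      calc |χ p.2| * |G p * (f' X p - f' Y p) - g p.1 p.2 * (f X p - f Y p)|
          ≤ 1 * (|G p * (f' X p - f' Y p)| + |g p.1 p.2 * (f X p - f Y p)|) := by
            gcongr
            · exact hχ' p
            · exact abs_sub _ _
        _ = |G p| * |f' X p - f' Y p| + |g p.1 p.2| * |f X p - f Y p| := by
            rw [one_mul, abs_mul, abs_mul]
        _ ≤ (S * g0) * (κ⁻¹ * dist X Y) + g0 * dist X Y := by gcongr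
        _ = Λ * dist X Y := by rw [hΛd]; ring
    · have e0 : m X p - m Y p = 0 := by
        show χ p.2 * (G p * f' X p - g p.1 p.2 * f X p + σ p.1 p.2) -
          χ p.2 * (G p * f' Y p - g p.1 p.2 * f Y p + σ p.1 p.2) = _
        rw [hχ.s _ h2.le]; ring
      rw [e0, abs_zero]
      positivity
  have hz : ∀ X : TS t0 →ᵇ ℝ × ℝ, ∀ p : TS t0, p.2 = 0 → m X p = 0 := fun X p hp => by
    show χ p.2 * (G p * f' X p - g p.1 p.2 * f X p + σ p.1 p.2) = 0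
    have h1 : G p = 0 := by
      show (∫ z in (0:ℝ)..p.2, g p.1 z) = 0
      rw [hp]; simp
    rw [h1, hp, hgz p.1 p.1.2, hσz p.1 p.1.2]; ring
  obtain ⟨X, hX, hsrc, hX1, hX2⟩ := absB (S := S) (κ := κ) (ρ := ρ) (A := A) (Λ := Λ)
    ht0 le_rfl hκ m cm hρ hmb
    (fun X _ p hp => by
      show χ p.2 * (G p * f' X p - g p.1 p.2 * f X p + σ p.1 p.2) = 0
      rw [hχ.s _ hp, zero_mul]) hS0
    (fun X _ p hp => hz X p hp)
    hmL (by
      have e1 : 2 * t0 * cE * A = ρ / 2 + (2 * t0 * cE * Λ) * ρ := by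
        rw [hAd, hΛd]
        have : ρ / 2 = 2 * t0 * cE * (S * g0 * A1 + g0 * A0 + B0) := by rw [hρd]; ring
        rw [this]; ring
      rw [e1]
      have : (2 * t0 * cE * Λ) * ρ ≤ (1/2) * ρ := by gcongr
      linarith) h2Λ hΛ
  refine ⟨oddE (ex (m X)), A, hsrc, fun s y => oddE_neg _ _ _, fun s hs y hy => ?_⟩
  set n := oddE (ex (m X)) with hn
  have hex : ∀ y, ex X s y = X (⟨s, hs⟩, y) := fun y => ex_of_mem _ hs y
  have h1 : ∀ y, (X (⟨s, hs⟩, y)).1 = Duh n s y := fun y => by rw [← hex, hX1 s hs y]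
  have h2 : ∀ y, κ⁻¹ * (X (⟨s, hs⟩, y)).2 = DuhD n s y := fun y => by
    rw [← hex, hX2 s hs y, inv_mul_cancel_left₀ hκ.ne']
  have h4 : ex (m X) s 0 = 0 := by
    rw [ex_of_mem _ hs]
    exact hz X _ rfl
  rw [hn, oddE_of_nonneg hy h4, ex_of_mem _ hs, ← hn]
  show χ y * ((∫ z in (0:ℝ)..y, g s z) * f' X (⟨s, hs⟩, y) -
    g s y * f X (⟨s, hs⟩, y) + σ s y) = _
  have e1 : ∀ z, f X (⟨s, hs⟩, z) = F s z + Duh n s z := fun z => by
    show F s z + (X (⟨s, hs⟩, z)).1 = _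
    rw [h1]
  have e2 : f' X (⟨s, hs⟩, y) = F' s y + DuhD n s y := by
    show F' s y + κ⁻¹ * (X (⟨s, hs⟩, y)).2 = _
    rw [h2]
  rw [e2, e1]

end Pool.Agent.Lib.MP_79abb3_an
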