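import Pool.Agent.Lib.MP_79abb3_an.Sol
import Pool.Agent.Lib.MP_79abb3_an.SolveB

/-!
Pieces of trajectories and their concatenation.
-/

set_option autoImplicit false
set_option linter.unusedSectionVars false
set_option linter.unusedVariables false

open MeasureTheory Set Filter Topology Real Function

namespace Pool.Agent.Lib.MP_79abb3_an

/-- The linear equation `f_t = f_yy + (∫ g) f_y - g f + P` on `[a,b] × [0,L]`. -/
structure TrL (a b L C : ℝ) (J : Set ℝ) (g f v : ℝ → ℝ → ℝ) (P : ℝ → ℝ) : Prop where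
  count : J.Countable
  cf : ContinuousOn (uncurry f) (Icc a b ×ˢ Icc 0 L)
  cv : ContinuousOn (uncurry v) ((Icc a b \ J) ×ˢ Icc 0 L)
  cP : ContinuousOn P (Icc a b \ J)
  bd : ∀ t ∈ Icc a b \ J, |P t| ≤ C ∧ ∀ y ∈ Icc 0 L, |v t y| ≤ C
  df : ∀ t ∈ Icc a b \ J, ∀ y ∈ Icc 0 L, HasDerivWithinAt (f t) (v t y) (Icc 0 L) y
  z : ∀ t ∈ Icc a b, f t 0 = 0
  tf : ∀ t ∈ Ioo a b \ J, ∀ y ∈ Icc 0 L, HasDerivAt (fun s => ∫ z in (0:ℝ)..y, f s z)
    (v t y - v t 0 + (∫ z in (0:ℝ)..y, ((∫ x in (0:ℝ)..z, g t x) * v t z - g t z * f t z)) +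
      P t * y) t

section
variable {a b c L C : ℝ} {J J' : Set ℝ} {g g' f f' v v' : ℝ → ℝ → ℝ} {P P' : ℝ → ℝ}

theorem TrL.mono (h : TrL a b L C J g f v P) {C' : ℝ} (hC : C ≤ C') (hJ : J ⊆ J')
    (hJ' : J'.Countable) : TrL a b L C' J' g f v P := by
  have e1 : Icc a b \ J' ⊆ Icc a b \ J := sdiff_subset_sdiff_right hJ
  refine ⟨hJ', h.cf, h.cv.mono (by gcongr), h.cP.mono e1, fun t ht => ?_, fun t ht =>
    h.df t (e1 ht), h.z, fun t ht => h.tf t ⟨ht.1, fun h' => ht.2 (hJ h')⟩⟩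
  obtain ⟨h1, h2⟩ := h.bd t (e1 ht)
  exact ⟨h1.trans hC, fun y hy => (h2 y hy).trans hC⟩

/-- Restriction to a subinterval. -/
theorem TrL.sub (h : TrL a b L C J g f v P) {a' b' : ℝ} (ha : a ≤ a') (hb : b' ≤ b) :
    TrL a' b' L C J g f v P := by
  have e1 : Icc a' b' ⊆ Icc a b := Icc_subset_Icc ha hb
  have e2 : Icc a' b' \ J ⊆ Icc a b \ J := sdiff_subset_sdiff_left e1
  have e3 : Ioo a' b' \ J ⊆ Ioo a b \ J := sdiff_subset_sdiff_left (Ioo_subset_Ioo ha hb)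
  exact ⟨h.count, h.cf.mono (by gcongr), h.cv.mono (by gcongr), h.cP.mono e2,
    fun t ht => h.bd t (e2 ht), fun t ht => h.df t (e2 ht), fun t ht => h.z t (e1 ht),
    fun t ht => h.tf t (e3 ht)⟩

/-- Restriction in space. -/
theorem TrL.subL (h : TrL a b L C J g f v P) {L' : ℝ} (hL : L' ≤ L) :
    TrL a b L' C J g f v P := by
  have e : Icc 0 L' ⊆ Icc 0 L := Icc_subset_Icc_right hL
  exact ⟨h.count, h.cf.mono (by gcongr), h.cv.mono (by gcongr), h.cP,
    fun t ht => ⟨(h.bd t ht).1, fun y hy => (h.bd t ht).2 y (e hy)⟩,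
    fun t ht y hy => (h.df t ht y (e hy)).mono e, h.z, fun t ht y hy => h.tf t ht y (e hy)⟩

/-- Congruence. -/
theorem TrL.congr (h : TrL a b L C J g f v P) (hg : ∀ t ∈ Ioo a b \ J, ∀ y ∈ Icc 0 L, g t y = g' t y)
    (hf : ∀ t ∈ Icc a b, ∀ y ∈ Icc 0 L, f t y = f' t y)
    (hv : ∀ t ∈ Icc a b \ J, ∀ y ∈ Icc 0 L, v t y = v' t y) (hL : 0 ≤ L)
    (hP : ∀ t ∈ Icc a b \ J, P t = P' t) : TrL a b L C J g' f' v' P' := by
  have h0 : (0:ℝ) ∈ Icc 0 L := ⟨le_rfl, hL⟩
  refine ⟨h.count, h.cf.congr fun p hp => (hf _ hp.1 _ hp.2).symm,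
    h.cv.congr fun p hp => (hv _ hp.1 _ hp.2).symm, h.cP.congr fun t ht => (hP t ht).symm,
    fun t ht => ?_, fun t ht y hy => ?_, fun t ht => ?_, fun t ht y hy => ?_⟩
  · rw [← hP t ht]
    refine ⟨(h.bd t ht).1, fun y hy => ?_⟩
    rw [← hv t ht y hy]
    exact (h.bd t ht).2 y hy
  · rw [← hv t ht y hy]
    exact (h.df t ht y hy).congr (fun z hz => (hf t ht.1 z hz).symm) (hf t ht.1 y hy).symm
  · rw [← hf t ht 0 h0]; exact h.z t ht
  · have htI : t ∈ Icc a b \ J := ⟨⟨ht.1.1.le, ht.1.2.le⟩, ht.2⟩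
    have e1 := h.tf t ht y hy
    have e2 : ∀ s ∈ Icc a b, (∫ z in (0:ℝ)..y, f s z) = ∫ z in (0:ℝ)..y, f' s z := by
      intro s hs
      refine intervalIntegral.integral_congr fun z hz => ?_
      rw [uIcc_of_le hy.1] at hz
      exact hf s hs z ⟨hz.1, hz.2.trans hy.2⟩
    have e3 : (∫ z in (0:ℝ)..y, ((∫ x in (0:ℝ)..z, g t x) * v t z - g t z * f t z)) =
        ∫ z in (0:ℝ)..y, ((∫ x in (0:ℝ)..z, g' t x) * v' t z - g' t z * f' t z) := by
      refine intervalIntegral.integral_congr fun z hz => ?_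
      rw [uIcc_of_le hy.1] at hz
      have hz' : z ∈ Icc 0 L := ⟨hz.1, hz.2.trans hy.2⟩
      have e4 : (∫ x in (0:ℝ)..z, g t x) = ∫ x in (0:ℝ)..z, g' t x := by
        refine intervalIntegral.integral_congr fun x hx => ?_
        rw [uIcc_of_le hz.1] at hx
        exact hg t ht x ⟨hx.1, hx.2.trans hz'.2⟩
      rw [e4, hg t ht z hz', hf t htI.1 z hz', hv t htI z hz']
    rw [hv t htI y hy, hv t htI 0 h0, e3, hP t htI] at e1
    refine e1.congr_of_eventuallyEq ?_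
    filter_upwards [Ioo_mem_nhds ht.1.1 ht.1.2] with s hs
    exact (e2 s ⟨hs.1.le, hs.2.le⟩).symm

/-- Time translation. -/
theorem TrL.shift (h : TrL a b L C J g f v P) (d : ℝ) :
    TrL (a + d) (b + d) L C ((fun t => t - d) ⁻¹' J) (fun t => g (t - d)) (fun t => f (t - d))
      (fun t => v (t - d)) (fun t => P (t - d)) := by
  have m1 : ∀ t, t ∈ Icc (a + d) (b + d) → t - d ∈ Icc a b := fun t ht =>
    ⟨by linarith [ht.1], by linarith [ht.2]⟩
  have m2 : ∀ t, t ∈ Icc (a + d) (b + d) \ ((fun t => t - d) ⁻¹' J) → t - d ∈ Icc a b \ J :=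
    fun t ht => ⟨m1 t ht.1, ht.2⟩
  refine ⟨?_, ?_, ?_, ?_, fun t ht => h.bd _ (m2 t ht), fun t ht => h.df _ (m2 t ht),
    fun t ht => h.z _ (m1 t ht), fun t ht y hy => ?_⟩
  · exact h.count.preimage_of_injOn (fun x _ y _ hxy => by simpa using hxy)
  · exact h.cf.comp (f := fun p : ℝ × ℝ => (p.1 - d, p.2)) (by fun_prop)
      fun p hp => ⟨m1 _ hp.1, hp.2⟩
  · exact h.cv.comp (f := fun p : ℝ × ℝ => (p.1 - d, p.2)) (by fun_prop)
      fun p hp => ⟨m2 _ hp.1, hp.2⟩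
  · exact h.cP.comp (f := fun t : ℝ => t - d) (by fun_prop) fun t ht => m2 t ht
  · have h1 := h.tf (t - d) ⟨⟨by linarith [ht.1.1], by linarith [ht.1.2]⟩, ht.2⟩ y hy
    have := h1.comp t ((hasDerivAt_id t).sub_const d)
    exact this.congr_deriv (by rw [mul_one])

theorem contOn_ite {X : Type*} [TopologicalSpace X] {F G : X → ℝ} {A : Set X} {T : X → ℝ}
    (hT : Continuous T) {b : ℝ} (h1 : ContinuousOn F (A ∩ {x | T x ≤ b}))
    (h2 : ContinuousOn G (A ∩ {x | b ≤ T x})) (h : ∀ x ∈ A, T x = b → F x = G x) :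
    ContinuousOn (fun x => if T x ≤ b then F x else G x) A := by
  have hc1 : IsClosed {x | T x ≤ b} := isClosed_le hT continuous_const
  have hc2 : IsClosed {x | b ≤ T x} := isClosed_le continuous_const hT
  have hA : A = (A ∩ {x | T x ≤ b}) ∪ (A ∩ {x | b ≤ T x}) := by
    ext x
    simp only [mem_union, mem_inter_iff, mem_ofPred_eq]
    constructor
    · intro hx
      rcases le_total (T x) b with h | h
      · exact Or.inl ⟨hx, h⟩
      · exact Or.inr ⟨hx, h⟩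
    · rintro (h | h)
      · exact h.1
      · exact h.1
  intro x hx
  have k1 : ContinuousOn (fun x => if T x ≤ b then F x else G x) (A ∩ {x | T x ≤ b}) :=
    h1.congr fun y hy => if_pos hy.2
  have k2 : ContinuousOn (fun x => if T x ≤ b then F x else G x) (A ∩ {x | b ≤ T x}) := by
    refine h2.congr fun y hy => ?_
    rcases eq_or_lt_of_le (show b ≤ T y from hy.2) with h' | h'
    · rw [if_pos h'.symm.le, h y hy.1 h'.symm]
    · exact if_neg (not_le.2 h')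
  rw [hA]
  refine ContinuousWithinAt.union ?_ ?_
  · by_cases hx' : T x ≤ b
    · exact k1 x ⟨hx, hx'⟩
    · refine continuousWithinAt_of_notMem_closure fun hcl => hx' ?_
      exact (hc1.closure_subset_iff.2 inter_subset_right) hcl
  · by_cases hx' : b ≤ T x
    · exact k2 x ⟨hx, hx'⟩
    · refine continuousWithinAt_of_notMem_closure fun hcl => hx' ?_
      exact (hc2.closure_subset_iff.2 inter_subset_right) hcl

/-- Concatenation. -/
theorem TrL.glue (h : TrL a b L C J g f v P) (h' : TrL b c L C J' g' f' v' P') (hL : 0 ≤ L)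
    (hab : a ≤ b) (hbc : b ≤ c) (hb : ∀ y ∈ Icc 0 L, f b y = f' b y) :
    TrL a c L C (J ∪ J' ∪ {b}) (fun t => if t ≤ b then g t else g' t)
      (fun t => if t ≤ b then f t else f' t) (fun t => if t ≤ b then v t else v' t)
      (fun t => if t ≤ b then P t else P' t) := by
  have n1 : ∀ {t}, t ∈ Icc a c \ (J ∪ J' ∪ {b}) → t ≤ b → t ∈ Icc a b \ J := fun ht htb =>
    ⟨⟨ht.1.1, htb⟩, fun hJ => ht.2 (Or.inl (Or.inl hJ))⟩
  have n2 : ∀ {t}, t ∈ Icc a c \ (J ∪ J' ∪ {b}) → b ≤ t → t ∈ Icc b c \ J' := fun ht htb =>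
    ⟨⟨htb, ht.1.2⟩, fun hJ => ht.2 (Or.inl (Or.inr hJ))⟩
  have n3 : ∀ {t}, t ∈ Icc a c \ (J ∪ J' ∪ {b}) → t ≠ b := fun ht h => ht.2 (Or.inr h)
  refine ⟨(h.count.union h'.count).union (countable_singleton b), ?_, ?_, ?_, ?_, ?_, ?_, ?_⟩
  · have := contOn_ite (F := uncurry f) (G := uncurry f') (A := Icc a c ×ˢ Icc 0 L)
      (T := Prod.fst) (b := b) continuous_fst
      (h.cf.mono fun p hp => ⟨⟨hp.1.1.1, hp.2⟩, hp.1.2⟩)
      (h'.cf.mono fun p hp => ⟨⟨hp.2, hp.1.1.2⟩, hp.1.2⟩)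
      (fun p hp hpb => by
        show f p.1 p.2 = f' p.1 p.2
        rw [hpb]; exact hb _ hp.2)
    refine this.congr fun p _ => ?_
    simp only [uncurry]
    split_ifs <;> rfl
  · have := contOn_ite (F := uncurry v) (G := uncurry v')
      (A := (Icc a c \ (J ∪ J' ∪ {b})) ×ˢ Icc 0 L)
      (T := Prod.fst) (b := b) continuous_fst
      (h.cv.mono fun p hp => ⟨n1 hp.1.1 hp.2, hp.1.2⟩)
      (h'.cv.mono fun p hp => ⟨n2 hp.1.1 hp.2, hp.1.2⟩)
      (fun p hp hpb => absurd hpb (n3 hp.1))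
    refine this.congr fun p _ => ?_
    simp only [uncurry]
    split_ifs <;> rfl
  · exact contOn_ite (F := P) (G := P') (A := (Icc a c \ (J ∪ J' ∪ {b}))) (T := id) (b := b)
      continuous_id (h.cP.mono fun p hp => n1 hp.1 hp.2) (h'.cP.mono fun p hp => n2 hp.1 hp.2)
      (fun p hp hpb => absurd hpb (n3 hp))
  · intro t ht
    by_cases htb : t ≤ b
    · simp only [htb, if_true]; exact h.bd t (n1 ht htb)
    · simp only [htb, if_false]; exact h'.bd t (n2 ht (not_le.1 htb).le)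
  · intro t ht
    by_cases htb : t ≤ b
    · simp only [htb, if_true]; exact h.df t (n1 ht htb)
    · simp only [htb, if_false]; exact h'.df t (n2 ht (not_le.1 htb).le)
  · intro t ht
    by_cases htb : t ≤ b
    · simp only [htb, if_true]; exact h.z t ⟨ht.1, htb⟩
    · simp only [htb, if_false]; exact h'.z t ⟨(not_le.1 htb).le, ht.2⟩
  · intro t ht y hy
    have ht' : t ∈ Icc a c \ (J ∪ J' ∪ {b}) := ⟨⟨ht.1.1.le, ht.1.2.le⟩, ht.2⟩
    rcases lt_or_gt_of_ne (n3 ht') with htb | htb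
    · have htb' := htb.le
      simp only [htb', if_true]
      have e := h.tf t ⟨⟨ht.1.1, htb⟩, (n1 ht' htb').2⟩ y hy
      refine e.congr_of_eventuallyEq ?_
      filter_upwards [Iio_mem_nhds htb] with s hs
      have : s ≤ b := le_of_lt hs
      simp only [this, if_true]
    · have htb' := not_le.2 htb
      simp only [htb', if_false]
      have e := h'.tf t ⟨⟨htb, ht.1.2⟩, (n2 ht' htb.le).2⟩ y hy
      refine e.congr_of_eventuallyEq ?_
      filter_upwards [Ioi_mem_nhds htb] with s hs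
      have : ¬ s ≤ b := not_le.2 hs
      simp only [this, if_false]

/-- The zero piece. -/
theorem TrL.zero (a b L : ℝ) (hC : 0 ≤ C) :
    TrL a b L C ∅ (fun _ _ => 0) (fun _ _ => 0) (fun _ _ => 0) (fun _ => 0) := by
  refine ⟨countable_empty, continuousOn_const, continuousOn_const, continuousOn_const,
    fun t _ => ?_, fun t _ y _ => hasDerivWithinAt_const _ _ _, fun t _ => rfl,
    fun t _ y _ => ?_⟩
  · simp only [abs_zero]
    exact ⟨hC, fun y _ => hC⟩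
  · simp only [intervalIntegral.integral_zero, zero_mul, sub_self, add_zero, mul_zero]
    exact hasDerivAt_const _ _

end

/-- Odd bounded data with bounded continuous derivative. -/
structure Odd1 (m m' : ℝ) (e e' : ℝ → ℝ) : Prop where
  c : Continuous e'
  d : ∀ y, HasDerivAt e (e' y) y
  odd : ∀ y, e (-y) = -e y
  b0 : ∀ y, |e y| ≤ m
  b1 : ∀ y, |e' y| ≤ m'

/-- Background fields: `F_t = F_yy + c`, with `F = 0` at `y = 0`. -/
structure Back (t0 L c A : ℝ) (F F' : ℝ → ℝ → ℝ) : Prop where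
  c0 : ContinuousOn (uncurry F) (Icc 0 t0 ×ˢ univ)
  c1 : ContinuousOn (uncurry F') (Ioc 0 t0 ×ˢ univ)
  d : ∀ t ∈ Ioc 0 t0, ∀ y, HasDerivAt (F t) (F' t y) y
  z : ∀ t ∈ Icc 0 t0, F t 0 = 0
  bd : ∀ t ∈ Ioc 0 t0, ∀ y ∈ Icc 0 L, |F' t y| ≤ A
  ti : ∀ t ∈ Icc 0 t0, ∀ y, 0 ≤ y → (∫ z in (0:ℝ)..y, F t z) - (∫ z in (0:ℝ)..y, F 0 z) =
    ∫ s in (0:ℝ)..t, (F' s y - F' s 0 + c * y)

theorem hasDerivAt_of_int {φ : ℝ → ℝ} {Φ : ℝ → ℝ} {t0 K0 : ℝ} (hφ : ContinuousOn φ (Ioc 0 t0))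
    (hb : ∃ K, ∀ s ∈ Ioc 0 t0, |φ s| ≤ K)
    (h : ∀ t ∈ Icc 0 t0, Φ t - K0 = ∫ s in (0:ℝ)..t, φ s) {t : ℝ} (ht : t ∈ Ioo 0 t0) :
    HasDerivAt Φ (φ t) t := by
  obtain ⟨K, hK⟩ := hb
  have hint : ∀ t ∈ Icc 0 t0, IntervalIntegrable φ volume 0 t := by
    intro t ht
    rw [intervalIntegrable_iff_integrableOn_Ioc_of_le ht.1]
    refine Integrable.mono' (g := fun _ => K) (integrable_const _) ?_ ?_
    · exact (hφ.mono fun s hs => ⟨hs.1, hs.2.trans ht.2⟩).aestronglyMeasurable measurableSet_Ioc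
    · rw [ae_restrict_iff' measurableSet_Ioc]
      exact ae_of_all _ fun s hs => hK s ⟨hs.1, hs.2.trans ht.2⟩
  have hc : ContinuousAt φ t := (hφ t ⟨ht.1, ht.2.le⟩).continuousAt (Ioc_mem_nhds ht.1 ht.2)
  have hd := intervalIntegral.integral_hasDerivAt_right (hint t ⟨ht.1.le, ht.2.le⟩)
    (ContinuousOn.stronglyMeasurableAtFilter_nhdsWithin hφ measurableSet_Ioc t |>.filter_mono (by
      rw [nhdsWithin_eq_nhds.2 (Ioc_mem_nhds ht.1 ht.2)])) hc
  have h2 := hd.add_const K0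
  refine h2.congr_of_eventuallyEq ?_
  filter_upwards [Ioo_mem_nhds ht.1 ht.2] with s hs
  have := h s ⟨hs.1.le, hs.2.le⟩
  linarith

/-- A background and a Duhamel correction give a piece. -/
theorem piece {t0 S L c A B : ℝ} {χ : ℝ → ℝ} {F F' g n : ℝ → ℝ → ℝ} (hχ : Cut L S χ)
    (ht0 : t0 ∈ Ioc 0 1) (hS : 0 ≤ S) (hL : 0 ≤ L) (hA : 0 ≤ A) (hB : Back t0 L c A F F')
    (hn : SrcC t0 B S n)
    (hne : ∀ s ∈ Ioc 0 t0, ∀ y, 0 ≤ y → n s y = χ y * ((∫ z in (0:ℝ)..y, g s z) *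
        (F' s y + DuhD n s y) - g s y * (F s y + Duh n s y))) (hno : ∀ s y, n s (-y) = -n s y) :
    TrL 0 t0 L (|c| + A + 2 * √t0 * (B * cE)) {0} g (fun t y => F t y + Duh n t y)
      (fun t y => F' t y + DuhD n t y) (fun _ => c) := by
  have hsrc := hn.src ht0.2
  have hBn := hn.nonneg ht0.1
  have hcE := cE_pos
  have m1 : ∀ {t}, t ∈ Icc 0 t0 \ {0} → t ∈ Ioc 0 t0 := fun ht =>
    ⟨lt_of_le_of_ne ht.1.1 fun h => ht.2 h.symm, ht.1.2⟩
  have hcD : ContinuousOn (uncurry (Duh n)) (Icc 0 t0 ×ˢ univ) :=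
    contOn_Icc_of (C := B * cE) (hn.contDuh ht0.2) (Duh_zero_time n) fun t ht y => by
      have h1 := hn.abs_Duh ht0.2 ht y
      have h2 : t ≤ √t := by
        have h3 : √t ≤ 1 := by rw [sqrt_le_one]; exact ht.2.trans ht0.2
        have h4 := mul_self_sqrt ht.1.le
        have h5 := sqrt_nonneg t
        nlinarith
      calc |Duh n t y| ≤ t * (B * cE) := h1
        _ ≤ √t * (B * cE) := by gcongr
        _ = _ := mul_comm _ _
  refine ⟨countable_singleton 0, ?_, ?_, continuousOn_const, ?_, ?_, ?_, ?_⟩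
  · exact (hB.c0.add hcD).mono (by gcongr; exact subset_univ _)
  · exact (hB.c1.add (hn.contDuhD ht0.2)).mono fun p hp => ⟨m1 hp.1, mem_univ _⟩
  · intro t ht
    have ht' := m1 ht
    refine ⟨?_, fun y hy => ?_⟩
    · have : 0 ≤ 2 * √t0 * (B * cE) := by positivity
      show |c| ≤ _
      linarith
    · have h1 := hB.bd t ht' y hy
      have h2 := hn.abs_DuhD ht0.2 ht' y
      have h3 : 2 * √t * (B * cE) ≤ 2 * √t0 * (B * cE) := by
        have := sqrt_le_sqrt ht'.2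
        gcongr
      have h4 := abs_add_le (F' t y) (DuhD n t y)
      have h5 := abs_nonneg c
      show |F' t y + DuhD n t y| ≤ _
      linarith
  · intro t ht y hy
    exact ((hB.d t (m1 ht) y).add (hn.hasDerivAt ht0.2 (m1 ht) y)).hasDerivWithinAt
  · intro t ht
    have h1 := Duh_odd hno t 0
    rw [neg_zero] at h1
    show F t 0 + Duh n t 0 = 0
    rw [hB.z t ht]
    linarith
  · intro t ht y hy
    have hti := fun (t : ℝ) (ht : t ∈ Ioc 0 t0) (y : ℝ) => hn.ti ht0.2 hS ht y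
    have hcN : ContinuousOn (fun s => ∫ z in (0:ℝ)..y, n s z) (Ioc 0 t0) :=
      (contOn_prim hn.cont).comp (f := fun s : ℝ => (s, y)) (by fun_prop)
        fun s hs => ⟨hs, mem_univ _⟩
    have hcF' : ∀ x, ContinuousOn (fun s => F' s x) (Ioc 0 t0) := fun x =>
      hB.c1.comp (f := fun s : ℝ => (s, x)) (by fun_prop) fun s hs => ⟨hs, mem_univ _⟩
    have hcD' : ∀ x, ContinuousOn (fun s => DuhD n s x) (Ioc 0 t0) := fun x =>
      (hn.contDuhD ht0.2).comp (f := fun s : ℝ => (s, x)) (by fun_prop)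
        fun s hs => ⟨hs, mem_univ _⟩
    have d1 := hasDerivAt_of_int (φ := fun s => F' s y - F' s 0 + c * y)
      (Φ := fun t => ∫ z in (0:ℝ)..y, F t z) (t0 := t0) (K0 := ∫ z in (0:ℝ)..y, F 0 z)
      (((hcF' y).sub (hcF' 0)).add continuousOn_const)
      ⟨A + A + |c| * y, fun s hs => by
        have e1 := hB.bd s hs y hy
        have e2 := hB.bd s hs 0 ⟨le_rfl, hL⟩
        have e3 := abs_add_le (F' s y - F' s 0) (c * y)
        have e4 := abs_sub (F' s y) (F' s 0)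
        have e5 : |c * y| = |c| * y := by rw [abs_mul, abs_of_nonneg hy.1]
        linarith⟩
      (fun t ht => hB.ti t ht y hy.1) (t := t) ⟨ht.1.1, ht.1.2⟩
    have d2 := hasDerivAt_of_int (φ := fun s => DuhD n s y - DuhD n s 0 + ∫ z in (0:ℝ)..y, n s z)
      (Φ := fun t => ∫ z in (0:ℝ)..y, Duh n t z) (t0 := t0) (K0 := 0)
      (((hcD' y).sub (hcD' 0)).add hcN)
      ⟨2 * √t0 * (B * cE) + 2 * √t0 * (B * cE) + B * y, fun s hs => by
        have hss : √s ≤ √t0 := sqrt_le_sqrt hs.2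
        have e0 : 2 * √s * (B * cE) ≤ 2 * √t0 * (B * cE) := by gcongr
        have e1 := (hn.abs_DuhD ht0.2 hs y).trans e0
        have e2 := (hn.abs_DuhD ht0.2 hs 0).trans e0
        have e3 := abs_add_le (DuhD n s y - DuhD n s 0) (∫ z in (0:ℝ)..y, n s z)
        have e4 := abs_sub (DuhD n s y) (DuhD n s 0)
        have e5 := intervalIntegral.norm_integral_le_of_norm_le_const (a := 0) (b := y)
          (f := n s) (C := B) (fun z _ => hn.bd s hs z)
        rw [sub_zero, abs_of_nonneg hy.1, Real.norm_eq_abs] at e5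
        linarith⟩
      (fun t ht => by
        rcases eq_or_lt_of_le ht.1 with h | h
        · rw [← h]
          simp [Duh_zero_time]
        · rw [sub_zero]; exact hti t ⟨h, ht.2⟩ y) (t := t) ⟨ht.1.1, ht.1.2⟩
    have d3 := d1.add d2
    have htI : t ∈ Ioc 0 t0 := ⟨ht.1.1, ht.1.2.le⟩
    have htI' : ∀ s ∈ Ioo 0 t0, s ∈ Icc 0 t0 := fun s hs => ⟨hs.1.le, hs.2.le⟩
    have hcs : ∀ s ∈ Icc 0 t0, Continuous (F s) := fun s hs =>
      hB.c0.comp_continuous (f := fun y : ℝ => (s, y)) (by fun_prop) fun y => ⟨hs, mem_univ _⟩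
    have hcs' : ∀ s ∈ Icc 0 t0, Continuous (Duh n s) := fun s hs =>
      hcD.comp_continuous (f := fun y : ℝ => (s, y)) (by fun_prop) fun y => ⟨hs, mem_univ _⟩
    have hN : (∫ z in (0:ℝ)..y, n t z) = ∫ z in (0:ℝ)..y, ((∫ x in (0:ℝ)..z, g t x) *
        (F' t z + DuhD n t z) - g t z * (F t z + Duh n t z)) := by
      refine intervalIntegral.integral_congr fun z hz => ?_
      rw [uIcc_of_le hy.1] at hz
      rw [hne t htI z hz.1, hχ.one z hz.1 (hz.2.trans hy.2), one_mul]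
    rw [hN] at d3
    refine (d3.congr_of_eventuallyEq ?_).congr_deriv (by ring)
    filter_upwards [Ioo_mem_nhds ht.1.1 ht.1.2] with s hs
    show (∫ z in (0:ℝ)..y, (F s z + Duh n s z)) = _
    exact intervalIntegral.integral_add ((hcs s (htI' s hs)).intervalIntegrable _ _)
      ((hcs' s (htI' s hs)).intervalIntegrable _ _)

end Pool.Agent.Lib.MP_79abb3_an
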