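import Pool.Agent.Lib.MP_79abb3_an.SolveA

/-!
Solutions on time intervals, short time existence, gluing.
-/

set_option autoImplicit false
set_option linter.unusedSectionVars false
set_option linter.unusedVariables false

open MeasureTheory Set Filter Topology Real ProbabilityTheory Function
open scoped BoundedContinuousFunction

namespace Pool.Agent.Lib.MP_79abb3_an

/-- Solutions of the half line problem; `w` is controlled on `J`. -/
structure Sol (I J : Set ℝ) (g v w : ℝ → ℝ → ℝ) : Prop where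
  cg : ContinuousOn (uncurry g) (I ×ˢ univ)
  cv : ContinuousOn (uncurry v) (I ×ˢ univ)
  cw : ContinuousOn (uncurry w) (J ×ˢ univ)
  dg : ∀ t ∈ I, ∀ y, HasDerivAt (g t) (v t y) y
  dv : ∀ t ∈ J, ∀ y, HasDerivAt (v t) (w t y) y
  odd : ∀ t ∈ I, ∀ y, g t (-y) = -g t y
  bd : ∃ C, ∀ t ∈ I, ∀ y, |g t y| ≤ C * om y ∧ |v t y| ≤ C * om y
  bw : ∀ a' ∈ J, ∃ C, ∀ t ∈ J, a' ≤ t → ∀ y, |w t y| ≤ C * om y
  ti : ∀ t1 ∈ J, ∀ t2 ∈ J, t1 ≤ t2 → ∀ y, 0 ≤ y →
    g t2 y - g t1 y = ∫ s in t1..t2, (w s y + qG g v s y)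

theorem contOn_Icc_of {t0 C : ℝ} {F : ℝ → ℝ → ℝ}
    (hF : ContinuousOn (uncurry F) (Ioc 0 t0 ×ˢ univ)) (h0 : ∀ y, F 0 y = 0)
    (hb : ∀ t ∈ Ioc 0 t0, ∀ y, |F t y| ≤ C * √t) :
    ContinuousOn (uncurry F) (Icc 0 t0 ×ˢ univ) := by
  intro p hp
  rcases eq_or_lt_of_le hp.1.1 with h | h
  · have hp0 : uncurry F p = 0 := by
      show F p.1 p.2 = 0
      rw [← h, h0]
    have hb' : ∀ q ∈ Icc 0 t0 ×ˢ (univ : Set ℝ), |uncurry F q| ≤ C * √q.1 := by
      intro q hq
      rcases eq_or_lt_of_le hq.1.1 with h' | h'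
      · show |F q.1 q.2| ≤ _
        rw [← h', h0]; simp
      · exact hb q.1 ⟨h', hq.1.2⟩ q.2
    rw [ContinuousWithinAt, hp0, tendsto_zero_iff_abs_tendsto_zero]
    have hlim : Tendsto (fun q : ℝ × ℝ => C * √q.1) (𝓝[Icc 0 t0 ×ˢ univ] p) (𝓝 0) := by
      have h1 : Continuous fun q : ℝ × ℝ => C * √q.1 := by fun_prop
      have h2 := (h1.tendsto p).mono_left (nhdsWithin_le_nhds (s := Icc 0 t0 ×ˢ (univ : Set ℝ)))
      simpa [← h] using h2
    refine squeeze_zero' (Eventually.of_forall fun q => abs_nonneg _) ?_ hlim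
    filter_upwards [self_mem_nhdsWithin] with q hq
    exact hb' q hq
  · refine (hF p ⟨⟨h, hp.1.2⟩, mem_univ _⟩).mono_of_mem_nhdsWithin ?_
    have h1 : {q : ℝ × ℝ | 0 < q.1} ∈ 𝓝 p :=
      (isOpen_lt continuous_const continuous_fst).mem_nhds h
    filter_upwards [self_mem_nhdsWithin, mem_nhdsWithin_of_mem_nhds h1] with q hq1 hq2
    exact ⟨⟨hq2, hq1.1.2⟩, mem_univ _⟩

theorem Duh_zero_time (n : ℝ → ℝ → ℝ) (y : ℝ) : Duh n 0 y = 0 := by simp [Duh]
theorem DuhD_zero_time (n : ℝ → ℝ → ℝ) (y : ℝ) : DuhD n 0 y = 0 := by simp [DuhD]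

theorem Src.contOn_Icc {t0 A μ : ℝ} {n : ℝ → ℝ → ℝ} (h : Src t0 A μ n) (hμ : 0 ≤ μ)
    (hμ1 : μ ≤ 1) (ht0 : t0 ∈ Ioc 0 1) : ContinuousOn (uncurry (Duh n)) (Icc 0 t0 ×ˢ univ) := by
  refine contOn_Icc_of (C := 2 * (A * cE)) (h.continuousOn_Duh hμ hμ1 ht0.2) (Duh_zero_time n)
    fun t ht y => ?_
  have h1 := h.abs_Duh hμ hμ1 ht0.2 ht y
  refine h1.trans ?_
  have hA := h.nonneg ht0.1
  have hc := cE_pos
  have hw : exp (-μ * |y|) ≤ 1 := by
    rw [exp_le_one_iff]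
    have := mul_nonneg hμ (abs_nonneg y)
    linarith
  calc 2 * √t * (A * cE) * exp (-μ * |y|) ≤ 2 * √t * (A * cE) * 1 := by gcongr
    _ = _ := by ring

theorem Src.int_time {t0 A μ : ℝ} {n : ℝ → ℝ → ℝ} (h : Src t0 A μ n) {t : ℝ}
    (ht : t ∈ Ioc 0 t0) (y : ℝ) : IntervalIntegrable (fun s => n s y) volume 0 t := by
  have h1 : IntegrableOn (fun s : ℝ => A * exp (-μ * |y|) * (√s)⁻¹) (Ioc 0 t) := by
    have := (intervalIntegrable_isq 0 t).const_mul (A * exp (-μ * |y|))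
    rwa [intervalIntegrable_iff_integrableOn_Ioc_of_le ht.1.le] at this
  rw [intervalIntegrable_iff_integrableOn_Ioc_of_le ht.1.le]
  refine h1.mono' (ContinuousOn.aestronglyMeasurable ?_ measurableSet_Ioc) ?_
  · exact h.cont.comp (f := fun s : ℝ => (s, y)) (by fun_prop)
      fun s hs => ⟨⟨hs.1, hs.2.trans ht.2⟩, mem_univ _⟩
  · rw [ae_restrict_iff' measurableSet_Ioc]
    refine ae_of_all _ fun s hs => ?_
    refine (h.bd s ⟨hs.1, hs.2.trans ht.2⟩ y).trans (le_of_eq ?_)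
    ring

theorem Src.int_DuhD {t0 A μ : ℝ} {n : ℝ → ℝ → ℝ} (h : Src t0 A μ n) (hμ : 0 ≤ μ) (hμ1 : μ ≤ 1)
    (ht0 : t0 ≤ 1) {t : ℝ} (ht : t ∈ Ioc 0 t0) (y : ℝ) :
    IntervalIntegrable (fun s => DuhD n s y) volume 0 t := by
  rw [intervalIntegrable_iff_integrableOn_Ioc_of_le ht.1.le]
  have h1 : IntegrableOn (fun s : ℝ => 6 * (A * cE) * exp (-μ * |y|)) (Ioc 0 t) := integrable_const _
  refine h1.mono' (ContinuousOn.aestronglyMeasurable ?_ measurableSet_Ioc) ?_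
  · exact (h.continuousOn_DuhD hμ hμ1 ht0).comp (f := fun s : ℝ => (s, y)) (by fun_prop)
      fun s hs => ⟨⟨hs.1, hs.2.trans ht.2⟩, mem_univ _⟩
  · rw [ae_restrict_iff' measurableSet_Ioc]
    exact ae_of_all _ fun s hs => h.abs_DuhD hμ hμ1 ht0 ⟨hs.1, hs.2.trans ht.2⟩ y

section step
variable {t0 R0 R : ℝ} {g0 v0 w0 : ℝ → ℝ} {g v w : ℝ → ℝ → ℝ}

/-- The integrated equation for mild solutions. -/
theorem mild_ti (ht0 : t0 ∈ Ioc 0 1) (hd : Dat R0 g0 v0) (hR : 0 ≤ R) (hc : Con t0 g v w)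
    (hs : Siz t0 R g v w) (hm : Mild t0 g0 v0 g v w) {t : ℝ} (ht : t ∈ Ioc 0 t0) {y : ℝ}
    (hy : 0 ≤ y) : IntervalIntegrable (fun s => w s y + qG g v s y) volume 0 t ∧
      g t y = g0 y + ∫ s in (0:ℝ)..t, (w s y + qG g v s y) := by
  have sG := src_G ht0.2 hR hc hs
  have sN := src_N ht0.2 hR hc hs
  have i1 := hd.grv.intervalIntegrable_Dh le_rfl ht.1.le (ht.2.trans ht0.2) y
  have i2 := sN.int_DuhD zero_le_one le_rfl ht0.2 ht y
  have i3 := sG.int_time ht y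
  have e1 := H_sub hd.grg hd.grv hd.d (ht.2.trans ht0.2) ht.1.le y
  have e2 := duh_time sG sN zero_le_one le_rfl ht0.2 hc.src_hasDerivAt ht y
  have hcongr : ∀ s ∈ uIoc 0 t, Dh s v0 y + DuhD (evE (qN g v w)) s y + oddE (qG g v) s y =
      w s y + qG g v s y := by
    intro s hs'
    rw [uIoc_of_le ht.1.le] at hs'
    have hs'' : s ∈ Ioc 0 t0 := ⟨hs'.1, hs'.2.trans ht.2⟩
    rw [hm.e3 s hs'' y, oddE_of_nonneg hy (qG_zero (hc.z s hs''))]
    rfl
  have i4 := (i1.add i2).add i3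
  constructor
  · refine i4.congr ?_
    intro s hs'
    exact hcongr s hs'
  · rw [hm.e1 t ht y, U1, e1, e2]
    have : ∫ s in (0:ℝ)..t, (w s y + qG g v s y) =
        ∫ s in (0:ℝ)..t, (Dh s v0 y + DuhD (evE (qN g v w)) s y + oddE (qG g v) s y) := by
      refine intervalIntegral.integral_congr_ae (ae_of_all _ fun s hs' => (hcongr s hs').symm)
    rw [this, intervalIntegral.integral_add (i1.add i2) i3, intervalIntegral.integral_add i1 i2]
    ring

theorem mild_int (ht0 : t0 ∈ Ioc 0 1) (hd : Dat R0 g0 v0) (hR : 0 ≤ R) (hc : Con t0 g v w)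
    (hs : Siz t0 R g v w) (hm : Mild t0 g0 v0 g v w) {t1 t2 : ℝ} (h1 : 0 < t1) (h12 : t1 ≤ t2)
    (h2 : t2 ≤ t0) {y : ℝ} (hy : 0 ≤ y) :
    g t2 y - g t1 y = ∫ s in t1..t2, (w s y + qG g v s y) := by
  have m1 := mild_ti ht0 hd hR hc hs hm (t := t1) ⟨h1, h12.trans h2⟩ hy
  have m2 := mild_ti ht0 hd hR hc hs hm (t := t2) ⟨h1.trans_le h12, h2⟩ hy
  rw [m1.2, m2.2, ← intervalIntegral.integral_interval_sub_left m2.1 m1.1]
  ring

/-- The basic step: existence from data, on `[0,t0]`. -/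
theorem step_base (ht0 : t0 ∈ Ioc 0 1) (hd : Dat R0 g0 v0) (hR0 : 0 < R0)
    (hsm : 96 * cE ^ 2 * √t0 * R0 ≤ 1) :
    ∃ g v w : ℝ → ℝ → ℝ, Sol (Icc 0 t0) (Ioc 0 t0) g v w ∧ g 0 = g0 ∧ v 0 = v0 ∧
      (∀ w0 : ℝ → ℝ, Continuous w0 → (∀ y, HasDerivAt v0 (w0 y) y) → (∃ C, ∀ y, |w0 y| ≤ C * om y) →
        ∃ w' : ℝ → ℝ → ℝ, Sol (Icc 0 t0) (Icc 0 t0) g v w' ∧ w' 0 = w0) := by
  obtain ⟨g, v, w, hc, hs, hm⟩ := solveA ht0 hd hR0 hsm
  have hcE := cE_pos
  set R := 2 * R0 * cE with hRd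
  have hR : 0 ≤ R := by positivity
  have sG := src_G ht0.2 hR hc hs
  have sN := src_N ht0.2 hR hc hs
  set G' := oddE (qG g v) with hG'
  set N' := evE (qN g v w) with hN'
  set gg : ℝ → ℝ → ℝ := U1 g0 G' with hgg
  set vv : ℝ → ℝ → ℝ := U1 v0 N' with hvv
  have eg : ∀ s ∈ Ioc 0 t0, gg s = g s := fun s hs' => funext fun y => (hm.e1 s hs' y).symm
  have ev : ∀ s ∈ Ioc 0 t0, vv s = v s := fun s hs' => funext fun y => (hm.e2 s hs' y).symm
  have eg0 : gg 0 = g0 := funext fun y => by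
    show H 0 g0 y + Duh G' 0 y = g0 y
    rw [H_zero, Duh_zero_time, add_zero]
  have ev0 : vv 0 = v0 := funext fun y => by
    show H 0 v0 y + Duh N' 0 y = v0 y
    rw [H_zero, Duh_zero_time, add_zero]
  have hsub : Icc (0:ℝ) t0 ×ˢ (univ : Set ℝ) ⊆ Iic 1 ×ˢ univ := fun p hp =>
    ⟨hp.1.2.trans ht0.2, mem_univ _⟩
  have cgg : ContinuousOn (uncurry gg) (Icc 0 t0 ×ˢ univ) :=
    (hd.grg.continuousOn_H.mono hsub).add (sG.contOn_Icc zero_le_one le_rfl ht0)
  have cvv : ContinuousOn (uncurry vv) (Icc 0 t0 ×ˢ univ) :=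
    (hd.grv.continuousOn_H.mono hsub).add (sN.contOn_Icc zero_le_one le_rfl ht0)
  have cases0 : ∀ t ∈ Icc (0:ℝ) t0, t = 0 ∨ t ∈ Ioc 0 t0 := fun t ht => by
    rcases eq_or_lt_of_le ht.1 with h | h
    · exact Or.inl h.symm
    · exact Or.inr ⟨h, ht.2⟩
  have dgg : ∀ t ∈ Icc 0 t0, ∀ y, HasDerivAt (gg t) (vv t y) y := by
    intro t ht y
    rcases cases0 t ht with h | h
    · rw [h, eg0, ev0]; exact hd.d y
    · rw [eg t h, ev t h]; exact hc.dg t h y
  have hoddg : ∀ t ∈ Icc 0 t0, ∀ y, gg t (-y) = -gg t y := fun t ht y =>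
    U1_zero hd (fun s y => oddE_neg _ _ _) t y
  have hbd : ∃ C, ∀ t ∈ Icc 0 t0, ∀ y, |gg t y| ≤ C * om y ∧ |vv t y| ≤ C * om y := by
    refine ⟨R, fun t ht y => ?_⟩
    rcases cases0 t ht with h | h
    · rw [h, eg0, ev0]
      have h1 : R0 ≤ R := by
        rw [hRd]
        have := one_le_cE
        nlinarith
      have := om_pos y
      exact ⟨(hd.bg y).trans (by gcongr), (hd.bv y).trans (by gcongr)⟩
    · rw [eg t h, ev t h]; exact ⟨hs.bg t h y, hs.bv t h y⟩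
  have hqG : ∀ s ∈ Ioc 0 t0, ∀ y, qG gg vv s y = qG g v s y := fun s hs' y => by
    unfold qG; rw [eg s hs', ev s hs']
  refine ⟨gg, vv, w, ⟨cgg, cvv, hc.cw, dgg, ?_, hoddg, hbd, ?_, ?_⟩, eg0, ev0, ?_⟩
  · intro t ht y
    rw [ev t ht]
    exact hc.dv t ht y
  · intro a' ha'
    refine ⟨(√a')⁻¹ * R, fun t ht hat y => ?_⟩
    have h1 := hs.bw t ht y
    have h2 : 0 < √a' := sqrt_pos.2 ha'.1
    have := om_pos y
    calc |w t y| ≤ (√t)⁻¹ * (R * om y) := h1
      _ ≤ (√a')⁻¹ * (R * om y) := by gcongr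
      _ = _ := by ring
  · intro t1 h1 t2 h2 h12 y hy
    rw [eg t1 h1, eg t2 h2, mild_int ht0 hd hR hc hs hm h1.1 h12 h2.2 hy]
    refine intervalIntegral.integral_congr fun s hs' => ?_
    rw [uIcc_of_le h12] at hs'
    show _ = w s y + qG gg vv s y
    rw [hqG s ⟨h1.1.trans_le hs'.1, hs'.2.trans h2.2⟩]
  · intro w0 cw0 dw0 bw0
    obtain ⟨C0, hC0⟩ := bw0
    have hwt : Wt C0 1 w0 := Wt1 cw0 hC0
    have hC0nn : 0 ≤ C0 := hwt.nonneg
    set ww : ℝ → ℝ → ℝ := fun s y => H s w0 y + DuhD N' s y with hww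
    have ew : ∀ s ∈ Ioc 0 t0, ww s = w s := fun s hs' => funext fun y => by
      rw [hm.e3 s hs' y]
      show H s w0 y + DuhD N' s y = Dh s v0 y + DuhD N' s y
      rw [Dh_eq hd.grv (hwt.gr zero_le_one) dw0 (hs'.2.trans ht0.2) hs'.1]
    have ew0 : ww 0 = w0 := funext fun y => by
      show H 0 w0 y + DuhD N' 0 y = w0 y
      rw [H_zero, DuhD_zero_time, add_zero]
    -- w is bounded
    have hwb : ∀ s ∈ Ioc 0 t0, ∀ y, |w s y| ≤ (C0 * cE + 6 * (2 * R ^ 2 * cE)) * om y := by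
      intro s hs' y
      rw [← ew s hs']
      have h1 := hwt.abs_H zero_le_one le_rfl (hs'.2.trans ht0.2) y
      have h2 := sN.abs_DuhD zero_le_one le_rfl ht0.2 hs' y
      rw [om_eq] at h1 h2
      refine (abs_add_le _ _).trans ?_
      linarith
    set W := C0 * cE + 6 * (2 * R ^ 2 * cE) with hWd
    have hW : 0 ≤ W := by positivity
    have hNb0 : ∀ s ∈ Ioc 0 t0, ∀ x, 0 ≤ x → |qN g v w s x| ≤ (R * W + R * R) * om x := by
      intro s hs' x hx
      have b1 := prim_om_le (slice_cont hc.cg hs') hR (hs.bg s hs') hx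
      have b2 := hwb s hs' x
      have b3 := hs.bg s hs' x
      have b4 := hs.bv s hs' x
      have b5 := om_le x
      have b6 := om_pos x
      calc |qN g v w s x| ≤ |(∫ z in (0:ℝ)..x, g s z) * w s x| + |g s x * v s x| :=
            abs_sub _ _
        _ = |∫ z in (0:ℝ)..x, g s z| * |w s x| + |g s x| * |v s x| := by
            rw [abs_mul, abs_mul]
        _ ≤ R * (W * om x) + (R * 1) * (R * om x) := by
            gcongr
            exact b3.trans (by gcongr)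
        _ = _ := by ring
    have hNb : ∀ s ∈ Ioc 0 t0, ∀ y, |N' s y| ≤ (R * W + R * R) * exp (-1 * |y|) := by
      intro s hs' y
      rw [om_eq, ← om_abs]
      exact hNb0 s hs' _ (abs_nonneg y)
    have cDD : ContinuousOn (uncurry (DuhD N')) (Icc 0 t0 ×ˢ univ) := by
      refine contOn_Icc_of (C := 2 * ((R * W + R * R) * cE))
        (sN.continuousOn_DuhD zero_le_one le_rfl ht0.2) (DuhD_zero_time N') fun t ht y => ?_
      have h1 := sN.abs_DuhD' zero_le_one le_rfl ht0.2 hNb ht y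
      refine h1.trans ?_
      rw [om_eq]
      have := om_le y
      calc 2 * √t * ((R * W + R * R) * cE) * om y ≤ 2 * √t * ((R * W + R * R) * cE) * 1 := by
            gcongr
        _ = _ := by ring
    have cww : ContinuousOn (uncurry ww) (Icc 0 t0 ×ˢ univ) :=
      ((hwt.gr zero_le_one).continuousOn_H.mono hsub).add cDD
    refine ⟨ww, ⟨cgg, cvv, cww, dgg, ?_, hoddg, hbd, ?_, ?_⟩, ew0⟩
    · intro t ht y
      rcases cases0 t ht with h | h
      · rw [h, ev0, ew0]; exact dw0 y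
      · rw [ev t h, ew t h]; exact hc.dv t h y
    · intro a' ha'
      refine ⟨max C0 W, fun t ht hat y => ?_⟩
      have := om_pos y
      rcases cases0 t ht with h | h
      · rw [h, ew0]; exact (hC0 y).trans (by gcongr; exact le_max_left _ _)
      · rw [ew t h]; exact (hwb t h y).trans (by gcongr; exact le_max_right _ _)
    · intro t1 h1 t2 h2 h12 y hy
      have hqc : ∀ s ∈ Ioc 0 t0, ww s y + qG gg vv s y = w s y + qG g v s y := fun s hs' => by
        rw [hqG s hs', ew s hs']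
      rcases cases0 t1 h1 with h | h
      · rcases cases0 t2 h2 with h' | h'
        · rw [h, h']; simp
        · rw [h, eg t2 h', eg0, (mild_ti ht0 hd hR hc hs hm h' hy).2, add_sub_cancel_left]
          refine intervalIntegral.integral_congr_ae (ae_of_all _ fun s hs' => ?_)
          rw [uIoc_of_le h'.1.le] at hs'
          exact (hqc s ⟨hs'.1, hs'.2.trans h'.2⟩).symm
      · rw [eg t1 h, eg t2 ⟨h.1.trans_le h12, h2.2⟩, mild_int ht0 hd hR hc hs hm h.1 h12 h2.2 hy]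
        refine intervalIntegral.integral_congr fun s hs' => ?_
        rw [uIcc_of_le h12] at hs'
        exact (hqc s ⟨h.1.trans_le hs'.1, hs'.2.trans h2.2⟩).symm

end step

/-- Time translation. -/
theorem Sol.shift {I J : Set ℝ} {g v w : ℝ → ℝ → ℝ} (h : Sol I J g v w) (a : ℝ) :
    Sol ((fun t => t - a) ⁻¹' I) ((fun t => t - a) ⁻¹' J) (fun t => g (t - a)) (fun t => v (t - a))
      (fun t => w (t - a)) := by
  have hc : ∀ {K : Set ℝ} {f : ℝ → ℝ → ℝ}, ContinuousOn (uncurry f) (K ×ˢ univ) →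
      ContinuousOn (uncurry fun t => f (t - a)) (((fun t => t - a) ⁻¹' K) ×ˢ univ) := by
    intro K f hf
    exact hf.comp (f := fun p : ℝ × ℝ => (p.1 - a, p.2)) (by fun_prop) fun p hp => ⟨hp.1, mem_univ _⟩
  refine ⟨hc h.cg, hc h.cv, hc h.cw, fun t ht y => h.dg _ ht y, fun t ht y => h.dv _ ht y,
    fun t ht y => h.odd _ ht y, ?_, ?_, ?_⟩
  · obtain ⟨C, hC⟩ := h.bd
    exact ⟨C, fun t ht y => hC _ ht y⟩
  · intro a' ha'
    obtain ⟨C, hC⟩ := h.bw (a' - a) ha'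
    exact ⟨C, fun t ht hat y => hC _ ht (by linarith) y⟩
  · intro t1 h1 t2 h2 h12 y hy
    have := h.ti (t1 - a) h1 (t2 - a) h2 (by linarith) y hy
    show g (t2 - a) y - g (t1 - a) y = _
    rw [this]
    have e := intervalIntegral.integral_comp_sub_right (fun s => w s y + qG g v s y) (a := t1)
      (b := t2) a
    rw [← e]
    rfl

theorem glue_cont {f f' : ℝ → ℝ → ℝ} {I I' K : Set ℝ} {b : ℝ}
    (hf : ContinuousOn (uncurry f) (I ×ˢ univ)) (hf' : ContinuousOn (uncurry f') (I' ×ˢ univ))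
    (h1 : ∀ t ∈ K, t ≤ b → t ∈ I) (h2 : ∀ t ∈ K, b ≤ t → t ∈ I') (hb : f b = f' b) :
    ContinuousOn (uncurry fun t => if t ≤ b then f t else f' t) (K ×ˢ univ) := by
  have e : (uncurry fun t => if t ≤ b then f t else f' t) =
      fun p : ℝ × ℝ => if p.1 ≤ b then uncurry f p else uncurry f' p := by
    ext p
    show (if p.1 ≤ b then f p.1 else f' p.1) p.2 = _
    split_ifs <;> rfl
  rw [e]
  have c1 : IsClosed {p : ℝ × ℝ | p.1 ≤ b} := isClosed_le continuous_fst continuous_const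
  have c2 : closure {p : ℝ × ℝ | ¬p.1 ≤ b} ⊆ {p | b ≤ p.1} := by
    refine closure_minimal (fun p hp => ?_) (isClosed_le continuous_const continuous_fst)
    exact le_of_lt (not_le.1 hp)
  refine ContinuousOn.if ?_ ?_ ?_
  · intro p hp
    have h3 := hp.2
    have h4 : p.1 = b := by
      refine le_antisymm ?_ ?_
      · have := frontier_subset_closure h3
        rw [c1.closure_eq] at this
        exact this
      · have := frontier_subset_closure (frontier_compl {p : ℝ × ℝ | p.1 ≤ b} ▸ h3)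
        exact c2 this
    show f p.1 p.2 = f' p.1 p.2
    rw [h4, hb]
  · rw [c1.closure_eq]
    refine hf.mono fun p hp => ⟨h1 _ hp.1.1 hp.2, mem_univ _⟩
  · refine hf'.mono fun p hp => ⟨h2 _ hp.1.1 (c2 hp.2), mem_univ _⟩

theorem contOn_prim' {I : Set ℝ} {n : ℝ → ℝ → ℝ} (h : ContinuousOn (uncurry n) (I ×ˢ univ)) :
    ContinuousOn (uncurry fun s y => ∫ z in (0:ℝ)..y, n s z) (I ×ˢ univ) := by
  have h0 : Continuous fun p : ↥I × ℝ => n p.1 p.2 :=
    h.comp_continuous (f := fun p : ↥I × ℝ => ((p.1 : ℝ), p.2)) (by fun_prop)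
      fun p => ⟨p.1.2, mem_univ _⟩
  have h1 : Continuous (uncurry fun (p : ↥I × ℝ) (z : ℝ) => n p.1 z) :=
    h0.comp (f := fun q : (↥I × ℝ) × ℝ => (q.1.1, q.2)) (by fun_prop)
  have h2 := intervalIntegral.continuous_parametric_intervalIntegral_of_continuous h1
    (a₀ := 0) (μ := volume) (s := fun p : ↥I × ℝ => p.2) (by fun_prop)
  rw [continuousOn_iff_continuous_domRestrict]
  exact h2.comp (f := fun p : ↥(I ×ˢ (univ : Set ℝ)) => ((⟨p.1.1, p.2.1⟩ : ↥I), p.1.2))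
    (by fun_prop)

/-- Continuity of the right-hand side. -/
theorem Sol.cont_rhs {I J : Set ℝ} {g v w : ℝ → ℝ → ℝ} (h : Sol I J g v w) (hJ : J ⊆ I) :
    ContinuousOn (uncurry fun s y => w s y + qG g v s y) (J ×ˢ univ) := by
  have h1 : J ×ˢ (univ : Set ℝ) ⊆ I ×ˢ univ := by gcongr
  exact h.cw.add ((((contOn_prim' h.cg).mul h.cv).sub (h.cg.pow 2)).mono h1)

theorem Sol.cont_rhs_time {I J : Set ℝ} {g v w : ℝ → ℝ → ℝ} (h : Sol I J g v w) (hJ : J ⊆ I)
    (y : ℝ) : ContinuousOn (fun s => w s y + qG g v s y) J :=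
  (h.cont_rhs hJ).comp (f := fun s : ℝ => (s, y)) (by fun_prop) fun s hs => ⟨hs, mem_univ _⟩

/-- Gluing. -/
theorem Sol.glue {a b c : ℝ} {g v w g' v' w' : ℝ → ℝ → ℝ} (hab : a < b) (hbc : b < c)
    (h : Sol (Icc a b) (Ioc a b) g v w) (h' : Sol (Icc b c) (Icc b c) g' v' w')
    (eg : g b = g' b) (ev : v b = v' b) (ew : w b = w' b) :
    Sol (Icc a c) (Ioc a c) (fun t => if t ≤ b then g t else g' t)
      (fun t => if t ≤ b then v t else v' t) (fun t => if t ≤ b then w t else w' t) := by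
  have m1 : ∀ t ∈ Icc a c, t ≤ b → t ∈ Icc a b := fun t ht hb => ⟨ht.1, hb⟩
  have m2 : ∀ t ∈ Icc a c, b ≤ t → t ∈ Icc b c := fun t ht hb => ⟨hb, ht.2⟩
  have m3 : ∀ t ∈ Ioc a c, t ≤ b → t ∈ Ioc a b := fun t ht hb => ⟨ht.1, hb⟩
  have m4 : ∀ t ∈ Ioc a c, b ≤ t → t ∈ Icc b c := fun t ht hb => ⟨hb, ht.2⟩
  refine ⟨glue_cont h.cg h'.cg m1 m2 eg, glue_cont h.cv h'.cv m1 m2 ev,
    glue_cont h.cw h'.cw m3 m4 ew, ?_, ?_, ?_, ?_, ?_, ?_⟩
  · intro t ht y
    by_cases hb : t ≤ b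
    · simp only [hb, if_true]; exact h.dg t ⟨ht.1, hb⟩ y
    · simp only [hb, if_false]; exact h'.dg t ⟨by linarith, ht.2⟩ y
  · intro t ht y
    by_cases hb : t ≤ b
    · simp only [hb, if_true]; exact h.dv t ⟨ht.1, hb⟩ y
    · simp only [hb, if_false]; exact h'.dv t ⟨by linarith, ht.2⟩ y
  · intro t ht y
    by_cases hb : t ≤ b
    · simp only [hb, if_true]; exact h.odd t ⟨ht.1, hb⟩ y
    · simp only [hb, if_false]; exact h'.odd t ⟨by linarith, ht.2⟩ y
  · obtain ⟨C, hC⟩ := h.bd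
    obtain ⟨C', hC'⟩ := h'.bd
    refine ⟨max C C', fun t ht y => ?_⟩
    have := om_pos y
    by_cases hb : t ≤ b
    · simp only [hb, if_true]
      have := hC t ⟨ht.1, hb⟩ y
      exact ⟨this.1.trans (by gcongr; exact le_max_left _ _),
        this.2.trans (by gcongr; exact le_max_left _ _)⟩
    · simp only [hb, if_false]
      have := hC' t ⟨by linarith, ht.2⟩ y
      exact ⟨this.1.trans (by gcongr; exact le_max_right _ _),
        this.2.trans (by gcongr; exact le_max_right _ _)⟩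
  · intro a' ha'
    obtain ⟨C', hC'⟩ := h'.bw b ⟨le_rfl, hbc.le⟩
    by_cases hab' : a' ≤ b
    · obtain ⟨C, hC⟩ := h.bw a' ⟨ha'.1, hab'⟩
      refine ⟨max C C', fun t ht hat y => ?_⟩
      have := om_pos y
      by_cases hb : t ≤ b
      · simp only [hb, if_true]
        exact (hC t ⟨ht.1, hb⟩ hat y).trans (by gcongr; exact le_max_left _ _)
      · simp only [hb, if_false]
        exact (hC' t ⟨by linarith, ht.2⟩ (by linarith) y).trans (by gcongr; exact le_max_right _ _)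
    · refine ⟨C', fun t ht hat y => ?_⟩
      have hb : ¬t ≤ b := by linarith
      simp only [hb, if_false]
      exact hC' t ⟨by linarith, ht.2⟩ (by linarith) y
  · intro t1 h1 t2 h2 h12 y hy
    set gg : ℝ → ℝ → ℝ := fun t => if t ≤ b then g t else g' t with hgg
    set vv : ℝ → ℝ → ℝ := fun t => if t ≤ b then v t else v' t with hvv
    set ww : ℝ → ℝ → ℝ := fun t => if t ≤ b then w t else w' t with hww
    have q1 : ∀ s, s ≤ b → ww s y + qG gg vv s y = w s y + qG g v s y := fun s hs => by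
      unfold qG; simp only [hgg, hvv, hww, hs, if_true]
    have q2 : ∀ s, b ≤ s → ww s y + qG gg vv s y = w' s y + qG g' v' s y := fun s hs => by
      rcases eq_or_lt_of_le hs with hs' | hs'
      · rw [q1 s hs'.symm.le]; unfold qG; rw [← hs', eg, ev, ew]
      · unfold qG; simp only [hgg, hvv, hww, not_le.2 hs', if_false]
    have e1 : ∀ s1 s2, s1 ≤ s2 → s2 ≤ b → a < s1 →
        gg s2 y - gg s1 y = ∫ s in s1..s2, (ww s y + qG gg vv s y) := by
      intro s1 s2 h12 hb ha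
      have := h.ti s1 ⟨ha, h12.trans hb⟩ s2 ⟨ha.trans_le h12, hb⟩ h12 y hy
      have e2 : gg s2 y - gg s1 y = g s2 y - g s1 y := by
        simp only [hgg, hb, h12.trans hb, if_true]
      rw [e2, this]
      refine intervalIntegral.integral_congr fun s hs => ?_
      rw [uIcc_of_le h12] at hs
      exact (q1 s (hs.2.trans hb)).symm
    have hgb : ∀ s, b ≤ s → gg s = g' s := fun s hs => by
      rcases eq_or_lt_of_le hs with hs' | hs'
      · simp only [hgg, ← hs', le_refl, if_true, eg]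
      · simp only [hgg, not_le.2 hs', if_false]
    have e3 : ∀ s1 s2, s1 ≤ s2 → b ≤ s1 → s2 ≤ c →
        gg s2 y - gg s1 y = ∫ s in s1..s2, (ww s y + qG gg vv s y) := by
      intro s1 s2 h12 hb hc
      have := h'.ti s1 ⟨hb, h12.trans hc⟩ s2 ⟨hb.trans h12, hc⟩ h12 y hy
      rw [hgb s1 hb, hgb s2 (hb.trans h12), this]
      refine intervalIntegral.integral_congr fun s hs => ?_
      rw [uIcc_of_le h12] at hs
      exact (q2 s (hb.trans hs.1)).symm
    rcases le_total t2 b with hb | hb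
    · exact e1 t1 t2 h12 hb h1.1
    · rcases le_total b t1 with hb' | hb'
      · exact e3 t1 t2 h12 hb' h2.2
      · have f1 := e1 t1 b hb' le_rfl h1.1
        have f2 := e3 b t2 hb le_rfl h2.2
        have i1 : IntervalIntegrable (fun s => ww s y + qG gg vv s y) volume t1 b := by
          have hc1 : ContinuousOn (fun s => w s y + qG g v s y) (Icc t1 b) :=
            (h.cont_rhs_time Ioc_subset_Icc_self y).mono fun s hs => ⟨h1.1.trans_le hs.1, hs.2⟩
          have hc2 : ContinuousOn (fun s => ww s y + qG gg vv s y) (Icc t1 b) :=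
            hc1.congr fun s hs => q1 s hs.2
          exact hc2.intervalIntegrable_of_Icc hb'
        have i2 : IntervalIntegrable (fun s => ww s y + qG gg vv s y) volume b t2 := by
          have hc1 : ContinuousOn (fun s => w' s y + qG g' v' s y) (Icc b t2) :=
            (h'.cont_rhs_time Subset.rfl y).mono fun s hs => ⟨hs.1, hs.2.trans h2.2⟩
          have hc2 : ContinuousOn (fun s => ww s y + qG gg vv s y) (Icc b t2) :=
            hc1.congr fun s hs => q2 s hs.1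
          exact hc2.intervalIntegrable_of_Icc hb
        rw [← intervalIntegral.integral_add_adjacent_intervals i1 i2, ← f1, ← f2]
        ring

end Pool.Agent.Lib.MP_79abb3_an
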