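import Pool.Agent.Lib.MP_79abb3_an.Space

/-!
Short time solver on the half line, with exponential weights.
-/

set_option autoImplicit false
set_option linter.unusedSectionVars false
set_option linter.unusedVariables false

open MeasureTheory Set Filter Topology Real ProbabilityTheory Function
open scoped BoundedContinuousFunction

namespace Pool.Agent.Lib.MP_79abb3_an

/-- The weight. -/
noncomputable def om (y : ℝ) : ℝ := exp (-|y|)

theorem om_pos (y : ℝ) : 0 < om y := exp_pos _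
theorem om_le (y : ℝ) : om y ≤ 1 := by
  rw [om, exp_le_one_iff]
  linarith [abs_nonneg y]
theorem om_cont : Continuous om := by unfold om; fun_prop
theorem om_eq (y : ℝ) : exp (-1 * |y|) = om y := by rw [om, neg_one_mul]
theorem om_abs (y : ℝ) : om |y| = om y := by rw [om, abs_abs, om]
theorem om_zero : om 0 = 1 := by simp [om]

theorem int_om {y : ℝ} (hy : 0 ≤ y) : ∫ z in (0:ℝ)..y, om z ≤ 1 := by
  have h1 : ∫ z in (0:ℝ)..y, om z = ∫ z in (0:ℝ)..y, exp (-z) := by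
    refine intervalIntegral.integral_congr fun z hz => ?_
    rw [uIcc_of_le hy] at hz
    show exp (-|z|) = exp (-z)
    rw [abs_of_nonneg hz.1]
  have h2 : ∫ z in (0:ℝ)..y, exp (-z) = 1 - exp (-y) := by
    rw [intervalIntegral.integral_eq_sub_of_hasDerivAt (f := fun z => -exp (-z))]
    · simp; ring
    · intro z _
      have := ((hasDerivAt_id z).neg.exp).neg
      refine this.congr_deriv ?_
      simp
    · exact (by fun_prop : Continuous fun z : ℝ => exp (-z)).intervalIntegrable _ _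
  rw [h1, h2]
  linarith [exp_pos (-y)]

theorem prim_om_le {f : ℝ → ℝ} {R y : ℝ} (hf : Continuous f) (hR : 0 ≤ R)
    (h : ∀ z, |f z| ≤ R * om z) (hy : 0 ≤ y) : |∫ z in (0:ℝ)..y, f z| ≤ R := by
  have h1 := intervalIntegral.norm_integral_le_of_norm_le (f := f) (g := fun z => R * om z)
    (μ := volume) hy (ae_of_all _ fun z _ => h z) ((om_cont.const_mul R).intervalIntegrable _ _)
  rw [intervalIntegral.integral_const_mul] at h1
  refine h1.trans ?_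
  calc R * _ ≤ R * 1 := by gcongr; exact int_om hy
    _ = R := mul_one R

theorem Wt1 {A : ℝ} {f : ℝ → ℝ} (hf : Continuous f) (h : ∀ y, |f y| ≤ A * om y) : Wt A 1 f :=
  ⟨hf, fun y => by rw [om_eq]; exact h y⟩

/-- Initial data. -/
structure Dat (R : ℝ) (g v : ℝ → ℝ) : Prop where
  c : Continuous v
  d : ∀ y, HasDerivAt g (v y) y
  odd : ∀ y, g (-y) = -g y
  bg : ∀ y, |g y| ≤ R * om y
  bv : ∀ y, |v y| ≤ R * om y

theorem Dat.cg {R : ℝ} {g v : ℝ → ℝ} (h : Dat R g v) : Continuous g :=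
  continuous_iff_continuousAt.2 fun y => (h.d y).continuousAt

theorem Dat.nonneg {R : ℝ} {g v : ℝ → ℝ} (h : Dat R g v) : 0 ≤ R := by
  have h1 := h.bg 0
  rw [om_zero, mul_one] at h1
  exact (abs_nonneg _).trans h1

/-- Components. -/
noncomputable def c1 {t0 : ℝ} (X : TS t0 →ᵇ ℝ × ℝ × ℝ) (s y : ℝ) : ℝ := om y * (ex X s y).1
noncomputable def c2 {t0 : ℝ} (X : TS t0 →ᵇ ℝ × ℝ × ℝ) (s y : ℝ) : ℝ := om y * (ex X s y).2.1
noncomputable def c3 {t0 : ℝ} (X : TS t0 →ᵇ ℝ × ℝ × ℝ) (s y : ℝ) : ℝ :=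
  (√s)⁻¹ * (om y * (ex X s y).2.2)

section comp
variable {t0 : ℝ} (X Y : TS t0 →ᵇ ℝ × ℝ × ℝ)

theorem c1_cont : ContinuousOn (uncurry (c1 X)) (Ioc 0 t0 ×ˢ univ) :=
  ((om_cont.comp continuous_snd).continuousOn).mul
    (continuous_fst.comp_continuousOn (ex_cont X.continuous))

theorem c2_cont : ContinuousOn (uncurry (c2 X)) (Ioc 0 t0 ×ˢ univ) :=
  ((om_cont.comp continuous_snd).continuousOn).mul
    ((continuous_fst.comp continuous_snd).comp_continuousOn (ex_cont X.continuous))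

theorem c3_cont : ContinuousOn (uncurry (c3 X)) (Ioc 0 t0 ×ˢ univ) := by
  refine ContinuousOn.mul (ContinuousOn.inv₀ (by fun_prop) fun p hp => (sqrt_pos.2 hp.1.1).ne') ?_
  exact ((om_cont.comp continuous_snd).continuousOn).mul
    ((continuous_snd.comp continuous_snd).comp_continuousOn (ex_cont X.continuous))

variable {X Y}

theorem c1_le {s : ℝ} (hs : s ∈ Ioc 0 t0) (y : ℝ) : |c1 X s y| ≤ ‖X‖ * om y := by
  rw [c1, ex_of_mem _ hs, abs_mul, abs_of_pos (om_pos y), mul_comm]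
  have := om_pos y
  gcongr
  exact (norm_fst_le _).trans (X.norm_coe_le_norm _)

theorem c2_le {s : ℝ} (hs : s ∈ Ioc 0 t0) (y : ℝ) : |c2 X s y| ≤ ‖X‖ * om y := by
  rw [c2, ex_of_mem _ hs, abs_mul, abs_of_pos (om_pos y), mul_comm]
  have := om_pos y
  gcongr
  exact (norm_fst_le _).trans ((norm_snd_le _).trans (X.norm_coe_le_norm _))

theorem c3_le {s : ℝ} (hs : s ∈ Ioc 0 t0) (y : ℝ) : |c3 X s y| ≤ (√s)⁻¹ * (‖X‖ * om y) := by
  rw [c3, ex_of_mem _ hs, abs_mul, abs_mul, abs_of_pos (om_pos y),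
    abs_of_nonneg (by positivity : 0 ≤ (√s)⁻¹), mul_comm (om y)]
  have := om_pos y
  gcongr
  exact (norm_snd_le _).trans ((norm_snd_le _).trans (X.norm_coe_le_norm _))

theorem ex_sub_eq {s : ℝ} (hs : s ∈ Ioc 0 t0) (y : ℝ) : ex (X - Y) s y = ex X s y - ex Y s y := by
  rw [ex_of_mem _ hs, ex_of_mem _ hs, ex_of_mem _ hs]; rfl

theorem c1_sub {s : ℝ} (hs : s ∈ Ioc 0 t0) (y : ℝ) : c1 X s y - c1 Y s y = c1 (X - Y) s y := by
  unfold c1; rw [ex_sub_eq hs]; simp; ring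

theorem c2_sub {s : ℝ} (hs : s ∈ Ioc 0 t0) (y : ℝ) : c2 X s y - c2 Y s y = c2 (X - Y) s y := by
  unfold c2; rw [ex_sub_eq hs]; simp; ring

theorem c3_sub {s : ℝ} (hs : s ∈ Ioc 0 t0) (y : ℝ) : c3 X s y - c3 Y s y = c3 (X - Y) s y := by
  unfold c3; rw [ex_sub_eq hs]; simp; ring

end comp

/-- Slices are continuous. -/
theorem slice_cont {t0 : ℝ} {n : ℝ → ℝ → ℝ} (h : ContinuousOn (uncurry n) (Ioc 0 t0 ×ˢ univ))
    {s : ℝ} (hs : s ∈ Ioc 0 t0) : Continuous (n s) :=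
  h.comp_continuous (f := fun y : ℝ => (s, y)) (by fun_prop) fun y => ⟨hs, mem_univ _⟩

/-- The quadratic terms. -/
noncomputable def qG (g v : ℝ → ℝ → ℝ) (s y : ℝ) : ℝ := (∫ z in (0:ℝ)..y, g s z) * v s y - g s y ^ 2
noncomputable def qN (g v w : ℝ → ℝ → ℝ) (s y : ℝ) : ℝ :=
  (∫ z in (0:ℝ)..y, g s z) * w s y - g s y * v s y

/-- A three-component state which is consistent. -/
structure Con (t0 : ℝ) (g v w : ℝ → ℝ → ℝ) : Prop where
  cg : ContinuousOn (uncurry g) (Ioc 0 t0 ×ˢ univ)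
  cv : ContinuousOn (uncurry v) (Ioc 0 t0 ×ˢ univ)
  cw : ContinuousOn (uncurry w) (Ioc 0 t0 ×ˢ univ)
  dg : ∀ s ∈ Ioc 0 t0, ∀ y, HasDerivAt (g s) (v s y) y
  dv : ∀ s ∈ Ioc 0 t0, ∀ y, HasDerivAt (v s) (w s y) y
  z : ∀ s ∈ Ioc 0 t0, g s 0 = 0

/-- Size of a state. -/
structure Siz (t0 R : ℝ) (g v w : ℝ → ℝ → ℝ) : Prop where
  bg : ∀ s ∈ Ioc 0 t0, ∀ y, |g s y| ≤ R * om y
  bv : ∀ s ∈ Ioc 0 t0, ∀ y, |v s y| ≤ R * om y
  bw : ∀ s ∈ Ioc 0 t0, ∀ y, |w s y| ≤ (√s)⁻¹ * (R * om y)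

/-- even extension -/
noncomputable def evE (m : ℝ → ℝ → ℝ) (s y : ℝ) : ℝ := m s |y|

theorem qG_cont {t0 : ℝ} {g v : ℝ → ℝ → ℝ} (hg : ContinuousOn (uncurry g) (Ioc 0 t0 ×ˢ univ))
    (hv : ContinuousOn (uncurry v) (Ioc 0 t0 ×ˢ univ)) :
    ContinuousOn (uncurry (qG g v)) (Ioc 0 t0 ×ˢ univ) :=
  ((contOn_prim hg).mul hv).sub (hg.pow 2)

theorem qN_cont {t0 : ℝ} {g v w : ℝ → ℝ → ℝ} (hg : ContinuousOn (uncurry g) (Ioc 0 t0 ×ˢ univ))
    (hv : ContinuousOn (uncurry v) (Ioc 0 t0 ×ˢ univ))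
    (hw : ContinuousOn (uncurry w) (Ioc 0 t0 ×ˢ univ)) :
    ContinuousOn (uncurry (qN g v w)) (Ioc 0 t0 ×ˢ univ) :=
  ((contOn_prim hg).mul hw).sub (hg.mul hv)

theorem evE_cont {t0 : ℝ} {m : ℝ → ℝ → ℝ} (h : ContinuousOn (uncurry m) (Ioc 0 t0 ×ˢ univ)) :
    ContinuousOn (uncurry (evE m)) (Ioc 0 t0 ×ˢ univ) :=
  h.comp (f := fun p : ℝ × ℝ => (p.1, |p.2|)) (by fun_prop) fun p hp => ⟨hp.1, mem_univ _⟩

theorem qG_hasDerivAt {g v w : ℝ → ℝ → ℝ} {s y : ℝ} (hc : Continuous (g s))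
    (hg : HasDerivAt (g s) (v s y) y) (hv : HasDerivAt (v s) (w s y) y) :
    HasDerivAt (qG g v s) (qN g v w s y) y := by
  have h1 := (hc.integral_hasStrictDerivAt 0 y).hasDerivAt
  have h2 := (h1.mul hv).sub (hg.pow 2)
  refine h2.congr_deriv ?_
  unfold qN
  simp
  ring

theorem qG_zero {g v : ℝ → ℝ → ℝ} {s : ℝ} (h : g s 0 = 0) : qG g v s 0 = 0 := by
  simp [qG, h]

/-- Odd extension of a function vanishing at zero is differentiable. -/
theorem oddE_hasDerivAt {m m' : ℝ → ℝ → ℝ} {s : ℝ} (hm : ∀ y, HasDerivAt (m s) (m' s y) y)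
    (h0 : m s 0 = 0) (y : ℝ) : HasDerivAt (oddE m s) (evE m' s y) y := by
  rcases lt_trichotomy y 0 with hy | hy | hy
  · have e : oddE m s =ᶠ[𝓝 y] fun z => -m s (-z) := by
      filter_upwards [Iio_mem_nhds hy] with z hz
      have hz' : z < 0 := hz
      rw [oddE_cases h0, if_neg (not_le.2 hz'), abs_of_neg hz']
    refine HasDerivAt.congr_of_eventuallyEq ?_ e
    have := ((hm (-y)).comp y (hasDerivAt_neg y)).neg
    refine this.congr_deriv ?_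
    rw [evE, abs_of_neg hy]; ring
  · subst hy
    have h1 : HasDerivWithinAt (oddE m s) (evE m' s 0) (Ici 0) 0 := by
      have := (hm 0).hasDerivWithinAt (s := Ici (0:ℝ))
      rw [evE, abs_zero]
      refine this.congr (fun z hz => ?_) ?_
      · rw [oddE_of_nonneg hz h0]
      · rw [oddE_of_nonneg le_rfl h0]
    have h2 : HasDerivWithinAt (oddE m s) (evE m' s 0) (Iic 0) 0 := by
      have h3 : HasDerivAt (fun z => -m s (-z)) (m' s 0) 0 := by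
        have := ((by simpa using hm 0 : HasDerivAt (m s) (m' s 0) (-0)).comp (0:ℝ)
          (hasDerivAt_neg 0)).neg
        refine this.congr_deriv ?_
        ring
      rw [evE, abs_zero]
      have e : ∀ z ≤ 0, oddE m s z = -m s (-z) := fun z hz => by
        rw [← oddE_of_nonneg (m := m) (s := s) (y := -z) (by linarith) h0, oddE_neg, neg_neg]
      exact (h3.hasDerivWithinAt (s := Iic (0:ℝ))).congr (fun z hz => e z hz) (e 0 le_rfl)
    have := h1.union h2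
    rw [Ici_union_Iic] at this
    exact hasDerivWithinAt_univ.1 this
  · have e : oddE m s =ᶠ[𝓝 y] m s := by
      filter_upwards [Ioi_mem_nhds hy] with z hz
      exact oddE_of_nonneg (le_of_lt hz) h0
    refine HasDerivAt.congr_of_eventuallyEq ?_ e
    rw [evE, abs_of_pos hy]
    exact hm y

theorem one_le_isq {s t0 : ℝ} (hs : s ∈ Ioc 0 t0) (ht0 : t0 ≤ 1) : 1 ≤ (√s)⁻¹ := by
  rw [one_le_inv₀ (sqrt_pos.2 hs.1), sqrt_le_one]
  exact hs.2.trans ht0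

/-- Sources from states. -/
theorem src_G {t0 R : ℝ} {g v w : ℝ → ℝ → ℝ} (ht0 : t0 ≤ 1) (hR : 0 ≤ R) (hc : Con t0 g v w)
    (hs : Siz t0 R g v w) : Src t0 (2 * R ^ 2) 1 (oddE (qG g v)) := by
  refine ⟨oddE_cont (qG_cont hc.cg hc.cv), fun s hs' y => ?_⟩
  have h1 : ∀ z, 0 ≤ z → |qG g v s z| ≤ 2 * R ^ 2 * om z := by
    intro z hz
    have b1 := prim_om_le (slice_cont hc.cg hs') hR (hs.bg s hs') hz
    have b2 := hs.bv s hs' z
    have b3 := hs.bg s hs' z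
    have b4 := om_pos z
    have b5 := om_le z
    calc |qG g v s z| ≤ |(∫ z in (0:ℝ)..z, g s z) * v s z| + |g s z ^ 2| := abs_sub _ _
      _ = |∫ z in (0:ℝ)..z, g s z| * |v s z| + |g s z| * |g s z| := by
          rw [abs_mul, sq, abs_mul]
      _ ≤ R * (R * om z) + (R * 1) * (R * om z) := by
          gcongr
          exact b3.trans (by gcongr)
      _ = _ := by ring
  have h2 := one_le_isq hs' ht0
  rw [om_eq, oddE_cases (qG_zero (hc.z s hs'))]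
  have h3 := h1 |y| (abs_nonneg y)
  rw [om_abs] at h3
  have h4 : 2 * R ^ 2 * om y ≤ 2 * R ^ 2 * (√s)⁻¹ * om y := by
    have := om_pos y
    calc 2 * R ^ 2 * om y = 2 * R ^ 2 * 1 * om y := by ring
      _ ≤ _ := by gcongr
  split_ifs
  · exact h3.trans h4
  · rw [abs_neg]; exact h3.trans h4

theorem src_N {t0 R : ℝ} {g v w : ℝ → ℝ → ℝ} (ht0 : t0 ≤ 1) (hR : 0 ≤ R) (hc : Con t0 g v w)
    (hs : Siz t0 R g v w) : Src t0 (2 * R ^ 2) 1 (evE (qN g v w)) := by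
  refine ⟨evE_cont (qN_cont hc.cg hc.cv hc.cw), fun s hs' y => ?_⟩
  have h2 := one_le_isq hs' ht0
  have h1 : ∀ z, 0 ≤ z → |qN g v w s z| ≤ 2 * R ^ 2 * (√s)⁻¹ * om z := by
    intro z hz
    have b1 := prim_om_le (slice_cont hc.cg hs') hR (hs.bg s hs') hz
    have b2 := hs.bv s hs' z
    have b3 := hs.bg s hs' z
    have b6 := hs.bw s hs' z
    have b4 := om_pos z
    have b5 := om_le z
    calc |qN g v w s z| ≤ |(∫ z in (0:ℝ)..z, g s z) * w s z| + |g s z * v s z| := abs_sub _ _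
      _ = |∫ z in (0:ℝ)..z, g s z| * |w s z| + |g s z| * |v s z| := by
          rw [abs_mul, abs_mul]
      _ ≤ R * ((√s)⁻¹ * (R * om z)) + ((√s)⁻¹ * R) * (R * om z) := by
          gcongr
          calc |g s z| ≤ R * om z := b3
            _ ≤ R * 1 := by gcongr
            _ = 1 * R := by ring
            _ ≤ (√s)⁻¹ * R := by gcongr
      _ = _ := by ring
  rw [om_eq]
  have h3 := h1 |y| (abs_nonneg y)
  rwa [om_abs] at h3

theorem src_G_diff {t0 R d : ℝ} {g v w g' v' w' : ℝ → ℝ → ℝ} (ht0 : t0 ≤ 1) (hR : 0 ≤ R)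
    (hd0 : 0 ≤ d)
    (hc : Con t0 g v w) (hs : Siz t0 R g v w) (hc' : Con t0 g' v' w') (hs' : Siz t0 R g' v' w')
    (hd : Siz t0 d (fun s y => g s y - g' s y) (fun s y => v s y - v' s y)
      (fun s y => w s y - w' s y)) :
    Src t0 (4 * R * d) 1 (fun s y => oddE (qG g v) s y - oddE (qG g' v') s y) := by
  refine ⟨(oddE_cont (qG_cont hc.cg hc.cv)).sub (oddE_cont (qG_cont hc'.cg hc'.cv)),
    fun s hs0 y => ?_⟩
  have h2 := one_le_isq hs0 ht0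
  have h1 : ∀ z, 0 ≤ z → |qG g v s z - qG g' v' s z| ≤ 4 * R * d * om z := by
    intro z hz
    have b1 := prim_om_le (slice_cont hc'.cg hs0) hR (hs'.bg s hs0) hz
    have b1' : |∫ x in (0:ℝ)..z, (g s x - g' s x)| ≤ d :=
      prim_om_le ((slice_cont hc.cg hs0).sub (slice_cont hc'.cg hs0)) hd0 (hd.bg s hs0) hz
    rw [intervalIntegral.integral_sub ((slice_cont hc.cg hs0).intervalIntegrable _ _)
      ((slice_cont hc'.cg hs0).intervalIntegrable _ _)] at b1'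
    have b2 := hs.bv s hs0 z
    have b2' := hd.bv s hs0 z
    have b3 := hs.bg s hs0 z
    have b3' := hs'.bg s hs0 z
    have b3'' := hd.bg s hs0 z
    have b4 := om_pos z
    have b5 := om_le z
    have e0 : qG g v s z - qG g' v' s z = ((∫ x in (0:ℝ)..z, g s x) - ∫ x in (0:ℝ)..z, g' s x) * v s z
        + (∫ x in (0:ℝ)..z, g' s x) * (v s z - v' s z) - (g s z - g' s z) * (g s z + g' s z) := by
      unfold qG; ring
    have b6 : |g s z + g' s z| ≤ 2 * R := by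
      have := abs_add_le (g s z) (g' s z)
      have : R * om z ≤ R * 1 := by gcongr
      linarith
    rw [e0]
    calc _ ≤ |((∫ x in (0:ℝ)..z, g s x) - ∫ x in (0:ℝ)..z, g' s x) * v s z
        + (∫ x in (0:ℝ)..z, g' s x) * (v s z - v' s z)| + |(g s z - g' s z) * (g s z + g' s z)| :=
          abs_sub _ _
      _ ≤ |((∫ x in (0:ℝ)..z, g s x) - ∫ x in (0:ℝ)..z, g' s x) * v s z| +
          |(∫ x in (0:ℝ)..z, g' s x) * (v s z - v' s z)| + |(g s z - g' s z) * (g s z + g' s z)| := by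
          gcongr; exact abs_add_le _ _
      _ = |(∫ x in (0:ℝ)..z, g s x) - ∫ x in (0:ℝ)..z, g' s x| * |v s z| +
          |∫ x in (0:ℝ)..z, g' s x| * |v s z - v' s z| + |g s z - g' s z| * |g s z + g' s z| := by
          rw [abs_mul, abs_mul, abs_mul]
      _ ≤ d * (R * om z) + R * (d * om z) + (d * om z) * (2 * R) := by gcongr
      _ = _ := by ring
  rw [om_eq, oddE_cases (qG_zero (hc.z s hs0)), oddE_cases (qG_zero (hc'.z s hs0))]
  have h3 := h1 |y| (abs_nonneg y)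
  rw [om_abs] at h3
  have h4 : 4 * R * d * om y ≤ 4 * R * d * (√s)⁻¹ * om y := by
    have := om_pos y
    calc 4 * R * d * om y = 4 * R * d * 1 * om y := by ring
      _ ≤ _ := by gcongr
  split_ifs
  · exact h3.trans h4
  · rw [show -qG g v s |y| - -qG g' v' s |y| = -(qG g v s |y| - qG g' v' s |y|) by ring, abs_neg]
    exact h3.trans h4

theorem src_N_diff {t0 R d : ℝ} {g v w g' v' w' : ℝ → ℝ → ℝ} (ht0 : t0 ≤ 1) (hR : 0 ≤ R)
    (hd0 : 0 ≤ d)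
    (hc : Con t0 g v w) (hs : Siz t0 R g v w) (hc' : Con t0 g' v' w') (hs' : Siz t0 R g' v' w')
    (hd : Siz t0 d (fun s y => g s y - g' s y) (fun s y => v s y - v' s y)
      (fun s y => w s y - w' s y)) :
    Src t0 (4 * R * d) 1 (fun s y => evE (qN g v w) s y - evE (qN g' v' w') s y) := by
  refine ⟨(evE_cont (qN_cont hc.cg hc.cv hc.cw)).sub (evE_cont (qN_cont hc'.cg hc'.cv hc'.cw)),
    fun s hs0 y => ?_⟩
  have h2 := one_le_isq hs0 ht0
  have h1 : ∀ z, 0 ≤ z → |qN g v w s z - qN g' v' w' s z| ≤ 4 * R * d * (√s)⁻¹ * om z := by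
    intro z hz
    have b1 := prim_om_le (slice_cont hc'.cg hs0) hR (hs'.bg s hs0) hz
    have b1' : |∫ x in (0:ℝ)..z, (g s x - g' s x)| ≤ d :=
      prim_om_le ((slice_cont hc.cg hs0).sub (slice_cont hc'.cg hs0)) hd0 (hd.bg s hs0) hz
    rw [intervalIntegral.integral_sub ((slice_cont hc.cg hs0).intervalIntegrable _ _)
      ((slice_cont hc'.cg hs0).intervalIntegrable _ _)] at b1'
    have b2 := hs.bw s hs0 z
    have b2' := hd.bw s hs0 z
    have b2'' := hd.bv s hs0 z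
    have b3 := hs.bv s hs0 z
    have b3' := hs'.bg s hs0 z
    have b3'' := hd.bg s hs0 z
    have b4 := om_pos z
    have b5 := om_le z
    have e0 : qN g v w s z - qN g' v' w' s z =
        ((∫ x in (0:ℝ)..z, g s x) - ∫ x in (0:ℝ)..z, g' s x) * w s z
        + (∫ x in (0:ℝ)..z, g' s x) * (w s z - w' s z) -
        ((g s z - g' s z) * v s z + g' s z * (v s z - v' s z)) := by
      unfold qN; ring
    have b6 : |g' s z| ≤ (√s)⁻¹ * R := by
      calc |g' s z| ≤ R * om z := b3'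
        _ ≤ R * 1 := by gcongr
        _ = 1 * R := by ring
        _ ≤ _ := by gcongr
    have b7 : |v s z| ≤ (√s)⁻¹ * R := by
      calc |v s z| ≤ R * om z := b3
        _ ≤ R * 1 := by gcongr
        _ = 1 * R := by ring
        _ ≤ _ := by gcongr
    rw [e0]
    calc _ ≤ |((∫ x in (0:ℝ)..z, g s x) - ∫ x in (0:ℝ)..z, g' s x) * w s z
        + (∫ x in (0:ℝ)..z, g' s x) * (w s z - w' s z)| +
          |(g s z - g' s z) * v s z + g' s z * (v s z - v' s z)| :=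
          abs_sub _ _
      _ ≤ (|((∫ x in (0:ℝ)..z, g s x) - ∫ x in (0:ℝ)..z, g' s x) * w s z| +
          |(∫ x in (0:ℝ)..z, g' s x) * (w s z - w' s z)|) +
          (|(g s z - g' s z) * v s z| + |g' s z * (v s z - v' s z)|) := by
          gcongr
          · exact abs_add_le _ _
          · exact abs_add_le _ _
      _ = (|(∫ x in (0:ℝ)..z, g s x) - ∫ x in (0:ℝ)..z, g' s x| * |w s z| +
          |∫ x in (0:ℝ)..z, g' s x| * |w s z - w' s z|) +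
          (|g s z - g' s z| * |v s z| + |g' s z| * |v s z - v' s z|) := by
          rw [abs_mul, abs_mul, abs_mul, abs_mul]
      _ ≤ (d * ((√s)⁻¹ * (R * om z)) + R * ((√s)⁻¹ * (d * om z))) +
          ((d * om z) * ((√s)⁻¹ * R) + ((√s)⁻¹ * R) * (d * om z)) := by gcongr
      _ = _ := by ring
  rw [om_eq]
  have h3 := h1 |y| (abs_nonneg y)
  rwa [om_abs] at h3

/-- The set of consistent states. -/
def Cs (t0 R : ℝ) : Set (TS t0 →ᵇ ℝ × ℝ × ℝ) :=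
  {X | ‖X‖ ≤ R ∧ ∀ s ∈ Ioc 0 t0, (∀ y, c1 X s y - c1 X s 0 = ∫ z in (0:ℝ)..y, c2 X s z) ∧
    (∀ y, c2 X s y - c2 X s 0 = ∫ z in (0:ℝ)..y, c3 X s z) ∧ c1 X s 0 = 0}

theorem Cs_closed (t0 R : ℝ) : IsClosed (Cs t0 R) := by
  have h1 : ∀ s ∈ Ioc 0 t0, ∀ y, Continuous fun X : TS t0 →ᵇ ℝ × ℝ × ℝ => c1 X s y := by
    intro s hs y
    have : (fun X : TS t0 →ᵇ ℝ × ℝ × ℝ => c1 X s y) = fun X => om y * (X (⟨s, hs⟩, y)).1 := by
      ext X; rw [c1, ex_of_mem _ hs]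
    rw [this]
    have := ContinuousEvalConst.continuous_eval_const (F := TS t0 →ᵇ ℝ × ℝ × ℝ)
      ((⟨s, hs⟩, y) : TS t0)
    fun_prop
  have h2 : ∀ s ∈ Ioc 0 t0, Continuous (uncurry fun (X : TS t0 →ᵇ ℝ × ℝ × ℝ) y => c2 X s y) := by
    intro s hs
    have : (uncurry fun (X : TS t0 →ᵇ ℝ × ℝ × ℝ) y => c2 X s y) =
        fun p => om p.2 * (p.1 (⟨s, hs⟩, p.2)).2.1 := by
      ext p; show c2 p.1 s p.2 = _; rw [c2, ex_of_mem _ hs]
    rw [this]
    have h3 : Continuous fun p : (TS t0 →ᵇ ℝ × ℝ × ℝ) × ℝ => p.1 (⟨s, hs⟩, p.2) :=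
      (ContinuousEval.continuous_eval (F := TS t0 →ᵇ ℝ × ℝ × ℝ)).comp
        (f := fun p : (TS t0 →ᵇ ℝ × ℝ × ℝ) × ℝ => (p.1, ((⟨s, hs⟩, p.2) : TS t0))) (by fun_prop)
    exact (om_cont.comp continuous_snd).mul (continuous_fst.comp (continuous_snd.comp h3))
  have h3 : ∀ s ∈ Ioc 0 t0, Continuous (uncurry fun (X : TS t0 →ᵇ ℝ × ℝ × ℝ) y => c3 X s y) := by
    intro s hs
    have : (uncurry fun (X : TS t0 →ᵇ ℝ × ℝ × ℝ) y => c3 X s y) =
        fun p => (√s)⁻¹ * (om p.2 * (p.1 (⟨s, hs⟩, p.2)).2.2) := by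
      ext p; show c3 p.1 s p.2 = _; rw [c3, ex_of_mem _ hs]
    rw [this]
    have h3 : Continuous fun p : (TS t0 →ᵇ ℝ × ℝ × ℝ) × ℝ => p.1 (⟨s, hs⟩, p.2) :=
      (ContinuousEval.continuous_eval (F := TS t0 →ᵇ ℝ × ℝ × ℝ)).comp
        (f := fun p : (TS t0 →ᵇ ℝ × ℝ × ℝ) × ℝ => (p.1, ((⟨s, hs⟩, p.2) : TS t0))) (by fun_prop)
    exact ((om_cont.comp continuous_snd).mul
      (continuous_snd.comp (continuous_snd.comp h3))).const_mul _
  have h2' : ∀ s ∈ Ioc 0 t0, ∀ y, Continuous fun X : TS t0 →ᵇ ℝ × ℝ × ℝ => c2 X s y :=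
    fun s hs y => (h2 s hs).comp (f := fun X : TS t0 →ᵇ ℝ × ℝ × ℝ => (X, y)) (by fun_prop)
  have e : Cs t0 R = {X | ‖X‖ ≤ R} ∩ ⋂ s ∈ Ioc 0 t0,
      ((⋂ y, {X | c1 X s y - c1 X s 0 = ∫ z in (0:ℝ)..y, c2 X s z}) ∩
      ((⋂ y, {X | c2 X s y - c2 X s 0 = ∫ z in (0:ℝ)..y, c3 X s z}) ∩ {X | c1 X s 0 = 0})) := by
    ext X
    simp only [Cs, mem_ofPred_eq, mem_inter_iff, mem_iInter]
  rw [e]
  refine (isClosed_le continuous_norm continuous_const).inter ?_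
  refine isClosed_iInter fun s => isClosed_iInter fun hs => ?_
  refine IsClosed.inter (isClosed_iInter fun y => ?_) (IsClosed.inter (isClosed_iInter fun y => ?_) ?_)
  · exact isClosed_eq ((h1 s hs y).sub (h1 s hs 0))
      (intervalIntegral.continuous_parametric_intervalIntegral_of_continuous' (h2 s hs) 0 y)
  · exact isClosed_eq ((h2' s hs y).sub (h2' s hs 0))
      (intervalIntegral.continuous_parametric_intervalIntegral_of_continuous' (h3 s hs) 0 y)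
  · exact isClosed_eq (h1 s hs 0) continuous_const

theorem Cs_con {t0 R : ℝ} {X : TS t0 →ᵇ ℝ × ℝ × ℝ} (h : X ∈ Cs t0 R) :
    Con t0 (c1 X) (c2 X) (c3 X) := by
  refine ⟨c1_cont X, c2_cont X, c3_cont X, fun s hs y => ?_, fun s hs y => ?_,
    fun s hs => (h.2 s hs).2.2⟩
  · have e : c1 X s = fun y => c1 X s 0 + ∫ z in (0:ℝ)..y, c2 X s z := by
      ext y; rw [← (h.2 s hs).1 y]; ring
    rw [e]
    exact (((slice_cont (c2_cont X) hs).integral_hasStrictDerivAt 0 y).hasDerivAt).const_add _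
  · have e : c2 X s = fun y => c2 X s 0 + ∫ z in (0:ℝ)..y, c3 X s z := by
      ext y; rw [← (h.2 s hs).2.1 y]; ring
    rw [e]
    exact (((slice_cont (c3_cont X) hs).integral_hasStrictDerivAt 0 y).hasDerivAt).const_add _

theorem Cs_siz {t0 R : ℝ} {X : TS t0 →ᵇ ℝ × ℝ × ℝ} (h : X ∈ Cs t0 R) :
    Siz t0 R (c1 X) (c2 X) (c3 X) := by
  have hX := h.1
  refine ⟨fun s hs y => (c1_le hs y).trans ?_, fun s hs y => (c2_le hs y).trans ?_,
    fun s hs y => (c3_le hs y).trans ?_⟩ <;>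
  · have := om_pos y
    gcongr

theorem siz_diff {t0 : ℝ} (X Y : TS t0 →ᵇ ℝ × ℝ × ℝ) :
    Siz t0 (dist X Y) (fun s y => c1 X s y - c1 Y s y) (fun s y => c2 X s y - c2 Y s y)
      (fun s y => c3 X s y - c3 Y s y) := by
  refine ⟨fun s hs y => ?_, fun s hs y => ?_, fun s hs y => ?_⟩
  · rw [c1_sub hs, dist_eq_norm]; exact c1_le hs y
  · rw [c2_sub hs, dist_eq_norm]; exact c2_le hs y
  · rw [c3_sub hs, dist_eq_norm]; exact c3_le hs y

section maps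
variable {t0 R0 R : ℝ} {g0 v0 : ℝ → ℝ}

theorem Dat.wg (h : Dat R0 g0 v0) : Wt R0 1 g0 := Wt1 h.cg h.bg
theorem Dat.wv (h : Dat R0 g0 v0) : Wt R0 1 v0 := Wt1 h.c h.bv
theorem Dat.grg (h : Dat R0 g0 v0) : Gr R0 g0 := h.wg.gr zero_le_one
theorem Dat.grv (h : Dat R0 g0 v0) : Gr R0 v0 := h.wv.gr zero_le_one

/-- The three maps. -/
noncomputable def U1 (g0 : ℝ → ℝ) (G : ℝ → ℝ → ℝ) (s y : ℝ) : ℝ := H s g0 y + Duh G s y
noncomputable def U3 (v0 : ℝ → ℝ) (N : ℝ → ℝ → ℝ) (s y : ℝ) : ℝ := Dh s v0 y + DuhD N s y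

theorem U1_cont (ht0 : t0 ≤ 1) {C : ℝ} (h : Gr C g0) {A : ℝ} {n : ℝ → ℝ → ℝ} (hn : Src t0 A 1 n) :
    ContinuousOn (uncurry (U1 g0 n)) (Ioc 0 t0 ×ˢ univ) :=
  (h.continuousOn_H.mono (by
    intro p hp; exact ⟨hp.1.2.trans ht0, mem_univ _⟩)).add
    (hn.continuousOn_Duh zero_le_one le_rfl ht0)

theorem U3_cont (ht0 : t0 ≤ 1) {C : ℝ} (h : Gr C v0) {A : ℝ} {n : ℝ → ℝ → ℝ} (hn : Src t0 A 1 n) :
    ContinuousOn (uncurry (U3 v0 n)) (Ioc 0 t0 ×ˢ univ) :=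
  (h.continuousOn_Dh.mono (by
    intro p hp; exact ⟨⟨hp.1.1, hp.1.2.trans ht0⟩, mem_univ _⟩)).add
    (hn.continuousOn_DuhD zero_le_one le_rfl ht0)

theorem U1_le (ht0 : t0 ≤ 1) (h : Wt R0 1 g0) {A : ℝ} {n : ℝ → ℝ → ℝ} (hn : Src t0 A 1 n)
    {s : ℝ} (hs : s ∈ Ioc 0 t0) (y : ℝ) :
    |U1 g0 n s y| ≤ (R0 * cE + 2 * √s * (A * cE)) * om y := by
  have h1 := h.abs_H zero_le_one le_rfl (hs.2.trans ht0) y
  have h2 := hn.abs_Duh zero_le_one le_rfl ht0 hs y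
  rw [om_eq] at h1 h2
  refine (abs_add_le _ _).trans ?_
  linarith

theorem U3_le (ht0 : t0 ≤ 1) (h : Wt R0 1 v0) {A : ℝ} {n : ℝ → ℝ → ℝ} (hn : Src t0 A 1 n)
    {s : ℝ} (hs : s ∈ Ioc 0 t0) (y : ℝ) :
    √s * |U3 v0 n s y| ≤ (R0 * cE + 6 * √s * (A * cE)) * om y := by
  have h1 := h.abs_Dh zero_le_one le_rfl (hs.2.trans ht0) y
  have h2 := hn.abs_DuhD zero_le_one le_rfl ht0 hs y
  rw [om_eq] at h1 h2
  have h3 : 0 < √s := sqrt_pos.2 hs.1
  calc √s * |U3 v0 n s y| ≤ √s * ((√s)⁻¹ * (R0 * om y * cE) + 6 * (A * cE) * om y) := by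
        gcongr
        exact (abs_add_le _ _).trans (add_le_add h1 h2)
    _ = _ := by field_simp

theorem U1_hasDerivAt (ht0 : t0 ≤ 1) (h : Dat R0 g0 v0) {A A' : ℝ} {n N : ℝ → ℝ → ℝ}
    (hn : Src t0 A 1 n) (hN : Src t0 A' 1 N)
    (hd : ∀ s ∈ Ioc 0 t0, ∀ y, HasDerivAt (n s) (N s y) y) {s : ℝ} (hs : s ∈ Ioc 0 t0) (y : ℝ) :
    HasDerivAt (U1 g0 n s) (U1 v0 N s y) y := by
  have h1 := hasDerivAt_H' h.grg h.grv h.d (hs.2.trans ht0) y
  have h2 := hn.hasDerivAt_Duh zero_le_one le_rfl ht0 hs y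
  rw [DuhD_eq hn hN zero_le_one le_rfl ht0 hd hs y] at h2
  exact h1.add h2

theorem U3_hasDerivAt (ht0 : t0 ≤ 1) {C : ℝ} (h : Gr C v0) {A : ℝ} {N : ℝ → ℝ → ℝ}
    (hN : Src t0 A 1 N) {s : ℝ} (hs : s ∈ Ioc 0 t0) (y : ℝ) :
    HasDerivAt (U1 v0 N s) (U3 v0 N s y) y :=
  (h.hasDerivAt_H (hs.2.trans ht0) hs.1 y).add (hN.hasDerivAt_Duh zero_le_one le_rfl ht0 hs y)

theorem U1_zero (h : Dat R0 g0 v0) {n : ℝ → ℝ → ℝ} (hn : ∀ s y, n s (-y) = -n s y) (s y : ℝ) :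
    U1 g0 n s (-y) = -U1 g0 n s y := by
  unfold U1
  rw [H_odd h.odd, Duh_odd hn]; ring

theorem Con.src_hasDerivAt {g v w : ℝ → ℝ → ℝ} (hc : Con t0 g v w) :
    ∀ s ∈ Ioc 0 t0, ∀ y, HasDerivAt (oddE (qG g v) s) (evE (qN g v w) s y) y :=
  fun s hs y => oddE_hasDerivAt (m' := qN g v w)
    (fun y => qG_hasDerivAt (slice_cont hc.cg hs) (hc.dg s hs y) (hc.dv s hs y))
    (qG_zero (hc.z s hs)) y

/-- The short time solution. -/
structure Mild (t0 : ℝ) (g0 v0 : ℝ → ℝ) (g v w : ℝ → ℝ → ℝ) : Prop where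
  e1 : ∀ s ∈ Ioc 0 t0, ∀ y, g s y = U1 g0 (oddE (qG g v)) s y
  e2 : ∀ s ∈ Ioc 0 t0, ∀ y, v s y = U1 v0 (evE (qN g v w)) s y
  e3 : ∀ s ∈ Ioc 0 t0, ∀ y, w s y = U3 v0 (evE (qN g v w)) s y

theorem solveA (ht0 : t0 ∈ Ioc 0 1) (hd : Dat R0 g0 v0) (hR0 : 0 < R0)
    (hsm : 96 * cE ^ 2 * √t0 * R0 ≤ 1) :
    ∃ g v w : ℝ → ℝ → ℝ, Con t0 g v w ∧ Siz t0 (2 * R0 * cE) g v w ∧ Mild t0 g0 v0 g v w := by
  have hcE := cE_pos
  have ht0' := ht0.1
  set R := 2 * R0 * cE with hRd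
  have hR : 0 ≤ R := by positivity
  have hsq : ∀ t ∈ Ioc 0 t0, √t ≤ √t0 := fun t ht => sqrt_le_sqrt ht.2
  -- sources
  have sG : ∀ X ∈ Cs t0 R, Src t0 (2 * R ^ 2) 1 (oddE (qG (c1 X) (c2 X))) := fun X hX =>
    src_G ht0.2 hR (Cs_con hX) (Cs_siz hX)
  have sN : ∀ X ∈ Cs t0 R, Src t0 (2 * R ^ 2) 1 (evE (qN (c1 X) (c2 X) (c3 X))) := fun X hX =>
    src_N ht0.2 hR (Cs_con hX) (Cs_siz hX)
  let F : (X : TS t0 →ᵇ ℝ × ℝ × ℝ) → TS t0 → ℝ × ℝ × ℝ := fun X p =>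
    ((om p.2)⁻¹ * U1 g0 (oddE (qG (c1 X) (c2 X))) p.1 p.2,
      (om p.2)⁻¹ * U1 v0 (evE (qN (c1 X) (c2 X) (c3 X))) p.1 p.2,
      (om p.2)⁻¹ * (√(p.1 : ℝ) * U3 v0 (evE (qN (c1 X) (c2 X) (c3 X))) p.1 p.2))
  have cF : ∀ X ∈ Cs t0 R, Continuous (F X) := by
    intro X hX
    have h1 := cont_res (U1_cont ht0.2 hd.grg (sG X hX))
    have h2 := cont_res (U1_cont ht0.2 hd.grv (sN X hX))
    have h3 := cont_res (U3_cont ht0.2 hd.grv (sN X hX))
    have h4 : Continuous fun p : TS t0 => (om p.2)⁻¹ :=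
      (om_cont.comp continuous_snd).inv₀ fun p => (om_pos _).ne'
    have h5 : Continuous fun p : TS t0 => √(p.1 : ℝ) := by fun_prop
    exact (h4.mul h1).prodMk ((h4.mul h2).prodMk (h4.mul (h5.mul h3)))
  have hb1 : R0 * cE + 2 * √t0 * (2 * R ^ 2 * cE) ≤ R := by
    rw [hRd]
    have : 2 * √t0 * (2 * (2 * R0 * cE) ^ 2 * cE) = (96 * cE ^ 2 * √t0 * R0) * (R0 * cE) / 6 := by
      ring
    rw [this]
    have h3 : (96 * cE ^ 2 * √t0 * R0) * (R0 * cE) ≤ 1 * (R0 * cE) := by gcongr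
    have h4 : 0 < R0 * cE := by positivity
    linarith
  have hb3 : R0 * cE + 6 * √t0 * (2 * R ^ 2 * cE) ≤ R := by
    rw [hRd]
    have : 6 * √t0 * (2 * (2 * R0 * cE) ^ 2 * cE) = (96 * cE ^ 2 * √t0 * R0) * (R0 * cE) / 2 := by
      ring
    rw [this]
    have h3 : (96 * cE ^ 2 * √t0 * R0) * (R0 * cE) ≤ 1 * (R0 * cE) := by gcongr
    have h4 : 0 < R0 * cE := by positivity
    linarith
  have bF : ∀ X ∈ Cs t0 R, ∀ p, ‖F X p‖ ≤ R := by
    intro X hX p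
    have ho := om_pos p.2
    have hp := p.1.2
    have e1 := U1_le ht0.2 hd.wg (sG X hX) hp p.2
    have e2 := U1_le ht0.2 hd.wv (sN X hX) hp p.2
    have e3 := U3_le ht0.2 hd.wv (sN X hX) hp p.2
    have hq := hsq _ hp
    have e4 : R0 * cE + 2 * √(p.1 : ℝ) * (2 * R ^ 2 * cE) ≤ R := le_trans (by gcongr) hb1
    have e5 : R0 * cE + 6 * √(p.1 : ℝ) * (2 * R ^ 2 * cE) ≤ R := le_trans (by gcongr) hb3
    rw [Prod.norm_def, Prod.norm_def, max_le_iff, max_le_iff]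
    refine ⟨?_, ?_, ?_⟩
    · simp only [F, norm_mul, Real.norm_eq_abs]
      rw [abs_of_pos (inv_pos.2 ho), inv_mul_le_iff₀ ho, mul_comm]
      exact e1.trans (by gcongr)
    · simp only [F, norm_mul, Real.norm_eq_abs]
      rw [abs_of_pos (inv_pos.2 ho), inv_mul_le_iff₀ ho, mul_comm]
      exact e2.trans (by gcongr)
    · simp only [F, norm_mul, Real.norm_eq_abs]
      rw [abs_of_pos (inv_pos.2 ho), inv_mul_le_iff₀ ho, abs_of_nonneg (sqrt_nonneg _),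
        mul_comm (om p.2)]
      exact e3.trans (by gcongr)
  let Φ0 : (X : TS t0 →ᵇ ℝ × ℝ × ℝ) → X ∈ Cs t0 R → (TS t0 →ᵇ ℝ × ℝ × ℝ) := fun X hX =>
    BoundedContinuousFunction.ofNormedAddCommGroup (F X) (cF X hX) R (bF X hX)
  have k1 : ∀ X (hX : X ∈ Cs t0 R), ∀ s ∈ Ioc 0 t0, ∀ y, c1 (Φ0 X hX) s y =
      U1 g0 (oddE (qG (c1 X) (c2 X))) s y := by
    intro X hX s hs y
    rw [c1, ex_of_mem _ hs]
    show om y * ((om y)⁻¹ * _) = _
    rw [mul_inv_cancel_left₀ (om_pos y).ne']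
  have k2 : ∀ X (hX : X ∈ Cs t0 R), ∀ s ∈ Ioc 0 t0, ∀ y, c2 (Φ0 X hX) s y =
      U1 v0 (evE (qN (c1 X) (c2 X) (c3 X))) s y := by
    intro X hX s hs y
    rw [c2, ex_of_mem _ hs]
    show om y * ((om y)⁻¹ * _) = _
    rw [mul_inv_cancel_left₀ (om_pos y).ne']
  have k3 : ∀ X (hX : X ∈ Cs t0 R), ∀ s ∈ Ioc 0 t0, ∀ y, c3 (Φ0 X hX) s y =
      U3 v0 (evE (qN (c1 X) (c2 X) (c3 X))) s y := by
    intro X hX s hs y
    rw [c3, ex_of_mem _ hs]
    show (√s)⁻¹ * (om y * ((om y)⁻¹ * (√s * _))) = _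
    rw [mul_inv_cancel_left₀ (om_pos y).ne', inv_mul_cancel_left₀ (sqrt_pos.2 hs.1).ne']
  have hmem : ∀ X (hX : X ∈ Cs t0 R), Φ0 X hX ∈ Cs t0 R := by
    intro X hX
    refine ⟨?_, fun s hs => ⟨fun y => ?_, fun y => ?_, ?_⟩⟩
    · rw [BoundedContinuousFunction.norm_le hR]
      exact bF X hX
    · have h1 : ∀ z, HasDerivAt (U1 g0 (oddE (qG (c1 X) (c2 X))) s)
          (U1 v0 (evE (qN (c1 X) (c2 X) (c3 X))) s z) z := fun z =>
        U1_hasDerivAt ht0.2 hd (sG X hX) (sN X hX) (Cs_con hX).src_hasDerivAt hs z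
      have h2 := intervalIntegral.integral_eq_sub_of_hasDerivAt (a := 0) (b := y)
        (fun z _ => h1 z) ((slice_cont (U1_cont ht0.2 hd.grv (sN X hX)) hs).intervalIntegrable _ _)
      rw [k1 X hX s hs, k1 X hX s hs, ← h2]
      exact intervalIntegral.integral_congr fun z _ => (k2 X hX s hs z).symm
    · have h1 : ∀ z, HasDerivAt (U1 v0 (evE (qN (c1 X) (c2 X) (c3 X))) s)
          (U3 v0 (evE (qN (c1 X) (c2 X) (c3 X))) s z) z := fun z =>
        U3_hasDerivAt ht0.2 hd.grv (sN X hX) hs z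
      have h2 := intervalIntegral.integral_eq_sub_of_hasDerivAt (a := 0) (b := y)
        (fun z _ => h1 z) ((slice_cont (U3_cont ht0.2 hd.grv (sN X hX)) hs).intervalIntegrable _ _)
      rw [k2 X hX s hs, k2 X hX s hs, ← h2]
      exact intervalIntegral.integral_congr fun z _ => (k3 X hX s hs z).symm
    · rw [k1 X hX s hs]
      have := U1_zero hd (n := oddE (qG (c1 X) (c2 X))) (fun s y => oddE_neg _ _ _) s 0
      rw [neg_zero] at this
      linarith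
  have : CompleteSpace (Cs t0 R) := (Cs_closed t0 R).completeSpace_coe
  have hne : (0 : TS t0 →ᵇ ℝ × ℝ × ℝ) ∈ Cs t0 R := by
    refine ⟨by simpa using hR, fun s hs => ?_⟩
    have h1 : ∀ y, c1 (0 : TS t0 →ᵇ ℝ × ℝ × ℝ) s y = 0 := fun y => by
      rw [c1, ex_of_mem _ hs]; simp
    have h2 : ∀ y, c2 (0 : TS t0 →ᵇ ℝ × ℝ × ℝ) s y = 0 := fun y => by
      rw [c2, ex_of_mem _ hs]; simp
    have h3 : ∀ y, c3 (0 : TS t0 →ᵇ ℝ × ℝ × ℝ) s y = 0 := fun y => by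
      rw [c3, ex_of_mem _ hs]; simp
    simp [h1, h2, h3]
  have : Nonempty (Cs t0 R) := ⟨⟨0, hne⟩⟩
  obtain ⟨X, hX⟩ := exists_fixed (fun X : Cs t0 R => (⟨Φ0 X X.2, hmem X X.2⟩ : Cs t0 R))
    (fun X Y => by
      show dist (Φ0 X X.2) (Φ0 Y Y.2) ≤ _
      rw [BoundedContinuousFunction.dist_le (by positivity)]
      intro p
      have ho := om_pos p.2
      have hp := p.1.2
      set d := dist (X : TS t0 →ᵇ ℝ × ℝ × ℝ) Y with hdd
      have hd0 : 0 ≤ d := dist_nonneg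
      have hdist : dist X Y = d := rfl
      have dG := src_G_diff ht0.2 hR hd0 (Cs_con X.2) (Cs_siz X.2) (Cs_con Y.2) (Cs_siz Y.2)
        (siz_diff _ _)
      have dN := src_N_diff ht0.2 hR hd0 (Cs_con X.2) (Cs_siz X.2) (Cs_con Y.2) (Cs_siz Y.2)
        (siz_diff _ _)
      have e1 := dG.abs_Duh zero_le_one le_rfl ht0.2 hp p.2
      have e2 := dN.abs_Duh zero_le_one le_rfl ht0.2 hp p.2
      have e3 := dN.abs_DuhD zero_le_one le_rfl ht0.2 hp p.2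
      rw [← Duh_sub (sG X X.2) (sG Y Y.2) zero_le_one le_rfl ht0.2 hp p.2, om_eq] at e1
      rw [← Duh_sub (sN X X.2) (sN Y Y.2) zero_le_one le_rfl ht0.2 hp p.2, om_eq] at e2
      rw [← DuhD_sub (sN X X.2) (sN Y Y.2) zero_le_one le_rfl ht0.2 hp p.2, om_eq] at e3
      have hq := hsq _ hp
      have hq1 : √(p.1 : ℝ) ≤ 1 := by
        rw [sqrt_le_one]; exact hp.2.trans ht0.2
      have hq0 : 0 ≤ √(p.1 : ℝ) := sqrt_nonneg _
      have e4 : 2 * √(p.1 : ℝ) * (4 * R * d * cE) ≤ 1 / 2 * d := by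
        calc 2 * √(p.1 : ℝ) * (4 * R * d * cE) ≤ 2 * √t0 * (4 * R * d * cE) := by gcongr
          _ = (96 * cE ^ 2 * √t0 * R0) * d / 6 := by rw [hRd]; ring
          _ ≤ 1 * d / 6 := by gcongr
          _ ≤ _ := by linarith
      have e5 : √(p.1 : ℝ) * (6 * (4 * R * d * cE)) ≤ 1 / 2 * d := by
        calc √(p.1 : ℝ) * (6 * (4 * R * d * cE)) ≤ √t0 * (6 * (4 * R * d * cE)) := by gcongr
          _ = (96 * cE ^ 2 * √t0 * R0) * d / 2 := by rw [hRd]; ring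
          _ ≤ 1 * d / 2 := by gcongr
          _ ≤ _ := by linarith
      rw [dist_eq_norm, hdist]
      show ‖F X p - F Y p‖ ≤ _
      rw [Prod.norm_def, Prod.norm_def, max_le_iff, max_le_iff]
      refine ⟨?_, ?_, ?_⟩
      · simp only [F, Prod.fst_sub, Real.norm_eq_abs]
        rw [← mul_sub, abs_mul, abs_of_pos (inv_pos.2 ho), inv_mul_le_iff₀ ho]
        unfold U1
        rw [add_sub_add_left_eq_sub]
        refine e1.trans ?_
        rw [mul_comm (om p.2)]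
        gcongr
      · simp only [F, Prod.fst_sub, Prod.snd_sub, Real.norm_eq_abs]
        rw [← mul_sub, abs_mul, abs_of_pos (inv_pos.2 ho), inv_mul_le_iff₀ ho]
        unfold U1
        rw [add_sub_add_left_eq_sub]
        refine e2.trans ?_
        rw [mul_comm (om p.2)]
        gcongr
      · simp only [F, Prod.snd_sub, Real.norm_eq_abs]
        rw [← mul_sub, abs_mul, abs_of_pos (inv_pos.2 ho), inv_mul_le_iff₀ ho, ← mul_sub, abs_mul,
          abs_of_nonneg hq0]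
        unfold U3
        rw [add_sub_add_left_eq_sub]
        calc √(p.1 : ℝ) * _ ≤ √(p.1 : ℝ) * (6 * (4 * R * d * cE) * om p.2) := by gcongr
          _ = (√(p.1 : ℝ) * (6 * (4 * R * d * cE))) * om p.2 := by ring
          _ ≤ (1 / 2 * d) * om p.2 := by gcongr
          _ = _ := by ring)
  have hXX : Φ0 X X.2 = X := congrArg Subtype.val hX
  refine ⟨c1 X.1, c2 X.1, c3 X.1, Cs_con X.2, Cs_siz X.2, ⟨fun s hs y => ?_, fun s hs y => ?_,
    fun s hs y => ?_⟩⟩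
  · rw [← k1 X X.2 s hs y, hXX]
  · rw [← k2 X X.2 s hs y, hXX]
  · rw [← k3 X X.2 s hs y, hXX]

end maps

end Pool.Agent.Lib.MP_79abb3_an
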