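import Pool.Agent.Lib.MP_79abb3_an.Duh

/-!
Function spaces on `(0,t0] × ℝ`, compactly supported sources, and the abstract fixed point lemma.
-/

set_option autoImplicit false
set_option linter.unusedSectionVars false
set_option linter.unusedVariables false

open MeasureTheory Set Filter Topology Real ProbabilityTheory Function
open scoped BoundedContinuousFunction

namespace Pool.Agent.Lib.MP_79abb3_an

/-- Space-time domain. -/
abbrev TS (t0 : ℝ) : Type := ↥(Ioc (0:ℝ) t0) × ℝ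

/-- Extension by zero in time. -/
noncomputable def ex {t0 : ℝ} {E : Type} [Zero E] (F : TS t0 → E) (s y : ℝ) : E :=
  open Classical in if h : s ∈ Ioc 0 t0 then F (⟨s, h⟩, y) else 0

section ex
variable {t0 : ℝ} {E : Type} [TopologicalSpace E] [Zero E]

theorem ex_of_mem (F : TS t0 → E) {s : ℝ} (hs : s ∈ Ioc 0 t0) (y : ℝ) :
    ex F s y = F (⟨s, hs⟩, y) := dif_pos hs

theorem ex_cont {F : TS t0 → E} (hF : Continuous F) :
    ContinuousOn (uncurry (ex F)) (Ioc 0 t0 ×ˢ univ) := by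
  rw [continuousOn_iff_continuous_domRestrict]
  have : (Ioc 0 t0 ×ˢ (univ : Set ℝ)).domRestrict (uncurry (ex F)) =
      fun p => F (⟨p.1.1, p.2.1⟩, p.1.2) := by
    ext p
    exact ex_of_mem F p.2.1 p.1.2
  rw [this]
  fun_prop

theorem cont_res {n : ℝ → ℝ → E} (h : ContinuousOn (uncurry n) (Ioc 0 t0 ×ˢ univ)) :
    Continuous fun p : TS t0 => n p.1 p.2 :=
  h.comp_continuous (f := fun p : TS t0 => ((p.1 : ℝ), p.2)) (by fun_prop)
    fun p => ⟨p.1.2, mem_univ _⟩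

theorem contOn_of_res {n : ℝ → ℝ → E} (h : Continuous fun p : TS t0 => n p.1 p.2) :
    ContinuousOn (uncurry n) (Ioc 0 t0 ×ˢ univ) := by
  refine (ex_cont (F := fun p : TS t0 => n p.1 p.2) h).congr fun p hp => ?_
  exact (ex_of_mem (fun p : TS t0 => n p.1 p.2) hp.1 p.2).symm

end ex

/-- Parametric primitive is continuous. -/
theorem contOn_prim {t0 : ℝ} {n : ℝ → ℝ → ℝ} (h : ContinuousOn (uncurry n) (Ioc 0 t0 ×ˢ univ)) :
    ContinuousOn (uncurry fun s y => ∫ z in (0:ℝ)..y, n s z) (Ioc 0 t0 ×ˢ univ) := by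
  refine contOn_of_res ?_
  have h1 : Continuous (uncurry fun (p : TS t0) (z : ℝ) => n p.1 z) := by
    have := cont_res h
    exact this.comp (f := fun q : TS t0 × ℝ => (q.1.1, q.2)) (by fun_prop)
  exact intervalIntegral.continuous_parametric_intervalIntegral_of_continuous h1
    (s := fun p : TS t0 => p.2) (by fun_prop)

/-- Odd extension of a function given on `y ≥ 0`. -/
noncomputable def oddE (m : ℝ → ℝ → ℝ) (s y : ℝ) : ℝ := m s (max y 0) - m s (max (-y) 0)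

theorem oddE_cont {t0 : ℝ} {m : ℝ → ℝ → ℝ} (h : ContinuousOn (uncurry m) (Ioc 0 t0 ×ˢ univ)) :
    ContinuousOn (uncurry (oddE m)) (Ioc 0 t0 ×ˢ univ) := by
  refine ContinuousOn.sub ?_ ?_
  · exact h.comp (f := fun p : ℝ × ℝ => (p.1, max p.2 0)) (by fun_prop) fun p hp => ⟨hp.1, mem_univ _⟩
  · exact h.comp (f := fun p : ℝ × ℝ => (p.1, max (-p.2) 0)) (by fun_prop)
      fun p hp => ⟨hp.1, mem_univ _⟩

theorem oddE_neg (m : ℝ → ℝ → ℝ) (s y : ℝ) : oddE m s (-y) = -oddE m s y := by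
  simp [oddE]

theorem oddE_of_nonneg {m : ℝ → ℝ → ℝ} {s y : ℝ} (hy : 0 ≤ y) (h0 : m s 0 = 0) :
    oddE m s y = m s y := by
  rw [oddE, max_eq_left hy, max_eq_right (by linarith), h0, sub_zero]

/-- Bounded, compactly supported sources. -/
structure SrcC (t0 B S : ℝ) (n : ℝ → ℝ → ℝ) : Prop where
  cont : ContinuousOn (uncurry n) (Ioc 0 t0 ×ˢ univ)
  bd : ∀ s ∈ Ioc 0 t0, ∀ y, |n s y| ≤ B
  supp : ∀ s ∈ Ioc 0 t0, ∀ y, S ≤ |y| → n s y = 0

section srcc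
variable {t0 B S : ℝ} {n : ℝ → ℝ → ℝ}

theorem SrcC.nonneg (h : SrcC t0 B S n) (ht0 : 0 < t0) : 0 ≤ B :=
  (abs_nonneg _).trans (h.bd t0 ⟨ht0, le_rfl⟩ 0)

theorem SrcC.src (h : SrcC t0 B S n) (ht0 : t0 ≤ 1) : Src t0 B 0 n := by
  refine ⟨h.cont, fun s hs y => (h.bd s hs y).trans ?_⟩
  have hB := h.nonneg (hs.1.trans_le hs.2)
  have h1 : 1 ≤ (√s)⁻¹ := by
    rw [one_le_inv₀ (sqrt_pos.2 hs.1), sqrt_le_one]
    exact hs.2.trans ht0
  simp only [neg_zero, zero_mul, exp_zero, mul_one]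
  calc B = B * 1 := (mul_one _).symm
    _ ≤ B * (√s)⁻¹ := by gcongr

theorem SrcC.abs_Duh (h : SrcC t0 B S n) (ht0 : t0 ≤ 1) {t : ℝ} (ht : t ∈ Ioc 0 t0) (y : ℝ) :
    |Duh n t y| ≤ t * (B * cE) := by
  have := (h.src ht0).abs_Duh' le_rfl zero_le_one ht0 (B := B) (fun s hs y => by
    simpa using h.bd s hs y) ht y
  simpa using this

theorem SrcC.abs_DuhD (h : SrcC t0 B S n) (ht0 : t0 ≤ 1) {t : ℝ} (ht : t ∈ Ioc 0 t0) (y : ℝ) :
    |DuhD n t y| ≤ 2 * √t * (B * cE) := by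
  have := (h.src ht0).abs_DuhD' le_rfl zero_le_one ht0 (B := B) (fun s hs y => by
    simpa using h.bd s hs y) ht y
  simpa using this

theorem SrcC.contDuh (h : SrcC t0 B S n) (ht0 : t0 ≤ 1) :
    ContinuousOn (uncurry (Duh n)) (Ioc 0 t0 ×ˢ univ) :=
  (h.src ht0).continuousOn_Duh le_rfl zero_le_one ht0

theorem SrcC.contDuhD (h : SrcC t0 B S n) (ht0 : t0 ≤ 1) :
    ContinuousOn (uncurry (DuhD n)) (Ioc 0 t0 ×ˢ univ) :=
  (h.src ht0).continuousOn_DuhD le_rfl zero_le_one ht0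

theorem SrcC.hasDerivAt (h : SrcC t0 B S n) (ht0 : t0 ≤ 1) {t : ℝ} (ht : t ∈ Ioc 0 t0) (y : ℝ) :
    HasDerivAt (Duh n t) (DuhD n t y) y :=
  (h.src ht0).hasDerivAt_Duh le_rfl zero_le_one ht0 ht y

theorem SrcC.prim (h : SrcC t0 B S n) (ht0 : t0 ≤ 1) (hS : 0 ≤ S) :
    Src t0 (2 * S * B) 0 (fun s y => ∫ z in (0:ℝ)..y, n s z) := by
  refine ⟨contOn_prim h.cont, fun s hs y => ?_⟩
  have hB := h.nonneg (hs.1.trans_le hs.2)
  have hc : Continuous (n s) := ((h.src ht0).wt hs).cont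
  have h1 : 1 ≤ (√s)⁻¹ := by
    rw [one_le_inv₀ (sqrt_pos.2 hs.1), sqrt_le_one]
    exact hs.2.trans ht0
  have h2 : |∫ z in (0:ℝ)..y, n s z| ≤ 2 * S * B := by
    have hi : Integrable (fun z => (Icc (-S) S).indicator (fun _ => B) z) :=
      (integrable_indicator_iff measurableSet_Icc).2 (by simp)
    have hle : ∀ z, |n s z| ≤ (Icc (-S) S).indicator (fun _ => B) z := fun z => by
      by_cases hz : z ∈ Icc (-S) S
      · rw [indicator_of_mem hz]; exact h.bd s hs z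
      · rw [indicator_of_notMem hz, h.supp s hs z, abs_zero]
        by_contra h'
        push Not at h'
        exact hz ⟨by linarith [(abs_lt.1 h').1], by linarith [(abs_lt.1 h').2]⟩
    calc |∫ z in (0:ℝ)..y, n s z| ≤ ∫ z in uIoc 0 y, ‖n s z‖ := by
          rw [← Real.norm_eq_abs]
          exact intervalIntegral.norm_integral_le_integral_norm_uIoc
      _ ≤ ∫ z in uIoc 0 y, (Icc (-S) S).indicator (fun _ => B) z := by
          refine setIntegral_mono (hc.norm.integrableOn_uIoc) hi.integrableOn fun z => ?_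
          exact hle z
      _ ≤ ∫ z, (Icc (-S) S).indicator (fun _ => B) z :=
          setIntegral_le_integral hi (ae_of_all _ fun z => indicator_nonneg (fun _ _ => hB) z)
      _ = 2 * S * B := by
          rw [integral_indicator measurableSet_Icc]
          simp only [integral_const, MeasurableSet.univ, measureReal_restrict_apply, univ_inter,
            smul_eq_mul]
          rw [Real.volume_real_Icc_of_le (by linarith)]
          ring
  simp only [neg_zero, zero_mul, exp_zero, mul_one]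
  calc _ ≤ 2 * S * B * 1 := by rw [mul_one]; exact h2
    _ ≤ 2 * S * B * (√s)⁻¹ := by gcongr

/-- The integrated equation for a Duhamel integral. -/
theorem SrcC.ti (h : SrcC t0 B S n) (ht0 : t0 ≤ 1) (hS : 0 ≤ S) {t : ℝ} (ht : t ∈ Ioc 0 t0)
    (y : ℝ) : ∫ z in (0:ℝ)..y, Duh n t z =
      ∫ s in (0:ℝ)..t, (DuhD n s y - DuhD n s 0 + ∫ z in (0:ℝ)..y, n s z) := by
  set F : ℝ → ℝ → ℝ := fun s y => ∫ z in (0:ℝ)..y, n s z with hF
  have hFs := h.prim ht0 hS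
  have hd : ∀ s ∈ Ioc 0 t0, ∀ y, HasDerivAt (F s) (n s y) y := fun s hs y =>
    (((h.src ht0).wt hs).cont.integral_hasStrictDerivAt 0 y).hasDerivAt
  have e1 := duh_time hFs (h.src ht0) le_rfl zero_le_one ht0 hd ht y
  have e2 := duh_time hFs (h.src ht0) le_rfl zero_le_one ht0 hd ht 0
  have h3 : ∀ z, HasDerivAt (Duh F t) (Duh n t z) z := fun z => by
    have := hFs.hasDerivAt_Duh le_rfl zero_le_one ht0 ht z
    rwa [DuhD_eq hFs (h.src ht0) le_rfl zero_le_one ht0 hd ht z] at this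
  have hc : Continuous (Duh n t) := by
    have := (h.contDuh ht0).comp_continuous (f := fun y : ℝ => (t, y)) (by fun_prop)
      fun y => ⟨ht, mem_univ _⟩
    exact this
  rw [intervalIntegral.integral_eq_sub_of_hasDerivAt (fun z _ => h3 z) (hc.intervalIntegrable _ _),
    e1, e2]
  have hF0 : ∀ s, F s 0 = 0 := fun s => by simp [hF]
  have hFi : IntervalIntegrable (fun s => F s y) volume 0 t := by
    rw [intervalIntegrable_iff_integrableOn_Ioc_of_le ht.1.le]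
    have hB := h.nonneg (ht.1.trans_le ht.2)
    have h1 : IntegrableOn (fun s : ℝ => 2 * S * B * (√s)⁻¹) (Ioc 0 t) := by
      have := (intervalIntegrable_isq 0 t).const_mul (2 * S * B)
      rwa [intervalIntegrable_iff_integrableOn_Ioc_of_le ht.1.le] at this
    refine h1.mono' (ContinuousOn.aestronglyMeasurable ?_ measurableSet_Ioc) ?_
    · exact hFs.cont.comp (f := fun s : ℝ => (s, y)) (by fun_prop)
        fun s hs => ⟨⟨hs.1, hs.2.trans ht.2⟩, mem_univ _⟩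
    · rw [ae_restrict_iff' measurableSet_Ioc]
      refine ae_of_all _ fun s hs => ?_
      have := hFs.bd s ⟨hs.1, hs.2.trans ht.2⟩ y
      rw [neg_zero, zero_mul, exp_zero, mul_one] at this
      exact this
  have hDi : ∀ y, IntervalIntegrable (fun s => DuhD n s y) volume 0 t := fun y => by
    rw [intervalIntegrable_iff_integrableOn_Ioc_of_le ht.1.le]
    have hB := h.nonneg (ht.1.trans_le ht.2)
    have h1 : IntegrableOn (fun s : ℝ => 2 * (B * cE)) (Ioc 0 t) := integrable_const _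
    refine h1.mono' (ContinuousOn.aestronglyMeasurable ?_ measurableSet_Ioc) ?_
    · exact (h.contDuhD ht0).comp (f := fun s : ℝ => (s, y)) (by fun_prop)
        fun s hs => ⟨⟨hs.1, hs.2.trans ht.2⟩, mem_univ _⟩
    · rw [ae_restrict_iff' measurableSet_Ioc]
      refine ae_of_all _ fun s hs => ?_
      refine (h.abs_DuhD ht0 ⟨hs.1, hs.2.trans ht.2⟩ y).trans ?_
      have h3 : √s ≤ 1 := by
        rw [sqrt_le_one]; linarith [hs.2, ht.2]
      have := cE_pos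
      calc 2 * √s * (B * cE) ≤ 2 * 1 * (B * cE) := by gcongr
        _ = _ := by ring
  have hF0' : ∫ s in (0:ℝ)..t, F s 0 = 0 := by
    rw [show (fun s => F s 0) = fun _ => 0 from funext hF0]; simp
  rw [hF0']
  have e3 : ∫ s in (0:ℝ)..t, (DuhD n s y - DuhD n s 0 + ∫ z in (0:ℝ)..y, n s z) =
      (∫ s in (0:ℝ)..t, DuhD n s y) - (∫ s in (0:ℝ)..t, DuhD n s 0) + ∫ s in (0:ℝ)..t, F s y := by
    rw [intervalIntegral.integral_add ((hDi y).sub (hDi 0)) hFi,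
      intervalIntegral.integral_sub (hDi y) (hDi 0)]
  rw [e3]
  ring

end srcc

/-- Banach's fixed point theorem, in a convenient form. -/
theorem exists_fixed {α : Type*} [MetricSpace α] [CompleteSpace α] [Nonempty α] (Φ : α → α)
    (h : ∀ x y, dist (Φ x) (Φ y) ≤ (1/2) * dist x y) : ∃ x, Φ x = x := by
  have hc : ContractingWith (1/2 : NNReal) Φ := by
    refine ⟨by rw [← NNReal.coe_lt_coe]; norm_num, LipschitzWith.of_dist_le_mul fun x y => ?_⟩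
    simpa using h x y
  exact ⟨hc.fixedPoint Φ, hc.fixedPoint_isFixedPt⟩

theorem H_sub_fun {f g : ℝ → ℝ} {C C' t y : ℝ} (hf : Gr C f) (hg : Gr C' g) (ht : t ≤ 1) :
    H t f y - H t g y = H t (fun z => f z - g z) y := by
  unfold H Ga
  rw [integral_sub (hf.integrable (sq_le ht) y) (hg.integrable (sq_le ht) y)]

theorem Gd_sub_fun {f g : ℝ → ℝ} {C C' t y : ℝ} (hf : Gr C f) (hg : Gr C' g) (ht : t ≤ 1) :
    Dh t f y - Dh t g y = Dh t (fun z => f z - g z) y := by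
  unfold Dh Gd
  rw [← mul_sub, ← integral_sub (hf.integrable' (sq_le ht) y) (hg.integrable' (sq_le ht) y)]
  congr 2
  ext x
  ring

theorem Duh_sub {t0 A A' μ : ℝ} {n n' : ℝ → ℝ → ℝ} (h : Src t0 A μ n) (h' : Src t0 A' μ n')
    (hμ : 0 ≤ μ) (hμ1 : μ ≤ 1) (ht0 : t0 ≤ 1) {t : ℝ} (ht : t ∈ Ioc 0 t0) (y : ℝ) :
    Duh n t y - Duh n' t y = Duh (fun s y => n s y - n' s y) t y := by
  unfold Duh
  rw [← intervalIntegral.integral_sub (h.intH hμ hμ1 ht0 ht y) (h'.intH hμ hμ1 ht0 ht y)]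
  refine intervalIntegral.integral_congr_ae (ae_of_all _ fun s hs => ?_)
  rw [uIoc_of_le ht.1.le] at hs
  have hs' : s ∈ Ioc 0 t0 := ⟨hs.1, hs.2.trans ht.2⟩
  exact H_sub_fun ((h.wt hs').gr hμ) ((h'.wt hs').gr hμ) (by linarith [hs.1, ht.2])

theorem DuhD_sub {t0 A A' μ : ℝ} {n n' : ℝ → ℝ → ℝ} (h : Src t0 A μ n) (h' : Src t0 A' μ n')
    (hμ : 0 ≤ μ) (hμ1 : μ ≤ 1) (ht0 : t0 ≤ 1) {t : ℝ} (ht : t ∈ Ioc 0 t0) (y : ℝ) :
    DuhD n t y - DuhD n' t y = DuhD (fun s y => n s y - n' s y) t y := by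
  unfold DuhD
  rw [← intervalIntegral.integral_sub (h.intDh hμ hμ1 ht0 ht y) (h'.intDh hμ hμ1 ht0 ht y)]
  refine intervalIntegral.integral_congr_ae (ae_of_all _ fun s hs => ?_)
  rw [uIoc_of_le ht.1.le] at hs
  have hs' : s ∈ Ioc 0 t0 := ⟨hs.1, hs.2.trans ht.2⟩
  exact Gd_sub_fun ((h.wt hs').gr hμ) ((h'.wt hs').gr hμ) (by linarith [hs.1, ht.2])

theorem oddE_cases {m : ℝ → ℝ → ℝ} {s : ℝ} (h0 : m s 0 = 0) (y : ℝ) :
    oddE m s y = if 0 ≤ y then m s |y| else -m s |y| := by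
  split_ifs with h
  · rw [abs_of_nonneg h, oddE_of_nonneg h h0]
  · have h' : 0 ≤ -y := by linarith
    rw [abs_of_neg (not_le.1 h), ← oddE_of_nonneg h' h0, oddE_neg, neg_neg]

/-- Abstract fixed point for bounded compactly supported nonlinearities. -/
theorem absB {t0 S κ ρ A Λ : ℝ} (ht0 : t0 ∈ Ioc 0 1) (hκ : κ ≤ √t0) (hκ0 : 0 < κ)
    (m : (TS t0 →ᵇ ℝ × ℝ) → TS t0 → ℝ) (hm : ∀ X, Continuous (m X))
    (hρ : 0 ≤ ρ) (hb : ∀ X, ‖X‖ ≤ ρ → ∀ p : TS t0, 0 ≤ p.2 → |m X p| ≤ A)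
    (hs : ∀ X, ‖X‖ ≤ ρ → ∀ p : TS t0, S ≤ p.2 → m X p = 0) (hS : 0 < S)
    (h0 : ∀ X, ‖X‖ ≤ ρ → ∀ p : TS t0, p.2 = 0 → m X p = 0)
    (hL : ∀ X Y, ‖X‖ ≤ ρ → ‖Y‖ ≤ ρ → ∀ p : TS t0, 0 ≤ p.2 → |m X p - m Y p| ≤ Λ * dist X Y)
    (h1 : 2 * t0 * cE * A ≤ ρ) (h2 : 2 * t0 * cE * Λ ≤ 1/2) (hΛ : 0 ≤ Λ) :
    ∃ X : TS t0 →ᵇ ℝ × ℝ, ‖X‖ ≤ ρ ∧ SrcC t0 A S (oddE (ex (m X))) ∧
      (∀ s ∈ Ioc 0 t0, ∀ y, (ex X s y).1 = Duh (oddE (ex (m X))) s y) ∧
      (∀ s ∈ Ioc 0 t0, ∀ y, (ex X s y).2 = κ * DuhD (oddE (ex (m X))) s y) := by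
  have hA : 0 ≤ A := (abs_nonneg _).trans (hb 0 (by simpa using hρ) (⟨t0, ht0.1, le_rfl⟩, 0) le_rfl)
  have hcE := cE_pos
  have ht0' := ht0.1
  have h0' : ∀ X, ‖X‖ ≤ ρ → ∀ s ∈ Ioc 0 t0, ex (m X) s 0 = 0 := fun X hX s hs' => by
    rw [ex_of_mem _ hs']; exact h0 X hX _ rfl
  have hsrc : ∀ X, ‖X‖ ≤ ρ → SrcC t0 A S (oddE (ex (m X))) := by
    intro X hX
    refine ⟨oddE_cont (ex_cont (hm X)), fun s hs' y => ?_, fun s hs' y hy => ?_⟩
    · rw [oddE_cases (h0' X hX s hs')]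
      have h3 := hb X hX (⟨s, hs'⟩, |y|) (abs_nonneg y)
      rw [ex_of_mem _ hs']
      split_ifs
      · exact h3
      · rw [abs_neg]; exact h3
    · rw [oddE_cases (h0' X hX s hs')]
      have h3 := hs X hX (⟨s, hs'⟩, |y|) hy
      rw [ex_of_mem _ hs', h3]
      simp
  have hdiff : ∀ X Y, ‖X‖ ≤ ρ → ‖Y‖ ≤ ρ →
      SrcC t0 (Λ * dist X Y) S (fun s y => oddE (ex (m X)) s y - oddE (ex (m Y)) s y) := by
    intro X Y hX hY
    refine ⟨(hsrc X hX).cont.sub (hsrc Y hY).cont, fun s hs' y => ?_, fun s hs' y hy => ?_⟩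
    · rw [oddE_cases (h0' X hX s hs'), oddE_cases (h0' Y hY s hs')]
      have h3 := hL X Y hX hY (⟨s, hs'⟩, |y|) (abs_nonneg y)
      rw [ex_of_mem _ hs', ex_of_mem _ hs']
      split_ifs
      · exact h3
      · rw [show -m X (⟨s, hs'⟩, |y|) - -m Y (⟨s, hs'⟩, |y|) =
          -(m X (⟨s, hs'⟩, |y|) - m Y (⟨s, hs'⟩, |y|)) by ring, abs_neg]; exact h3
    · rw [(hsrc X hX).supp s hs' y hy, (hsrc Y hY).supp s hs' y hy, sub_zero]
  -- the map
  have hsq : ∀ t ∈ Ioc 0 t0, √t ≤ √t0 := fun t ht => sqrt_le_sqrt ht.2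
  have hsqq : √t0 * √t0 = t0 := mul_self_sqrt ht0'.le
  have hest : ∀ {n : ℝ → ℝ → ℝ} {B : ℝ}, SrcC t0 B S n → ∀ p : TS t0,
      ‖((Duh n p.1 p.2, κ * DuhD n p.1 p.2) : ℝ × ℝ)‖ ≤ 2 * t0 * cE * B := by
    intro n B hn p
    have hB := hn.nonneg ht0'
    have e1 := hn.abs_Duh ht0.2 p.1.2 p.2
    have e2 := hn.abs_DuhD ht0.2 p.1.2 p.2
    have e3 := hsq _ p.1.2
    have e4 := p.1.2.2
    have e5 := p.1.2.1
    rw [Prod.norm_def, max_le_iff]
    constructor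
    · refine e1.trans ?_
      have : (p.1 : ℝ) * (B * cE) ≤ t0 * (B * cE) := by gcongr
      have h3 : 0 ≤ t0 * (B * cE) := by positivity
      linarith
    · simp only [norm_mul, Real.norm_eq_abs, abs_of_pos hκ0]
      calc κ * |DuhD n p.1 p.2| ≤ √t0 * (2 * √p.1 * (B * cE)) := by gcongr
        _ ≤ √t0 * (2 * √t0 * (B * cE)) := by gcongr
        _ = 2 * (√t0 * √t0) * cE * B := by ring
        _ = 2 * t0 * cE * B := by rw [hsqq]
  have hcont : ∀ {n : ℝ → ℝ → ℝ} {B : ℝ}, SrcC t0 B S n →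
      Continuous fun p : TS t0 => ((Duh n p.1 p.2, κ * DuhD n p.1 p.2) : ℝ × ℝ) := by
    intro n B hn
    have e1 := cont_res (hn.contDuh ht0.2)
    have e2 := cont_res (hn.contDuhD ht0.2)
    exact e1.prodMk (e2.const_mul κ)
  let Ball := Metric.closedBall (0 : TS t0 →ᵇ ℝ × ℝ) ρ
  have hBc : IsClosed Ball := Metric.isClosed_closedBall
  have : CompleteSpace Ball := hBc.completeSpace_coe
  have : Nonempty Ball := ⟨⟨0, by simp [Ball, hρ]⟩⟩
  have hmem : ∀ X : Ball, ‖(X : TS t0 →ᵇ ℝ × ℝ)‖ ≤ ρ := fun X => by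
    have := X.2
    rw [Metric.mem_closedBall, dist_zero_right] at this
    exact this
  let Φ : Ball → Ball := fun X =>
    ⟨BoundedContinuousFunction.ofNormedAddCommGroup
      (fun p : TS t0 => ((Duh (oddE (ex (m X))) p.1 p.2, κ * DuhD (oddE (ex (m X))) p.1 p.2) : ℝ × ℝ))
      (hcont (hsrc X (hmem X))) (2 * t0 * cE * A) (hest (hsrc X (hmem X))), by
      have : ‖BoundedContinuousFunction.ofNormedAddCommGroup
        (fun p : TS t0 => ((Duh (oddE (ex (m X))) p.1 p.2, κ * DuhD (oddE (ex (m X))) p.1 p.2) : ℝ × ℝ))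
        (hcont (hsrc X (hmem X))) (2 * t0 * cE * A) (hest (hsrc X (hmem X)))‖ ≤ ρ := by
        rw [BoundedContinuousFunction.norm_le hρ]
        intro p
        exact (hest (hsrc X (hmem X)) p).trans h1
      simpa [Ball] using this⟩
  obtain ⟨X, hX⟩ := exists_fixed Φ (fun X Y => by
    show dist (Φ X : TS t0 →ᵇ ℝ × ℝ) (Φ Y) ≤ _
    rw [BoundedContinuousFunction.dist_le (by positivity)]
    intro p
    have e0 : dist ((Φ X : TS t0 →ᵇ ℝ × ℝ) p) ((Φ Y : TS t0 →ᵇ ℝ × ℝ) p) =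
        ‖((Duh (fun s y => oddE (ex (m X)) s y - oddE (ex (m Y)) s y) p.1 p.2,
          κ * DuhD (fun s y => oddE (ex (m X)) s y - oddE (ex (m Y)) s y) p.1 p.2) : ℝ × ℝ)‖ := by
      rw [dist_eq_norm, ← Duh_sub ((hsrc X (hmem X)).src ht0.2) ((hsrc Y (hmem Y)).src ht0.2)
        le_rfl zero_le_one ht0.2 p.1.2, ← DuhD_sub ((hsrc X (hmem X)).src ht0.2)
        ((hsrc Y (hmem Y)).src ht0.2) le_rfl zero_le_one ht0.2 p.1.2, mul_sub]
      rfl
    rw [e0]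
    refine (hest (hdiff X Y (hmem X) (hmem Y)) p).trans ?_
    have e1 : 0 ≤ dist X Y := dist_nonneg
    calc 2 * t0 * cE * (Λ * dist (X : TS t0 →ᵇ ℝ × ℝ) Y)
        = (2 * t0 * cE * Λ) * dist X Y := by rw [Subtype.dist_eq]; ring
      _ ≤ (1/2) * dist X Y := by gcongr)
  refine ⟨X, hmem X, hsrc X (hmem X), fun s hs' y => ?_, fun s hs' y => ?_⟩
  · have := congrArg (fun Z : Ball => (Z : TS t0 →ᵇ ℝ × ℝ) (⟨s, hs'⟩, y)) hX
    have e : ex (X : TS t0 →ᵇ ℝ × ℝ) s y = (X : TS t0 →ᵇ ℝ × ℝ) (⟨s, hs'⟩, y) := ex_of_mem _ hs' y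
    rw [e, ← this]
    rfl
  · have := congrArg (fun Z : Ball => (Z : TS t0 →ᵇ ℝ × ℝ) (⟨s, hs'⟩, y)) hX
    have e : ex (X : TS t0 →ᵇ ℝ × ℝ) s y = (X : TS t0 →ᵇ ℝ × ℝ) (⟨s, hs'⟩, y) := ex_of_mem _ hs' y
    rw [e, ← this]
    rfl

end Pool.Agent.Lib.MP_79abb3_an
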