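import Pool.Agent.Lib.MP_79abb3_an.Local

/-!
One step of the local null controllability argument, and its iteration.
-/

set_option autoImplicit false
set_option linter.unusedSectionVars false
set_option linter.unusedVariables false

open MeasureTheory Set Filter Topology Real Function

namespace Pool.Agent.Lib.MP_79abb3_an

set_option maxHeartbeats 4000000 in
/-- One step: the data `m` becomes `exp(K/l²) m m'`. -/
theorem step3 {L : ℝ} (hL : 0 ≤ L) : ∃ K D : ℝ, 1 ≤ K ∧ 1 ≤ D ∧ ∀ l ∈ Ioc (0:ℝ) 1,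
    ∀ (m m' : ℝ) (e e' : ℝ → ℝ), m ≤ m' → Odd1 m m' e e' → K * l * m' ≤ 1 →
    K * exp (K / l ^ 2) * m ≤ 1 → ∃ (J : Set ℝ) (f v : ℝ → ℝ → ℝ) (e1 e1' : ℝ → ℝ),
      TrL 0 (l + l / D) L (K * m' + 1) J f f v (fun _ => 0) ∧ (∀ y ∈ Icc 0 L, f 0 y = e y) ∧
      (∀ y ∈ Icc 0 L, f (l + l / D) y = e1 y) ∧
      Odd1 (K * exp (K / l ^ 2) * m * m') (K * exp (K / l ^ 2) * m * m') e1 e1' ∧
      ∀ t ∈ Icc 0 (l + l / D), ∀ y ∈ Icc 0 L, |f t y| ≤ K * exp (K / l ^ 2) * m := by
  obtain ⟨χ, hχ⟩ := exists_cut hL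
  have hS : (1:ℝ) ≤ L + 1 := by linarith
  set S := L + 1 with hSd
  obtain ⟨D, K1, hD, hK1, hfb⟩ := flat_back hS
  have hE := one_le_cE
  set E := cE with hEd
  -- constants
  set K2 := K1 + E ^ 2 with hK2
  set K3 := K1 + 1 with hK3
  set K := 112 * S * E ^ 4 * K2 ^ 2 + 2 * K3 with hK
  have hE2 : 1 ≤ E ^ 2 := one_le_pow₀ hE
  have hE4 : 1 ≤ E ^ 4 := one_le_pow₀ hE
  have hK21 : 1 ≤ K2 := by rw [hK2]; linarith
  have hK22 : 1 ≤ K2 ^ 2 := one_le_pow₀ hK21
  have hbase : 1 ≤ S * E ^ 4 * K2 ^ 2 := by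
    have : 1 ≤ S * E ^ 4 := one_le_mul_of_one_le_of_one_le hS hE4
    exact one_le_mul_of_one_le_of_one_le this hK22
  have hKb : 112 * (S * E ^ 4 * K2 ^ 2) ≤ K := by rw [hK]; linarith only [hK3, hK1]
  have hK112 : 112 * S * E ^ 2 ≤ K := by
    refine le_trans ?_ hKb
    have : S * E ^ 2 ≤ S * E ^ 4 * K2 ^ 2 := by
      have h1 : S * E ^ 2 * 1 ≤ S * E ^ 2 * (E ^ 2 * K2 ^ 2) := by
        have : 1 ≤ E ^ 2 * K2 ^ 2 := one_le_mul_of_one_le_of_one_le hE2 hK22
        gcongr
      calc S * E ^ 2 = S * E ^ 2 * 1 := by ring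
        _ ≤ _ := h1
        _ = _ := by ring
    linarith
  have hK1' : 1 ≤ K := by linarith
  refine ⟨K, D, hK1', hD, ?_⟩
  intro l hl m m' e e' hmm he hc1 hc2
  have hl0 := hl.1
  have hm0 := he.m0
  have hm0' := he.m0'
  have hS0 : 0 < S := by linarith
  have hE0 : 0 < E := by linarith
  have hl2 : 0 < l ^ 2 := by positivity
  set X := exp (K / l ^ 2) with hX
  have hX1 : 1 ≤ X := one_le_exp (by positivity)
  have hsl1 : √l ≤ 1 := by rw [sqrt_le_one]; exact hl.2
  have hmK : K * m ≤ 1 := by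
    calc K * m = K * 1 * m := by ring
      _ ≤ K * X * m := by gcongr
      _ ≤ 1 := hc2
  have hlm : 112 * S * E ^ 2 * l * m' ≤ 1 := by
    calc 112 * S * E ^ 2 * l * m' ≤ K * l * m' := by gcongr
      _ ≤ 1 := hc1
  -- first interval
  have hb1 := he.back hl.2 S
  have hA01 : m * E ≤ m' * E := by gcongr
  obtain ⟨f1, v1, r, r', T1, f10, f1r, hr, f1b⟩ := nl_piece hχ hl hS hL (by linarith)
    (by positivity : 0 ≤ m * E) hA01 hb1 (fun t ht y _ => (he.heat ⟨ht.1, ht.2.trans hl.2⟩).b0 y)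
    (by
      calc 112 * E * l * S * (m' * E) = 112 * S * E ^ 2 * l * m' := by ring
        _ ≤ 1 := hlm)
    (by
      calc 26 * E * √l * S * (m * E) = 26 * S * E ^ 2 * √l * m := by ring
        _ ≤ 112 * S * E ^ 2 * 1 * m := by gcongr; norm_num
        _ = 112 * S * E ^ 2 * m := by ring
        _ ≤ K * m := by gcongr
        _ ≤ 1 := hmK)
  have hl' : l ∈ Ioc 0 l := ⟨hl0, le_rfl⟩
  set ρ := 26 * S * E ^ 3 * m * m' with hρ
  have hρ0 : 0 ≤ ρ := by positivity
  have hr1 : Odd1 ρ ρ (r l) (r' l) := by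
    refine (hr l hl').mono ?_ ?_
    · calc l * (13 * S * (m * E) * (m' * E) * E) = 13 * S * E ^ 3 * m * m' * l := by ring
        _ ≤ 13 * S * E ^ 3 * m * m' * 1 := by have := hl.2; gcongr
        _ ≤ ρ := by
            rw [hρ]
            have : 0 ≤ S * E ^ 3 * m * m' := by positivity
            linarith only [this]
    · calc 2 * √l * (13 * S * (m * E) * (m' * E) * E) = ρ * √l := by rw [hρ]; ring
        _ ≤ ρ * 1 := by gcongr
        _ = ρ := mul_one _
  -- second interval
  obtain ⟨w, w', hw, hwb, hw0, hw1, hwA⟩ := hfb l hl m m' e e' he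
  set l2 := l / D with hl2d
  have hl20 : 0 < l2 := by positivity
  have hl21 : l2 ≤ 1 := by
    rw [hl2d, div_le_one (by linarith)]; linarith [hl.2]
  set W := K1 * exp (K1 / l ^ 2) with hW
  have hb2 := hw.add (hr1.back hl21 S) hwb (fun y => ⟨ρ * E, fun t ht =>
    (hr1.heat ⟨ht.1.le, ht.2.trans hl21⟩).b1 y⟩)
  set A := m * W + ρ * E with hA
  have hA0 : 0 ≤ A := by positivity
  have hAW : A ≤ m * (K2 * exp (K3 / l ^ 2)) := by
    have a1 : ρ * E ≤ m * (E ^ 2 * exp (1 / l ^ 2)) := by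
      have b1 : 26 * S * E ^ 2 * m' ≤ exp (1 / l ^ 2) := by
        have b2 : 26 * S * E ^ 2 * m' ≤ 1 / l := by
          rw [le_div_iff₀ hl0]
          calc 26 * S * E ^ 2 * m' * l = 26 * (S * E ^ 2 * l * m') := by ring
            _ ≤ 112 * (S * E ^ 2 * l * m') := by gcongr; norm_num
            _ = 112 * S * E ^ 2 * l * m' := by ring
            _ ≤ 1 := hlm
        have b3 : 1 / l ≤ 1 / l ^ 2 := by
          apply one_div_le_one_div_of_le hl2
          nlinarith only [hl.1, hl.2]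
        linarith [add_one_le_exp (1 / l ^ 2)]
      calc ρ * E = m * (E ^ 2 * (26 * S * E ^ 2 * m')) := by rw [hρ]; ring
        _ ≤ _ := by gcongr
    have a2 : W ≤ K1 * exp (K3 / l ^ 2) := by
      rw [hW, hK3]
      gcongr
      linarith
    have a3 : exp (1 / l ^ 2) ≤ exp (K3 / l ^ 2) := by
      apply exp_le_exp.2
      gcongr
      rw [hK3]; linarith
    calc A ≤ m * (K1 * exp (K3 / l ^ 2)) + m * (E ^ 2 * exp (K3 / l ^ 2)) := by
          rw [hA]
          refine add_le_add ?_ ?_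
          · gcongr
          · refine a1.trans ?_
            gcongr
      _ = _ := by rw [hK2]; ring
  set Y := exp (K3 / l ^ 2) with hY
  have hY1 : 1 ≤ Y := one_le_exp (by positivity)
  have hYX : Y * Y ≤ X := by
    rw [hY, hX, ← exp_add]
    apply exp_le_exp.2
    rw [← add_div]
    gcongr
    rw [hK]
    linarith only [hbase]
  have hYX' : Y ≤ X := by nlinarith only [hY1, hYX]
  have hAK : 112 * E * S * A ≤ 1 := by
    calc 112 * E * S * A ≤ 112 * E * S * (m * (K2 * Y)) := by gcongr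
      _ = (112 * (S * E * K2)) * Y * m := by ring
      _ ≤ K * X * m := by
          have c1 : S * E * K2 ≤ S * E ^ 4 * K2 ^ 2 := by
            have d1 : E ≤ E ^ 4 := le_self_pow₀ hE (by norm_num)
            have d2 : K2 ≤ K2 ^ 2 := le_self_pow₀ hK21 (by norm_num)
            gcongr
          have c2 : 112 * (S * E * K2) ≤ K := by linarith
          gcongr
      _ ≤ 1 := hc2
  have hsl2 : √l2 ≤ 1 := by rw [sqrt_le_one]; exact hl21
  obtain ⟨f2, v2, s, s', T2, f20, f2r, hs, f2b⟩ := nl_piece hχ ⟨hl20, hl21⟩ hS hL (by linarith)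
    hA0 (le_refl A) hb2 (fun t ht y hy => (abs_add_le _ _).trans (add_le_add (hwA t ht y hy)
      ((hr1.heat ⟨ht.1, ht.2.trans hl21⟩).b0 y)))
    (by
      calc 112 * E * l2 * S * A = 112 * E * S * A * l2 := by ring
        _ ≤ 112 * E * S * A * 1 := by gcongr
        _ ≤ 1 := by rw [mul_one]; exact hAK)
    (by
      calc 26 * E * √l2 * S * A = 26 * E * S * A * √l2 := by ring
        _ ≤ 26 * E * S * A * 1 := by gcongr
        _ ≤ 112 * E * S * A := by
            rw [mul_one]
            have : 0 ≤ E * S * A := by positivity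
            linarith only [this]
        _ ≤ 1 := hAK)
  have hl2' : l2 ∈ Ioc 0 l2 := ⟨hl20, le_rfl⟩
  have hBA : 13 * S * A * A * E ≤ A := by
    calc 13 * S * A * A * E = (13 * (E * S * A)) * A := by ring
      _ ≤ 1 * A := by
          have : 0 ≤ E * S * A := by positivity
          gcongr
          linarith only [this, hAK]
      _ = A := one_mul A
  have hE1 : (1:ℝ) * (l2 * 1) = l2 := by ring
  -- the new datum
  have hold : Odd1 (ρ * E + 26 * S * E * A ^ 2) (ρ * E + 26 * S * E * A ^ 2)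
      (fun y => H l2 (r l) y + s l2 y) (fun y => H l2 (r' l) y + s' l2 y) := by
    refine (hr1.heat ⟨hl20.le, hl21⟩).add ((hs l2 hl2').mono ?_ ?_)
    · calc l2 * (13 * S * A * A * E) = 13 * S * E * A ^ 2 * l2 := by ring
        _ ≤ 13 * S * E * A ^ 2 * 1 := by gcongr
        _ ≤ 26 * S * E * A ^ 2 := by
            have : 0 ≤ S * E * A ^ 2 := by positivity
            linarith only [this]
    · calc 2 * √l2 * (13 * S * A * A * E) = 26 * S * E * A ^ 2 * √l2 := by ring
        _ ≤ 26 * S * E * A ^ 2 * 1 := by gcongr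
        _ = _ := mul_one _
  have hnew : ρ * E + 26 * S * E * A ^ 2 ≤ K * X * m * m' := by
    have c1 : A ^ 2 ≤ m * m' * (K2 ^ 2 * X) := by
      calc A ^ 2 ≤ (m * (K2 * Y)) ^ 2 := by gcongr
        _ = m * m * (K2 ^ 2 * (Y * Y)) := by ring
        _ ≤ m * m' * (K2 ^ 2 * X) := by gcongr
    have c2 : 26 * S * E * A ^ 2 ≤ 26 * (S * E ^ 4 * K2 ^ 2) * X * m * m' := by
      calc 26 * S * E * A ^ 2 ≤ 26 * S * E * (m * m' * (K2 ^ 2 * X)) := by gcongr
        _ ≤ 26 * S * E ^ 4 * (m * m' * (K2 ^ 2 * X)) := by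
            have d1 : E ≤ E ^ 4 := le_self_pow₀ hE (by norm_num)
            gcongr
        _ = _ := by ring
    have c3 : ρ * E ≤ 26 * (S * E ^ 4 * K2 ^ 2) * X * m * m' := by
      calc ρ * E = 26 * (S * E ^ 4 * 1) * 1 * m * m' := by rw [hρ]; ring
        _ ≤ _ := by gcongr
    calc ρ * E + 26 * S * E * A ^ 2 ≤ 26 * (S * E ^ 4 * K2 ^ 2) * X * m * m' +
          26 * (S * E ^ 4 * K2 ^ 2) * X * m * m' := add_le_add c3 c2
      _ = 52 * (S * E ^ 4 * K2 ^ 2) * X * m * m' := by ring
      _ ≤ K * X * m * m' := by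
          have : 52 * (S * E ^ 4 * K2 ^ 2) ≤ K := by
            refine le_trans ?_ hKb
            have : 0 ≤ S * E ^ 4 * K2 ^ 2 := by positivity
            linarith
          gcongr
  -- gluing
  have hglue : ∀ y ∈ Icc 0 L, f1 l y = (fun t y => f2 (t - l) y) l y := by
    intro y _
    simp only [sub_self]
    rw [f1r l ⟨hl0.le, le_rfl⟩, f20, hw0, H_zero]
  have hX0 : 0 < X := by linarith
  have CK : ∀ x, x = m' → E * x ≤ K * x := by
    intro x hx
    have : E ≤ K := by
      have d1 : E ≤ E ^ 2 := le_self_pow₀ hE (by norm_num)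
      have d2 : E ^ 2 ≤ S * E ^ 2 := le_mul_of_one_le_left (by positivity) hS
      linarith only [d1, d2, hK112, hE2]
    rw [hx]; gcongr
  have bnd1 : |(0:ℝ)| + m' * E + 2 * √l * (13 * S * (m * E) * (m' * E) * E) ≤ K * m' + 1 := by
    rw [abs_zero, zero_add]
    have e1 : 2 * √l * (13 * S * (m * E) * (m' * E) * E) ≤ m' * E := by
      have e2 : 26 * S * E ^ 2 * m ≤ 1 := by
        calc 26 * S * E ^ 2 * m ≤ 112 * S * E ^ 2 * m := by gcongr; norm_num
          _ ≤ K * m := by gcongr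
          _ ≤ 1 := hmK
      calc 2 * √l * (13 * S * (m * E) * (m' * E) * E) = (26 * S * E ^ 2 * m) * (√l * (m' * E)) := by
            ring
        _ ≤ 1 * (1 * (m' * E)) := by gcongr
        _ = m' * E := by ring
    have e3 : 2 * E ≤ K := by
      have d1 : E ≤ E ^ 2 := le_self_pow₀ hE (by norm_num)
      have d2 : E ^ 2 ≤ S * E ^ 2 := le_mul_of_one_le_left (by positivity) hS
      linarith only [d1, d2, hK112, hE2]
    have e4 : 2 * E * m' ≤ K * m' := by gcongr
    linarith only [e1, e4]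
  have bnd2 : |(0:ℝ) + 0| + (m * W + ρ * E) + 2 * √l2 * (13 * S * A * A * E) ≤ K * m' + 1 := by
    rw [add_zero, abs_zero, zero_add, ← hA]
    have e1 : 2 * √l2 * (13 * S * A * A * E) ≤ 2 * A := by
      calc 2 * √l2 * (13 * S * A * A * E) ≤ 2 * 1 * A := by gcongr
        _ = 2 * A := by ring
    have e2 : 3 * A ≤ 1 := by
      have : 1 * A ≤ (E * S) * A := by
        have : 1 ≤ E * S := one_le_mul_of_one_le_of_one_le hE hS
        gcongr
      linarith only [this, hAK, hA0]
    have e3 : 0 ≤ K * m' := by positivity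
    linarith
  have T1' := T1.mono (J' := {0}) bnd1 le_rfl (countable_singleton _)
  have T2' := (T2.shift l)
  rw [zero_add] at T2'
  have T2'' := T2'.mono (C' := K * m' + 1) bnd2 le_rfl T2'.count
  have hTg := T1'.glue T2'' hL hl0.le (by linarith) hglue
  have h0L : (0:ℝ) ≤ L := hL
  have hend : l2 + l = l + l2 := add_comm _ _
  rw [hend] at hTg
  refine ⟨_, fun t => if t ≤ l then f1 t else f2 (t - l), _, _, _, hTg.congr (fun t _ y _ => rfl)
    (fun t _ y _ => rfl) (fun t _ y _ => rfl) hL (fun t _ => ?_), ?_, ?_, hold.mono hnew hnew, ?_⟩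
  · split_ifs
    · rfl
    · exact add_zero 0
  · intro y _
    show (if (0:ℝ) ≤ l then f1 0 else f2 (0 - l)) y = e y
    rw [if_pos hl0.le, f10, H_zero]
  · intro y _
    show (if l + l2 ≤ l then f1 (l + l2) else f2 (l + l2 - l)) y = _
    rw [if_neg (by linarith), add_sub_cancel_left, f2r l2 ⟨hl20.le, le_rfl⟩, hw1, zero_add]
  · intro t ht y hy
    have a1 : m * E + l * (13 * S * (m * E) * (m' * E) * E) ≤ K * X * m := by
      have e1 : l * (13 * S * (m * E) * (m' * E) * E) ≤ m * E := by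
        calc l * (13 * S * (m * E) * (m' * E) * E) = (13 * S * E ^ 2 * l * m') * (m * E) := by ring
          _ ≤ 1 * (m * E) := by
              have : 13 * S * E ^ 2 * l * m' ≤ 1 := by
                refine le_trans ?_ hlm
                have : 0 ≤ S * E ^ 2 * l * m' := by positivity
                linarith only [this]
              gcongr
          _ = m * E := one_mul _
      have e3 : 2 * E ≤ K := by
        have d1 : E ≤ E ^ 2 := le_self_pow₀ hE (by norm_num)
        have d2 : E ^ 2 ≤ S * E ^ 2 := le_mul_of_one_le_left (by positivity) hS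
        linarith only [d1, d2, hK112, hE2]
      calc m * E + l * (13 * S * (m * E) * (m' * E) * E) ≤ (2 * E) * 1 * m := by linarith
        _ ≤ K * X * m := by gcongr
    have a2 : A + l2 * (13 * S * A * A * E) ≤ K * X * m := by
      have e1 : l2 * (13 * S * A * A * E) ≤ A := by
        calc l2 * (13 * S * A * A * E) ≤ 1 * A := by gcongr
          _ = A := one_mul _
      calc A + l2 * (13 * S * A * A * E) ≤ 2 * (m * (K2 * Y)) := by linarith
        _ = (2 * K2) * Y * m := by ring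
        _ ≤ K * X * m := by
            have : 2 * K2 ≤ K := by
              refine le_trans ?_ hKb
              have d2 : K2 ≤ K2 ^ 2 := le_self_pow₀ hK21 (by norm_num)
              have d3 : 1 ≤ S * E ^ 4 := one_le_mul_of_one_le_of_one_le hS hE4
              have d4 : K2 ^ 2 ≤ S * E ^ 4 * K2 ^ 2 := le_mul_of_one_le_left (by positivity) d3
              linarith only [d2, d4, hK21]
            gcongr
    by_cases htl : t ≤ l
    · show |(if t ≤ l then f1 t else f2 (t - l)) y| ≤ _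
      rw [if_pos htl]
      exact (f1b t ⟨ht.1, htl⟩ y hy).trans a1
    · show |(if t ≤ l then f1 t else f2 (t - l)) y| ≤ _
      rw [if_neg htl]
      push Not at htl
      exact (f2b (t - l) ⟨by linarith, by linarith [ht.2]⟩ y hy).trans a2

end Pool.Agent.Lib.MP_79abb3_an
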