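import Pool.Agent.Lib.MP_79abb3_an.Max

/-!
Two-point maximum principles (gradient bounds).
-/

set_option autoImplicit false
set_option linter.unusedSectionVars false
set_option linter.unusedVariables false

open MeasureTheory Set Filter Topology Real Function

namespace Pool.Agent.Lib.MP_79abb3_an

/-- The profile. -/
noncomputable def Om (z : ℝ) : ℝ := 1 - (max (1 - z) 0) ^ 2

theorem Om_cont : Continuous Om := by unfold Om; fun_prop

theorem Om_eq {z : ℝ} (h : z ≤ 1) : Om z = 2 * z - z ^ 2 := by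
  rw [Om, max_eq_left (by linarith)]; ring

theorem Om_one {z : ℝ} (h : 1 ≤ z) : Om z = 1 := by
  rw [Om, max_eq_right (by linarith)]; ring

theorem Om_nonneg {z : ℝ} (h : 0 ≤ z) : 0 ≤ Om z := by
  rcases le_total z 1 with h1 | h1
  · rw [Om_eq h1]; nlinarith
  · rw [Om_one h1]; exact zero_le_one

theorem le_Om {z : ℝ} (h : 0 ≤ z) (h1 : z ≤ 1) : z ≤ Om z := by
  rw [Om_eq h1]; nlinarith

theorem twoPt_core {g v w : ℝ → ℝ} (dg : ∀ y, HasDerivAt g (v y) y)
    (dv : ∀ y, HasDerivAt v (w y) y) {A μ q e p1 p2 : ℝ} (hq : 0 < q)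
    (he : e = 1 ∨ e = -1) (hr : 0 < e * (p1 - p2))
    (hz : e * (p1 - p2) * q < 1)
    (hmax : ∀ᶠ x : ℝ × ℝ in 𝓝 (p1, p2), 0 ≤ x.2 →
      g x.1 - g x.2 - A * exp (-μ * (x.1 + x.2)) * Om (|x.1 - x.2| * q) ≤
      g p1 - g p2 - A * exp (-μ * (p1 + p2)) * Om (|p1 - p2| * q)) (hp2 : 0 ≤ p2) :
    v p1 = A * exp (-μ * (p1 + p2)) * (e * (2 * q - 2 * (e * (p1 - p2)) * q ^ 2) -
      μ * (2 * (e * (p1 - p2)) * q - (e * (p1 - p2)) ^ 2 * q ^ 2)) ∧
    w p1 ≤ A * exp (-μ * (p1 + p2)) * (-2 * q ^ 2 -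
      2 * μ * e * (2 * q - 2 * (e * (p1 - p2)) * q ^ 2) +
      μ ^ 2 * (2 * (e * (p1 - p2)) * q - (e * (p1 - p2)) ^ 2 * q ^ 2)) ∧
    (0 < p2 → v p2 = A * exp (-μ * (p1 + p2)) * (e * (2 * q - 2 * (e * (p1 - p2)) * q ^ 2) +
      μ * (2 * (e * (p1 - p2)) * q - (e * (p1 - p2)) ^ 2 * q ^ 2)) ∧
      w p1 - w p2 ≤ A * exp (-μ * (p1 + p2)) * (-8 * q ^ 2)) := by
  have hee : e * e = 1 := by rcases he with h | h <;> rw [h] <;> norm_num
  have habs : ∀ {x y : ℝ}, 0 < e * (x - y) → |x - y| = e * (x - y) := by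
    intro x y h
    rcases he with h1 | h1
    · rw [h1, one_mul] at h ⊢; exact abs_of_pos h
    · rw [h1] at h ⊢; rw [abs_of_neg (by linarith)]; ring
  have hOm : ∀ {x y : ℝ}, 0 < e * (x - y) → e * (x - y) * q < 1 →
      Om (|x - y| * q) = 2 * (e * (x - y)) * q - (e * (x - y)) ^ 2 * q ^ 2 := by
    intro x y h1 h2
    rw [habs h1, Om_eq h2.le]; ring
  have hnear : ∀ᶠ x : ℝ × ℝ in 𝓝 (p1, p2), 0 < e * (x.1 - x.2) ∧ e * (x.1 - x.2) * q < 1 := by
    have c1 : Continuous fun x : ℝ × ℝ => e * (x.1 - x.2) := by fun_prop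
    have c2 : Continuous fun x : ℝ × ℝ => e * (x.1 - x.2) * q := by fun_prop
    exact (c1.continuousAt.eventually (lt_mem_nhds hr)).and
      (c2.continuousAt.eventually (gt_mem_nhds hz))
  have hmax' : ∀ᶠ x : ℝ × ℝ in 𝓝 (p1, p2), 0 ≤ x.2 →
      g x.1 - g x.2 - A * exp (-μ * (x.1 + x.2)) *
        (2 * (e * (x.1 - x.2)) * q - (e * (x.1 - x.2)) ^ 2 * q ^ 2) ≤
      g p1 - g p2 - A * exp (-μ * (p1 + p2)) *
        (2 * (e * (p1 - p2)) * q - (e * (p1 - p2)) ^ 2 * q ^ 2) := by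
    filter_upwards [hmax, hnear] with x hx hx' h0
    rw [← hOm hx'.1 hx'.2, ← hOm hr hz]
    exact hx h0
  -- variation in the first variable
  have t1 : Tendsto (fun x : ℝ => (x, p2)) (𝓝 p1) (𝓝 (p1, p2)) :=
    (by fun_prop : Continuous fun x : ℝ => (x, p2)).tendsto p1
  have hE1 : ∀ x : ℝ, HasDerivAt (fun x => A * exp (-μ * (x + p2))) (-μ * (A * exp (-μ * (x + p2)))) x := by
    intro x
    have := ((((hasDerivAt_id x).add_const p2).const_mul (-μ)).exp).const_mul A
    refine this.congr_deriv ?_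
    simp; ring
  have hr1 : ∀ x : ℝ, HasDerivAt (fun x => e * (x - p2)) e x := by
    intro x
    simpa using ((hasDerivAt_id x).sub_const p2).const_mul e
  have hO1 : ∀ x : ℝ, HasDerivAt (fun x => 2 * (e * (x - p2)) * q - (e * (x - p2)) ^ 2 * q ^ 2)
      (e * (2 * q - 2 * (e * (x - p2)) * q ^ 2)) x := by
    intro x
    have := (((hr1 x).const_mul 2).mul_const q).sub (((hr1 x).pow 2).mul_const (q ^ 2))
    refine this.congr_deriv ?_
    simp; ring
  have hV1 : ∀ x : ℝ, HasDerivAt (fun x => e * (2 * q - 2 * (e * (x - p2)) * q ^ 2)) (-2 * q ^ 2) x := by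
    intro x
    have := ((((hr1 x).const_mul 2).mul_const (q ^ 2)).const_sub (2 * q)).const_mul e
    refine this.congr_deriv ?_
    linear_combination (-2 * q ^ 2) * hee
  have m1 := second_max
    (f := fun x => g x - g p2 - A * exp (-μ * (x + p2)) *
      (2 * (e * (x - p2)) * q - (e * (x - p2)) ^ 2 * q ^ 2))
    (f' := fun x => v x - (-μ * (A * exp (-μ * (x + p2))) *
      (2 * (e * (x - p2)) * q - (e * (x - p2)) ^ 2 * q ^ 2) +
      A * exp (-μ * (x + p2)) * (e * (2 * q - 2 * (e * (x - p2)) * q ^ 2))))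
    (p := p1) ((t1.eventually hmax').mono fun x hx => hx hp2)
    (Eventually.of_forall fun x => (((dg x).sub_const (g p2)).sub ((hE1 x).mul (hO1 x))))
    ((dv p1).sub ((((hE1 p1).const_mul (-μ)).mul (hO1 p1)).add ((hE1 p1).mul (hV1 p1))))
  refine ⟨by linarith [m1.1], by linarith [m1.2], fun hp2' => ?_⟩
  -- variation in the second variable
  have t2 : Tendsto (fun x : ℝ => (p1, x)) (𝓝 p2) (𝓝 (p1, p2)) :=
    (by fun_prop : Continuous fun x : ℝ => (p1, x)).tendsto p2
  have hE2 : ∀ x : ℝ, HasDerivAt (fun x => A * exp (-μ * (p1 + x))) (-μ * (A * exp (-μ * (p1 + x)))) x := by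
    intro x
    have := ((((hasDerivAt_id x).const_add p1).const_mul (-μ)).exp).const_mul A
    refine this.congr_deriv ?_
    simp; ring
  have hr2 : ∀ x : ℝ, HasDerivAt (fun x => e * (p1 - x)) (-e) x := by
    intro x
    simpa using ((hasDerivAt_id x).const_sub p1).const_mul e
  have hO2 : ∀ x : ℝ, HasDerivAt (fun x => 2 * (e * (p1 - x)) * q - (e * (p1 - x)) ^ 2 * q ^ 2)
      (-(e * (2 * q - 2 * (e * (p1 - x)) * q ^ 2))) x := by
    intro x
    have := (((hr2 x).const_mul 2).mul_const q).sub (((hr2 x).pow 2).mul_const (q ^ 2))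
    refine this.congr_deriv ?_
    simp; ring
  have hV2 : ∀ x : ℝ, HasDerivAt (fun x => -(e * (2 * q - 2 * (e * (p1 - x)) * q ^ 2))) (-2 * q ^ 2) x := by
    intro x
    have := (((((hr2 x).const_mul 2).mul_const (q ^ 2)).const_sub (2 * q)).const_mul e).neg
    refine this.congr_deriv ?_
    linear_combination (-2 * q ^ 2) * hee
  have m2 := second_max
    (f := fun x => g p1 - g x - A * exp (-μ * (p1 + x)) *
      (2 * (e * (p1 - x)) * q - (e * (p1 - x)) ^ 2 * q ^ 2))
    (f' := fun x => -v x - (-μ * (A * exp (-μ * (p1 + x))) *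
      (2 * (e * (p1 - x)) * q - (e * (p1 - x)) ^ 2 * q ^ 2) +
      A * exp (-μ * (p1 + x)) * (-(e * (2 * q - 2 * (e * (p1 - x)) * q ^ 2)))))
    (p := p2) (by
      filter_upwards [t2.eventually hmax', Ioi_mem_nhds hp2'] with x hx hx'
      exact hx (mem_Ioi.1 hx').le)
    (Eventually.of_forall fun x => (((dg x).const_sub (g p1)).sub ((hE2 x).mul (hO2 x))))
    ((dv p2).neg.sub ((((hE2 p2).const_mul (-μ)).mul (hO2 p2)).add ((hE2 p2).mul (hV2 p2))))
  refine ⟨by linarith [m2.1], ?_⟩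
  -- variation along the antidiagonal
  have t3 : Tendsto (fun x : ℝ => (p1 + x, p2 - x)) (𝓝 0) (𝓝 (p1, p2)) := by
    have := (by fun_prop : Continuous fun x : ℝ => (p1 + x, p2 - x)).tendsto 0
    simpa using this
  have ha1 : ∀ x : ℝ, HasDerivAt (fun x => p1 + x) 1 x := fun x => by
    simpa using (hasDerivAt_id x).const_add p1
  have ha2 : ∀ x : ℝ, HasDerivAt (fun x => p2 - x) (-1) x := fun x => by
    simpa using (hasDerivAt_id x).const_sub p2
  have hr3 : ∀ x : ℝ, HasDerivAt (fun x => e * ((p1 + x) - (p2 - x))) (2 * e) x := by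
    intro x
    have := ((ha1 x).sub (ha2 x)).const_mul e
    refine this.congr_deriv ?_
    ring
  have hO3 : ∀ x : ℝ, HasDerivAt (fun x => 2 * (e * ((p1 + x) - (p2 - x))) * q -
      (e * ((p1 + x) - (p2 - x))) ^ 2 * q ^ 2)
      (2 * e * (2 * q - 2 * (e * ((p1 + x) - (p2 - x))) * q ^ 2)) x := by
    intro x
    have := (((hr3 x).const_mul 2).mul_const q).sub (((hr3 x).pow 2).mul_const (q ^ 2))
    refine this.congr_deriv ?_
    simp; ring
  have hV3 : ∀ x : ℝ, HasDerivAt (fun x => 2 * e * (2 * q - 2 * (e * ((p1 + x) - (p2 - x))) * q ^ 2))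
      (-8 * q ^ 2) x := by
    intro x
    have := ((((hr3 x).const_mul 2).mul_const (q ^ 2)).const_sub (2 * q)).const_mul (2 * e)
    refine this.congr_deriv ?_
    linear_combination (-8 * q ^ 2) * hee
  have hg1 : ∀ x, HasDerivAt (fun x => g (p1 + x)) (v (p1 + x)) x := fun x => by
    have := (dg (p1 + x)).comp x (ha1 x)
    rwa [mul_one] at this
  have hg2 : ∀ x, HasDerivAt (fun x => g (p2 - x)) (-v (p2 - x)) x := fun x => by
    have := (dg (p2 - x)).comp x (ha2 x)
    refine this.congr_deriv ?_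
    ring
  have hv1 : ∀ x, HasDerivAt (fun x => v (p1 + x)) (w (p1 + x)) x := fun x => by
    have := (dv (p1 + x)).comp x (ha1 x)
    rwa [mul_one] at this
  have hv2 : ∀ x, HasDerivAt (fun x => v (p2 - x)) (-w (p2 - x)) x := fun x => by
    have := (dv (p2 - x)).comp x (ha2 x)
    refine this.congr_deriv ?_
    ring
  have m3 := second_max
    (f := fun x => g (p1 + x) - g (p2 - x) - A * exp (-μ * (p1 + p2)) *
      (2 * (e * ((p1 + x) - (p2 - x))) * q - (e * ((p1 + x) - (p2 - x))) ^ 2 * q ^ 2))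
    (f' := fun x => v (p1 + x) - -v (p2 - x) - A * exp (-μ * (p1 + p2)) *
      (2 * e * (2 * q - 2 * (e * ((p1 + x) - (p2 - x))) * q ^ 2)))
    (f'' := w (p1 + 0) - - -w (p2 - 0) - A * exp (-μ * (p1 + p2)) * (-8 * q ^ 2))
    (p := 0) (by
      have h4 : ∀ᶠ x in 𝓝 (0:ℝ), x < p2 := gt_mem_nhds hp2'
      filter_upwards [t3.eventually hmax', h4] with x hx hx'
      have h5 := hx (by show 0 ≤ p2 - x; linarith)
      have e1 : (p1 + x) + (p2 - x) = p1 + p2 := by ring
      simp only [e1] at h5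
      simpa using h5)
    (Eventually.of_forall fun x => ((hg1 x).sub (hg2 x)).sub ((hO3 x).const_mul _))
    (((hv1 0).sub (hv2 0).neg).sub ((hV3 0).const_mul _))
  have := m3.2
  simp only [add_zero, sub_zero, neg_neg] at this
  linarith

section apriori
variable {a b : ℝ} {g v w : ℝ → ℝ → ℝ}

/-- bounds for differences of primitives -/
theorem prim_diff {f : ℝ → ℝ} {A e p1 p2 : ℝ} (hf : Continuous f)
    (h : ∀ z, 0 ≤ z → f z ≤ A) (hn : ∀ z, 0 ≤ z → 0 ≤ f z) (hp1 : 0 ≤ p1) (hp2 : 0 ≤ p2)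
    (he : e = 1 ∨ e = -1) (hr : 0 < e * (p1 - p2)) :
    e * ((∫ z in (0:ℝ)..p1, f z) - ∫ z in (0:ℝ)..p2, f z) ≤ A * (e * (p1 - p2)) := by
  have hi : ∀ x y : ℝ, IntervalIntegrable f volume x y := fun x y => hf.intervalIntegrable _ _
  have key : ∀ x y : ℝ, 0 ≤ x → x ≤ y → ∫ z in x..y, f z ≤ A * (y - x) := by
    intro x y hx hxy
    have := intervalIntegral.integral_mono_on hxy (hi x y) (intervalIntegrable_const (c := A))
      fun z hz => h z (hx.trans hz.1)
    rw [intervalIntegral.integral_const, smul_eq_mul] at this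
    linarith
  rw [intervalIntegral.integral_interval_sub_left (hi _ _) (hi _ _)]
  rcases he with h1 | h1
  · rw [h1, one_mul] at hr ⊢
    rw [one_mul]
    exact key p2 p1 hp2 (by linarith)
  · rw [h1] at hr ⊢
    rw [intervalIntegral.integral_symm]
    have := key p1 p2 hp1 (by linarith)
    linarith

theorem two_arith {t z q W X : ℝ} (ht : 0 < t) (hz0 : 0 < z) (hz1 : z < 1) (hq2 : 1 / t ≤ q ^ 2)
    (hX : (1 / t) ^ 2 * (2 * z - z ^ 2) ^ 2 ≤ X) (hW : W ≤ 1 / t * (-2 * q ^ 2)) :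
    W + (1 / t) ^ 2 * (2 * (z * (1 - z))) - X -
      (-(1 / t) ^ 2 * (2 * z - z ^ 2) + 1 / t * (-(q ^ 2 * (z * (1 - z))))) < 0 := by
  have hzz : 0 ≤ z * (1 - z) := mul_nonneg hz0.le (by linarith)
  have hzz4 : z * (1 - z) ≤ 1/4 := by nlinarith [sq_nonneg (z - 1/2)]
  have hti : 0 < 1 / t := by positivity
  have h1 : 1 / t * (1 / t) ≤ 1 / t * q ^ 2 := by gcongr
  have h3 : (2 * z - z ^ 2) * (1 - (2 * z - z ^ 2)) ≤ 1/4 := by
    nlinarith [sq_nonneg ((2 * z - z ^ 2) - 1/2)]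
  have h4 : 1 / t * (q ^ 2 * (z * (1 - z))) ≤ 1 / t * (q ^ 2 * (1/4)) := by gcongr
  have h5 : (1 / t) ^ 2 * (2 * (z * (1 - z))) ≤ (1 / t) ^ 2 * (2 * (1/4)) := by gcongr
  have h6 : (1 / t) ^ 2 * ((2 * z - z ^ 2) * (1 - (2 * z - z ^ 2))) ≤ (1 / t) ^ 2 * (1/4) := by
    gcongr
  have h7 : 0 < (1 / t) ^ 2 := by positivity
  nlinarith

theorem barrier_time {t a σ r : ℝ} (ht : 0 < t) (hs0 : 0 < t - a + σ)
    (hz : r * (√(t - a + σ))⁻¹ < 1) :
    HasDerivAt (fun s => 1 / s * Om (r * (√(s - a + σ))⁻¹))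
      (-(1 / t) ^ 2 * (2 * (r * (√(t - a + σ))⁻¹) - (r * (√(t - a + σ))⁻¹) ^ 2) +
        1 / t * (-(((√(t - a + σ))⁻¹) ^ 2 * ((r * (√(t - a + σ))⁻¹) *
          (1 - r * (√(t - a + σ))⁻¹))))) t := by
  have hsq := sqrt_pos.2 hs0
  set q := (√(t - a + σ))⁻¹ with hq
  have hq0 : 0 < q := by positivity
  have hqd : HasDerivAt (fun s => (√(s - a + σ))⁻¹) (-(q ^ 3) / 2) t := by
    have h1 : HasDerivAt (fun s : ℝ => s - a + σ) 1 t := by
      simpa using ((hasDerivAt_id t).sub_const a).add_const σ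
    have h2 := (h1.sqrt hs0.ne').inv hsq.ne'
    refine h2.congr_deriv ?_
    rw [hq]
    field_simp
  have hzt : HasDerivAt (fun s => r * (√(s - a + σ))⁻¹) (r * (-(q ^ 3) / 2)) t :=
    hqd.const_mul r
  have hOmt : HasDerivAt (fun s => Om (r * (√(s - a + σ))⁻¹))
      (-(q ^ 2 * ((r * q) * (1 - r * q)))) t := by
    have h1 : HasDerivAt (fun s => 2 * (r * (√(s - a + σ))⁻¹) - (r * (√(s - a + σ))⁻¹) ^ 2)
        (-(q ^ 2 * ((r * q) * (1 - r * q)))) t := by
      have := (hzt.const_mul 2).sub (hzt.pow 2)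
      refine this.congr_deriv ?_
      rw [← hq]
      simp only [Nat.cast_ofNat, Nat.add_one_sub_one, pow_one]
      ring
    refine h1.congr_of_eventuallyEq ?_
    have h2 : ∀ᶠ s in 𝓝 t, r * (√(s - a + σ))⁻¹ < 1 :=
      hzt.continuousAt.eventually (gt_mem_nhds hz)
    filter_upwards [h2] with s hs
    rw [Om_eq hs.le]
  have hinv : HasDerivAt (fun s : ℝ => 1 / s) (-(1 / t) ^ 2) t := by
    have := (hasDerivAt_inv ht.ne')
    simp only [one_div]
    refine this.congr_deriv ?_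
    rw [inv_pow]
  refine (hinv.mul hOmt).congr_deriv ?_
  rw [← hq, Om_eq hz.le]

/-- The unweighted two-point estimate. -/
theorem Sol.twoPt (h : Sol (Icc a b) (Ioc a b) g v w) (ha : 0 < a) (hab : a < b)
    (hnn : ∀ t ∈ Icc a b, ∀ y, 0 ≤ y → 0 ≤ g t y)
    (hle : ∀ t ∈ Icc a b, ∀ y, 0 ≤ y → t * g t y ≤ 1) {σ : ℝ} (hσ : 0 < σ) (hσa : σ ≤ a)
    (h0 : ∀ x y, 0 ≤ x → 0 ≤ y → a * √σ * (g a x - g a y) ≤ |x - y|) :
    ∀ t ∈ Ico a b, ∀ x y, 0 ≤ x → 0 ≤ y →
      g t x - g t y ≤ (1 / t) * Om (|x - y| * (√(t - a + σ))⁻¹) := by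
  obtain ⟨C, hC⟩ := h.bd
  have hC0 : 0 ≤ C := by
    have := (hC a ⟨le_rfl, hab.le⟩ 0).1
    rw [om_zero, mul_one] at this
    exact (abs_nonneg _).trans this
  have hle' : ∀ t ∈ Icc a b, ∀ y, 0 ≤ y → g t y ≤ 1 / t := fun t ht y hy => by
    rw [le_div_iff₀ (ha.trans_le ht.1), mul_comm]; exact hle t ht y hy
  have hdle : ∀ t ∈ Icc a b, ∀ x y, 0 ≤ x → 0 ≤ y → g t x - g t y ≤ 1 / t :=
    fun t ht x y hx hy => by linarith [hle' t ht x hx, hnn t ht y hy]
  have key : ∀ ε > 0, ∀ t ∈ Ico a b, ∀ p ∈ {p : ℝ × ℝ | 0 ≤ p.1 ∧ 0 ≤ p.2},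
      g t p.1 - g t p.2 - (1 / t) * Om (|p.1 - p.2| * (√(t - a + σ))⁻¹) - ε ≤ 0 := by
    intro ε hε
    obtain ⟨R, hR0, hR⟩ := om_small (C := C) (ε := ε) hC0 hε
    set R2 := R + √(b - a + σ) with hR2
    refine maxp (D := {p : ℝ × ℝ | 0 ≤ p.1 ∧ 0 ≤ p.2}) (K := Icc 0 R ×ˢ Icc 0 R2)
      (isCompact_Icc.prod isCompact_Icc) (fun p hp => ⟨hp.1.1, hp.2.1⟩) ?_ ?_ ?_ ?_
    · have c1 : ContinuousOn (fun q : ℝ × (ℝ × ℝ) => g q.1 q.2.1)
          (Icc a b ×ˢ (Icc 0 R ×ˢ Icc 0 R2)) :=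
        h.cg.comp (f := fun q : ℝ × (ℝ × ℝ) => (q.1, q.2.1)) (by fun_prop)
          fun q hq => ⟨hq.1, mem_univ _⟩
      have c2 : ContinuousOn (fun q : ℝ × (ℝ × ℝ) => g q.1 q.2.2)
          (Icc a b ×ˢ (Icc 0 R ×ˢ Icc 0 R2)) :=
        h.cg.comp (f := fun q : ℝ × (ℝ × ℝ) => (q.1, q.2.2)) (by fun_prop)
          fun q hq => ⟨hq.1, mem_univ _⟩
      have c3 : ContinuousOn (fun q : ℝ × (ℝ × ℝ) => 1 / q.1)
          (Icc a b ×ˢ (Icc 0 R ×ˢ Icc 0 R2)) :=
        continuousOn_const.div continuousOn_fst fun q hq => (ha.trans_le hq.1.1).ne'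
      have c4 : ContinuousOn (fun q : ℝ × (ℝ × ℝ) => (√(q.1 - a + σ))⁻¹)
          (Icc a b ×ˢ (Icc 0 R ×ˢ Icc 0 R2)) :=
        ContinuousOn.inv₀ (by fun_prop) fun q hq => (sqrt_pos.2 (by
          have := hq.1.1; linarith)).ne'
      have c5 : ContinuousOn (fun q : ℝ × (ℝ × ℝ) => Om (|q.2.1 - q.2.2| * (√(q.1 - a + σ))⁻¹))
          (Icc a b ×ˢ (Icc 0 R ×ˢ Icc 0 R2)) := by
        refine Om_cont.comp_continuousOn (ContinuousOn.mul (by fun_prop) c4)
      exact ((c1.sub c2).sub (c3.mul c5)).sub continuousOn_const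
    · intro p hp
      have hsσ : 0 < √σ := sqrt_pos.2 hσ
      have e1 : a - a + σ = σ := by ring
      rw [e1]
      have hz0 : 0 ≤ |p.1 - p.2| * (√σ)⁻¹ := by positivity
      rcases le_total (|p.1 - p.2| * (√σ)⁻¹) 1 with h1 | h1
      · have h2 := le_Om hz0 h1
        have h3 := h0 p.1 p.2 hp.1 hp.2
        have h4 : g a p.1 - g a p.2 ≤ 1 / a * (|p.1 - p.2| * (√σ)⁻¹) := by
          rw [div_mul_eq_mul_div, one_mul, le_div_iff₀ ha, le_mul_inv_iff₀ hsσ]
          linarith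
        have h5 : 1 / a * (|p.1 - p.2| * (√σ)⁻¹) ≤ 1 / a * Om (|p.1 - p.2| * (√σ)⁻¹) := by
          gcongr
        linarith
      · rw [Om_one h1]
        have := hdle a ⟨le_rfl, hab.le⟩ p.1 p.2 hp.1 hp.2
        linarith
    · intro t ht p hp hpK
      have ht0 : 0 < t := ha.trans_le ht.1
      have hs0 : 0 < t - a + σ := by linarith [ht.1]
      have hOn : 0 ≤ Om (|p.1 - p.2| * (√(t - a + σ))⁻¹) := Om_nonneg (by positivity)
      by_cases h1 : R ≤ p.1
      · have h2 := hR p.1 h1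
        have h3 := (le_abs_self _).trans (hC t ht p.1).1
        have h4 := hnn t ht p.2 hp.2
        have h5 : 0 ≤ (1 / t) * Om (|p.1 - p.2| * (√(t - a + σ))⁻¹) := by positivity
        linarith
      · push Not at h1
        have h2 : R2 < p.2 := by
          by_contra h3
          push Not at h3
          exact hpK ⟨⟨hp.1, h1.le⟩, ⟨hp.2, h3⟩⟩
        have h3 : √(t - a + σ) ≤ |p.1 - p.2| := by
          rw [abs_of_neg (by rw [hR2] at h2; linarith [sqrt_nonneg (b - a + σ)])]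
          have : √(t - a + σ) ≤ √(b - a + σ) := sqrt_le_sqrt (by linarith [ht.2])
          rw [hR2] at h2
          linarith
        have h4 : 1 ≤ |p.1 - p.2| * (√(t - a + σ))⁻¹ := by
          rw [le_mul_inv_iff₀ (sqrt_pos.2 hs0), one_mul]; exact h3
        rw [Om_one h4]
        have := hdle t ht p.1 p.2 hp.1 hp.2
        linarith
    · rintro t ht ⟨p1, p2⟩ ⟨hp1, hp2⟩ hpos hmax
      simp only at hp1 hp2 hpos hmax
      have ht' : t ∈ Icc a b := ⟨ht.1.le, ht.2.le⟩
      have htJ : t ∈ Ioc a b := ⟨ht.1, ht.2.le⟩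
      have ht0 : 0 < t := ha.trans ht.1
      have hs0 : 0 < t - a + σ := by linarith [ht.1]
      have hsq := sqrt_pos.2 hs0
      set q := (√(t - a + σ))⁻¹ with hq
      have hq0 : 0 < q := by positivity
      have hqq : q ^ 2 * (t - a + σ) = 1 := by
        rw [hq, inv_pow, sq_sqrt hs0.le]; field_simp
      have hz0 : 0 ≤ |p1 - p2| * q := by positivity
      have hz1 : |p1 - p2| * q < 1 := by
        by_contra h3
        push Not at h3
        rw [Om_one h3] at hpos
        have := hdle t ht' p1 p2 hp1 hp2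
        linarith
      have hOn := Om_nonneg hz0
      have hne : p1 ≠ p2 := by
        intro h3
        rw [h3] at hpos
        simp at hpos
        have : Om 0 = 0 := by rw [Om_eq zero_le_one]; norm_num
        rw [this] at hpos
        simp at hpos
        linarith
      have hp1' : 0 < p1 := by
        rcases eq_or_lt_of_le hp1 with h3 | h3
        · rw [← h3, h.z ht'] at hpos
          have h4 := hnn t ht' p2 hp2
          have h5 : 0 ≤ 1 / t * Om (|0 - p2| * q) := by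
            have := Om_nonneg (z := |0 - p2| * q) (by positivity)
            positivity
          linarith
        · exact h3
      obtain ⟨e, he, hr⟩ : ∃ e : ℝ, (e = 1 ∨ e = -1) ∧ 0 < e * (p1 - p2) := by
        rcases lt_or_gt_of_ne hne with h3 | h3
        · exact ⟨-1, Or.inr rfl, by linarith⟩
        · exact ⟨1, Or.inl rfl, by linarith⟩
      have habs : |p1 - p2| = e * (p1 - p2) := by
        rcases he with h1 | h1
        · rw [h1, one_mul] at hr ⊢; exact abs_of_pos hr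
        · rw [h1] at hr ⊢; rw [abs_of_neg (by linarith)]; ring
      set r := e * (p1 - p2) with hrd
      have hz : r * q < 1 := by rw [← habs]; exact hz1
      have hcore := twoPt_core (A := 1 / t) (μ := 0) (q := q) (e := e) (p1 := p1) (p2 := p2)
        (h.dg t ht') (h.dv t htJ) hq0 he hr hz (by
          have h4 : ∀ᶠ x : ℝ × ℝ in 𝓝 (p1, p2), 0 < x.1 :=
            continuous_fst.continuousAt.eventually (lt_mem_nhds hp1')
          filter_upwards [h4] with x hx hx2
          have := hmax x ⟨hx.le, hx2⟩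
          simp only [neg_zero, zero_mul, exp_zero, mul_one]
          linarith) hp2
      rw [← hrd] at hcore
      simp only [neg_zero, zero_mul, exp_zero, mul_one, sub_zero, mul_zero, add_zero, ne_eq,
        OfNat.ofNat_ne_zero, not_false_eq_true, zero_pow] at hcore
      obtain ⟨k1, k2, k3⟩ := hcore
      have hOmz : Om (|p1 - p2| * q) = 2 * (r * q) - (r * q) ^ 2 := by
        rw [Om_eq hz1.le, habs]
      set z := r * q with hzd
      have hzp : 0 < z := mul_pos hr hq0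
      -- time derivative of the barrier
      have hOmt : HasDerivAt (fun s => 1 / s * Om (|p1 - p2| * (√(s - a + σ))⁻¹))
          (-(1 / t) ^ 2 * (2 * z - z ^ 2) + 1 / t * (-(q ^ 2 * (z * (1 - z))))) t := by
        have := barrier_time (r := r) ht0 hs0 hz
        rw [← hq, ← hzd] at this
        rw [habs]
        exact this
      have hft := (((h.dt ht hp1).sub (h.dt ht hp2)).sub hOmt).sub_const ε
      refine ⟨_, ?_, hft⟩
      -- real inequality
      have hg2 : 0 ≤ g t p2 := hnn t ht' p2 hp2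
      have hdiff : 1 / t * (2 * z - z ^ 2) < g t p1 - g t p2 := by
        rw [hOmz] at hpos
        linarith
      have hΩ0 : 0 ≤ 2 * z - z ^ 2 := by nlinarith
      have hti : 0 < 1 / t := by positivity
      have hquad : (1 / t) ^ 2 * (2 * z - z ^ 2) ^ 2 ≤ g t p1 ^ 2 - g t p2 ^ 2 := by
        have h1 : 0 ≤ 1 / t * (2 * z - z ^ 2) := by positivity
        have h2 : g t p1 ^ 2 - g t p2 ^ 2 = (g t p1 - g t p2) * (g t p1 + g t p2) := by ring
        rw [h2]
        have h3 : 1 / t * (2 * z - z ^ 2) ≤ g t p1 + g t p2 := by linarith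
        calc (1 / t) ^ 2 * (2 * z - z ^ 2) ^ 2 =
            (1 / t * (2 * z - z ^ 2)) * (1 / t * (2 * z - z ^ 2)) := by ring
          _ ≤ (g t p1 - g t p2) * (g t p1 + g t p2) :=
              mul_le_mul hdiff.le h3 h1 (h1.trans hdiff.le)
      have hq2 : 1 / t ≤ q ^ 2 := by
        rw [div_le_iff₀ ht0, ← hqq]
        gcongr
        linarith
      have hGG : e * ((∫ z in (0:ℝ)..p1, g t z) - ∫ z in (0:ℝ)..p2, g t z) ≤ 1 / t * r :=
        prim_diff (h.cg1 ht') (fun z hz => hle' t ht' z hz) (hnn t ht') hp1 hp2 he hr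
      have hV0 : 0 ≤ 2 * q - 2 * r * q ^ 2 := by
        have : 2 * q - 2 * r * q ^ 2 = 2 * q * (1 - z) := by rw [hzd]; ring
        rw [this]
        have : 0 < 1 - z := by linarith
        positivity
      rcases eq_or_lt_of_le hp2 with h3 | h3
      · -- boundary case
        have hg20 : g t p2 = 0 := by
          rw [← h3]; exact h.z ht'
        -- w t p2 = 0 at the wall
        have hw2 : w t p2 + qG g v t p2 = 0 := by
          have h4 := h.dt ht hp2
          have h5 : (fun s => g s p2) =ᶠ[𝓝 t] fun _ => 0 := by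
            filter_upwards [Ioo_mem_nhds ht.1 ht.2] with s hs
            rw [← h3]; exact h.z ⟨hs.1.le, hs.2.le⟩
          exact h4.unique ((hasDerivAt_const t (0:ℝ)).congr_of_eventuallyEq h5)
        have hv : qG g v t p1 = (∫ z in (0:ℝ)..p1, g t z) * v t p1 - g t p1 ^ 2 := rfl
        rw [hw2, sub_zero, hv, k1]
        have h6 : (∫ z in (0:ℝ)..p1, g t z) * (1 / t * (e * (2 * q - 2 * r * q ^ 2))) ≤
            (1 / t) ^ 2 * (2 * (z * (1 - z))) := by
          have hG20 : (∫ z in (0:ℝ)..p2, g t z) = 0 := by rw [← h3]; simp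
          rw [hG20, sub_zero] at hGG
          calc (∫ z in (0:ℝ)..p1, g t z) * (1 / t * (e * (2 * q - 2 * r * q ^ 2))) =
              (e * (∫ z in (0:ℝ)..p1, g t z)) * (1 / t * (2 * q - 2 * r * q ^ 2)) := by ring
            _ ≤ (1 / t * r) * (1 / t * (2 * q - 2 * r * q ^ 2)) := by gcongr
            _ = (1 / t) ^ 2 * (2 * (z * (1 - z))) := by rw [hzd]; ring
        have h7 := two_arith ht0 hzp hz hq2 hquad k2
        rw [hg20] at h7
        linarith
      · obtain ⟨k4, k5⟩ := k3 h3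
        have hv : qG g v t p1 = (∫ z in (0:ℝ)..p1, g t z) * v t p1 - g t p1 ^ 2 := rfl
        have hv2 : qG g v t p2 = (∫ z in (0:ℝ)..p2, g t z) * v t p2 - g t p2 ^ 2 := rfl
        rw [hv, hv2, k1, k4]
        have h6 : ((∫ z in (0:ℝ)..p1, g t z) - ∫ z in (0:ℝ)..p2, g t z) *
            (1 / t * (e * (2 * q - 2 * r * q ^ 2))) ≤ (1 / t) ^ 2 * (2 * (z * (1 - z))) := by
          calc ((∫ z in (0:ℝ)..p1, g t z) - ∫ z in (0:ℝ)..p2, g t z) *
                (1 / t * (e * (2 * q - 2 * r * q ^ 2))) =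
              (e * ((∫ z in (0:ℝ)..p1, g t z) - ∫ z in (0:ℝ)..p2, g t z)) *
                (1 / t * (2 * q - 2 * r * q ^ 2)) := by ring
            _ ≤ (1 / t * r) * (1 / t * (2 * q - 2 * r * q ^ 2)) := by gcongr
            _ = (1 / t) ^ 2 * (2 * (z * (1 - z))) := by rw [hzd]; ring
        have h8 : w t p1 - w t p2 ≤ 1 / t * (-2 * q ^ 2) := by
          refine k5.trans ?_
          have : 0 ≤ 1 / t * q ^ 2 := by positivity
          linarith
        have h7 := two_arith ht0 hzp hz hq2 hquad h8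
        linarith
  intro t ht x y hx hy
  by_contra h3
  push Not at h3
  have := key ((g t x - g t y - 1 / t * Om (|x - y| * (√(t - a + σ))⁻¹)) / 2) (by linarith) t ht
    (x, y) ⟨hx, hy⟩
  simp only at this
  linarith

theorem two_arithW {κ lam ai r W G X : ℝ} (hκ : 0 < κ) (hr0 : 0 < r) (hr1 : r < 1) (hai : 0 < ai)
    (hl : 2 * ai ≤ lam) (hX : 0 ≤ X)
    (hW : W ≤ κ * (-2 + 1/4 * (2 * r - r ^ 2))) (hG : G ≤ κ * (ai * r * (2 - 2 * r))) :
    W + G - X - lam * (κ * (2 * r - r ^ 2)) < 0 := by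
  have h1 : 0 < 2 * r - r ^ 2 := by nlinarith
  have h2 : 2 * r - r ^ 2 ≤ 1 := by nlinarith [sq_nonneg (r - 1)]
  have h3 : ai * r * (2 - 2 * r) ≤ lam * (2 * r - r ^ 2) := by
    have h4 : r * (2 - 2 * r) ≤ 2 * (2 * r - r ^ 2) := by nlinarith
    calc ai * r * (2 - 2 * r) = ai * (r * (2 - 2 * r)) := by ring
      _ ≤ ai * (2 * (2 * r - r ^ 2)) := by gcongr
      _ = 2 * ai * (2 * r - r ^ 2) := by ring
      _ ≤ lam * (2 * r - r ^ 2) := by gcongr
  have h5 : κ * (ai * r * (2 - 2 * r)) ≤ κ * (lam * (2 * r - r ^ 2)) := by gcongr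
  have h6 : κ * (-2 + 1/4 * (2 * r - r ^ 2)) ≤ κ * (-2 + 1/4 * 1) := by gcongr
  nlinarith

theorem exp_half_le : exp (1/2) ≤ 2 := by
  have h1 : exp (1/2) * exp (1/2) = exp 1 := by rw [← exp_add]; norm_num
  have h2 := exp_one_lt_d9
  nlinarith [exp_pos (1/2)]

set_option maxHeartbeats 4000000 in
/-- The weighted two-point estimate. -/
theorem Sol.twoPtW (h : Sol (Icc a b) (Ioc a b) g v w) (ha : 0 < a) (hab : a < b)
    (hnn : ∀ t ∈ Icc a b, ∀ y, 0 ≤ y → 0 ≤ g t y)
    (hle : ∀ t ∈ Icc a b, ∀ y, 0 ≤ y → t * g t y ≤ 1) {M : ℝ} (hM : 0 < M)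
    (hw : ∀ t ∈ Icc a b, ∀ y, 0 ≤ y → g t y ≤ M * exp (2 * (t - a) - y))
    (h0 : ∀ y, 0 ≤ y → |v a y| ≤ M * exp (-y)) :
    ∀ t ∈ Ico a b, ∀ x y, 0 ≤ x → 0 ≤ y → |x - y| ≤ 1 →
      g t x - g t y ≤ 2 * M * exp ((2 * (1 / a) + 2) * (t - a)) * exp (-(1/2) * (x + y)) *
        Om (|x - y| * 1) := by
  obtain ⟨C, hC⟩ := h.bd
  have hC0 : 0 ≤ C := by
    have := (hC a ⟨le_rfl, hab.le⟩ 0).1
    rw [om_zero, mul_one] at this
    exact (abs_nonneg _).trans this
  have hai : 0 < 1 / a := by positivity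
  set lam := 2 * (1 / a) + 2 with hlam
  have hle' : ∀ t ∈ Icc a b, ∀ y, 0 ≤ y → g t y ≤ 1 / a := fun t ht y hy => by
    have h1 := hle t ht y hy
    have h2 := hnn t ht y hy
    rw [le_div_iff₀ ha]
    nlinarith [ht.1]
  have key : ∀ ε > 0, ∀ t ∈ Ico a b, ∀ p ∈ {p : ℝ × ℝ | 0 ≤ p.1 ∧ 0 ≤ p.2 ∧ |p.1 - p.2| ≤ 1},
      g t p.1 - g t p.2 - 2 * M * exp (lam * (t - a)) * exp (-(1/2) * (p.1 + p.2)) *
        Om (|p.1 - p.2| * 1) - ε ≤ 0 := by
    intro ε hε
    obtain ⟨R, hR0, hR⟩ := om_small (C := C) (ε := ε) hC0 hε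
    refine maxp (D := {p : ℝ × ℝ | 0 ≤ p.1 ∧ 0 ≤ p.2 ∧ |p.1 - p.2| ≤ 1})
      (K := (Icc 0 R ×ˢ Icc 0 (R + 1)) ∩ {p | |p.1 - p.2| ≤ 1}) ?_
      (fun p hp => ⟨hp.1.1.1, hp.1.2.1, hp.2⟩) ?_ ?_ ?_ ?_
    · exact (isCompact_Icc.prod isCompact_Icc).inter_right
        (isClosed_le (by fun_prop) continuous_const)
    · set KK := (Icc 0 R ×ˢ Icc 0 (R + 1)) ∩ {p : ℝ × ℝ | |p.1 - p.2| ≤ 1}
      have c1 : ContinuousOn (fun q : ℝ × (ℝ × ℝ) => g q.1 q.2.1) (Icc a b ×ˢ KK) :=
        h.cg.comp (f := fun q : ℝ × (ℝ × ℝ) => (q.1, q.2.1)) (by fun_prop)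
          fun q hq => ⟨hq.1, mem_univ _⟩
      have c2 : ContinuousOn (fun q : ℝ × (ℝ × ℝ) => g q.1 q.2.2) (Icc a b ×ˢ KK) :=
        h.cg.comp (f := fun q : ℝ × (ℝ × ℝ) => (q.1, q.2.2)) (by fun_prop)
          fun q hq => ⟨hq.1, mem_univ _⟩
      have c5 : ContinuousOn (fun q : ℝ × (ℝ × ℝ) => 2 * M * exp (lam * (q.1 - a)) *
          exp (-(1/2) * (q.2.1 + q.2.2)) * Om (|q.2.1 - q.2.2| * 1)) (Icc a b ×ˢ KK) := by
        have := Om_cont
        fun_prop
      exact ((c1.sub c2).sub c5).sub continuousOn_const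
    · rintro ⟨p1, p2⟩ ⟨hp1, hp2, hp3⟩
      simp only at hp1 hp2 hp3
      rw [sub_self, mul_zero, exp_zero, mul_one, mul_one]
      have hz0 : 0 ≤ |p1 - p2| := abs_nonneg _
      have h2 := le_Om hz0 hp3
      have haI : a ∈ Icc a b := ⟨le_rfl, hab.le⟩
      -- mean value
      have h3 : g a p1 - g a p2 ≤ M * exp (-(min p1 p2)) * |p1 - p2| := by
        have hconv : Convex ℝ (Icc (min p1 p2) (max p1 p2)) := convex_Icc _ _
        have h4 := Convex.norm_image_sub_le_of_norm_hasDerivWithin_le (f := g a) (f' := v a)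
          (C := M * exp (-(min p1 p2))) (s := Icc (min p1 p2) (max p1 p2)) (x := p2) (y := p1)
          (fun x hx => (h.dg a haI x).hasDerivWithinAt) (fun x hx => by
            have hx0 : 0 ≤ x := (le_min hp1 hp2).trans hx.1
            refine (h0 x hx0).trans ?_
            gcongr
            exact hx.1) hconv ⟨min_le_right _ _, le_max_right _ _⟩
          ⟨min_le_left _ _, le_max_left _ _⟩
        exact (le_abs_self _).trans h4
      have h5 : exp (-(min p1 p2)) ≤ 2 * exp (-(1/2) * (p1 + p2)) := by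
        have h6 : -(min p1 p2) ≤ 1/2 + -(1/2) * (p1 + p2) := by
          have := abs_le.1 hp3
          rcases le_total p1 p2 with h7 | h7
          · rw [min_eq_left h7]; linarith [this.1]
          · rw [min_eq_right h7]; linarith [this.2]
        calc exp (-(min p1 p2)) ≤ exp (1/2 + -(1/2) * (p1 + p2)) := exp_le_exp.2 h6
          _ = exp (1/2) * exp (-(1/2) * (p1 + p2)) := exp_add _ _
          _ ≤ 2 * exp (-(1/2) * (p1 + p2)) := by gcongr; exact exp_half_le
      have h8 : M * exp (-(min p1 p2)) * |p1 - p2| ≤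
          2 * M * exp (-(1/2) * (p1 + p2)) * Om |p1 - p2| := by
        calc M * exp (-(min p1 p2)) * |p1 - p2| ≤
            M * (2 * exp (-(1/2) * (p1 + p2))) * Om |p1 - p2| := by gcongr
          _ = _ := by ring
      linarith
    · intro t ht p hp hpK
      have h1 : R < p.1 := by
        by_contra h3
        push Not at h3
        have := abs_le.1 hp.2.2
        exact hpK ⟨⟨⟨hp.1, h3⟩, ⟨hp.2.1, by linarith [this.1]⟩⟩, hp.2.2⟩
      have h2 := hR p.1 h1.le
      have h3 := (le_abs_self _).trans (hC t ht p.1).1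
      have h4 := hnn t ht p.2 hp.2.1
      have hOn : 0 ≤ Om (|p.1 - p.2| * 1) := Om_nonneg (by positivity)
      have h5 : 0 ≤ 2 * M * exp (lam * (t - a)) * exp (-(1/2) * (p.1 + p.2)) *
        Om (|p.1 - p.2| * 1) := by positivity
      linarith
    · rintro t ht ⟨p1, p2⟩ ⟨hp1, hp2, hp3⟩ hpos hmax
      simp only at hp1 hp2 hp3 hpos hmax
      have ht' : t ∈ Icc a b := ⟨ht.1.le, ht.2.le⟩
      have htJ : t ∈ Ioc a b := ⟨ht.1, ht.2.le⟩
      have ht0 : 0 < t := ha.trans ht.1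
      set A := 2 * M * exp (lam * (t - a)) with hA
      have hA0 : 0 < A := by positivity
      have hOn : 0 ≤ Om (|p1 - p2| * 1) := Om_nonneg (by positivity)
      have hz1 : |p1 - p2| < 1 := by
        by_contra h3
        push Not at h3
        rw [Om_one (by linarith), mul_one] at hpos
        have h4 := hw t ht' p1 hp1
        have h5 := hnn t ht' p2 hp2
        have h6 : M * exp (2 * (t - a) - p1) ≤ A * exp (-(1/2) * (p1 + p2)) := by
          have h7 : 2 * (t - a) - p1 ≤ 1/2 + (lam * (t - a) + -(1/2) * (p1 + p2)) := by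
            have := abs_le.1 hp3
            have h8 : 2 * (t - a) ≤ lam * (t - a) := by
              have : 0 ≤ t - a := by linarith [ht.1]
              gcongr
              rw [hlam]; linarith
            linarith [this.1]
          calc M * exp (2 * (t - a) - p1) ≤
              M * exp (1/2 + (lam * (t - a) + -(1/2) * (p1 + p2))) := by
                gcongr
            _ = M * (exp (1/2) * (exp (lam * (t - a)) * exp (-(1/2) * (p1 + p2)))) := by
                rw [exp_add, exp_add]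
            _ ≤ M * (2 * (exp (lam * (t - a)) * exp (-(1/2) * (p1 + p2)))) := by
                gcongr; exact exp_half_le
            _ = _ := by rw [hA]; ring
        linarith
      have hne : p1 ≠ p2 := by
        intro h3
        rw [h3] at hpos
        have : Om (|p2 - p2| * 1) = 0 := by
          rw [sub_self, abs_zero, zero_mul, Om_eq zero_le_one]; norm_num
        rw [this] at hpos
        linarith
      have hp1' : 0 < p1 := by
        rcases eq_or_lt_of_le hp1 with h3 | h3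
        · rw [← h3, h.z ht'] at hpos
          have h4 := hnn t ht' p2 hp2
          have h5 : 0 ≤ A * exp (-(1/2) * (0 + p2)) * Om (|0 - p2| * 1) := by
            have := Om_nonneg (z := |0 - p2| * 1) (by positivity)
            positivity
          linarith
        · exact h3
      obtain ⟨e, he, hr⟩ : ∃ e : ℝ, (e = 1 ∨ e = -1) ∧ 0 < e * (p1 - p2) := by
        rcases lt_or_gt_of_ne hne with h3 | h3
        · exact ⟨-1, Or.inr rfl, by linarith⟩
        · exact ⟨1, Or.inl rfl, by linarith⟩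
      have habs : |p1 - p2| = e * (p1 - p2) := by
        rcases he with h1 | h1
        · rw [h1, one_mul] at hr ⊢; exact abs_of_pos hr
        · rw [h1] at hr ⊢; rw [abs_of_neg (by linarith)]; ring
      have hcore := twoPt_core (A := A) (μ := 1/2) (q := 1) (e := e) (p1 := p1) (p2 := p2)
        (h.dg t ht') (h.dv t htJ) one_pos he hr (by rw [mul_one, ← habs]; exact hz1) (by
          have h4 : ∀ᶠ x : ℝ × ℝ in 𝓝 (p1, p2), 0 < x.1 :=
            continuous_fst.continuousAt.eventually (lt_mem_nhds hp1')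
          have h5 : ∀ᶠ x : ℝ × ℝ in 𝓝 (p1, p2), |x.1 - x.2| < 1 :=
            (by fun_prop : Continuous fun x : ℝ × ℝ => |x.1 - x.2|).continuousAt.eventually
              (gt_mem_nhds hz1)
          filter_upwards [h4, h5] with x hx hx' hx2
          have := hmax x ⟨hx.le, hx2, hx'.le⟩
          linarith) hp2
      set r := e * (p1 - p2) with hrd
      have hr1 : r < 1 := by rw [← habs]; exact hz1
      set κ := A * exp (-(1/2) * (p1 + p2)) with hκ
      have hκ0 : 0 < κ := by positivity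
      obtain ⟨k1, k2, k3⟩ := hcore
      have hOmz : Om (|p1 - p2| * 1) = 2 * r - r ^ 2 := by
        rw [mul_one, Om_eq hz1.le, habs]
      rw [hOmz] at hpos
      have hΩ0 : 0 < 2 * r - r ^ 2 := by nlinarith
      have hOmt : HasDerivAt (fun s => 2 * M * exp (lam * (s - a)) * exp (-(1/2) * (p1 + p2)) *
          Om (|p1 - p2| * 1)) (lam * (κ * (2 * r - r ^ 2))) t := by
        have h1 := ((((((hasDerivAt_id t).sub_const a).const_mul lam).exp).const_mul
          (2 * M)).mul_const (exp (-(1/2) * (p1 + p2)))).mul_const (Om (|p1 - p2| * 1))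
        refine h1.congr_deriv ?_
        rw [hOmz, hκ, hA]
        simp only [id, mul_one]
        ring
      have hft := (((h.dt ht hp1).sub (h.dt ht hp2)).sub hOmt).sub_const ε
      refine ⟨_, ?_, hft⟩
      have hg2 : 0 ≤ g t p2 := hnn t ht' p2 hp2
      have hdiff : 0 ≤ g t p1 - g t p2 := by
        have : 0 < κ * (2 * r - r ^ 2) := by positivity
        linarith
      have hX : 0 ≤ g t p1 ^ 2 - g t p2 ^ 2 := by
        have h2 : g t p1 ^ 2 - g t p2 ^ 2 = (g t p1 - g t p2) * (g t p1 + g t p2) := by ring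
        rw [h2]
        exact mul_nonneg hdiff (by linarith only [hdiff, hg2])
      have hGG : e * ((∫ z in (0:ℝ)..p1, g t z) - ∫ z in (0:ℝ)..p2, g t z) ≤ 1 / a * r :=
        prim_diff (h.cg1 ht') (fun z hz => hle' t ht' z hz) (hnn t ht') hp1 hp2 he hr
      have hG1 : 0 ≤ ∫ z in (0:ℝ)..p1, g t z := prim_nonneg (hnn t ht') hp1
      have hG2 : 0 ≤ ∫ z in (0:ℝ)..p2, g t z := prim_nonneg (hnn t ht') hp2
      have hl : 2 * (1 / a) ≤ lam := by rw [hlam]; linarith
      have h1r : 0 < 2 - 2 * r := by linarith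
      rcases eq_or_lt_of_le hp2 with h3 | h3
      · have he1 : e = 1 := by
          rcases he with h4 | h4
          · exact h4
          · rw [hrd, h4, ← h3] at hr
            linarith
        have hg20 : g t p2 = 0 := by
          rw [← h3]; exact h.z ht'
        have hw2 : w t p2 + qG g v t p2 = 0 := by
          have h4 := h.dt ht hp2
          have h5 : (fun s => g s p2) =ᶠ[𝓝 t] fun _ => 0 := by
            filter_upwards [Ioo_mem_nhds ht.1 ht.2] with s hs
            rw [← h3]; exact h.z ⟨hs.1.le, hs.2.le⟩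
          exact h4.unique ((hasDerivAt_const t (0:ℝ)).congr_of_eventuallyEq h5)
        have hv : qG g v t p1 = (∫ z in (0:ℝ)..p1, g t z) * v t p1 - g t p1 ^ 2 := rfl
        have hG20 : (∫ z in (0:ℝ)..p2, g t z) = 0 := by rw [← h3]; simp
        rw [hG20, sub_zero, he1, one_mul] at hGG
        have h6 : (∫ z in (0:ℝ)..p1, g t z) * v t p1 ≤ κ * (1 / a * r * (2 - 2 * r)) := by
          rw [k1, he1]
          calc (∫ z in (0:ℝ)..p1, g t z) * (κ * (1 * (2 * 1 - 2 * r * 1 ^ 2) -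
                1 / 2 * (2 * r * 1 - r ^ 2 * 1 ^ 2))) =
              (∫ z in (0:ℝ)..p1, g t z) * (κ * (2 - 2 * r)) -
                (∫ z in (0:ℝ)..p1, g t z) * (κ * (1/2 * (2 * r - r ^ 2))) := by ring
            _ ≤ (1 / a * r) * (κ * (2 - 2 * r)) - 0 := by
                gcongr
                positivity
            _ = _ := by ring
        have h7 : w t p1 ≤ κ * (-2 + 1/4 * (2 * r - r ^ 2)) := by
          refine k2.trans ?_
          rw [he1]
          refine mul_le_mul_of_nonneg_left ?_ hκ0.le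
          linarith only [h1r]
        have h8 := two_arithW hκ0 hr hr1 hai hl hX h7 h6
        rw [hw2, sub_zero, hv]
        rw [hg20] at h8
        linarith
      · obtain ⟨k4, k5⟩ := k3 h3
        have hv : qG g v t p1 = (∫ z in (0:ℝ)..p1, g t z) * v t p1 - g t p1 ^ 2 := rfl
        have hv2 : qG g v t p2 = (∫ z in (0:ℝ)..p2, g t z) * v t p2 - g t p2 ^ 2 := rfl
        have h6 : (∫ z in (0:ℝ)..p1, g t z) * v t p1 - (∫ z in (0:ℝ)..p2, g t z) * v t p2 ≤
            κ * (1 / a * r * (2 - 2 * r)) := by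
          rw [k1, k4]
          calc (∫ z in (0:ℝ)..p1, g t z) * (κ * (e * (2 * 1 - 2 * r * 1 ^ 2) -
                1 / 2 * (2 * r * 1 - r ^ 2 * 1 ^ 2))) -
                (∫ z in (0:ℝ)..p2, g t z) * (κ * (e * (2 * 1 - 2 * r * 1 ^ 2) +
                1 / 2 * (2 * r * 1 - r ^ 2 * 1 ^ 2))) =
              (e * ((∫ z in (0:ℝ)..p1, g t z) - ∫ z in (0:ℝ)..p2, g t z)) * (κ * (2 - 2 * r)) -
                ((∫ z in (0:ℝ)..p1, g t z) + ∫ z in (0:ℝ)..p2, g t z) *
                  (κ * (1/2 * (2 * r - r ^ 2))) := by ring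
            _ ≤ (1 / a * r) * (κ * (2 - 2 * r)) - 0 := by
                gcongr
                positivity
            _ = _ := by ring
        have h7 : w t p1 - w t p2 ≤ κ * (-2 + 1/4 * (2 * r - r ^ 2)) := by
          refine k5.trans ?_
          refine mul_le_mul_of_nonneg_left ?_ hκ0.le
          linarith only [hΩ0]
        have h8 := two_arithW hκ0 hr hr1 hai hl hX h7 h6
        rw [hv, hv2]
        linarith
  intro t ht x y hx hy hxy
  by_contra h3
  push Not at h3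
  have := key ((g t x - g t y - 2 * M * exp (lam * (t - a)) * exp (-(1/2) * (x + y)) *
        Om (|x - y| * 1)) / 2) (by linarith) t ht (x, y) ⟨hx, hy, hxy⟩
  simp only at this
  linarith

theorem Om_le_two {z : ℝ} (h : 0 ≤ z) : Om z ≤ 2 * z := by
  rcases le_total z 1 with h1 | h1
  · rw [Om_eq h1]; nlinarith
  · rw [Om_one h1]; linarith

/-- From increments to derivatives. -/
theorem deriv_bound {f : ℝ → ℝ} {d y M : ℝ} (hf : HasDerivAt f d y)
    (h : ∀ᶠ z in 𝓝[>] y, |f z - f y| ≤ M * (z - y)) : |d| ≤ M := by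
  have h1 : Tendsto (slope f y) (𝓝[>] y) (𝓝 d) :=
    hf.tendsto_slope.mono_left (nhdsWithin_mono y fun s hs => ne_of_gt hs)
  refine le_of_tendsto h1.abs ?_
  filter_upwards [h, self_mem_nhdsWithin] with z hz hz'
  have : 0 < z - y := by
    have : y < z := hz'
    linarith
  rw [slope_def_field, abs_div, abs_of_pos this, div_le_iff₀ this]
  exact hz

/-- The gradient bound. -/
theorem Sol.grad (h : Sol (Icc a b) (Ioc a b) g v w) (ha : 0 < a) (hab : a < b)
    (hnn : ∀ t ∈ Icc a b, ∀ y, 0 ≤ y → 0 ≤ g t y)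
    (hle : ∀ t ∈ Icc a b, ∀ y, 0 ≤ y → t * g t y ≤ 1) {σ : ℝ} (hσ : 0 < σ) (hσa : σ ≤ a)
    (h0 : ∀ x y, 0 ≤ x → 0 ≤ y → a * √σ * (g a x - g a y) ≤ |x - y|) :
    ∀ t ∈ Ico a b, ∀ y, 0 ≤ y → |v t y| ≤ 2 / t * (√(t - a + σ))⁻¹ := by
  intro t ht y hy
  have ht' : t ∈ Icc a b := ⟨ht.1, ht.2.le⟩
  have ht0 : 0 < t := ha.trans_le ht.1
  have key := h.twoPt ha hab hnn hle hσ hσa h0 t ht
  refine deriv_bound (h.dg t ht' y) ?_
  filter_upwards [self_mem_nhdsWithin] with z hz
  have hz' : y < z := hz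
  have hz0 : 0 ≤ z := by linarith
  have e1 := key z y hz0 hy
  have e2 := key y z hy hz0
  rw [abs_sub_comm y z] at e2
  have habs : |z - y| = z - y := abs_of_pos (by linarith)
  rw [habs] at e1 e2
  have e3 : Om ((z - y) * (√(t - a + σ))⁻¹) ≤ 2 * ((z - y) * (√(t - a + σ))⁻¹) :=
    Om_le_two (by have : 0 ≤ z - y := by linarith
                  positivity)
  have e4 : 1 / t * Om ((z - y) * (√(t - a + σ))⁻¹) ≤ 2 / t * (√(t - a + σ))⁻¹ * (z - y) := by
    calc _ ≤ 1 / t * (2 * ((z - y) * (√(t - a + σ))⁻¹)) := by gcongr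
      _ = _ := by ring
  rw [abs_le]
  constructor <;> linarith

/-- The weighted gradient bound. -/
theorem Sol.gradW (h : Sol (Icc a b) (Ioc a b) g v w) (ha : 0 < a) (hab : a < b)
    (hnn : ∀ t ∈ Icc a b, ∀ y, 0 ≤ y → 0 ≤ g t y)
    (hle : ∀ t ∈ Icc a b, ∀ y, 0 ≤ y → t * g t y ≤ 1) {M : ℝ} (hM : 0 < M)
    (hw : ∀ t ∈ Icc a b, ∀ y, 0 ≤ y → g t y ≤ M * exp (2 * (t - a) - y))
    (h0 : ∀ y, 0 ≤ y → |v a y| ≤ M * exp (-y)) :
    ∀ t ∈ Ico a b, ∀ y, 0 ≤ y →
      |v t y| ≤ 4 * M * exp ((2 * (1 / a) + 2) * (t - a)) * exp (-y) := by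
  intro t ht y hy
  have ht' : t ∈ Icc a b := ⟨ht.1, ht.2.le⟩
  have key := h.twoPtW ha hab hnn hle hM hw h0 t ht
  refine deriv_bound (h.dg t ht' y) ?_
  filter_upwards [self_mem_nhdsWithin, Ioo_mem_nhdsGT (show y < y + 1 by linarith)] with z hz hz1
  have hz' : y < z := hz
  have hz0 : 0 ≤ z := by linarith
  have habs : |z - y| = z - y := abs_of_pos (by linarith)
  have habs' : |z - y| ≤ 1 := by rw [habs]; linarith [hz1.2]
  have e1 := key z y hz0 hy habs'
  have e2 := key y z hy hz0 (by rw [abs_sub_comm]; exact habs')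
  rw [abs_sub_comm y z, add_comm y z] at e2
  rw [habs] at e1 e2
  have e3 : Om ((z - y) * 1) ≤ 2 * ((z - y) * 1) := Om_le_two (by linarith)
  have e5 : exp (-(1/2) * (z + y)) ≤ exp (-y) := exp_le_exp.2 (by linarith)
  have hOn : 0 ≤ Om ((z - y) * 1) := Om_nonneg (by linarith)
  have e4 : 2 * M * exp ((2 * (1 / a) + 2) * (t - a)) * exp (-(1/2) * (z + y)) * Om ((z - y) * 1) ≤
      4 * M * exp ((2 * (1 / a) + 2) * (t - a)) * exp (-y) * (z - y) := by
    calc _ ≤ 2 * M * exp ((2 * (1 / a) + 2) * (t - a)) * exp (-y) * (2 * ((z - y) * 1)) := by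
          gcongr
      _ = _ := by ring
  rw [abs_le]
  constructor <;> linarith

end apriori

end Pool.Agent.Lib.MP_79abb3_an
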